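import Mathlib

set_option autoImplicit false

/-!
# The normed dual as a type of its own

`NDual 𝕜 E` is the Banach space dual of `E`, with the operator norm. It is the same type as
`StrongDual 𝕜 E`; the synonym only helps Lean to find the normed space structure of its subspaces.
-/

namespace Pool.Agent.X202

variable {𝕜 E : Type*} [RCLike 𝕜] [NormedAddCommGroup E] [NormedSpace 𝕜 E]

/-- The normed dual of `E`: the bounded linear functionals on `E` with the operator norm. -/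
def NDual (𝕜 E : Type*) [RCLike 𝕜] [NormedAddCommGroup E] [NormedSpace 𝕜 E] : Type _ :=
  StrongDual 𝕜 E

noncomputable instance : NormedAddCommGroup (NDual 𝕜 E) :=
  inferInstanceAs (NormedAddCommGroup (StrongDual 𝕜 E))

noncomputable instance : NormedSpace 𝕜 (NDual 𝕜 E) :=
  inferInstanceAs (NormedSpace 𝕜 (StrongDual 𝕜 E))

instance : CompleteSpace (NDual 𝕜 E) :=
  inferInstanceAs (CompleteSpace (StrongDual 𝕜 E))

/-- An element of the normed dual, as a bounded linear functional. -/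
def NDual.toCLM (g : NDual 𝕜 E) : StrongDual 𝕜 E := g

/-- A bounded linear functional, as an element of the normed dual. -/
def NDual.of (g : StrongDual 𝕜 E) : NDual 𝕜 E := g

@[simp] theorem NDual.toCLM_of (g : StrongDual 𝕜 E) : (NDual.of g).toCLM = g := rfl

@[simp] theorem NDual.of_toCLM (g : NDual 𝕜 E) : NDual.of g.toCLM = g := rfl

@[simp] theorem NDual.toCLM_add (g h : NDual 𝕜 E) : (g + h).toCLM = g.toCLM + h.toCLM := rfl

@[simp] theorem NDual.toCLM_sub (g h : NDual 𝕜 E) : (g - h).toCLM = g.toCLM - h.toCLM := rfl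

@[simp] theorem NDual.toCLM_neg (g : NDual 𝕜 E) : (-g).toCLM = -g.toCLM := rfl

@[simp] theorem NDual.toCLM_smul (c : 𝕜) (g : NDual 𝕜 E) : (c • g).toCLM = c • g.toCLM := rfl

@[simp] theorem NDual.toCLM_zero : (0 : NDual 𝕜 E).toCLM = 0 := rfl

theorem NDual.norm_toCLM (g : NDual 𝕜 E) : ‖g.toCLM‖ = ‖g‖ := rfl

theorem NDual.norm_of (g : StrongDual 𝕜 E) : ‖NDual.of g‖ = ‖g‖ := rfl

theorem NDual.ext {g h : NDual 𝕜 E} (H : ∀ y, g.toCLM y = h.toCLM y) : g = h :=
  ContinuousLinearMap.ext H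

theorem NDual.le_opNorm (g : NDual 𝕜 E) (y : E) : ‖g.toCLM y‖ ≤ ‖g‖ * ‖y‖ :=
  ContinuousLinearMap.le_opNorm g.toCLM y

theorem NDual.opNorm_le_bound (g : NDual 𝕜 E) {M : ℝ} (hM : 0 ≤ M)
    (h : ∀ y, ‖g.toCLM y‖ ≤ M * ‖y‖) : ‖g‖ ≤ M :=
  ContinuousLinearMap.opNorm_le_bound g.toCLM hM h

/-- The canonical map of `E` into the dual of a subspace `V` of its normed dual,
`canon V y g = g y`. -/
noncomputable def canon (V : Submodule 𝕜 (NDual 𝕜 E)) : E →L[𝕜] StrongDual 𝕜 V :=
  LinearMap.mkContinuous₂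
    (LinearMap.mk₂ 𝕜 (fun (y : E) (g : V) => (g : NDual 𝕜 E).toCLM y)
      (fun a b g => map_add _ _ _) (fun c a g => map_smul _ _ _)
      (fun a g h => rfl) (fun c a g => rfl))
    1 (fun y g => by
      rw [one_mul, mul_comm]
      exact NDual.le_opNorm (g : NDual 𝕜 E) y)

theorem canon_apply (V : Submodule 𝕜 (NDual 𝕜 E)) (y : E) (g : V) :
    canon V y g = (g : NDual 𝕜 E).toCLM y := rfl

theorem norm_canon_le (V : Submodule 𝕜 (NDual 𝕜 E)) (y : E) : ‖canon V y‖ ≤ ‖y‖ := by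
  refine ContinuousLinearMap.opNorm_le_bound _ (norm_nonneg _) fun g => ?_
  rw [canon_apply, mul_comm]
  exact NDual.le_opNorm (g : NDual 𝕜 E) y

end Pool.Agent.X202
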