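import Mathlib

set_option autoImplicit false

open Filter Topology

namespace Pool.Agent.X202

variable {𝕜 : Type*} [RCLike 𝕜]

/-- Hahn-Banach for a functional given on the image of a linear map. -/
theorem extend_along {V E : Type*} [AddCommGroup V] [Module 𝕜 V] [NormedAddCommGroup E]
    [NormedSpace 𝕜 E]
    (T : V →ₗ[𝕜] E) (L : V →ₗ[𝕜] 𝕜) (C : ℝ) (hC : 0 ≤ C) (h : ∀ v, ‖L v‖ ≤ C * ‖T v‖) :
    ∃ F : StrongDual 𝕜 E, ‖F‖ ≤ C ∧ ∀ v, F (T v) = L v := by
  obtain ⟨g, hg⟩ := T.rangeRestrict.exists_rightInverse_of_surjective T.range_rangeRestrict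
  have hg' : ∀ w : LinearMap.range T, T (g w) = w := fun w => by
    have := LinearMap.congr_fun hg w
    exact congrArg Subtype.val this
  let f0 : LinearMap.range T →ₗ[𝕜] 𝕜 := L.comp g
  let f : LinearMap.range T →L[𝕜] 𝕜 := f0.mkContinuous C (fun w => by
    have := h (g w)
    rw [hg'] at this
    exact this)
  obtain ⟨F, hF, hFn⟩ := exists_extension_norm_eq (LinearMap.range T) f
  refine ⟨F, ?_, ?_⟩
  · rw [hFn]; exact LinearMap.mkContinuous_norm_le _ hC _
  · intro v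
    have h1 := hF ⟨T v, LinearMap.mem_range_self T v⟩
    have h2 : F (T v) = L (g ⟨T v, LinearMap.mem_range_self T v⟩) := h1
    rw [h2, ← sub_eq_zero, ← map_sub, ← norm_eq_zero]
    have h3 := h (g ⟨T v, LinearMap.mem_range_self T v⟩ - v)
    rw [map_sub T, hg', sub_self, norm_zero, mul_zero] at h3
    exact le_antisymm h3 (norm_nonneg _)

/-- Successive approximation: if every `ξ` of a closed subspace can be approximated up to half its
norm by some `u y` with `‖y‖ ≤ ‖ξ‖`, then `u` hits every such `ξ` by a `y` with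
`‖y‖ ≤ 2 * ‖ξ‖`. -/
theorem exists_preimage_of_approx {E F : Type*} [NormedAddCommGroup E] [NormedSpace 𝕜 E]
    [CompleteSpace E] [NormedAddCommGroup F] [NormedSpace 𝕜 F] (u : E →L[𝕜] F)
    (S : Submodule 𝕜 F) (hu : ∀ y, u y ∈ S)
    (happ : ∀ ξ ∈ S, ∃ y : E, ‖y‖ ≤ ‖ξ‖ ∧ ‖ξ - u y‖ ≤ ‖ξ‖ / 2) (ξ : F) (hξ : ξ ∈ S) :
    ∃ y : E, ‖y‖ ≤ 2 * ‖ξ‖ ∧ u y = ξ := by
  have h1 : ∀ ξ : S, ∃ y : E, ‖y‖ ≤ ‖(ξ : F)‖ ∧ ‖(ξ : F) - u y‖ ≤ ‖(ξ : F)‖ / 2 :=
    fun ξ => happ ξ ξ.2
  choose h hh1 hh2 using h1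
  let step : S → S := fun w => w - ⟨u (h w), hu _⟩
  let z : ℕ → S := fun n => step^[n] ⟨ξ, hξ⟩
  have hz : ∀ n, (z (n + 1) : F) = (z n : F) - u (h (z n)) := fun n => by
    have h0 : z (n + 1) = step (z n) := Function.iterate_succ_apply' _ _ _
    rw [h0]
    rfl
  have hz0 : (z 0 : F) = ξ := rfl
  have hzn : ∀ n, ‖(z n : F)‖ ≤ (1 / 2) ^ n * ‖ξ‖ := by
    intro n
    induction n with
    | zero => rw [hz0]; simp
    | succ n ih =>
      rw [hz]
      refine (hh2 (z n)).trans ?_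
      rw [pow_succ]
      linarith
  have hs : Summable fun n : ℕ => ((1 : ℝ) / 2) ^ n * ‖ξ‖ := summable_geometric_two.mul_right _
  have hsum : Summable fun n => h (z n) :=
    Summable.of_norm_bounded hs fun n => (hh1 _).trans (hzn n)
  refine ⟨∑' n, h (z n), ?_, ?_⟩
  · refine tsum_of_norm_bounded ?_ fun n => (hh1 _).trans (hzn n)
    exact hasSum_geometric_two.mul_right _
  · have h2 := (hsum.hasSum.mapL u).tendsto_sum_nat
    have h3 : ∀ n, ∑ i ∈ Finset.range n, u (h (z i)) = ξ - z n := by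
      intro n
      induction n with
      | zero => simp [hz0]
      | succ n ih => rw [Finset.sum_range_succ, ih, hz]; abel
    have h4 : Tendsto (fun n => (z n : F)) atTop (𝓝 0) := by
      refine squeeze_zero_norm hzn ?_
      have := (tendsto_pow_atTop_nhds_zero_of_lt_one (r := (1 / 2 : ℝ)) (by norm_num)
        (by norm_num)).mul_const ‖ξ‖
      simpa using this
    have h5 : Tendsto (fun n => ∑ i ∈ Finset.range n, u (h (z i))) atTop (𝓝 ξ) := by
      simp only [h3]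
      simpa using tendsto_const_nhds.sub h4
    exact tendsto_nhds_unique h2 h5

end Pool.Agent.X202
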