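import Mathlib
import Pool.Agent.X202.Tools
import Pool.Agent.X202.NDual
import Pool.Agent.Helper31.Helly

/-!
# If the functionals of an M-basis form a boundedly complete M-basis, the M-basis is shrinking
-/

open Filter Topology Pool.Agent.X202

namespace Pool.Agent.X202.Shrink

section Defs

variable {𝕜 E : Type*} [RCLike 𝕜] [NormedAddCommGroup E] [NormedSpace 𝕜 E]

/-- M-basis of `E` with its associated sequence of functionals. -/
structure IsMBasis (x : ℕ → E) (f : ℕ → StrongDual 𝕜 E) : Prop where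
  dense : Dense (Submodule.span 𝕜 (Set.range x) : Set E)
  biorth : ∀ i j, f i (x j) = if i = j then 1 else 0
  total : ∀ y, (∀ i, f i y = 0) → y = 0

/-- The closed linear span `[f_n]` in the dual. -/
noncomputable def closedSpan (f : ℕ → StrongDual 𝕜 E) : Submodule 𝕜 (NDual 𝕜 E) :=
  (Submodule.span 𝕜 (Set.range fun n => NDual.of (f n))).topologicalClosure

/-- The M-basis is shrinking: the closed span of the associated functionals is the whole dual. -/
def IsShrinking (f : ℕ → StrongDual 𝕜 E) : Prop := closedSpan f = ⊤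

/-- The M-basis with associated functionals `f` is boundedly complete: whenever `y j` is bounded
and `f n (y j) → α n` for every `n`, some `y` has `f n y = α n` for all `n`. -/
def IsBoundedlyComplete (f : ℕ → StrongDual 𝕜 E) : Prop :=
  ∀ (y : ℕ → E) (α : ℕ → 𝕜), (∃ C : ℝ, ∀ j, ‖y j‖ ≤ C) →
    (∀ n, Tendsto (fun j => f n (y j)) atTop (𝓝 (α n))) → ∃ z : E, ∀ n, f n z = α n

/-- The functionals `f n` as elements of the Banach space `[f_n]`. -/
noncomputable def inSpan (f : ℕ → StrongDual 𝕜 E) (n : ℕ) : closedSpan f :=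
  ⟨NDual.of (f n), Submodule.le_topologicalClosure _ (Submodule.subset_span ⟨n, rfl⟩)⟩

/-- The canonical image `u (x n)` of `x n` in the dual of `[f_n]`: `u y g = g y`. -/
noncomputable def uOf (f : ℕ → StrongDual 𝕜 E) (y : E) : StrongDual 𝕜 (closedSpan f) :=
  canon (closedSpan f) y

end Defs

variable {𝕜 E : Type*} [RCLike 𝕜] [NormedAddCommGroup E] [NormedSpace 𝕜 E]
  {x : ℕ → E} {f : ℕ → StrongDual 𝕜 E}

/-- The functionals of an M-basis form an M-basis of their closed span, with associated functionals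
`uOf f (x n)`. -/
theorem isMBasis_dual (h : IsMBasis x f) :
    IsMBasis (𝕜 := 𝕜) (E := closedSpan f) (inSpan f) (fun n => uOf f (x n)) where
  dense := by
    intro g
    rw [mem_closure_iff_seq_limit]
    have hg : (g : NDual 𝕜 E) ∈
      closure (Submodule.span 𝕜 (Set.range fun n => NDual.of (f n)) : Set (NDual 𝕜 E)) := g.2
    obtain ⟨w, hw1, hw2⟩ := mem_closure_iff_seq_limit.1 hg
    refine ⟨fun n => ⟨w n, Submodule.le_topologicalClosure _ (hw1 n)⟩, fun n => ?_, ?_⟩
    · have h1 : ∀ v ∈ Submodule.span 𝕜 (Set.range fun n => NDual.of (f n)),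
          ∀ hv : v ∈ closedSpan f,
          (⟨v, hv⟩ : closedSpan f) ∈ Submodule.span 𝕜 (Set.range (inSpan f)) := by
        intro v hv
        induction hv using Submodule.span_induction with
        | mem v hv =>
          obtain ⟨n, rfl⟩ := hv
          intro hv
          exact Submodule.subset_span ⟨n, rfl⟩
        | zero => intro hv; exact Submodule.zero_mem _
        | add a b ha hb iha ihb =>
          intro hv
          have ha' : a ∈ closedSpan f := Submodule.le_topologicalClosure _ ha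
          have hb' : b ∈ closedSpan f := Submodule.le_topologicalClosure _ hb
          exact Submodule.add_mem _ (iha ha') (ihb hb')
        | smul c a ha iha =>
          intro hv
          have ha' : a ∈ closedSpan f := Submodule.le_topologicalClosure _ ha
          exact Submodule.smul_mem _ c (iha ha')
      exact h1 _ (hw1 n) _
    · exact tendsto_subtype_rng.2 hw2
  biorth := by
    intro i j
    change f j (x i) = _
    rw [h.biorth]
    simp only [eq_comm]
  total := by
    intro g hg
    apply Subtype.ext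
    have h1 : ∀ y ∈ Submodule.span 𝕜 (Set.range x), (g : NDual 𝕜 E).toCLM y = 0 := by
      intro y hy
      induction hy using Submodule.span_induction with
      | mem y hy => obtain ⟨n, rfl⟩ := hy; exact hg n
      | zero => simp
      | add a b _ _ ha hb => rw [map_add, ha, hb, add_zero]
      | smul c a _ ha => rw [map_smul, ha, smul_zero]
    refine NDual.ext fun y => ?_
    exact h.dense.induction (P := fun y => (g : NDual 𝕜 E).toCLM y = 0) (fun y hy => h1 y hy)
      (isClosed_eq (g : NDual 𝕜 E).toCLM.continuous continuous_const) y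

/-- Every functional on `[f_n]^*` is, on the range of `canon`, evaluation at an element of
`[f_n]`. -/
theorem lift (h : IsMBasis x f) (hbc : IsBoundedlyComplete (fun n => uOf f (x n)))
    (Φ : StrongDual 𝕜 (StrongDual 𝕜 (closedSpan f))) :
    ∃ g : closedSpan f, ∀ y : E, (g : NDual 𝕜 E).toCLM y = Φ (canon (closedSpan f) y) := by
  have h1 : ∀ N : ℕ, ∃ e : closedSpan f, ‖e‖ < ‖Φ‖ + 1 ∧
      ∀ i : Fin N, canon (closedSpan f) (x i) e = Φ (canon (closedSpan f) (x i)) := fun N =>
    Pool.Agent.Helper31.Helly.helly (fun i : Fin N => canon (closedSpan f) (x i)) Φ (by linarith)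
  choose e he1 he2 using h1
  obtain ⟨g, hg⟩ := hbc e (fun n => Φ (canon (closedSpan f) (x n))) ⟨‖Φ‖ + 1, fun j => (he1 j).le⟩ (by
    intro n
    refine tendsto_const_nhds.congr' ?_
    filter_upwards [eventually_gt_atTop n] with N hN
    exact (he2 N ⟨n, hN⟩).symm)
  refine ⟨g, fun y => ?_⟩
  have h2 : ∀ y ∈ Submodule.span 𝕜 (Set.range x),
      (g : NDual 𝕜 E).toCLM y = Φ (canon (closedSpan f) y) := by
    intro y hy
    induction hy using Submodule.span_induction with
    | mem y hy => obtain ⟨n, rfl⟩ := hy; exact hg n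
    | zero => simp
    | add a b _ _ ha hb => rw [map_add, map_add, map_add, ha, hb]
    | smul c a _ ha => rw [map_smul, map_smul, map_smul, ha]
  exact h.dense.induction (P := fun y => (g : NDual 𝕜 E).toCLM y = Φ (canon (closedSpan f) y))
    (fun y hy => h2 y hy)
    (isClosed_eq (g : NDual 𝕜 E).toCLM.continuous (Φ.continuous.comp (canon (closedSpan f)).continuous)) y

/-- Unit vectors of the closure of the range of `canon` are limits of images of the unit ball. -/
theorem mem_closure_image (h : IsMBasis x f) (hbc : IsBoundedlyComplete (fun n => uOf f (x n)))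
    {ξ : StrongDual 𝕜 (closedSpan f)} (hξ : ξ ∈ closure (Set.range (canon (closedSpan f)))) (hξ1 : ‖ξ‖ ≤ 1) :
    ξ ∈ closure (canon (closedSpan f) '' Metric.closedBall (0 : E) 1) := by
  by_contra hcon
  have hconv : Convex ℝ (closure (canon (closedSpan f) '' Metric.closedBall (0 : E) 1)) := by
    apply Convex.closure
    rintro _ ⟨a, ha, rfl⟩ _ ⟨b, hb, rfl⟩ s t hs ht hst
    refine ⟨(s : 𝕜) • a + (t : 𝕜) • b, ?_, ?_⟩
    · rw [mem_closedBall_zero_iff] at ha hb ⊢
      calc ‖(s : 𝕜) • a + (t : 𝕜) • b‖ ≤ ‖(s : 𝕜) • a‖ + ‖(t : 𝕜) • b‖ := norm_add_le _ _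
        _ = s * ‖a‖ + t * ‖b‖ := by
          rw [norm_smul, norm_smul, RCLike.norm_ofReal, RCLike.norm_ofReal, abs_of_nonneg hs,
            abs_of_nonneg ht]
        _ ≤ s * 1 + t * 1 := by gcongr
        _ = 1 := by linarith
    · rw [map_add, map_smul, map_smul, RCLike.real_smul_eq_coe_smul (K := 𝕜),
        RCLike.real_smul_eq_coe_smul (K := 𝕜)]
  obtain ⟨Φ, t, hΦ1, hΦ2⟩ := RCLike.geometric_hahn_banach_closed_point (𝕜 := 𝕜) hconv
    isClosed_closure hcon
  have ht : 0 < t := by
    have := hΦ1 0 (subset_closure ⟨0, by simp, by simp⟩)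
    simpa using this
  obtain ⟨g, hg⟩ := lift h hbc Φ
  -- the norm of `g`
  have hgn : ‖(g : NDual 𝕜 E).toCLM‖ ≤ t := by
    have hball : ∀ y : E, ‖y‖ ≤ 1 → ‖(g : NDual 𝕜 E).toCLM y‖ ≤ t := by
      intro y hy
      obtain ⟨c, hc1, hc2⟩ := RCLike.exists_norm_mul_eq_self ((g : NDual 𝕜 E).toCLM y)
      have hc2' : ((‖(g : NDual 𝕜 E).toCLM y‖ : ℝ) : 𝕜) = (starRingEnd 𝕜 c) * (g : NDual 𝕜 E).toCLM y := by
        have : (starRingEnd 𝕜 c) * c = 1 := by
          rw [RCLike.conj_mul, hc1]; simp
        rw [← hc2]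
        rw [← mul_assoc, this, one_mul, hc2]
      have h1 := hΦ1 (canon (closedSpan f) ((starRingEnd 𝕜 c) • y)) (subset_closure ⟨_, by
        rw [mem_closedBall_zero_iff, norm_smul, RCLike.norm_conj, hc1, one_mul]; exact hy, rfl⟩)
      rw [← hg, map_smul, smul_eq_mul, ← hc2', RCLike.ofReal_re] at h1
      exact h1.le
    exact ContinuousLinearMap.opNorm_le_of_unit_norm ht.le (fun y hy => hball y hy.le)
  -- the value at `ξ`
  have hval : Φ ξ = ξ g := by
    have hcl : IsClosed {η : StrongDual 𝕜 (closedSpan f) | Φ η = η g} := by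
      refine isClosed_eq Φ.continuous ?_
      exact (ContinuousLinearMap.apply 𝕜 𝕜 g).continuous
    have hsub : Set.range (canon (closedSpan f)) ⊆ {η : StrongDual 𝕜 (closedSpan f) | Φ η = η g} := by
      rintro _ ⟨y, rfl⟩
      change Φ (canon (closedSpan f) y) = canon (closedSpan f) y g
      rw [canon_apply, hg]
    exact closure_minimal hsub hcl hξ
  have h3 : RCLike.re (Φ ξ) ≤ t := by
    rw [hval]
    calc RCLike.re (ξ g) ≤ ‖ξ g‖ := RCLike.re_le_norm _
      _ ≤ ‖ξ‖ * ‖g‖ := ξ.le_opNorm g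
      _ ≤ 1 * t := by
        refine mul_le_mul hξ1 hgn (norm_nonneg _) zero_le_one
      _ = t := one_mul t
  linarith

/-- The canonical map is bounded below. -/
theorem bounded_below [CompleteSpace E] (h : IsMBasis x f)
    (hbc : IsBoundedlyComplete (fun n => uOf f (x n))) (y : E) : ‖y‖ ≤ 2 * ‖canon (closedSpan f) y‖ := by
  set S : Submodule 𝕜 (StrongDual 𝕜 (closedSpan f)) :=
    (LinearMap.range (canon (closedSpan f) : E →ₗ[𝕜] _)).topologicalClosure with hS
  have hSc : (S : Set (StrongDual 𝕜 (closedSpan f))) = closure (Set.range (canon (closedSpan f))) := by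
    rw [hS, Submodule.topologicalClosure_coe]
    rfl
  obtain ⟨z, hz1, hz2⟩ := Pool.Agent.X202.exists_preimage_of_approx (canon (closedSpan f)) S (by
    intro y
    have : canon (closedSpan f) y ∈ (S : Set (StrongDual 𝕜 (closedSpan f))) := by
      rw [hSc]; exact subset_closure ⟨y, rfl⟩
    exact this) (by
    intro ξ hξ
    rcases eq_or_ne ξ 0 with rfl | hξ0
    · exact ⟨0, by simp, by simp⟩
    have hn : 0 < ‖ξ‖ := norm_pos_iff.2 hξ0
    have hξ' : ((‖ξ‖⁻¹ : ℝ) : 𝕜) • ξ ∈ closure (Set.range (canon (closedSpan f))) := by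
      rw [← hSc]; exact S.smul_mem _ hξ
    have h1 := mem_closure_image h hbc hξ' (by
      rw [norm_smul, RCLike.norm_ofReal, abs_of_pos (by positivity), inv_mul_cancel₀ hn.ne'])
    obtain ⟨_, ⟨b, hb, rfl⟩, hb2⟩ := Metric.mem_closure_iff.1 h1 (1 / 2) (by norm_num)
    rw [mem_closedBall_zero_iff] at hb
    refine ⟨((‖ξ‖ : ℝ) : 𝕜) • b, ?_, ?_⟩
    · rw [norm_smul, RCLike.norm_ofReal, abs_of_pos hn]
      nlinarith
    · have h2 : ξ - canon (closedSpan f) (((‖ξ‖ : ℝ) : 𝕜) • b) =
          ((‖ξ‖ : ℝ) : 𝕜) • (((‖ξ‖⁻¹ : ℝ) : 𝕜) • ξ - canon (closedSpan f) b) := by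
        rw [smul_sub, smul_smul, map_smul, ← RCLike.ofReal_mul, mul_inv_cancel₀ hn.ne',
          RCLike.ofReal_one, one_smul]
      rw [h2, norm_smul, RCLike.norm_ofReal, abs_of_pos hn]
      rw [dist_eq_norm] at hb2
      nlinarith) (canon (closedSpan f) y) (by
    have : canon (closedSpan f) y ∈ (S : Set (StrongDual 𝕜 (closedSpan f))) := by
      rw [hSc]; exact subset_closure ⟨y, rfl⟩
    exact this)
  have hzy : z = y := by
    rw [← sub_eq_zero]
    apply h.total
    intro n
    have h1 : canon (closedSpan f) z (inSpan f n) = canon (closedSpan f) y (inSpan f n) := by rw [hz2]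
    change f n z = f n y at h1
    rw [map_sub, sub_eq_zero]
    exact h1
  rw [hzy] at hz1
  exact hz1

/-- Main theorem of this file. -/
theorem main (𝕜 : Type*) [RCLike 𝕜] (E : Type*) [NormedAddCommGroup E] [NormedSpace 𝕜 E]
    [CompleteSpace E] (x : ℕ → E) (f : ℕ → StrongDual 𝕜 E) (h : IsMBasis x f)
    (hbc : IsBoundedlyComplete (fun n => uOf f (x n))) : IsShrinking f := by
  unfold IsShrinking
  rw [eq_top_iff]
  intro φ _
  obtain ⟨Φ, -, hΦ⟩ := Pool.Agent.X202.extend_along (canon (closedSpan f)).toLinearMap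
    φ.toCLM.toLinearMap (2 * ‖φ‖) (by positivity) (by
      intro y
      change ‖φ.toCLM y‖ ≤ 2 * ‖φ‖ * ‖canon (closedSpan f) y‖
      calc ‖φ.toCLM y‖ ≤ ‖φ‖ * ‖y‖ := φ.le_opNorm y
        _ ≤ ‖φ‖ * (2 * ‖canon (closedSpan f) y‖) := by
          gcongr
          exact bounded_below h hbc y
        _ = 2 * ‖φ‖ * ‖canon (closedSpan f) y‖ := by ring)
  obtain ⟨g, hg⟩ := lift h hbc Φ
  have : (g : NDual 𝕜 E) = φ := NDual.ext fun y => by
    rw [hg]; exact hΦ y
  rw [← this]
  exact g.2

end Pool.Agent.X202.Shrink
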