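import Mathlib

set_option autoImplicit false

/-!
# Quasi-greediness for largest coefficients: power bound for the threshold function
-/

namespace Pool.Agent.X202.QGLC

variable {X : Type} [AddCommGroup X] [Module ℝ X]

/-- `L`-QGLC with respect to a (semi)norm. -/
def IsQGLC (N : Seminorm ℝ X) (x : ℕ → X) (xs : ℕ → X →ₗ[ℝ] ℝ) (L : ℝ) : Prop :=
  ∀ (A : Finset ℕ) (ε : ℕ → ℝ), (∀ n ∈ A, |ε n| = 1) → ∀ f : X, (∀ n, |xs n f| ≤ 1) →
    (∀ n ∈ A, xs n f = 0) →
    N (∑ n ∈ A, ε n • x n) ≤ L * N (∑ n ∈ A, ε n • x n + f)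

variable {N : Seminorm ℝ X} {x : ℕ → X} {xs : ℕ → X →ₗ[ℝ] ℝ} {L : ℝ}

theorem IsQGLC.mono {L' : ℝ} (h : IsQGLC N x xs L) (hL : L ≤ L') : IsQGLC N x xs L' := by
  intro A ε hε f hf hf0
  exact (h A ε hε f hf hf0).trans (mul_le_mul_of_nonneg_right hL (apply_nonneg N _))

/-- Convexity over the cube. -/
theorem cube (N : Seminorm ℝ X) (u : ℕ → X) (M : ℝ) (A : Finset ℕ) (c : ℕ → ℝ)
    (hc : ∀ n ∈ A, 0 ≤ c n ∧ c n ≤ 1) (v : X)
    (h : ∀ B ⊆ A, N (v + ∑ n ∈ B, u n) ≤ M) : N (v + ∑ n ∈ A, c n • u n) ≤ M := by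
  classical
  induction A using Finset.induction_on generalizing v with
  | empty => simpa using h ∅ (Finset.Subset.refl _)
  | insert a A ha ih =>
    rw [Finset.sum_insert ha]
    have hca := hc a (Finset.mem_insert_self _ _)
    have h1 := ih (fun n hn => hc n (Finset.mem_insert_of_mem hn)) v (fun B hB =>
      h B (hB.trans (Finset.subset_insert _ _)))
    have h2 := ih (fun n hn => hc n (Finset.mem_insert_of_mem hn)) (v + u a) (fun B hB => by
      have h3 := h (insert a B) (Finset.insert_subset_insert _ hB)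
      rw [Finset.sum_insert (fun h' => ha (hB h'))] at h3
      rwa [add_assoc])
    have h4 : v + (c a • u a + ∑ n ∈ A, c n • u n) =
        (1 - c a) • (v + ∑ n ∈ A, c n • u n) + c a • (v + u a + ∑ n ∈ A, c n • u n) := by
      module
    rw [h4]
    refine (map_add_le_add N _ _).trans ?_
    rw [map_smul_eq_mul, map_smul_eq_mul, Real.norm_eq_abs, Real.norm_eq_abs,
      abs_of_nonneg (by linarith : 0 ≤ 1 - c a), abs_of_nonneg hca.1]
    nlinarith

variable (hbi : ∀ m n : ℕ, xs m (x n) = if m = n then 1 else 0)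
include hbi

theorem xs_sum (A : Finset ℕ) (c : ℕ → ℝ) (m : ℕ) :
    xs m (∑ n ∈ A, c n • x n) = if m ∈ A then c m else 0 := by
  classical
  rw [map_sum]
  have h1 : ∀ n ∈ A, xs m (c n • x n) = if m = n then c n else 0 := by
    intro n _
    rw [map_smul, smul_eq_mul, hbi]
    split_ifs <;> simp
  rw [Finset.sum_congr rfl h1, Finset.sum_ite_eq]

theorem hull (h : IsQGLC N x xs L) (A : Finset ℕ) (ε : ℕ → ℝ) (hε : ∀ n ∈ A, |ε n| = 1)
    (c : ℕ → ℝ) (hc : ∀ n ∈ A, 0 ≤ c n ∧ c n ≤ 1) :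
    N (∑ n ∈ A, (c n * ε n) • x n) ≤ L * N (∑ n ∈ A, ε n • x n) := by
  classical
  have h1 := cube N (fun n => ε n • x n) (L * N (∑ n ∈ A, ε n • x n)) A c hc 0 (fun B hB => by
    rw [zero_add]
    have h2 := h B ε (fun n hn => hε n (hB hn)) (∑ n ∈ A \ B, ε n • x n) (fun n => by
      rw [xs_sum hbi]
      split_ifs with h3
      · exact (hε n (Finset.mem_sdiff.1 h3).1).le
      · rw [abs_zero]; exact zero_le_one) (fun n hn => by
      rw [xs_sum hbi, if_neg (fun h3 => (Finset.mem_sdiff.1 h3).2 hn)])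
    rw [add_comm, Finset.sum_sdiff hB] at h2
    exact h2)
  rw [zero_add] at h1
  simpa only [mul_smul] using h1

theorem step1 (h : IsQGLC N x xs L) (hL : 1 ≤ L) (f : X) (hf : ∀ n, |xs n f| ≤ 1)
    (A : Finset ℕ) (hA : ∀ n ∈ A, 1 - 1 / (2 * L ^ 2) ≤ |xs n f|) :
    N (∑ n ∈ A, xs n f • x n) ≤ 2 * L ^ 2 * N f := by
  classical
  have hL0 : 0 < L := by linarith
  have hL2 : 1 ≤ L ^ 2 := one_le_pow₀ hL
  have hδ : 1 / (2 * L ^ 2) ≤ 1 / 2 := by
    rw [div_le_div_iff₀ (by positivity) (by norm_num)]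
    linarith
  have hpos : ∀ n ∈ A, 0 < |xs n f| := fun n hn => by
    have := hA n hn
    linarith
  set ε : ℕ → ℝ := fun n => xs n f / |xs n f| with hε
  have hε1 : ∀ n ∈ A, |ε n| = 1 := fun n hn => by
    simp only [hε]
    rw [abs_div, abs_abs, div_self (hpos n hn).ne']
  have hmul : ∀ n ∈ A, |xs n f| * ε n = xs n f := fun n hn => by
    simp only [hε]
    rw [mul_div_cancel₀ _ (hpos n hn).ne']
  set S := ∑ n ∈ A, xs n f • x n with hS
  set E := ∑ n ∈ A, ε n • x n with hE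
  have h1 : N S ≤ L * N E := by
    have := hull hbi h A ε hε1 (fun n => |xs n f|) (fun n _ => ⟨abs_nonneg _, hf n⟩)
    rw [Finset.sum_congr rfl fun n hn => by rw [hmul n hn]] at this
    exact this
  have h2 : N (∑ n ∈ A, (((1 - |xs n f|) * (2 * L ^ 2)) * ε n) • x n) ≤ L * N E :=
    hull hbi h A ε hε1 _ (fun n hn => by
      refine ⟨mul_nonneg (by linarith [hf n]) (by positivity), ?_⟩
      have h3 := hA n hn
      have h4 : 1 - |xs n f| ≤ 1 / (2 * L ^ 2) := by linarith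
      rwa [le_div_iff₀ (by positivity)] at h4)
  have h3 : ∑ n ∈ A, (((1 - |xs n f|) * (2 * L ^ 2)) * ε n) • x n = (2 * L ^ 2) • (E - S) := by
    rw [hE, hS, ← Finset.sum_sub_distrib, Finset.smul_sum]
    refine Finset.sum_congr rfl fun n hn => ?_
    rw [← sub_smul, smul_smul]
    congr 1
    have := hmul n hn
    linear_combination (-(2 * L ^ 2)) * this
  rw [h3, map_smul_eq_mul, Real.norm_eq_abs, abs_of_pos (by positivity : (0 : ℝ) < 2 * L ^ 2)] at h2
  have h4 := h A ε hε1 (f - S) (fun n => by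
    rw [map_sub, hS, xs_sum hbi A (fun n => xs n f) n]
    split_ifs
    · rw [sub_self, abs_zero]; exact zero_le_one
    · rw [sub_zero]; exact hf n) (fun n hn => by
    rw [map_sub, hS, xs_sum hbi A (fun n => xs n f) n, if_pos hn, sub_self])
  have h5 : N (E + (f - S)) ≤ N f + N (E - S) := by
    have : E + (f - S) = f + (E - S) := by abel
    rw [this]
    exact map_add_le_add N _ _
  change N E ≤ L * N (E + (f - S)) at h4
  have hNf := apply_nonneg N f
  have hNE := apply_nonneg N E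
  have hNES := apply_nonneg N (E - S)
  -- N E ≤ L (N f + N (E - S)), 2 L^2 N(E-S) ≤ L N E
  have h6 : L * N (E - S) ≤ N E / 2 := by
    have h7 : 2 * L * (L * N (E - S)) ≤ L * N E := by
      calc 2 * L * (L * N (E - S)) = 2 * L ^ 2 * N (E - S) := by ring
        _ ≤ L * N E := h2
    have h8 : L * (2 * (L * N (E - S))) ≤ L * N E := by linarith
    have h9 := le_of_mul_le_mul_left h8 hL0
    linarith
  have h7 : N E ≤ 2 * L * N f := by
    have h8 := mul_le_mul_of_nonneg_left h5 hL0.le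
    nlinarith
  calc N S ≤ L * N E := h1
    _ ≤ L * (2 * L * N f) := mul_le_mul_of_nonneg_left h7 hL0.le
    _ = 2 * L ^ 2 * N f := by ring

/-- The power bound. -/
theorem power (h : IsQGLC N x xs L) (hL : 1 ≤ L)
    (hfin : ∀ f : X, ∀ t : ℝ, 0 < t → {n | t ≤ |xs n f|}.Finite) (k : ℕ) :
    ∀ f : X, (∀ n, |xs n f| ≤ 1) → ∀ A : Finset ℕ,
      (∀ n ∈ A, (1 - 1 / (2 * L ^ 2)) ^ k ≤ |xs n f|) →
      N (∑ n ∈ A, xs n f • x n) ≤ 2 * L ^ 2 * (1 + 4 * L ^ 2) ^ k * N f := by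
  classical
  have hL0 : 0 < L := by linarith
  have hL2 : 1 ≤ L ^ 2 := one_le_pow₀ hL
  have hδ : 1 / (2 * L ^ 2) ≤ 1 / 2 := by
    rw [div_le_div_iff₀ (by positivity) (by norm_num)]
    linarith
  have hδ0 : 0 < 1 / (2 * L ^ 2) := by positivity
  set θ : ℝ := 1 - 1 / (2 * L ^ 2) with hθ
  have hθ0 : 0 < θ := by linarith
  induction k with
  | zero =>
    intro f hf A hA
    rw [pow_zero, mul_one]
    refine step1 hbi h hL f hf A fun n hn => ?_
    have := hA n hn
    rw [pow_zero] at this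
    linarith
  | succ k ih =>
    intro f hf A hA
    set t : ℝ := θ ^ k with ht
    have ht0 : 0 < t := by positivity
    set A₁ : Finset ℕ := (hfin f t ht0).toFinset with hA1
    have hmem : ∀ n, n ∈ A₁ ↔ t ≤ |xs n f| := fun n => by rw [hA1, Set.Finite.mem_toFinset]; rfl
    have h1 := ih f hf A₁ fun n hn => (hmem n).1 hn
    set g := f - ∑ n ∈ A₁, xs n f • x n with hg
    have hgc : ∀ n, xs n g = if n ∈ A₁ then 0 else xs n f := by
      intro n
      rw [hg, map_sub, xs_sum hbi A₁ (fun n => xs n f) n]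
      split_ifs <;> simp
    have h2 := step1 hbi h hL (t⁻¹ • g) (fun n => by
      rw [map_smul, smul_eq_mul, abs_mul, abs_of_pos (inv_pos.2 ht0), inv_mul_le_iff₀ ht0, mul_one,
        hgc]
      split_ifs with h3
      · rw [abs_zero]; exact ht0.le
      · rw [hmem] at h3
        exact (not_le.1 h3).le) (A \ A₁) (fun n hn => by
      have h3 := Finset.mem_sdiff.1 hn
      rw [map_smul, smul_eq_mul, abs_mul, abs_of_pos (inv_pos.2 ht0), le_inv_mul_iff₀ ht0, hgc,
        if_neg h3.2]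
      have := hA n h3.1
      rwa [pow_succ] at this)
    have h4 : ∑ n ∈ A \ A₁, xs n (t⁻¹ • g) • x n = t⁻¹ • ∑ n ∈ A \ A₁, xs n f • x n := by
      rw [Finset.smul_sum]
      refine Finset.sum_congr rfl fun n hn => ?_
      rw [map_smul, smul_eq_mul, hgc, if_neg (Finset.mem_sdiff.1 hn).2, mul_smul]
    rw [h4, map_smul_eq_mul, map_smul_eq_mul, Real.norm_eq_abs, abs_of_pos (inv_pos.2 ht0)] at h2
    have h5 : N (∑ n ∈ A \ A₁, xs n f • x n) ≤ 2 * L ^ 2 * N g := by
      have h6 : t⁻¹ * N (∑ n ∈ A \ A₁, xs n f • x n) ≤ t⁻¹ * (2 * L ^ 2 * N g) := by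
        calc _ ≤ _ := h2
          _ = _ := by ring
      exact le_of_mul_le_mul_left h6 (inv_pos.2 ht0)
    have h6 : N g ≤ N f + N (∑ n ∈ A₁, xs n f • x n) := map_sub_le_add N _ _
    have h7 := ih f hf (A ∩ A₁) fun n hn => (hmem n).1 (Finset.mem_inter.1 hn).2
    have h8 : ∑ n ∈ A, xs n f • x n = ∑ n ∈ A \ A₁, xs n f • x n + ∑ n ∈ A ∩ A₁, xs n f • x n := by
      rw [← Finset.sum_union (Finset.disjoint_sdiff_inter _ _), Finset.sdiff_union_inter]
    rw [h8]
    refine (map_add_le_add N _ _).trans ?_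
    set B : ℝ := 2 * L ^ 2 * (1 + 4 * L ^ 2) ^ k with hB
    have hB1 : 1 ≤ B := by
      have : (1 : ℝ) ≤ (1 + 4 * L ^ 2) ^ k := one_le_pow₀ (by nlinarith)
      rw [hB]
      nlinarith
    have hNf := apply_nonneg N f
    have h9 : 2 * L ^ 2 * (1 + 4 * L ^ 2) ^ (k + 1) = B * (1 + 4 * L ^ 2) := by
      rw [hB, pow_succ]; ring
    rw [h9]
    have h10 : N g ≤ (1 + B) * N f := by linarith
    have h11 : 2 * L ^ 2 * N g ≤ 2 * L ^ 2 * ((1 + B) * N f) :=
      mul_le_mul_of_nonneg_left h10 (by positivity)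
    have h12 : 2 * L ^ 2 * ((1 + B) * N f) ≤ 2 * L ^ 2 * ((2 * B) * N f) := by
      refine mul_le_mul_of_nonneg_left (mul_le_mul_of_nonneg_right (by linarith) hNf)
        (by positivity)
    nlinarith

end Pool.Agent.X202.QGLC
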