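import Mathlib
import Pool.Agent.X202.QGLC

set_option autoImplicit false

/-!
# A Banach space with nearly unconditional bases of large threshold growth
-/

open scoped ENNReal

namespace Pool.Agent.X202.QGLCSpace

/-- levels: `(p, N, j)` -/
abbrev Lam : Type := ℕ × ℕ × ℕ

/-- the ratio -/
def qq (p : ℕ) : ℕ := 4 * (p + 1)

/-- the size of a level -/
def sz (l : Lam) : ℕ := if l.2.2 ≤ l.2.1 then qq l.1 ^ l.2.1 else 0

/-- the weight of a level -/
noncomputable def w (l : Lam) : ℝ := ((qq l.1 : ℝ) ^ l.2.2)⁻¹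

/-- `q ^ N` -/
noncomputable def qN (l : Lam) : ℝ := (qq l.1 : ℝ) ^ l.2.1

theorem qq_pos (p : ℕ) : 0 < qq p := by unfold qq; omega

theorem qq_pos' (p : ℕ) : (0 : ℝ) < qq p := by exact_mod_cast qq_pos p

theorem w_pos (l : Lam) : 0 < w l := by
  have := qq_pos' l.1
  unfold w; positivity

theorem qN_pos (l : Lam) : 0 < qN l := by
  have := qq_pos' l.1
  unfold qN; positivity

theorem sz_le (l : Lam) : (sz l : ℝ) ≤ qN l := by
  unfold sz qN
  split_ifs
  · push_cast; exact le_rfl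
  · have := qN_pos l
    unfold qN at this
    push_cast; exact this.le

theorem sz_eq {l : Lam} (h : l.2.2 ≤ l.2.1) : (sz l : ℝ) = qN l := by
  unfold sz qN
  rw [if_pos h]; push_cast; rfl

/-- The target of the embedding. -/
abbrev Tgt (l : Lam) : Type := (Fin (sz l) → ℝ) × PiLp 1 (fun _ : Fin (sz l) => ℝ)

/-- The embedding of a level. -/
noncomputable def Phi (l : Lam) : (Fin (sz l) → ℝ) →ₗ[ℝ] Tgt l where
  toFun v := (v, WithLp.toLp 1 (fun i => w l * v i))
  map_add' v v' := by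
    refine Prod.ext rfl ?_
    ext i
    simp only [Pi.add_apply, Prod.snd_add, PiLp.add_apply]
    ring
  map_smul' c v := by
    refine Prod.ext rfl ?_
    ext i
    simp only [Pi.smul_apply, smul_eq_mul, RingHom.id_apply, Prod.smul_snd, PiLp.smul_apply]
    ring

/-- The spaces of the levels. -/
def Z (l : Lam) : Type := Fin (sz l) → ℝ

noncomputable instance (l : Lam) : AddCommGroup (Z l) :=
  inferInstanceAs (AddCommGroup (Fin (sz l) → ℝ))

noncomputable instance (l : Lam) : Module ℝ (Z l) := inferInstanceAs (Module ℝ (Fin (sz l) → ℝ))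

instance (l : Lam) : FiniteDimensional ℝ (Z l) :=
  inferInstanceAs (FiniteDimensional ℝ (Fin (sz l) → ℝ))

/-- `Phi` on `Z`. -/
noncomputable def Ph (l : Lam) : Z l →ₗ[ℝ] Tgt l := Phi l

theorem Ph_injective (l : Lam) : Function.Injective (Ph l) := fun _ _ h => congrArg Prod.fst h

noncomputable instance (l : Lam) : NormedAddCommGroup (Z l) :=
  NormedAddCommGroup.induced (Z l) (Tgt l) (Ph l) (Ph_injective l)

noncomputable instance (l : Lam) : NormedSpace ℝ (Z l) :=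
  NormedSpace.induced ℝ (Z l) (Tgt l) (Ph l)

instance (l : Lam) : CompleteSpace (Z l) := FiniteDimensional.complete ℝ (Z l)

theorem norm_def (l : Lam) (v : Z l) : ‖v‖ = ‖Ph l v‖ := rfl

theorem norm_snd_eq (l : Lam) (v : Z l) : ‖(Ph l v).2‖ = w l * ∑ i, |v i| := by
  change ‖(WithLp.toLp 1 (fun i => w l * v i) : PiLp 1 (fun _ : Fin (sz l) => ℝ))‖ = _
  rw [PiLp.norm_eq_of_L1, Finset.mul_sum]
  refine Finset.sum_congr rfl fun i _ => ?_
  change ‖w l * v i‖ = _
  rw [Real.norm_eq_abs, abs_mul, abs_of_pos (w_pos l)]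

theorem abs_le_norm {l : Lam} (v : Z l) (i : Fin (sz l)) : |v i| ≤ ‖v‖ := by
  rw [norm_def]
  refine le_trans ?_ (norm_fst_le (Ph l v))
  rw [← Real.norm_eq_abs]
  exact norm_le_pi_norm (Ph l v).1 i

theorem l1_le_norm {l : Lam} (v : Z l) : w l * ∑ i, |v i| ≤ ‖v‖ := by
  rw [← norm_snd_eq, norm_def]
  exact norm_snd_le (Ph l v)

theorem norm_le {l : Lam} (v : Z l) {C : ℝ} (hC : 0 ≤ C) (h1 : ∀ i, |v i| ≤ C)
    (h2 : w l * ∑ i, |v i| ≤ C) : ‖v‖ ≤ C := by
  rw [norm_def, norm_prod_le_iff, norm_snd_eq]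
  refine ⟨?_, h2⟩
  rw [pi_norm_le_iff_of_nonneg hC]
  intro i
  rw [Real.norm_eq_abs]
  exact h1 i

/-! ### Raw functions -/

/-- the index set -/
abbrev Om : Type := Σ l : Lam, Fin (sz l)

/-- averages -/
noncomputable def tot (l : Lam) (g : Om → ℝ) : ℝ := (∑ i : Fin (sz l), g ⟨l, i⟩) / qN l

/-- next level -/
def nxt (l : Lam) : Lam := (l.1, l.2.1, l.2.2 + 1)

/-- the parameter -/
noncomputable def rr (p : ℕ) (l : Lam) : ℝ := if l.1 = p then 1 / 4 else 0

theorem rr_nonneg (p : ℕ) (l : Lam) : 0 ≤ rr p l := by unfold rr; split_ifs <;> norm_num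

theorem rr_le (p : ℕ) (l : Lam) : rr p l ≤ 1 / 4 := by unfold rr; split_ifs <;> norm_num

theorem rr_mul (p : ℕ) (l : Lam) : rr p l * qq l.1 ≤ p + 1 := by
  unfold rr
  split_ifs with h
  · rw [h]; unfold qq; push_cast; linarith
  · rw [zero_mul]; positivity

/-- from bad coordinates to good coordinates -/
noncomputable def D (p : ℕ) (g : Om → ℝ) : Om → ℝ := fun ω => g ω - rr p ω.1 * tot (nxt ω.1) g

/-- from good coordinates to bad coordinates -/
noncomputable def G (p : ℕ) (y : Om → ℝ) : Om → ℝ := fun ω =>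
  y ω + ∑ k ∈ Finset.Ioc ω.1.2.2 ω.1.2.1, rr p ω.1 ^ (k - ω.1.2.2) * tot (ω.1.1, ω.1.2.1, k) y

theorem tot_add (l : Lam) (g h : Om → ℝ) : tot l (g + h) = tot l g + tot l h := by
  unfold tot
  rw [← add_div, ← Finset.sum_add_distrib]
  rfl

theorem tot_smul (l : Lam) (c : ℝ) (g : Om → ℝ) : tot l (c • g) = c * tot l g := by
  unfold tot
  rw [mul_div_assoc', Finset.mul_sum]
  rfl

theorem G_add (p : ℕ) (g h : Om → ℝ) : G p (g + h) = G p g + G p h := by
  funext ω
  unfold G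
  simp only [Pi.add_apply, tot_add, mul_add, Finset.sum_add_distrib]
  ring

theorem G_smul (p : ℕ) (c : ℝ) (g : Om → ℝ) : G p (c • g) = c • G p g := by
  funext ω
  unfold G
  simp only [Pi.smul_apply, smul_eq_mul, tot_smul, mul_add, Finset.mul_sum]
  congr 1
  exact Finset.sum_congr rfl fun k _ => by ring

theorem D_add (p : ℕ) (g h : Om → ℝ) : D p (g + h) = D p g + D p h := by
  funext ω
  unfold D
  simp only [Pi.add_apply, tot_add]
  ring

theorem D_smul (p : ℕ) (c : ℝ) (g : Om → ℝ) : D p (c • g) = c • D p g := by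
  funext ω
  unfold D
  simp only [Pi.smul_apply, smul_eq_mul, tot_smul]
  ring

theorem tot_zero_of_lt {l : Lam} (h : l.2.1 < l.2.2) (g : Om → ℝ) : tot l g = 0 := by
  unfold tot
  have h0 : sz l = 0 := by unfold sz; rw [if_neg (not_le.2 h)]
  have h1 : ∑ i : Fin (sz l), g ⟨l, i⟩ = 0 := by
    have : IsEmpty (Fin (sz l)) := by rw [h0]; infer_instance
    exact Finset.sum_of_isEmpty _
  rw [h1, zero_div]

/-- average of a function of the form `g + const` on a level -/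
theorem tot_add_const (l : Lam) (g h : Om → ℝ) (c : ℝ) (hc : l.2.1 < l.2.2 → c = 0)
    (hgh : ∀ i, h ⟨l, i⟩ = g ⟨l, i⟩ + c) : tot l h = tot l g + c := by
  by_cases hl : l.2.1 < l.2.2
  · rw [tot_zero_of_lt hl, tot_zero_of_lt hl, hc hl, add_zero]
  · push Not at hl
    unfold tot
    rw [Finset.sum_congr rfl fun i _ => hgh i, Finset.sum_add_distrib, Finset.sum_const,
      Finset.card_univ, Fintype.card_fin, nsmul_eq_mul, sz_eq hl, add_div,
      mul_div_cancel_left₀ _ (qN_pos l).ne']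

theorem tot_D (p : ℕ) (l : Lam) (g : Om → ℝ) :
    tot l (D p g) = tot l g - rr p l * tot (nxt l) g := by
  have := tot_add_const l g (D p g) (-(rr p l * tot (nxt l) g)) (fun h => by
    rw [tot_zero_of_lt (by unfold nxt; simp only; omega), mul_zero, neg_zero]) (fun i => by
    unfold D; simp only; ring)
  rw [this]; ring

theorem tot_G (p : ℕ) (l : Lam) (y : Om → ℝ) :
    tot l (G p y) = tot l y +
      ∑ k ∈ Finset.Ioc l.2.2 l.2.1, rr p l ^ (k - l.2.2) * tot (l.1, l.2.1, k) y :=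
  tot_add_const l y (G p y) _ (fun h => by
    rw [Finset.Ioc_eq_empty (by omega), Finset.sum_empty]) (fun i => rfl)

theorem sum_Ioc_telescope (F : ℕ → ℝ) {j N : ℕ} (h : j ≤ N) :
    ∑ k ∈ Finset.Ioc j N, (F k - F (k + 1)) = F (j + 1) - F (N + 1) := by
  induction N, h using Nat.le_induction with
  | base => simp
  | succ N hN ih =>
    rw [Finset.sum_Ioc_succ_top (by omega), ih]; ring

theorem le_of_mem (ω : Om) : ω.1.2.2 ≤ ω.1.2.1 := by
  by_contra h
  have h0 : sz ω.1 = 0 := by unfold sz; rw [if_neg h]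
  have := ω.2.2
  omega

theorem G_D (p : ℕ) (g : Om → ℝ) : G p (D p g) = g := by
  funext ω
  obtain ⟨⟨a, N, j⟩, i⟩ := ω
  have hj : j ≤ N := le_of_mem ⟨(a, N, j), i⟩
  unfold G
  simp only
  have h1 : ∀ k ∈ Finset.Ioc j N, rr p (a, N, j) ^ (k - j) * tot (a, N, k) (D p g) =
      rr p (a, N, j) ^ (k - j) * tot (a, N, k) g -
      rr p (a, N, j) ^ (k + 1 - j) * tot (a, N, k + 1) g := by
    intro k hk
    rw [Finset.mem_Ioc] at hk
    rw [tot_D]
    have h2 : k + 1 - j = (k - j) + 1 := by omega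
    have h3 : rr p (a, N, k) = rr p (a, N, j) := rfl
    have h4 : nxt (a, N, k) = (a, N, k + 1) := rfl
    rw [h2, h3, h4, pow_succ]; ring
  rw [Finset.sum_congr rfl h1,
    sum_Ioc_telescope (fun k => rr p (a, N, j) ^ (k - j) * tot (a, N, k) g) hj]
  have h5 : tot (a, N, N + 1) g = 0 := tot_zero_of_lt (by simp) g
  have h6 : j + 1 - j = 1 := by omega
  have h7 : nxt (a, N, j) = (a, N, j + 1) := rfl
  rw [h5, h6]
  unfold D
  simp only
  rw [h7]; ring

theorem D_G (p : ℕ) (y : Om → ℝ) : D p (G p y) = y := by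
  funext ω
  obtain ⟨⟨a, N, j⟩, i⟩ := ω
  have hj : j ≤ N := le_of_mem ⟨(a, N, j), i⟩
  unfold D
  simp only
  rw [tot_G]
  have h7 : nxt (a, N, j) = (a, N, j + 1) := rfl
  have h8 : rr p (a, N, j + 1) = rr p (a, N, j) := rfl
  rw [h7, h8]
  unfold G
  simp only
  rcases hj.lt_or_eq with h | h
  · have h9 : Finset.Ioc j N = insert (j + 1) (Finset.Ioc (j + 1) N) := by
      ext k
      simp only [Finset.mem_Ioc, Finset.mem_insert]
      omega
    rw [h9, Finset.sum_insert (by simp), mul_add, Finset.mul_sum]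
    have h10 : ∑ k ∈ Finset.Ioc (j + 1) N, rr p (a, N, j) ^ (k - j) * tot (a, N, k) y =
        ∑ k ∈ Finset.Ioc (j + 1) N, rr p (a, N, j) *
          (rr p (a, N, j) ^ (k - (j + 1)) * tot (a, N, k) y) := by
      refine Finset.sum_congr rfl fun k hk => ?_
      rw [Finset.mem_Ioc] at hk
      have h11 : k - j = (k - (j + 1)) + 1 := by omega
      rw [h11, pow_succ]; ring
    have h12 : j + 1 - j = 1 := by omega
    rw [h10, h12]; ring
  · subst h
    rw [Finset.Ioc_self, Finset.Ioc_eq_empty (by omega), tot_zero_of_lt (by simp)]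
    simp

/-! ### The space -/

/-- the ambient space -/
abbrev L : Type := lp Z ∞

/-- raw coordinates -/
noncomputable def co (y : L) : Om → ℝ := fun ω => (y ω.1 : Z ω.1) ω.2

theorem co_add (y z : L) : co (y + z) = co y + co z := rfl

theorem co_smul (c : ℝ) (y : L) : co (c • y) = c • co y := rfl

theorem co_inj {y z : L} (h : co y = co z) : y = z := by
  ext l
  funext i
  exact congrFun h ⟨l, i⟩

theorem abs_co_le (y : L) (ω : Om) : |co y ω| ≤ ‖y‖ :=
  (abs_le_norm (y ω.1 : Z ω.1) ω.2).trans (lp.norm_apply_le_norm (by simp) y ω.1)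

theorem l1_co_le (y : L) (l : Lam) : w l * ∑ i, |co y ⟨l, i⟩| ≤ ‖y‖ :=
  (l1_le_norm (y l : Z l)).trans (lp.norm_apply_le_norm (by simp) y l)

theorem norm_le_of (y : L) {C : ℝ} (hC : 0 ≤ C) (h1 : ∀ ω, |co y ω| ≤ C)
    (h2 : ∀ l, w l * ∑ i, |co y ⟨l, i⟩| ≤ C) : ‖y‖ ≤ C :=
  lp.norm_le_of_forall_le hC fun l => norm_le (y l : Z l) hC (fun i => h1 ⟨l, i⟩) (h2 l)

/-- raw coordinates as linear functionals -/
noncomputable def coL (ω : Om) : L →ₗ[ℝ] ℝ where
  toFun y := co y ω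
  map_add' _ _ := rfl
  map_smul' _ _ := rfl

theorem coL_apply (ω : Om) (y : L) : coL ω y = co y ω := rfl

/-- unit functions -/
noncomputable def dl (ω : Om) : Om → ℝ := fun ω' => if ω' = ω then 1 else 0

/-- unit vectors -/
noncomputable def u (ω : Om) : L := lp.single ∞ ω.1 (fun i => if i = ω.2 then 1 else 0 : Z ω.1)

theorem co_u (ω : Om) : co (u ω) = dl ω := by
  funext ω'
  obtain ⟨l, i⟩ := ω
  obtain ⟨l', i'⟩ := ω'
  unfold co dl u
  by_cases h : l' = l
  · subst h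
    simp only
    rw [lp.single_apply_self]
    by_cases h2 : i' = i
    · rw [if_pos h2, if_pos (by rw [h2])]
    · rw [if_neg h2, if_neg (fun h3 => h2 (by simpa using h3))]
  · simp only
    rw [if_neg (fun h3 => h (Sigma.mk.inj_iff.1 h3).1), lp.single_apply_ne _ _ _ h]
    rfl

theorem w_le_one (l : Lam) : w l ≤ 1 := by
  unfold w
  have : (1 : ℝ) ≤ qq l.1 := by exact_mod_cast qq_pos l.1
  exact inv_le_one_of_one_le₀ (one_le_pow₀ this)

theorem sum_dl_le (ω : Om) (l : Lam) : ∑ i : Fin (sz l), |dl ω ⟨l, i⟩| ≤ 1 := by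
  obtain ⟨l', i'⟩ := ω
  by_cases h : l = l'
  · subst h
    have h1 : ∀ i, |dl ⟨l, i'⟩ ⟨l, i⟩| = if i = i' then 1 else 0 := by
      intro i
      unfold dl
      by_cases h2 : i = i'
      · rw [if_pos h2, if_pos (by rw [h2]), abs_one]
      · rw [if_neg h2, if_neg (fun h3 => h2 (by simpa using h3)), abs_zero]
    rw [Finset.sum_congr rfl fun i _ => h1 i, Finset.sum_ite_eq']
    simp
  · have h1 : ∀ i, |dl ⟨l', i'⟩ ⟨l, i⟩| = 0 := by
      intro i
      unfold dl
      rw [if_neg (fun h3 => h (Sigma.mk.inj_iff.1 h3).1), abs_zero]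
    rw [Finset.sum_congr rfl fun i _ => h1 i, Finset.sum_const_zero]
    exact zero_le_one

theorem norm_u_le (ω : Om) : ‖u ω‖ ≤ 1 := by
  refine norm_le_of _ zero_le_one (fun ω' => ?_) (fun l => ?_)
  · rw [co_u]
    unfold dl
    split_ifs <;> simp
  · rw [co_u]
    have h1 := sum_dl_le ω l
    have h2 := w_le_one l
    have h3 := w_pos l
    have h4 : 0 ≤ ∑ i : Fin (sz l), |dl ω ⟨l, i⟩| := Finset.sum_nonneg fun _ _ => abs_nonneg _
    nlinarith

theorem abs_tot_le (l : Lam) (g : Om → ℝ) {C : ℝ} (hC : 0 ≤ C) (h : ∀ ω, |g ω| ≤ C) :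
    |tot l g| ≤ C := by
  unfold tot
  rw [abs_div, abs_of_pos (qN_pos l), div_le_iff₀ (qN_pos l)]
  calc |∑ i : Fin (sz l), g ⟨l, i⟩| ≤ ∑ i : Fin (sz l), |g ⟨l, i⟩| := Finset.abs_sum_le_sum_abs _ _
    _ ≤ ∑ _i : Fin (sz l), C := Finset.sum_le_sum fun i _ => h _
    _ = sz l * C := by
        rw [Finset.sum_const, Finset.card_univ, Fintype.card_fin, nsmul_eq_mul]
    _ ≤ C * qN l := by rw [mul_comm]; exact mul_le_mul_of_nonneg_left (sz_le l) hC

theorem sum_geom_le (r : ℝ) (hr : 0 ≤ r) (hr1 : r ≤ 1 / 4) {j N : ℕ} (h : j ≤ N) :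
    ∑ k ∈ Finset.Ioc j N, r ^ (k - j) ≤ 1 := by
  have key : ∑ k ∈ Finset.Ioc j N, r ^ (k - j) + (1 / 2) ^ (N - j) ≤ 1 := by
    induction N, h using Nat.le_induction with
    | base => simp
    | succ N hN ih =>
      rw [Finset.sum_Ioc_succ_top (by omega)]
      have h1 : N + 1 - j = (N - j) + 1 := by omega
      rw [h1]
      have h2 : r ^ (N - j + 1) ≤ (1 / 2) ^ (N - j + 1) :=
        pow_le_pow_left₀ hr (by linarith) _
      have h3 : ((1 : ℝ) / 2) ^ (N - j + 1) = (1 / 2) ^ (N - j) / 2 := by rw [pow_succ]; ring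
      rw [h3] at h2 ⊢
      linarith
  have : (0 : ℝ) ≤ (1 / 2) ^ (N - j) := by positivity
  linarith

theorem abs_G_le (p : ℕ) (y : Om → ℝ) {C : ℝ} (hC : 0 ≤ C) (h : ∀ ω, |y ω| ≤ C) (ω : Om) :
    |G p y ω| ≤ 2 * C := by
  unfold G
  refine (abs_add_le _ _).trans ?_
  have h1 : |∑ k ∈ Finset.Ioc ω.1.2.2 ω.1.2.1, rr p ω.1 ^ (k - ω.1.2.2) *
      tot (ω.1.1, ω.1.2.1, k) y| ≤ C := by
    refine (Finset.abs_sum_le_sum_abs _ _).trans ?_
    calc ∑ k ∈ Finset.Ioc ω.1.2.2 ω.1.2.1, |rr p ω.1 ^ (k - ω.1.2.2) *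
          tot (ω.1.1, ω.1.2.1, k) y| ≤ ∑ k ∈ Finset.Ioc ω.1.2.2 ω.1.2.1,
          rr p ω.1 ^ (k - ω.1.2.2) * C := by
          refine Finset.sum_le_sum fun k _ => ?_
          rw [abs_mul, abs_of_nonneg (pow_nonneg (rr_nonneg p ω.1) _)]
          exact mul_le_mul_of_nonneg_left (abs_tot_le _ y hC h) (pow_nonneg (rr_nonneg p ω.1) _)
      _ = (∑ k ∈ Finset.Ioc ω.1.2.2 ω.1.2.1, rr p ω.1 ^ (k - ω.1.2.2)) * C := by
          rw [Finset.sum_mul]
      _ ≤ 1 * C := mul_le_mul_of_nonneg_right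
          (sum_geom_le _ (rr_nonneg p ω.1) (rr_le p ω.1) (le_of_mem ω)) hC
      _ = C := one_mul C
  have h2 := h ω
  linarith

/-- bad coordinate functionals -/
noncomputable def xf (p : ℕ) (ω : Om) : L →ₗ[ℝ] ℝ where
  toFun y := G p (co y) ω
  map_add' y z := by rw [co_add, G_add]; rfl
  map_smul' c y := by rw [co_smul, G_smul]; rfl

theorem xf_apply (p : ℕ) (ω : Om) (y : L) : xf p ω y = G p (co y) ω := rfl

theorem abs_xf_le (p : ℕ) (ω : Om) (y : L) : |xf p ω y| ≤ 2 * ‖y‖ :=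
  abs_G_le p (co y) (norm_nonneg y) (abs_co_le y) ω

/-- all indices of a level -/
noncomputable def lev (l : Lam) : Finset Om :=
  (Finset.univ : Finset (Fin (sz l))).map ⟨fun i => ⟨l, i⟩, fun _ _ h => by simpa using h⟩

theorem mem_lev {l : Lam} {ω : Om} : ω ∈ lev l ↔ ω.1 = l := by
  unfold lev
  rw [Finset.mem_map]
  constructor
  · rintro ⟨n, _, rfl⟩
    rfl
  · intro h
    obtain ⟨l', n⟩ := ω
    subst h
    exact ⟨n, Finset.mem_univ _, rfl⟩

/-- the indices of the previous level -/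
noncomputable def pre : Lam → Finset Om
  | (_, _, 0) => ∅
  | (a, N, j + 1) => lev (a, N, j)

theorem mem_pre {l : Lam} {ω : Om} : ω ∈ pre l ↔ nxt ω.1 = l := by
  obtain ⟨a, N, j⟩ := l
  cases j with
  | zero =>
    constructor
    · intro h
      exact absurd h (Finset.notMem_empty ω)
    · intro h
      have := congrArg (fun l : Lam => l.2.2) h
      unfold nxt at this
      simp at this
  | succ j =>
    change ω ∈ lev (a, N, j) ↔ _
    rw [mem_lev]
    constructor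
    · intro h
      rw [h]; rfl
    · intro h
      obtain ⟨⟨a', N', j'⟩, i⟩ := ω
      unfold nxt at h
      simp only [Prod.mk.injEq] at h ⊢
      exact ⟨h.1, h.2.1, by omega⟩

/-- finite combinations of unit vectors -/
theorem co_sum_u (A : Finset Om) (c : Om → ℝ) :
    co (∑ ω ∈ A, c ω • u ω) = fun ω' => if ω' ∈ A then c ω' else 0 := by
  classical
  funext ω'
  rw [← coL_apply, map_sum]
  have h1 : ∀ ω ∈ A, coL ω' (c ω • u ω) = if ω' = ω then c ω else 0 := by
    intro ω _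
    rw [map_smul, smul_eq_mul, coL_apply, co_u]
    unfold dl
    split_ifs <;> simp
  rw [Finset.sum_congr rfl h1, Finset.sum_ite_eq]

/-- the bad basis vectors -/
noncomputable def xv (p : ℕ) (ω : Om) : L :=
  u ω - ∑ ω' ∈ pre ω.1, (rr p ω.1 / qN ω.1) • u ω'

theorem tot_dl (l : Lam) (ω : Om) : tot l (dl ω) = if ω.1 = l then 1 / qN l else 0 := by
  obtain ⟨l', i'⟩ := ω
  unfold tot
  by_cases h : l' = l
  · subst h
    have h1 : ∀ i, dl ⟨l', i'⟩ ⟨l', i⟩ = if i = i' then 1 else 0 := by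
      intro i
      unfold dl
      by_cases h2 : i = i'
      · rw [if_pos h2, if_pos (by rw [h2])]
      · rw [if_neg h2, if_neg (fun h3 => h2 (by simpa using h3))]
    rw [Finset.sum_congr rfl fun i _ => h1 i, Finset.sum_ite_eq']
    simp
  · have h1 : ∀ i, dl ⟨l', i'⟩ ⟨l, i⟩ = 0 := by
      intro i
      unfold dl
      rw [if_neg (fun h3 => h (Sigma.mk.inj_iff.1 h3).1.symm)]
    rw [Finset.sum_congr rfl fun i _ => h1 i, Finset.sum_const_zero, zero_div, if_neg h]

theorem co_xv (p : ℕ) (ω : Om) : co (xv p ω) = D p (dl ω) := by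
  funext ω'
  have h0 : co (xv p ω) ω' = co (u ω) ω' -
      co (∑ ω' ∈ pre ω.1, (rr p ω.1 / qN ω.1) • u ω') ω' := rfl
  rw [h0, co_sum_u (pre ω.1) (fun _ => rr p ω.1 / qN ω.1), co_u]
  unfold D
  simp only
  rw [tot_dl]
  by_cases h : ω' ∈ pre ω.1
  · have h1 := mem_pre.1 h
    rw [if_pos h, if_pos h1.symm]
    have h2 : rr p ω'.1 = rr p ω.1 := by rw [← h1]; rfl
    have h3 : qN (nxt ω'.1) = qN ω.1 := by rw [h1]
    rw [h2, h3, mul_one_div]
  · have h1 : ω.1 ≠ nxt ω'.1 := fun h1 => h (mem_pre.2 h1.symm)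
    rw [if_neg h, if_neg h1, mul_zero]

theorem biorth (p : ℕ) (ω ω' : Om) : xf p ω (xv p ω') = if ω = ω' then 1 else 0 := by
  rw [xf_apply, co_xv, G_D]
  rfl

theorem norm_xv_le (p : ℕ) (ω : Om) : ‖xv p ω‖ ≤ p + 2 := by
  have hp : (0 : ℝ) ≤ p := Nat.cast_nonneg p
  refine norm_le_of _ (by positivity) (fun ω' => ?_) (fun l => ?_)
  · rw [co_xv]
    unfold D
    have h1 : |dl ω ω'| ≤ 1 := by unfold dl; split_ifs <;> simp
    have h2 : |tot (nxt ω'.1) (dl ω)| ≤ 1 := abs_tot_le _ _ zero_le_one fun ω'' => by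
      unfold dl; split_ifs <;> simp
    have h3 : |rr p ω'.1 * tot (nxt ω'.1) (dl ω)| ≤ 1 := by
      rw [abs_mul, abs_of_nonneg (rr_nonneg _ _)]
      have := rr_le p ω'.1
      have := rr_nonneg p ω'.1
      have := abs_nonneg (tot (nxt ω'.1) (dl ω))
      nlinarith
    have h4 := abs_sub (dl ω ω') (rr p ω'.1 * tot (nxt ω'.1) (dl ω))
    linarith
  · rw [co_xv]
    have h1 : ∀ i : Fin (sz l), |D p (dl ω) ⟨l, i⟩| ≤ |dl ω ⟨l, i⟩| + rr p l * (1 / qN l) := by
      intro i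
      unfold D
      refine (abs_sub _ _).trans ?_
      simp only
      rw [abs_mul, abs_of_nonneg (rr_nonneg _ _)]
      have h2 : |tot (nxt l) (dl ω)| ≤ 1 / qN l := by
        rw [tot_dl]
        have h3 : qN (nxt l) = qN l := rfl
        have h4 : 0 < 1 / qN l := by have := qN_pos l; positivity
        split_ifs
        · rw [h3, abs_of_pos h4]
        · rw [abs_zero]; exact h4.le
      have := mul_le_mul_of_nonneg_left h2 (rr_nonneg p l)
      linarith
    have h2 : ∑ i : Fin (sz l), |D p (dl ω) ⟨l, i⟩| ≤ 1 + rr p l := by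
      refine (Finset.sum_le_sum fun i _ => h1 i).trans ?_
      rw [Finset.sum_add_distrib, Finset.sum_const, Finset.card_univ, Fintype.card_fin,
        nsmul_eq_mul]
      have h3 := sum_dl_le ω l
      have h4 : (sz l : ℝ) * (rr p l * (1 / qN l)) ≤ rr p l := by
        have h5 := sz_le l
        have h6 := qN_pos l
        calc (sz l : ℝ) * (rr p l * (1 / qN l)) = rr p l * (sz l / qN l) := by ring
          _ ≤ rr p l * 1 := mul_le_mul_of_nonneg_left ((div_le_one h6).2 h5) (rr_nonneg p l)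
          _ = rr p l := mul_one _
      linarith
    have h3 := rr_le p l
    have h4 := w_le_one l
    have h5 := w_pos l
    have h6 : 0 ≤ ∑ i : Fin (sz l), |D p (dl ω) ⟨l, i⟩| := Finset.sum_nonneg fun _ _ => abs_nonneg _
    nlinarith

/-- the span of the unit vectors is contained in the span of the bad vectors -/
theorem u_mem_span (p : ℕ) (ω : Om) : u ω ∈ Submodule.span ℝ (Set.range (xv p)) := by
  obtain ⟨⟨a, N, j⟩, i⟩ := ω
  induction j with
  | zero =>
    have h : xv p ⟨(a, N, 0), i⟩ = u ⟨(a, N, 0), i⟩ := by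
      unfold xv pre
      simp
    rw [← h]
    exact Submodule.subset_span ⟨_, rfl⟩
  | succ j ih =>
    have h : u ⟨(a, N, j + 1), i⟩ = xv p ⟨(a, N, j + 1), i⟩ +
        ∑ ω' ∈ pre (a, N, j + 1), (rr p (a, N, j + 1) / qN (a, N, j + 1)) • u ω' := by
      unfold xv
      simp only [sub_add_cancel]
    rw [h]
    refine Submodule.add_mem _ (Submodule.subset_span ⟨_, rfl⟩) (Submodule.sum_mem _ fun ω' hω' =>
      Submodule.smul_mem _ _ ?_)
    change ω' ∈ lev (a, N, j) at hω'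
    rw [mem_lev] at hω'
    obtain ⟨l, i'⟩ := ω'
    simp only at hω'
    subst hω'
    exact ih i'

theorem xv_mem_span (p : ℕ) (ω : Om) : xv p ω ∈ Submodule.span ℝ (Set.range u) := by
  unfold xv
  exact Submodule.sub_mem _ (Submodule.subset_span ⟨_, rfl⟩) (Submodule.sum_mem _ fun ω' _ =>
    Submodule.smul_mem _ _ (Submodule.subset_span ⟨_, rfl⟩))

theorem span_eq (p : ℕ) :
    Submodule.span ℝ (Set.range (xv p)) = Submodule.span ℝ (Set.range u) := by
  refine le_antisymm (Submodule.span_le.2 ?_) (Submodule.span_le.2 ?_)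
  · rintro _ ⟨ω, rfl⟩; exact xv_mem_span p ω
  · rintro _ ⟨ω, rfl⟩; exact u_mem_span p ω

/-- combinations of bad vectors -/
theorem co_sum_xv (p : ℕ) (A : Finset Om) (c : Om → ℝ) :
    co (∑ ω ∈ A, c ω • xv p ω) = D p (fun ω' => if ω' ∈ A then c ω' else 0) := by
  classical
  induction A using Finset.induction_on with
  | empty =>
    rw [Finset.sum_empty]
    funext ω
    unfold D tot
    simp
    rfl
  | insert a A ha ih =>
    rw [Finset.sum_insert ha, co_add, co_smul, co_xv, ih, ← D_smul, ← D_add]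
    congr 1
    funext ω
    simp only [Pi.add_apply, Pi.smul_apply, smul_eq_mul, Finset.mem_insert]
    unfold dl
    by_cases h : ω = a
    · subst h
      simp [ha]
    · simp [h]

theorem w_nxt (l : Lam) : w l = qq l.1 * w (nxt l) := by
  have := qq_pos' l.1
  unfold w nxt
  simp only
  rw [pow_succ]
  field_simp

/-- the basic estimate -/
theorem qglc (p : ℕ) (A : Finset Om) (ε : Om → ℝ) (hε : ∀ ω ∈ A, |ε ω| = 1) (F : L)
    (hF1 : ∀ ω, |xf p ω F| ≤ 1) (hF2 : ∀ ω ∈ A, xf p ω F = ε ω) :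
    ‖∑ ω ∈ A, ε ω • xv p ω‖ ≤ 4 / 3 * (p + 2) * ‖F‖ := by
  classical
  have hp : (0 : ℝ) ≤ p := Nat.cast_nonneg p
  have hFn := norm_nonneg F
  by_cases hA : A = ∅
  · rw [hA, Finset.sum_empty, norm_zero]; positivity
  obtain ⟨ω₀, hω₀⟩ := Finset.nonempty_iff_ne_empty.2 hA
  set g : Om → ℝ := G p (co F) with hg
  have hg1 : ∀ ω, |g ω| ≤ 1 := hF1
  have hDg : D p g = co F := D_G p (co F)
  set eA : Om → ℝ := fun ω' => if ω' ∈ A then ε ω' else 0 with heA
  have heA1 : ∀ ω, |eA ω| ≤ 1 := by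
    intro ω
    simp only [heA]
    split_ifs with h
    · exact (hε ω h).le
    · rw [abs_zero]; exact zero_le_one
  have htg : ∀ ω : Om, |rr p ω.1 * tot (nxt ω.1) g| ≤ 1 / 4 := by
    intro ω
    rw [abs_mul, abs_of_nonneg (rr_nonneg _ _)]
    have h1 := abs_tot_le (nxt ω.1) g zero_le_one hg1
    have h2 := rr_le p ω.1
    have h3 := rr_nonneg p ω.1
    have h4 := abs_nonneg (tot (nxt ω.1) g)
    nlinarith
  have hlow : ∀ ω, 3 / 4 * |eA ω| ≤ |co F ω| := by
    intro ω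
    by_cases h : ω ∈ A
    · have h1 : |eA ω| = 1 := by simp only [heA]; rw [if_pos h]; exact hε ω h
      have h2 : |g ω| = 1 := by
        have : g ω = ε ω := hF2 ω h
        rw [this]; exact hε ω h
      rw [h1, ← hDg]
      unfold D
      have h3 := abs_sub_abs_le_abs_sub (g ω) (rr p ω.1 * tot (nxt ω.1) g)
      have h4 := htg ω
      linarith
    · have h1 : eA ω = 0 := by simp only [heA]; rw [if_neg h]
      rw [h1, abs_zero, mul_zero]
      exact abs_nonneg _
  have hF34 : 3 / 4 ≤ ‖F‖ := by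
    have h1 := hlow ω₀
    have h2 : |eA ω₀| = 1 := by simp only [heA]; rw [if_pos hω₀]; exact hε ω₀ hω₀
    rw [h2, mul_one] at h1
    exact h1.trans (abs_co_le F ω₀)
  -- masses
  have hmass : ∀ l, w l * ∑ i, |eA ⟨l, i⟩| ≤ 4 / 3 * ‖F‖ := by
    intro l
    have h1 : w l * ∑ i, (3 / 4 * |eA ⟨l, i⟩|) ≤ w l * ∑ i, |co F ⟨l, i⟩| :=
      mul_le_mul_of_nonneg_left (Finset.sum_le_sum fun i _ => hlow ⟨l, i⟩) (w_pos l).le
    have h2 := h1.trans (l1_co_le F l)
    rw [← Finset.mul_sum] at h2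
    linarith
  refine norm_le_of _ (by positivity) (fun ω => ?_) (fun l => ?_)
  · rw [co_sum_xv]
    change |D p eA ω| ≤ _
    unfold D
    have h1 : |rr p ω.1 * tot (nxt ω.1) eA| ≤ 1 / 4 := by
      rw [abs_mul, abs_of_nonneg (rr_nonneg _ _)]
      have h1 := abs_tot_le (nxt ω.1) eA zero_le_one heA1
      have h2 := rr_le p ω.1
      have h3 := rr_nonneg p ω.1
      have h4 := abs_nonneg (tot (nxt ω.1) eA)
      nlinarith
    have h2 := abs_sub (eA ω) (rr p ω.1 * tot (nxt ω.1) eA)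
    have h3 := heA1 ω
    nlinarith
  · rw [co_sum_xv]
    change w l * ∑ i, |D p eA ⟨l, i⟩| ≤ _
    have h1 : ∀ i : Fin (sz l), |D p eA ⟨l, i⟩| ≤ |eA ⟨l, i⟩| + rr p l * |tot (nxt l) eA| := by
      intro i
      unfold D
      refine (abs_sub _ _).trans ?_
      simp only
      rw [abs_mul, abs_of_nonneg (rr_nonneg _ _)]
    have h2 : |tot (nxt l) eA| ≤ (∑ i, |eA ⟨nxt l, i⟩|) / qN l := by
      unfold tot
      rw [abs_div, abs_of_pos (qN_pos (nxt l))]
      exact div_le_div_of_nonneg_right (Finset.abs_sum_le_sum_abs _ _) (qN_pos (nxt l)).le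
    have h3 : ∑ i : Fin (sz l), |D p eA ⟨l, i⟩| ≤
        ∑ i : Fin (sz l), |eA ⟨l, i⟩| + rr p l * ∑ i, |eA ⟨nxt l, i⟩| := by
      refine (Finset.sum_le_sum fun i _ => h1 i).trans ?_
      rw [Finset.sum_add_distrib, Finset.sum_const, Finset.card_univ, Fintype.card_fin,
        nsmul_eq_mul]
      have h4 : (sz l : ℝ) * (rr p l * |tot (nxt l) eA|) ≤ rr p l * ∑ i, |eA ⟨nxt l, i⟩| := by
        have h5 : (sz l : ℝ) * |tot (nxt l) eA| ≤ ∑ i, |eA ⟨nxt l, i⟩| := by
          calc (sz l : ℝ) * |tot (nxt l) eA| ≤ qN l * ((∑ i, |eA ⟨nxt l, i⟩|) / qN l) :=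
                mul_le_mul (sz_le l) h2 (abs_nonneg _) (qN_pos l).le
            _ = _ := mul_div_cancel₀ _ (qN_pos l).ne'
        calc (sz l : ℝ) * (rr p l * |tot (nxt l) eA|) = rr p l * (sz l * |tot (nxt l) eA|) := by
              ring
          _ ≤ _ := mul_le_mul_of_nonneg_left h5 (rr_nonneg p l)
      linarith
    have h4 : w l * ∑ i : Fin (sz l), |D p eA ⟨l, i⟩| ≤ w l * ∑ i : Fin (sz l), |eA ⟨l, i⟩| +
        (rr p l * qq l.1) * (w (nxt l) * ∑ i, |eA ⟨nxt l, i⟩|) := by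
      calc w l * ∑ i : Fin (sz l), |D p eA ⟨l, i⟩| ≤
          w l * (∑ i : Fin (sz l), |eA ⟨l, i⟩| + rr p l * ∑ i, |eA ⟨nxt l, i⟩|) :=
            mul_le_mul_of_nonneg_left h3 (w_pos l).le
        _ = w l * ∑ i : Fin (sz l), |eA ⟨l, i⟩| + w l * (rr p l * ∑ i, |eA ⟨nxt l, i⟩|) := by ring
        _ = _ := by
            rw [w_nxt l]; ring
    have h5 := hmass l
    have h6 := hmass (nxt l)
    have h7 := rr_mul p l
    have h8 : 0 ≤ w (nxt l) * ∑ i, |eA ⟨nxt l, i⟩| :=
      mul_nonneg (w_pos _).le (Finset.sum_nonneg fun _ _ => abs_nonneg _)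
    have h9 : (rr p l * qq l.1) * (w (nxt l) * ∑ i, |eA ⟨nxt l, i⟩|) ≤
        (p + 1) * (4 / 3 * ‖F‖) :=
      mul_le_mul h7 h6 h8 (by positivity)
    have h10 : 4 / 3 * (p + 2) * ‖F‖ = 4 / 3 * ‖F‖ + (p + 1) * (4 / 3 * ‖F‖) := by ring
    linarith

/-! ### Test vectors -/

/-- the test vector -/
noncomputable def tf (p m : ℕ) : L := ∑ ω ∈ lev (p, m, m), (1 : ℝ) • u ω

/-- its bad coordinates -/
noncomputable def ga (p m : ℕ) : Om → ℝ := fun ω =>
  if ω.1.1 = p ∧ ω.1.2.1 = m then 4 ^ ω.1.2.2 / 4 ^ m else 0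

theorem tot_const (l : Lam) (g : Om → ℝ) (c : ℝ) (hc : l.2.1 < l.2.2 → c = 0)
    (h : ∀ i, g ⟨l, i⟩ = c) : tot l g = c := by
  have h1 := tot_add_const l 0 g c hc (fun i => by rw [h i, Pi.zero_apply, zero_add])
  have h2 : tot l 0 = 0 := by
    unfold tot
    simp
  rw [h1, h2, zero_add]

theorem co_tf (p m : ℕ) : co (tf p m) = D p (ga p m) := by
  unfold tf
  rw [co_sum_u (lev (p, m, m)) fun _ => 1]
  funext ω
  obtain ⟨⟨a, N, j⟩, i⟩ := ω
  have hj : j ≤ N := le_of_mem ⟨(a, N, j), i⟩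
  unfold D
  simp only [mem_lev]
  by_cases h : a = p ∧ N = m
  · obtain ⟨rfl, rfl⟩ := h
    have h1 : ga a N ⟨(a, N, j), i⟩ = 4 ^ j / 4 ^ N := by
      unfold ga; rw [if_pos ⟨rfl, rfl⟩]
    have h2 : rr a (a, N, j) = 1 / 4 := by unfold rr; rw [if_pos rfl]
    rcases hj.lt_or_eq with h3 | h3
    · have h4 : tot (nxt (a, N, j)) (ga a N) = 4 ^ (j + 1) / 4 ^ N := by
        refine tot_const _ _ _ (fun h5 => ?_) fun i => ?_
        · unfold nxt at h5
          simp only at h5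
          omega
        · unfold ga nxt
          rw [if_pos ⟨rfl, rfl⟩]
      rw [h1, h2, h4, if_neg (fun h5 => by simp only [Prod.mk.injEq] at h5; omega), pow_succ]
      ring
    · subst h3
      have h4 : tot (nxt (a, j, j)) (ga a j) = 0 := tot_zero_of_lt (by unfold nxt; simp) _
      rw [h1, h2, h4, if_pos rfl, mul_zero, sub_zero, div_self (by positivity)]
  · have h1 : ga p m ⟨(a, N, j), i⟩ = 0 := by unfold ga; rw [if_neg h]
    have h4 : tot (nxt (a, N, j)) (ga p m) = 0 := by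
      refine tot_const _ _ _ (fun _ => rfl) fun i => ?_
      unfold ga nxt
      rw [if_neg h]
    rw [h1, h4, mul_zero, sub_zero, if_neg (fun h5 => h (by
      simp only [Prod.mk.injEq] at h5; exact ⟨h5.1, h5.2.1⟩))]

theorem xf_tf (p m : ℕ) (ω : Om) : xf p ω (tf p m) = ga p m ω := by
  rw [xf_apply, co_tf, G_D]

theorem norm_tf_le (p m : ℕ) : ‖tf p m‖ ≤ 1 := by
  unfold tf
  have hco := co_sum_u (lev (p, m, m)) fun _ => 1
  refine norm_le_of _ zero_le_one (fun ω => ?_) (fun l => ?_)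
  · rw [hco]
    simp only
    split_ifs <;> simp
  · rw [hco]
    simp only [mem_lev]
    by_cases h : l = (p, m, m)
    · subst h
      have h1 : ∑ i : Fin (sz (p, m, m)), |(if (p, m, m) = (p, m, m) then (1 : ℝ) else 0)| =
          qN (p, m, m) := by
        rw [if_pos rfl, abs_one, Finset.sum_const, Finset.card_univ, Fintype.card_fin,
          nsmul_eq_mul, mul_one]
        exact sz_eq le_rfl
      rw [h1]
      unfold w qN
      have := qq_pos' p
      simp only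
      rw [inv_mul_cancel₀ (by positivity)]
    · rw [if_neg h, abs_zero, Finset.sum_const_zero, mul_zero]
      exact zero_le_one

theorem xv_zero (p m : ℕ) {ω : Om} (h : ω.1 = (p, m, 0)) : xv p ω = u ω := by
  obtain ⟨l, i⟩ := ω
  simp only at h
  subst h
  unfold xv pre
  simp

theorem le_norm_proj (p m : ℕ) :
    ((p : ℝ) + 1) ^ m ≤ ‖∑ ω ∈ lev (p, m, 0), xf p ω (tf p m) • xv p ω‖ := by
  have h1 : ∑ ω ∈ lev (p, m, 0), xf p ω (tf p m) • xv p ω =
      ∑ ω ∈ lev (p, m, 0), (fun _ : Om => (1 : ℝ) / 4 ^ m) ω • u ω := by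
    refine Finset.sum_congr rfl fun ω hω => ?_
    rw [mem_lev] at hω
    rw [xv_zero p m hω, xf_tf]
    unfold ga
    rw [hω, if_pos ⟨rfl, rfl⟩, pow_zero]
  rw [h1]
  refine le_trans (le_of_eq ?_) (l1_co_le _ (p, m, 0))
  rw [co_sum_u (lev (p, m, 0)) fun _ => (1 : ℝ) / 4 ^ m]
  simp only [mem_lev]
  rw [if_pos trivial, Finset.sum_const, Finset.card_univ, Fintype.card_fin, nsmul_eq_mul,
    sz_eq (Nat.zero_le _), abs_of_pos (by positivity)]
  unfold w qN qq
  simp only [pow_zero, inv_one, one_mul]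
  push_cast
  rw [mul_one_div, ← div_pow]
  congr 1
  ring

end Pool.Agent.X202.QGLCSpace
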