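import Mathlib

set_option autoImplicit false

/-!
# A lower triangular matrix with bounded corners which is unbounded on `ℓ_2`
-/

namespace Pool.Agent.X202.Mat

/-- `M l k = 1 / ((l - k + 1) √(n + 1))` if `k ≤ l` are in the dyadic block `n`. -/
noncomputable def M (l k : ℕ) : ℝ :=
  if k ≤ l ∧ Nat.log 2 (k + 1) = Nat.log 2 (l + 1) then
    1 / (((l : ℝ) - k + 1) * √((Nat.log 2 (l + 1) : ℝ) + 1)) else 0

theorem tele (a : ℕ) (B : ℕ) :
    ∑ b ∈ Finset.range B, 1 / (((a : ℝ) + b + 1) ^ 2) ≤ 2 / ((a : ℝ) + 1) - 2 / ((a : ℝ) + B + 1) := by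
  induction B with
  | zero => simp
  | succ B ih =>
    rw [Finset.sum_range_succ]
    have h1 : 1 / (((a : ℝ) + B + 1) ^ 2) ≤ 2 / ((a : ℝ) + B + 1) - 2 / ((a : ℝ) + (B + 1 : ℕ) + 1) := by
      push_cast
      have h2 : 2 / ((a : ℝ) + B + 1) - 2 / ((a : ℝ) + (B + 1) + 1) =
          2 / (((a : ℝ) + B + 1) * ((a : ℝ) + B + 2)) := by
        field_simp
        ring
      rw [h2, div_le_div_iff₀ (by positivity) (by positivity)]
      nlinarith [show (0 : ℝ) ≤ a by positivity, show (0 : ℝ) ≤ B by positivity]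
    linarith

theorem harm_le (n : ℕ) : ∑ a ∈ Finset.range (2 ^ n), 1 / ((a : ℝ) + 1) ≤ n + 1 := by
  have h := harmonic_le_one_add_log (2 ^ n)
  unfold harmonic at h
  push_cast at h
  rw [Real.log_pow] at h
  have h2 : Real.log 2 ≤ 1 := by
    have := Real.log_two_lt_d9
    linarith
  have h3 : (n : ℝ) * Real.log 2 ≤ n := by
    have : (0 : ℝ) ≤ n := by positivity
    nlinarith
  simp only [one_div]
  linarith

theorem le_harm (n : ℕ) : (n : ℝ) / 2 ≤ ∑ a ∈ Finset.range (2 ^ n), 1 / ((a : ℝ) + 1) := by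
  have h := log_add_one_le_harmonic (2 ^ n)
  unfold harmonic at h
  push_cast at h
  simp only [one_div]
  refine le_trans ?_ h
  have h1 : Real.log ((2 : ℝ) ^ n) ≤ Real.log ((2 : ℝ) ^ n + 1) :=
    Real.log_le_log (by positivity) (by linarith)
  rw [Real.log_pow] at h1
  have h2 : (1 / 2 : ℝ) ≤ Real.log 2 := by
    have := Real.log_two_gt_d9
    linarith
  have : (0 : ℝ) ≤ n := by positivity
  nlinarith

/-- Corner bound for `M`. -/
theorem cornerM (c N : ℕ) :
    ∑ k ∈ Finset.range (c + 1), ∑ l ∈ Finset.Ico c N, M l k ^ 2 ≤ 2 := by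
  set n := Nat.log 2 (c + 1) with hn
  have hc1 : 2 ^ n ≤ c + 1 := Nat.pow_log_le_self 2 (by omega)
  have hc2 : c + 1 < 2 ^ (n + 1) := Nat.lt_pow_succ_log_self (by norm_num) _
  have hrow : ∀ k ∈ Finset.range (c + 1), ∑ l ∈ Finset.Ico c N, M l k ^ 2 ≤
      if Nat.log 2 (k + 1) = n then 2 / (((c - k : ℕ) : ℝ) + 1) / (n + 1) else 0 := by
    intro k hk
    have hk' : k ≤ c := by
      rw [Finset.mem_range] at hk
      omega
    split_ifs with hkn
    · rcases Nat.lt_or_ge c N with hcN | hcN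
      · have h1 : ∀ l ∈ Finset.Ico c N, M l k ^ 2 ≤
            1 / ((((c - k : ℕ) : ℝ) + ((l - c : ℕ) : ℝ) + 1) ^ 2) / (n + 1) := by
          intro l hl
          rw [Finset.mem_Ico] at hl
          have hcast : ((c - k : ℕ) : ℝ) + ((l - c : ℕ) : ℝ) + 1 = (l : ℝ) - k + 1 := by
            rw [Nat.cast_sub hk', Nat.cast_sub hl.1]; ring
          rw [hcast]
          unfold M
          split_ifs with hcond
          · rw [div_pow, mul_pow, Real.sq_sqrt (by positivity), one_pow, ← hcond.2, hkn, div_div]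
          · rw [zero_pow (by norm_num)]
            positivity
        refine (Finset.sum_le_sum h1).trans ?_
        rw [← Finset.sum_div]
        refine div_le_div_of_nonneg_right ?_ (by positivity)
        rw [Finset.sum_Ico_eq_sum_range]
        have h2 : ∀ b ∈ Finset.range (N - c), 1 / ((((c - k : ℕ) : ℝ) + ((c + b - c : ℕ) : ℝ) + 1) ^ 2)
            = 1 / ((((c - k : ℕ) : ℝ) + b + 1) ^ 2) := by
          intro b _
          rw [Nat.add_sub_cancel_left]
        rw [Finset.sum_congr rfl h2]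
        refine (tele _ _).trans ?_
        have : (0 : ℝ) ≤ 2 / (((c - k : ℕ) : ℝ) + ((N - c : ℕ) : ℝ) + 1) := by positivity
        linarith
      · rw [Finset.Ico_eq_empty (by omega), Finset.sum_empty]
        positivity
    · refine le_of_eq (Finset.sum_eq_zero fun l hl => ?_)
      unfold M
      rw [if_neg, zero_pow (by norm_num)]
      rintro ⟨h1, h2⟩
      apply hkn
      rw [Finset.mem_Ico] at hl
      have h3 : Nat.log 2 (k + 1) ≤ Nat.log 2 (c + 1) := Nat.log_mono_right (by omega)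
      have h4 : Nat.log 2 (c + 1) ≤ Nat.log 2 (l + 1) := Nat.log_mono_right (by omega)
      omega
  refine (Finset.sum_le_sum hrow).trans ?_
  rw [← Finset.sum_filter]
  have h5 : ∑ k ∈ (Finset.range (c + 1)).filter (fun k => Nat.log 2 (k + 1) = n),
      2 / (((c - k : ℕ) : ℝ) + 1) / (n + 1) ≤
      ∑ a ∈ Finset.range (2 ^ n), 2 / ((a : ℝ) + 1) / (n + 1) := by
    rw [← Finset.sum_image (s := (Finset.range (c + 1)).filter (fun k => Nat.log 2 (k + 1) = n))
      (g := fun k => c - k) (f := fun a : ℕ => 2 / ((a : ℝ) + 1) / ((n : ℝ) + 1))]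
    · refine Finset.sum_le_sum_of_subset_of_nonneg ?_ fun _ _ _ => by positivity
      intro a ha
      rw [Finset.mem_image] at ha
      obtain ⟨k, hk, rfl⟩ := ha
      rw [Finset.mem_filter, Finset.mem_range] at hk
      rw [Finset.mem_range]
      have h6 : 2 ^ n ≤ k + 1 := by
        rw [← hk.2]
        exact Nat.pow_log_le_self 2 (by omega)
      rw [pow_succ] at hc2
      omega
    · intro a ha b hb hab
      simp only [Finset.coe_filter, Finset.mem_range, Set.mem_ofPred_eq] at ha hb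
      simp only at hab
      omega
  refine h5.trans ?_
  have h6 : ∀ a ∈ Finset.range (2 ^ n), 2 / ((a : ℝ) + 1) / (n + 1) =
      (1 / ((a : ℝ) + 1)) * (2 / (n + 1)) := by
    intro a _
    field_simp
  rw [Finset.sum_congr rfl h6, ← Finset.sum_mul]
  refine (mul_le_mul_of_nonneg_right (harm_le n) (by positivity)).trans (le_of_eq ?_)
  field_simp

/-- The matrix on all indices. -/
noncomputable def m (Q P : ℕ) : ℝ := if Q % 2 = 1 ∧ P % 2 = 0 then M (Q / 2) (P / 2) else 0

theorem m_odd {Q P : ℕ} (h : m Q P ≠ 0) : Q % 2 = 1 ∧ P % 2 = 0 ∧ P < Q ∧ Q < 2 * P + 2 := by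
  unfold m at h
  split_ifs at h with h1
  · unfold M at h
    split_ifs at h with h2
    · refine ⟨h1.1, h1.2, by omega, ?_⟩
      have h3 : Q / 2 + 1 < 2 ^ (Nat.log 2 (Q / 2 + 1) + 1) :=
        Nat.lt_pow_succ_log_self (by norm_num) _
      have h4 : 2 ^ Nat.log 2 (P / 2 + 1) ≤ P / 2 + 1 := Nat.pow_log_le_self 2 (by omega)
      rw [← h2.2, pow_succ] at h3
      omega
    · exact absurd rfl h
  · exact absurd rfl h

theorem sum_even_odd (h : ℕ → ℝ) (n : ℕ) :
    ∑ P ∈ Finset.range (2 * n), h P = ∑ k ∈ Finset.range n, (h (2 * k) + h (2 * k + 1)) := by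
  induction n with
  | zero => simp
  | succ n ih =>
    rw [show 2 * (n + 1) = 2 * n + 1 + 1 by ring, Finset.sum_range_succ, Finset.sum_range_succ, ih,
      Finset.sum_range_succ]
    ring

/-- Corner bound. -/
theorem corner (c N : ℕ) :
    ∑ P ∈ Finset.range c, ∑ Q ∈ Finset.Ico c N, m Q P ^ 2 ≤ 2 := by
  set d := c / 2 with hd
  have h1 : ∀ P, ∑ Q ∈ Finset.Ico c N, m Q P ^ 2 ≤
      if P % 2 = 0 then ∑ l ∈ Finset.Ico d N, M l (P / 2) ^ 2 else 0 := by
    intro P
    split_ifs with hP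
    · have h2 : ∑ Q ∈ Finset.Ico c N, m Q P ^ 2 =
          ∑ Q ∈ (Finset.Ico c N).filter (fun Q => Q % 2 = 1), M (Q / 2) (P / 2) ^ 2 := by
        rw [Finset.sum_filter]
        refine Finset.sum_congr rfl fun Q _ => ?_
        unfold m
        by_cases hQ : Q % 2 = 1
        · rw [if_pos hQ, if_pos ⟨hQ, hP⟩]
        · rw [if_neg hQ, if_neg (fun h => hQ h.1), zero_pow (by norm_num)]
      rw [h2, ← Finset.sum_image (s := (Finset.Ico c N).filter (fun Q => Q % 2 = 1))
        (g := fun Q => Q / 2) (f := fun l => M l (P / 2) ^ 2)]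
      · refine Finset.sum_le_sum_of_subset_of_nonneg ?_ fun _ _ _ => by positivity
        intro l hl
        rw [Finset.mem_image] at hl
        obtain ⟨Q, hQ, rfl⟩ := hl
        rw [Finset.mem_filter, Finset.mem_Ico] at hQ
        rw [Finset.mem_Ico]
        omega
      · intro a ha b hb hab
        simp only [Finset.coe_filter, Finset.mem_Ico, Set.mem_ofPred_eq] at ha hb
        simp only at hab
        omega
    · refine le_of_eq (Finset.sum_eq_zero fun Q _ => ?_)
      unfold m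
      rw [if_neg (fun h => hP h.2), zero_pow (by norm_num)]
  have h3 : ∑ P ∈ Finset.range c, ∑ Q ∈ Finset.Ico c N, m Q P ^ 2 ≤
      ∑ P ∈ Finset.range (2 * (d + 1)),
        if P % 2 = 0 then ∑ l ∈ Finset.Ico d N, M l (P / 2) ^ 2 else 0 := by
    refine (Finset.sum_le_sum fun P _ => h1 P).trans
      (Finset.sum_le_sum_of_subset_of_nonneg ?_ fun P _ _ => ?_)
    · intro P hP
      rw [Finset.mem_range] at hP ⊢
      omega
    · split_ifs
      · positivity
      · exact le_refl _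
  refine h3.trans ?_
  rw [sum_even_odd]
  refine le_trans (le_of_eq ?_) (cornerM d N)
  refine Finset.sum_congr rfl fun k _ => ?_
  have e1 : 2 * k % 2 = 0 := by omega
  have e2 : ¬ ((2 * k + 1) % 2 = 0) := by omega
  have e3 : 2 * k / 2 = k := by omega
  rw [if_pos e1, if_neg e2, e3, add_zero]

theorem row (Q : ℕ) : ∑ P ∈ Finset.range Q, m Q P ^ 2 ≤ 2 := by
  refine le_trans ?_ (corner Q (Q + 1))
  refine Finset.sum_le_sum fun P _ => ?_
  rw [Nat.Ico_succ_singleton, Finset.sum_singleton]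

theorem col (P N : ℕ) : ∑ Q ∈ Finset.range N, m Q P ^ 2 ≤ 2 := by
  refine le_trans ?_ (corner (P + 1) N)
  have h1 : ∑ Q ∈ Finset.range N, m Q P ^ 2 = ∑ Q ∈ Finset.Ico (P + 1) N, m Q P ^ 2 := by
    symm
    refine Finset.sum_subset (fun Q hQ => ?_) fun Q hQ hQ2 => ?_
    · rw [Finset.mem_Ico] at hQ
      rw [Finset.mem_range]; exact hQ.2
    · by_contra hne
      have h2 : m Q P ≠ 0 := fun h0 => hne (by rw [h0, zero_pow (by norm_num)])
      have h3 := m_odd h2
      apply hQ2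
      rw [Finset.mem_Ico]
      rw [Finset.mem_range] at hQ
      omega
  rw [h1]
  exact Finset.single_le_sum (f := fun P' => ∑ Q ∈ Finset.Ico (P + 1) N, m Q P' ^ 2)
    (fun _ _ => by positivity) (by simp : P ∈ Finset.range (P + 1))

/-- The test vector of the dyadic block `j + 1`. -/
def cc (j P : ℕ) : ℝ := if P % 2 = 0 ∧ Nat.log 2 (P / 2 + 1) = j + 1 then 1 else 0

theorem cc_even {j P : ℕ} (h : cc j P ≠ 0) : P % 2 = 0 := by
  unfold cc at h
  split_ifs at h with h1
  · exact h1.1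
  · exact absurd rfl h

theorem cc_sum (j : ℕ) : ∑ P ∈ Finset.range (2 * 2 ^ (j + 2)), cc j P ^ 2 ≤ 2 ^ (j + 1) := by
  rw [sum_even_odd]
  have h1 : ∀ k ∈ Finset.range (2 ^ (j + 2)), cc j (2 * k) ^ 2 + cc j (2 * k + 1) ^ 2 =
      if Nat.log 2 (k + 1) = j + 1 then 1 else 0 := by
    intro k _
    have e1 : 2 * k % 2 = 0 := by omega
    have e2 : ¬ ((2 * k + 1) % 2 = 0) := by omega
    have e3 : 2 * k / 2 = k := by omega
    have e4 : cc j (2 * k + 1) = 0 := by
      unfold cc
      exact if_neg fun h => e2 h.1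
    rw [e4]
    unfold cc
    rw [e3]
    by_cases h : Nat.log 2 (k + 1) = j + 1
    · rw [if_pos ⟨e1, h⟩, if_pos h]; norm_num
    · rw [if_neg (fun h' => h h'.2), if_neg h]; norm_num
  rw [Finset.sum_congr rfl h1, ← Finset.sum_filter, Finset.sum_const, nsmul_eq_mul, mul_one]
  have h2 : ((Finset.range (2 ^ (j + 2))).filter (fun k => Nat.log 2 (k + 1) = j + 1)).card ≤
      2 ^ (j + 1) := by
    have h3 : (Finset.range (2 ^ (j + 2))).filter (fun k => Nat.log 2 (k + 1) = j + 1) ⊆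
        Finset.Ico (2 ^ (j + 1) - 1) (2 ^ (j + 2) - 1) := by
      intro k hk
      rw [Finset.mem_filter] at hk
      have h4 : 2 ^ (j + 1) ≤ k + 1 := by
        rw [← hk.2]; exact Nat.pow_log_le_self 2 (by omega)
      have h5 : k + 1 < 2 ^ (j + 1 + 1) := by
        rw [← hk.2]; exact Nat.lt_pow_succ_log_self (by norm_num) _
      rw [Finset.mem_Ico]
      have h6 : j + 1 + 1 = j + 2 := rfl
      rw [h6] at h5
      omega
    refine (Finset.card_le_card h3).trans ?_
    rw [Nat.card_Ico]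
    have h7 : 2 ^ (j + 2) = 2 ^ (j + 1) * 2 := pow_succ _ _
    omega
  exact_mod_cast h2

theorem cc_big (j : ℕ) : (2 : ℝ) ^ j * ((j : ℝ) ^ 2 / (4 * (j + 2))) ≤
    ∑ Q ∈ Finset.range (2 * 2 ^ (j + 2)),
      (∑ P ∈ Finset.range (2 * 2 ^ (j + 2)), m Q P * cc j P) ^ 2 := by
  rw [sum_even_odd (fun Q => (∑ P ∈ Finset.range (2 * 2 ^ (j + 2)), m Q P * cc j P) ^ 2)]
  have h7 : 2 ^ (j + 2) = 2 ^ (j + 1) * 2 := pow_succ _ _
  have h8 : 2 ^ (j + 1) = 2 ^ j * 2 := pow_succ _ _
  have hpos : 0 < 2 ^ j := by positivity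
  have hsub : Finset.Ico (2 ^ (j + 1) + 2 ^ j - 1) (2 ^ (j + 2) - 1) ⊆
      Finset.range (2 ^ (j + 2)) := by
    intro l hl
    rw [Finset.mem_Ico] at hl
    rw [Finset.mem_range]
    omega
  have hcard : (Finset.Ico (2 ^ (j + 1) + 2 ^ j - 1) (2 ^ (j + 2) - 1)).card = 2 ^ j := by
    rw [Nat.card_Ico]
    omega
  have hl : ∀ l ∈ Finset.Ico (2 ^ (j + 1) + 2 ^ j - 1) (2 ^ (j + 2) - 1),
      (j : ℝ) ^ 2 / (4 * (j + 2)) ≤
        (∑ P ∈ Finset.range (2 * 2 ^ (j + 2)), m (2 * l) P * cc j P) ^ 2 +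
        (∑ P ∈ Finset.range (2 * 2 ^ (j + 2)), m (2 * l + 1) P * cc j P) ^ 2 := by
    intro l hl
    rw [Finset.mem_Ico] at hl
    have hlog : ∀ k, 2 ^ (j + 1) ≤ k + 1 → k + 1 < 2 ^ (j + 2) → Nat.log 2 (k + 1) = j + 1 := by
      intro k hk1 hk2
      exact Nat.log_eq_of_pow_le_of_lt_pow hk1 hk2
    have hll : Nat.log 2 (l + 1) = j + 1 := hlog l (by omega) (by omega)
    have h1 : ∑ P ∈ Finset.range (2 * 2 ^ (j + 2)), m (2 * l + 1) P * cc j P =
        ∑ k ∈ Finset.range (2 ^ (j + 2)), M l k * cc j (2 * k) := by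
      rw [sum_even_odd (fun P => m (2 * l + 1) P * cc j P)]
      refine Finset.sum_congr rfl fun k _ => ?_
      have e1 : 2 * k % 2 = 0 := by omega
      have e2 : ¬ ((2 * k + 1) % 2 = 0) := by omega
      have e3 : 2 * k / 2 = k := by omega
      have e4 : (2 * l + 1) % 2 = 1 := by omega
      have e5 : (2 * l + 1) / 2 = l := by omega
      have e6 : m (2 * l + 1) (2 * k + 1) = 0 := by
        unfold m
        exact if_neg fun h => e2 h.2
      rw [e6, zero_mul, add_zero]
      unfold m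
      rw [if_pos ⟨e4, e1⟩, e3, e5]
    have hnn : ∀ k, 0 ≤ M l k * cc j (2 * k) := by
      intro k
      unfold M cc
      split_ifs with ha hb
      · have : (0 : ℝ) ≤ (l : ℝ) - k := by
          have : (k : ℝ) ≤ l := by exact_mod_cast ha.1
          linarith
        positivity
      · simp
      · simp
      · simp
    have h2 : ∑ a ∈ Finset.range (2 ^ j), 1 / ((a : ℝ) + 1) * (1 / √((j : ℝ) + 2)) ≤
        ∑ k ∈ Finset.range (2 ^ (j + 2)), M l k * cc j (2 * k) := by
      have h3 : ∑ a ∈ Finset.range (2 ^ j), 1 / ((a : ℝ) + 1) * (1 / √((j : ℝ) + 2)) =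
          ∑ a ∈ Finset.range (2 ^ j), M l (l - a) * cc j (2 * (l - a)) := by
        refine Finset.sum_congr rfl fun a ha => ?_
        rw [Finset.mem_range] at ha
        have h4 : Nat.log 2 (l - a + 1) = j + 1 := hlog _ (by omega) (by omega)
        have h5 : (2 * (l - a)) % 2 = 0 := by omega
        have h6 : (2 * (l - a)) / 2 = l - a := by omega
        unfold M cc
        rw [if_pos ⟨by omega, by rw [h4, hll]⟩, h6, if_pos ⟨h5, h4⟩, hll, mul_one,
          Nat.cast_sub (by omega)]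
        push_cast
        rw [one_div_mul_one_div]
        congr 2
        · ring
        · congr 1
          ring
      rw [h3, ← Finset.sum_image (s := Finset.range (2 ^ j)) (g := fun a => l - a)
        (f := fun k => M l k * cc j (2 * k))]
      · refine Finset.sum_le_sum_of_subset_of_nonneg ?_ fun k _ _ => hnn k
        intro k hk
        rw [Finset.mem_image] at hk
        obtain ⟨a, ha, rfl⟩ := hk
        rw [Finset.mem_range] at ha ⊢
        omega
      · intro a ha b hb hab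
        simp only [Finset.coe_range, Set.mem_Iio] at ha hb
        simp only at hab
        omega
    rw [← Finset.sum_mul] at h2
    have h3 := le_harm j
    have hs : 0 < √((j : ℝ) + 2) := Real.sqrt_pos.2 (by positivity)
    have h4 : (j : ℝ) / 2 * (1 / √((j : ℝ) + 2)) ≤
        ∑ P ∈ Finset.range (2 * 2 ^ (j + 2)), m (2 * l + 1) P * cc j P := by
      rw [h1]
      exact (mul_le_mul_of_nonneg_right h3 (by positivity)).trans h2
    have h5 : (j : ℝ) ^ 2 / (4 * (j + 2)) = ((j : ℝ) / 2 * (1 / √((j : ℝ) + 2))) ^ 2 := by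
      rw [mul_pow, div_pow, div_pow, Real.sq_sqrt (by positivity)]
      field_simp
      ring
    rw [h5]
    have h6 : 0 ≤ (∑ P ∈ Finset.range (2 * 2 ^ (j + 2)), m (2 * l) P * cc j P) ^ 2 := by positivity
    have h9 : ((j : ℝ) / 2 * (1 / √((j : ℝ) + 2))) ^ 2 ≤
        (∑ P ∈ Finset.range (2 * 2 ^ (j + 2)), m (2 * l + 1) P * cc j P) ^ 2 :=
      pow_le_pow_left₀ (by positivity) h4 2
    linarith
  calc (2 : ℝ) ^ j * ((j : ℝ) ^ 2 / (4 * (j + 2))) =
      ∑ _l ∈ Finset.Ico (2 ^ (j + 1) + 2 ^ j - 1) (2 ^ (j + 2) - 1), (j : ℝ) ^ 2 / (4 * (j + 2)) := by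
        rw [Finset.sum_const, hcard, nsmul_eq_mul]
        push_cast
        ring
    _ ≤ _ := Finset.sum_le_sum hl
    _ ≤ _ := Finset.sum_le_sum_of_subset_of_nonneg hsub fun _ _ _ => by positivity

end Pool.Agent.X202.Mat
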