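import Mathlib

set_option autoImplicit false

/-!
# Renorming bidemocratic bases: the sequence-level core
-/

namespace Pool.Agent.X202.Ren

variable {ι : Type}

/-- Truncation at level `l`. -/
noncomputable def tau (l t : ℝ) : ℝ := max (-l) (min l t)

/-- Mass above level `l`. -/
noncomputable def Phi (g : ι →₀ ℝ) (l : ℝ) : ℝ := ∑ i ∈ g.support, max (|g i| - l) 0

theorem tau_abs_le {l : ℝ} (hl : 0 ≤ l) (t : ℝ) : |tau l t| ≤ l := by
  unfold tau
  rw [abs_le]
  exact ⟨le_max_left _ _, max_le (by linarith) (min_le_left _ _)⟩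

theorem tau_abs_le' {l : ℝ} (hl : 0 ≤ l) (t : ℝ) : |tau l t| ≤ |t| := by
  unfold tau
  rcases le_total l t with h | h
  · rw [min_eq_left h, max_eq_right (by linarith), abs_of_nonneg hl, abs_of_nonneg (hl.trans h)]
    exact h
  · rw [min_eq_right h]
    rcases le_total (-l) t with h2 | h2
    · rw [max_eq_right h2]
    · rw [max_eq_left h2, abs_neg, abs_of_nonneg hl, abs_of_nonpos (by linarith)]
      linarith

theorem tau_neg {l : ℝ} (hl : 0 ≤ l) (t : ℝ) : tau l (-t) = - tau l t := by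
  unfold tau
  simp only [min_def, max_def]
  split_ifs <;> linarith

theorem tau_zero {l : ℝ} (hl : 0 ≤ l) : tau l 0 = 0 := by
  have := tau_abs_le' hl 0
  rw [abs_zero] at this
  exact abs_nonpos_iff.1 this

theorem tau_eq_self {l t : ℝ} (h : |t| ≤ l) : tau l t = t := by
  unfold tau
  rw [abs_le] at h
  rw [min_eq_right h.2, max_eq_right h.1]

theorem tau_sub {l l' : ℝ} (h0 : 0 ≤ l') (h : l' ≤ l) (t : ℝ) :
    |tau l t - tau l' t| ≤ max (|t| - l') 0 - max (|t| - l) 0 := by
  unfold tau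
  rcases le_total 0 t with ht | ht
  · rw [abs_of_nonneg ht, max_eq_right (show -l ≤ min l t by
      rw [le_min_iff]; constructor <;> linarith), max_eq_right (show -l' ≤ min l' t by
      rw [le_min_iff]; constructor <;> linarith)]
    rcases le_total l t with h1 | h1
    · rw [min_eq_left h1, min_eq_left (h.trans h1), max_eq_left (by linarith),
        max_eq_left (by linarith), abs_of_nonneg (by linarith)]
      linarith
    · rw [min_eq_right h1]
      rcases le_total l' t with h2 | h2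
      · rw [min_eq_left h2, max_eq_left (by linarith), max_eq_right (by linarith),
          abs_of_nonneg (by linarith)]
        linarith
      · rw [min_eq_right h2, max_eq_right (by linarith), max_eq_right (by linarith)]
        simp
  · rw [abs_of_nonpos ht, min_eq_right (show t ≤ l by linarith),
      min_eq_right (show t ≤ l' by linarith)]
    rcases le_total (-l) t with h1 | h1
    · rw [max_eq_right h1]
      rcases le_total (-l') t with h2 | h2
      · rw [max_eq_right h2, max_eq_right (by linarith), max_eq_right (by linarith)]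
        simp
      · rw [max_eq_left h2, max_eq_left (by linarith), max_eq_right (by linarith),
          abs_of_nonpos (by linarith)]
        linarith
    · rw [max_eq_left h1, max_eq_left (by linarith : t ≤ -l'), max_eq_left (by linarith),
        max_eq_left (by linarith), abs_of_nonpos (by linarith)]
      linarith

theorem Phi_nonneg (g : ι →₀ ℝ) (l : ℝ) : 0 ≤ Phi g l :=
  Finset.sum_nonneg fun _ _ => le_max_right _ _

theorem Phi_cont (g : ι →₀ ℝ) : Continuous (Phi g) := by
  unfold Phi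
  refine continuous_finsetSum _ fun i _ => ?_
  exact (continuous_const.sub continuous_id).max continuous_const

theorem Phi_zero (g : ι →₀ ℝ) : Phi g 0 = ∑ i ∈ g.support, |g i| := by
  unfold Phi
  exact Finset.sum_congr rfl fun i _ => by rw [sub_zero, max_eq_left (abs_nonneg _)]

theorem abs_le_Phi_zero (g : ι →₀ ℝ) (i : ι) : |g i| ≤ Phi g 0 := by
  by_cases hi : i ∈ g.support
  · rw [Phi_zero]
    exact Finset.single_le_sum (f := fun i => |g i|) (fun i _ => abs_nonneg _) hi
  · rw [Finsupp.notMem_support_iff.1 hi, abs_zero]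
    exact Phi_nonneg g 0

theorem Phi_l1 (g : ι →₀ ℝ) : Phi g (Phi g 0) = 0 := by
  conv_lhs => unfold Phi
  refine Finset.sum_eq_zero fun i _ => max_eq_right ?_
  have := abs_le_Phi_zero g i
  unfold Phi at this
  linarith

/-- The data of the renorming. -/
structure Cfg (ι : Type) where
  φ : ℕ → ℝ
  D : ℝ
  G : Set (ι →₀ ℝ)
  φ0 : φ 0 = 0
  φ1 : 0 < φ 1
  D0 : 0 < D
  dnn : ∀ m, 0 ≤ φ (m + 1) - φ m
  danti : ∀ m, φ (m + 2) - φ (m + 1) ≤ φ (m + 1) - φ m
  hG : ∀ g ∈ G, ∀ A : Finset ι, ∑ i ∈ A, |g i| ≤ D * φ A.card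

namespace Cfg

variable (P : Cfg ι)

theorem danti' {m n : ℕ} (h : m ≤ n) : P.φ (n + 1) - P.φ n ≤ P.φ (m + 1) - P.φ m := by
  induction n, h using Nat.le_induction with
  | base => exact le_refl _
  | succ n hn ih => exact (P.danti n).trans ih

theorem mono {m n : ℕ} (h : m ≤ n) : P.φ m ≤ P.φ n :=
  monotone_nat_of_le_succ (fun n => by linarith [P.dnn n]) h

theorem sub_le {m k : ℕ} (h : m ≤ k) :
    P.φ k - P.φ m ≤ (k - m : ℝ) * (P.φ (m + 1) - P.φ m) := by
  induction k, h using Nat.le_induction with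
  | base => simp
  | succ n hn ih =>
    have h1 := P.danti' hn
    push_cast
    nlinarith

theorem ge_mul (m : ℕ) : (m : ℝ) * (P.φ (m + 1) - P.φ m) ≤ P.φ m := by
  induction m with
  | zero => simp [P.φ0]
  | succ m ih =>
    have h1 := P.danti m
    have h2 : ((m + 1 : ℕ) : ℝ) * (P.φ (m + 1 + 1) - P.φ (m + 1)) ≤
        ((m + 1 : ℕ) : ℝ) * (P.φ (m + 1) - P.φ m) :=
      mul_le_mul_of_nonneg_left h1 (by positivity)
    push_cast at h2 ⊢
    linarith

theorem pos {m : ℕ} (h : 1 ≤ m) : 0 < P.φ m := P.φ1.trans_le (P.mono h)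

theorem nonneg (m : ℕ) : 0 ≤ P.φ m := by
  have := P.mono (Nat.zero_le m)
  rwa [P.φ0] at this

/-- The weight of the `ℓ_1`-part. -/
noncomputable def c (m : ℕ) : ℝ := 2 * P.D * P.φ m / m

theorem c_nonneg (m : ℕ) : 0 ≤ P.c m := by
  unfold c
  have := P.nonneg m
  have := P.D0
  positivity

theorem c_mul (m : ℕ) : P.c m * m = 2 * P.D * P.φ m := by
  unfold c
  rcases Nat.eq_zero_or_pos m with h | h
  · subst h; simp [P.φ0]
  · have : (m : ℝ) ≠ 0 := by positivity
    field_simp

theorem c_anti {m : ℕ} (hm : 1 ≤ m) : P.c (m + 1) ≤ P.c m := by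
  unfold c
  have h0 : (0 : ℝ) < m := by exact_mod_cast hm
  rw [div_le_div_iff₀ (by positivity) h0]
  have h1 := P.ge_mul m
  have h2 := P.D0
  push_cast
  have h3 : P.φ (m + 1) * m ≤ P.φ m * (m + 1) := by linarith
  calc 2 * P.D * P.φ (m + 1) * m = 2 * P.D * (P.φ (m + 1) * m) := by ring
    _ ≤ 2 * P.D * (P.φ m * (m + 1)) := mul_le_mul_of_nonneg_left h3 (by positivity)
    _ = _ := by ring

/-- Gain when a top coordinate is added. -/
theorem gain {m : ℕ} {S t : ℝ} (ht : 0 ≤ t) (hS : S ≤ m * t) (hS0 : m = 0 → S = 0) :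
    P.c m * S + 2 * P.D * (P.φ (m + 1) - P.φ m) * t ≤ P.c (m + 1) * (S + t) := by
  rcases Nat.eq_zero_or_pos m with h | h
  · subst h
    rw [hS0 rfl]
    have := P.c_mul 1
    norm_num [P.φ0] at this ⊢
    rw [this]
  · have h1 := P.c_anti h
    have h2 := P.c_mul m
    have h3 := P.c_mul (m + 1)
    push_cast at h3
    have h4 : (P.c m - P.c (m + 1)) * S ≤ (P.c m - P.c (m + 1)) * (m * t) :=
      mul_le_mul_of_nonneg_left hS (by linarith)
    have h5 : P.c m * (m * t) = 2 * P.D * P.φ m * t := by rw [← mul_assoc, h2]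
    have h6 : P.c (m + 1) * (m * t) + P.c (m + 1) * t = 2 * P.D * P.φ (m + 1) * t := by
      rw [← h3]; ring
    nlinarith

/-- Admissible triples. -/
def Adm (A : Finset ι) (g : ι →₀ ℝ) (l : ℝ) : Prop :=
  g ∈ P.G ∧ 0 ≤ l ∧ Phi g l = min (Phi g 0) (P.D * P.φ A.card)

theorem adm_card {A B : Finset ι} {g : ι →₀ ℝ} {l : ℝ} (h : P.Adm A g l)
    (hc : A.card = B.card) : P.Adm B g l := by
  unfold Adm at h ⊢
  rwa [← hc]

/-- The truncated functionals have small coordinates. -/
theorem lam {A : Finset ι} {g : ι →₀ ℝ} {l : ℝ} (h : P.Adm A g l) (j : ι) :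
    |tau l (g j)| ≤ P.D * (P.φ (A.card + 1) - P.φ A.card) := by
  classical
  obtain ⟨hg, hl, hP⟩ := h
  set m := A.card with hm
  have hΔ := P.dnn m
  have hD := P.D0
  have hr : 0 ≤ P.D * (P.φ (m + 1) - P.φ m) := by positivity
  rcases Nat.eq_zero_or_pos m with h0 | h0
  · have h1 := P.hG g hg {j}
    simp only [Finset.sum_singleton, Finset.card_singleton] at h1
    rw [h0, P.φ0, sub_zero, zero_add]
    exact (tau_abs_le' hl _).trans h1
  by_cases hK : ∃ i, l < |g i|
  · set K : Finset ι := g.support.filter (fun i => l < |g i|) with hKdef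
    have hK1 : 1 ≤ K.card := by
      obtain ⟨i, hi⟩ := hK
      refine Finset.card_pos.2 ⟨i, ?_⟩
      rw [hKdef, Finset.mem_filter, Finsupp.mem_support_iff]
      refine ⟨?_, hi⟩
      intro h2
      rw [h2, abs_zero] at hi
      linarith
    have hsum : Phi g l = ∑ i ∈ K, |g i| - K.card * l := by
      unfold Phi
      rw [hKdef, Finset.sum_filter, Finset.card_filter]
      push_cast
      rw [Finset.sum_mul, ← Finset.sum_sub_distrib]
      refine Finset.sum_congr rfl fun i _ => ?_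
      split_ifs with h2
      · rw [max_eq_left (by linarith)]; ring
      · rw [max_eq_right (by linarith)]; ring
    have hK2 := P.hG g hg K
    have hK3 : ∑ i ∈ K, |g i| ≤ Phi g 0 := by
      rw [Phi_zero]
      exact Finset.sum_le_sum_of_subset_of_nonneg (Finset.filter_subset _ _)
        fun _ _ _ => abs_nonneg _
    have hKr : (1 : ℝ) ≤ K.card := by exact_mod_cast hK1
    have hbound : l ≤ P.D * (P.φ (m + 1) - P.φ m) := by
      have h3 : (K.card : ℝ) * l = ∑ i ∈ K, |g i| - min (Phi g 0) (P.D * P.φ m) := by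
        rw [← hP, hsum]; ring
      rcases min_cases (Phi g 0) (P.D * P.φ m) with ⟨h4, _⟩ | ⟨h4, _⟩
      · rw [h4] at h3
        have : (K.card : ℝ) * l ≤ 0 := by linarith
        nlinarith
      · rw [h4] at h3
        have h5 : (K.card : ℝ) * l ≤ P.D * (P.φ K.card - P.φ m) := by linarith
        rcases le_total m K.card with h6 | h6
        · have h7 := P.sub_le h6
          have h8 : (K.card : ℝ) * l ≤ K.card * (P.D * (P.φ (m + 1) - P.φ m)) := by
            refine h5.trans ?_
            have h9 : P.φ K.card - P.φ m ≤ K.card * (P.φ (m + 1) - P.φ m) := by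
              refine h7.trans (mul_le_mul_of_nonneg_right ?_ hΔ)
              have : (0 : ℝ) ≤ m := by positivity
              linarith
            calc P.D * (P.φ K.card - P.φ m) ≤ P.D * (K.card * (P.φ (m + 1) - P.φ m)) :=
                  mul_le_mul_of_nonneg_left h9 hD.le
              _ = _ := by ring
          exact le_of_mul_le_mul_left h8 (by linarith)
        · have h7 := P.mono h6
          have h8 : (K.card : ℝ) * l ≤ 0 := by
            refine h5.trans ?_
            have : P.φ K.card - P.φ m ≤ 0 := by linarith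
            nlinarith
          nlinarith
    exact (tau_abs_le hl _).trans hbound
  · have hK' : ∀ i, |g i| ≤ l := fun i => not_lt.1 fun hh => hK ⟨i, hh⟩
    have hz : Phi g l = 0 := by
      unfold Phi
      exact Finset.sum_eq_zero fun i _ => max_eq_right (by linarith [hK' i])
    rw [hz] at hP
    have h3 : 0 < P.D * P.φ m := mul_pos hD (P.pos h0)
    have h4 : Phi g 0 = 0 := by
      rcases min_cases (Phi g 0) (P.D * P.φ m) with ⟨h4, _⟩ | ⟨h4, _⟩
      · rw [h4] at hP; exact hP.symm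
      · rw [h4] at hP; linarith
    have h5 : g j = 0 := by
      by_contra hne
      have h6 := Finset.single_le_sum (f := fun i => |g i|) (s := g.support)
        (fun i _ => abs_nonneg _) (Finsupp.mem_support_iff.2 hne)
      rw [← Phi_zero, h4] at h6
      exact hne (abs_nonpos_iff.1 h6)
    rw [h5, tau_zero hl, abs_zero]
    exact hr

/-- The functional part off `A`. -/
noncomputable def off (A : Finset ι) (g : ι →₀ ℝ) (l : ℝ) (x : ι → ℝ) : ℝ :=
  open scoped Classical in ∑ i ∈ g.support \ A, tau l (g i) * x i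

/-- The value of a triple at `x`. -/
noncomputable def V (A : Finset ι) (g : ι →₀ ℝ) (l : ℝ) (x : ι → ℝ) : ℝ :=
  P.c A.card * ∑ i ∈ A, |x i| + |off A g l x|

/-- Adding a top coordinate. -/
theorem step {A : Finset ι} {g : ι →₀ ℝ} {l : ℝ} (h : P.Adm A g l) {x : ι → ℝ} {j : ι}
    (hj : j ∉ A) (hx : ∀ i, |x i| ≤ |x j|) :
    ∃ l', (open scoped Classical in P.Adm (insert j A) g l') ∧
      P.V A g l x ≤ (open scoped Classical in P.V (insert j A) g l' x) := by
  classical
  obtain ⟨hg, hl, hP⟩ := h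
  set m := A.card with hm
  have hcard : (insert j A).card = m + 1 := Finset.card_insert_of_notMem hj
  have hΔ := P.dnn m
  have hD := P.D0
  have hmin : min (Phi g 0) (P.D * P.φ m) ≤ min (Phi g 0) (P.D * P.φ (m + 1)) :=
    min_le_min_left _ (mul_le_mul_of_nonneg_left (by linarith) hD.le)
  obtain ⟨l', ⟨hl0, hl1⟩, hl2⟩ := intermediate_value_Icc' hl (Phi_cont g).continuousOn
    (show min (Phi g 0) (P.D * P.φ (m + 1)) ∈ Set.Icc (Phi g l) (Phi g 0) from
      ⟨by rw [hP]; exact hmin, min_le_left _ _⟩)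
  have hl2' : Phi g l' = min (Phi g 0) (P.D * P.φ (m + 1)) := hl2
  refine ⟨l', ⟨hg, hl0, by rw [hcard]; exact hl2'⟩, ?_⟩
  set t := |x j| with ht
  have ht0 : 0 ≤ t := abs_nonneg _
  have hmass : Phi g l' - Phi g l ≤ P.D * (P.φ (m + 1) - P.φ m) := by
    rw [hl2', hP]
    have h1 : 0 ≤ P.D * (P.φ (m + 1) - P.φ m) := by positivity
    rcases min_cases (Phi g 0) (P.D * P.φ (m + 1)) with ⟨h4, h4'⟩ | ⟨h4, h4'⟩ <;>
    rcases min_cases (Phi g 0) (P.D * P.φ m) with ⟨h5, h5'⟩ | ⟨h5, h5'⟩ <;> rw [h4, h5] <;>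
    linarith
  have hlam : |tau l (g j)| ≤ P.D * (P.φ (m + 1) - P.φ m) := P.lam ⟨hg, hl, hP⟩ j
  have hoff : |off A g l x| ≤ |off (insert j A) g l' x| +
      2 * P.D * (P.φ (m + 1) - P.φ m) * t := by
    have h1 : off A g l x = off (insert j A) g l' x +
        ((∑ i ∈ g.support \ insert j A, (tau l (g i) - tau l' (g i)) * x i) +
          tau l (g j) * x j) := by
      unfold off
      have h2 : ∑ i ∈ g.support \ A, tau l (g i) * x i =
          ∑ i ∈ g.support \ insert j A, tau l (g i) * x i + tau l (g j) * x j := by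
        by_cases hjs : j ∈ g.support
        · have h3 : g.support \ A = insert j (g.support \ insert j A) := by
            ext i
            simp only [Finset.mem_sdiff, Finset.mem_insert, not_or]
            constructor
            · rintro ⟨h4, h5⟩
              by_cases h6 : i = j
              · exact Or.inl h6
              · exact Or.inr ⟨h4, h6, h5⟩
            · rintro (h4 | ⟨h4, h5, h6⟩)
              · subst h4; exact ⟨hjs, hj⟩
              · exact ⟨h4, h6⟩
          rw [h3, Finset.sum_insert (by simp), add_comm]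
        · have h3 : g.support \ A = g.support \ insert j A := by
            ext i
            simp only [Finset.mem_sdiff, Finset.mem_insert, not_or]
            constructor
            · rintro ⟨h4, h5⟩
              exact ⟨h4, fun h6 => hjs (h6 ▸ h4), h5⟩
            · rintro ⟨h4, h5, h6⟩
              exact ⟨h4, h6⟩
          rw [h3, Finsupp.notMem_support_iff.1 hjs, tau_zero hl]
          ring
      rw [h2]
      simp only [sub_mul, Finset.sum_sub_distrib]
      ring
    rw [h1]
    refine (abs_add_le _ _).trans (add_le_add_right ?_ _)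
    refine (abs_add_le _ _).trans ?_
    have h3 : |∑ i ∈ g.support \ insert j A, (tau l (g i) - tau l' (g i)) * x i| ≤
        (Phi g l' - Phi g l) * t := by
      refine (Finset.abs_sum_le_sum_abs _ _).trans ?_
      unfold Phi
      rw [← Finset.sum_sub_distrib, Finset.sum_mul]
      refine (Finset.sum_le_sum (g := fun i => (max (|g i| - l') 0 - max (|g i| - l) 0) * t)
        fun i _ => ?_).trans ?_
      · rw [abs_mul]
        exact mul_le_mul (tau_sub hl0 hl1 _) (hx i) (abs_nonneg _)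
          ((abs_nonneg _).trans (tau_sub hl0 hl1 _))
      · exact Finset.sum_le_sum_of_subset_of_nonneg Finset.sdiff_subset fun i _ _ =>
          mul_nonneg ((abs_nonneg _).trans (tau_sub hl0 hl1 (g i))) ht0
    have h4 : |tau l (g j) * x j| ≤ P.D * (P.φ (m + 1) - P.φ m) * t := by
      rw [abs_mul]
      exact mul_le_mul_of_nonneg_right hlam ht0
    have h5 : (Phi g l' - Phi g l) * t ≤ P.D * (P.φ (m + 1) - P.φ m) * t :=
      mul_le_mul_of_nonneg_right hmass ht0
    linarith
  have hgain := P.gain (m := m) (S := ∑ i ∈ A, |x i|) (t := t) ht0 (by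
    refine (Finset.sum_le_card_nsmul A (fun i => |x i|) t fun i _ => hx i).trans ?_
    rw [nsmul_eq_mul]) (by
    intro h0
    have : A = ∅ := Finset.card_eq_zero.1 h0
    rw [this, Finset.sum_empty])
  unfold V
  rw [hcard, Finset.sum_insert hj, ← hm, ← ht, add_comm t]
  linarith

/-- Adding all top coordinates. -/
theorem ext {A : Finset ι} {g : ι →₀ ℝ} {l : ℝ} (h : P.Adm A g l) {x : ι → ℝ} {t : ℝ}
    (hx : ∀ i, |x i| ≤ t) (T : Finset ι) (hT : ∀ j ∈ T, |x j| = t) :
    ∃ (A' : Finset ι) (l' : ℝ), A ⊆ A' ∧ T ⊆ A' ∧ P.Adm A' g l' ∧ P.V A g l x ≤ P.V A' g l' x := by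
  classical
  induction T using Finset.induction_on with
  | empty => exact ⟨A, l, Finset.Subset.refl _, Finset.empty_subset _, h, le_refl _⟩
  | insert j T hj ih =>
    obtain ⟨A', l', hA, hTA, hadm, hV⟩ := ih fun i hi => hT i (Finset.mem_insert_of_mem hi)
    by_cases hjA : j ∈ A'
    · exact ⟨A', l', hA, Finset.insert_subset hjA hTA, hadm, hV⟩
    · obtain ⟨l'', h1, h2⟩ := P.step hadm (x := x) hjA (fun i => by
        rw [hT j (Finset.mem_insert_self _ _)]; exact hx i)
      exact ⟨insert j A', l'', hA.trans (Finset.subset_insert _ _),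
        Finset.insert_subset_insert _ hTA, by convert h1, hV.trans (by convert h2)⟩

/-- Moving top coordinates. -/
theorem move {A : Finset ι} {g : ι →₀ ℝ} {l : ℝ} (h : P.Adm A g l) {x y : ι → ℝ} {t : ℝ}
    (hx : ∀ i, |x i| ≤ t) (T T' : Finset ι) (hT : ∀ j ∈ T, |x j| = t) (hT' : ∀ j ∈ T', |y j| = t)
    (hcard : T.card = T'.card) (hxy : ∀ i, i ∉ T → i ∉ T' → y i = x i)
    (hy0 : ∀ i ∈ T, i ∉ T' → y i = 0) (hx0 : ∀ i ∈ T', i ∉ T → x i = 0) :
    ∃ (A' : Finset ι) (l' : ℝ), P.Adm A' g l' ∧ P.V A g l x ≤ P.V A' g l' y := by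
  classical
  obtain ⟨A', l', hA, hTA, hadm, hV⟩ := P.ext h hx T hT
  have hc1 : (T \ T').card = (T' \ T).card := by
    have h1 := Finset.card_sdiff_add_card_inter T T'
    have h2 := Finset.card_sdiff_add_card_inter T' T
    rw [Finset.inter_comm] at h2
    omega
  obtain ⟨R, hR, hRc⟩ := Finset.exists_subset_card_eq (s := T \ T')
    (n := (A' ∩ (T' \ T)).card) (by rw [hc1]; exact Finset.card_le_card Finset.inter_subset_right)
  set A'' : Finset ι := ((A' \ (T ∪ T')) ∪ T') ∪ R with hA''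
  have hd1 : Disjoint (A' \ (T ∪ T')) T' := by
    rw [Finset.disjoint_left]
    intro i hi hi2
    rw [Finset.mem_sdiff, Finset.mem_union] at hi
    exact hi.2 (Or.inr hi2)
  have hd2 : Disjoint ((A' \ (T ∪ T')) ∪ T') R := by
    rw [Finset.disjoint_left]
    intro i hi hi2
    have hi3 := Finset.mem_sdiff.1 (hR hi2)
    rw [Finset.mem_union, Finset.mem_sdiff, Finset.mem_union] at hi
    rcases hi with hi | hi
    · exact hi.2 (Or.inl hi3.1)
    · exact hi3.2 hi
  have hA'split : A' = ((A' \ (T ∪ T')) ∪ T) ∪ (A' ∩ (T' \ T)) := by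
    ext i
    simp only [Finset.mem_union, Finset.mem_sdiff, Finset.mem_inter, not_or]
    constructor
    · intro hi
      by_cases h1 : i ∈ T
      · exact Or.inl (Or.inr h1)
      · by_cases h2 : i ∈ T'
        · exact Or.inr ⟨hi, h2, h1⟩
        · exact Or.inl (Or.inl ⟨hi, h1, h2⟩)
    · rintro ((h1 | h1) | h1)
      · exact h1.1
      · exact hTA h1
      · exact h1.1
  have hd3 : Disjoint (A' \ (T ∪ T')) T := by
    rw [Finset.disjoint_left]
    intro i hi hi2
    rw [Finset.mem_sdiff, Finset.mem_union] at hi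
    exact hi.2 (Or.inl hi2)
  have hd4 : Disjoint ((A' \ (T ∪ T')) ∪ T) (A' ∩ (T' \ T)) := by
    rw [Finset.disjoint_left]
    intro i hi hi2
    rw [Finset.mem_inter, Finset.mem_sdiff] at hi2
    rw [Finset.mem_union, Finset.mem_sdiff, Finset.mem_union] at hi
    rcases hi with hi | hi
    · exact hi.2 (Or.inr hi2.2.1)
    · exact hi2.2.2 hi
  have hcA : A'.card = A''.card := by
    rw [hA'split, Finset.card_union_of_disjoint hd4, Finset.card_union_of_disjoint hd3, hA'',
      Finset.card_union_of_disjoint hd2, Finset.card_union_of_disjoint hd1, hRc, hcard]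
  refine ⟨A'', l', P.adm_card hadm hcA, hV.trans (le_of_eq ?_)⟩
  unfold V
  rw [← hcA]
  congr 1
  · congr 1
    conv_lhs => rw [hA'split]
    rw [hA'', Finset.sum_union hd4, Finset.sum_union hd3, Finset.sum_union hd2,
      Finset.sum_union hd1]
    have e1 : ∑ i ∈ A' \ (T ∪ T'), |x i| = ∑ i ∈ A' \ (T ∪ T'), |y i| := by
      refine Finset.sum_congr rfl fun i hi => ?_
      rw [Finset.mem_sdiff, Finset.mem_union, not_or] at hi
      rw [hxy i hi.2.1 hi.2.2]
    have e2 : ∑ i ∈ T, |x i| = ∑ i ∈ T', |y i| := by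
      rw [Finset.sum_congr rfl hT, Finset.sum_congr rfl hT', Finset.sum_const, Finset.sum_const,
        hcard]
    have e3 : ∑ i ∈ A' ∩ (T' \ T), |x i| = 0 := by
      refine Finset.sum_eq_zero fun i hi => ?_
      rw [Finset.mem_inter, Finset.mem_sdiff] at hi
      rw [hx0 i hi.2.1 hi.2.2, abs_zero]
    have e4 : ∑ i ∈ R, |y i| = 0 := by
      refine Finset.sum_eq_zero fun i hi => ?_
      have := Finset.mem_sdiff.1 (hR hi)
      rw [hy0 i this.1 this.2, abs_zero]
    rw [e1, e2, e3, e4]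
  · congr 1
    unfold off
    have e1 : ∑ i ∈ g.support \ A', tau l' (g i) * x i =
        ∑ i ∈ (g.support \ A') \ T', tau l' (g i) * x i := by
      symm
      refine Finset.sum_subset Finset.sdiff_subset fun i hi hi2 => ?_
      have h1 : i ∈ T' := by
        by_contra h2
        exact hi2 (Finset.mem_sdiff.2 ⟨hi, h2⟩)
      have h2 : i ∉ T := fun h3 => (Finset.mem_sdiff.1 hi).2 (hTA h3)
      rw [hx0 i h1 h2, mul_zero]
    have e2 : ∑ i ∈ g.support \ A'', tau l' (g i) * y i =
        ∑ i ∈ (g.support \ A'') \ T, tau l' (g i) * y i := by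
      symm
      refine Finset.sum_subset Finset.sdiff_subset fun i hi hi2 => ?_
      have h1 : i ∈ T := by
        by_contra h2
        exact hi2 (Finset.mem_sdiff.2 ⟨hi, h2⟩)
      have h2 : i ∉ T' := fun h3 => (Finset.mem_sdiff.1 hi).2 (by
        rw [hA'', Finset.mem_union, Finset.mem_union]; exact Or.inl (Or.inr h3))
      rw [hy0 i h1 h2, mul_zero]
    rw [e1, e2]
    have e3 : (g.support \ A') \ T' = (g.support \ A'') \ T := by
      ext i
      simp only [Finset.mem_sdiff, hA'', Finset.mem_union, not_or, not_and, not_not]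
      constructor
      · rintro ⟨⟨h1, h2⟩, h3⟩
        have h4 : i ∉ T := fun h5 => h2 (hTA h5)
        refine ⟨⟨h1, ⟨⟨fun h5 => absurd h5 h2, h3⟩, fun h5 => ?_⟩⟩, h4⟩
        exact h4 (Finset.mem_sdiff.1 (hR h5)).1
      · rintro ⟨⟨h1, ⟨⟨h2, h3⟩, h4⟩⟩, h5⟩
        refine ⟨⟨h1, fun h6 => ?_⟩, h3⟩
        rcases h2 h6 with h7
        by_cases h8 : i ∈ T
        · exact h5 h8
        · exact h3 (h7 h8)
    rw [e3]
    refine Finset.sum_congr rfl fun i hi => ?_
    rw [Finset.mem_sdiff, Finset.mem_sdiff, hA'', Finset.mem_union, Finset.mem_union] at hi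
    rw [hxy i hi.2 (fun h => hi.1.2 (Or.inl (Or.inr h)))]

/-- The set of values. -/
def vals (x : ι → ℝ) : Set ℝ := {r | ∃ A g l, P.Adm A g l ∧ r = P.V A g l x}

/-- The new norm. -/
noncomputable def N (x : ι → ℝ) : ℝ := sSup (P.vals x)

/-- Sequences at which the new norm is finite. -/
def Bd (x : ι → ℝ) : Prop := BddAbove (P.vals x)

theorem V_nonneg (A : Finset ι) (g : ι →₀ ℝ) (l : ℝ) (x : ι → ℝ) : 0 ≤ P.V A g l x :=
  add_nonneg (mul_nonneg (P.c_nonneg _) (Finset.sum_nonneg fun _ _ => abs_nonneg _)) (abs_nonneg _)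

theorem V_le {A : Finset ι} {g : ι →₀ ℝ} {l : ℝ} (h : P.Adm A g l) {x : ι → ℝ} (hx : P.Bd x) :
    P.V A g l x ≤ P.N x := le_csSup hx ⟨A, g, l, h, rfl⟩

theorem N_le {x : ι → ℝ} {r : ℝ} (hr : 0 ≤ r) (h : ∀ A g l, P.Adm A g l → P.V A g l x ≤ r) :
    P.N x ≤ r := by
  refine Real.sSup_le ?_ hr
  rintro _ ⟨A, g, l, hA, rfl⟩
  exact h A g l hA

theorem N_nonneg (x : ι → ℝ) : 0 ≤ P.N x := by
  refine Real.sSup_nonneg ?_
  rintro _ ⟨A, g, l, hA, rfl⟩
  exact P.V_nonneg A g l x

theorem off_add (A : Finset ι) (g : ι →₀ ℝ) (l : ℝ) (x y : ι → ℝ) :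
    off A g l (x + y) = off A g l x + off A g l y := by
  unfold off
  rw [← Finset.sum_add_distrib]
  exact Finset.sum_congr rfl fun i _ => by rw [Pi.add_apply]; ring

theorem off_smul (A : Finset ι) (g : ι →₀ ℝ) (l : ℝ) (a : ℝ) (x : ι → ℝ) :
    off A g l (a • x) = a * off A g l x := by
  unfold off
  rw [Finset.mul_sum]
  exact Finset.sum_congr rfl fun i _ => by rw [Pi.smul_apply, smul_eq_mul]; ring

theorem V_add (A : Finset ι) (g : ι →₀ ℝ) (l : ℝ) (x y : ι → ℝ) :
    P.V A g l (x + y) ≤ P.V A g l x + P.V A g l y := by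
  unfold V
  rw [off_add]
  have h1 : ∑ i ∈ A, |(x + y) i| ≤ ∑ i ∈ A, |x i| + ∑ i ∈ A, |y i| := by
    rw [← Finset.sum_add_distrib]
    exact Finset.sum_le_sum fun i _ => abs_add_le _ _
  have h2 := mul_le_mul_of_nonneg_left h1 (P.c_nonneg A.card)
  have h3 := abs_add_le (off A g l x) (off A g l y)
  linarith

theorem V_smul (A : Finset ι) (g : ι →₀ ℝ) (l : ℝ) (a : ℝ) (x : ι → ℝ) :
    P.V A g l (a • x) = |a| * P.V A g l x := by
  unfold V
  rw [off_smul, abs_mul]
  have : ∑ i ∈ A, |(a • x) i| = |a| * ∑ i ∈ A, |x i| := by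
    rw [Finset.mul_sum]
    exact Finset.sum_congr rfl fun i _ => by rw [Pi.smul_apply, smul_eq_mul, abs_mul]
  rw [this]
  ring

theorem N_add {x y : ι → ℝ} (hx : P.Bd x) (hy : P.Bd y) : P.N (x + y) ≤ P.N x + P.N y :=
  P.N_le (add_nonneg (P.N_nonneg x) (P.N_nonneg y)) fun A g l h =>
    (P.V_add A g l x y).trans (add_le_add (P.V_le h hx) (P.V_le h hy))

theorem N_smul_le (a : ℝ) {x : ι → ℝ} (hx : P.Bd x) : P.N (a • x) ≤ |a| * P.N x :=
  P.N_le (mul_nonneg (abs_nonneg _) (P.N_nonneg x)) fun A g l h => by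
    rw [V_smul]
    exact mul_le_mul_of_nonneg_left (P.V_le h hx) (abs_nonneg _)

/-- The basic upper estimate. -/
theorem V_bound {x : ι → ℝ} {r D' K : ℝ} (hr : 0 ≤ r) (hD'0 : 0 ≤ D')
    (h1 : ∀ g ∈ P.G, ∀ l, 0 ≤ l → |∑ i ∈ g.support, tau l (g i) * x i| ≤ K * r)
    (h2 : ∀ A : Finset ι, P.φ A.card * ∑ i ∈ A, |x i| ≤ D' * A.card * r)
    (A : Finset ι) (g : ι →₀ ℝ) (l : ℝ) (h : P.Adm A g l) :
    P.V A g l x ≤ (3 * P.D * D' + K) * r := by
  classical
  have hD := P.D0
  set m := A.card with hm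
  have hS : 0 ≤ ∑ i ∈ A, |x i| := Finset.sum_nonneg fun _ _ => abs_nonneg _
  have e1 : P.c m * ∑ i ∈ A, |x i| ≤ 2 * P.D * (D' * r) := by
    rcases Nat.eq_zero_or_pos m with h0 | h0
    · have hA : A = ∅ := Finset.card_eq_zero.1 h0
      rw [hA, Finset.sum_empty, mul_zero]
      positivity
    · have h4 : (0 : ℝ) < m := by exact_mod_cast h0
      unfold c
      rw [div_mul_eq_mul_div, div_le_iff₀ h4]
      calc 2 * P.D * P.φ m * ∑ i ∈ A, |x i| = 2 * P.D * (P.φ m * ∑ i ∈ A, |x i|) := by ring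
        _ ≤ 2 * P.D * (D' * m * r) := mul_le_mul_of_nonneg_left (h2 A) (by positivity)
        _ = _ := by ring
  have e2 : |off A g l x| ≤ K * r + ∑ i ∈ A, |tau l (g i)| * |x i| := by
    have h3 : ∑ i ∈ g.support, tau l (g i) * x i = off A g l x +
        ∑ i ∈ g.support ∩ A, tau l (g i) * x i := by
      unfold off
      rw [add_comm]
      exact (Finset.sum_inter_add_sum_sdiff _ _ _).symm
    have h4 : off A g l x = ∑ i ∈ g.support, tau l (g i) * x i -
        ∑ i ∈ g.support ∩ A, tau l (g i) * x i := by rw [h3]; ring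
    rw [h4]
    refine (abs_sub _ _).trans (add_le_add (h1 g h.1 l h.2.1) ?_)
    refine (Finset.abs_sum_le_sum_abs _ _).trans ?_
    simp only [abs_mul]
    exact Finset.sum_le_sum_of_subset_of_nonneg Finset.inter_subset_right fun i _ _ => by
      positivity
  have e3 : ∑ i ∈ A, |tau l (g i)| * |x i| ≤ P.D * (P.φ (m + 1) - P.φ m) * ∑ i ∈ A, |x i| := by
    rw [Finset.mul_sum]
    exact Finset.sum_le_sum fun i _ => mul_le_mul_of_nonneg_right (P.lam h i) (abs_nonneg _)
  have e4 : P.D * (P.φ (m + 1) - P.φ m) * ∑ i ∈ A, |x i| ≤ P.D * (D' * r) := by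
    rcases Nat.eq_zero_or_pos m with h0 | h0
    · have hA : A = ∅ := Finset.card_eq_zero.1 h0
      rw [hA, Finset.sum_empty, mul_zero]
      positivity
    have h4 : (0 : ℝ) < m := by exact_mod_cast h0
    have h5 := P.ge_mul m
    have h6 : (m : ℝ) * ((P.φ (m + 1) - P.φ m) * ∑ i ∈ A, |x i|) ≤ m * (D' * r) := by
      calc (m : ℝ) * ((P.φ (m + 1) - P.φ m) * ∑ i ∈ A, |x i|) =
          (m * (P.φ (m + 1) - P.φ m)) * ∑ i ∈ A, |x i| := by ring
        _ ≤ P.φ m * ∑ i ∈ A, |x i| := mul_le_mul_of_nonneg_right h5 hS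
        _ ≤ D' * m * r := h2 A
        _ = _ := by ring
    have h7 := le_of_mul_le_mul_left h6 h4
    calc P.D * (P.φ (m + 1) - P.φ m) * ∑ i ∈ A, |x i| =
        P.D * ((P.φ (m + 1) - P.φ m) * ∑ i ∈ A, |x i|) := by ring
      _ ≤ _ := mul_le_mul_of_nonneg_left h7 hD.le
  unfold V
  rw [← hm]
  linarith

/-- The basic lower estimate. -/
theorem le_V {g : ι →₀ ℝ} (hg : g ∈ P.G) (x : ι → ℝ) :
    P.Adm ∅ g (Phi g 0) ∧ P.V ∅ g (Phi g 0) x = |∑ i ∈ g.support, g i * x i| := by
  classical
  refine ⟨⟨hg, Phi_nonneg g 0, ?_⟩, ?_⟩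
  · rw [Phi_l1, Finset.card_empty, P.φ0, mul_zero, min_eq_right (Phi_nonneg g 0)]
  · unfold V off
    rw [Finset.sum_empty, mul_zero, zero_add, Finset.sdiff_empty]
    congr 1
    exact Finset.sum_congr rfl fun i _ => by rw [tau_eq_self (abs_le_Phi_zero g i)]

/-! ### The unconditional case -/

/-- `G` is closed under changes of signs. -/
def SignClosed : Prop := ∀ g ∈ P.G, ∀ ε : ι → ℝ, (∀ i, ε i = 1 ∨ ε i = -1) →
  ∃ g' ∈ P.G, ∀ i, g' i = ε i * g i

theorem lattice (hs : P.SignClosed) {A : Finset ι} {g : ι →₀ ℝ} {l : ℝ} (h : P.Adm A g l)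
    {x y : ι → ℝ} (hxy : ∀ i, |x i| ≤ |y i|) :
    ∃ g', P.Adm A g' l ∧ P.V A g l x ≤ P.V A g' l y := by
  classical
  set ε : ι → ℝ := fun i => if 0 ≤ g i * y i then 1 else -1 with hε
  have hε1 : ∀ i, ε i = 1 ∨ ε i = -1 := by
    intro i
    rw [hε]
    by_cases hh : 0 ≤ g i * y i
    · left; simp [hh]
    · right; simp [hh]
  obtain ⟨g', hg', hgg⟩ := hs g h.1 ε hε1
  have habs : ∀ i, |g' i| = |g i| := by
    intro i
    rw [hgg, abs_mul]
    rcases hε1 i with h1 | h1 <;> rw [h1] <;> simp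
  have hsupp : g'.support = g.support := by
    ext i
    rw [Finsupp.mem_support_iff, Finsupp.mem_support_iff, ← abs_pos, ← abs_pos, habs]
  have hPhi : ∀ s, Phi g' s = Phi g s := by
    intro s
    unfold Phi
    rw [hsupp]
    exact Finset.sum_congr rfl fun i _ => by rw [habs]
  have htau : ∀ i, tau l (g' i) * y i = |tau l (g i)| * |y i| := by
    intro i
    have h0 : 0 ≤ g' i * y i := by
      rw [hgg]
      simp only [hε]
      split_ifs with hh
      · linarith
      · linarith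
    have h1 : |tau l (g i)| = |tau l (g' i)| := by
      rw [hgg]
      rcases hε1 i with h1 | h1 <;> rw [h1]
      · rw [one_mul]
      · rw [neg_one_mul, tau_neg h.2.1, abs_neg]
    rw [h1, ← abs_mul]
    symm
    apply abs_of_nonneg
    rcases le_total 0 (g' i) with h3 | h3
    · have h4 : 0 ≤ tau l (g' i) := le_max_of_le_right (le_min h.2.1 h3)
      rcases h3.eq_or_lt with h5 | h5
      · rw [← h5, tau_zero h.2.1, zero_mul]
      · exact mul_nonneg h4 (nonneg_of_mul_nonneg_right h0 h5)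
    · have h4 : tau l (g' i) ≤ 0 := max_le (by linarith [h.2.1]) ((min_le_right _ _).trans h3)
      rcases h3.eq_or_lt with h5 | h5
      · rw [h5, tau_zero h.2.1, zero_mul]
      · have h6 : y i ≤ 0 := by
          by_contra h7
          push Not at h7
          nlinarith
        nlinarith
  refine ⟨g', ⟨hg', h.2.1, by rw [hPhi, hPhi]; exact h.2.2⟩, ?_⟩
  unfold V
  refine add_le_add (mul_le_mul_of_nonneg_left (Finset.sum_le_sum fun i _ => hxy i)
    (P.c_nonneg _)) ?_
  unfold off
  rw [hsupp]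
  rw [Finset.sum_congr rfl (fun i _ => htau i)]
  refine le_trans ?_ (le_abs_self _)
  refine (Finset.abs_sum_le_sum_abs _ _).trans (Finset.sum_le_sum fun i _ => ?_)
  rw [abs_mul]
  exact mul_le_mul_of_nonneg_left (hxy i) (abs_nonneg _)

theorem N_mono (hs : P.SignClosed) {x y : ι → ℝ} (hxy : ∀ i, |x i| ≤ |y i|) (hy : P.Bd y) :
    P.N x ≤ P.N y :=
  P.N_le (P.N_nonneg y) fun A g l h => by
    obtain ⟨g', h1, h2⟩ := P.lattice hs h hxy
    exact h2.trans (P.V_le h1 hy)

/-- The basis is `1`-greedy. -/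
theorem greedy (hs : P.SignClosed) {x u z : ι → ℝ} {A B : Finset ι} (hAB : B.card ≤ A.card)
    (hA : ∀ i ∈ A, ∀ j ∉ A, |x j| ≤ |x i|) (hz0 : ∀ i ∈ A, z i = 0) (hz : ∀ i ∉ A, z i = x i)
    (hu : ∀ i ∉ B, u i = x i) (hBd : P.Bd u) : P.N z ≤ P.N u := by
  classical
  refine P.N_le (P.N_nonneg u) fun E g l hE => ?_
  rcases A.eq_empty_or_nonempty with hAe | hAe
  · subst hAe
    have hB : B = ∅ := Finset.card_eq_zero.1 (by simpa using hAB)
    subst hB
    have : z = u := by
      funext i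
      rw [hz i (Finset.notMem_empty i), hu i (Finset.notMem_empty i)]
    rw [this]
    exact P.V_le hE hBd
  obtain ⟨i0, hi0, hmin⟩ := A.exists_min_image (fun i => |x i|) hAe
  set t := |x i0| with ht
  have ht0 : 0 ≤ t := abs_nonneg _
  have hzt : ∀ i, |z i| ≤ t := by
    intro i
    by_cases hi : i ∈ A
    · rw [hz0 i hi, abs_zero]; exact ht0
    · rw [hz i hi]; exact hA i0 hi0 i hi
  have hcard : (B \ A).card ≤ (A \ B).card := by
    have h1 := Finset.card_sdiff_add_card_inter A B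
    have h2 := Finset.card_sdiff_add_card_inter B A
    rw [Finset.inter_comm] at h2
    omega
  obtain ⟨R, hR, hRc⟩ := Finset.exists_subset_card_eq hcard
  set z' : ι → ℝ := fun i => if i ∈ B \ A then t else z i with hz'
  set u' : ι → ℝ := fun i => if i ∈ R then t else if i ∈ B \ A then 0 else z i with hu'
  obtain ⟨g1, hg1, hV1⟩ := P.lattice hs hE (x := z) (y := z') (by
    intro i
    simp only [hz']
    split_ifs with h1
    · rw [abs_of_nonneg ht0]; exact hzt i
    · exact le_refl _)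
  have hRA : ∀ i ∈ R, i ∈ A ∧ i ∉ B := fun i hi => Finset.mem_sdiff.1 (hR hi)
  obtain ⟨E2, l2, hE2, hV2⟩ := P.move hg1 (x := z') (y := u') (t := t) (by
      intro i
      simp only [hz']
      split_ifs with h1
      · rw [abs_of_nonneg ht0]
      · exact hzt i) (B \ A) R (by
      intro j hj
      simp only [hz', if_pos hj, abs_of_nonneg ht0]) (by
      intro j hj
      simp only [hu', if_pos hj, abs_of_nonneg ht0]) hRc.symm (by
      intro i h1 h2
      simp only [hu', hz', if_neg h1, if_neg h2]) (by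
      intro i h1 h2
      simp only [hu', if_pos h1, if_neg h2]) (by
      intro i h1 h2
      simp only [hz', if_neg h2]
      exact hz0 i (hRA i h1).1)
  obtain ⟨g3, hg3, hV3⟩ := P.lattice hs hE2 (x := u') (y := u) (by
    intro i
    simp only [hu']
    split_ifs with h1 h2
    · rw [abs_of_nonneg ht0, hu i (hRA i h1).2]
      exact hmin i (hRA i h1).1
    · rw [abs_zero]; exact abs_nonneg _
    · by_cases h3 : i ∈ A
      · rw [hz0 i h3, abs_zero]; exact abs_nonneg _
      · have h4 : i ∉ B := fun h5 => h2 (Finset.mem_sdiff.2 ⟨h5, h3⟩)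
        rw [hz i h3, hu i h4])
  exact hV1.trans (hV2.trans (hV3.trans (P.V_le hg3 hBd)))

theorem N_eq_of_move {x y : ι → ℝ} (hBx : P.Bd x) (hBy : P.Bd y) {t : ℝ}
    (hx : ∀ i, |x i| ≤ t) (hy : ∀ i, |y i| ≤ t) (T T' : Finset ι) (hT : ∀ j ∈ T, |x j| = t)
    (hT' : ∀ j ∈ T', |y j| = t)
    (hcard : T.card = T'.card) (hxy : ∀ i, i ∉ T → i ∉ T' → y i = x i)
    (hy0 : ∀ i ∈ T, i ∉ T' → y i = 0) (hx0 : ∀ i ∈ T', i ∉ T → x i = 0) : P.N x = P.N y := by
  refine le_antisymm (P.N_le (P.N_nonneg y) fun A g l h => ?_)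
    (P.N_le (P.N_nonneg x) fun A g l h => ?_)
  · obtain ⟨A', l', h1, h2⟩ := P.move h hx T T' hT hT' hcard hxy hy0 hx0
    exact h2.trans (P.V_le h1 hBy)
  · obtain ⟨A', l', h1, h2⟩ := P.move h hy T' T hT' hT hcard.symm
      (fun i h1 h2 => (hxy i h2 h1).symm) hx0 hy0
    exact h2.trans (P.V_le h1 hBx)

/-- Property (A). -/
theorem propA {a c : ι → ℝ} (hBa : P.Bd a) (hBc : P.Bd c) (π : Equiv.Perm ι)
    (hπ : ∀ n, |c (π n)| = |a n|) (hbd : BddAbove (Set.range fun n => |a n|))
    (hfin : ∀ t : ℝ, 0 < t → {n | t ≤ |a n|}.Finite)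
    (hfix : ∀ k, 0 < |a k| → |a k| < ⨆ n, |a n| → π k = k ∧ c k = a k) : P.N a = P.N c := by
  classical
  set S : ℝ := ⨆ n, |a n| with hS
  have haS : ∀ i, |a i| ≤ S := fun i => le_ciSup hbd i
  have hcS : ∀ i, |c i| ≤ S := fun i => by
    have := hπ (π.symm i)
    rw [Equiv.apply_symm_apply] at this
    rw [this]; exact haS _
  have hS0 : 0 ≤ S := Real.iSup_nonneg fun n => abs_nonneg _
  rcases hS0.eq_or_lt with h0 | h0
  · have e1 : a = c := by
      funext i
      have h1 := haS i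
      have h2 := hcS i
      rw [← h0] at h1 h2
      rw [abs_nonpos_iff.1 h1, abs_nonpos_iff.1 h2]
    rw [e1]
  have hTfin : {n | |a n| = S}.Finite := (hfin S h0).subset fun n hn => le_of_eq hn.symm
  set T : Finset ι := hTfin.toFinset with hT
  have hTm : ∀ i, i ∈ T ↔ |a i| = S := fun i => by
    rw [hT, Set.Finite.mem_toFinset]; rfl
  set T' : Finset ι := T.map π.toEmbedding with hT'
  have hT'm : ∀ i, i ∈ T' ↔ |c i| = S := by
    intro i
    rw [hT', Finset.mem_map_equiv, hTm]
    have := hπ (π.symm i)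
    rw [Equiv.apply_symm_apply] at this
    rw [this]
  have hzero : ∀ i, i ∉ T' → |c i| ≠ 0 → π i = i ∧ c i = a i := by
    intro i hi hne
    set n := π.symm i with hn
    have h1 := hπ n
    rw [hn, Equiv.apply_symm_apply] at h1
    have h2 : |a n| < S := lt_of_le_of_ne (haS n) fun h => hi ((hT'm i).2 (by rw [h1]; exact h))
    have h3 : 0 < |a n| := by
      rw [← h1]
      exact lt_of_le_of_ne (abs_nonneg _) (Ne.symm hne)
    have h4 := hfix n h3 h2
    have h5 : i = n := by
      rw [← h4.1, hn, Equiv.apply_symm_apply]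
    rw [h5]
    exact h4
  refine P.N_eq_of_move hBa hBc haS hcS T T' (fun j hj => (hTm j).1 hj)
    (fun j hj => (hT'm j).1 hj) (by rw [hT', Finset.card_map]) (fun i h1 h2 => ?_)
    (fun i h1 h2 => ?_) (fun i h1 h2 => ?_)
  · by_cases h3 : |a i| = 0
    · by_cases h4 : |c i| = 0
      · rw [abs_eq_zero.1 h3, abs_eq_zero.1 h4]
      · exact (hzero i h2 h4).2
    · exact (hfix i (lt_of_le_of_ne (abs_nonneg _) (Ne.symm h3))
        (lt_of_le_of_ne (haS i) fun h => h1 ((hTm i).2 h))).2
  · by_contra h3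
    have h4 := hzero i h2 (fun h => h3 (abs_eq_zero.1 h))
    apply h2
    rw [hT'm, h4.2]
    exact (hTm i).1 h1
  · by_contra h3
    have h4 := hfix i (lt_of_le_of_ne (abs_nonneg _) (Ne.symm fun h => h3 (abs_eq_zero.1 h)))
      (lt_of_le_of_ne (haS i) fun h => h2 ((hTm i).2 h))
    apply h2
    rw [hTm, ← h4.2]
    exact (hT'm i).1 h1

/-- The new norm as a seminorm on a space with coordinates. -/
noncomputable def sem {X : Type} [AddCommGroup X] [Module ℝ X] (a : X →ₗ[ℝ] (ι → ℝ))
    (h : ∀ x, P.Bd (a x)) : Seminorm ℝ X :=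
  Seminorm.ofSMulLE (fun x => P.N (a x))
    (by
      rw [map_zero]
      refine le_antisymm (P.N_le le_rfl fun A g l _ => ?_) (P.N_nonneg _)
      unfold V off
      simp)
    (fun x y => by
      rw [map_add]
      exact P.N_add (h x) (h y))
    (fun r x => by
      rw [map_smul, Real.norm_eq_abs]
      exact P.N_smul_le r (h x))

theorem sem_apply {X : Type} [AddCommGroup X] [Module ℝ X] (a : X →ₗ[ℝ] (ι → ℝ))
    (h : ∀ x, P.Bd (a x)) (x : X) : P.sem a h x = P.N (a x) := rfl

end Cfg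

end Pool.Agent.X202.Ren
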