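import Mathlib
import Pool.Agent.X202.Mat
import Pool.Agent.X202.Ren

set_option autoImplicit false

/-!
# A conditional almost greedy Schauder basis of a Hilbert space
-/

namespace Pool.Agent.X202.CB

open Pool.Agent.X202.Mat

/-! ### Blocks -/

/-- Starting points of the blocks. -/
def s : ℕ → ℕ
  | 0 => 0
  | P + 1 => s P + 4 ^ P

theorem s_mono : StrictMono s := strictMono_nat_of_lt_succ fun P => by
  have : 0 < 4 ^ P := by positivity
  simp only [s]
  omega

/-- The block of an index. -/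
def blk (i : ℕ) : ℕ := Nat.findGreatest (fun P => s P ≤ i) i

theorem blk_le (i : ℕ) : s (blk i) ≤ i :=
  Nat.findGreatest_spec (P := fun P => s P ≤ i) (Nat.zero_le i) (Nat.zero_le i)

theorem lt_blk (i : ℕ) : i < s (blk i + 1) := by
  by_contra h
  push Not at h
  have h1 : blk i + 1 ≤ i := (s_mono.le_apply).trans h
  have h2 : blk i + 1 ≤ blk i := Nat.le_findGreatest (P := fun P => s P ≤ i) h1 h
  omega

/-- The blocks. -/
def σ (P : ℕ) : Finset ℕ := Finset.Ico (s P) (s (P + 1))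

theorem mem_σ {i P : ℕ} : i ∈ σ P ↔ blk i = P := by
  unfold σ
  rw [Finset.mem_Ico]
  constructor
  · rintro ⟨h1, h2⟩
    have h3 := blk_le i
    have h4 := lt_blk i
    have h5 : blk i < P + 1 := s_mono.lt_iff_lt.1 (h3.trans_lt h2)
    have h6 : P < blk i + 1 := s_mono.lt_iff_lt.1 (h1.trans_lt h4)
    omega
  · rintro rfl
    exact ⟨blk_le i, lt_blk i⟩

theorem card_σ (P : ℕ) : (σ P).card = 4 ^ P := by
  unfold σ
  rw [Nat.card_Ico]
  simp only [s]
  exact Nat.add_sub_cancel_left _ _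

theorem sum_blocks {M : Type} [AddCommMonoid M] (f : ℕ → M) (N : ℕ) :
    ∑ i ∈ Finset.range (s N), f i = ∑ P ∈ Finset.range N, ∑ i ∈ σ P, f i := by
  induction N with
  | zero => simp [s]
  | succ N ih =>
    rw [Finset.sum_range_succ, ← ih, σ, Finset.range_eq_Ico, Finset.range_eq_Ico,
      Finset.sum_Ico_consecutive _ (Nat.zero_le _) (s_mono.monotone (Nat.le_succ N))]

theorem sum_σ_const (P : ℕ) : ∑ i ∈ σ P, ((2 : ℝ) ^ blk i)⁻¹ = 2 ^ P := by
  have h1 : ∀ i ∈ σ P, ((2 : ℝ) ^ blk i)⁻¹ = (2 ^ P)⁻¹ := fun i hi => by rw [mem_σ.1 hi]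
  rw [Finset.sum_congr rfl h1, Finset.sum_const, card_σ, nsmul_eq_mul]
  push_cast
  rw [show (4 : ℝ) ^ P = 2 ^ P * 2 ^ P by rw [← mul_pow]; norm_num]
  field_simp

/-- The key counting lemma. -/
theorem key (A : Finset ℕ) : ∑ i ∈ A, ((2 : ℝ) ^ blk i)⁻¹ ≤ 3 * √A.card := by
  classical
  rcases Nat.eq_zero_or_pos A.card with h0 | h0
  · have : A = ∅ := Finset.card_eq_zero.1 h0
    subst this
    simp
  set j := Nat.log 4 A.card with hj
  have h1 : 4 ^ j ≤ A.card := Nat.pow_log_le_self 4 (by omega)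
  have h2 : A.card < 4 ^ (j + 1) := Nat.lt_pow_succ_log_self (by norm_num) _
  have h4 : ∀ n : ℕ, ((4 : ℝ) ^ n) = (2 ^ n) ^ 2 := fun n => by
    rw [← pow_mul, mul_comm, pow_mul]; norm_num
  have h1' : (2 : ℝ) ^ j ≤ √A.card := by
    rw [← Real.sqrt_sq (show (0 : ℝ) ≤ 2 ^ j by positivity), ← h4]
    exact Real.sqrt_le_sqrt (by exact_mod_cast h1)
  have h2' : √(A.card : ℝ) ≤ 2 ^ (j + 1) := by
    rw [← Real.sqrt_sq (show (0 : ℝ) ≤ 2 ^ (j + 1) by positivity), ← h4]
    exact Real.sqrt_le_sqrt (by exact_mod_cast h2.le)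
  rw [← Finset.sum_filter_add_sum_filter_not A (fun i => blk i < j)]
  have h5 : ∑ i ∈ A.filter (fun i => blk i < j), ((2 : ℝ) ^ blk i)⁻¹ ≤ 2 ^ j := by
    calc ∑ i ∈ A.filter (fun i => blk i < j), ((2 : ℝ) ^ blk i)⁻¹
        ≤ ∑ i ∈ Finset.range (s j), ((2 : ℝ) ^ blk i)⁻¹ := by
          refine Finset.sum_le_sum_of_subset_of_nonneg (fun i hi => ?_) fun _ _ _ => by positivity
          rw [Finset.mem_filter] at hi
          rw [Finset.mem_range]
          exact (lt_blk i).trans_le (s_mono.monotone hi.2)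
      _ = ∑ P ∈ Finset.range j, (2 : ℝ) ^ P := by
          rw [sum_blocks]
          exact Finset.sum_congr rfl fun P _ => sum_σ_const P
      _ ≤ 2 ^ j := by
          have := geom_sum_eq (show (2 : ℝ) ≠ 1 by norm_num) j
          rw [this]
          norm_num
  have h6 : ∑ i ∈ A.filter (fun i => ¬ blk i < j), ((2 : ℝ) ^ blk i)⁻¹ ≤ 2 * √A.card := by
    calc ∑ i ∈ A.filter (fun i => ¬ blk i < j), ((2 : ℝ) ^ blk i)⁻¹
        ≤ ∑ _i ∈ A.filter (fun i => ¬ blk i < j), ((2 : ℝ) ^ j)⁻¹ := by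
          refine Finset.sum_le_sum fun i hi => ?_
          rw [Finset.mem_filter, not_lt] at hi
          exact inv_anti₀ (by positivity) (pow_le_pow_right₀ (by norm_num) hi.2)
      _ ≤ A.card * ((2 : ℝ) ^ j)⁻¹ := by
          rw [Finset.sum_const, nsmul_eq_mul]
          refine mul_le_mul_of_nonneg_right ?_ (by positivity)
          exact_mod_cast Finset.card_le_card (Finset.filter_subset _ _)
      _ ≤ 2 * √A.card := by
          rw [mul_inv_le_iff₀ (by positivity)]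
          have h7 : (A.card : ℝ) = √A.card * √A.card := (Real.mul_self_sqrt (by positivity)).symm
          have h8 : (2 : ℝ) ^ (j + 1) = 2 * 2 ^ j := by rw [pow_succ]; ring
          rw [h8] at h2'
          calc (A.card : ℝ) = √A.card * √A.card := h7
            _ ≤ √A.card * (2 * 2 ^ j) := mul_le_mul_of_nonneg_left h2' (Real.sqrt_nonneg _)
            _ = _ := by ring
  linarith

/-! ### Vectors -/

variable {H : Type} [NormedAddCommGroup H] [InnerProductSpace ℝ H]

theorem norm_sq_sum {v : ℕ → H} (hv : Orthonormal ℝ v) (A : Finset ℕ) (c : ℕ → ℝ) :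
    ‖∑ i ∈ A, c i • v i‖ ^ 2 = ∑ i ∈ A, c i ^ 2 := by
  rw [← real_inner_self_eq_norm_sq, hv.inner_sum]
  refine Finset.sum_congr rfl fun i _ => ?_
  simp [sq]

theorem bessel {v : ℕ → H} (hv : Orthonormal ℝ v) (A : Finset ℕ) (y : H) :
    ∑ i ∈ A, (inner ℝ (v i) y) ^ 2 ≤ ‖y‖ ^ 2 := by
  have := hv.sum_inner_products_le (x := y) (s := A)
  simpa only [Real.norm_eq_abs, sq_abs] using this

variable (u : ℕ → H)

/-- Normalised block sums. -/
noncomputable def w (P : ℕ) : H := ((2 : ℝ) ^ P)⁻¹ • ∑ i ∈ σ P, u i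

/-- Corrections. -/
noncomputable def z (P : ℕ) : H := ∑ Q ∈ Finset.range (2 * P + 2), m Q P • w u Q

noncomputable def z' (Q : ℕ) : H := ∑ P ∈ Finset.range Q, m Q P • w u P

/-- The basis. -/
noncomputable def b (i : ℕ) : H := u i + ((2 : ℝ) ^ blk i)⁻¹ • z u (blk i)

/-- The coordinate functionals. -/
noncomputable def b' (i : ℕ) : H := u i - ((2 : ℝ) ^ blk i)⁻¹ • z' u (blk i)

variable {u} (hu : Orthonormal ℝ u)
include hu

theorem inner_u_w (i P : ℕ) : inner ℝ (u i) (w u P) = if blk i = P then ((2 : ℝ) ^ P)⁻¹ else 0 := by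
  unfold w
  rw [inner_smul_right, inner_sum]
  have h1 : ∀ j ∈ σ P, inner ℝ (u i) (u j) = if i = j then (1 : ℝ) else 0 := fun j _ =>
    orthonormal_iff_ite.1 hu i j
  rw [Finset.sum_congr rfl h1, Finset.sum_ite_eq]
  by_cases h : blk i = P
  · rw [if_pos (mem_σ.2 h), if_pos h, mul_one]
  · rw [if_neg (fun h' => h (mem_σ.1 h')), if_neg h, mul_zero]

theorem inner_w_w (P Q : ℕ) : inner ℝ (w u P) (w u Q) = if P = Q then (1 : ℝ) else 0 := by
  conv_lhs => unfold w
  rw [inner_smul_left, sum_inner]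
  have h1 : ∀ i ∈ σ P, inner ℝ (u i) (((2 : ℝ) ^ Q)⁻¹ • ∑ i ∈ σ Q, u i) =
      if P = Q then ((2 : ℝ) ^ Q)⁻¹ else 0 := by
    intro i hi
    have := inner_u_w hu i Q
    rw [mem_σ.1 hi] at this
    exact this
  rw [Finset.sum_congr rfl h1, Finset.sum_const, card_σ, nsmul_eq_mul]
  split_ifs with h
  · subst h
    simp only [conj_trivial]
    push_cast
    rw [show (4 : ℝ) ^ P = 2 ^ P * 2 ^ P by rw [← mul_pow]; norm_num]
    field_simp
  · simp

theorem w_on : Orthonormal ℝ (w u) := orthonormal_iff_ite.2 fun P Q => inner_w_w hu P Q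

theorem inner_w_z (Q P : ℕ) : inner ℝ (w u Q) (z u P) = m Q P := by
  unfold z
  rw [inner_sum]
  have h1 : ∀ R ∈ Finset.range (2 * P + 2), inner ℝ (w u Q) (m R P • w u R) =
      if Q = R then m R P else 0 := by
    intro R _
    rw [inner_smul_right, inner_w_w hu]
    split_ifs <;> simp
  rw [Finset.sum_congr rfl h1, Finset.sum_ite_eq]
  split_ifs with h
  · rfl
  · by_contra hne
    have := m_odd (Ne.symm hne)
    rw [Finset.mem_range] at h
    omega

theorem inner_w_z' (P Q : ℕ) : inner ℝ (w u P) (z' u Q) = m Q P := by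
  unfold z'
  rw [inner_sum]
  have h1 : ∀ R ∈ Finset.range Q, inner ℝ (w u P) (m Q R • w u R) =
      if P = R then m Q R else 0 := by
    intro R _
    rw [inner_smul_right, inner_w_w hu]
    split_ifs <;> simp
  rw [Finset.sum_congr rfl h1, Finset.sum_ite_eq]
  split_ifs with h
  · rfl
  · by_contra hne
    have := m_odd (Ne.symm hne)
    rw [Finset.mem_range] at h
    omega

theorem inner_u_z (i P : ℕ) : inner ℝ (u i) (z u P) = ((2 : ℝ) ^ blk i)⁻¹ * m (blk i) P := by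
  unfold z
  rw [inner_sum]
  have h1 : ∀ R ∈ Finset.range (2 * P + 2), inner ℝ (u i) (m R P • w u R) =
      if blk i = R then m R P * ((2 : ℝ) ^ R)⁻¹ else 0 := by
    intro R _
    rw [inner_smul_right, inner_u_w hu]
    split_ifs <;> simp
  rw [Finset.sum_congr rfl h1, Finset.sum_ite_eq]
  split_ifs with h
  · ring
  · by_contra hne
    have h0 : m (blk i) P ≠ 0 := fun h0 => hne (by rw [h0, mul_zero])
    have := m_odd h0
    rw [Finset.mem_range] at h
    omega

theorem inner_u_z' (i Q : ℕ) : inner ℝ (u i) (z' u Q) = ((2 : ℝ) ^ blk i)⁻¹ * m Q (blk i) := by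
  unfold z'
  rw [inner_sum]
  have h1 : ∀ R ∈ Finset.range Q, inner ℝ (u i) (m Q R • w u R) =
      if blk i = R then m Q R * ((2 : ℝ) ^ R)⁻¹ else 0 := by
    intro R _
    rw [inner_smul_right, inner_u_w hu]
    split_ifs <;> simp
  rw [Finset.sum_congr rfl h1, Finset.sum_ite_eq]
  split_ifs with h
  · ring
  · by_contra hne
    have h0 : m Q (blk i) ≠ 0 := fun h0 => hne (by rw [h0, mul_zero])
    have := m_odd h0
    rw [Finset.mem_range] at h
    omega

theorem inner_z'_z (Q P : ℕ) : inner ℝ (z' u Q) (z u P) = 0 := by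
  conv_lhs => unfold z'
  rw [sum_inner]
  refine Finset.sum_eq_zero fun R _ => ?_
  rw [inner_smul_left, inner_w_z hu]
  by_contra hne
  have h1 : m Q R ≠ 0 := fun h0 => hne (by rw [h0]; simp)
  have h2 : m R P ≠ 0 := fun h0 => hne (by rw [h0]; simp)
  have := m_odd h1
  have := m_odd h2
  omega

theorem norm_z (P : ℕ) : ‖z u P‖ ≤ 2 := by
  have h1 : ‖z u P‖ ^ 2 ≤ 2 := by
    unfold z
    rw [norm_sq_sum (w_on hu) _ (fun Q => m Q P)]
    exact col P _
  nlinarith [norm_nonneg (z u P)]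

theorem norm_z' (Q : ℕ) : ‖z' u Q‖ ≤ 2 := by
  have h1 : ‖z' u Q‖ ^ 2 ≤ 2 := by
    unfold z'
    rw [norm_sq_sum (w_on hu) _ (fun P => m Q P)]
    exact row Q
  nlinarith [norm_nonneg (z' u Q)]

/-- Biorthogonality. -/
theorem biorth (i j : ℕ) : inner ℝ (b' u i) (b u j) = if i = j then (1 : ℝ) else 0 := by
  unfold b' b
  rw [inner_sub_left, inner_add_right, inner_add_right, inner_smul_right, inner_smul_left,
    inner_smul_left, inner_smul_right, inner_u_z hu, inner_z'_z hu, real_inner_comm,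
    orthonormal_iff_ite.1 hu j i, real_inner_comm, inner_u_z' hu]
  simp only [conj_trivial, eq_comm (a := j)]
  ring

theorem norm_b (i : ℕ) : ‖b u i‖ ≤ 3 := by
  unfold b
  refine (norm_add_le _ _).trans ?_
  rw [hu.1 i, norm_smul]
  have h1 : ‖((2 : ℝ) ^ blk i)⁻¹‖ ≤ 1 := by
    rw [norm_inv, Real.norm_eq_abs, abs_of_pos (by positivity)]
    exact inv_le_one_of_one_le₀ (one_le_pow₀ (by norm_num))
  have h2 := norm_z hu (blk i)
  nlinarith [norm_nonneg (z u (blk i)), norm_nonneg (((2 : ℝ) ^ blk i)⁻¹)]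

/-- Upper democracy. -/
theorem upper (A : Finset ℕ) (ε : ℕ → ℝ) (hε : ∀ i, |ε i| ≤ 1) :
    ‖∑ i ∈ A, ε i • b u i‖ ≤ 7 * √A.card := by
  have h1 : ∑ i ∈ A, ε i • b u i = ∑ i ∈ A, ε i • u i +
      ∑ i ∈ A, (ε i * ((2 : ℝ) ^ blk i)⁻¹) • z u (blk i) := by
    rw [← Finset.sum_add_distrib]
    refine Finset.sum_congr rfl fun i _ => ?_
    unfold b
    rw [smul_add, smul_smul]
  rw [h1]
  refine (norm_add_le _ _).trans ?_
  have h2 : ‖∑ i ∈ A, ε i • u i‖ ≤ √A.card := by
    apply Real.le_sqrt_of_sq_le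
    rw [norm_sq_sum hu]
    refine (Finset.sum_le_sum fun i _ => (sq_le_one_iff_abs_le_one _).2 (hε i)).trans ?_
    simp
  have h3 : ‖∑ i ∈ A, (ε i * ((2 : ℝ) ^ blk i)⁻¹) • z u (blk i)‖ ≤ 2 * (3 * √A.card) := by
    refine (norm_sum_le _ _).trans (le_trans ?_ (mul_le_mul_of_nonneg_left (key A) (by norm_num)))
    rw [Finset.mul_sum]
    refine Finset.sum_le_sum fun i _ => ?_
    rw [norm_smul, norm_mul, Real.norm_eq_abs, Real.norm_eq_abs, abs_of_pos
      (show (0 : ℝ) < ((2 : ℝ) ^ blk i)⁻¹ by positivity)]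
    have h4 := norm_z hu (blk i)
    have h5 := hε i
    have h6 : (0 : ℝ) < ((2 : ℝ) ^ blk i)⁻¹ := by positivity
    calc |ε i| * ((2 : ℝ) ^ blk i)⁻¹ * ‖z u (blk i)‖ ≤ 1 * ((2 : ℝ) ^ blk i)⁻¹ * 2 := by
          refine mul_le_mul (mul_le_mul_of_nonneg_right h5 h6.le) h4 (norm_nonneg _) (by positivity)
      _ = _ := by ring
  linarith

/-- Lower estimates. -/
theorem lower (A : Finset ℕ) (y : H) :
    ∑ i ∈ A, |inner ℝ (b' u i) y| ≤ 7 * √A.card * ‖y‖ := by
  have h1 : ∀ i ∈ A, |inner ℝ (b' u i) y| ≤ |inner ℝ (u i) y| +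
      ((2 : ℝ) ^ blk i)⁻¹ * (2 * ‖y‖) := by
    intro i _
    unfold b'
    rw [inner_sub_left, inner_smul_left]
    refine (abs_sub _ _).trans (add_le_add_right ?_ _)
    simp only [conj_trivial]
    rw [abs_mul, abs_of_pos (show (0 : ℝ) < ((2 : ℝ) ^ blk i)⁻¹ by positivity)]
    refine mul_le_mul_of_nonneg_left ?_ (by positivity)
    refine (abs_real_inner_le_norm _ _).trans ?_
    exact mul_le_mul_of_nonneg_right (norm_z' hu _) (norm_nonneg _)
  refine (Finset.sum_le_sum h1).trans ?_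
  rw [Finset.sum_add_distrib, ← Finset.sum_mul]
  have h2 : ∑ i ∈ A, |inner ℝ (u i) y| ≤ √A.card * ‖y‖ := by
    have h3 := Finset.sum_mul_sq_le_sq_mul_sq A (fun _ => (1 : ℝ)) (fun i => |inner ℝ (u i) y|)
    simp only [one_mul, one_pow, Finset.sum_const, nsmul_eq_mul, mul_one, sq_abs] at h3
    have h4 := bessel hu A y
    refine le_of_sq_le_sq ?_ (by positivity)
    rw [mul_pow, Real.sq_sqrt (by positivity)]
    exact h3.trans (mul_le_mul_of_nonneg_left h4 (by positivity))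
  have h5 := mul_le_mul_of_nonneg_right (key A) (show 0 ≤ 2 * ‖y‖ by positivity)
  nlinarith

end Pool.Agent.X202.CB
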