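import Mathlib
import Pool.Agent.X202.CondBasis

set_option autoImplicit false

/-!
# Partial sums and truncation for the conditional basis
-/

namespace Pool.Agent.X202.CB

open Pool.Agent.X202.Mat Pool.Agent.X202.Ren

variable {H : Type} [NormedAddCommGroup H] [InnerProductSpace ℝ H]

variable (u : ℕ → H)

/-- Dual block basis. -/
noncomputable def e (P : ℕ) : H := w u P - z' u P

/-- Block basis. -/
noncomputable def x (P : ℕ) : H := w u P + z u P

variable {u} (hu : Orthonormal ℝ u)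

theorem z_eq {P N : ℕ} (h : 2 * P + 2 ≤ N) : z u P = ∑ Q ∈ Finset.range N, m Q P • w u Q := by
  unfold z
  refine Finset.sum_subset (Finset.range_subset_range.2 h) fun Q _ hQ => ?_
  have : m Q P = 0 := by
    by_contra hne
    have := m_odd hne
    rw [Finset.mem_range] at hQ
    omega
  rw [this, zero_smul]

theorem z'_eq {Q N : ℕ} (h : Q ≤ N) : z' u Q = ∑ P ∈ Finset.range N, m Q P • w u P := by
  unfold z'
  refine Finset.sum_subset (Finset.range_subset_range.2 h) fun P _ hP => ?_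
  have : m Q P = 0 := by
    by_contra hne
    have := m_odd hne
    rw [Finset.mem_range] at hP
    omega
  rw [this, zero_smul]

theorem z_or (P : ℕ) : z u P = 0 ∨ z' u P = 0 := by
  rcases Nat.mod_two_eq_zero_or_one P with h | h
  · right
    unfold z'
    refine Finset.sum_eq_zero fun R _ => ?_
    have : m P R = 0 := by
      by_contra hne
      have := m_odd hne
      omega
    rw [this, zero_smul]
  · left
    unfold z
    refine Finset.sum_eq_zero fun R _ => ?_
    have : m R P = 0 := by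
      by_contra hne
      have := m_odd hne
      omega
    rw [this, zero_smul]

theorem sum_inner_smul_w_z' (y : H) (Q : ℕ) {N : ℕ} (h : Q ≤ N) :
    inner ℝ (z' u Q) y = ∑ P ∈ Finset.range N, m Q P * inner ℝ (w u P) y := by
  rw [z'_eq h, sum_inner]
  exact Finset.sum_congr rfl fun P _ => by rw [inner_smul_left]; simp

include hu

theorem norm_e (P : ℕ) : ‖e u P‖ ≤ 3 := by
  unfold e
  have h1 := norm_sub_le (w u P) (z' u P)
  have h2 := (w_on hu).1 P
  have h3 := norm_z' hu P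
  linarith

theorem norm_x (P : ℕ) : ‖x u P‖ ≤ 3 := by
  unfold x
  have h1 := norm_add_le (w u P) (z u P)
  have h2 := (w_on hu).1 P
  have h3 := norm_z hu P
  linarith

theorem inner_e_x (P Q : ℕ) : inner ℝ (e u P) (x u Q) = if P = Q then (1 : ℝ) else 0 := by
  unfold e x
  rw [inner_sub_left, inner_add_right, inner_add_right, inner_w_z hu, inner_z'_z hu,
    inner_w_w hu, real_inner_comm, inner_w_z' hu]
  ring

/-- Block partial sums are bounded. -/
theorem Bn (n : ℕ) (y : H) :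
    ‖∑ P ∈ Finset.range n, inner ℝ (e u P) y • x u P‖ ≤ 3 * ‖y‖ := by
  set N := 2 * n + 2 with hN
  have h1 : ∑ P ∈ Finset.range n, inner ℝ (e u P) y • x u P =
      ∑ P ∈ Finset.range n, inner ℝ (w u P) y • w u P +
      ∑ Q ∈ Finset.Ico n N, (∑ P ∈ Finset.range n, m Q P * inner ℝ (w u P) y) • w u Q := by
    have h2 : ∀ P ∈ Finset.range n, inner ℝ (e u P) y • x u P =
        inner ℝ (w u P) y • w u P + inner ℝ (w u P) y • z u P - inner ℝ (z' u P) y • w u P := by
      intro P _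
      unfold e x
      rcases z_or (u := u) P with h | h
      · rw [h, inner_sub_left]
        module
      · rw [h, inner_sub_left, inner_zero_left]
        module
    rw [Finset.sum_congr rfl h2, Finset.sum_sub_distrib, Finset.sum_add_distrib]
    have h3 : ∑ P ∈ Finset.range n, inner ℝ (w u P) y • z u P =
        ∑ Q ∈ Finset.range N, (∑ P ∈ Finset.range n, m Q P * inner ℝ (w u P) y) • w u Q := by
      have h4 : ∀ P ∈ Finset.range n, inner ℝ (w u P) y • z u P =
          ∑ Q ∈ Finset.range N, (m Q P * inner ℝ (w u P) y) • w u Q := by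
        intro P hP
        rw [Finset.mem_range] at hP
        rw [z_eq (N := N) (by omega), Finset.smul_sum]
        exact Finset.sum_congr rfl fun Q _ => by rw [smul_smul, mul_comm]
      rw [Finset.sum_congr rfl h4, Finset.sum_comm]
      exact Finset.sum_congr rfl fun Q _ => by rw [Finset.sum_smul]
    have h5 : ∑ P ∈ Finset.range n, inner ℝ (z' u P) y • w u P =
        ∑ Q ∈ Finset.range n, (∑ P ∈ Finset.range n, m Q P * inner ℝ (w u P) y) • w u Q := by
      refine Finset.sum_congr rfl fun Q hQ => ?_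
      rw [Finset.mem_range] at hQ
      rw [sum_inner_smul_w_z' y Q hQ.le]
    rw [h3, h5, ← Finset.sum_range_add_sum_Ico _ (show n ≤ N by omega)]
    abel
  rw [h1]
  refine (norm_add_le _ _).trans ?_
  have h2 : ‖∑ P ∈ Finset.range n, inner ℝ (w u P) y • w u P‖ ≤ ‖y‖ := by
    refine le_of_sq_le_sq ?_ (norm_nonneg _)
    rw [norm_sq_sum (w_on hu) _ (fun P => inner ℝ (w u P) y)]
    exact bessel (w_on hu) _ y
  have h3 : ‖∑ Q ∈ Finset.Ico n N, (∑ P ∈ Finset.range n, m Q P * inner ℝ (w u P) y) • w u Q‖ ≤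
      2 * ‖y‖ := by
    refine le_of_sq_le_sq ?_ (by positivity)
    rw [norm_sq_sum (w_on hu) _ (fun Q => ∑ P ∈ Finset.range n, m Q P * inner ℝ (w u P) y)]
    have h4 : ∀ Q ∈ Finset.Ico n N, (∑ P ∈ Finset.range n, m Q P * inner ℝ (w u P) y) ^ 2 ≤
        (∑ P ∈ Finset.range n, m Q P ^ 2) * ‖y‖ ^ 2 := by
      intro Q _
      refine (Finset.sum_mul_sq_le_sq_mul_sq _ _ _).trans ?_
      exact mul_le_mul_of_nonneg_left (bessel (w_on hu) _ y) (by positivity)
    refine (Finset.sum_le_sum h4).trans ?_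
    rw [← Finset.sum_mul, Finset.sum_comm]
    have h5 := corner n N
    nlinarith [sq_nonneg ‖y‖]
  linarith

theorem block_sum (P : ℕ) (y : H) : ∑ i ∈ σ P, inner ℝ (b' u i) y • b u i =
    ∑ i ∈ σ P, inner ℝ (u i) y • u i - inner ℝ (w u P) y • w u P +
      inner ℝ (e u P) y • x u P := by
  have h2 : (2 : ℝ) ^ P ≠ 0 := by positivity
  have hw : ∑ i ∈ σ P, u i = (2 : ℝ) ^ P • w u P := by
    unfold w
    rw [smul_smul, mul_inv_cancel₀ h2, one_smul]
  have hwy : ∑ i ∈ σ P, inner ℝ (u i) y = (2 : ℝ) ^ P * inner ℝ (w u P) y := by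
    rw [← sum_inner, hw, inner_smul_left]
    simp
  have h1 : ∀ i ∈ σ P, inner ℝ (b' u i) y • b u i = inner ℝ (u i) y • u i -
      (((2 : ℝ) ^ P)⁻¹ * inner ℝ (z' u P) y) • u i + (((2 : ℝ) ^ P)⁻¹ * inner ℝ (u i) y) • z u P -
      ((((2 : ℝ) ^ P)⁻¹) ^ 2 * inner ℝ (z' u P) y) • z u P := by
    intro i hi
    unfold b' b
    rw [mem_σ.1 hi, inner_sub_left, inner_smul_left]
    simp only [conj_trivial]
    module
  rw [Finset.sum_congr rfl h1, Finset.sum_sub_distrib, Finset.sum_add_distrib,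
    Finset.sum_sub_distrib, ← Finset.smul_sum, hw, ← Finset.sum_smul, ← Finset.mul_sum, hwy,
    Finset.sum_const, card_σ]
  unfold e x
  rw [inner_sub_left]
  have h4 : (4 ^ P : ℕ) • ((((2 : ℝ) ^ P)⁻¹) ^ 2 * inner ℝ (z' u P) y) • z u P =
      inner ℝ (z' u P) y • z u P := by
    rw [← Nat.cast_smul_eq_nsmul ℝ, smul_smul]
    congr 1
    push_cast
    rw [show (4 : ℝ) ^ P = 2 ^ P * 2 ^ P by rw [← mul_pow]; norm_num]
    field_simp
  rw [h4, smul_smul]
  have h5 : ((2 : ℝ) ^ P)⁻¹ * inner ℝ (z' u P) y * 2 ^ P = inner ℝ (z' u P) y := by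
    field_simp
  have h6 : ((2 : ℝ) ^ P)⁻¹ * (2 ^ P * inner ℝ (w u P) y) = inner ℝ (w u P) y := by
    field_simp
  rw [h5, h6]
  module

/-- Partial sums are bounded. -/
theorem Sn (n : ℕ) (y : H) :
    ‖∑ i ∈ Finset.range n, inner ℝ (b' u i) y • b u i‖ ≤ 14 * ‖y‖ := by
  set Q := blk n with hQ
  have hn := blk_le n
  have hn2 := lt_blk n
  rw [← hQ] at hn hn2
  rw [← Finset.sum_range_add_sum_Ico _ hn, sum_blocks]
  refine (norm_add_le _ _).trans ?_
  have h1 : ‖∑ P ∈ Finset.range Q, ∑ i ∈ σ P, inner ℝ (b' u i) y • b u i‖ ≤ 5 * ‖y‖ := by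
    rw [Finset.sum_congr rfl (fun P _ => block_sum hu P y), Finset.sum_add_distrib,
      Finset.sum_sub_distrib, ← sum_blocks]
    have e1 : ‖∑ i ∈ Finset.range (s Q), inner ℝ (u i) y • u i‖ ≤ ‖y‖ := by
      refine le_of_sq_le_sq ?_ (norm_nonneg _)
      rw [norm_sq_sum hu _ (fun P => inner ℝ (u P) y)]
      exact bessel hu _ y
    have e2 : ‖∑ P ∈ Finset.range Q, inner ℝ (w u P) y • w u P‖ ≤ ‖y‖ := by
      refine le_of_sq_le_sq ?_ (norm_nonneg _)
      rw [norm_sq_sum (w_on hu) _ (fun P => inner ℝ (w u P) y)]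
      exact bessel (w_on hu) _ y
    have e3 := Bn hu Q y
    refine (norm_add_le _ _).trans ?_
    have e4 := norm_sub_le (∑ i ∈ Finset.range (s Q), inner ℝ (u i) y • u i)
      (∑ P ∈ Finset.range Q, inner ℝ (w u P) y • w u P)
    linarith
  have h2 : ‖∑ i ∈ Finset.Ico (s Q) n, inner ℝ (b' u i) y • b u i‖ ≤ 9 * ‖y‖ := by
    set I := Finset.Ico (s Q) n with hI
    have hIσ : I ⊆ σ Q := Finset.Ico_subset_Ico_right hn2.le
    have e0 : ∑ i ∈ I, inner ℝ (b' u i) y • b u i = ∑ i ∈ I, inner ℝ (b' u i) y • u i +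
        (((2 : ℝ) ^ Q)⁻¹ * ∑ i ∈ I, inner ℝ (b' u i) y) • z u Q := by
      rw [Finset.mul_sum, Finset.sum_smul, ← Finset.sum_add_distrib]
      refine Finset.sum_congr rfl fun i hi => ?_
      unfold b
      rw [mem_σ.1 (hIσ hi)]
      module
    have e1 : ∑ i ∈ I, (inner ℝ (b' u i) y) ^ 2 ≤ (3 * ‖y‖) ^ 2 := by
      have f1 : ∀ i ∈ I, (inner ℝ (b' u i) y) ^ 2 ≤ 2 * (inner ℝ (u i) y) ^ 2 +
          2 * ((((2 : ℝ) ^ Q)⁻¹) ^ 2 * (inner ℝ (z' u Q) y) ^ 2) := by
        intro i hi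
        unfold b'
        rw [mem_σ.1 (hIσ hi), inner_sub_left, inner_smul_left]
        simp only [conj_trivial]
        nlinarith [sq_nonneg (inner ℝ (u i) y + ((2 : ℝ) ^ Q)⁻¹ * inner ℝ (z' u Q) y)]
      refine (Finset.sum_le_sum f1).trans ?_
      rw [Finset.sum_add_distrib, ← Finset.mul_sum, Finset.sum_const, nsmul_eq_mul]
      have f2 := bessel hu I y
      have f3 : (I.card : ℝ) ≤ (2 ^ Q) ^ 2 := by
        have : I.card ≤ 4 ^ Q := by
          rw [← card_σ]
          exact Finset.card_le_card hIσ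
        have h4 : ((4 : ℝ) ^ Q) = (2 ^ Q) ^ 2 := by
          rw [← pow_mul, mul_comm, pow_mul]; norm_num
        rw [← h4]
        exact_mod_cast this
      have f4 : (inner ℝ (z' u Q) y) ^ 2 ≤ (3 / 2 * ‖y‖) ^ 2 := by
        have g1 : ‖z' u Q‖ ≤ 3 / 2 := by
          have h1 : ‖z' u Q‖ ^ 2 ≤ 2 := by
            unfold z'
            rw [norm_sq_sum (w_on hu) _ (fun P => m Q P)]
            exact row Q
          nlinarith [norm_nonneg (z' u Q)]
        rw [← sq_abs]
        refine pow_le_pow_left₀ (abs_nonneg _) ?_ 2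
        exact (abs_real_inner_le_norm _ _).trans (mul_le_mul_of_nonneg_right g1 (norm_nonneg _))
      have f5 : (I.card : ℝ) * (2 * ((((2 : ℝ) ^ Q)⁻¹) ^ 2 * (inner ℝ (z' u Q) y) ^ 2)) ≤
          2 * (inner ℝ (z' u Q) y) ^ 2 := by
        calc (I.card : ℝ) * (2 * ((((2 : ℝ) ^ Q)⁻¹) ^ 2 * (inner ℝ (z' u Q) y) ^ 2)) ≤
            (2 ^ Q) ^ 2 * (2 * ((((2 : ℝ) ^ Q)⁻¹) ^ 2 * (inner ℝ (z' u Q) y) ^ 2)) :=
              mul_le_mul_of_nonneg_right f3 (by positivity)
          _ = _ := by field_simp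
      nlinarith [sq_nonneg ‖y‖]
    have e2 : ‖∑ i ∈ I, inner ℝ (b' u i) y • u i‖ ≤ 3 * ‖y‖ := by
      refine le_of_sq_le_sq ?_ (by positivity)
      rw [norm_sq_sum hu _ (fun i => inner ℝ (b' u i) y)]
      exact e1
    have e3 : |((2 : ℝ) ^ Q)⁻¹ * ∑ i ∈ I, inner ℝ (b' u i) y| ≤ 3 * ‖y‖ := by
      refine abs_le_of_sq_le_sq' ?_ (by positivity) |> abs_le.2
      rw [mul_pow]
      have f1 := Finset.sum_mul_sq_le_sq_mul_sq I (fun _ => (1 : ℝ)) (fun i => inner ℝ (b' u i) y)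
      simp only [one_mul, one_pow, Finset.sum_const, nsmul_eq_mul, mul_one] at f1
      have f3 : (I.card : ℝ) ≤ (2 ^ Q) ^ 2 := by
        have : I.card ≤ 4 ^ Q := by
          rw [← card_σ]
          exact Finset.card_le_card hIσ
        have h4 : ((4 : ℝ) ^ Q) = (2 ^ Q) ^ 2 := by
          rw [← pow_mul, mul_comm, pow_mul]; norm_num
        rw [← h4]
        exact_mod_cast this
      calc (((2 : ℝ) ^ Q)⁻¹) ^ 2 * (∑ i ∈ I, inner ℝ (b' u i) y) ^ 2 ≤
          (((2 : ℝ) ^ Q)⁻¹) ^ 2 * ((2 ^ Q) ^ 2 * (3 * ‖y‖) ^ 2) := by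
            refine mul_le_mul_of_nonneg_left (f1.trans ?_) (by positivity)
            exact mul_le_mul f3 e1 (by positivity) (by positivity)
        _ = (3 * ‖y‖) ^ 2 := by field_simp
    rw [e0]
    refine (norm_add_le _ _).trans ?_
    rw [norm_smul, Real.norm_eq_abs]
    have e4 := mul_le_mul e3 (norm_z hu Q) (norm_nonneg _) (by positivity)
    linarith
  linarith

end Pool.Agent.X202.CB
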