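import Mathlib
import Pool.Agent.X202.CondBasis2

set_option autoImplicit false

/-!
# Truncation for the conditional basis, and the new norm
-/

namespace Pool.Agent.X202.CB

open Pool.Agent.X202.Mat Pool.Agent.X202.Ren

theorem tau_lip {l : ℝ} (hl : 0 ≤ l) (a c : ℝ) : |tau l a - tau l c| ≤ |a - c| := by
  unfold tau
  rcases abs_cases (a - c) with ⟨h1, h2⟩ | ⟨h1, h2⟩ <;> rw [h1, abs_le] <;>
  simp only [min_def, max_def] <;> constructor <;> split_ifs <;> linarith

theorem tau_err {l : ℝ} (hl : 0 < l) {t m : ℝ} (hm : |m| ≤ l / 2) :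
    |tau l t - t| ≤ 2 / l * (t - m) ^ 2 := by
  by_cases h : |t| ≤ l
  · rw [tau_eq_self h, sub_self, abs_zero]
    positivity
  · push Not at h
    have h1 : |tau l t - t| = |t| - l := by
      unfold tau
      rcases le_total 0 t with ht | ht
      · rw [abs_of_nonneg ht] at h ⊢
        rw [min_eq_left h.le, max_eq_right (by linarith), abs_of_nonpos (by linarith)]
        ring
      · rw [abs_of_nonpos ht] at h ⊢
        rw [min_eq_right (by linarith), max_eq_left (by linarith), abs_of_nonneg (by linarith)]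
        ring
    rw [h1, ← sq_abs (t - m)]
    have h2 : |t| ≤ |t - m| + |m| := by
      have := abs_add_le (t - m) m
      rwa [sub_add_cancel] at this
    have h3 : l / 2 ≤ |t - m| := by linarith
    have h4 : |t| - l ≤ |t - m| := by linarith
    refine h4.trans ?_
    have h5 : 1 ≤ 2 / l * |t - m| := by
      rw [div_mul_eq_mul_div, one_le_div hl]
      linarith
    calc |t - m| = 1 * |t - m| := (one_mul _).symm
      _ ≤ (2 / l * |t - m|) * |t - m| := mul_le_mul_of_nonneg_right h5 (abs_nonneg _)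
      _ = _ := by ring

variable {H : Type} [NormedAddCommGroup H] [InnerProductSpace ℝ H]

variable (u : ℕ → H)

/-- The functional with coefficients `a_i`, `i < s N`. -/
noncomputable def F (N : ℕ) (a : ℕ → ℝ) : H := ∑ i ∈ Finset.range (s N), a i • b' u i

/-- Normalised block sum of the coefficients. -/
noncomputable def gam (a : ℕ → ℝ) (P : ℕ) : ℝ := ((2 : ℝ) ^ P)⁻¹ * ∑ i ∈ σ P, a i

/-- Block mean. -/
noncomputable def mean (a : ℕ → ℝ) (P : ℕ) : ℝ := ((2 : ℝ) ^ P)⁻¹ * gam a P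

variable {u} (hu : Orthonormal ℝ u)

theorem four_pow (P : ℕ) : ((4 : ℝ) ^ P) = 2 ^ P * 2 ^ P := by
  rw [← mul_pow]; norm_num

theorem block_dual (a : ℕ → ℝ) (P : ℕ) (c : ℝ) : ∑ i ∈ σ P, a i • b' u i =
    ∑ i ∈ σ P, (a i - c) • u i - (((2 : ℝ) ^ P)⁻¹ * ∑ i ∈ σ P, (a i - c)) • w u P +
      gam a P • e u P := by
  have h2 : (2 : ℝ) ^ P ≠ 0 := by positivity
  have hw : ∑ i ∈ σ P, u i = (2 : ℝ) ^ P • w u P := by
    unfold w
    rw [smul_smul, mul_inv_cancel₀ h2, one_smul]
  have h1 : ∀ i ∈ σ P, a i • b' u i = (a i - c) • u i + c • u i -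
      (((2 : ℝ) ^ P)⁻¹ * a i) • z' u P := by
    intro i hi
    unfold b'
    rw [mem_σ.1 hi]
    module
  rw [Finset.sum_congr rfl h1, Finset.sum_sub_distrib, Finset.sum_add_distrib, ← Finset.smul_sum,
    ← Finset.sum_smul, ← Finset.mul_sum, hw, Finset.sum_sub_distrib, Finset.sum_const, card_σ]
  unfold e gam
  rw [nsmul_eq_mul, smul_sub, smul_smul]
  push_cast
  rw [four_pow, mul_sub]
  have h3 : ((2 : ℝ) ^ P)⁻¹ * (2 ^ P * 2 ^ P * c) = c * 2 ^ P := by
    field_simp
  rw [h3]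
  module

/-- Variance part. -/
noncomputable def Var (u : ℕ → H) (N : ℕ) (a : ℕ → ℝ) : H :=
  ∑ i ∈ Finset.range (s N), (a i - mean a (blk i)) • u i

/-- Block part. -/
noncomputable def Gam (u : ℕ → H) (N : ℕ) (a : ℕ → ℝ) : H := ∑ P ∈ Finset.range N, gam a P • e u P

theorem sum_sub_mean (a : ℕ → ℝ) (P : ℕ) : ∑ i ∈ σ P, (a i - mean a P) = 0 := by
  rw [Finset.sum_sub_distrib, Finset.sum_const, card_σ]
  unfold mean gam
  rw [nsmul_eq_mul]
  push_cast
  rw [four_pow]
  field_simp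
  ring

theorem F_eq (N : ℕ) (a : ℕ → ℝ) : F u N a = Var u N a + Gam u N a := by
  unfold F Var Gam
  rw [sum_blocks, sum_blocks, ← Finset.sum_add_distrib]
  refine Finset.sum_congr rfl fun P _ => ?_
  rw [block_dual a P (mean a P), sum_sub_mean, mul_zero, zero_smul, sub_zero]
  congr 1
  exact Finset.sum_congr rfl fun i hi => by rw [mem_σ.1 hi]

include hu

theorem inner_w_Var (Q N : ℕ) (a : ℕ → ℝ) : inner ℝ (w u Q) (Var u N a) = 0 := by
  unfold Var
  rw [inner_sum, sum_blocks]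
  refine Finset.sum_eq_zero fun P _ => ?_
  have h1 : ∀ i ∈ σ P, inner ℝ (w u Q) ((a i - mean a (blk i)) • u i) =
      (a i - mean a P) * (if P = Q then ((2 : ℝ) ^ Q)⁻¹ else 0) := by
    intro i hi
    rw [inner_smul_right, real_inner_comm, inner_u_w hu, mem_σ.1 hi]
  rw [Finset.sum_congr rfl h1, ← Finset.sum_mul, sum_sub_mean, zero_mul]

theorem inner_e_Var (Q N : ℕ) (a : ℕ → ℝ) : inner ℝ (e u Q) (Var u N a) = 0 := by
  unfold e z'
  rw [inner_sub_left, inner_w_Var hu, sum_inner, Finset.sum_eq_zero, sub_zero]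
  intro P _
  rw [inner_smul_left, inner_w_Var hu, mul_zero]

theorem norm_Var_le (N : ℕ) (a : ℕ → ℝ) : ‖Var u N a‖ ≤ ‖F u N a‖ := by
  have h1 : inner ℝ (F u N a) (Var u N a) = ‖Var u N a‖ ^ 2 := by
    rw [F_eq, inner_add_left, real_inner_self_eq_norm_sq]
    unfold Gam
    rw [sum_inner, Finset.sum_eq_zero, add_zero]
    intro P _
    rw [inner_smul_left, inner_e_Var hu, mul_zero]
  have h2 := real_inner_le_norm (F u N a) (Var u N a)
  rw [h1] at h2
  rcases (norm_nonneg (Var u N a)).eq_or_lt with h | h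
  · rw [← h]; exact norm_nonneg _
  · exact le_of_mul_le_mul_right (by rw [← sq]; exact h2) h

theorem norm_Gam_le (N : ℕ) (a : ℕ → ℝ) : ‖Gam u N a‖ ≤ 2 * ‖F u N a‖ := by
  have h1 : Gam u N a = F u N a - Var u N a := by rw [F_eq]; abel
  rw [h1]
  have := norm_sub_le (F u N a) (Var u N a)
  have := norm_Var_le hu N a
  linarith

theorem norm_sq_Var (N : ℕ) (a : ℕ → ℝ) : ‖Var u N a‖ ^ 2 =
    ∑ P ∈ Finset.range N, ∑ i ∈ σ P, (a i - mean a P) ^ 2 := by
  unfold Var
  rw [norm_sq_sum hu _ (fun i => a i - mean a (blk i)), sum_blocks]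
  refine Finset.sum_congr rfl fun P _ => Finset.sum_congr rfl fun i hi => ?_
  rw [mem_σ.1 hi]

theorem inner_Gam_x {N Q : ℕ} (hQ : Q < N) (a : ℕ → ℝ) : inner ℝ (Gam u N a) (x u Q) = gam a Q := by
  unfold Gam
  rw [sum_inner]
  have h1 : ∀ P ∈ Finset.range N, inner ℝ (gam a P • e u P) (x u Q) =
      if P = Q then gam a P else 0 := by
    intro P _
    rw [inner_smul_left, inner_e_x hu]
    split_ifs <;> simp
  rw [Finset.sum_congr rfl h1, Finset.sum_ite_eq', if_pos (Finset.mem_range.2 hQ)]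

theorem abs_gam_le {N Q : ℕ} (hQ : Q < N) (a : ℕ → ℝ) : |gam a Q| ≤ 6 * ‖F u N a‖ := by
  rw [← inner_Gam_x hu hQ]
  refine (abs_real_inner_le_norm _ _).trans ?_
  have h1 := norm_Gam_le hu N a
  have h2 := norm_x hu Q
  calc ‖Gam u N a‖ * ‖x u Q‖ ≤ (2 * ‖F u N a‖) * 3 :=
        mul_le_mul h1 h2 (norm_nonneg _) (by positivity)
    _ = _ := by ring

/-- Initial parts of the block part are bounded. -/
theorem init_Gam {n N : ℕ} (hn : n ≤ N) (a : ℕ → ℝ) :
    ‖∑ P ∈ Finset.range n, gam a P • e u P‖ ≤ 3 * ‖Gam u N a‖ := by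
  set v := ∑ P ∈ Finset.range n, gam a P • e u P with hv
  have h1 : inner ℝ v v = inner ℝ (Gam u N a) (∑ P ∈ Finset.range n, inner ℝ (e u P) v • x u P) := by
    conv_lhs => rw [hv, sum_inner]
    rw [inner_sum]
    refine Finset.sum_congr rfl fun P hP => ?_
    rw [inner_smul_left, inner_smul_right, inner_Gam_x hu ((Finset.mem_range.1 hP).trans_le hn)]
    simp only [conj_trivial]
    rw [hv]
    ring
  have h2 := real_inner_le_norm (Gam u N a) (∑ P ∈ Finset.range n, inner ℝ (e u P) v • x u P)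
  rw [← h1, real_inner_self_eq_norm_sq] at h2
  have h3 := Bn hu n v
  rcases (norm_nonneg v).eq_or_lt with h | h
  · rw [← h]; positivity
  · refine le_of_mul_le_mul_right ?_ h
    rw [← sq]
    refine h2.trans ((mul_le_mul_of_nonneg_left h3 (norm_nonneg _)).trans (le_of_eq (by ring)))

/-- The truncated functionals are bounded. -/
theorem trunc (N : ℕ) (a : ℕ → ℝ) {l : ℝ} (hl : 0 ≤ l) (hF : ‖F u N a‖ ≤ 1)
    (ha : ∀ i, s N ≤ i → a i = 0) : ‖F u N (fun i => tau l (a i))‖ ≤ 100 := by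
  rcases hl.eq_or_lt with h0 | hl
  · have h1 : F u N (fun i => tau l (a i)) = 0 := by
      unfold F
      refine Finset.sum_eq_zero fun i _ => ?_
      have := tau_abs_le (show (0 : ℝ) ≤ l by rw [← h0]) (a i)
      rw [← h0] at this
      rw [← h0]
      change tau 0 (a i) • b' u i = 0
      rw [abs_nonpos_iff.1 this, zero_smul]
    rw [h1, norm_zero]; norm_num
  -- the threshold block
  obtain ⟨P1, hP1⟩ : ∃ P : ℕ, 12 / l ≤ 2 ^ P := pow_unbounded_of_one_lt (12 / l) one_lt_two |>.imp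
    fun _ h => h.le
  classical
  have hex : ∃ P : ℕ, 12 / l ≤ (2 : ℝ) ^ P := ⟨P1, hP1⟩
  set P0 := Nat.find hex with hP0
  have hP0s : 12 / l ≤ (2 : ℝ) ^ P0 := Nat.find_spec hex
  have hP0m : ∀ P < P0, (2 : ℝ) ^ P < 12 / l := fun P hP => not_le.1 (Nat.find_min hex hP)
  -- enlarge `N`
  set N' := max N P0 with hN'
  have hNN' : N ≤ N' := le_max_left _ _
  have hPN' : P0 ≤ N' := le_max_right _ _
  have hFN : ∀ c : ℕ → ℝ, (∀ i, s N ≤ i → c i = 0) → F u N c = F u N' c := by
    intro c hc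
    unfold F
    refine Finset.sum_subset (Finset.range_subset_range.2 (s_mono.monotone hNN')) fun i _ hi => ?_
    rw [Finset.mem_range, not_lt] at hi
    rw [hc i hi, zero_smul]
  rw [hFN a ha] at hF
  rw [hFN _ (fun i hi => by rw [ha i hi, tau_zero hl.le])]
  clear hFN ha
  set g : ℕ → ℝ := fun i => tau l (a i) with hg
  have hVar : ‖Var u N' a‖ ≤ 1 := (norm_Var_le hu N' a).trans hF
  have hVarsq : ∑ P ∈ Finset.range N', ∑ i ∈ σ P, (a i - mean a P) ^ 2 ≤ 1 := by
    rw [← norm_sq_Var hu]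
    nlinarith [norm_nonneg (Var u N' a)]
  have hGam : ‖Gam u N' a‖ ≤ 2 := by
    have := norm_Gam_le hu N' a
    linarith
  have hmean : ∀ P, P0 ≤ P → P < N' → |mean a P| ≤ l / 2 := by
    intro P h1 h2
    unfold mean
    rw [abs_mul, abs_of_pos (show (0 : ℝ) < ((2 : ℝ) ^ P)⁻¹ by positivity)]
    have h3 : |gam a P| ≤ 6 := by
      have := abs_gam_le hu h2 a
      linarith
    have h4 : 12 / l ≤ (2 : ℝ) ^ P := hP0s.trans (pow_le_pow_right₀ (by norm_num) h1)
    rw [inv_mul_le_iff₀ (by positivity)]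
    rw [div_le_iff₀ hl] at h4
    linarith
  -- decomposition of the truncated functional
  have hdec : F u N' g = ∑ i ∈ Finset.range (s N'), (g i - tau l (mean a (blk i))) • u i -
      ∑ P ∈ Finset.range N', (((2 : ℝ) ^ P)⁻¹ * ∑ i ∈ σ P, (g i - tau l (mean a P))) • w u P +
      Gam u N' g := by
    unfold F Gam
    rw [sum_blocks, sum_blocks, ← Finset.sum_sub_distrib, ← Finset.sum_add_distrib]
    refine Finset.sum_congr rfl fun P _ => ?_
    rw [block_dual g P (tau l (mean a P))]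
    congr 2
    exact Finset.sum_congr rfl fun i hi => by rw [mem_σ.1 hi]
  have hsq : ∀ P, ∑ i ∈ σ P, (g i - tau l (mean a P)) ^ 2 ≤ ∑ i ∈ σ P, (a i - mean a P) ^ 2 := by
    intro P
    refine Finset.sum_le_sum fun i _ => ?_
    rw [← sq_abs, ← sq_abs (a i - mean a P)]
    exact pow_le_pow_left₀ (abs_nonneg _) (tau_lip hl.le _ _) 2
  have hA : ‖∑ i ∈ Finset.range (s N'), (g i - tau l (mean a (blk i))) • u i‖ ≤ 1 := by
    refine le_of_sq_le_sq ?_ zero_le_one
    rw [norm_sq_sum hu _ (fun i => g i - tau l (mean a (blk i))), sum_blocks, one_pow]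
    refine le_trans (Finset.sum_le_sum fun P _ => ?_) hVarsq
    refine le_trans (le_of_eq (Finset.sum_congr rfl fun i hi => ?_)) (hsq P)
    rw [mem_σ.1 hi]
  have hB : ‖∑ P ∈ Finset.range N', (((2 : ℝ) ^ P)⁻¹ *
      ∑ i ∈ σ P, (g i - tau l (mean a P))) • w u P‖ ≤ 1 := by
    refine le_of_sq_le_sq ?_ zero_le_one
    rw [norm_sq_sum (w_on hu) _ (fun P => ((2 : ℝ) ^ P)⁻¹ *
      ∑ i ∈ σ P, (g i - tau l (mean a P))), one_pow]
    refine le_trans (Finset.sum_le_sum fun P _ => ?_) hVarsq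
    refine le_trans ?_ (hsq P)
    rw [mul_pow]
    have f1 := Finset.sum_mul_sq_le_sq_mul_sq (σ P) (fun _ => (1 : ℝ))
      (fun i => g i - tau l (mean a P))
    simp only [one_mul, one_pow, Finset.sum_const, nsmul_eq_mul, mul_one, card_σ] at f1
    push_cast at f1
    rw [four_pow] at f1
    calc (((2 : ℝ) ^ P)⁻¹) ^ 2 * (∑ i ∈ σ P, (g i - tau l (mean a P))) ^ 2 ≤
        (((2 : ℝ) ^ P)⁻¹) ^ 2 * (2 ^ P * 2 ^ P * ∑ i ∈ σ P, (g i - tau l (mean a P)) ^ 2) :=
          mul_le_mul_of_nonneg_left f1 (by positivity)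
      _ = _ := by field_simp
  -- the block part
  have hC : ‖Gam u N' g‖ ≤ 72 + 1 + 8 := by
    have hsplit : Gam u N' g = ∑ P ∈ Finset.range P0, gam g P • e u P +
        ∑ P ∈ Finset.Ico P0 N', (gam g P - gam a P) • e u P +
        (Gam u N' a - ∑ P ∈ Finset.range P0, gam a P • e u P) := by
      unfold Gam
      rw [← Finset.sum_range_add_sum_Ico _ hPN', ← Finset.sum_range_add_sum_Ico _ hPN']
      simp only [sub_smul, Finset.sum_sub_distrib]
      abel
    have h1 : ‖∑ P ∈ Finset.range P0, gam g P • e u P‖ ≤ 72 := by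
      have h2 : ∀ P ∈ Finset.range P0, ‖gam g P • e u P‖ ≤ 2 ^ P * (3 * l) := by
        intro P _
        rw [norm_smul, Real.norm_eq_abs]
        have h3 : |gam g P| ≤ 2 ^ P * l := by
          unfold gam
          rw [abs_mul, abs_of_pos (show (0 : ℝ) < ((2 : ℝ) ^ P)⁻¹ by positivity),
            inv_mul_le_iff₀ (by positivity)]
          refine (Finset.abs_sum_le_sum_abs _ _).trans ?_
          refine (Finset.sum_le_sum fun i _ => tau_abs_le hl.le (a i)).trans ?_
          rw [Finset.sum_const, card_σ, nsmul_eq_mul]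
          push_cast
          rw [four_pow]
          exact le_of_eq (by ring)
        calc |gam g P| * ‖e u P‖ ≤ (2 ^ P * l) * 3 :=
              mul_le_mul h3 (norm_e hu P) (norm_nonneg _) (by positivity)
          _ = _ := by ring
      refine (norm_sum_le _ _).trans ((Finset.sum_le_sum h2).trans ?_)
      rw [← Finset.sum_mul]
      have h3 : ∑ P ∈ Finset.range P0, (2 : ℝ) ^ P ≤ 24 / l := by
        rcases Nat.eq_zero_or_pos P0 with h4 | h4
        · rw [h4, Finset.sum_range_zero]; positivity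
        · have h5 := hP0m (P0 - 1) (by omega)
          have h6 := geom_sum_eq (show (2 : ℝ) ≠ 1 by norm_num) P0
          have h7 : (2 : ℝ) ^ P0 = 2 ^ (P0 - 1) * 2 := by
            rw [← pow_succ]
            congr 1
            omega
          rw [h6, h7]
          have h8 : 24 / l = 2 * (12 / l) := by ring
          rw [h8]
          norm_num
          linarith
      calc (∑ P ∈ Finset.range P0, (2 : ℝ) ^ P) * (3 * l) ≤ 24 / l * (3 * l) :=
            mul_le_mul_of_nonneg_right h3 (by positivity)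
        _ = 72 := by field_simp; norm_num
    have h2 : ‖∑ P ∈ Finset.Ico P0 N', (gam g P - gam a P) • e u P‖ ≤ 1 := by
      have h3 : ∀ P ∈ Finset.Ico P0 N', ‖(gam g P - gam a P) • e u P‖ ≤
          (1 / 2) * ∑ i ∈ σ P, (a i - mean a P) ^ 2 := by
        intro P hP
        rw [Finset.mem_Ico] at hP
        rw [norm_smul, Real.norm_eq_abs]
        have h4 : |gam g P - gam a P| ≤ ((2 : ℝ) ^ P)⁻¹ * (2 / l *
            ∑ i ∈ σ P, (a i - mean a P) ^ 2) := by
          unfold gam
          rw [← mul_sub, ← Finset.sum_sub_distrib, abs_mul,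
            abs_of_pos (show (0 : ℝ) < ((2 : ℝ) ^ P)⁻¹ by positivity)]
          refine mul_le_mul_of_nonneg_left ?_ (by positivity)
          refine (Finset.abs_sum_le_sum_abs _ _).trans ?_
          rw [Finset.mul_sum]
          exact Finset.sum_le_sum fun i _ => tau_err hl (hmean P hP.1 hP.2)
        have h5 : ((2 : ℝ) ^ P)⁻¹ * (2 / l) ≤ 1 / 6 := by
          have h6 : 12 / l ≤ (2 : ℝ) ^ P := hP0s.trans (pow_le_pow_right₀ (by norm_num) hP.1)
          rw [inv_mul_le_iff₀ (by positivity)]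
          have : 12 / l = 6 * (2 / l) := by ring
          rw [this] at h6
          linarith
        have h6 : 0 ≤ ∑ i ∈ σ P, (a i - mean a P) ^ 2 := by positivity
        calc |gam g P - gam a P| * ‖e u P‖ ≤ (((2 : ℝ) ^ P)⁻¹ * (2 / l *
            ∑ i ∈ σ P, (a i - mean a P) ^ 2)) * 3 :=
              mul_le_mul h4 (norm_e hu P) (norm_nonneg _) (by positivity)
          _ = (((2 : ℝ) ^ P)⁻¹ * (2 / l)) * (3 * ∑ i ∈ σ P, (a i - mean a P) ^ 2) := by ring
          _ ≤ (1 / 6) * (3 * ∑ i ∈ σ P, (a i - mean a P) ^ 2) :=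
              mul_le_mul_of_nonneg_right h5 (by positivity)
          _ = _ := by ring
      refine (norm_sum_le _ _).trans ((Finset.sum_le_sum h3).trans ?_)
      rw [← Finset.mul_sum]
      have h4 : ∑ P ∈ Finset.Ico P0 N', ∑ i ∈ σ P, (a i - mean a P) ^ 2 ≤ 1 := by
        refine le_trans (Finset.sum_le_sum_of_subset_of_nonneg (fun P hP => ?_)
          fun _ _ _ => by positivity) hVarsq
        rw [Finset.mem_range]
        exact (Finset.mem_Ico.1 hP).2
      linarith
    have h3 : ‖Gam u N' a - ∑ P ∈ Finset.range P0, gam a P • e u P‖ ≤ 8 := by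
      have h4 := init_Gam hu hPN' a
      have h5 := norm_sub_le (Gam u N' a) (∑ P ∈ Finset.range P0, gam a P • e u P)
      linarith
    rw [hsplit]
    refine (norm_add_le _ _).trans (add_le_add ((norm_add_le _ _).trans (add_le_add h1 h2)) h3)
  rw [hdec]
  refine (norm_add_le _ _).trans ?_
  have := norm_sub_le (∑ i ∈ Finset.range (s N'), (g i - tau l (mean a (blk i))) • u i)
    (∑ P ∈ Finset.range N', (((2 : ℝ) ^ P)⁻¹ * ∑ i ∈ σ P, (g i - tau l (mean a P))) • w u P)
  linarith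

end Pool.Agent.X202.CB
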