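import Mathlib
import Pool.Agent.X202.CondBasis3

set_option autoImplicit false

/-!
# The new norm for which the conditional basis has Property (A)
-/

namespace Pool.Agent.X202.CB

open Pool.Agent.X202.Mat Pool.Agent.X202.Ren Filter Topology

variable {H : Type} [NormedAddCommGroup H] [InnerProductSpace ℝ H]

variable {u : ℕ → H} (hu : Orthonormal ℝ u)

/-- The functional of a finitely supported coefficient sequence. -/
noncomputable def Fv (u : ℕ → H) (g : ℕ →₀ ℝ) : H := ∑ i ∈ g.support, g i • b' u i

theorem Fv_eq (g : ℕ →₀ ℝ) {A : Finset ℕ} (hA : g.support ⊆ A) :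
    Fv u g = ∑ i ∈ A, g i • b' u i :=
  Finset.sum_subset hA fun i _ hi => by rw [Finsupp.notMem_support_iff.1 hi, zero_smul]

theorem exists_N (g : ℕ →₀ ℝ) : ∃ N, g.support ⊆ Finset.range (s N) := by
  refine ⟨g.support.sup id + 1, fun i hi => ?_⟩
  rw [Finset.mem_range]
  have h1 : i ≤ g.support.sup id := Finset.le_sup (f := id) hi
  have h2 := s_mono.le_apply (x := g.support.sup id + 1)
  omega

include hu

theorem inner_Fv_b (g : ℕ →₀ ℝ) (j : ℕ) : inner ℝ (Fv u g) (b u j) = g j := by
  unfold Fv
  rw [sum_inner]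
  have h1 : ∀ i ∈ g.support, inner ℝ (g i • b' u i) (b u j) = if i = j then g i else 0 := by
    intro i _
    rw [inner_smul_left, biorth hu]
    split_ifs <;> simp
  rw [Finset.sum_congr rfl h1, Finset.sum_ite_eq']
  split_ifs with h
  · rfl
  · exact (Finsupp.notMem_support_iff.1 h).symm

/-- The configuration. -/
noncomputable def cfg : Cfg ℕ where
  φ := fun m => √m
  D := 7
  G := {g | ‖Fv u g‖ ≤ 1}
  φ0 := by simp
  φ1 := by simp
  D0 := by norm_num
  dnn := fun m => by
    have := Real.sqrt_le_sqrt (show (m : ℝ) ≤ ((m + 1 : ℕ) : ℝ) by push_cast; linarith)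
    linarith
  danti := fun m => by
    have h1 : √((m + 2 : ℕ) : ℝ) + √(m : ℝ) ≤ 2 * √((m + 1 : ℕ) : ℝ) := by
      refine le_of_sq_le_sq ?_ (by positivity)
      rw [add_sq, mul_pow, Real.sq_sqrt (by positivity), Real.sq_sqrt (by positivity),
        Real.sq_sqrt (by positivity), mul_assoc, ← Real.sqrt_mul (by positivity)]
      have h2 : √(((m + 2 : ℕ) : ℝ) * m) ≤ ((m + 1 : ℕ) : ℝ) := by
        rw [Real.sqrt_le_iff]
        refine ⟨by positivity, ?_⟩
        push_cast
        nlinarith
      push_cast at h2 ⊢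
      linarith
    push_cast at h1 ⊢
    linarith
  hG := fun g hg A => by
    have h1 : ∑ i ∈ A, |g i| = inner ℝ (Fv u g)
        (∑ i ∈ A, (if 0 ≤ g i then (1 : ℝ) else -1) • b u i) := by
      rw [inner_sum]
      refine Finset.sum_congr rfl fun i _ => ?_
      rw [inner_smul_right, inner_Fv_b hu]
      split_ifs with h
      · rw [abs_of_nonneg h, one_mul]
      · rw [abs_of_neg (not_le.1 h)]; ring
    rw [h1]
    refine (real_inner_le_norm _ _).trans ?_
    have h2 := upper hu A (fun i => if 0 ≤ g i then (1 : ℝ) else -1) (fun i => by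
      split_ifs <;> norm_num)
    have h3 : ‖Fv u g‖ ≤ 1 := hg
    calc _ ≤ 1 * (7 * √A.card) := mul_le_mul h3 h2 (norm_nonneg _) zero_le_one
      _ = _ := one_mul _

/-- Coordinates. -/
noncomputable def coord (u : ℕ → H) : H →ₗ[ℝ] (ℕ → ℝ) where
  toFun := fun y i => inner ℝ (b' u i) y
  map_add' := fun y z => by funext i; simp [inner_add_right]
  map_smul' := fun r y => by funext i; simp [inner_smul_right]

theorem bound1 (g : ℕ →₀ ℝ) (hg : g ∈ (cfg hu).G) (l : ℝ) (hl : 0 ≤ l) (y : H) :
    |∑ i ∈ g.support, tau l (g i) * coord u y i| ≤ 100 * ‖y‖ := by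
  obtain ⟨N, hN⟩ := exists_N g
  have h0 : ∀ i, s N ≤ i → g i = 0 := by
    intro i hi
    apply Finsupp.notMem_support_iff.1
    intro h
    have := Finset.mem_range.1 (hN h)
    omega
  have h1 : ∑ i ∈ g.support, tau l (g i) * coord u y i = inner ℝ (F u N (fun i => tau l (g i))) y := by
    unfold F
    rw [sum_inner]
    have h2 : ∀ i ∈ Finset.range (s N), inner ℝ (tau l (g i) • b' u i) y =
        tau l (g i) * coord u y i := by
      intro i _
      rw [inner_smul_left]
      rfl
    rw [Finset.sum_congr rfl h2]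
    refine Finset.sum_subset hN fun i _ hi => ?_
    rw [Finsupp.notMem_support_iff.1 hi, tau_zero hl, zero_mul]
  have h2 : ‖F u N (fun i => g i)‖ ≤ 1 := by
    have : F u N (fun i => g i) = Fv u g := (Fv_eq g hN).symm
    rw [this]
    exact hg
  rw [h1]
  refine (abs_real_inner_le_norm _ _).trans ?_
  exact mul_le_mul_of_nonneg_right (trunc hu N (fun i => g i) hl h2 h0) (norm_nonneg _)

theorem bound2 (A : Finset ℕ) (y : H) :
    (cfg hu).φ A.card * ∑ i ∈ A, |coord u y i| ≤ 7 * A.card * ‖y‖ := by
  have h1 := lower hu A y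
  have h2 := mul_le_mul_of_nonneg_left h1 (Real.sqrt_nonneg (A.card : ℝ))
  refine h2.trans (le_of_eq ?_)
  have h3 := Real.mul_self_sqrt (show (0 : ℝ) ≤ A.card by positivity)
  calc √(A.card : ℝ) * (7 * √A.card * ‖y‖) = 7 * (√(A.card : ℝ) * √A.card) * ‖y‖ := by ring
    _ = _ := by rw [h3]

theorem Vb (y : H) (A : Finset ℕ) (g : ℕ →₀ ℝ) (l : ℝ) (h : (cfg hu).Adm A g l) :
    (cfg hu).V A g l (coord u y) ≤ 247 * ‖y‖ := by
  refine ((cfg hu).V_bound (norm_nonneg y) (by norm_num : (0 : ℝ) ≤ 7)
    (fun g hg l hl => bound1 hu g hg l hl y) (fun A => bound2 hu A y) A g l h).trans (le_of_eq ?_)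
  have : (cfg hu).D = 7 := rfl
  rw [this]
  norm_num

theorem bd (y : H) : (cfg hu).Bd (coord u y) := by
  refine ⟨247 * ‖y‖, ?_⟩
  rintro _ ⟨A, g, l, h, rfl⟩
  exact Vb hu y A g l h

/-- The new norm. -/
noncomputable def newnorm : Seminorm ℝ H := (cfg hu).sem (coord u) (bd hu)

theorem newnorm_le (y : H) : newnorm hu y ≤ 247 * ‖y‖ :=
  (cfg hu).N_le (by positivity) fun A g l h => Vb hu y A g l h

/-- Density of the span of the basis. -/
theorem dense_b (hd : Dense (Submodule.span ℝ (Set.range u) : Set H)) :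
    Dense (Submodule.span ℝ (Set.range (b u)) : Set H) := by
  refine hd.mono ?_
  refine Submodule.span_le.2 ?_
  rintro _ ⟨i, rfl⟩
  -- odd blocks first
  have hodd : ∀ i, blk i % 2 = 1 → b u i = u i := by
    intro i hi
    unfold b
    have : z u (blk i) = 0 := by
      unfold z
      refine Finset.sum_eq_zero fun R _ => ?_
      have : m R (blk i) = 0 := by
        by_contra hne
        have := m_odd hne
        omega
      rw [this, zero_smul]
    rw [this, smul_zero, add_zero]
  have hu' : ∀ i, blk i % 2 = 1 → u i ∈ Submodule.span ℝ (Set.range (b u)) := fun i hi =>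
    Submodule.subset_span ⟨i, hodd i hi⟩
  have hw' : ∀ Q, Q % 2 = 1 → w u Q ∈ Submodule.span ℝ (Set.range (b u)) := by
    intro Q hQ
    unfold w
    refine Submodule.smul_mem _ _ (Submodule.sum_mem _ fun i hi => hu' i ?_)
    rw [mem_σ.1 hi]; exact hQ
  have hz : ∀ P, z u P ∈ Submodule.span ℝ (Set.range (b u)) := by
    intro P
    unfold z
    refine Submodule.sum_mem _ fun Q _ => ?_
    by_cases hm : m Q P = 0
    · rw [hm, zero_smul]; exact Submodule.zero_mem _
    · exact Submodule.smul_mem _ _ (hw' Q (m_odd hm).1)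
  have : u i = b u i - ((2 : ℝ) ^ blk i)⁻¹ • z u (blk i) := by
    unfold b
    abel
  rw [this]
  exact Submodule.sub_mem _ (Submodule.subset_span ⟨i, rfl⟩) (Submodule.smul_mem _ _ (hz _))

/-- Convergence of the expansions. -/
theorem expand (hd : Dense (Submodule.span ℝ (Set.range u) : Set H)) (y : H) :
    Tendsto (fun n => ∑ i ∈ Finset.range n, coord u y i • b u i) atTop (𝓝 y) := by
  have hfin : ∀ v ∈ Submodule.span ℝ (Set.range (b u)), ∃ n0, ∀ n ≥ n0,
      ∑ i ∈ Finset.range n, coord u v i • b u i = v := by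
    intro v hv
    induction hv using Submodule.span_induction with
    | mem v hv =>
      obtain ⟨j, rfl⟩ := hv
      refine ⟨j + 1, fun n hn => ?_⟩
      have h1 : ∀ i ∈ Finset.range n, coord u (b u j) i • b u i = if i = j then b u j else 0 := by
        intro i _
        change (inner ℝ (b' u i) (b u j) : ℝ) • b u i = _
        rw [biorth hu]
        split_ifs with h
        · rw [one_smul, h]
        · rw [zero_smul]
      rw [Finset.sum_congr rfl h1, Finset.sum_ite_eq', if_pos (Finset.mem_range.2 (by omega))]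
    | zero => exact ⟨0, fun n _ => by simp⟩
    | add v w _ _ hv hw =>
      obtain ⟨n1, h1⟩ := hv
      obtain ⟨n2, h2⟩ := hw
      refine ⟨max n1 n2, fun n hn => ?_⟩
      rw [map_add]
      simp only [Pi.add_apply, add_smul, Finset.sum_add_distrib]
      rw [h1 n (le_of_max_le_left hn), h2 n (le_of_max_le_right hn)]
    | smul r v _ hv =>
      obtain ⟨n1, h1⟩ := hv
      refine ⟨n1, fun n hn => ?_⟩
      rw [map_smul]
      simp only [Pi.smul_apply, smul_eq_mul, mul_smul]
      rw [← Finset.smul_sum, h1 n hn]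
  rw [Metric.tendsto_atTop]
  intro ε hε
  obtain ⟨v, hv, hvy⟩ := Metric.mem_closure_iff.1 (dense_b hu hd y) (ε / 15) (by positivity)
  obtain ⟨n0, hn0⟩ := hfin v hv
  refine ⟨n0, fun n hn => ?_⟩
  have h1 : ∑ i ∈ Finset.range n, coord u y i • b u i - y =
      ∑ i ∈ Finset.range n, coord u (y - v) i • b u i - (y - v) := by
    rw [map_sub]
    simp only [Pi.sub_apply, sub_smul, Finset.sum_sub_distrib]
    rw [hn0 n hn]
    abel
  rw [dist_eq_norm, h1]
  have h2 := Sn hu n (y - v)
  have h3 := norm_sub_le (∑ i ∈ Finset.range n, coord u (y - v) i • b u i) (y - v)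
  rw [dist_eq_norm] at hvy
  change ‖∑ i ∈ Finset.range n, coord u (y - v) i • b u i‖ ≤ _ at h2
  linarith

/-- The coefficients of an expansion. -/
theorem unique_coord {a : ℕ → ℝ} {y : H}
    (h : Tendsto (fun n => ∑ i ∈ Finset.range n, a i • b u i) atTop (𝓝 y)) : a = coord u y := by
  funext j
  have h1 : Tendsto (fun n => inner ℝ (b' u j) (∑ i ∈ Finset.range n, a i • b u i)) atTop
      (𝓝 (inner ℝ (b' u j) y)) := ((innerSL ℝ (b' u j)).continuous.tendsto y).comp h
  have h2 : Tendsto (fun n => inner ℝ (b' u j) (∑ i ∈ Finset.range n, a i • b u i)) atTop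
      (𝓝 (a j)) := by
    refine tendsto_const_nhds.congr' ?_
    rw [EventuallyEq, eventually_atTop]
    refine ⟨j + 1, fun n hn => ?_⟩
    rw [inner_sum]
    have h3 : ∀ i ∈ Finset.range n, inner ℝ (b' u j) (a i • b u i) = if j = i then a i else 0 := by
      intro i _
      rw [inner_smul_right, biorth hu]
      split_ifs <;> simp
    rw [Finset.sum_congr rfl h3, Finset.sum_ite_eq, if_pos (Finset.mem_range.2 (by omega))]
  exact tendsto_nhds_unique h2 h1

/-- The new norm dominates the old one. -/
theorem le_newnorm (hd : Dense (Submodule.span ℝ (Set.range u) : Set H)) (y : H) :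
    (1 / 14) * ‖y‖ ≤ newnorm hu y := by
  rcases (norm_nonneg y).eq_or_lt with h0 | h0
  · rw [← h0, mul_zero]; exact apply_nonneg _ _
  -- the adjoint partial sums
  have key : ∀ n, |inner ℝ y (∑ i ∈ Finset.range n, coord u y i • b u i)| ≤
      14 * ‖y‖ * newnorm hu y := by
    intro n
    set v : H := ∑ i ∈ Finset.range n, (inner ℝ (b u i) y : ℝ) • b' u i with hv
    have hvn : ‖v‖ ≤ 14 * ‖y‖ := by
      have h1 : inner ℝ v v = inner ℝ y (∑ i ∈ Finset.range n, coord u v i • b u i) := by
        conv_lhs => rw [hv, sum_inner]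
        rw [inner_sum]
        refine Finset.sum_congr rfl fun i _ => ?_
        rw [inner_smul_left, inner_smul_right, real_inner_comm y (b u i)]
        simp only [conj_trivial]
        change _ = inner ℝ (b' u i) v * _
        ring
      have h2 := real_inner_le_norm y (∑ i ∈ Finset.range n, coord u v i • b u i)
      rw [← h1, real_inner_self_eq_norm_sq] at h2
      have h3 := Sn hu n v
      change ‖∑ i ∈ Finset.range n, coord u v i • b u i‖ ≤ _ at h3
      rcases (norm_nonneg v).eq_or_lt with h | h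
      · rw [← h]; positivity
      · refine le_of_mul_le_mul_right ?_ h
        rw [← sq]
        refine h2.trans ((mul_le_mul_of_nonneg_left h3 (norm_nonneg _)).trans (le_of_eq (by ring)))
    set r : ℝ := (14 * ‖y‖)⁻¹ with hr
    have hr0 : 0 < r := by positivity
    obtain ⟨g, hg⟩ : ∃ g : ℕ →₀ ℝ, ∀ i, g i = if i < n then r * inner ℝ (b u i) y else 0 := by
      refine ⟨Finsupp.onFinset (Finset.range n) (fun i => if i < n then r * inner ℝ (b u i) y else 0)
        ?_, fun i => rfl⟩
      intro i hi
      rw [Finset.mem_range]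
      by_contra h
      exact hi (if_neg h)
    have hsub : g.support ⊆ Finset.range n := by
      intro i hi
      rw [Finsupp.mem_support_iff, hg] at hi
      rw [Finset.mem_range]
      by_contra h
      exact hi (if_neg h)
    have hFg : Fv u g = r • v := by
      rw [Fv_eq g hsub, hv, Finset.smul_sum]
      refine Finset.sum_congr rfl fun i hi => ?_
      rw [hg, if_pos (Finset.mem_range.1 hi), smul_smul]
    have hgG : g ∈ (cfg hu).G := by
      change ‖Fv u g‖ ≤ 1
      rw [hFg, norm_smul, Real.norm_eq_abs, abs_of_pos hr0, hr, inv_mul_le_iff₀ (by positivity),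
        mul_one]
      exact hvn
    obtain ⟨h3, h4⟩ := (cfg hu).le_V hgG (coord u y)
    have h5 := (cfg hu).V_le h3 (bd hu y)
    rw [h4] at h5
    have h6 : ∑ i ∈ g.support, g i * coord u y i =
        r * inner ℝ y (∑ i ∈ Finset.range n, coord u y i • b u i) := by
      have : ∑ i ∈ g.support, g i * coord u y i = ∑ i ∈ Finset.range n, g i * coord u y i :=
        Finset.sum_subset hsub fun i _ hi => by
          rw [Finsupp.notMem_support_iff.1 hi, zero_mul]
      rw [this, inner_sum, Finset.mul_sum]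
      refine Finset.sum_congr rfl fun i hi => ?_
      rw [hg, if_pos (Finset.mem_range.1 hi), inner_smul_right, real_inner_comm y (b u i)]
      ring
    rw [h6, abs_mul, abs_of_pos hr0, hr, inv_mul_le_iff₀ (by positivity)] at h5
    exact h5
  have h1 : Tendsto (fun n => |inner ℝ y (∑ i ∈ Finset.range n, coord u y i • b u i)|) atTop
      (𝓝 |inner ℝ y y|) :=
    (((innerSL ℝ y).continuous.tendsto y).comp (expand hu hd y)).abs
  have h2 := le_of_tendsto' h1 key
  rw [real_inner_self_eq_norm_sq, abs_of_nonneg (by positivity), sq] at h2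
  have h3 : ‖y‖ * ‖y‖ ≤ ‖y‖ * (14 * newnorm hu y) := by linarith
  have h4 := le_of_mul_le_mul_left h3 h0
  linarith

end Pool.Agent.X202.CB
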