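import Mathlib
import Pool.Agent.X202.CondBasis4

set_option autoImplicit false

/-!
# Property (A) and conditionality
-/

namespace Pool.Agent.X202.CB

open Pool.Agent.X202.Mat Pool.Agent.X202.Ren Filter Topology

variable {H : Type} [NormedAddCommGroup H] [InnerProductSpace ℝ H]

variable {u : ℕ → H} (hu : Orthonormal ℝ u)
include hu

theorem coord_abs (y : H) (n : ℕ) : |coord u y n| ≤ 7 * ‖y‖ := by
  have := lower hu {n} y
  change |inner ℝ (b' u n) y| ≤ _
  simpa using this

theorem coord_fin (y : H) (t : ℝ) (ht : 0 < t) : {n | t ≤ |coord u y n|}.Finite := by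
  by_contra hinf
  obtain ⟨k, hk⟩ := exists_nat_gt ((7 * ‖y‖ / t) ^ 2)
  obtain ⟨A, hA, hc⟩ := (show {n | t ≤ |coord u y n|}.Infinite from hinf).exists_subset_card_eq k
  have h1 := lower hu A y
  have h2 : (k : ℝ) * t ≤ ∑ i ∈ A, |inner ℝ (b' u i) y| := by
    rw [← hc, ← nsmul_eq_mul]
    exact Finset.card_nsmul_le_sum A _ t fun i hi => hA hi
  rw [hc] at h1
  have h3 : (k : ℝ) * t ≤ √k * (7 * ‖y‖) := by linarith
  have h4 : (k : ℝ) = √k * √k := (Real.mul_self_sqrt (by positivity)).symm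
  have hk0 : (0 : ℝ) < k := lt_of_le_of_lt (by positivity) hk
  have h5 : 0 < √(k : ℝ) := Real.sqrt_pos.2 hk0
  have h6 : √(k : ℝ) * (√k * t) ≤ √k * (7 * ‖y‖) := by
    rw [← mul_assoc, ← h4]; exact h3
  have h7 := le_of_mul_le_mul_left h6 h5
  have h8 : √(k : ℝ) ≤ 7 * ‖y‖ / t := by rwa [le_div_iff₀ ht]
  have h9 : (k : ℝ) ≤ (7 * ‖y‖ / t) ^ 2 := by
    rw [h4, ← sq]
    exact pow_le_pow_left₀ h5.le h8 2
  linarith

/-- Property (A) of the basis `b` for the new norm. -/
theorem propA {x y : H} {a c : ℕ → ℝ}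
    (ha : Tendsto (fun n => ∑ i ∈ Finset.range n, a i • b u i) atTop (𝓝 x))
    (hc : Tendsto (fun n => ∑ i ∈ Finset.range n, c i • b u i) atTop (𝓝 y)) (π : Equiv.Perm ℕ)
    (hπ : ∀ n, |c (π n)| = |a n|)
    (hfix : ∀ k, 0 < |a k| → |a k| < ⨆ n, |a n| → π k = k ∧ c k = a k) :
    newnorm hu x = newnorm hu y := by
  have h1 := unique_coord hu ha
  have h2 := unique_coord hu hc
  subst h1 h2
  refine (cfg hu).propA (bd hu x) (bd hu y) π hπ ⟨7 * ‖x‖, ?_⟩ (fun t ht => coord_fin hu x t ht)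
    hfix
  rintro _ ⟨n, rfl⟩
  exact coord_abs hu x n

theorem b_odd {i : ℕ} (hi : blk i % 2 = 1) : b u i = u i := by
  unfold b
  have : z u (blk i) = 0 := by
    unfold z
    refine Finset.sum_eq_zero fun R _ => ?_
    have : m R (blk i) = 0 := by
      by_contra hne
      have := m_odd hne
      omega
    rw [this, zero_smul]
  rw [this, smul_zero, add_zero]

/-- The test vectors. -/
theorem test (j : ℕ) : ∃ (y : H) (A : Finset ℕ), ‖y‖ ^ 2 ≤ 2 ^ (j + 1) ∧
    (2 : ℝ) ^ j * ((j : ℝ) ^ 2 / (4 * (j + 2))) ≤ ‖∑ i ∈ A, coord u y i • b u i‖ ^ 2 := by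
  classical
  set N := 2 * 2 ^ (j + 2) with hN
  set y : H := ∑ P ∈ Finset.range N, cc j P • w u P with hy
  set A := (Finset.range (s N)).filter (fun i => blk i % 2 = 1) with hA
  refine ⟨y, A, ?_, ?_⟩
  · rw [hy, norm_sq_sum (w_on hu) _ (cc j)]
    exact cc_sum j
  · have hwy : ∀ Q, inner ℝ (w u Q) y = if Q < N then cc j Q else 0 := by
      intro Q
      rw [hy, inner_sum]
      have h1 : ∀ P ∈ Finset.range N, inner ℝ (w u Q) (cc j P • w u P) =
          if Q = P then cc j P else 0 := by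
        intro P _
        rw [inner_smul_right, inner_w_w hu]
        split_ifs <;> simp
      rw [Finset.sum_congr rfl h1, Finset.sum_ite_eq]
      simp only [Finset.mem_range]
    have huy : ∀ i, blk i % 2 = 1 → inner ℝ (u i) y = 0 := by
      intro i hi
      rw [hy, inner_sum]
      refine Finset.sum_eq_zero fun P _ => ?_
      rw [inner_smul_right, inner_u_w hu]
      by_cases h : blk i = P
      · have : cc j P = 0 := by
          by_contra hne
          have := cc_even hne
          omega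
        rw [this, zero_mul]
      · rw [if_neg h, mul_zero]
    have hz'y : ∀ Q, Q < N → inner ℝ (z' u Q) y = ∑ P ∈ Finset.range N, m Q P * cc j P := by
      intro Q hQ
      rw [sum_inner_smul_w_z' y Q hQ.le]
      refine Finset.sum_congr rfl fun P hP => ?_
      rw [hwy, if_pos (Finset.mem_range.1 hP)]
    have h1 : ∑ i ∈ A, coord u y i • b u i = ∑ i ∈ A, coord u y i • u i := by
      refine Finset.sum_congr rfl fun i hi => ?_
      rw [b_odd hu (Finset.mem_filter.1 hi).2]
    rw [h1, norm_sq_sum hu, hA, Finset.sum_filter, sum_blocks]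
    refine (cc_big j).trans (le_of_eq ?_)
    refine Finset.sum_congr rfl fun Q hQ => ?_
    have h2 : ∀ i ∈ σ Q, (if blk i % 2 = 1 then (coord u y i) ^ 2 else 0) =
        (((2 : ℝ) ^ Q)⁻¹) ^ 2 * (∑ P ∈ Finset.range N, m Q P * cc j P) ^ 2 := by
      intro i hi
      have hb := mem_σ.1 hi
      split_ifs with h
      · have h3 : coord u y i = - (((2 : ℝ) ^ Q)⁻¹ * ∑ P ∈ Finset.range N, m Q P * cc j P) := by
          change inner ℝ (b' u i) y = _
          unfold b'
          rw [inner_sub_left, inner_smul_left, huy i h, hb, hz'y Q (Finset.mem_range.1 hQ)]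
          simp
        rw [h3]
        ring
      · have h3 : ∑ P ∈ Finset.range N, m Q P * cc j P = 0 := by
          refine Finset.sum_eq_zero fun P _ => ?_
          have : m Q P = 0 := by
            by_contra hne
            have := m_odd hne
            rw [hb] at h
            omega
          rw [this, zero_mul]
        rw [h3]
        ring
    rw [Finset.sum_congr rfl h2, Finset.sum_const, card_σ, nsmul_eq_mul]
    push_cast
    rw [four_pow]
    field_simp
    rfl

/-- The basis is conditional. -/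
theorem conditional [CompleteSpace H] :
    ¬ ∀ y : H, Summable fun i => coord u y i • b u i := by
  classical
  intro hall
  set T : Finset ℕ → (H →L[ℝ] H) := fun A =>
    ∑ i ∈ A, (innerSL ℝ (b' u i)).smulRight (b u i) with hT
  have hTy : ∀ A y, T A y = ∑ i ∈ A, coord u y i • b u i := by
    intro A y
    simp only [hT]
    rw [sum_apply]
    rfl
  obtain ⟨C, hC⟩ := banach_steinhaus (g := T) (fun y => by
    have h1 := (hall y)
    obtain ⟨s0, hs0⟩ := (summable_iff_vanishing_norm.1 h1) 1 one_pos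
    refine ⟨∑ i ∈ s0, ‖coord u y i • b u i‖ + 1, fun A => ?_⟩
    rw [hTy]
    have h2 : ∑ i ∈ A, coord u y i • b u i = ∑ i ∈ A ∩ s0, coord u y i • b u i +
        ∑ i ∈ A \ s0, coord u y i • b u i := (Finset.sum_inter_add_sum_sdiff _ _ _).symm
    rw [h2]
    refine (norm_add_le _ _).trans (add_le_add ?_ ?_)
    · refine (norm_sum_le _ _).trans (Finset.sum_le_sum_of_subset_of_nonneg
        Finset.inter_subset_right fun _ _ _ => norm_nonneg _)
    · exact (hs0 _ Finset.sdiff_disjoint).le)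
  obtain ⟨k, hk⟩ := exists_nat_gt (24 * C ^ 2)
  set j := k + 1 with hj
  obtain ⟨y, A, h1, h2⟩ := test hu j
  have h3 := (T A).le_of_opNorm_le (hC A) y
  rw [hTy] at h3
  have h4 : ‖∑ i ∈ A, coord u y i • b u i‖ ^ 2 ≤ C ^ 2 * 2 ^ (j + 1) := by
    calc ‖∑ i ∈ A, coord u y i • b u i‖ ^ 2 ≤ (C * ‖y‖) ^ 2 :=
          pow_le_pow_left₀ (norm_nonneg _) h3 2
      _ = C ^ 2 * ‖y‖ ^ 2 := by ring
      _ ≤ _ := mul_le_mul_of_nonneg_left h1 (sq_nonneg C)
  have h5 := h2.trans h4
  have h6 : (2 : ℝ) ^ j * ((j : ℝ) ^ 2 / (4 * (j + 2))) ≤ 2 ^ j * (2 * C ^ 2) := by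
    refine h5.trans (le_of_eq ?_)
    rw [pow_succ]; ring
  have h7 := le_of_mul_le_mul_left h6 (by positivity)
  have hj1 : (1 : ℝ) ≤ j := by rw [hj]; push_cast; linarith [show (0 : ℝ) ≤ k by positivity]
  have h8 : (j : ℝ) / 12 ≤ (j : ℝ) ^ 2 / (4 * (j + 2)) := by
    rw [div_le_div_iff₀ (by norm_num) (by positivity)]
    nlinarith
  have h9 : (k : ℝ) < j := by rw [hj]; push_cast; linarith
  linarith

end Pool.Agent.X202.CB
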