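import Mathlib
import Pool.Agent.X202.Ren

set_option autoImplicit false

/-!
# The dual of Schlumprecht's space
-/

namespace Pool.Agent.X202.Schl

open Pool.Agent.X202.Ren

variable {S : Type} [NormedAddCommGroup S] [NormedSpace ℝ S]

/-- The numbers whose supremum is the norm of `∑ a_i e_i` in Schlumprecht space. -/
def SchVals (e : ℕ → S) (a : ℕ →₀ ℝ) : Set ℝ :=
  {r | (∃ i, r = |a i|) ∨ ∃ (n : ℕ) (p q : ℕ → ℕ), 2 ≤ n ∧ (∀ i < n, p i ≤ q i) ∧
    (∀ i, i + 1 < n → q i < p (i + 1)) ∧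
    r = 1 / Real.logb 2 (n + 1) * ∑ i ∈ Finset.range n, ‖∑ k ∈ Finset.Icc (p i) (q i), a k • e k‖}

/-- `log_2 (m+1)` -/
noncomputable def ell (m : ℕ) : ℝ := Real.logb 2 (m + 1)

theorem ell_zero : ell 0 = 0 := by simp [ell]

theorem ell_one : ell 1 = 1 := by
  unfold ell
  norm_num

theorem ell_mono {m n : ℕ} (h : m ≤ n) : ell m ≤ ell n := by
  unfold ell
  refine Real.logb_le_logb_of_le (by norm_num) (by positivity) ?_
  have : (m : ℝ) ≤ n := by exact_mod_cast h
  linarith

theorem ell_pos {m : ℕ} (h : 1 ≤ m) : 0 < ell m := by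
  have := ell_mono h
  rw [ell_one] at this
  linarith

theorem ell_nonneg (m : ℕ) : 0 ≤ ell m := by
  have := ell_mono (Nat.zero_le m)
  rwa [ell_zero] at this

theorem ell_two : 1 < ell 2 := by
  unfold ell
  rw [Real.lt_logb_iff_rpow_lt (by norm_num) (by norm_num)]
  norm_num

theorem ell_le (m : ℕ) : ell m ≤ m := by
  unfold ell
  rw [Real.logb_le_iff_le_rpow (by norm_num) (by positivity), Real.rpow_natCast]
  exact_mod_cast Nat.lt_two_pow_self

/-- Power inequality: `1 + u v ≤ (1 + u)^b` when `2^b = 1 + v`, `u, b ≥ 1`. -/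
theorem pow_ineq {u b : ℝ} (hu : 1 ≤ u) (hb : 1 ≤ b) :
    1 + u * ((2 : ℝ) ^ b - 1) ≤ (1 + u) ^ b := by
  have hconv := (convexOn_rpow hb).2 (show (1 : ℝ) ∈ Set.Ici (0 : ℝ) by simp)
    (show (1 + u) ∈ Set.Ici (0 : ℝ) by simp only [Set.mem_Ici]; linarith)
    (show 0 ≤ 1 - 1 / u by rw [sub_nonneg, div_le_one (by linarith)]; exact hu)
    (show 0 ≤ 1 / u by positivity) (by ring)
  have hu0 : (0 : ℝ) < u := by linarith
  have h1 : (1 - 1 / u) • (1 : ℝ) + (1 / u) • (1 + u) = 2 := by
    rw [smul_eq_mul, smul_eq_mul]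
    field_simp
    ring
  rw [h1] at hconv
  simp only [Real.one_rpow, smul_eq_mul] at hconv
  have h2 := mul_le_mul_of_nonneg_left hconv hu0.le
  have h3 : u * ((1 - 1 / u) * 1 + 1 / u * (1 + u) ^ b) = u - 1 + (1 + u) ^ b := by
    field_simp
  rw [h3] at h2
  linarith

/-- `log_2 (1 + u v) ≤ log_2 (1 + u) log_2 (1 + v)` for `u, v ≥ 1`. -/
theorem log_ineq {u v : ℝ} (hu : 1 ≤ u) (hv : 1 ≤ v) :
    Real.logb 2 (1 + u * v) ≤ Real.logb 2 (1 + u) * Real.logb 2 (1 + v) := by
  have hb : 1 ≤ Real.logb 2 (1 + v) := by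
    rw [Real.le_logb_iff_rpow_le (by norm_num) (by linarith)]
    rw [Real.rpow_one]; linarith
  have h1 := pow_ineq hu hb
  rw [Real.rpow_logb (by norm_num) (by norm_num) (by linarith)] at h1
  have h2 : 1 + u * v ≤ (1 + u) ^ (Real.logb 2 (1 + v)) := by
    calc 1 + u * v = 1 + u * (1 + v - 1) := by ring
      _ ≤ _ := h1
  calc Real.logb 2 (1 + u * v) ≤ Real.logb 2 ((1 + u) ^ (Real.logb 2 (1 + v))) :=
        Real.logb_le_logb_of_le (by norm_num) (by nlinarith) h2
    _ = Real.logb 2 (1 + v) * Real.logb 2 (1 + u) := Real.logb_rpow_eq_mul_logb_of_pos (by linarith)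
    _ = _ := mul_comm _ _

/-- The fundamental function of Schlumprecht space. -/
noncomputable def psi (m : ℕ) : ℝ := m / ell m

theorem psi_term {m k : ℕ} (hk : k ≤ m) (hm : 1 ≤ m) (n : ℕ) :
    psi k ≤ psi m * (((k : ℝ) / m * Real.log (1 + n) + (1 - (k : ℝ) / m * n) / (1 + n)) /
      Real.log 2) := by
  have hl2 : 0 < Real.log 2 := Real.log_pos (by norm_num)
  have hm0 : (0 : ℝ) < m := by exact_mod_cast hm
  have hpm : 0 < psi m := div_pos hm0 (ell_pos hm)
  rcases Nat.eq_zero_or_pos k with h0 | h0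
  · subst h0
    unfold psi
    simp only [Nat.cast_zero, zero_div, zero_mul, sub_zero, zero_add]
    have := ell_pos hm
    positivity
  have hk0 : (0 : ℝ) < k := by exact_mod_cast h0
  have hkm : (k : ℝ) ≤ m := by exact_mod_cast hk
  have h1 : ell m ≤ Real.logb 2 (1 + (m : ℝ) / k) * ell k := by
    have h2 := log_ineq (u := (m : ℝ) / k) (v := k) (by rwa [one_le_div hk0])
      (by exact_mod_cast h0)
    rw [div_mul_cancel₀ _ hk0.ne'] at h2
    unfold ell
    rw [add_comm (m : ℝ), add_comm (k : ℝ)]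
    exact h2
  have hek := ell_pos h0
  have hem := ell_pos hm
  have h3 : psi k ≤ psi m * ((k : ℝ) / m * Real.logb 2 (1 + (m : ℝ) / k)) := by
    unfold psi
    have h4 : (m : ℝ) / ell m * ((k : ℝ) / m * Real.logb 2 (1 + (m : ℝ) / k)) =
        (k * Real.logb 2 (1 + (m : ℝ) / k)) / ell m := by
      field_simp
    rw [h4, div_le_div_iff₀ hek hem, mul_assoc]
    exact mul_le_mul_of_nonneg_left h1 hk0.le
  refine h3.trans (mul_le_mul_of_nonneg_left ?_ hpm.le)
  unfold Real.logb
  rw [← mul_div_assoc]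
  refine div_le_div_of_nonneg_right ?_ hl2.le
  have hn : (0 : ℝ) < 1 + n := by positivity
  have h5 : Real.log (1 + (m : ℝ) / k) ≤ Real.log (1 + n) +
      ((1 + (m : ℝ) / k) / (1 + n) - 1) := by
    have h6 : 0 < (1 + (m : ℝ) / k) / (1 + n) := by positivity
    have h7 := Real.log_le_sub_one_of_pos h6
    rw [Real.log_div (by positivity) hn.ne'] at h7
    linarith
  have h8 := mul_le_mul_of_nonneg_left h5 (show 0 ≤ (k : ℝ) / m by positivity)
  refine h8.trans (le_of_eq ?_)
  field_simp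
  ring

theorem psi_sum {m n : ℕ} (hm : 1 ≤ m) (hn : 1 ≤ n) (k : ℕ → ℕ)
    (hk : ∑ i ∈ Finset.range n, k i ≤ m) :
    ∑ i ∈ Finset.range n, psi (k i) ≤ ell n * psi m := by
  have hl2 : 0 < Real.log 2 := Real.log_pos (by norm_num)
  have hm0 : (0 : ℝ) < m := by exact_mod_cast hm
  have hn0 : (0 : ℝ) < n := by exact_mod_cast hn
  have hpm : 0 < psi m := div_pos hm0 (ell_pos hm)
  have h1 : ∀ i ∈ Finset.range n, psi (k i) ≤ psi m * (((k i : ℝ) / m * Real.log (1 + n) +
      (1 - (k i : ℝ) / m * n) / (1 + n)) / Real.log 2) := by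
    intro i hi
    exact psi_term ((Finset.single_le_sum (fun _ _ => Nat.zero_le _) hi).trans hk) hm n
  refine (Finset.sum_le_sum h1).trans ?_
  rw [← Finset.mul_sum, mul_comm]
  refine mul_le_mul_of_nonneg_right ?_ hpm.le
  rw [← Finset.sum_div]
  unfold ell Real.logb
  refine div_le_div_of_nonneg_right ?_ hl2.le
  rw [Finset.sum_add_distrib, ← Finset.sum_mul, ← Finset.sum_div, ← Finset.sum_div,
    Finset.sum_sub_distrib, ← Finset.sum_mul, ← Finset.sum_div, Finset.sum_const,
    Finset.card_range, nsmul_eq_mul, mul_one]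
  set s : ℝ := (∑ i ∈ Finset.range n, (k i : ℝ)) / m with hs
  have hs0 : 0 ≤ s := by positivity
  have hs1 : s ≤ 1 := by
    rw [hs, div_le_one hm0]
    exact_mod_cast hk
  have h2 : (n - s * n) / (1 + n : ℝ) ≤ (1 - s) * Real.log (1 + n) := by
    have h3 : (n : ℝ) / (1 + n) ≤ Real.log (1 + n) := by
      have h4 := Real.one_sub_inv_le_log_of_pos (show (0 : ℝ) < 1 + n by positivity)
      refine le_trans (le_of_eq ?_) h4
      field_simp
      ring
    calc (n - s * n) / (1 + n : ℝ) = (1 - s) * (n / (1 + n)) := by ring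
      _ ≤ _ := mul_le_mul_of_nonneg_left h3 (by linarith)
  rw [add_comm (n : ℝ) 1]
  linarith

/-- The vector of a finitely supported sequence. -/
noncomputable def vec (e : ℕ → S) (a : ℕ →₀ ℝ) : S := ∑ i ∈ a.support, a i • e i

theorem vec_eq (e : ℕ → S) (a : ℕ →₀ ℝ) {A : Finset ℕ} (hA : a.support ⊆ A) :
    vec e a = ∑ i ∈ A, a i • e i := by
  refine Finset.sum_subset hA fun i _ hi => ?_
  rw [Finsupp.notMem_support_iff.1 hi, zero_smul]

theorem vec_filter (e : ℕ → S) (a : ℕ →₀ ℝ) (A : Finset ℕ) :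
    vec e (a.filter (· ∈ A)) = ∑ i ∈ A, a i • e i := by
  classical
  rw [vec_eq e (A := A)]
  · refine Finset.sum_congr rfl fun i hi => ?_
    rw [Finsupp.filter_apply_pos _ _ hi]
  · intro i hi
    rw [Finsupp.support_filter, Finset.mem_filter] at hi
    exact hi.2

/-- Ordered intervals are disjoint. -/
theorem sep {n : ℕ} {p q : ℕ → ℕ} (h1 : ∀ i < n, p i ≤ q i)
    (h2 : ∀ i, i + 1 < n → q i < p (i + 1)) {i j : ℕ} (hij : i < j) (hj : j < n) : q i < p j := by
  induction j, hij using Nat.le_induction with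
  | base => exact h2 i hj
  | succ j hij' ih =>
    have h3 := ih (by omega)
    have h4 := h1 j (by omega)
    have h5 := h2 j hj
    omega

theorem disj {n : ℕ} {p q : ℕ → ℕ} (h1 : ∀ i < n, p i ≤ q i)
    (h2 : ∀ i, i + 1 < n → q i < p (i + 1)) {i j : ℕ} (hij : i ≠ j) (hi : i < n) (hj : j < n) :
    Disjoint (Finset.Icc (p i) (q i)) (Finset.Icc (p j) (q j)) := by
  rw [Finset.disjoint_left]
  intro k hk1 hk2
  rw [Finset.mem_Icc] at hk1 hk2
  rcases lt_or_gt_of_ne hij with h | h
  · have := sep h1 h2 h hj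
    omega
  · have := sep h1 h2 h hi
    omega

/-- If one of the intervals contains the support, the sum is the norm. -/
theorem one_piece (e : ℕ → S) (a : ℕ →₀ ℝ) {n : ℕ} {p q : ℕ → ℕ} (h1 : ∀ i < n, p i ≤ q i)
    (h2 : ∀ i, i + 1 < n → q i < p (i + 1)) {i0 : ℕ} (hi0 : i0 < n)
    (hs : a.support ⊆ Finset.Icc (p i0) (q i0)) :
    ∑ i ∈ Finset.range n, ‖∑ k ∈ Finset.Icc (p i) (q i), a k • e k‖ = ‖vec e a‖ := by
  rw [Finset.sum_eq_single i0]
  · rw [vec_eq e a hs]
  · intro j hj hne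
    rw [norm_eq_zero]
    refine Finset.sum_eq_zero fun k hk => ?_
    have hk2 : k ∉ a.support := fun h =>
      (Finset.disjoint_left.1 (disj h1 h2 hne (Finset.mem_range.1 hj) hi0)) hk (hs h)
    rw [Finsupp.notMem_support_iff.1 hk2, zero_smul]
  · intro h
    exact absurd (Finset.mem_range.2 hi0) h

theorem le_of_le_max {r B : ℝ} (hr : 0 ≤ r) (hB : 0 ≤ B) (h : r ≤ max B (r / ell 2)) :
    r ≤ B := by
  rcases le_max_iff.1 h with h | h
  · exact h
  · have h1 := ell_two
    rw [le_div_iff₀ (by linarith)] at h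
    have : r = 0 := by nlinarith
    rw [this]; exact hB

variable (e : ℕ → S) (hnorm : ∀ a : ℕ →₀ ℝ, IsLUB (SchVals e a) ‖vec e a‖)
include hnorm

theorem abs_le_norm (a : ℕ →₀ ℝ) (i : ℕ) : |a i| ≤ ‖vec e a‖ :=
  (hnorm a).1 (Or.inl ⟨i, rfl⟩)

/-- The unit vector basis is `1`-unconditional. -/
theorem lat (m : ℕ) : ∀ a b : ℕ →₀ ℝ, b.support.card = m → (∀ i, |a i| ≤ |b i|) →
    ‖vec e a‖ ≤ ‖vec e b‖ := by
  classical
  induction m using Nat.strong_induction_on with
  | _ m ih =>
  intro a b hb hab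
  have hsub : a.support ⊆ b.support := by
    intro i hi
    rw [Finsupp.mem_support_iff] at hi ⊢
    intro h0
    have := hab i
    rw [h0, abs_zero] at this
    exact hi (abs_nonpos_iff.1 this)
  refine le_of_le_max (norm_nonneg _) (norm_nonneg _) ((hnorm a).2 ?_)
  rintro r (⟨i, rfl⟩ | ⟨n, p, q, hn, h1, h2, rfl⟩)
  · exact le_max_of_le_left ((hab i).trans (abs_le_norm e hnorm b i))
  · have hen : 0 < ell n := ell_pos (by omega)
    by_cases hex : ∃ i0 < n, b.support ⊆ Finset.Icc (p i0) (q i0)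
    · obtain ⟨i0, hi0, hs⟩ := hex
      rw [one_piece e a h1 h2 hi0 (hsub.trans hs)]
      refine le_max_of_le_right ?_
      rw [one_div, ← div_eq_inv_mul]
      exact div_le_div_of_nonneg_left (norm_nonneg _) (by linarith [ell_two]) (ell_mono hn)
    · push Not at hex
      refine le_max_of_le_left ?_
      refine le_trans ?_ ((hnorm b).1 (Or.inr ⟨n, p, q, hn, h1, h2, rfl⟩))
      refine mul_le_mul_of_nonneg_left (Finset.sum_le_sum fun i hi => ?_) (by
        change 0 ≤ 1 / ell n
        positivity)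
      rw [← vec_filter, ← vec_filter]
      refine ih (b.filter (· ∈ Finset.Icc (p i) (q i))).support.card ?_ _ _ rfl fun k => ?_
      · rw [← hb, Finsupp.support_filter]
        refine Finset.card_lt_card ?_
        refine ⟨Finset.filter_subset _ _, fun h => hex i (Finset.mem_range.1 hi) fun k hk => ?_⟩
        exact (Finset.mem_filter.1 (h hk)).2
      · rw [Finsupp.filter_apply, Finsupp.filter_apply]
        split_ifs
        · exact hab k
        · exact le_refl _

/-- Upper estimate of the fundamental function. -/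
theorem upper (m : ℕ) : ∀ a : ℕ →₀ ℝ, a.support.card = m → (∀ i, |a i| ≤ 1) →
    ‖vec e a‖ ≤ psi m := by
  classical
  induction m using Nat.strong_induction_on with
  | _ m ih =>
  intro a ha hab
  rcases Nat.eq_zero_or_pos m with h0 | h0
  · have : a.support = ∅ := Finset.card_eq_zero.1 (ha.trans h0)
    unfold vec
    rw [this, Finset.sum_empty, norm_zero, h0]
    unfold psi
    simp
  have hpsi1 : 1 ≤ psi m := by
    unfold psi
    rw [one_le_div (ell_pos h0)]
    exact ell_le m
  refine le_of_le_max (norm_nonneg _) (by linarith) ((hnorm a).2 ?_)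
  rintro r (⟨i, rfl⟩ | ⟨n, p, q, hn, h1, h2, rfl⟩)
  · exact le_max_of_le_left ((hab i).trans hpsi1)
  · have hen : 0 < ell n := ell_pos (by omega)
    by_cases hex : ∃ i0 < n, a.support ⊆ Finset.Icc (p i0) (q i0)
    · obtain ⟨i0, hi0, hs⟩ := hex
      rw [one_piece e a h1 h2 hi0 hs]
      refine le_max_of_le_right ?_
      rw [one_div, ← div_eq_inv_mul]
      exact div_le_div_of_nonneg_left (norm_nonneg _) (by linarith [ell_two]) (ell_mono hn)
    · push Not at hex
      refine le_max_of_le_left ?_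
      have h3 : ∑ i ∈ Finset.range n, ‖∑ k ∈ Finset.Icc (p i) (q i), a k • e k‖ ≤
          ∑ i ∈ Finset.range n, psi (a.filter (· ∈ Finset.Icc (p i) (q i))).support.card := by
        refine Finset.sum_le_sum fun i hi => ?_
        rw [← vec_filter]
        refine ih _ ?_ _ rfl fun k => ?_
        · rw [← ha, Finsupp.support_filter]
          refine Finset.card_lt_card ?_
          refine ⟨Finset.filter_subset _ _, fun h => hex i (Finset.mem_range.1 hi) fun k hk => ?_⟩
          exact (Finset.mem_filter.1 (h hk)).2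
        · rw [Finsupp.filter_apply]
          split_ifs
          · exact hab k
          · simp
      have h4 : ∑ i ∈ Finset.range n, (a.filter (· ∈ Finset.Icc (p i) (q i))).support.card ≤ m := by
        rw [← Finset.card_biUnion, ← ha]
        · refine Finset.card_le_card fun k hk => ?_
          rw [Finset.mem_biUnion] at hk
          obtain ⟨i, _, hi⟩ := hk
          rw [Finsupp.support_filter] at hi
          exact (Finset.mem_filter.1 hi).1
        · intro i hi j hj hij
          refine Finset.disjoint_left.2 fun k hk1 hk2 => ?_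
          simp only [Finsupp.support_filter, Finset.mem_filter] at hk1 hk2
          exact (Finset.disjoint_left.1 (disj h1 h2 hij (Finset.mem_range.1 hi)
            (Finset.mem_range.1 hj))) hk1.2 hk2.2
      have h5 := psi_sum h0 (by omega : 1 ≤ n) _ h4
      change 1 / ell n * _ ≤ _
      rw [one_div, ← div_eq_inv_mul, div_le_iff₀ hen]
      calc _ ≤ _ := h3
        _ ≤ _ := h5
        _ = _ := mul_comm _ _

/-- The lower estimate: `ℓ_1`-sums. -/
theorem lower (a : ℕ →₀ ℝ) (A : Finset ℕ) : ∑ i ∈ A, |a i| ≤ ell A.card * ‖vec e a‖ := by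
  classical
  rcases Nat.lt_or_ge A.card 2 with h | h
  · rcases Nat.lt_or_ge A.card 1 with h' | h'
    · have : A = ∅ := Finset.card_eq_zero.1 (by omega)
      subst this
      simp [ell_zero]
    · have hc : A.card = 1 := by omega
      obtain ⟨i, rfl⟩ := Finset.card_eq_one.1 hc
      rw [Finset.sum_singleton, Finset.card_singleton, ell_one, one_mul]
      exact abs_le_norm e hnorm a i
  · set n := A.card with hn
    set f : Fin n ↪o ℕ := A.orderEmbOfFin rfl with hf
    set p : ℕ → ℕ := fun i => if hi : i < n then f ⟨i, hi⟩ else 0 with hp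
    have hmem : 1 / Real.logb 2 (n + 1) *
        ∑ i ∈ Finset.range n, ‖∑ k ∈ Finset.Icc (p i) (p i), a k • e k‖ ≤ ‖vec e a‖ := by
      refine (hnorm a).1 (Or.inr ⟨n, p, p, h, fun i _ => le_refl _, fun i hi => ?_, rfl⟩)
      have h1 : i < n := by omega
      simp only [hp, dif_pos h1, dif_pos hi]
      exact f.strictMono (by rw [Fin.lt_def]; simp)
    have h2 : ∑ i ∈ Finset.range n, ‖∑ k ∈ Finset.Icc (p i) (p i), a k • e k‖ =
        ∑ i ∈ A, ‖a i • e i‖ := by
      simp only [Finset.Icc_self, Finset.sum_singleton]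
      rw [← Finset.sum_coe_sort A, ← (A.orderIsoOfFin hn.symm).toEquiv.sum_comp
        (fun i : A => ‖a i • e i‖), Finset.sum_range]
      refine Finset.sum_congr rfl fun i _ => ?_
      simp only [hp, i.isLt, dif_pos]
      rfl
    rw [h2] at hmem
    have hen : 0 < ell n := ell_pos (by omega)
    change 1 / ell n * _ ≤ _ at hmem
    rw [one_div, ← div_eq_inv_mul, div_le_iff₀ hen] at hmem
    refine le_trans (Finset.sum_le_sum fun i _ => ?_) (hmem.trans (le_of_eq (mul_comm _ _)))
    rw [norm_smul, Real.norm_eq_abs]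
    have h3 : 1 ≤ ‖e i‖ := by
      have h4 := abs_le_norm e hnorm (Finsupp.single i 1) i
      rw [Finsupp.single_eq_same, abs_one, vec_eq e _ Finsupp.support_single_subset,
        Finset.sum_singleton, Finsupp.single_eq_same, one_smul] at h4
      exact h4
    nlinarith [abs_nonneg (a i)]

omit hnorm in
theorem tau_fs (l : ℝ) (hl : 0 ≤ l) (g : ℕ →₀ ℝ) : ∃ h : ℕ →₀ ℝ, ∀ i, h i = tau l (g i) :=
  ⟨g.mapRange (tau l) (tau_zero hl), fun i => by simp⟩

omit hnorm in
theorem clm_vec (x : S →L[ℝ] ℝ) (a : ℕ →₀ ℝ) {A : Finset ℕ} (hA : a.support ⊆ A) :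
    x (vec e a) = ∑ i ∈ A, a i * x (e i) := by
  rw [vec_eq e a hA, map_sum]
  exact Finset.sum_congr rfl fun i _ => by rw [map_smul, smul_eq_mul]

/-- The configuration of the renorming of the dual. -/
noncomputable def cfg : Cfg ℕ where
  φ := ell
  D := 1
  G := {g | ‖vec e g‖ ≤ 1}
  φ0 := ell_zero
  φ1 := ell_pos le_rfl
  D0 := one_pos
  dnn := fun m => by
    have := ell_mono (Nat.le_succ m)
    linarith
  danti := fun m => by
    have h1 : ell (m + 2) + ell m ≤ ell (m + 1) + ell (m + 1) := by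
      unfold ell
      push_cast
      rw [← Real.logb_mul (by positivity) (by positivity),
        ← Real.logb_mul (by positivity) (by positivity)]
      refine Real.logb_le_logb_of_le (by norm_num) (by positivity) ?_
      nlinarith
    linarith
  hG := fun g hg A => by
    refine (lower e hnorm g A).trans ?_
    rw [one_mul]
    have h1 := ell_nonneg A.card
    have h2 : ‖vec e g‖ ≤ 1 := hg
    nlinarith

theorem signClosed : (cfg e hnorm).SignClosed := by
  intro g hg ε hε
  obtain ⟨g', hg'⟩ : ∃ g' : ℕ →₀ ℝ, ∀ i, g' i = ε i * g i := by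
    refine ⟨Finsupp.onFinset g.support (fun i => ε i * g i) ?_, fun i => rfl⟩
    intro i hi
    rw [Finsupp.mem_support_iff]
    intro h0
    rw [h0, mul_zero] at hi
    exact hi rfl
  refine ⟨g', ?_, hg'⟩
  refine (lat e hnorm _ g' g rfl fun i => ?_).trans hg
  rw [hg', abs_mul]
  rcases hε i with h | h <;> rw [h] <;> simp

variable (x : S →L[ℝ] ℝ)

theorem bound1 (g : ℕ →₀ ℝ) (hg : g ∈ (cfg e hnorm).G) (l : ℝ) (hl : 0 ≤ l) :
    |∑ i ∈ g.support, tau l (g i) * x (e i)| ≤ 1 * ‖x‖ := by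
  obtain ⟨h, hh⟩ := tau_fs l hl g
  have hsub : h.support ⊆ g.support := by
    intro i hi
    rw [Finsupp.mem_support_iff] at hi ⊢
    intro h0
    rw [hh, h0, tau_zero hl] at hi
    exact hi rfl
  have h1 : x (vec e h) = ∑ i ∈ g.support, tau l (g i) * x (e i) := by
    rw [clm_vec e x h hsub]
    exact Finset.sum_congr rfl fun i _ => by rw [hh]
  rw [← h1, ← Real.norm_eq_abs, one_mul]
  refine (x.le_opNorm _).trans ?_
  have h2 : ‖vec e h‖ ≤ 1 := by
    refine (lat e hnorm _ h g rfl fun i => ?_).trans hg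
    rw [hh]
    exact tau_abs_le' hl _
  nlinarith [norm_nonneg x]

theorem bound2 (A : Finset ℕ) :
    ell A.card * ∑ i ∈ A, |x (e i)| ≤ 1 * A.card * ‖x‖ := by
  classical
  rcases Nat.eq_zero_or_pos A.card with h0 | h0
  · have : A = ∅ := Finset.card_eq_zero.1 h0
    subst this
    simp
  set a : ℕ →₀ ℝ := Finsupp.onFinset A
    (fun i => if i ∈ A then (if 0 ≤ x (e i) then 1 else -1) else 0) (by
      intro i hi
      by_contra h
      simp [h] at hi) with ha
  have ha1 : ∀ i ∈ A, a i = if 0 ≤ x (e i) then 1 else -1 := by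
    intro i hi
    simp [ha, hi]
  have hsupp : a.support = A := by
    ext i
    rw [Finsupp.mem_support_iff]
    constructor
    · intro hi
      by_contra h
      apply hi
      simp [ha, h]
    · intro hi
      rw [ha1 i hi]
      split_ifs <;> norm_num
  have h1 : x (vec e a) = ∑ i ∈ A, |x (e i)| := by
    rw [clm_vec e x a hsupp.le]
    refine Finset.sum_congr rfl fun i hi => ?_
    rw [ha1 i hi]
    split_ifs with h
    · rw [abs_of_nonneg h, one_mul]
    · rw [abs_of_neg (not_le.1 h)]; ring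
  have h2 : ‖vec e a‖ ≤ psi A.card := upper e hnorm A.card a (by rw [hsupp]) fun i => by
    by_cases hi : i ∈ A
    · rw [ha1 i hi]
      split_ifs <;> norm_num
    · have : a i = 0 := by simp [ha, hi]
      rw [this, abs_zero]; exact zero_le_one
  have h3 : ∑ i ∈ A, |x (e i)| ≤ ‖x‖ * psi A.card := by
    rw [← h1]
    refine (le_abs_self _).trans ?_
    rw [← Real.norm_eq_abs]
    exact (x.le_opNorm _).trans (mul_le_mul_of_nonneg_left h2 (norm_nonneg _))
  calc ell A.card * ∑ i ∈ A, |x (e i)| ≤ ell A.card * (‖x‖ * psi A.card) :=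
        mul_le_mul_of_nonneg_left h3 (ell_nonneg _)
    _ = 1 * A.card * ‖x‖ := by
        have := (ell_pos h0).ne'
        unfold psi
        field_simp

/-- Coordinates in the dual. -/
def coord (e : ℕ → S) : (S →L[ℝ] ℝ) →ₗ[ℝ] (ℕ → ℝ) where
  toFun := fun x i => x (e i)
  map_add' := fun x y => by funext i; simp
  map_smul' := fun r x => by funext i; simp

theorem bd : (cfg e hnorm).Bd (coord e x) := by
  refine ⟨(3 * (cfg e hnorm).D * 1 + 1) * ‖x‖, ?_⟩
  rintro _ ⟨A, g, l, h, rfl⟩
  exact (cfg e hnorm).V_bound (norm_nonneg x) zero_le_one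
    (fun g hg l hl => bound1 e hnorm x g hg l hl) (fun A => bound2 e hnorm x A) A g l h

/-- The new norm on the dual. -/
noncomputable def newnorm : Seminorm ℝ (S →L[ℝ] ℝ) :=
  (cfg e hnorm).sem (coord e) (bd e hnorm)

theorem newnorm_le : newnorm e hnorm x ≤ 4 * ‖x‖ := by
  refine (cfg e hnorm).N_le (by positivity) fun A g l h => ?_
  refine ((cfg e hnorm).V_bound (norm_nonneg x) zero_le_one
    (fun g hg l hl => bound1 e hnorm x g hg l hl) (fun A => bound2 e hnorm x A) A g l h).trans ?_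
  have : (cfg e hnorm).D = 1 := rfl
  rw [this]
  linarith

theorem le_newnorm (hd : Dense (Submodule.span ℝ (Set.range e) : Set S)) :
    ‖x‖ ≤ newnorm e hnorm x := by
  refine ContinuousLinearMap.opNorm_le_bound x (apply_nonneg _ _) fun v => ?_
  rw [Real.norm_eq_abs]
  refine hd.induction (P := fun v => |x v| ≤ newnorm e hnorm x * ‖v‖) ?_
    (isClosed_le (by fun_prop) (by fun_prop)) v
  intro v hv
  obtain ⟨c, rfl⟩ := (Finsupp.mem_span_range_iff_exists_finsupp).1 hv
  change |x (vec e c)| ≤ newnorm e hnorm x * ‖vec e c‖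
  rcases (norm_nonneg (vec e c)).eq_or_lt with h0 | h0
  · have : vec e c = 0 := norm_eq_zero.1 h0.symm
    rw [this]; simp
  set r := ‖vec e c‖ with hr
  have h1 : vec e (r⁻¹ • c) = r⁻¹ • vec e c := by
    rw [vec_eq e (r⁻¹ • c) Finsupp.support_smul]
    unfold vec
    rw [Finset.smul_sum]
    exact Finset.sum_congr rfl fun i _ => by rw [Finsupp.smul_apply, smul_assoc]
  have h2 : (r⁻¹ • c) ∈ (cfg e hnorm).G := by
    change ‖vec e (r⁻¹ • c)‖ ≤ 1
    rw [h1, norm_smul, norm_inv, Real.norm_eq_abs, abs_of_pos h0, ← hr, inv_mul_cancel₀ h0.ne']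
  obtain ⟨h3, h4⟩ := (cfg e hnorm).le_V h2 (coord e x)
  have h5 := (cfg e hnorm).V_le h3 (bd e hnorm x)
  rw [h4] at h5
  have h6 : ∑ i ∈ (r⁻¹ • c).support, (r⁻¹ • c) i * coord e x i = r⁻¹ * x (vec e c) := by
    rw [← smul_eq_mul, ← map_smul, ← h1, clm_vec e x _ (Finset.Subset.refl _)]
    rfl
  rw [h6, abs_mul, abs_of_pos (inv_pos.2 h0)] at h5
  have h7 : |x (vec e c)| = r * (r⁻¹ * |x (vec e c)|) := by
    rw [← mul_assoc, mul_inv_cancel₀ h0.ne', one_mul]
  rw [h7, mul_comm (newnorm e hnorm x)]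
  exact mul_le_mul_of_nonneg_left h5 h0.le

/-- The canonical basis of the dual is `1`-greedy. -/
theorem isGreedy (e' : ℕ → (S →L[ℝ] ℝ)) (hbi : ∀ i j, e' i (e j) = if i = j then 1 else 0)
    (A B : Finset ℕ) (b : ℕ → ℝ) (hA : ∀ i ∈ A, ∀ j ∉ A, |x (e j)| ≤ |x (e i)|)
    (hAB : B.card ≤ A.card) :
    newnorm e hnorm (x - ∑ i ∈ A, x (e i) • e' i) ≤ newnorm e hnorm (x - ∑ i ∈ B, b i • e' i) := by
  classical
  have hsum : ∀ (F : Finset ℕ) (c : ℕ → ℝ) (j : ℕ), (∑ i ∈ F, c i • e' i) (e j) =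
      if j ∈ F then c j else 0 := by
    intro F c j
    rw [ContinuousLinearMap.sum_apply]
    have h1 : ∀ i ∈ F, (c i • e' i) (e j) = if i = j then c i else 0 := by
      intro i _
      rw [ContinuousLinearMap.smul_apply, hbi, smul_eq_mul]
      split_ifs <;> simp
    rw [Finset.sum_congr rfl h1, Finset.sum_ite_eq' F j c]
  refine (cfg e hnorm).greedy (signClosed e hnorm) (x := coord e x) (A := A) (B := B) hAB
    (fun i hi j hj => hA i hi j hj) (fun i hi => ?_) (fun i hi => ?_) (fun i hi => ?_)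
    (bd e hnorm _)
  · change (x - ∑ i ∈ A, x (e i) • e' i) (e i) = 0
    rw [ContinuousLinearMap.sub_apply, hsum A (fun i => x (e i)) i, if_pos hi, sub_self]
  · change (x - ∑ i ∈ A, x (e i) • e' i) (e i) = x (e i)
    rw [ContinuousLinearMap.sub_apply, hsum A (fun i => x (e i)) i, if_neg hi, sub_zero]
  · change (x - ∑ i ∈ B, b i • e' i) (e i) = x (e i)
    rw [ContinuousLinearMap.sub_apply, hsum B b i, if_neg hi, sub_zero]

end Pool.Agent.X202.Schl
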