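import Mathlib

set_option autoImplicit false

/-!
# Combinatorial core of: no copy of `c₀` implies property (Σ)
-/

open Finset

namespace Pool.Agent.X202.SigmaProp

variable {F : Set (Finset ℕ)}

/-- A block system: consecutive finite sets `D n ∈ F` and a nonnegative profile `a` carried by them
with sum one over each `D n`. -/
structure Blk (F : Set (Finset ℕ)) where
  /-- the supports -/
  D : ℕ → Finset ℕ
  /-- the profile -/
  a : ℕ → ℝ
  nonneg : ∀ i, 0 ≤ a i
  mem : ∀ n, D n ∈ F
  sum_one : ∀ n, ∑ i ∈ D n, a i = 1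
  order : ∀ n, ∀ i ∈ D n, ∀ j ∈ D (n + 1), i < j
  zero : ∀ i, (∀ n, i ∉ D n) → a i = 0

theorem Blk.le_one (b : Blk F) (i : ℕ) : b.a i ≤ 1 := by
  by_cases h : ∃ n, i ∈ b.D n
  · obtain ⟨n, hn⟩ := h
    rw [← b.sum_one n]
    exact Finset.single_le_sum (f := b.a) (fun j _ => b.nonneg j) hn
  · push Not at h
    rw [b.zero i h]; exact zero_le_one

theorem Blk.nonempty (b : Blk F) (n : ℕ) : (b.D n).Nonempty := by
  rw [Finset.nonempty_iff_ne_empty]
  intro h
  have := b.sum_one n
  rw [h, Finset.sum_empty] at this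
  exact zero_ne_one this

/-- elements of `D n` are at least `n` -/
theorem Blk.ge (b : Blk F) (n : ℕ) : ∀ i ∈ b.D n, n ≤ i := by
  induction n with
  | zero => intro i _; exact Nat.zero_le i
  | succ n ih =>
    intro i hi
    obtain ⟨j, hj⟩ := b.nonempty n
    have h1 := ih j hj
    have h2 := b.order n j hj i hi
    omega

/-- `T` lies after `S`. -/
def After (S T : Finset ℕ) : Prop := ∀ s ∈ S, ∀ t ∈ T, s < t

/-- `S` is good for the block system. -/
def Good (F : Set (Finset ℕ)) (a : ℕ → ℝ) (S : Finset ℕ) : Prop :=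
  ∃ C : ℝ, ∀ T : Finset ℕ, After S T → S ∪ T ∈ F → ∑ i ∈ T, a i ≤ C

/-- Almost domination. -/
def LeStar (b' b : Blk F) : Prop := ∃ N : ℕ, ∀ i, N ≤ i → b'.a i ≤ b.a i

theorem LeStar.refl (b : Blk F) : LeStar b b := ⟨0, fun _ _ => le_rfl⟩

theorem LeStar.trans {b b' b'' : Blk F} (h : LeStar b'' b') (h' : LeStar b' b) : LeStar b'' b := by
  obtain ⟨N, hN⟩ := h
  obtain ⟨N', hN'⟩ := h'
  exact ⟨max N N', fun i hi => (hN i (le_of_max_le_left hi)).trans (hN' i (le_of_max_le_right hi))⟩

theorem sum_le_of_leStar {b' b : Blk F} {N : ℕ} (h : ∀ i, N ≤ i → b'.a i ≤ b.a i) (T : Finset ℕ) :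
    ∑ i ∈ T, b'.a i ≤ N + ∑ i ∈ T, b.a i := by
  have h1 : ∀ i ∈ T, b'.a i ≤ (if i < N then 1 else 0) + b.a i := by
    intro i _
    split_ifs with hi
    · have := b'.le_one i; have := b.nonneg i; linarith
    · rw [zero_add]; exact h i (not_lt.1 hi)
  refine (Finset.sum_le_sum h1).trans ?_
  rw [Finset.sum_add_distrib]
  gcongr
  rw [← Finset.sum_filter]
  simp only [Finset.sum_const, nsmul_eq_mul, mul_one]
  have : (T.filter (· < N)).card ≤ N := by
    calc (T.filter (· < N)).card ≤ (Finset.range N).card :=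
          Finset.card_le_card fun i hi => Finset.mem_range.2 (Finset.mem_filter.1 hi).2
      _ = N := Finset.card_range N
  exact_mod_cast this

theorem Good.of_leStar {b' b : Blk F} {S : Finset ℕ} (h : LeStar b' b) (hg : Good F b.a S) :
    Good F b'.a S := by
  obtain ⟨N, hN⟩ := h
  obtain ⟨C, hC⟩ := hg
  refine ⟨N + C, fun T hT hST => ?_⟩
  have := sum_le_of_leStar hN T
  have := hC T hT hST
  linarith

/-- Descending sequences have lower bounds. -/
theorem exists_diag (b : ℕ → Blk F) (hb : ∀ k, LeStar (b (k + 1)) (b k)) :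
    ∃ c : Blk F, ∀ k, LeStar c (b k) := by
  have hb' : ∀ k m, k ≤ m → LeStar (b m) (b k) := by
    intro k m hkm
    induction m, hkm using Nat.le_induction with
    | base => exact LeStar.refl _
    | succ m _ ih => exact (hb m).trans ih
  have hN : ∀ m, ∃ N, ∀ k ≤ m, ∀ i, N ≤ i → (b m).a i ≤ (b k).a i := by
    intro m
    choose N hN using fun k : Fin (m + 1) => hb' k m (by omega)
    refine ⟨Finset.univ.sup N, fun k hk i hi => hN ⟨k, by omega⟩ i ?_⟩
    exact (Finset.le_sup (f := N) (Finset.mem_univ _)).trans hi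
  choose N hN using hN
  -- choose the blocks
  have hstep : ∀ (m p : ℕ), ∃ k, ∀ i ∈ (b m).D k, p ≤ i ∧ N m ≤ i := by
    intro m p
    refine ⟨max p (N m), fun i hi => ?_⟩
    have := (b m).ge _ i hi
    exact ⟨(le_max_left _ _).trans this, (le_max_right _ _).trans this⟩
  choose κ hκ using hstep
  -- the threshold after stage `m`
  let p : ℕ → ℕ := fun m => Nat.rec 0 (fun m q => max q (((b m).D (κ m q)).sup id + 1)) m
  have hp : ∀ m, p (m + 1) = max (p m) (((b m).D (κ m (p m))).sup id + 1) := fun m => rfl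
  have hpmono : Monotone p := monotone_nat_of_le_succ fun m => by rw [hp]; exact le_max_left _ _
  set D : ℕ → Finset ℕ := fun m => (b m).D (κ m (p m)) with hD
  have hDlo : ∀ m, ∀ i ∈ D m, p m ≤ i := fun m i hi => (hκ m (p m) i hi).1
  have hDN : ∀ m, ∀ i ∈ D m, N m ≤ i := fun m i hi => (hκ m (p m) i hi).2
  have hDhi : ∀ m, ∀ i ∈ D m, i < p (m + 1) := by
    intro m i hi
    rw [hp]
    have : i ≤ ((b m).D (κ m (p m))).sup id := Finset.le_sup (f := id) hi
    omega
  have hdisj : ∀ m m' i, i ∈ D m → i ∈ D m' → m = m' := by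
    intro m m' i h1 h2
    by_contra hne
    rcases lt_or_gt_of_ne hne with h | h
    · have := hDhi m i h1; have := hDlo m' i h2; have := hpmono (Nat.succ_le_of_lt h)
      simp only [Nat.succ_eq_add_one] at this; omega
    · have := hDhi m' i h2; have := hDlo m i h1; have := hpmono (Nat.succ_le_of_lt h)
      simp only [Nat.succ_eq_add_one] at this; omega
  classical
  let a : ℕ → ℝ := fun i => if h : ∃ m, i ∈ D m then (b h.choose).a i else 0
  have ha : ∀ m, ∀ i ∈ D m, a i = (b m).a i := by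
    intro m i hi
    have h : ∃ m, i ∈ D m := ⟨m, hi⟩
    simp only [a]
    rw [dif_pos h, hdisj _ _ i h.choose_spec hi]
  refine ⟨⟨D, a, fun i => ?_, fun m => (b m).mem _, fun m => ?_, fun m i hi j hj => ?_,
    fun i hi => ?_⟩, fun k => ⟨p k, fun i hi => ?_⟩⟩
  · simp only [a]
    split_ifs
    · exact (b _).nonneg i
    · exact le_rfl
  · rw [← (b m).sum_one (κ m (p m))]
    exact Finset.sum_congr rfl fun i hi => ha m i hi
  · have := hDhi m i hi; have := hDlo (m + 1) j hj; omega
  · simp only [a]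
    rw [dif_neg]
    rintro ⟨m, hm⟩
    exact hi m hm
  · change a i ≤ (b k).a i
    by_cases h : ∃ m, i ∈ D m
    · obtain ⟨m, hm⟩ := h
      rw [ha m i hm]
      have hkm : k ≤ m := by
        by_contra hlt
        push Not at hlt
        have h1 := hDhi m i hm
        have h2 := hpmono (Nat.succ_le_of_lt hlt)
        simp only [Nat.succ_eq_add_one] at h2
        omega
      exact hN m k hkm i (hDN m i hm)
    · simp only [a]
      rw [dif_neg h]
      exact (b k).nonneg i

/-- Hereditarily bad. -/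
def HB (b : Blk F) (S : Finset ℕ) : Prop := ∀ b' : Blk F, LeStar b' b → ¬ Good F b'.a S

theorem exists_decided (b₀ : Blk F) : ∃ b : Blk F, LeStar b b₀ ∧
    ∀ S, Good F b.a S ∨ HB b S := by
  classical
  let S : ℕ → Finset ℕ := fun n => (Encodable.decode n : Option (Finset ℕ)).getD ∅
  have hS : ∀ T : Finset ℕ, ∃ n, S n = T := fun T => ⟨Encodable.encode T, by simp [S]⟩
  have hstep : ∀ (k : ℕ) (b : Blk F), ∃ b' : Blk F, LeStar b' b ∧
      (Good F b'.a (S k) ∨ HB b' (S k)) := by
    intro k b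
    by_cases h : ∃ b' : Blk F, LeStar b' b ∧ Good F b'.a (S k)
    · obtain ⟨b', h1, h2⟩ := h
      exact ⟨b', h1, Or.inl h2⟩
    · push Not at h
      exact ⟨b, LeStar.refl b, Or.inr fun b' hb' => h b' hb'⟩
  choose nx hnx1 hnx2 using hstep
  let b : ℕ → Blk F := fun n => Nat.rec b₀ nx n
  have hb : ∀ k, b (k + 1) = nx k (b k) := fun k => rfl
  obtain ⟨c, hc⟩ := exists_diag b fun k => by rw [hb]; exact hnx1 k (b k)
  refine ⟨c, hc 0, fun T => ?_⟩
  obtain ⟨n, rfl⟩ := hS T
  rcases hnx2 n (b n) with h | h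
  · left
    rw [← hb] at h
    exact h.of_leStar (hc (n + 1))
  · right
    rw [← hb] at h
    exact fun b' hb' => h b' (hb'.trans (hc (n + 1)))

/-- The chain argument: there is a terminal hereditarily bad set. -/
theorem exists_terminal (hF : ∀ A ∈ F, ∀ B ⊆ A, B ∈ F) (b : Blk F)
    (hfin : ∀ S : ℕ → Finset ℕ, (∀ k, S k ∈ F) → (∀ k, S k ⊆ S (k + 1)) →
      ∃ C : ℝ, ∀ k, ∑ i ∈ S k, b.a i ≤ C) (h0 : HB b ∅) :
    ∃ S, HB b S ∧ ∀ T, After S T → HB b (S ∪ T) → ∑ i ∈ T, b.a i ≤ 1 := by
  by_contra hcon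
  push Not at hcon
  have hmem : ∀ S, HB b S → S ∈ F := by
    intro S hS
    by_contra hSF
    refine hS b (LeStar.refl b) ⟨0, fun T _ hST => ?_⟩
    exact absurd (hF _ hST S Finset.subset_union_left) hSF
  have hstep : ∀ S : {S // HB b S}, ∃ S' : {S // HB b S}, S.1 ⊆ S'.1 ∧
      1 + ∑ i ∈ S.1, b.a i ≤ ∑ i ∈ S'.1, b.a i := by
    rintro ⟨S, hS⟩
    obtain ⟨T, hT1, hT2, hT3⟩ := hcon S hS
    refine ⟨⟨S ∪ T, hT2⟩, Finset.subset_union_left, ?_⟩
    have hd : Disjoint S T := by
      rw [Finset.disjoint_left]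
      intro i hi hi'
      exact lt_irrefl i (hT1 i hi i hi')
    simp only
    rw [Finset.sum_union hd]
    linarith
  choose nx hnx1 hnx2 using hstep
  let st : ℕ → {S // HB b S} := fun n => Nat.rec ⟨∅, h0⟩ (fun _ s => nx s) n
  have hst : ∀ n, st (n + 1) = nx (st n) := fun n => rfl
  obtain ⟨C, hC⟩ := hfin (fun k => (st k).1) (fun k => hmem _ (st k).2)
    (fun k => by rw [hst]; exact hnx1 (st k))
  have hgrow : ∀ k : ℕ, (k : ℝ) ≤ ∑ i ∈ (st k).1, b.a i := by
    intro k
    induction k with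
    | zero => simp only [Nat.cast_zero]; exact Finset.sum_nonneg fun i _ => b.nonneg i
    | succ k ih =>
      rw [hst]
      have := hnx2 (st k)
      push_cast
      linarith
  obtain ⟨k, hk⟩ := exists_nat_gt C
  have := hC k
  have := hgrow k
  linarith

/-- The construction: a terminal bad set becomes good for a smaller block system. -/
theorem make_good (hF : ∀ A ∈ F, ∀ B ⊆ A, B ∈ F) (b : Blk F) (S : Finset ℕ)
    (hdec : ∀ S, Good F b.a S ∨ HB b S) (hbad : HB b S)
    (hterm : ∀ T, After S T → HB b (S ∪ T) → ∑ i ∈ T, b.a i ≤ 1) : False := by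
  classical
  -- constants of the good sets
  have hC : ∀ R : Finset ℕ, ∃ C : ℝ, 0 ≤ C ∧ (Good F b.a R →
      ∀ T : Finset ℕ, After R T → R ∪ T ∈ F → ∑ i ∈ T, b.a i ≤ C) := by
    intro R
    by_cases h : Good F b.a R
    · obtain ⟨C, hC⟩ := h
      exact ⟨max C 0, le_max_right _ _, fun _ T h1 h2 => (hC T h1 h2).trans (le_max_left _ _)⟩
    · exact ⟨0, le_rfl, fun h' => absurd h' h⟩
  choose C hC0 hC using hC
  set B : ℕ → ℝ := fun p => p + ∑ R ∈ (Finset.range p).powerset, C R with hB
  have hB0 : ∀ p, 0 ≤ B p := fun p => by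
    have : 0 ≤ ∑ R ∈ (Finset.range p).powerset, C R := Finset.sum_nonneg fun R _ => hC0 R
    simp only [hB]; positivity
  have hBmono : Monotone B := by
    intro p q hpq
    simp only [hB]
    have h1 : ∑ R ∈ (Finset.range p).powerset, C R ≤ ∑ R ∈ (Finset.range q).powerset, C R :=
      Finset.sum_le_sum_of_subset_of_nonneg
        (Finset.powerset_mono.2 (Finset.range_mono hpq)) fun R _ _ => hC0 R
    have h2 : (p : ℝ) ≤ q := by exact_mod_cast hpq
    linarith
  -- large finite sets beyond any point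
  have hbig : ∀ (p : ℕ) (M : ℝ), ∃ T : Finset ℕ, After S T ∧ S ∪ T ∈ F ∧ (∀ t ∈ T, p ≤ t) ∧
      M < ∑ i ∈ T, b.a i := by
    intro p M
    have h1 := hbad b (LeStar.refl b)
    unfold Good at h1
    push Not at h1
    obtain ⟨T, hT1, hT2, hT3⟩ := h1 (M + p)
    refine ⟨T.filter (fun t => p ≤ t), fun s hs t ht => hT1 s hs t (Finset.mem_filter.1 ht).1,
      hF _ hT2 _ (Finset.union_subset_union_right (Finset.filter_subset _ _)),
      fun t ht => (Finset.mem_filter.1 ht).2, ?_⟩
    have h2 := Finset.sum_filter_add_sum_filter_not T (fun t => p ≤ t) b.a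
    have h3 : ∑ i ∈ T.filter (fun t => ¬ p ≤ t), b.a i ≤ p := by
      calc ∑ i ∈ T.filter (fun t => ¬ p ≤ t), b.a i ≤ ∑ i ∈ T.filter (fun t => ¬ p ≤ t), 1 :=
            Finset.sum_le_sum fun i _ => b.le_one i
        _ = ((T.filter (fun t => ¬ p ≤ t)).card : ℝ) := by simp
        _ ≤ p := by
          have : (T.filter (fun t => ¬ p ≤ t)).card ≤ (Finset.range p).card :=
            Finset.card_le_card fun i hi => Finset.mem_range.2 (not_le.1 (Finset.mem_filter.1 hi).2)
          rw [Finset.card_range] at this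
          exact_mod_cast this
    linarith
  -- the maximal mass in a window
  have hwin : ∀ (m p : ℕ), ∃ (q : ℕ) (A : Finset ℕ), p < q ∧ A ⊆ Finset.Ico p q ∧ After S A ∧
      S ∪ A ∈ F ∧ 2 ^ m * (1 + B p) < ∑ i ∈ A, b.a i ∧
      ∀ T ⊆ Finset.Ico p q, After S T → S ∪ T ∈ F → ∑ i ∈ T, b.a i ≤ ∑ i ∈ A, b.a i := by
    intro m p
    obtain ⟨T, hT1, hT2, hT3, hT4⟩ := hbig p (2 ^ m * (1 + B p))
    set q := max (p + 1) (T.sup id + 1) with hq
    have hTq : T ⊆ Finset.Ico p q := by
      intro t ht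
      rw [Finset.mem_Ico]
      refine ⟨hT3 t ht, ?_⟩
      have : t ≤ T.sup id := Finset.le_sup (f := id) ht
      omega
    obtain ⟨A, hA1, hA2⟩ := Finset.exists_max_image
      ((Finset.Ico p q).powerset.filter (fun A => After S A ∧ S ∪ A ∈ F))
      (fun A => ∑ i ∈ A, b.a i)
      ⟨T, Finset.mem_filter.2 ⟨Finset.mem_powerset.2 hTq, hT1, hT2⟩⟩
    rw [Finset.mem_filter, Finset.mem_powerset] at hA1
    refine ⟨q, A, by omega, hA1.1, hA1.2.1, hA1.2.2, ?_, fun T' h1 h2 h3 => ?_⟩
    · exact lt_of_lt_of_le hT4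
        (hA2 T (Finset.mem_filter.2 ⟨Finset.mem_powerset.2 hTq, hT1, hT2⟩))
    · exact hA2 T' (Finset.mem_filter.2 ⟨Finset.mem_powerset.2 h1, h2, h3⟩)
  choose q A hq1 hA1 hA2 hA3 hA4 hA5 using hwin
  obtain ⟨p, hp, hp0⟩ : ∃ p : ℕ → ℕ, (∀ m, p (m + 1) = q m (p m)) ∧ p 0 = S.sup id + 1 :=
    ⟨fun m => Nat.rec (S.sup id + 1) (fun m r => q m r) m, fun m => rfl, rfl⟩
  have hplt : ∀ m, p m < p (m + 1) := fun m => by rw [hp]; exact hq1 m (p m)
  have hpmono : Monotone p := monotone_nat_of_le_succ fun m => (hplt m).le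
  have hpge : ∀ m, m ≤ p m := by
    intro m
    induction m with
    | zero => exact Nat.zero_le _
    | succ m ih => have := hplt m; omega
  set D : ℕ → Finset ℕ := fun m => A m (p m) with hD
  set L : ℕ → ℝ := fun m => ∑ i ∈ D m, b.a i with hL
  have hLbig : ∀ m, 2 ^ m * (1 + B (p m)) < L m := fun m => hA4 m (p m)
  have hpow : ∀ m : ℕ, (1 : ℝ) ≤ 2 ^ m := fun m => one_le_pow₀ (by norm_num)
  have hL1 : ∀ m, 1 < L m := fun m => by
    have := hLbig m; have := hpow m; have := hB0 (p m); nlinarith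
  have hDwin : ∀ m, ∀ i ∈ D m, p m ≤ i ∧ i < p (m + 1) := by
    intro m i hi
    have := hA1 m (p m) hi
    rw [Finset.mem_Ico, ← hp] at this
    exact this
  have hdisj : ∀ m m' i, i ∈ D m → p m' ≤ i → i < p (m' + 1) → m = m' := by
    intro m m' i h1 h2 h3
    obtain ⟨h4, h5⟩ := hDwin m i h1
    by_contra hne
    rcases lt_or_gt_of_ne hne with h | h
    · have := hpmono (Nat.succ_le_of_lt h)
      simp only [Nat.succ_eq_add_one] at this; omega
    · have := hpmono (Nat.succ_le_of_lt h)
      simp only [Nat.succ_eq_add_one] at this; omega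
  let a' : ℕ → ℝ := fun i => if h : ∃ m, i ∈ D m then b.a i / L h.choose else 0
  have ha' : ∀ m, ∀ i ∈ D m, a' i = b.a i / L m := by
    intro m i hi
    have h : ∃ m, i ∈ D m := ⟨m, hi⟩
    simp only [a']
    rw [dif_pos h, hdisj _ m i h.choose_spec (hDwin m i hi).1 (hDwin m i hi).2]
  have ha'le : ∀ i, a' i ≤ b.a i := by
    intro i
    simp only [a']
    split_ifs with h
    · exact div_le_self (b.nonneg i) (hL1 _).le
    · exact b.nonneg i
  have ha'0 : ∀ i, 0 ≤ a' i := by
    intro i
    simp only [a']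
    split_ifs with h
    · exact div_nonneg (b.nonneg i) (zero_le_one.trans (hL1 _).le)
    · exact le_rfl
  let b' : Blk F := ⟨D, a', ha'0, fun m => hF _ (hA3 m (p m)) _ Finset.subset_union_right, fun m => by
      rw [Finset.sum_congr rfl (ha' m), ← Finset.sum_div]
      exact div_self (by have := hL1 m; positivity), fun m i hi j hj => by
      have := (hDwin m i hi).2; have := (hDwin (m + 1) j hj).1; omega, fun i hi => by
      simp only [a']
      rw [dif_neg]
      rintro ⟨m, hm⟩
      exact hi m hm⟩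
  refine hbad b' ⟨0, fun i _ => ha'le i⟩ ⟨3, fun T hT hST => ?_⟩
  change ∑ i ∈ T, a' i ≤ 3
  -- the mass in the windows
  set t : ℕ → ℝ := fun m : ℕ =>
    (∑ i ∈ T.filter (fun i : ℕ => p m ≤ i ∧ i < p (m + 1)), b.a i) / L m with ht
  have ht1 : ∀ m, t m ≤ 1 := by
    intro m
    simp only [ht]
    rw [div_le_one (by have := hL1 m; positivity)]
    refine hA5 m (p m) _ (fun i hi => ?_) (fun s hs i hi => hT s hs i (Finset.mem_filter.1 hi).1) ?_
    · rw [Finset.mem_filter] at hi
      rw [Finset.mem_Ico, ← hp]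
      exact hi.2
    · exact hF _ hST _ (Finset.union_subset_union_right (Finset.filter_subset _ _))
  have ht0 : ∀ m, 0 ≤ t m := fun m =>
    div_nonneg (Finset.sum_nonneg fun i _ => b.nonneg i) (zero_le_one.trans (hL1 m).le)
  -- once a window carries a non negligible mass, the total mass is controlled
  have hctrl : ∀ m, (1 / 2 : ℝ) ^ m < t m → ∑ i ∈ T, b.a i ≤ B (p (m + 1)) := by
    intro m hm
    set T' := T.filter (fun i => i < p (m + 1)) with hT'
    have h1 : 1 < ∑ i ∈ T', b.a i := by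
      have h2 : L m * (1 / 2 : ℝ) ^ m < ∑ i ∈ T.filter (fun i => p m ≤ i ∧ i < p (m + 1)), b.a i := by
        simp only [ht] at hm
        rw [lt_div_iff₀ (by have := hL1 m; positivity)] at hm
        linarith
      have h3 : ∑ i ∈ T.filter (fun i => p m ≤ i ∧ i < p (m + 1)), b.a i ≤ ∑ i ∈ T', b.a i :=
        Finset.sum_le_sum_of_subset_of_nonneg
          (fun i hi => by rw [hT', Finset.mem_filter] at *; exact ⟨hi.1, hi.2.2⟩) fun i _ _ => b.nonneg i
      have h4 : 1 ≤ L m * (1 / 2 : ℝ) ^ m := by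
        have h5 := hLbig m
        have h6 := hB0 (p m)
        have h7 := hpow m
        have h8 : (1 / 2 : ℝ) ^ m * 2 ^ m = 1 := by rw [← mul_pow]; norm_num
        have h9 : (0 : ℝ) < (1 / 2) ^ m := by positivity
        nlinarith
      linarith
    have hAft : After S T' := fun s hs i hi => hT s hs i (Finset.mem_filter.1 hi).1
    have hnHB : ¬ HB b (S ∪ T') := fun h => absurd (hterm T' hAft h) (not_le.2 h1)
    have hgood : Good F b.a (S ∪ T') := (hdec _).resolve_right hnHB
    have h2 := hC (S ∪ T') hgood (T.filter (fun i => ¬ i < p (m + 1))) (by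
      intro s hs i hi
      rw [Finset.mem_filter] at hi
      rcases Finset.mem_union.1 hs with hs | hs
      · exact hT s hs i hi.1
      · have := (Finset.mem_filter.1 hs).2; omega) (by
      rw [Finset.union_assoc, Finset.filter_union_filter_not_eq]
      exact hST)
    have h3 := Finset.sum_filter_add_sum_filter_not T (fun i => i < p (m + 1)) b.a
    have h4 : ∑ i ∈ T', b.a i ≤ p (m + 1) := by
      calc ∑ i ∈ T', b.a i ≤ ∑ i ∈ T', 1 := Finset.sum_le_sum fun i _ => b.le_one i
        _ = (T'.card : ℝ) := by simp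
        _ ≤ p (m + 1) := by
          have : T'.card ≤ (Finset.range (p (m + 1))).card :=
            Finset.card_le_card fun i hi => Finset.mem_range.2 (Finset.mem_filter.1 hi).2
          rw [Finset.card_range] at this
          exact_mod_cast this
    have h5 : C (S ∪ T') ≤ ∑ R ∈ (Finset.range (p (m + 1))).powerset, C R := by
      refine Finset.single_le_sum (f := C) (fun R _ => hC0 R) ?_
      rw [Finset.mem_powerset]
      intro i hi
      rw [Finset.mem_range]
      rcases Finset.mem_union.1 hi with hi | hi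
      · have h6 : i ≤ S.sup id := Finset.le_sup (f := id) hi
        have h7 := hpmono (Nat.zero_le (m + 1))
        rw [hp0] at h7
        omega
      · exact (Finset.mem_filter.1 hi).2
    simp only [hB]
    linarith
  -- all but one of the masses are small
  have hsmall : ∃ m₀ : ℕ, ∀ m, t m ≤ (1 / 2) ^ m + if m = m₀ then 1 else 0 := by
    by_cases hex : ∃ m, (1 / 2 : ℝ) ^ m < t m
    · refine ⟨Nat.find hex, fun m => ?_⟩
      have hm0 := Nat.find_spec hex
      rcases lt_trichotomy m (Nat.find hex) with h | h | h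
      · rw [if_neg h.ne, add_zero]
        exact not_lt.1 (Nat.find_min hex h)
      · rw [if_pos h]
        have := ht1 m
        have : (0 : ℝ) ≤ (1 / 2) ^ m := by positivity
        linarith
      · rw [if_neg h.ne', add_zero]
        have h1 := hctrl _ hm0
        have h2 : B (p (Nat.find hex + 1)) ≤ B (p m) := hBmono (hpmono h)
        have h3 := hLbig m
        have h4 : ∑ i ∈ T.filter (fun i => p m ≤ i ∧ i < p (m + 1)), b.a i ≤ ∑ i ∈ T, b.a i :=
          Finset.sum_le_sum_of_subset_of_nonneg (Finset.filter_subset _ _) fun i _ _ => b.nonneg i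
        simp only [ht]
        rw [div_le_iff₀ (by have := hL1 m; positivity)]
        have h5 : (1 / 2 : ℝ) ^ m * 2 ^ m = 1 := by rw [← mul_pow]; norm_num
        have h6 : (0 : ℝ) < (1 / 2) ^ m := by positivity
        have h7 := hB0 (p m)
        nlinarith
    · push Not at hex
      refine ⟨0, fun m => ?_⟩
      have := hex m
      split_ifs <;> linarith
  obtain ⟨m₀, hm₀⟩ := hsmall
  -- the sum over `T`
  obtain ⟨M, hM⟩ : ∃ M, ∀ i ∈ T, i < p M :=
    ⟨T.sup id + 1, fun i hi => by
      have h1 : i ≤ T.sup id := Finset.le_sup (f := id) hi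
      have h2 := hpge (T.sup id + 1)
      omega⟩
  have hsum : ∑ i ∈ T, a' i ≤ ∑ m ∈ Finset.range M, t m := by
    have h1 : ∀ i ∈ T, a' i ≤ ∑ m ∈ Finset.range M,
        if p m ≤ i ∧ i < p (m + 1) then b.a i / L m else 0 := by
      intro i hi
      by_cases h : ∃ m, i ∈ D m
      · obtain ⟨m, hm⟩ := h
        rw [ha' m i hm]
        have hmM : m < M := by
          by_contra hlt
          push Not at hlt
          have := hpmono hlt
          have := hM i hi
          have := (hDwin m i hm).1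
          omega
        have h2 : (if p m ≤ i ∧ i < p (m + 1) then b.a i / L m else 0) = b.a i / L m :=
          if_pos (hDwin m i hm)
        rw [← h2]
        refine Finset.single_le_sum
          (f := fun m => if p m ≤ i ∧ i < p (m + 1) then b.a i / L m else 0) (fun m _ => ?_)
          (Finset.mem_range.2 hmM)
        split_ifs
        · exact div_nonneg (b.nonneg i) (zero_le_one.trans (hL1 _).le)
        · exact le_rfl
      · have h2 : a' i = 0 := by simp only [a']; rw [dif_neg h]
        rw [h2]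
        refine Finset.sum_nonneg fun m _ => ?_
        split_ifs
        · exact div_nonneg (b.nonneg i) (zero_le_one.trans (hL1 _).le)
        · exact le_rfl
    refine (Finset.sum_le_sum h1).trans (le_of_eq ?_)
    rw [Finset.sum_comm]
    refine Finset.sum_congr rfl fun m _ => ?_
    simp only [ht]
    rw [← Finset.sum_filter, Finset.sum_div]
  refine hsum.trans ((Finset.sum_le_sum fun m _ => hm₀ m).trans ?_)
  rw [Finset.sum_add_distrib]
  have h1 : ∑ i ∈ Finset.range M, ((1 : ℝ) / 2) ^ i ≤ 2 :=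
    (summable_geometric_two.sum_le_tsum _ fun _ _ => by positivity).trans tsum_geometric_two.le
  have h2 : ∑ m ∈ Finset.range M, (if m = m₀ then (1 : ℝ) else 0) ≤ 1 := by
    rw [Finset.sum_ite_eq']
    split_ifs <;> norm_num
  linarith

/-- **Combinatorial theorem.** If a hereditary family carries a block system whose profile has
bounded sums along every chain, then it carries a block system with uniformly bounded sums. -/
theorem core (hF : ∀ A ∈ F, ∀ B ⊆ A, B ∈ F) (b : Blk F)
    (hfin : ∀ S : ℕ → Finset ℕ, (∀ k, S k ∈ F) → (∀ k, S k ⊆ S (k + 1)) →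
      ∃ C : ℝ, ∀ k, ∑ i ∈ S k, b.a i ≤ C) :
    ∃ b' : Blk F, ∃ C : ℝ, ∀ T ∈ F, ∑ i ∈ T, b'.a i ≤ C := by
  obtain ⟨c, hc, hdec⟩ := exists_decided b
  rcases hdec ∅ with h | h
  · obtain ⟨C, hC⟩ := h
    exact ⟨c, C, fun T hT => hC T (fun s hs => absurd hs (Finset.notMem_empty s))
      (by rwa [Finset.empty_union])⟩
  · exfalso
    obtain ⟨S, hS1, hS2⟩ := exists_terminal hF c (by
      intro S h1 h2
      obtain ⟨C, hC⟩ := hfin S h1 h2
      obtain ⟨N, hN⟩ := hc
      refine ⟨N + C, fun k => ?_⟩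
      have := sum_le_of_leStar hN (S k)
      have := hC k
      linarith) h
    exact make_good hF c S hdec hS1 hS2

end Pool.Agent.X202.SigmaProp
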