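import Mathlib
import Pool.Agent.X202.Tools

set_option autoImplicit false
set_option linter.unusedSectionVars false

/-!
# Triangular systems of coordinates on `ℓ_∞(ι)`, `ι` well ordered
-/

open scoped ENNReal

namespace Pool.Agent.X202.Gurarii

/-- Triangular data: every index carries a finitely supported functional on the smaller ones. -/
structure Sys (ι : Type) [LinearOrder ι] where
  /-- the coefficients -/
  th : ι → ι →₀ ℝ
  lt : ∀ β, ∀ γ ∈ (th β).support, γ < β
  le_one : ∀ β, ∑ γ ∈ (th β).support, |th β γ| ≤ 1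

namespace Sys

variable {ι : Type} [LinearOrder ι] (s : Sys ι)

/-- The functional at `β`. -/
noncomputable def phi (β : ι) (x : ι → ℝ) : ℝ := ∑ γ ∈ (s.th β).support, s.th β γ * x γ

theorem phi_congr {β : ι} {x y : ι → ℝ} (h : ∀ γ < β, x γ = y γ) : s.phi β x = s.phi β y :=
  Finset.sum_congr rfl fun γ hγ => by rw [h γ (s.lt β γ hγ)]

theorem phi_add (β : ι) (x y : ι → ℝ) : s.phi β (x + y) = s.phi β x + s.phi β y := by
  unfold phi
  rw [← Finset.sum_add_distrib]
  exact Finset.sum_congr rfl fun γ _ => by rw [Pi.add_apply]; ring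

theorem phi_smul (β : ι) (c : ℝ) (x : ι → ℝ) : s.phi β (c • x) = c * s.phi β x := by
  unfold phi
  rw [Finset.mul_sum]
  exact Finset.sum_congr rfl fun γ _ => by rw [Pi.smul_apply, smul_eq_mul]; ring

theorem phi_sub (β : ι) (x y : ι → ℝ) : s.phi β (x - y) = s.phi β x - s.phi β y := by
  have h : x - y = x + (-1 : ℝ) • y := by ext; simp [sub_eq_add_neg]
  rw [h, phi_add, phi_smul]; ring

theorem abs_phi_le {β : ι} {x : ι → ℝ} {C : ℝ} (hC : 0 ≤ C) (h : ∀ γ < β, |x γ| ≤ C) :
    |s.phi β x| ≤ C := by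
  calc |s.phi β x| ≤ ∑ γ ∈ (s.th β).support, |s.th β γ * x γ| := Finset.abs_sum_le_sum_abs _ _
    _ ≤ ∑ γ ∈ (s.th β).support, |s.th β γ| * C := by
        refine Finset.sum_le_sum fun γ hγ => ?_
        rw [abs_mul]
        exact mul_le_mul_of_nonneg_left (h γ (s.lt β γ hγ)) (abs_nonneg _)
    _ = (∑ γ ∈ (s.th β).support, |s.th β γ|) * C := by rw [Finset.sum_mul]
    _ ≤ 1 * C := mul_le_mul_of_nonneg_right (s.le_one β) hC
    _ = C := one_mul C

variable [WellFoundedLT ι]

open Classical in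
/-- Keep the coordinates in `A` and recompute the others. -/
noncomputable def R (A : Set ι) (x : ι → ℝ) : ι → ℝ :=
  WellFounded.fix (wellFounded_lt (α := ι)) fun β f =>
    if β ∈ A then x β
    else ∑ γ ∈ (s.th β).support.attach, s.th β γ * f γ.1 (s.lt β γ.1 γ.2)

open Classical in
theorem R_eq (A : Set ι) (x : ι → ℝ) (β : ι) :
    s.R A x β = if β ∈ A then x β else s.phi β (s.R A x) := by
  unfold R
  rw [WellFounded.fix_eq]
  split_ifs with h
  · rfl
  · unfold phi
    exact Finset.sum_attach (s.th β).support (fun γ => s.th β γ * _)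

theorem R_mem {A : Set ι} {x : ι → ℝ} {β : ι} (h : β ∈ A) : s.R A x β = x β := by
  rw [R_eq, if_pos h]

theorem R_notMem {A : Set ι} {x : ι → ℝ} {β : ι} (h : β ∉ A) :
    s.R A x β = s.phi β (s.R A x) := by
  rw [R_eq, if_neg h]

theorem R_unique {A : Set ι} {x y : ι → ℝ} (h1 : ∀ β ∈ A, y β = x β)
    (h2 : ∀ β, β ∉ A → y β = s.phi β y) : y = s.R A x := by
  funext β
  induction β using WellFoundedLT.induction with
  | ind β ih =>
    by_cases h : β ∈ A
    · rw [h1 β h, s.R_mem h]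
    · rw [h2 β h, s.R_notMem h]
      exact s.phi_congr ih

theorem abs_R_le {A : Set ι} {x : ι → ℝ} {C : ℝ} (hC : 0 ≤ C) (h : ∀ β ∈ A, |x β| ≤ C) (β : ι) :
    |s.R A x β| ≤ C := by
  induction β using WellFoundedLT.induction with
  | ind β ih =>
    by_cases hβ : β ∈ A
    · rw [s.R_mem hβ]; exact h β hβ
    · rw [s.R_notMem hβ]
      exact s.abs_phi_le hC ih

theorem R_add (A : Set ι) (x y : ι → ℝ) : s.R A (x + y) = s.R A x + s.R A y := by
  symm
  refine s.R_unique (fun β hβ => ?_) fun β hβ => ?_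
  · rw [Pi.add_apply, Pi.add_apply, s.R_mem hβ, s.R_mem hβ]
  · rw [s.phi_add, Pi.add_apply, ← s.R_notMem hβ, ← s.R_notMem hβ]

theorem R_smul (A : Set ι) (c : ℝ) (x : ι → ℝ) : s.R A (c • x) = c • s.R A x := by
  symm
  refine s.R_unique (fun β hβ => ?_) fun β hβ => ?_
  · rw [Pi.smul_apply, Pi.smul_apply, s.R_mem hβ]
  · rw [s.phi_smul, Pi.smul_apply, ← s.R_notMem hβ, smul_eq_mul]

end Sys

variable {ι : Type} [LinearOrder ι]

/-- the ambient space `ℓ_∞(ι)` -/
abbrev Linf (ι : Type) : Type := lp (fun _ : ι => ℝ) ∞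

theorem abs_coord_le (x : Linf ι) (β : ι) : |x β| ≤ ‖x‖ := by
  have := lp.norm_apply_le_norm (by simp) x β
  rwa [Real.norm_eq_abs] at this

/-- bounded families give elements -/
noncomputable def mk' (f : ι → ℝ) (C : ℝ) (h : ∀ i, |f i| ≤ C) : Linf ι :=
  ⟨f, memℓp_infty ⟨C, by rintro _ ⟨i, rfl⟩; exact h i⟩⟩

theorem mk'_apply (f : ι → ℝ) (C : ℝ) (h : ∀ i, |f i| ≤ C) (i : ι) : mk' f C h i = f i := rfl

theorem norm_le_of_abs {x : Linf ι} {C : ℝ} (hC : 0 ≤ C) (h : ∀ i, |x i| ≤ C) : ‖x‖ ≤ C :=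
  lp.norm_le_of_forall_le hC fun i => by rw [Real.norm_eq_abs]; exact h i

variable [WellFoundedLT ι] (s : Sys ι)

/-- The operator `R A` on `ℓ_∞(ι)`. -/
noncomputable def P (A : Set ι) : Linf ι →L[ℝ] Linf ι :=
  LinearMap.mkContinuous
    { toFun := fun x => mk' (s.R A x) ‖x‖
        (s.abs_R_le (norm_nonneg x) fun β _ => abs_coord_le x β)
      map_add' := fun x y => by
        ext i
        exact congrFun (s.R_add A x y) i
      map_smul' := fun c x => by
        ext i
        exact congrFun (s.R_smul A c x) i } 1 (fun x => by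
        rw [one_mul]
        exact norm_le_of_abs (norm_nonneg x)
          (s.abs_R_le (norm_nonneg x) fun β _ => abs_coord_le x β))

theorem P_apply (A : Set ι) (x : Linf ι) (β : ι) : P s A x β = s.R A x β := rfl

theorem norm_P_apply_le (A : Set ι) (x : Linf ι) {C : ℝ} (hC : 0 ≤ C) (h : ∀ β ∈ A, |x β| ≤ C) :
    ‖P s A x‖ ≤ C :=
  norm_le_of_abs hC fun β => by rw [P_apply]; exact s.abs_R_le hC h β

theorem norm_P_le (A : Set ι) (x : Linf ι) : ‖P s A x‖ ≤ ‖x‖ :=
  norm_P_apply_le s A x (norm_nonneg x) fun β _ => abs_coord_le x β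

/-- the support of the coefficients of `x` -/
def dsupp (x : Linf ι) : Set ι := {β | x β ≠ s.phi β x}

theorem P_eq_self {A : Set ι} {x : Linf ι} (h : dsupp s x ⊆ A) : P s A x = x := by
  ext β
  rw [P_apply, ← s.R_unique (A := A) (x := x) (y := x) (fun _ _ => rfl) fun β hβ => ?_]
  by_contra hne
  exact hβ (h hne)

theorem dsupp_P (A : Set ι) (x : Linf ι) : dsupp s (P s A x) ⊆ A := by
  intro β hβ
  by_contra h
  exact hβ (s.R_notMem h)

theorem P_congr {A : Set ι} {x y : Linf ι} (h : ∀ β ∈ A, x β = y β) : P s A x = P s A y := by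
  ext β
  rw [P_apply, P_apply]
  refine congrFun (s.R_unique (fun β hβ => ?_) fun β hβ => s.R_notMem hβ) β
  rw [s.R_mem hβ, h β hβ]

theorem dsupp_P_Iio (b : ι) (x : Linf ι) : dsupp s (P s (Set.Iio b) x) ⊆ dsupp s x := by
  intro β hβ
  have hb : β ∈ Set.Iio b := dsupp_P s (Set.Iio b) x hβ
  intro h
  apply hβ
  rw [P_apply, s.R_mem hb, h]
  refine s.phi_congr fun γ hγ => ?_
  have hg : γ ∈ Set.Iio b := lt_trans hγ hb
  rw [P_apply, s.R_mem hg]

theorem coord_smul (c : ℝ) (x : Linf ι) : ((c • x : Linf ι) : ι → ℝ) = c • (x : ι → ℝ) := rfl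

theorem coord_add (x y : Linf ι) : ((x + y : Linf ι) : ι → ℝ) = (x : ι → ℝ) + (y : ι → ℝ) := rfl

/-- the algebraic span -/
noncomputable def X0 : Submodule ℝ (Linf ι) where
  carrier := {x | (dsupp s x).Finite}
  add_mem' := by
    intro x y hx hy
    refine (Set.Finite.union hx hy).subset fun β hβ => ?_
    by_contra h
    rw [Set.mem_union, not_or] at h
    have h1 : x β = s.phi β x := by by_contra h'; exact h.1 h'
    have h2 : y β = s.phi β y := by by_contra h'; exact h.2 h'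
    apply hβ
    rw [coord_add, s.phi_add, Pi.add_apply, ← h1, ← h2]
  zero_mem' := by
    have : dsupp s (0 : Linf ι) = ∅ := by
      rw [Set.eq_empty_iff_forall_notMem]
      intro β hβ
      apply hβ
      change (0 : ℝ) = s.phi β (fun _ => 0)
      unfold Sys.phi
      simp
    rw [Set.mem_ofPred_eq, this]
    exact Set.finite_empty
  smul_mem' := by
    intro c x hx
    refine Set.Finite.subset hx fun β hβ => ?_
    intro h
    apply hβ
    rw [coord_smul, s.phi_smul, Pi.smul_apply, ← h, smul_eq_mul]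

theorem mem_X0 {x : Linf ι} : x ∈ X0 s ↔ (dsupp s x).Finite := Iff.rfl

theorem P_mem_X0 {A : Set ι} (hA : A.Finite) (x : Linf ι) : P s A x ∈ X0 s :=
  hA.subset (dsupp_P s A x)

/-- The basis vectors. -/
noncomputable def e (α : ι) : Linf ι := P s {α} (mk' (fun _ => 1) 1 fun _ => by simp)

theorem e_self (α : ι) : e s α α = 1 := by
  unfold e
  rw [P_apply, s.R_mem (Set.mem_singleton α)]
  rfl

theorem e_lt {α β : ι} (h : β < α) : e s α β = 0 := by
  induction β using WellFoundedLT.induction with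
  | ind β ih =>
    unfold e at ih ⊢
    rw [P_apply, s.R_notMem (by simpa using h.ne)]
    unfold Sys.phi
    refine Finset.sum_eq_zero fun γ hγ => ?_
    have := ih γ (s.lt β γ hγ) ((s.lt β γ hγ).trans h)
    rw [P_apply] at this
    rw [this, mul_zero]

theorem dsupp_e (α : ι) : dsupp s (e s α) ⊆ {α} := dsupp_P s _ _

theorem e_mem (α : ι) : e s α ∈ X0 s := P_mem_X0 s (Set.finite_singleton α) _

theorem phi_e_self (α : ι) : s.phi α (e s α) = 0 := by
  unfold Sys.phi
  refine Finset.sum_eq_zero fun γ hγ => ?_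
  rw [e_lt s (s.lt α γ hγ), mul_zero]

/-- the coefficient functional -/
theorem dsupp_sub_smul (x : Linf ι) (α : ι) :
    dsupp s (x - (x α - s.phi α x) • e s α) ⊆ dsupp s x \ {α} := by
  intro β hβ
  have hc : ((x - (x α - s.phi α x) • e s α : Linf ι) : ι → ℝ) =
      (x : ι → ℝ) - (x α - s.phi α x) • (e s α : ι → ℝ) := rfl
  by_cases h : β = α
  · exfalso
    subst h
    apply hβ
    rw [hc, s.phi_sub, s.phi_smul, Pi.sub_apply, Pi.smul_apply, e_self, phi_e_self, smul_eq_mul]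
    ring
  · refine ⟨fun h' => hβ ?_, h⟩
    have h2 : e s α β = s.phi β (e s α) := by
      by_contra h3
      exact h (dsupp_e s α h3)
    rw [hc, s.phi_sub, s.phi_smul, Pi.sub_apply, Pi.smul_apply, h2, ← h', smul_eq_mul]

/-- `X0` is the span of the basis vectors. -/
theorem X0_eq_span : X0 s = Submodule.span ℝ (Set.range (e s)) := by
  refine le_antisymm ?_ (Submodule.span_le.2 ?_)
  · intro x hx
    rw [mem_X0] at hx
    obtain ⟨n, hn⟩ : ∃ n, (dsupp s x).ncard = n := ⟨_, rfl⟩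
    induction n using Nat.strong_induction_on generalizing x with
    | _ n ih =>
      by_cases h0 : dsupp s x = ∅
      · have h1 := P_eq_self s (A := ∅) (x := x) (by rw [h0])
        have h2 : x = 0 := by
          rw [← h1]
          have := norm_P_apply_le s ∅ x le_rfl (fun β hβ => absurd hβ (Set.notMem_empty β))
          exact norm_le_zero_iff.1 this
        rw [h2]
        exact Submodule.zero_mem _
      · obtain ⟨α, hα⟩ := Set.nonempty_iff_ne_empty.2 h0
        have h1 := dsupp_sub_smul s x α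
        have h2 : (dsupp s (x - (x α - s.phi α x) • e s α)).ncard < n := by
          rw [← hn]
          refine Set.ncard_lt_ncard ?_ hx
          refine ⟨h1.trans Set.sdiff_subset, fun h3 => ?_⟩
          exact (h1 (h3 hα)).2 rfl
        have h3 := ih _ h2 (hx.subset (h1.trans Set.sdiff_subset)) rfl
        have h4 : x = (x - (x α - s.phi α x) • e s α) + (x α - s.phi α x) • e s α := by abel
        rw [h4]
        exact Submodule.add_mem _ h3 (Submodule.smul_mem _ _ (Submodule.subset_span ⟨α, rfl⟩))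
  · rintro _ ⟨α, rfl⟩
    exact e_mem s α

/-! ### Norming families and rational coefficients -/

theorem exists_norming (F : Type) [NormedAddCommGroup F] [NormedSpace ℝ F] [FiniteDimensional ℝ F]
    {δ : ℝ} (hδ : 0 < δ) :
    ∃ (m : ℕ) (g : ℕ → F →L[ℝ] ℝ), (∀ i, ‖g i‖ ≤ 1) ∧ ∀ y, ∃ i < m, (1 - δ) * ‖y‖ ≤ |g i y| := by
  have : ProperSpace F := FiniteDimensional.proper ℝ F
  obtain ⟨t, ht1, ht2, ht3⟩ := (isCompact_sphere (0 : F) 1).finite_cover_balls hδ
  choose g hg1 hg2 using fun c : F => exists_dual_vector'' ℝ c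
  set T := ht2.toFinset with hT
  let eq := T.equivFin
  refine ⟨T.card + 1, fun i => if h : i < T.card then g (eq.symm ⟨i, h⟩) else 0, fun i => ?_,
    fun y => ?_⟩
  · simp only
    split_ifs
    · exact hg1 _
    · simp
  · by_cases hy : y = 0
    · exact ⟨0, Nat.succ_pos _, by rw [hy]; simp⟩
    · have hy' : 0 < ‖y‖ := norm_pos_iff.2 hy
      have h1 : ‖y‖⁻¹ • y ∈ Metric.sphere (0 : F) 1 := by
        rw [mem_sphere_zero_iff_norm, norm_smul, norm_inv, norm_norm]
        exact inv_mul_cancel₀ hy'.ne'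
      obtain ⟨c, hc, hc2⟩ := Set.mem_iUnion₂.1 (ht3 h1)
      have hcT : c ∈ T := ht2.mem_toFinset.2 hc
      refine ⟨(eq ⟨c, hcT⟩ : ℕ), (eq ⟨c, hcT⟩).2.trans (Nat.lt_succ_self _), ?_⟩
      simp only
      rw [dif_pos (eq ⟨c, hcT⟩).2]
      have h2 : (eq.symm ⟨(eq ⟨c, hcT⟩ : ℕ), (eq ⟨c, hcT⟩).2⟩ : F) = c := by simp
      rw [h2]
      have h3 : ‖c‖ = 1 := by
        have := ht1 hc
        rwa [mem_sphere_zero_iff_norm] at this
      have h4 : g c c = 1 := by
        have := hg2 c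
        rw [h3] at this
        simpa using this
      have h5 : |g c (‖y‖⁻¹ • y - c)| ≤ δ := by
        have h6 := (g c).le_opNorm (‖y‖⁻¹ • y - c)
        rw [Real.norm_eq_abs] at h6
        have h7 : ‖‖y‖⁻¹ • y - c‖ < δ := by
          rwa [Metric.mem_ball, dist_eq_norm] at hc2
        have h8 := hg1 c
        have h9 := norm_nonneg (‖y‖⁻¹ • y - c)
        nlinarith
      rw [map_sub, h4, map_smul, smul_eq_mul] at h5
      have h10 : 1 - δ ≤ ‖y‖⁻¹ * g c y := by
        have := (abs_le.1 h5).1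
        linarith
      have h11 : (1 - δ) * ‖y‖ ≤ g c y := by
        have := mul_le_mul_of_nonneg_right h10 hy'.le
        rw [mul_comm ‖y‖⁻¹, mul_assoc, inv_mul_cancel₀ hy'.ne', mul_one] at this
        exact this
      exact h11.trans (le_abs_self _)

theorem exists_rat_near (θ : ℝ) {η : ℝ} (hη : 0 < η) :
    ∃ q : ℚ, |(q : ℝ)| ≤ |θ| ∧ |θ - q| ≤ η := by
  rcases lt_trichotomy θ 0 with h | h | h
  · obtain ⟨q, h1, h2⟩ := exists_rat_btwn (lt_min h (by linarith : θ < θ + η))
    have h3 := h2.trans_le (min_le_left _ _)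
    have h4 := h2.trans_le (min_le_right _ _)
    refine ⟨q, ?_, ?_⟩
    · rw [abs_of_neg h3, abs_of_neg h]; linarith
    · rw [abs_le]; constructor <;> linarith
  · exact ⟨0, by rw [h]; simp, by rw [h]; simpa using hη.le⟩
  · obtain ⟨q, h1, h2⟩ := exists_rat_btwn (max_lt h (by linarith : θ - η < θ))
    have h3 := (le_max_left _ _).trans_lt h1
    have h4 := (le_max_right _ _).trans_lt h1
    refine ⟨q, ?_, ?_⟩
    · rw [abs_of_pos h3, abs_of_pos h]; linarith
    · rw [abs_le]; constructor <;> linarith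

/-- the `ℓ₁` norm of the coefficients of a functional on `ℓ_∞(S)` -/
theorem sum_abs_le_norm {S : Type} [Fintype S] [DecidableEq S] (h : StrongDual ℝ (S → ℝ)) :
    ∑ γ, |h (Pi.single γ 1)| ≤ ‖h‖ := by
  have h1 : h (fun γ => (SignType.sign (h (Pi.single γ 1)) : ℝ)) = ∑ γ, |h (Pi.single γ 1)| := by
    have h2 : (fun γ => (SignType.sign (h (Pi.single γ 1)) : ℝ)) =
        ∑ γ, (SignType.sign (h (Pi.single γ 1)) : ℝ) • (Pi.single γ (1 : ℝ) : S → ℝ) := by
      funext γ
      rw [Finset.sum_apply]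
      simp [Pi.single_apply]
    rw [h2, map_sum]
    refine Finset.sum_congr rfl fun γ _ => ?_
    rw [map_smul, smul_eq_mul, sign_mul_self]
  rw [← h1]
  refine (le_abs_self _).trans ?_
  have h3 := h.le_opNorm (fun γ => (SignType.sign (h (Pi.single γ 1)) : ℝ))
  rw [Real.norm_eq_abs] at h3
  refine h3.trans ?_
  have h4 : ‖fun γ => (SignType.sign (h (Pi.single γ 1)) : ℝ)‖ ≤ 1 := by
    rw [pi_norm_le_iff_of_nonneg zero_le_one]
    intro γ
    rw [Real.norm_eq_abs]
    rcases lt_trichotomy (h (Pi.single γ 1)) 0 with h5 | h5 | h5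
    · rw [sign_neg h5]; simp
    · rw [h5]; simp
    · rw [sign_pos h5]; simp
  exact mul_le_of_le_one_right (norm_nonneg _) h4

theorem exists_theta (S : Finset ι) {E : Type} [NormedAddCommGroup E] [NormedSpace ℝ E]
    (T : E →ₗ[ℝ] Linf ι) (hT : ∀ x, P s (S : Set ι) (T x) = T x) {δ : ℝ} (hδ : 0 < δ) (hδ1 : δ < 1)
    (hlow : ∀ x, (1 - δ) * ‖x‖ ≤ ‖T x‖) (hup : ∀ x, ‖T x‖ ≤ 2 * ‖x‖)
    (g : E →ₗ[ℝ] ℝ) (hg : ∀ x, |g x| ≤ ‖x‖) :
    ∃ q : ι →₀ ℚ, q.support ⊆ S ∧ ∑ γ ∈ q.support, |(q γ : ℝ)| ≤ 1 ∧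
      ∀ x, |g x - ∑ γ ∈ S, (q γ : ℝ) * T x γ| ≤ 2 * δ * ‖x‖ := by
  classical
  let U : E →ₗ[ℝ] (↥S → ℝ) :=
    { toFun := fun x γ => T x γ
      map_add' := fun x y => by funext γ; rw [map_add]; rfl
      map_smul' := fun c x => by funext γ; rw [map_smul]; rfl }
  have hU : ∀ x γ, U x γ = T x γ := fun x γ => rfl
  have hTU : ∀ x, ‖T x‖ ≤ ‖U x‖ := by
    intro x
    rw [← hT x]
    refine norm_P_apply_le s _ _ (norm_nonneg _) fun β hβ => ?_
    have := norm_le_pi_norm (U x) ⟨β, hβ⟩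
    rwa [Real.norm_eq_abs, hU] at this
  have hδ' : 0 < 1 - δ := by linarith
  obtain ⟨h, hh1, hh2⟩ := extend_along (𝕜 := ℝ) U g (1 - δ)⁻¹ (inv_nonneg.2 hδ'.le) (by
    intro x
    rw [Real.norm_eq_abs, inv_mul_eq_div, le_div_iff₀ hδ']
    have h1 := hg x
    have h2 := hlow x
    have h3 := hTU x
    nlinarith)
  -- the real coefficients
  set θ : ι → ℝ := fun γ => if hγ : γ ∈ S then
    (1 - δ) * h (Pi.single (⟨γ, hγ⟩ : ↥S) 1) else 0 with hθ
  have hsumU : ∀ f : ι → ℝ, ∑ γ ∈ S, f γ = ∑ γ : ↥S, f γ := by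
    intro f
    exact (Finset.sum_coe_sort S f).symm
  have hθ' : ∀ γ : ↥S, θ γ = (1 - δ) * h (Pi.single γ 1) := by
    intro γ
    simp only [hθ]
    rw [dif_pos γ.2]
  have hθ1 : ∑ γ ∈ S, |θ γ| ≤ 1 := by
    rw [hsumU fun γ => |θ γ|]
    have h1 : ∀ γ : ↥S, |θ γ| = (1 - δ) * |h (Pi.single γ 1)| := by
      intro γ
      rw [hθ', abs_mul, abs_of_pos hδ']
    rw [Finset.sum_congr rfl fun γ _ => h1 γ, ← Finset.mul_sum]
    have h2 := sum_abs_le_norm h
    calc (1 - δ) * ∑ γ, |h (Pi.single γ 1)| ≤ (1 - δ) * (1 - δ)⁻¹ :=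
          mul_le_mul_of_nonneg_left (h2.trans hh1) hδ'.le
      _ = 1 := mul_inv_cancel₀ hδ'.ne'
  have hθ2 : ∀ x, ∑ γ ∈ S, θ γ * T x γ = (1 - δ) * g x := by
    intro x
    rw [hsumU fun γ => θ γ * T x γ, ← hh2 x]
    have h1 : U x = ∑ γ, U x γ • (Pi.single γ (1 : ℝ) : ↥S → ℝ) := by
      funext γ
      rw [Finset.sum_apply]
      simp [Pi.single_apply]
    rw [h1, map_sum, Finset.mul_sum]
    refine Finset.sum_congr rfl fun γ _ => ?_
    rw [map_smul, smul_eq_mul, hθ', hU]
    ring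
  -- rational approximation
  have hη : 0 < δ / (2 * (S.card + 1)) := by positivity
  choose q hq1 hq2 using fun γ : ι => exists_rat_near (θ γ) hη
  refine ⟨Finsupp.onFinset S (fun γ => if γ ∈ S then q γ else 0) (fun γ hγ => ?_), ?_, ?_, ?_⟩
  · by_contra hn
    exact hγ (if_neg hn)
  · exact Finsupp.support_onFinset_subset
  · refine (Finset.sum_le_sum_of_subset_of_nonneg Finsupp.support_onFinset_subset
      fun γ _ _ => abs_nonneg _).trans (le_trans (Finset.sum_le_sum fun γ hγ => ?_) hθ1)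
    rw [Finsupp.onFinset_apply, if_pos hγ]
    exact hq1 γ
  · intro x
    have h1 : ∑ γ ∈ S, ((Finsupp.onFinset S (fun γ => if γ ∈ S then q γ else 0) (fun γ hγ => by
        by_contra hn
        exact hγ (if_neg hn)) γ : ℚ) : ℝ) * T x γ = ∑ γ ∈ S, (q γ : ℝ) * T x γ := by
      refine Finset.sum_congr rfl fun γ hγ => ?_
      rw [Finsupp.onFinset_apply, if_pos hγ]
    rw [h1]
    have h2 : g x - ∑ γ ∈ S, (q γ : ℝ) * T x γ = δ * g x + ∑ γ ∈ S, (θ γ - q γ) * T x γ := by
      have h3 : ∑ γ ∈ S, (θ γ - q γ) * T x γ = ∑ γ ∈ S, θ γ * T x γ - ∑ γ ∈ S, (q γ : ℝ) * T x γ := by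
        rw [← Finset.sum_sub_distrib]
        exact Finset.sum_congr rfl fun γ _ => by ring
      rw [h3, hθ2]; ring
    rw [h2]
    have h4 : |∑ γ ∈ S, (θ γ - q γ) * T x γ| ≤ δ * ‖x‖ := by
      calc |∑ γ ∈ S, (θ γ - q γ) * T x γ| ≤ ∑ γ ∈ S, |(θ γ - q γ) * T x γ| :=
            Finset.abs_sum_le_sum_abs _ _
        _ ≤ ∑ γ ∈ S, δ / (2 * (S.card + 1)) * (2 * ‖x‖) := by
            refine Finset.sum_le_sum fun γ _ => ?_
            rw [abs_mul]
            exact mul_le_mul (hq2 γ) ((abs_coord_le _ _).trans (hup x)) (abs_nonneg _) hη.le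
        _ = (S.card / (S.card + 1)) * (δ * ‖x‖) := by
            rw [Finset.sum_const, nsmul_eq_mul]
            field_simp
        _ ≤ 1 * (δ * ‖x‖) := by
            refine mul_le_mul_of_nonneg_right ?_ (by positivity)
            rw [div_le_one (by positivity)]
            linarith
        _ = δ * ‖x‖ := one_mul _
    have h5 := hg x
    calc |δ * g x + ∑ γ ∈ S, (θ γ - q γ) * T x γ| ≤ |δ * g x| + |∑ γ ∈ S, (θ γ - q γ) * T x γ| :=
          abs_add_le _ _
      _ ≤ δ * ‖x‖ + δ * ‖x‖ := by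
          rw [abs_mul, abs_of_pos hδ]
          exact add_le_add (mul_le_mul_of_nonneg_left h5 hδ.le) h4
      _ = 2 * δ * ‖x‖ := by ring

/-- every rational functional is used cofinally -/
def Cofinal : Prop := ∀ q : ι →₀ ℚ, ∑ γ ∈ q.support, |(q γ : ℝ)| ≤ 1 → ∀ T : Finset ι,
  ∃ β, (∀ γ ∈ T, γ < β) ∧ s.th β = q.mapRange (fun r : ℚ => (r : ℝ)) (by simp)

theorem exists_indices (hcof : Cofinal s) (q : ℕ → ι →₀ ℚ)
    (hq : ∀ n, ∑ γ ∈ (q n).support, |(q n γ : ℝ)| ≤ 1) (T : Finset ι) :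
    ∃ β : ℕ → ι, StrictMono β ∧ (∀ n, ∀ γ ∈ T, γ < β n) ∧
      ∀ n, s.th (β n) = (q n).mapRange (fun r : ℚ => (r : ℝ)) (by simp) := by
  classical
  choose f hf1 hf2 using fun (n : ℕ) (T : Finset ι) => hcof (q n) (hq n) T
  obtain ⟨β, hβ0, hβ⟩ : ∃ β : ℕ → ι, β 0 = f 0 T ∧ ∀ n, β (n + 1) = f (n + 1) (insert (β n) T) :=
    ⟨fun n => Nat.rec (f 0 T) (fun n b => f (n + 1) (insert b T)) n, rfl, fun n => rfl⟩
  refine ⟨β, strictMono_nat_of_lt_succ fun n => ?_, fun n => ?_, fun n => ?_⟩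
  · rw [hβ]; exact hf1 _ _ _ (Finset.mem_insert_self _ _)
  · cases n with
    | zero => rw [hβ0]; exact hf1 _ _
    | succ n => rw [hβ]; exact fun γ hγ => hf1 _ _ _ (Finset.mem_insert_of_mem hγ)
  · cases n with
    | zero => rw [hβ0]; exact hf2 _ _
    | succ n => rw [hβ]; exact hf2 _ _

/-- Approximation of finite dimensional maps by maps into `X0`. -/
theorem exists_approx {E : Type} [NormedAddCommGroup E] [NormedSpace ℝ E] [FiniteDimensional ℝ E]
    (e0 : E →ₗ[ℝ] Linf ι) (he : ∀ x, e0 x ∈ closure (X0 s : Set (Linf ι))) {δ : ℝ} (hδ : 0 < δ) :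
    ∃ (e' : E →ₗ[ℝ] Linf ι) (S : Finset ι), (∀ x, P s (S : Set ι) (e' x) = e' x) ∧
      ∀ x, ‖e' x - e0 x‖ ≤ δ * ‖x‖ := by
  classical
  let b := Module.finBasis ℝ E
  set K : ℝ := ∑ j, ‖LinearMap.toContinuousLinearMap (b.coord j)‖ + 1 with hK
  have hKsum : 0 ≤ ∑ j, ‖LinearMap.toContinuousLinearMap (b.coord j)‖ :=
    Finset.sum_nonneg fun _ _ => norm_nonneg _
  have hK0 : 0 < K := by rw [hK]; linarith
  have hw : ∀ j, ∃ w ∈ X0 s, ‖w - e0 (b j)‖ ≤ δ / K := by
    intro j
    obtain ⟨w, hw1, hw2⟩ := Metric.mem_closure_iff.1 (he (b j)) (δ / K) (by positivity)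
    refine ⟨w, hw1, ?_⟩
    rw [← dist_eq_norm, dist_comm]
    exact hw2.le
  choose w hw1 hw2 using hw
  have hfin : ∀ j, (dsupp s (w j)).Finite := fun j => hw1 j
  set S : Finset ι := Finset.univ.biUnion fun j => (hfin j).toFinset with hS
  refine ⟨b.constr ℝ w, S, fun x => ?_, fun x => ?_⟩
  · have h1 : (P s (S : Set ι) : Linf ι →ₗ[ℝ] Linf ι) ∘ₗ (b.constr ℝ w) = b.constr ℝ w := by
      refine b.ext fun j => ?_
      rw [LinearMap.comp_apply, Module.Basis.constr_basis]
      refine P_eq_self s fun β hβ => ?_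
      rw [Finset.mem_coe, hS, Finset.mem_biUnion]
      exact ⟨j, Finset.mem_univ _, (hfin j).mem_toFinset.2 hβ⟩
    exact LinearMap.congr_fun h1 x
  · have h1 : b.constr ℝ w x - e0 x = ∑ j, b.coord j x • (w j - e0 (b j)) := by
      conv_lhs => rw [← b.sum_repr x]
      rw [map_sum, map_sum, ← Finset.sum_sub_distrib]
      refine Finset.sum_congr rfl fun j _ => ?_
      rw [map_smul, map_smul, Module.Basis.constr_basis, ← smul_sub, Module.Basis.coord_apply]
    rw [h1]
    calc ‖∑ j, b.coord j x • (w j - e0 (b j))‖ ≤ ∑ j, ‖b.coord j x • (w j - e0 (b j))‖ :=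
          norm_sum_le _ _
      _ ≤ ∑ j, (‖LinearMap.toContinuousLinearMap (b.coord j)‖ * ‖x‖) * (δ / K) := by
          refine Finset.sum_le_sum fun j _ => ?_
          rw [norm_smul]
          exact mul_le_mul ((LinearMap.toContinuousLinearMap (b.coord j)).le_opNorm x) (hw2 j)
            (norm_nonneg _) (by positivity)
      _ = ((∑ j, ‖LinearMap.toContinuousLinearMap (b.coord j)‖) / K) * (δ * ‖x‖) := by
          rw [← Finset.sum_mul, ← Finset.sum_mul]
          field_simp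
      _ ≤ 1 * (δ * ‖x‖) := by
          refine mul_le_mul_of_nonneg_right ?_ (by positivity)
          rw [div_le_one hK0, hK]
          linarith
      _ = δ * ‖x‖ := one_mul _

/-- A bounded family of functionals as an operator into `ℓ_∞(ι)`. -/
noncomputable def fam {F : Type} [NormedAddCommGroup F] [NormedSpace ℝ F] (g : ι → F →L[ℝ] ℝ)
    (C : ℝ) (hC : 0 ≤ C) (hg : ∀ γ, ‖g γ‖ ≤ C) : F →L[ℝ] Linf ι :=
  have hb : ∀ y γ, |g γ y| ≤ C * ‖y‖ := fun y γ => by
    have := (g γ).le_opNorm y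
    rw [Real.norm_eq_abs] at this
    exact this.trans (mul_le_mul_of_nonneg_right (hg γ) (norm_nonneg _))
  LinearMap.mkContinuous
    { toFun := fun y => mk' (fun γ => g γ y) (C * ‖y‖) (hb y)
      map_add' := fun x y => by
        ext γ
        exact map_add (g γ) x y
      map_smul' := fun c x => by
        ext γ
        exact map_smul (g γ) c x } C (fun y =>
        norm_le_of_abs (by positivity) (hb y))

theorem fam_apply {F : Type} [NormedAddCommGroup F] [NormedSpace ℝ F] (g : ι → F →L[ℝ] ℝ)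
    (C : ℝ) (hC : 0 ≤ C) (hg : ∀ γ, ‖g γ‖ ≤ C) (y : F) (γ : ι) : fam g C hC hg y γ = g γ y := rfl

theorem norm_fam_le {F : Type} [NormedAddCommGroup F] [NormedSpace ℝ F] (g : ι → F →L[ℝ] ℝ)
    (C : ℝ) (hC : 0 ≤ C) (hg : ∀ γ, ‖g γ‖ ≤ C) (y : F) : ‖fam g C hC hg y‖ ≤ C * ‖y‖ :=
  norm_le_of_abs (by positivity) fun γ => by
    rw [fam_apply]
    have := (g γ).le_opNorm y
    rw [Real.norm_eq_abs] at this
    exact this.trans (mul_le_mul_of_nonneg_right (hg γ) (norm_nonneg _))

/-- **Almost universal disposition.** -/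
theorem gurarii (hcof : Cofinal s) {ε : ℝ} (hε : 0 < ε) (F : Type) [NormedAddCommGroup F]
    [NormedSpace ℝ F] [FiniteDimensional ℝ F] (E : Submodule ℝ F) (e0 : E →ₗ[ℝ] Linf ι)
    (he : ∀ x, e0 x ∈ closure (X0 s : Set (Linf ι))) (hiso : ∀ x, ‖e0 x‖ = ‖x‖) :
    ∃ f : F →L[ℝ] Linf ι, (∀ y, f y ∈ X0 s) ∧
      (∀ y, (1 + ε)⁻¹ * ‖y‖ ≤ ‖f y‖ ∧ ‖f y‖ ≤ (1 + ε) * ‖y‖) ∧
      ∀ x : E, ‖f x - e0 x‖ ≤ ε * ‖x‖ := by
  classical
  set δ : ℝ := ε / (4 * (1 + ε)) with hδdef
  have hδ : 0 < δ := by positivity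
  have hδ4 : 4 * δ * (1 + ε) = ε := by rw [hδdef]; field_simp
  have hδε : 4 * δ ≤ ε := by nlinarith
  have hδ1 : δ < 1 := by nlinarith
  obtain ⟨e', S, hS, happ⟩ := exists_approx s e0 he hδ
  have hup : ∀ x, ‖e' x‖ ≤ (1 + δ) * ‖x‖ := by
    intro x
    have h1 : e' x = (e' x - e0 x) + e0 x := by abel
    rw [h1]
    refine (norm_add_le _ _).trans ?_
    rw [hiso]
    have := happ x
    linarith
  have hlow : ∀ x, (1 - δ) * ‖x‖ ≤ ‖e' x‖ := by
    intro x
    have h1 := norm_sub_norm_le (e0 x) (e' x)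
    rw [norm_sub_rev, hiso] at h1
    have := happ x
    linarith
  -- extension of the old coordinates
  have hG : ∀ γ, ∃ G : F →L[ℝ] ℝ, ‖G‖ ≤ 1 + δ ∧ ∀ x : E, G x = e' x γ := by
    intro γ
    let c : E →L[ℝ] ℝ := LinearMap.mkContinuous
      { toFun := fun x => e' x γ
        map_add' := fun x y => by rw [map_add]; rfl
        map_smul' := fun r x => by rw [map_smul]; rfl } (1 + δ) (fun x => by
          rw [Real.norm_eq_abs]
          exact (abs_coord_le _ _).trans (hup x))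
    obtain ⟨G, hG1, hG2⟩ := exists_extension_norm_eq E c
    refine ⟨G, ?_, fun x => hG1 x⟩
    rw [hG2]
    exact LinearMap.mkContinuous_norm_le _ (by linarith) _
  choose G hG1 hG2 using hG
  obtain ⟨m, g, hg1, hg2⟩ := exists_norming F hδ
  have hth := fun n : ℕ => exists_theta s S e' hS hδ hδ1 hlow
    (fun x => (hup x).trans (mul_le_mul_of_nonneg_right (by linarith) (norm_nonneg _)))
    ((g n : F →ₗ[ℝ] ℝ) ∘ₗ E.subtype) (fun x => by
      have := (g n).le_opNorm (x : F)
      rw [Real.norm_eq_abs] at this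
      exact this.trans (mul_le_of_le_one_left (norm_nonneg _) (hg1 n)))
  choose q hq1 hq2 hq3 using hth
  obtain ⟨β, hβ1, hβ2, hβ3⟩ := exists_indices s hcof q hq2 S
  set S' : Finset ι := S ∪ (Finset.range m).image β with hS'
  have hβS : ∀ n, β n ∉ S := fun n h => lt_irrefl _ (hβ2 n _ h)
  -- the family of coordinates
  let H : ι → F →L[ℝ] ℝ := fun γ => if γ ∈ S then G γ else
    if h : ∃ n, β n = γ then g h.choose else 0
  have hH1 : ∀ γ ∈ S, H γ = G γ := fun γ hγ => by simp only [H]; rw [if_pos hγ]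
  have hH2 : ∀ n, H (β n) = g n := fun n => by
    have h : ∃ k, β k = β n := ⟨n, rfl⟩
    simp only [H]
    rw [if_neg (hβS n), dif_pos h, hβ1.injective h.choose_spec]
  have hHn : ∀ γ, ‖H γ‖ ≤ 1 + δ := by
    intro γ
    simp only [H]
    split_ifs
    · exact hG1 γ
    · exact (hg1 _).trans (by linarith)
    · rw [norm_zero]; linarith
  let f0 : F →L[ℝ] Linf ι := fam H (1 + δ) (by linarith) hHn
  have hf0 : ∀ y γ, f0 y γ = H γ y := fun y γ => rfl
  refine ⟨(P s (S' : Set ι)).comp f0, fun y => P_mem_X0 s S'.finite_toSet _, fun y => ⟨?_, ?_⟩,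
    fun x => ?_⟩
  · -- lower bound
    obtain ⟨i, hi, hi2⟩ := hg2 y
    have h1 : β i ∈ (S' : Set ι) := by
      rw [Finset.mem_coe, hS', Finset.mem_union, Finset.mem_image]
      exact Or.inr ⟨i, Finset.mem_range.2 hi, rfl⟩
    have h2 : P s (S' : Set ι) (f0 y) (β i) = g i y := by
      rw [P_apply, s.R_mem h1, hf0, hH2]
    have h3 := abs_coord_le (P s (S' : Set ι) (f0 y)) (β i)
    rw [h2] at h3
    refine le_trans ?_ (hi2.trans h3)
    refine mul_le_mul_of_nonneg_right ?_ (norm_nonneg _)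
    rw [inv_le_iff_one_le_mul₀ (by linarith)]
    nlinarith
  · -- upper bound
    refine (norm_P_le s _ _).trans ((norm_fam_le H (1 + δ) (by linarith) hHn y).trans ?_)
    exact mul_le_mul_of_nonneg_right (by linarith) (norm_nonneg _)
  · -- closeness
    have h1 : P s (S' : Set ι) (e' x) = e' x := by
      refine P_eq_self s fun γ hγ => ?_
      have h2 : γ ∈ (S : Set ι) := by
        rw [← hS x] at hγ
        exact dsupp_P s _ _ hγ
      rw [Finset.mem_coe, hS', Finset.mem_union]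
      exact Or.inl h2
    have h2 : ‖P s (S' : Set ι) (f0 x) - e' x‖ ≤ 2 * δ * ‖x‖ := by
      conv_lhs => rw [← h1]
      rw [← map_sub]
      refine norm_P_apply_le s _ _ (by positivity) fun γ hγ => ?_
      have h3 : (f0 (x : F) - e' x : Linf ι) γ = H γ x - e' x γ := rfl
      rw [h3]
      rw [Finset.mem_coe, hS', Finset.mem_union, Finset.mem_image] at hγ
      rcases hγ with hγ | ⟨n, _, rfl⟩
      · rw [hH1 γ hγ, hG2, sub_self, abs_zero]
        positivity
      · rw [hH2]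
        have h4 : e' x (β n) = ∑ γ ∈ S, (q n γ : ℝ) * e' x γ := by
          have h5 : e' x (β n) = s.phi (β n) (e' x) := by
            rw [← hS x]
            exact s.R_notMem (hβS n)
          rw [h5]
          unfold Sys.phi
          rw [hβ3]
          have h6 : ((q n).mapRange (fun r : ℚ => (r : ℝ)) (by simp)).support ⊆ S :=
            (Finsupp.support_mapRange).trans (hq1 n)
          refine (Finset.sum_subset h6 fun γ _ hγ => ?_).trans ?_
          · rw [Finsupp.notMem_support_iff.1 hγ, zero_mul]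
          · exact Finset.sum_congr rfl fun γ _ => rfl
        rw [h4]
        exact hq3 n x
    have h5 : P s (S' : Set ι) (f0 x) - e0 x = (P s (S' : Set ι) (f0 x) - e' x) + (e' x - e0 x) := by
      abel
    change ‖P s (S' : Set ι) (f0 x) - e0 x‖ ≤ ε * ‖x‖
    rw [h5]
    refine (norm_add_le _ _).trans ?_
    have := happ x
    have h6 := norm_nonneg x
    nlinarith

/-! ### Initial projections -/

theorem dsupp_P_lower {A : Set ι} (hA : IsLowerSet A) (x : Linf ι) :
    dsupp s (P s A x) ⊆ dsupp s x := by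
  intro β hβ
  have hb : β ∈ A := dsupp_P s A x hβ
  intro h
  apply hβ
  rw [P_apply, s.R_mem hb, h]
  refine s.phi_congr fun γ hγ => ?_
  have hg : γ ∈ A := hA hγ.le hb
  rw [P_apply, s.R_mem hg]

theorem P_eq_of_inter_aux {A B : Set ι} (hB : IsLowerSet B) (hAB : A ⊆ B)
    (x : Linf ι) (h : ∀ γ ∈ dsupp s x, γ ∈ B → γ ∈ A) : P s A x = P s B x := by
  ext β
  rw [P_apply, P_apply]
  refine (congrFun (s.R_unique (fun γ hγ => ?_) fun γ hγ => ?_) β).symm
  · rw [s.R_mem (hAB hγ)]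
  · by_cases hγB : γ ∈ B
    · rw [s.R_mem hγB]
      have h1 : x γ = s.phi γ x := by
        by_contra h2
        exact hγ (h γ h2 hγB)
      rw [h1]
      refine s.phi_congr fun δ hδ => ?_
      have hδB : δ ∈ B := hB hδ.le hγB
      rw [s.R_mem hδB]
    · exact s.R_notMem hγB

theorem P_eq_of_inter {A B : Set ι} (hA : IsLowerSet A) (hB : IsLowerSet B)
    (x : Linf ι) (h : ∀ γ ∈ dsupp s x, (γ ∈ A ↔ γ ∈ B)) : P s A x = P s B x := by
  rcases hA.total hB with hAB | hAB
  · exact P_eq_of_inter_aux s hB hAB x fun γ hγ hγB => (h γ hγ).2 hγB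
  · exact (P_eq_of_inter_aux s hA hAB x fun γ hγ hγA => (h γ hγ).1 hγA).symm

theorem P_idem (A : Set ι) (x : Linf ι) : P s A (P s A x) = P s A x :=
  P_eq_self s (dsupp_P s A x)

theorem P_e_mem {A : Set ι} {α : ι} (h : α ∈ A) : P s A (e s α) = e s α :=
  P_eq_self s ((dsupp_e s α).trans (Set.singleton_subset_iff.2 h))

theorem P_e_notMem {A : Set ι} (hA : IsLowerSet A) {α : ι} (h : α ∉ A) : P s A (e s α) = 0 := by
  have h1 : dsupp s (P s A (e s α)) ⊆ ∅ := by
    intro γ hγ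
    have h2 := dsupp_P s A _ hγ
    have h3 := dsupp_e s α (dsupp_P_lower s hA _ hγ)
    rw [Set.mem_singleton_iff] at h3
    exact h (h3 ▸ h2)
  have h2 := P_eq_self s h1
  rw [← h2]
  exact norm_le_zero_iff.1 (norm_P_apply_le s ∅ _ le_rfl fun β hβ => absurd hβ (Set.notMem_empty β))

theorem P_univ (x : Linf ι) : P s Set.univ x = x := P_eq_self s (Set.subset_univ _)

theorem norm_e_sub_e {α β : ι} (h : α ≠ β) : 1 ≤ ‖e s α - e s β‖ := by
  have key : ∀ {α β : ι}, α < β → 1 ≤ ‖e s α - e s β‖ := by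
    intro α β h
    have h1 := abs_coord_le (e s α - e s β) α
    have h2 : (e s α - e s β : Linf ι) α = e s α α - e s β α := rfl
    rw [h2, e_self, e_lt s h, sub_zero, abs_one] at h1
    exact h1
  rcases lt_or_gt_of_ne h with h | h
  · exact key h
  · rw [norm_sub_rev]; exact key h

theorem e_ne_zero (α : ι) : e s α ≠ 0 := by
  intro h
  have h1 := e_self s α
  rw [h] at h1
  exact zero_ne_one h1

/-! ### Systems on cardinals -/

section Card

open Cardinal

theorem exists_sys (κ : Cardinal.{0}) (hκ : ℵ₀ ≤ κ) :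
    ∃ s : Sys κ.ord.ToType, Cofinal s := by
  classical
  have hι : #κ.ord.ToType = κ := by rw [mk_toType, card_ord]
  have : Infinite κ.ord.ToType := by rw [infinite_iff, hι]; exact hκ
  have h1 : #(κ.ord.ToType →₀ ℚ) = κ := by
    rw [mk_finsupp_of_infinite, hι]
    simp only [mk_eq_aleph0]
    exact max_eq_left hκ
  have h2 : #κ.ord.ToType = #((κ.ord.ToType →₀ ℚ) × κ.ord.ToType) := by
    rw [mk_prod, lift_id, lift_id, h1, hι, mul_eq_self hκ]
  obtain ⟨τ⟩ := Cardinal.eq.1 h2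
  let ok : κ.ord.ToType → Prop := fun β => (∀ γ ∈ (τ β).1.support, γ < β) ∧
    ∑ γ ∈ (τ β).1.support, |((τ β).1 γ : ℝ)| ≤ 1
  let s : Sys κ.ord.ToType :=
    { th := fun β => if ok β then (τ β).1.mapRange (fun r : ℚ => (r : ℝ)) (by simp) else 0
      lt := fun β γ hγ => by
        split_ifs at hγ with h
        · exact h.1 γ (Finsupp.support_mapRange hγ)
        · simp at hγ
      le_one := fun β => by
        split_ifs with h
        · refine le_trans (Finset.sum_le_sum_of_subset_of_nonneg Finsupp.support_mapRange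
            fun _ _ _ => abs_nonneg _) ?_
          exact h.2
        · simp }
  refine ⟨s, fun q hq T => ?_⟩
  -- a large fibre element
  have h3 : ∃ i, ∀ γ ∈ T ∪ q.support, γ < τ.symm (q, i) := by
    by_contra hcon
    push Not at hcon
    have hne : (T ∪ q.support).Nonempty := by
      obtain ⟨i⟩ : Nonempty κ.ord.ToType := inferInstance
      obtain ⟨γ, hγ, _⟩ := hcon i
      exact ⟨γ, hγ⟩
    set b := (T ∪ q.support).max' hne with hb
    have h4 : ∀ i, τ.symm (q, i) ∈ Set.Iic b := by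
      intro i
      obtain ⟨γ, hγ, hγ2⟩ := hcon i
      exact hγ2.trans (Finset.le_max' _ _ hγ)
    have h5 : κ ≤ #(Set.Iic b) := by
      refine hι.symm.le.trans ?_
      exact mk_le_of_injective (f := fun i => (⟨τ.symm (q, i), h4 i⟩ : Set.Iic b))
        (fun i j hij => by
          have := congrArg Subtype.val hij
          exact (Prod.ext_iff.1 (τ.symm.injective this)).2)
    have h6 : #(Set.Iic b) < κ := by
      have h7 : (Set.Iic b : Set κ.ord.ToType) = insert b (Set.Iio b) := by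
        ext x
        simp [le_iff_eq_or_lt]
      rw [h7]
      refine (mk_insert_le).trans_lt ?_
      exact add_lt_of_lt hκ (by
        have h8 := mk_Iio_lt b (by rw [Ordinal.type_toType, hι])
        rwa [hι] at h8) (one_lt_aleph0.trans_le hκ)
    exact absurd h5 (not_le.2 h6)
  obtain ⟨i, hi⟩ := h3
  refine ⟨τ.symm (q, i), fun γ hγ => hi γ (Finset.mem_union_left _ hγ), ?_⟩
  have hok : ok (τ.symm (q, i)) := by
    simp only [ok]
    rw [Equiv.apply_symm_apply]
    exact ⟨fun γ hγ => hi γ (Finset.mem_union_right _ hγ), hq⟩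
  change (if ok (τ.symm (q, i)) then _ else _) = _
  rw [if_pos hok]
  ext γ
  simp

end Card

/-! ### The order topology -/

section Ord

variable {o : Ordinal.{0}} (s : Sys o.ToType)

/-- The initial segment below the ordinal `β`. -/
def seg (o : Ordinal.{0}) (β : Ordinal.{0}) : Set o.ToType :=
  {γ | ((Ordinal.ToType.toOrd γ : Set.Iio o) : Ordinal.{0}) < β}

theorem seg_lower (o β : Ordinal.{0}) : IsLowerSet (seg o β) := by
  intro x y hxy hx
  have h1 : ((Ordinal.ToType.toOrd y : Set.Iio o) : Ordinal.{0}) ≤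
      ((Ordinal.ToType.toOrd x : Set.Iio o) : Ordinal.{0}) :=
    (Ordinal.ToType.mk.symm.monotone hxy : _)
  exact h1.trans_lt hx

theorem seg_top (o : Ordinal.{0}) {β : Ordinal.{0}} (h : o ≤ β) : seg o β = Set.univ := by
  rw [Set.eq_univ_iff_forall]
  intro x
  have h1 : ((Ordinal.ToType.toOrd x : Set.Iio o) : Ordinal.{0}) < o := (Ordinal.ToType.toOrd x).2
  exact h1.trans_le h

theorem continuous_P_X0 {x : Linf o.ToType} (hx : x ∈ X0 s) :
    Continuous fun β : Ordinal.{0} => P s (seg o β) x := by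
  rw [continuous_iff_continuousAt]
  intro β₀
  have h1 : ∀ᶠ β in nhds β₀, ∀ γ ∈ dsupp s x,
      ((Ordinal.ToType.toOrd γ : Set.Iio o) : Ordinal.{0}) < β₀ →
      ((Ordinal.ToType.toOrd γ : Set.Iio o) : Ordinal.{0}) < β := by
    rw [Set.Finite.eventually_all hx]
    intro γ _
    by_cases h : ((Ordinal.ToType.toOrd γ : Set.Iio o) : Ordinal.{0}) < β₀
    · filter_upwards [eventually_gt_nhds h] with β hβ _ using hβ
    · exact Filter.Eventually.of_forall fun β h' => absurd h' h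
  have h2 : ∀ᶠ β in nhds β₀, β < Order.succ β₀ := eventually_lt_nhds (Order.lt_succ β₀)
  refine (continuousAt_const (y := P s (seg o β₀) x)).congr ?_
  filter_upwards [h1, h2] with β hβ1 hβ2
  refine P_eq_of_inter s (seg_lower o β₀) (seg_lower o β) x fun γ hγ => ⟨fun h => hβ1 γ hγ h, ?_⟩
  intro h
  have h3 : ((Ordinal.ToType.toOrd γ : Set.Iio o) : Ordinal.{0}) < β := h
  exact h3.trans_le (Order.lt_succ_iff.1 hβ2)

theorem continuous_P {x : Linf o.ToType} (hx : x ∈ closure (X0 s : Set (Linf o.ToType))) :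
    Continuous fun β : Ordinal.{0} => P s (seg o β) x := by
  rw [continuous_iff_continuousAt]
  intro β₀
  rw [ContinuousAt, Metric.tendsto_nhds]
  intro ε hε
  obtain ⟨y, hy1, hy2⟩ := Metric.mem_closure_iff.1 hx (ε / 3) (by positivity)
  have h1 := Metric.tendsto_nhds.1 ((continuous_P_X0 s hy1).tendsto β₀) (ε / 3) (by positivity)
  filter_upwards [h1] with β hβ
  rw [dist_eq_norm] at hβ hy2 ⊢
  have h2 : P s (seg o β) x - P s (seg o β₀) x = P s (seg o β) (x - y) +
      (P s (seg o β) y - P s (seg o β₀) y) - P s (seg o β₀) (x - y) := by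
    rw [map_sub, map_sub]; abel
  rw [h2]
  have h3 := norm_P_le s (seg o β) (x - y)
  have h4 := norm_P_le s (seg o β₀) (x - y)
  have h5 := norm_sub_le (P s (seg o β) (x - y) + (P s (seg o β) y - P s (seg o β₀) y))
    (P s (seg o β₀) (x - y))
  have h6 := norm_add_le (P s (seg o β) (x - y)) (P s (seg o β) y - P s (seg o β₀) y)
  linarith

end Ord

end Pool.Agent.X202.Gurarii
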