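import Mathlib
import Pool.Agent.X202.Ren

set_option autoImplicit false

/-!
# Renorming bidemocratic bases with quasi-greedy dual
-/

namespace Pool.Agent.X202.GenRen

open Pool.Agent.X202.Ren Filter Topology

/-- Monotone multipliers on greedy sets. -/
theorem mult {Y : Type} [NormedAddCommGroup Y] [NormedSpace ℝ Y] (f : ℕ → Y) {K : ℝ}
    (F : Finset ℕ) (c : ℕ → ℝ)
    (hqg : ∀ A ⊆ F, (∀ n ∈ A, ∀ k ∈ F, k ∉ A → |c k| ≤ |c n|) →
      ‖∑ n ∈ A, c n • f n‖ ≤ K * ‖∑ n ∈ F, c n • f n‖) (k : ℕ) :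
    ∀ (A : Finset ℕ) (t : ℕ → ℝ) (S : ℝ), A.card = k → A ⊆ F →
      (∀ n ∈ A, ∀ k ∈ F, k ∉ A → |c k| ≤ |c n|) →
      (∀ n ∈ A, 0 ≤ t n ∧ t n ≤ S) → (∀ n ∈ A, ∀ m ∈ A, |c m| ≤ |c n| → t m ≤ t n) → 0 ≤ S →
      ‖∑ n ∈ A, (t n * c n) • f n‖ ≤ K * S * ‖∑ n ∈ F, c n • f n‖ := by
  classical
  have hK : 0 ≤ K * ‖∑ n ∈ F, c n • f n‖ := by
    have := hqg ∅ (Finset.empty_subset _) (by simp)
    simpa using this
  induction k with
  | zero =>
    intro A t S hA _ _ _ _ hS
    rw [Finset.card_eq_zero.1 hA, Finset.sum_empty, norm_zero]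
    have := mul_nonneg hK hS
    nlinarith
  | succ k ih =>
    intro A t S hA hAF hgr ht hmono hS
    have hne : A.Nonempty := Finset.card_pos.1 (by omega)
    obtain ⟨n0, hn0, hmin⟩ := A.exists_min_image (fun n => |c n|) hne
    have ht0 := ht n0 hn0
    have hsplit : ∑ n ∈ A, (t n * c n) • f n = t n0 • ∑ n ∈ A, c n • f n +
        ∑ n ∈ A.erase n0, ((t n - t n0) * c n) • f n := by
      have h1 : ∑ n ∈ A.erase n0, ((t n - t n0) * c n) • f n =
          ∑ n ∈ A, ((t n - t n0) * c n) • f n := by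
        rw [← Finset.add_sum_erase A _ hn0]
        simp
      rw [h1, Finset.smul_sum, ← Finset.sum_add_distrib]
      refine Finset.sum_congr rfl fun n _ => ?_
      rw [smul_smul, ← add_smul]
      congr 1
      ring
    have h1 := hqg A hAF hgr
    have h2 := ih (A.erase n0) (fun n => t n - t n0) (S - t n0)
      (by rw [Finset.card_erase_of_mem hn0, hA]; rfl) ((Finset.erase_subset _ _).trans hAF)
      (by
        intro n hn k hk hkA
        by_cases hkn : k = n0
        · rw [hkn]; exact hmin n (Finset.mem_of_mem_erase hn)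
        · exact hgr n (Finset.mem_of_mem_erase hn) k hk
            (fun h => hkA (Finset.mem_erase.2 ⟨hkn, h⟩)))
      (by
        intro n hn
        have hnA := Finset.mem_of_mem_erase hn
        have := hmono n hnA n0 hn0 (hmin n hnA)
        have := (ht n hnA).2
        constructor <;> linarith)
      (by
        intro n hn m hm h
        have := hmono n (Finset.mem_of_mem_erase hn) m (Finset.mem_of_mem_erase hm) h
        linarith) (by linarith)
    rw [hsplit]
    refine (norm_add_le _ _).trans ?_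
    rw [norm_smul, Real.norm_eq_abs, abs_of_nonneg ht0.1]
    have h3 := mul_le_mul_of_nonneg_left h1 ht0.1
    calc t n0 * ‖∑ n ∈ A, c n • f n‖ + ‖∑ n ∈ A.erase n0, ((t n - t n0) * c n) • f n‖
        ≤ t n0 * (K * ‖∑ n ∈ F, c n • f n‖) + K * (S - t n0) * ‖∑ n ∈ F, c n • f n‖ :=
          add_le_add h3 h2
      _ = _ := by ring

/-- Truncation is bounded for quasi-greedy systems. -/
theorem trunc {Y : Type} [NormedAddCommGroup Y] [NormedSpace ℝ Y] (f : ℕ → Y) {K : ℝ}
    (F : Finset ℕ) (c : ℕ → ℝ)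
    (hqg : ∀ A ⊆ F, (∀ n ∈ A, ∀ k ∈ F, k ∉ A → |c k| ≤ |c n|) →
      ‖∑ n ∈ A, c n • f n‖ ≤ K * ‖∑ n ∈ F, c n • f n‖) {l : ℝ} (hl : 0 ≤ l) :
    ‖∑ n ∈ F, tau l (c n) • f n‖ ≤ (1 + K) * ‖∑ n ∈ F, c n • f n‖ := by
  classical
  set A := F.filter (fun n => l < |c n|) with hA
  have h1 : ∑ n ∈ F, tau l (c n) • f n = ∑ n ∈ F, c n • f n -
      ∑ n ∈ A, ((1 - l / |c n|) * c n) • f n := by
    rw [hA, Finset.sum_filter, ← Finset.sum_sub_distrib]
    refine Finset.sum_congr rfl fun n _ => ?_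
    split_ifs with h
    · rw [← sub_smul]
      congr 1
      have h0 : 0 < |c n| := lt_of_le_of_lt hl h
      have h2 : c n - (1 - l / |c n|) * c n = l * (c n / |c n|) := by
        field_simp
        ring
      rw [h2]
      unfold tau
      rcases le_total 0 (c n) with hc | hc
      · rw [abs_of_nonneg hc] at h h0 ⊢
        rw [div_self h0.ne', mul_one, min_eq_left h.le, max_eq_right (by linarith)]
      · rw [abs_of_nonpos hc] at h h0 ⊢
        rw [min_eq_right (by linarith), max_eq_left (by linarith), div_neg, div_self (by linarith)]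
        ring
    · rw [sub_zero, tau_eq_self (not_lt.1 h)]
  have h2 := mult f F c hqg A.card A (fun n => 1 - l / |c n|) 1 rfl (Finset.filter_subset _ _)
    (by
      intro n hn k hk hkA
      rw [hA, Finset.mem_filter] at hn
      have : ¬ l < |c k| := fun h => hkA (by rw [hA, Finset.mem_filter]; exact ⟨hk, h⟩)
      linarith [hn.2])
    (by
      intro n hn
      rw [hA, Finset.mem_filter] at hn
      have h0 : 0 < |c n| := lt_of_le_of_lt hl hn.2
      have h3 : l / |c n| ≤ 1 := by rw [div_le_one h0]; exact hn.2.le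
      have h4 : 0 ≤ l / |c n| := by positivity
      constructor <;> linarith)
    (by
      intro n hn m hm h
      rw [hA, Finset.mem_filter] at hn hm
      have h0 : 0 < |c m| := lt_of_le_of_lt hl hm.2
      have := div_le_div_of_nonneg_left hl h0 h
      linarith) zero_le_one
  rw [h1]
  refine (norm_sub_le _ _).trans ?_
  linarith

variable {X : Type} [NormedAddCommGroup X] [NormedSpace ℝ X] (x : ℕ → X) (f : ℕ → (X →L[ℝ] ℝ))

/-- The data of a bidemocratic basis with quasi-greedy dual. -/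
structure Good (φ : ℕ → ℝ) (C : ℝ) : Prop where
  hbi : ∀ i j, f i (x j) = if i = j then 1 else 0
  φ0 : φ 0 = 0
  φ1 : 0 < φ 1
  dnn : ∀ m, 0 ≤ φ (m + 1) - φ m
  danti : ∀ m, φ (m + 2) - φ (m + 1) ≤ φ (m + 1) - φ m
  up : ∀ (A : Finset ℕ) (ε : ℕ → ℝ), (∀ i, ε i = 1 ∨ ε i = -1) →
    ‖∑ i ∈ A, ε i • x i‖ ≤ C * φ A.card
  dual : ∀ (A : Finset ℕ) (ε : ℕ → ℝ), (∀ i, ε i = 1 ∨ ε i = -1) →
    φ A.card * ‖∑ i ∈ A, ε i • f i‖ ≤ C * A.card
  qg : ∀ (F : Finset ℕ) (c : ℕ → ℝ), ∀ A ⊆ F, (∀ n ∈ A, ∀ k ∈ F, k ∉ A → |c k| ≤ |c n|) →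
      ‖∑ n ∈ A, c n • f n‖ ≤ C * ‖∑ n ∈ F, c n • f n‖

variable {x f} {φ : ℕ → ℝ} {C : ℝ} (h : Good x f φ C)

/-- The functional of a finitely supported coefficient sequence. -/
noncomputable def Fv (f : ℕ → (X →L[ℝ] ℝ)) (g : ℕ →₀ ℝ) : X →L[ℝ] ℝ := ∑ i ∈ g.support, g i • f i

theorem Fv_eq (g : ℕ →₀ ℝ) {A : Finset ℕ} (hA : g.support ⊆ A) :
    Fv f g = ∑ i ∈ A, g i • f i :=
  Finset.sum_subset hA fun i _ hi => by rw [Finsupp.notMem_support_iff.1 hi, zero_smul]

include h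

theorem Good.C_pos : 0 < C := by
  have h1 := h.up {0} (fun _ => 1) (fun _ => Or.inl rfl)
  simp only [Finset.sum_singleton, one_smul, Finset.card_singleton] at h1
  have h2 : x 0 ≠ 0 := by
    intro h0
    have := h.hbi 0 0
    rw [h0, map_zero, if_pos rfl] at this
    exact zero_ne_one this
  have h3 : 0 < ‖x 0‖ := norm_pos_iff.2 h2
  have h4 := h.φ1
  by_contra hC
  push Not at hC
  nlinarith

theorem Good.Fv_x (g : ℕ →₀ ℝ) (j : ℕ) : Fv f g (x j) = g j := by
  unfold Fv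
  rw [sum_apply]
  have h1 : ∀ i ∈ g.support, (g i • f i) (x j) = if i = j then g i else 0 := by
    intro i _
    rw [smul_apply, h.hbi, smul_eq_mul]
    split_ifs <;> simp
  rw [Finset.sum_congr rfl h1, Finset.sum_ite_eq']
  split_ifs with hh
  · rfl
  · exact (Finsupp.notMem_support_iff.1 hh).symm

/-- The configuration. -/
noncomputable def Good.cfg : Cfg ℕ where
  φ := φ
  D := C
  G := {g | ‖Fv f g‖ ≤ 1}
  φ0 := h.φ0
  φ1 := h.φ1
  D0 := h.C_pos
  dnn := h.dnn
  danti := h.danti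
  hG := fun g hg A => by
    set ε : ℕ → ℝ := fun i => if 0 ≤ g i then (1 : ℝ) else -1 with hε
    have h1 : ∑ i ∈ A, |g i| = Fv f g (∑ i ∈ A, ε i • x i) := by
      rw [map_sum]
      refine Finset.sum_congr rfl fun i _ => ?_
      rw [map_smul, h.Fv_x, smul_eq_mul]
      simp only [hε]
      split_ifs with hh
      · rw [abs_of_nonneg hh, one_mul]
      · rw [abs_of_neg (not_le.1 hh)]; ring
    rw [h1]
    refine (le_abs_self _).trans ?_
    rw [← Real.norm_eq_abs]
    refine ((Fv f g).le_opNorm _).trans ?_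
    have h2 := h.up A ε (fun i => by
      simp only [hε]
      split_ifs
      · exact Or.inl rfl
      · exact Or.inr rfl)
    have h3 : ‖Fv f g‖ ≤ 1 := hg
    calc _ ≤ 1 * (C * φ A.card) := mul_le_mul h3 h2 (norm_nonneg _) zero_le_one
      _ = _ := one_mul _

omit h in
/-- Coordinates. -/
def coord (f : ℕ → (X →L[ℝ] ℝ)) : X →ₗ[ℝ] (ℕ → ℝ) where
  toFun := fun y i => f i y
  map_add' := fun y z => by funext i; simp
  map_smul' := fun r y => by funext i; simp

theorem Good.bound1 (g : ℕ →₀ ℝ) (hg : g ∈ h.cfg.G) (l : ℝ) (hl : 0 ≤ l) (y : X) :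
    |∑ i ∈ g.support, tau l (g i) * coord f y i| ≤ (1 + C) * ‖y‖ := by
  have h1 : ∑ i ∈ g.support, tau l (g i) * coord f y i =
      (∑ i ∈ g.support, tau l (g i) • f i) y := by
    rw [sum_apply]
    rfl
  rw [h1, ← Real.norm_eq_abs]
  refine (ContinuousLinearMap.le_opNorm _ _).trans (mul_le_mul_of_nonneg_right ?_ (norm_nonneg _))
  have h2 := GenRen.trunc f g.support g (h.qg g.support g) hl
  have h3 : ‖∑ n ∈ g.support, g n • f n‖ ≤ 1 := hg
  have := h.C_pos
  nlinarith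

theorem Good.bound2 (A : Finset ℕ) (y : X) :
    h.cfg.φ A.card * ∑ i ∈ A, |coord f y i| ≤ C * A.card * ‖y‖ := by
  set ε : ℕ → ℝ := fun i => if 0 ≤ f i y then (1 : ℝ) else -1 with hε
  have h1 : ∑ i ∈ A, |coord f y i| = (∑ i ∈ A, ε i • f i) y := by
    rw [sum_apply]
    refine Finset.sum_congr rfl fun i _ => ?_
    rw [smul_apply, smul_eq_mul]
    change |f i y| = _
    simp only [hε]
    split_ifs with hh
    · rw [abs_of_nonneg hh, one_mul]
    · rw [abs_of_neg (not_le.1 hh)]; ring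
  have h2 := h.dual A ε (fun i => by
      simp only [hε]
      split_ifs
      · exact Or.inl rfl
      · exact Or.inr rfl)
  have h3 := ContinuousLinearMap.le_opNorm (∑ i ∈ A, ε i • f i) y
  have h4 : ∑ i ∈ A, |coord f y i| ≤ ‖∑ i ∈ A, ε i • f i‖ * ‖y‖ := by
    rw [h1]
    exact (le_abs_self _).trans h3
  have h5 : 0 ≤ φ A.card := h.cfg.nonneg A.card
  calc φ A.card * ∑ i ∈ A, |coord f y i| ≤ φ A.card * (‖∑ i ∈ A, ε i • f i‖ * ‖y‖) :=
        mul_le_mul_of_nonneg_left h4 h5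
    _ = (φ A.card * ‖∑ i ∈ A, ε i • f i‖) * ‖y‖ := by ring
    _ ≤ _ := mul_le_mul_of_nonneg_right h2 (norm_nonneg _)

theorem Good.Vb (y : X) (A : Finset ℕ) (g : ℕ →₀ ℝ) (l : ℝ) (ha : h.cfg.Adm A g l) :
    h.cfg.V A g l (coord f y) ≤ (3 * C * C + (1 + C)) * ‖y‖ :=
  h.cfg.V_bound (norm_nonneg y) h.C_pos.le
    (fun g hg l hl => h.bound1 g hg l hl y) (fun A => h.bound2 A y) A g l ha

theorem Good.bd (y : X) : h.cfg.Bd (coord f y) := by
  refine ⟨(3 * C * C + (1 + C)) * ‖y‖, ?_⟩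
  rintro _ ⟨A, g, l, ha, rfl⟩
  exact h.Vb y A g l ha

/-- The new norm. -/
noncomputable def Good.newnorm : Seminorm ℝ X := h.cfg.sem (coord f) h.bd

theorem Good.newnorm_le (y : X) : h.newnorm y ≤ (3 * C * C + (1 + C)) * ‖y‖ :=
  h.cfg.N_le (by have := h.C_pos; positivity) fun A g l ha => h.Vb y A g l ha

theorem Good.le_newnorm {K : ℝ} (hK : 0 < K)
    (hS : ∀ n y, ‖∑ i ∈ Finset.range n, f i y • x i‖ ≤ K * ‖y‖)
    (hexp : ∀ y, Tendsto (fun n => ∑ i ∈ Finset.range n, f i y • x i) atTop (𝓝 y)) (y : X) :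
    (1 / K) * ‖y‖ ≤ h.newnorm y := by
  rcases eq_or_ne y 0 with h0 | h0
  · rw [h0, norm_zero, mul_zero]; exact apply_nonneg _ _
  obtain ⟨G, hG1, hG2⟩ := exists_dual_vector ℝ y (norm_ne_zero_iff.2 h0)
  have key : ∀ n, |G (∑ i ∈ Finset.range n, f i y • x i)| ≤ K * h.newnorm y := by
    intro n
    obtain ⟨g, hg⟩ : ∃ g : ℕ →₀ ℝ, ∀ i, g i = if i < n then K⁻¹ * G (x i) else 0 := by
      refine ⟨Finsupp.onFinset (Finset.range n) (fun i => if i < n then K⁻¹ * G (x i) else 0)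
        ?_, fun i => rfl⟩
      intro i hi
      rw [Finset.mem_range]
      by_contra hh
      exact hi (if_neg hh)
    have hsub : g.support ⊆ Finset.range n := by
      intro i hi
      rw [Finsupp.mem_support_iff, hg] at hi
      rw [Finset.mem_range]
      by_contra hh
      exact hi (if_neg hh)
    have hFg : ∀ v, Fv f g v = K⁻¹ * G (∑ i ∈ Finset.range n, f i v • x i) := by
      intro v
      rw [Fv_eq g hsub, sum_apply, map_sum, Finset.mul_sum]
      refine Finset.sum_congr rfl fun i hi => ?_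
      rw [smul_apply, hg, if_pos (Finset.mem_range.1 hi), map_smul, smul_eq_mul, smul_eq_mul]
      ring
    have hgG : g ∈ h.cfg.G := by
      change ‖Fv f g‖ ≤ 1
      refine ContinuousLinearMap.opNorm_le_bound _ zero_le_one fun v => ?_
      rw [hFg, norm_mul, norm_inv, Real.norm_eq_abs, abs_of_pos hK, inv_mul_le_iff₀ hK, one_mul]
      refine (G.le_opNorm _).trans ?_
      rw [hG1, one_mul]
      exact hS n v
    obtain ⟨h3, h4⟩ := h.cfg.le_V hgG (coord f y)
    have h5 := h.cfg.V_le h3 (h.bd y)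
    rw [h4] at h5
    have h6 : ∑ i ∈ g.support, g i * coord f y i = Fv f g y := by
      unfold Fv
      rw [sum_apply]
      rfl
    rw [h6, hFg, abs_mul, abs_of_pos (inv_pos.2 hK), inv_mul_le_iff₀ hK] at h5
    exact h5
  have h1 : Tendsto (fun n => |G (∑ i ∈ Finset.range n, f i y • x i)|) atTop (𝓝 |G y|) :=
    ((G.continuous.tendsto y).comp (hexp y)).abs
  have h2 := le_of_tendsto' h1 key
  rw [hG2] at h2
  have h3 : |((‖y‖ : ℝ) : ℝ)| = ‖y‖ := abs_of_nonneg (norm_nonneg _)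
  rw [one_div, inv_mul_le_iff₀ hK]
  simpa using h2

/-- Coordinates tend to zero. -/
theorem Good.coord_fin (hexp : ∀ y, Tendsto (fun n => ∑ i ∈ Finset.range n, f i y • x i) atTop (𝓝 y))
    (y : X) (t : ℝ) (ht : 0 < t) : {n | t ≤ |coord f y n|}.Finite := by
  have hC := h.C_pos
  have hφ := h.φ1
  have hx : ∀ i, φ 1 / C ≤ ‖x i‖ := by
    intro i
    have h1 := h.dual {i} (fun _ => 1) (fun _ => Or.inl rfl)
    simp only [Finset.sum_singleton, one_smul, Finset.card_singleton, Nat.cast_one, mul_one] at h1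
    have h2 := (f i).le_opNorm (x i)
    rw [h.hbi, if_pos rfl, norm_one] at h2
    rw [div_le_iff₀ hC]
    have h3 : 0 ≤ ‖x i‖ := norm_nonneg _
    calc φ 1 = φ 1 * 1 := (mul_one _).symm
      _ ≤ φ 1 * (‖f i‖ * ‖x i‖) := mul_le_mul_of_nonneg_left h2 hφ.le
      _ = (φ 1 * ‖f i‖) * ‖x i‖ := by ring
      _ ≤ C * ‖x i‖ := mul_le_mul_of_nonneg_right h1 h3
      _ = _ := mul_comm _ _
  have h1 : Tendsto (fun n => f n y • x n) atTop (𝓝 0) := by
    have h2 := ((hexp y).comp (tendsto_add_atTop_nat 1)).sub (hexp y)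
    rw [sub_self] at h2
    refine h2.congr fun n => ?_
    simp only [Function.comp_apply, Finset.sum_range_succ, add_sub_cancel_left]
  have h2 := (tendsto_zero_iff_norm_tendsto_zero.1 h1).eventually
    (gt_mem_nhds (show (0 : ℝ) < t * (φ 1 / C) by positivity))
  rw [eventually_atTop] at h2
  obtain ⟨n0, hn0⟩ := h2
  refine (Set.finite_Iio n0).subset fun n hn => ?_
  rw [Set.mem_Iio]
  by_contra hle
  push Not at hle
  have h3 := hn0 n hle
  rw [norm_smul, Real.norm_eq_abs] at h3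
  have h4 : t * (φ 1 / C) ≤ |f n y| * ‖x n‖ :=
    mul_le_mul hn (hx n) (by positivity) (abs_nonneg _)
  linarith

theorem Good.coord_abs (y : X) (n : ℕ) : |coord f y n| ≤ C / φ 1 * ‖y‖ := by
  have h1 := h.bound2 {n} y
  simp only [Finset.card_singleton, Finset.sum_singleton, Nat.cast_one, mul_one] at h1
  rw [div_mul_eq_mul_div, le_div_iff₀ h.φ1, mul_comm]
  exact h1

theorem Good.unique_coord {a : ℕ → ℝ} {y : X}
    (ha : Tendsto (fun n => ∑ i ∈ Finset.range n, a i • x i) atTop (𝓝 y)) : a = coord f y := by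
  funext j
  have h1 : Tendsto (fun n => f j (∑ i ∈ Finset.range n, a i • x i)) atTop (𝓝 (f j y)) :=
    ((f j).continuous.tendsto y).comp ha
  have h2 : Tendsto (fun n => f j (∑ i ∈ Finset.range n, a i • x i)) atTop (𝓝 (a j)) := by
    refine tendsto_const_nhds.congr' ?_
    rw [EventuallyEq, eventually_atTop]
    refine ⟨j + 1, fun n hn => ?_⟩
    rw [map_sum]
    have h3 : ∀ i ∈ Finset.range n, f j (a i • x i) = if j = i then a i else 0 := by
      intro i _
      rw [map_smul, h.hbi, smul_eq_mul]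
      split_ifs <;> simp
    rw [Finset.sum_congr rfl h3, Finset.sum_ite_eq, if_pos (Finset.mem_range.2 (by omega))]
  exact tendsto_nhds_unique h2 h1

/-- Property (A) for the new norm. -/
theorem Good.propA (hexp : ∀ y, Tendsto (fun n => ∑ i ∈ Finset.range n, f i y • x i) atTop (𝓝 y))
    {v v' : X} {a c : ℕ → ℝ}
    (ha : Tendsto (fun n => ∑ i ∈ Finset.range n, a i • x i) atTop (𝓝 v))
    (hc : Tendsto (fun n => ∑ i ∈ Finset.range n, c i • x i) atTop (𝓝 v')) (π : Equiv.Perm ℕ)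
    (hπ : ∀ n, |c (π n)| = |a n|)
    (hfix : ∀ k, 0 < |a k| → |a k| < ⨆ n, |a n| → π k = k ∧ c k = a k) :
    h.newnorm v = h.newnorm v' := by
  have h1 := h.unique_coord ha
  have h2 := h.unique_coord hc
  subst h1 h2
  refine h.cfg.propA (h.bd v) (h.bd v') π hπ ⟨C / φ 1 * ‖v‖, ?_⟩
    (fun t ht => h.coord_fin hexp v t ht) hfix
  rintro _ ⟨n, rfl⟩
  exact h.coord_abs v n

end Pool.Agent.X202.GenRen
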