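import Mathlib
import Pool.Agent.X202.GenRen

set_option autoImplicit false

/-!
# A concave fundamental function for bidemocratic systems
-/

namespace Pool.Agent.X202.GenRen

open Filter Topology

variable {X : Type} [NormedAddCommGroup X] [NormedSpace ℝ X] (x : ℕ → X)

/-- Norms of signed sums over sets of size `m`. -/
def vals (m : ℕ) : Set ℝ := {r | ∃ (A : Finset ℕ) (ε : ℕ → ℝ), A.card = m ∧
  (∀ i, ε i = 1 ∨ ε i = -1) ∧ r = ‖∑ i ∈ A, ε i • x i‖}

/-- The upper fundamental function. -/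
noncomputable def U (m : ℕ) : ℝ := sSup (vals x m)

variable {x} {B : ℝ} (hB : ∀ n, ‖x n‖ ≤ B)

theorem norm_sign {ε : ℕ → ℝ} (hε : ∀ i, ε i = 1 ∨ ε i = -1) (i : ℕ) : ‖ε i • x i‖ = ‖x i‖ := by
  rw [norm_smul]
  rcases hε i with h | h <;> rw [h] <;> simp

theorem vals_ne (m : ℕ) : (vals x m).Nonempty :=
  ⟨_, Finset.range m, fun _ => 1, Finset.card_range m, fun _ => Or.inl rfl, rfl⟩

include hB

theorem vals_bdd (m : ℕ) : BddAbove (vals x m) := by
  refine ⟨m * B, ?_⟩
  rintro _ ⟨A, ε, hA, hε, rfl⟩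
  refine (norm_sum_le _ _).trans ?_
  rw [← hA, ← nsmul_eq_mul, ← Finset.sum_const]
  exact Finset.sum_le_sum fun i _ => by rw [norm_sign hε]; exact hB i

theorem le_U {A : Finset ℕ} {ε : ℕ → ℝ} (hε : ∀ i, ε i = 1 ∨ ε i = -1) :
    ‖∑ i ∈ A, ε i • x i‖ ≤ U x A.card :=
  le_csSup (vals_bdd hB _) ⟨A, ε, rfl, hε, rfl⟩

omit hB in
theorem U_le {m : ℕ} {r : ℝ} (h : ∀ (A : Finset ℕ) (ε : ℕ → ℝ), A.card = m →
    (∀ i, ε i = 1 ∨ ε i = -1) → ‖∑ i ∈ A, ε i • x i‖ ≤ r) : U x m ≤ r := by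
  refine csSup_le (vals_ne m) ?_
  rintro _ ⟨A, ε, hA, hε, rfl⟩
  exact h A ε hA hε

omit hB in
theorem U_nonneg (m : ℕ) : 0 ≤ U x m := by
  refine Real.sSup_nonneg ?_
  rintro _ ⟨A, ε, hA, hε, rfl⟩
  exact norm_nonneg _

omit hB in
theorem U_zero : U x 0 = 0 := by
  refine le_antisymm (U_le fun A ε hA _ => ?_) (U_nonneg 0)
  rw [Finset.card_eq_zero.1 hA, Finset.sum_empty, norm_zero]

theorem U_succ (m : ℕ) : U x m ≤ U x (m + 1) := by
  classical
  refine U_le fun A ε hA hε => ?_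
  obtain ⟨j, hj⟩ := Infinite.exists_notMem_finset A
  have key : ∀ s : ℝ, s = 1 ∨ s = -1 → ‖∑ i ∈ A, ε i • x i + s • x j‖ ≤ U x (m + 1) := by
    intro s hs
    have h1 := le_U hB (A := insert j A) (ε := fun i => if i = j then s else ε i) (fun i => by
      by_cases h : i = j
      · simp only [if_pos h]; exact hs
      · simp only [if_neg h]; exact hε i)
    rw [Finset.card_insert_of_notMem hj, hA, Finset.sum_insert hj] at h1
    have h2 : ∑ i ∈ A, (if i = j then s else ε i) • x i = ∑ i ∈ A, ε i • x i := by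
      refine Finset.sum_congr rfl fun i hi => ?_
      have hne : i ≠ j := fun h => hj (h ▸ hi)
      rw [if_neg hne]
    rw [h2] at h1
    simp only [if_true] at h1
    rwa [add_comm]
  have h1 := key 1 (Or.inl rfl)
  have h2 := key (-1) (Or.inr rfl)
  have h3 : (2 : ℝ) • ∑ i ∈ A, ε i • x i = (∑ i ∈ A, ε i • x i + (1 : ℝ) • x j) +
      (∑ i ∈ A, ε i • x i + (-1 : ℝ) • x j) := by module
  have h4 : ‖(2 : ℝ) • ∑ i ∈ A, ε i • x i‖ ≤ U x (m + 1) + U x (m + 1) := by
    rw [h3]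
    exact (norm_add_le _ _).trans (add_le_add h1 h2)
  rw [norm_smul, Real.norm_eq_abs, abs_two] at h4
  linarith

theorem U_mono {m n : ℕ} (h : m ≤ n) : U x m ≤ U x n :=
  monotone_nat_of_le_succ (fun n => U_succ hB n) h

theorem U_add (a b : ℕ) : U x (a + b) ≤ U x a + U x b := by
  classical
  refine U_le fun A ε hA hε => ?_
  obtain ⟨A1, hA1, hc1⟩ := Finset.exists_subset_card_eq (s := A) (n := a) (by omega)
  have hc2 : (A \ A1).card = b := by
    rw [Finset.card_sdiff_of_subset hA1]; omega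
  rw [← Finset.sum_sdiff hA1]
  have h1 := le_U hB (A := A1) hε
  have h2 := le_U hB (A := A \ A1) hε
  rw [hc1] at h1
  rw [hc2] at h2
  exact (norm_add_le _ _).trans (by linarith)

theorem U_mul (q k : ℕ) : U x (q * k) ≤ q * U x k := by
  induction q with
  | zero => simp [U_zero]
  | succ q ih =>
    rw [Nat.succ_mul]
    refine (U_add hB _ _).trans ?_
    push_cast
    linarith

theorem U_le_mul (m k : ℕ) : U x m ≤ (1 + m / ((k : ℝ) + 1)) * U x (k + 1) := by
  have h1 : m ≤ (m / (k + 1) + 1) * (k + 1) := by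
    have := Nat.lt_div_mul_add (a := m) (b := k + 1) (by omega)
    rw [Nat.succ_mul]
    omega
  refine (U_mono hB h1).trans ((U_mul hB _ _).trans ?_)
  refine mul_le_mul_of_nonneg_right ?_ (U_nonneg _)
  have h2 : ((m / (k + 1) : ℕ) : ℝ) ≤ m / ((k : ℝ) + 1) := by
    have := Nat.cast_div_le (α := ℝ) (m := m) (n := k + 1)
    push_cast at this
    exact this
  push_cast
  linarith

omit hB in
/-- Least concave-type majorant. -/
noncomputable def psi (x : ℕ → X) (m : ℕ) : ℝ := ⨅ k : ℕ, (1 + (m : ℝ) / ((k : ℝ) + 1)) * U x (k + 1)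

omit hB in
theorem psi_bdd (m : ℕ) : BddBelow (Set.range fun k : ℕ =>
    (1 + (m : ℝ) / ((k : ℝ) + 1)) * U x (k + 1)) := by
  refine ⟨0, ?_⟩
  rintro _ ⟨k, rfl⟩
  have := U_nonneg (x := x) (k + 1)
  positivity

omit hB in
theorem psi_le (m k : ℕ) : psi x m ≤ (1 + (m : ℝ) / ((k : ℝ) + 1)) * U x (k + 1) :=
  ciInf_le (psi_bdd m) k

theorem U_le_psi (m : ℕ) : U x m ≤ psi x m := le_ciInf fun k => U_le_mul hB m k

omit hB in
theorem psi_le_two {m : ℕ} (hm : 1 ≤ m) : psi x m ≤ 2 * U x m := by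
  obtain ⟨k, rfl⟩ : ∃ k, m = k + 1 := ⟨m - 1, by omega⟩
  refine (psi_le (k + 1) k).trans (le_of_eq ?_)
  push_cast
  have : (k : ℝ) + 1 ≠ 0 := by positivity
  rw [div_self this]
  ring

omit hB in
theorem psi_mono (m : ℕ) : psi x m ≤ psi x (m + 1) := by
  refine le_ciInf fun k => (psi_le m k).trans ?_
  refine mul_le_mul_of_nonneg_right ?_ (U_nonneg _)
  push_cast
  have : (m : ℝ) / (k + 1) ≤ (m + 1) / (k + 1) := by
    apply div_le_div_of_nonneg_right _ (by positivity)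
    linarith
  linarith

omit hB in
theorem psi_concave (m : ℕ) : psi x (m + 2) + psi x m ≤ 2 * psi x (m + 1) := by
  have h1 : (psi x (m + 2) + psi x m) / 2 ≤ psi x (m + 1) := by
    refine le_ciInf fun k => ?_
    have h2 := psi_le (x := x) (m + 2) k
    have h3 := psi_le (x := x) m k
    push_cast at h2 h3 ⊢
    have h4 : (1 + ((m : ℝ) + 1) / (k + 1)) * U x (k + 1) =
        ((1 + ((m : ℝ) + 2) / (k + 1)) * U x (k + 1) + (1 + (m : ℝ) / (k + 1)) * U x (k + 1)) / 2 := by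
      field_simp
      ring
    rw [h4]
    linarith
  linarith

omit hB in
theorem psi_two : psi x 2 ≤ 2 * psi x 1 := by
  have h1 : psi x 2 / 2 ≤ psi x 1 := by
    refine le_ciInf fun k => ?_
    have h2 := psi_le (x := x) 2 k
    have h3 := U_nonneg (x := x) (k + 1)
    push_cast at h2 ⊢
    have h4 : 2 * ((1 + 1 / ((k : ℝ) + 1)) * U x (k + 1)) =
        (1 + 2 / ((k : ℝ) + 1)) * U x (k + 1) + U x (k + 1) := by ring
    linarith
  linarith

/-- A bidemocratic system with quasi-greedy dual satisfies the hypotheses of the renorming. -/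
theorem exists_good {f : ℕ → (X →L[ℝ] ℝ)} (hbi : ∀ i j, f i (x j) = if i = j then 1 else 0)
    {C : ℝ} (hC : ∀ (A A' : Finset ℕ) (ε δ : ℕ → ℝ), A.card = A'.card →
      (∀ i, ε i = 1 ∨ ε i = -1) → (∀ i, δ i = 1 ∨ δ i = -1) →
      ‖∑ i ∈ A, ε i • x i‖ * ‖∑ i ∈ A', δ i • f i‖ ≤ C * A.card) {K : ℝ}
    (hqg : ∀ (F : Finset ℕ) (c : ℕ → ℝ), ∀ A ⊆ F, (∀ n ∈ A, ∀ k ∈ F, k ∉ A → |c k| ≤ |c n|) →
      ‖∑ n ∈ A, c n • f n‖ ≤ K * ‖∑ n ∈ F, c n • f n‖) :
    ∃ (φ : ℕ → ℝ) (C' : ℝ), Good x f φ C' := by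
  classical
  set φ : ℕ → ℝ := fun m => if m = 0 then 0 else psi x m with hφ
  have hφ0 : φ 0 = 0 := by simp [hφ]
  have hφ1 : ∀ m, 1 ≤ m → φ m = psi x m := fun m hm => by
    simp only [hφ]
    rw [if_neg (by omega)]
  have hU1 : 0 < U x 1 := by
    have h1 := le_U hB (A := {0}) (ε := fun _ => 1) (fun _ => Or.inl rfl)
    simp only [Finset.sum_singleton, one_smul, Finset.card_singleton] at h1
    have h2 : x 0 ≠ 0 := by
      intro h0
      have := hbi 0 0
      rw [h0, map_zero, if_pos rfl] at this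
      exact zero_ne_one this
    exact (norm_pos_iff.2 h2).trans_le h1
  have hUφ : ∀ m, U x m ≤ φ m := by
    intro m
    rcases Nat.eq_zero_or_pos m with h0 | h0
    · rw [h0, U_zero, hφ0]
    · rw [hφ1 m h0]; exact U_le_psi hB m
  have hφnn : ∀ m, 0 ≤ φ m := fun m => (U_nonneg m).trans (hUφ m)
  refine ⟨φ, max 1 (max (2 * C) K), hbi, hφ0, hU1.trans_le (hUφ 1), fun m => ?_, fun m => ?_,
    fun A ε hε => ?_, fun A ε hε => ?_, fun F c A hA h => ?_⟩
  · rcases Nat.eq_zero_or_pos m with h0 | h0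
    · rw [h0, hφ0, sub_zero]; exact hφnn _
    · rw [hφ1 m h0, hφ1 (m + 1) (by omega)]
      have := psi_mono (x := x) m
      linarith
  · rcases Nat.eq_zero_or_pos m with h0 | h0
    · subst h0
      rw [hφ0, hφ1 _ (by omega), hφ1 _ (by omega)]
      have := psi_two (x := x)
      norm_num at this ⊢
      linarith
    · rw [hφ1 m h0, hφ1 (m + 1) (by omega), hφ1 (m + 2) (by omega)]
      have := psi_concave (x := x) m
      linarith
  · refine (le_U hB hε).trans ((hUφ _).trans ?_)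
    have h1 : (1 : ℝ) ≤ max 1 (max (2 * C) K) := le_max_left _ _
    nlinarith [hφnn A.card]
  · rcases Nat.eq_zero_or_pos A.card with h0 | h0
    · rw [h0, hφ0]
      simp
    · have h1 : φ A.card ≤ 2 * U x A.card := by rw [hφ1 _ h0]; exact psi_le_two h0
      have h2 : U x A.card * ‖∑ i ∈ A, ε i • f i‖ ≤ C * A.card := by
        rcases (norm_nonneg (∑ i ∈ A, ε i • f i)).eq_or_lt with h3 | h3
        · rw [← h3, mul_zero]
          have h4 := hC A A ε ε rfl hε hε
          rw [← h3, mul_zero] at h4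
          exact h4
        · rw [← le_div_iff₀ h3]
          refine U_le fun A' δ hA' hδ => ?_
          rw [le_div_iff₀ h3]
          have := hC A' A δ ε hA' hδ hε
          rwa [hA'] at this
      have h3 : 2 * C ≤ max 1 (max (2 * C) K) := (le_max_left _ _).trans (le_max_right _ _)
      calc φ A.card * ‖∑ i ∈ A, ε i • f i‖ ≤ 2 * U x A.card * ‖∑ i ∈ A, ε i • f i‖ :=
            mul_le_mul_of_nonneg_right h1 (norm_nonneg _)
        _ ≤ 2 * C * A.card := by linarith
        _ ≤ _ := mul_le_mul_of_nonneg_right h3 (by positivity)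
  · refine (hqg F c A hA h).trans (mul_le_mul_of_nonneg_right ?_ (norm_nonneg _))
    exact (le_max_right _ _).trans (le_max_right _ _)

end Pool.Agent.X202.GenRen
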