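import Mathlib

set_option autoImplicit false

/-!
# A space with an equivalent norm as a new normed space
-/

namespace Pool.Agent.X202.Renorm

open Filter Topology

variable {V : Type} [NormedAddCommGroup V] [NormedSpace ℝ V]

/-- An equivalent norm. -/
structure EqN (V : Type) [NormedAddCommGroup V] [NormedSpace ℝ V] where
  N : Seminorm ℝ V
  c : ℝ
  C : ℝ
  hc : 0 < c
  hC : 0 < C
  lo : ∀ v, c * ‖v‖ ≤ N v
  hi : ∀ v, N v ≤ C * ‖v‖

/-- The renormed space. -/
def Sp (_E : EqN V) : Type := V

variable (E : EqN V)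

instance : AddCommGroup (Sp E) := inferInstanceAs (AddCommGroup V)
instance : Module ℝ (Sp E) := inferInstanceAs (Module ℝ V)
instance : Norm (Sp E) := ⟨fun v => E.N (v : V)⟩

theorem norm_def (v : Sp E) : ‖v‖ = E.N (v : V) := rfl

theorem eq_zero_of (v : V) (h2 : E.N v = 0) : v = 0 := by
  have h1 := E.lo v
  rw [h2] at h1
  have h3 : ‖v‖ ≤ 0 := by
    by_contra h4
    push Not at h4
    have := mul_pos E.hc h4
    linarith
  exact norm_le_zero_iff.1 h3

theorem core : NormedSpace.Core ℝ (Sp E) where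
  norm_nonneg := fun v => apply_nonneg E.N (v : V)
  norm_smul := fun r v => map_smul_eq_mul E.N r (v : V)
  norm_triangle := fun v w => map_add_le_add E.N (v : V) (w : V)
  norm_eq_zero_iff := fun v => by
    constructor
    · intro h
      exact eq_zero_of E v h
    · intro h
      subst h
      exact map_zero E.N

noncomputable instance : NormedAddCommGroup (Sp E) := NormedAddCommGroup.ofCore (core E)
noncomputable instance : NormedSpace ℝ (Sp E) := NormedSpace.ofCore (core E)

/-- The identity as a linear equivalence. -/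
def idL : V ≃ₗ[ℝ] Sp E := LinearEquiv.refl ℝ V

theorem norm_idL (v : V) : ‖idL E v‖ = E.N v := rfl

/-- The identity as a continuous linear equivalence. -/
noncomputable def idC : V ≃L[ℝ] Sp E :=
  LinearEquiv.toContinuousLinearEquivOfBounds (idL E) E.C (E.c⁻¹) (fun v => E.hi v) (fun v => by
    rw [← div_eq_inv_mul, le_div_iff₀ E.hc, mul_comm]
    exact E.lo ((idL E).symm v))

theorem norm_idC (v : V) : ‖idC E v‖ = E.N v := rfl

instance [CompleteSpace V] : CompleteSpace (Sp E) := by
  refine Metric.complete_of_cauchySeq_tendsto fun u hu => ?_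
  have h1 : CauchySeq fun n => (idC E).symm (u n) :=
    hu.map ((idC E).symm : Sp E →L[ℝ] V).uniformContinuous
  obtain ⟨v, hv⟩ := cauchySeq_tendsto_of_complete h1
  refine ⟨idC E v, ?_⟩
  have h2 := ((idC E).continuous.tendsto v).comp hv
  refine h2.congr fun n => ?_
  simp

theorem tendsto_iff {x : ℕ → V} {v : V} :
    Tendsto (fun n => idC E (x n)) atTop (𝓝 (idC E v)) ↔ Tendsto x atTop (𝓝 v) :=
  ((idC E).toHomeomorph.isEmbedding.tendsto_nhds_iff).symm

/-- Reflexivity passes to isomorphic spaces of Hilbert spaces. -/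
theorem reflexive {H : Type} [NormedAddCommGroup H] [InnerProductSpace ℝ H] [CompleteSpace H]
    {W : Type} [NormedAddCommGroup W] [NormedSpace ℝ W] (T : H ≃L[ℝ] W) :
    Function.Surjective (NormedSpace.inclusionInDoubleDual ℝ W) := by
  intro F
  -- the functional `y ↦ F (⟪y, ·⟫ ∘ T⁻¹)`
  let A : H →L[ℝ] (W →L[ℝ] ℝ) :=
    ((ContinuousLinearMap.compL ℝ W H ℝ).flip (T.symm : W →L[ℝ] H)).comp (innerSL ℝ)
  have hA : ∀ y v, A y v = inner ℝ y (T.symm v) := fun y v => rfl
  let G : H →L[ℝ] ℝ := F.comp A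
  refine ⟨T ((InnerProductSpace.toDual ℝ H).symm G), ?_⟩
  ext φ
  rw [NormedSpace.dual_def]
  -- represent `φ ∘ T`
  set y : H := (InnerProductSpace.toDual ℝ H).symm (φ.comp (T : H →L[ℝ] W)) with hy
  have h1 : ∀ v, inner ℝ y v = φ (T v) := fun v => by
    rw [hy, InnerProductSpace.toDual_symm_apply]
    rfl
  have h2 : A y = φ := by
    ext v
    rw [hA, h1]
    simp
  have h3 : inner ℝ ((InnerProductSpace.toDual ℝ H).symm G) y = G y :=
    InnerProductSpace.toDual_symm_apply
  rw [← h1, real_inner_comm, h3]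
  change F (A y) = F φ
  rw [h2]

end Pool.Agent.X202.Renorm
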