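import Mathlib
import Pool.Agent.X202.CondBasis

set_option autoImplicit false

/-!
# Bidemocratic bases of Hilbert spaces from nilpotent matrices
-/

namespace Pool.Agent.X202.DKK

open Pool.Agent.X202.CB

/-- A matrix with bounded rows and columns mapping even indices to odd indices. -/
structure Mx where
  m : ℕ → ℕ → ℝ
  supp : ∀ Q P, m Q P ≠ 0 → Q % 2 = 1 ∧ P % 2 = 0 ∧ P < 2 * Q + 2 ∧ Q < 2 * P + 2
  row : ∀ Q N, ∑ P ∈ Finset.range N, m Q P ^ 2 ≤ 2
  col : ∀ P N, ∑ Q ∈ Finset.range N, m Q P ^ 2 ≤ 2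

variable {H : Type} [NormedAddCommGroup H] [InnerProductSpace ℝ H]

variable (X : Mx) (u : ℕ → H)

/-- Corrections. -/
noncomputable def z (P : ℕ) : H := ∑ Q ∈ Finset.range (2 * P + 2), X.m Q P • w u Q

noncomputable def z' (Q : ℕ) : H := ∑ P ∈ Finset.range (2 * Q + 2), X.m Q P • w u P

/-- The basis. -/
noncomputable def b (i : ℕ) : H := u i + ((2 : ℝ) ^ blk i)⁻¹ • z X u (blk i)

/-- The coordinate functionals. -/
noncomputable def b' (i : ℕ) : H := u i - ((2 : ℝ) ^ blk i)⁻¹ • z' X u (blk i)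

variable {u} (hu : Orthonormal ℝ u)
include hu

theorem inner_w_z (Q P : ℕ) : inner ℝ (w u Q) (z X u P) = X.m Q P := by
  unfold z
  rw [inner_sum]
  have h1 : ∀ R ∈ Finset.range (2 * P + 2), inner ℝ (w u Q) (X.m R P • w u R) =
      if Q = R then X.m R P else 0 := by
    intro R _
    rw [inner_smul_right, inner_w_w hu]
    split_ifs <;> simp
  rw [Finset.sum_congr rfl h1, Finset.sum_ite_eq]
  split_ifs with h
  · rfl
  · by_contra hne
    have := X.supp _ _ (Ne.symm hne)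
    rw [Finset.mem_range] at h
    omega

theorem inner_w_z' (P Q : ℕ) : inner ℝ (w u P) (z' X u Q) = X.m Q P := by
  unfold z'
  rw [inner_sum]
  have h1 : ∀ R ∈ Finset.range (2 * Q + 2), inner ℝ (w u P) (X.m Q R • w u R) =
      if P = R then X.m Q R else 0 := by
    intro R _
    rw [inner_smul_right, inner_w_w hu]
    split_ifs <;> simp
  rw [Finset.sum_congr rfl h1, Finset.sum_ite_eq]
  split_ifs with h
  · rfl
  · by_contra hne
    have := X.supp _ _ (Ne.symm hne)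
    rw [Finset.mem_range] at h
    omega

theorem inner_u_z (i P : ℕ) : inner ℝ (u i) (z X u P) = ((2 : ℝ) ^ blk i)⁻¹ * X.m (blk i) P := by
  unfold z
  rw [inner_sum]
  have h1 : ∀ R ∈ Finset.range (2 * P + 2), inner ℝ (u i) (X.m R P • w u R) =
      if blk i = R then X.m R P * ((2 : ℝ) ^ R)⁻¹ else 0 := by
    intro R _
    rw [inner_smul_right, inner_u_w hu]
    split_ifs <;> simp
  rw [Finset.sum_congr rfl h1, Finset.sum_ite_eq]
  split_ifs with h
  · ring
  · by_contra hne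
    have h0 : X.m (blk i) P ≠ 0 := fun h0 => hne (by rw [h0, mul_zero])
    have := X.supp _ _ h0
    rw [Finset.mem_range] at h
    omega

theorem inner_u_z' (i Q : ℕ) : inner ℝ (u i) (z' X u Q) = ((2 : ℝ) ^ blk i)⁻¹ * X.m Q (blk i) := by
  unfold z'
  rw [inner_sum]
  have h1 : ∀ R ∈ Finset.range (2 * Q + 2), inner ℝ (u i) (X.m Q R • w u R) =
      if blk i = R then X.m Q R * ((2 : ℝ) ^ R)⁻¹ else 0 := by
    intro R _
    rw [inner_smul_right, inner_u_w hu]
    split_ifs <;> simp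
  rw [Finset.sum_congr rfl h1, Finset.sum_ite_eq]
  split_ifs with h
  · ring
  · by_contra hne
    have h0 : X.m Q (blk i) ≠ 0 := fun h0 => hne (by rw [h0, mul_zero])
    have := X.supp _ _ h0
    rw [Finset.mem_range] at h
    omega

theorem inner_z'_z (Q P : ℕ) : inner ℝ (z' X u Q) (z X u P) = 0 := by
  conv_lhs => unfold z'
  rw [sum_inner]
  refine Finset.sum_eq_zero fun R _ => ?_
  rw [inner_smul_left, inner_w_z X hu]
  by_contra hne
  have h1 : X.m Q R ≠ 0 := fun h0 => hne (by rw [h0]; simp)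
  have h2 : X.m R P ≠ 0 := fun h0 => hne (by rw [h0]; simp)
  have := X.supp _ _ h1
  have := X.supp _ _ h2
  omega

theorem norm_z (P : ℕ) : ‖z X u P‖ ≤ 2 := by
  have h1 : ‖z X u P‖ ^ 2 ≤ 2 := by
    unfold z
    rw [norm_sq_sum (w_on hu) _ (fun Q => X.m Q P)]
    exact X.col P _
  nlinarith [norm_nonneg (z X u P)]

theorem norm_z' (Q : ℕ) : ‖z' X u Q‖ ≤ 2 := by
  have h1 : ‖z' X u Q‖ ^ 2 ≤ 2 := by
    unfold z'
    rw [norm_sq_sum (w_on hu) _ (fun P => X.m Q P)]
    exact X.row Q _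
  nlinarith [norm_nonneg (z' X u Q)]

/-- Biorthogonality. -/
theorem biorth (i j : ℕ) : inner ℝ (b' X u i) (b X u j) = if i = j then (1 : ℝ) else 0 := by
  unfold b' b
  rw [inner_sub_left, inner_add_right, inner_add_right, inner_smul_right, inner_smul_left,
    inner_smul_left, inner_smul_right, inner_u_z X hu, inner_z'_z X hu, real_inner_comm,
    orthonormal_iff_ite.1 hu j i, real_inner_comm, inner_u_z' X hu]
  simp only [conj_trivial, eq_comm (a := j)]
  ring

theorem norm_of {c : H} (hc : ‖c‖ ≤ 2) (i : ℕ) : ‖u i + ((2 : ℝ) ^ blk i)⁻¹ • c‖ ≤ 3 := by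
  refine (norm_add_le _ _).trans ?_
  rw [hu.1 i, norm_smul]
  have h1 : ‖((2 : ℝ) ^ blk i)⁻¹‖ ≤ 1 := by
    rw [norm_inv, Real.norm_eq_abs, abs_of_pos (by positivity)]
    exact inv_le_one_of_one_le₀ (one_le_pow₀ (by norm_num))
  nlinarith [norm_nonneg c, norm_nonneg (((2 : ℝ) ^ blk i)⁻¹)]

theorem norm_b (i : ℕ) : ‖b X u i‖ ≤ 3 := norm_of hu (norm_z X hu _) i

theorem norm_b' (i : ℕ) : ‖b' X u i‖ ≤ 3 := by
  have : b' X u i = u i + ((2 : ℝ) ^ blk i)⁻¹ • (- z' X u (blk i)) := by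
    unfold b'
    rw [smul_neg, sub_eq_add_neg]
  rw [this]
  exact norm_of hu (by rw [norm_neg]; exact norm_z' X hu _) i

/-- Upper democracy of a perturbation. -/
theorem upper_of (c : ℕ → H) (hc : ∀ P, ‖c P‖ ≤ 2) (A : Finset ℕ) (ε : ℕ → ℝ)
    (hε : ∀ i, |ε i| ≤ 1) :
    ‖∑ i ∈ A, ε i • (u i + ((2 : ℝ) ^ blk i)⁻¹ • c (blk i))‖ ≤ 7 * √A.card := by
  have h1 : ∑ i ∈ A, ε i • (u i + ((2 : ℝ) ^ blk i)⁻¹ • c (blk i)) = ∑ i ∈ A, ε i • u i +
      ∑ i ∈ A, (ε i * ((2 : ℝ) ^ blk i)⁻¹) • c (blk i) := by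
    rw [← Finset.sum_add_distrib]
    refine Finset.sum_congr rfl fun i _ => ?_
    rw [smul_add, smul_smul]
  rw [h1]
  refine (norm_add_le _ _).trans ?_
  have h2 : ‖∑ i ∈ A, ε i • u i‖ ≤ √A.card := by
    apply Real.le_sqrt_of_sq_le
    rw [norm_sq_sum hu]
    refine (Finset.sum_le_sum fun i _ => (sq_le_one_iff_abs_le_one _).2 (hε i)).trans ?_
    simp
  have h3 : ‖∑ i ∈ A, (ε i * ((2 : ℝ) ^ blk i)⁻¹) • c (blk i)‖ ≤ 2 * (3 * √A.card) := by
    refine (norm_sum_le _ _).trans (le_trans ?_ (mul_le_mul_of_nonneg_left (key A) (by norm_num)))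
    rw [Finset.mul_sum]
    refine Finset.sum_le_sum fun i _ => ?_
    rw [norm_smul, norm_mul, Real.norm_eq_abs, Real.norm_eq_abs, abs_of_pos
      (show (0 : ℝ) < ((2 : ℝ) ^ blk i)⁻¹ by positivity)]
    have h5 := hε i
    have h6 : (0 : ℝ) < ((2 : ℝ) ^ blk i)⁻¹ := by positivity
    calc |ε i| * ((2 : ℝ) ^ blk i)⁻¹ * ‖c (blk i)‖ ≤ 1 * ((2 : ℝ) ^ blk i)⁻¹ * 2 := by
          refine mul_le_mul (mul_le_mul_of_nonneg_right h5 h6.le) (hc _) (norm_nonneg _)
            (by positivity)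
      _ = _ := by ring
  linarith

theorem upper (A : Finset ℕ) (ε : ℕ → ℝ) (hε : ∀ i, |ε i| ≤ 1) :
    ‖∑ i ∈ A, ε i • b X u i‖ ≤ 7 * √A.card :=
  upper_of hu (z X u) (norm_z X hu) A ε hε

theorem upper' (A : Finset ℕ) (ε : ℕ → ℝ) (hε : ∀ i, |ε i| ≤ 1) :
    ‖∑ i ∈ A, ε i • b' X u i‖ ≤ 7 * √A.card := by
  have := upper_of hu (fun P => - z' X u P) (fun P => by rw [norm_neg]; exact norm_z' X hu P) A ε hε
  refine le_trans (le_of_eq ?_) this
  congr 1
  refine Finset.sum_congr rfl fun i _ => ?_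
  unfold b'
  rw [smul_neg, ← sub_eq_add_neg]

omit hu in
theorem span_b (hd : Dense (Submodule.span ℝ (Set.range u) : Set H)) :
    Dense (Submodule.span ℝ (Set.range (b X u)) : Set H) := by
  refine hd.mono ?_
  refine Submodule.span_le.2 ?_
  rintro _ ⟨i, rfl⟩
  have hodd : ∀ i, blk i % 2 = 1 → b X u i = u i := by
    intro i hi
    unfold b
    have : z X u (blk i) = 0 := by
      unfold z
      refine Finset.sum_eq_zero fun R _ => ?_
      have : X.m R (blk i) = 0 := by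
        by_contra hne
        have := X.supp _ _ hne
        omega
      rw [this, zero_smul]
    rw [this, smul_zero, add_zero]
  have hu' : ∀ i, blk i % 2 = 1 → u i ∈ Submodule.span ℝ (Set.range (b X u)) := fun i hi =>
    Submodule.subset_span ⟨i, hodd i hi⟩
  have hw' : ∀ Q, Q % 2 = 1 → w u Q ∈ Submodule.span ℝ (Set.range (b X u)) := by
    intro Q hQ
    unfold w
    refine Submodule.smul_mem _ _ (Submodule.sum_mem _ fun i hi => hu' i ?_)
    rw [mem_σ.1 hi]; exact hQ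
  have hz : ∀ P, z X u P ∈ Submodule.span ℝ (Set.range (b X u)) := by
    intro P
    unfold z
    refine Submodule.sum_mem _ fun Q _ => ?_
    by_cases hm : X.m Q P = 0
    · rw [hm, zero_smul]; exact Submodule.zero_mem _
    · exact Submodule.smul_mem _ _ (hw' Q (X.supp _ _ hm).1)
  have : u i = b X u i - ((2 : ℝ) ^ blk i)⁻¹ • z X u (blk i) := by
    unfold b
    abel
  rw [this]
  exact Submodule.sub_mem _ (Submodule.subset_span ⟨i, rfl⟩) (Submodule.smul_mem _ _ (hz _))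

omit hu in
theorem span_b' (hd : Dense (Submodule.span ℝ (Set.range u) : Set H)) :
    Dense (Submodule.span ℝ (Set.range (b' X u)) : Set H) := by
  refine hd.mono ?_
  refine Submodule.span_le.2 ?_
  rintro _ ⟨i, rfl⟩
  have heven : ∀ i, blk i % 2 = 0 → b' X u i = u i := by
    intro i hi
    unfold b'
    have : z' X u (blk i) = 0 := by
      unfold z'
      refine Finset.sum_eq_zero fun R _ => ?_
      have : X.m (blk i) R = 0 := by
        by_contra hne
        have := X.supp _ _ hne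
        omega
      rw [this, zero_smul]
    rw [this, smul_zero, sub_zero]
  have hu' : ∀ i, blk i % 2 = 0 → u i ∈ Submodule.span ℝ (Set.range (b' X u)) := fun i hi =>
    Submodule.subset_span ⟨i, heven i hi⟩
  have hw' : ∀ Q, Q % 2 = 0 → w u Q ∈ Submodule.span ℝ (Set.range (b' X u)) := by
    intro Q hQ
    unfold w
    refine Submodule.smul_mem _ _ (Submodule.sum_mem _ fun i hi => hu' i ?_)
    rw [mem_σ.1 hi]; exact hQ
  have hz : ∀ P, z' X u P ∈ Submodule.span ℝ (Set.range (b' X u)) := by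
    intro P
    unfold z'
    refine Submodule.sum_mem _ fun Q _ => ?_
    by_cases hm : X.m P Q = 0
    · rw [hm, zero_smul]; exact Submodule.zero_mem _
    · exact Submodule.smul_mem _ _ (hw' Q (X.supp _ _ hm).2.1)
  have : u i = b' X u i + ((2 : ℝ) ^ blk i)⁻¹ • z' X u (blk i) := by
    unfold b'
    abel
  rw [this]
  exact Submodule.add_mem _ (Submodule.subset_span ⟨i, rfl⟩) (Submodule.smul_mem _ _ (hz _))

omit hu in
/-- Normalised block sums of the basis. -/
theorem sum_b (P : ℕ) : ∑ i ∈ σ P, ((2 : ℝ) ^ P)⁻¹ • b X u i = w u P + z X u P := by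
  have h1 : ∀ i ∈ σ P, ((2 : ℝ) ^ P)⁻¹ • b X u i = ((2 : ℝ) ^ P)⁻¹ • u i +
      (((2 : ℝ) ^ P)⁻¹ ^ 2) • z X u P := by
    intro i hi
    unfold b
    rw [mem_σ.1 hi, smul_add, smul_smul, sq]
  rw [Finset.sum_congr rfl h1, Finset.sum_add_distrib, Finset.sum_const, card_σ,
    ← Finset.smul_sum]
  congr 1
  rw [← Nat.cast_smul_eq_nsmul ℝ, smul_smul]
  push_cast
  have : (4 : ℝ) ^ P * ((2 : ℝ) ^ P)⁻¹ ^ 2 = 1 := by
    rw [show (4 : ℝ) ^ P = 2 ^ P * 2 ^ P by rw [← mul_pow]; norm_num]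
    field_simp
  rw [this, one_smul]

end Pool.Agent.X202.DKK
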