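import Mathlib
import Pool.Agent.X202.DKK

set_option autoImplicit false

/-!
# A bidemocratic basis of `ℓ_2` that is not squeezed by `ℓ_{2,q}`, `q > 1`
-/

namespace Pool.Agent.X202.Squeeze

open Pool.Agent.X202.CB Pool.Agent.X202.DKK

/-- The entries. -/
noncomputable def m (Q P : ℕ) : ℝ :=
  if Q % 2 = 1 ∧ P % 2 = 0 ∧ Nat.log 2 (P / 2 + 1) = Nat.log 2 (Q / 2 + 1) then
    (√(2 ^ Nat.log 2 (Q / 2 + 1)))⁻¹ else 0

theorem m_supp (Q P : ℕ) (h : m Q P ≠ 0) :
    Q % 2 = 1 ∧ P % 2 = 0 ∧ P < 2 * Q + 2 ∧ Q < 2 * P + 2 := by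
  unfold m at h
  split_ifs at h with h1
  · obtain ⟨h1, h2, h3⟩ := h1
    have e1 : Q / 2 + 1 < 2 ^ (Nat.log 2 (Q / 2 + 1) + 1) :=
      Nat.lt_pow_succ_log_self (by norm_num) _
    have e2 : 2 ^ Nat.log 2 (P / 2 + 1) ≤ P / 2 + 1 := Nat.pow_log_le_self 2 (by omega)
    have e3 : P / 2 + 1 < 2 ^ (Nat.log 2 (P / 2 + 1) + 1) :=
      Nat.lt_pow_succ_log_self (by norm_num) _
    have e4 : 2 ^ Nat.log 2 (Q / 2 + 1) ≤ Q / 2 + 1 := Nat.pow_log_le_self 2 (by omega)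
    rw [pow_succ] at e1 e3
    rw [h3] at e2 e3
    refine ⟨h1, h2, ?_, ?_⟩ <;> omega
  · exact absurd rfl h

theorem card_block (n N : ℕ) (r : ℕ) (hr : r < 2) :
    ((Finset.range N).filter (fun P => P % 2 = r ∧ Nat.log 2 (P / 2 + 1) = n)).card ≤ 2 ^ n := by
  have h1 : ((Finset.range N).filter (fun P => P % 2 = r ∧ Nat.log 2 (P / 2 + 1) = n)).card ≤
      (Finset.Ico (2 ^ n - 1) (2 ^ (n + 1) - 1)).card := by
    refine Finset.card_le_card_of_injOn (fun P => P / 2) ?_ ?_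
    · intro P hP
      simp only [Finset.coe_filter, Finset.mem_range, Set.mem_ofPred_eq] at hP
      obtain ⟨_, _, h3⟩ := hP
      have e2 : 2 ^ Nat.log 2 (P / 2 + 1) ≤ P / 2 + 1 := Nat.pow_log_le_self 2 (by omega)
      have e3 : P / 2 + 1 < 2 ^ (Nat.log 2 (P / 2 + 1) + 1) :=
        Nat.lt_pow_succ_log_self (by norm_num) _
      rw [h3] at e2 e3
      simp only [Finset.coe_Ico, Set.mem_Ico]
      omega
    · intro P hP P' hP' h
      simp only [Finset.coe_filter, Finset.mem_range, Set.mem_ofPred_eq] at hP hP'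
      simp only at h
      omega
  refine h1.trans ?_
  rw [Nat.card_Ico, pow_succ]
  omega

theorem m_sq (Q P : ℕ) : m Q P ^ 2 =
    if Q % 2 = 1 ∧ P % 2 = 0 ∧ Nat.log 2 (P / 2 + 1) = Nat.log 2 (Q / 2 + 1) then
    ((2 : ℝ) ^ Nat.log 2 (Q / 2 + 1))⁻¹ else 0 := by
  unfold m
  split_ifs
  · rw [inv_pow, Real.sq_sqrt (by positivity)]
  · norm_num

/-- The matrix. -/
noncomputable def mx : Mx where
  m := m
  supp := m_supp
  row := fun Q N => by
    simp only [m_sq]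
    set n := Nat.log 2 (Q / 2 + 1) with hn
    by_cases hQ : Q % 2 = 1
    · have h1 : ∀ P ∈ Finset.range N, (if Q % 2 = 1 ∧ P % 2 = 0 ∧ Nat.log 2 (P / 2 + 1) = n then
          ((2 : ℝ) ^ n)⁻¹ else 0) = if P % 2 = 0 ∧ Nat.log 2 (P / 2 + 1) = n then
          ((2 : ℝ) ^ n)⁻¹ else 0 := by
        intro P _
        by_cases h : P % 2 = 0 ∧ Nat.log 2 (P / 2 + 1) = n
        · rw [if_pos h, if_pos ⟨hQ, h⟩]
        · rw [if_neg h, if_neg (fun h' => h h'.2)]
      rw [Finset.sum_congr rfl h1, ← Finset.sum_filter, Finset.sum_const, nsmul_eq_mul]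
      have h2 : (((Finset.range N).filter (fun P => P % 2 = 0 ∧ Nat.log 2 (P / 2 + 1) = n)).card : ℝ)
          ≤ 2 ^ n := by exact_mod_cast card_block n N 0 (by norm_num)
      calc _ ≤ (2 : ℝ) ^ n * ((2 : ℝ) ^ n)⁻¹ := mul_le_mul_of_nonneg_right h2 (by positivity)
        _ = 1 := mul_inv_cancel₀ (by positivity)
        _ ≤ 2 := by norm_num
    · rw [Finset.sum_eq_zero]
      · norm_num
      · intro P _
        rw [if_neg (fun h' => hQ h'.1)]
  col := fun P N => by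
    simp only [m_sq]
    set n := Nat.log 2 (P / 2 + 1) with hn
    by_cases hP : P % 2 = 0
    · have h1 : ∀ Q ∈ Finset.range N, (if Q % 2 = 1 ∧ P % 2 = 0 ∧ n = Nat.log 2 (Q / 2 + 1) then
          ((2 : ℝ) ^ Nat.log 2 (Q / 2 + 1))⁻¹ else 0) =
          if Q % 2 = 1 ∧ Nat.log 2 (Q / 2 + 1) = n then ((2 : ℝ) ^ n)⁻¹ else 0 := by
        intro Q _
        by_cases h : Q % 2 = 1 ∧ Nat.log 2 (Q / 2 + 1) = n
        · rw [if_pos h, if_pos ⟨h.1, hP, h.2.symm⟩, h.2]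
        · rw [if_neg h, if_neg (fun h' => h ⟨h'.1, h'.2.2.symm⟩)]
      rw [Finset.sum_congr rfl h1, ← Finset.sum_filter, Finset.sum_const, nsmul_eq_mul]
      have h2 : (((Finset.range N).filter (fun P => P % 2 = 1 ∧ Nat.log 2 (P / 2 + 1) = n)).card : ℝ)
          ≤ 2 ^ n := by exact_mod_cast card_block n N 1 (by norm_num)
      calc _ ≤ (2 : ℝ) ^ n * ((2 : ℝ) ^ n)⁻¹ := mul_le_mul_of_nonneg_right h2 (by positivity)
        _ = 1 := mul_inv_cancel₀ (by positivity)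
        _ ≤ 2 := by norm_num
    · rw [Finset.sum_eq_zero]
      · norm_num
      · intro Q _
        rw [if_neg (fun h' => hP h'.2.1)]

/-- The even blocks of the `n`-th group. -/
def E (n : ℕ) : Finset ℕ := (Finset.Ico (2 ^ n - 1) (2 ^ (n + 1) - 1)).image (fun k => 2 * k)

/-- The odd blocks of the `n`-th group. -/
def O (n : ℕ) : Finset ℕ := (Finset.Ico (2 ^ n - 1) (2 ^ (n + 1) - 1)).image (fun k => 2 * k + 1)

theorem card_E (n : ℕ) : (E n).card = 2 ^ n := by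
  unfold E
  rw [Finset.card_image_of_injective _ (fun a b h => by
    have h' : 2 * a = 2 * b := h
    omega), Nat.card_Ico, pow_succ]
  omega

theorem card_O (n : ℕ) : (O n).card = 2 ^ n := by
  unfold O
  rw [Finset.card_image_of_injective _ (fun a b h => by
    have h' : 2 * a + 1 = 2 * b + 1 := h
    omega), Nat.card_Ico, pow_succ]
  omega

theorem log_of {n k : ℕ} (h : k ∈ Finset.Ico (2 ^ n - 1) (2 ^ (n + 1) - 1)) :
    Nat.log 2 (k + 1) = n := by
  rw [Finset.mem_Ico] at h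
  have : 0 < 2 ^ n := by positivity
  exact Nat.log_eq_of_pow_le_of_lt_pow (by omega) (by omega)

theorem m_EO {n Q P : ℕ} (hQ : Q ∈ O n) (hP : P ∈ E n) : m Q P = (√(2 ^ n))⁻¹ := by
  unfold O at hQ
  unfold E at hP
  rw [Finset.mem_image] at hQ hP
  obtain ⟨l, hl, rfl⟩ := hQ
  obtain ⟨k, hk, rfl⟩ := hP
  have e1 : (2 * l + 1) % 2 = 1 := by omega
  have e2 : 2 * k % 2 = 0 := by omega
  have e3 : (2 * l + 1) / 2 = l := by omega
  have e4 : 2 * k / 2 = k := by omega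
  unfold m
  rw [e3, e4, log_of hl, log_of hk, if_pos ⟨e1, e2, rfl⟩]

theorem O_odd {n Q : ℕ} (hQ : Q ∈ O n) : Q % 2 = 1 := by
  unfold O at hQ
  rw [Finset.mem_image] at hQ
  obtain ⟨l, _, rfl⟩ := hQ
  omega

theorem E_even {n P : ℕ} (hP : P ∈ E n) : P % 2 = 0 ∧ P < 2 ^ (n + 2) := by
  unfold E at hP
  rw [Finset.mem_image] at hP
  obtain ⟨l, hl, rfl⟩ := hP
  rw [Finset.mem_Ico] at hl
  have : 2 ^ (n + 2) = 2 * 2 ^ (n + 1) := by rw [pow_succ 2 (n + 1)]; ring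
  omega

variable {H : Type} [NormedAddCommGroup H] [InnerProductSpace ℝ H] {u : ℕ → H}
  (hu : Orthonormal ℝ u)
include hu

/-- The test vectors are large. -/
theorem test_large (n : ℕ) : (2 : ℝ) ^ n ≤ ‖∑ P ∈ E n, (w u P + z mx u P)‖ := by
  set v := ∑ P ∈ E n, (w u P + z mx u P) with hv
  have h1 : ∀ Q ∈ O n, inner ℝ (w u Q) v = 2 ^ n * (√(2 ^ n))⁻¹ := by
    intro Q hQ
    rw [hv, inner_sum]
    have h2 : ∀ P ∈ E n, inner ℝ (w u Q) (w u P + z mx u P) = (√(2 ^ n))⁻¹ := by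
      intro P hP
      rw [inner_add_right, inner_w_w hu, inner_w_z mx hu, if_neg, zero_add]
      · exact m_EO hQ hP
      · intro h
        have := O_odd hQ
        have := (E_even hP).1
        omega
    rw [Finset.sum_congr rfl h2, Finset.sum_const, card_E, nsmul_eq_mul]
    push_cast
    ring
  have h2 := bessel (w_on hu) (O n) v
  have h3 : ∀ Q ∈ O n, (inner ℝ (w u Q) v) ^ 2 = 2 ^ n := by
    intro Q hQ
    rw [h1 Q hQ, mul_pow, inv_pow, Real.sq_sqrt (by positivity)]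
    field_simp
  rw [Finset.sum_congr rfl h3, Finset.sum_const, card_O, nsmul_eq_mul] at h2
  push_cast at h2
  refine le_of_sq_le_sq ?_ (norm_nonneg _)
  rw [sq]
  exact h2

omit hu in
/-- Coefficients of the test vectors. -/
noncomputable def cf (n : ℕ) : ℕ →₀ ℝ := by
  classical
  exact Finsupp.onFinset (Finset.range (s (2 ^ (n + 2))))
    (fun i => if blk i ∈ E n then ((2 : ℝ) ^ blk i)⁻¹ else 0) (by
      intro i hi
      have h1 : blk i ∈ E n := by
        by_contra h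
        exact hi (if_neg h)
      rw [Finset.mem_range]
      exact (lt_blk i).trans_le (s_mono.monotone (E_even h1).2))

omit hu in
theorem cf_apply (n i : ℕ) : cf n i = if blk i ∈ E n then ((2 : ℝ) ^ blk i)⁻¹ else 0 := by
  classical
  unfold cf
  rw [Finsupp.onFinset_apply]

omit hu in
theorem cf_supp (n : ℕ) : (cf n).support ⊆ Finset.range (s (2 ^ (n + 2))) := by
  classical
  unfold cf
  exact Finsupp.support_onFinset_subset

omit hu in
theorem cf_sum (n : ℕ) : ∑ i ∈ (cf n).support, cf n i • b mx u i = ∑ P ∈ E n, (w u P + z mx u P) := by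
  classical
  rw [Finset.sum_subset (cf_supp n) fun i _ hi => by
    rw [Finsupp.notMem_support_iff.1 hi, zero_smul], sum_blocks]
  have h1 : ∀ P ∈ Finset.range (2 ^ (n + 2)), ∑ i ∈ σ P, cf n i • b mx u i =
      if P ∈ E n then w u P + z mx u P else 0 := by
    intro P _
    split_ifs with h
    · rw [← sum_b]
      refine Finset.sum_congr rfl fun i hi => ?_
      rw [cf_apply, mem_σ.1 hi, if_pos h]
    · refine Finset.sum_eq_zero fun i hi => ?_
      rw [cf_apply, mem_σ.1 hi, if_neg h, zero_smul]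
  rw [Finset.sum_congr rfl h1, ← Finset.sum_filter]
  refine Finset.sum_congr ?_ fun _ _ => rfl
  ext P
  rw [Finset.mem_filter, Finset.mem_range]
  exact ⟨fun h => h.2, fun h => ⟨(E_even h).2, h⟩⟩

omit hu

/-- Non-increasing rearrangement: `rearr a m` is the `(m+1)`-st largest modulus. -/
noncomputable def rearr (a : ℕ → ℝ) (m : ℕ) : ℝ :=
  sInf {t : ℝ | 0 ≤ t ∧ {n | t < |a n|}.encard ≤ m}

theorem rearr_nonneg (a : ℕ → ℝ) (m : ℕ) : 0 ≤ rearr a m :=
  Real.sInf_nonneg fun _ h => h.1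

theorem rearr_le {a : ℕ → ℝ} {m : ℕ} {t : ℝ} (ht : 0 ≤ t) (h : {n | t < |a n|}.encard ≤ m) :
    rearr a m ≤ t := csInf_le ⟨0, fun _ h => h.1⟩ ⟨ht, h⟩

theorem s_le (P : ℕ) : s P ≤ 4 ^ P := by
  induction P with
  | zero => simp [s]
  | succ P ih =>
    simp only [s]
    rw [pow_succ]
    omega

theorem cf_rearr (n m : ℕ) : rearr (cf n) m ≤ 2 / √((m : ℝ) + 1) := by
  refine rearr_le (by positivity) ?_
  have h1 : {i | 2 / √((m : ℝ) + 1) < |cf n i|} ⊆ (Finset.range m : Set ℕ) := by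
    intro i hi
    have hi' : 2 / √((m : ℝ) + 1) < |cf n i| := hi
    rw [cf_apply] at hi'
    split_ifs at hi' with hE
    · rw [abs_of_pos (by positivity), div_lt_iff₀ (by positivity), inv_mul_eq_div,
        lt_div_iff₀ (by positivity)] at hi'
      have h2 : (2 * (2 : ℝ) ^ blk i) ^ 2 < (m : ℝ) + 1 := by
        have := pow_lt_pow_left₀ hi' (by positivity) (n := 2) (by norm_num)
        rwa [Real.sq_sqrt (by positivity)] at this
      have h3 : (2 * (2 : ℝ) ^ blk i) ^ 2 = ((4 * 4 ^ blk i : ℕ) : ℝ) := by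
        push_cast
        rw [show (4 : ℝ) ^ blk i = 2 ^ blk i * 2 ^ blk i by rw [← mul_pow]; norm_num]
        ring
      rw [h3] at h2
      have h4 : 4 * 4 ^ blk i < m + 1 := by exact_mod_cast h2
      have h5 := lt_blk i
      have h6 : s (blk i + 1) = s (blk i) + 4 ^ blk i := rfl
      have h7 := s_le (blk i)
      rw [Finset.coe_range, Set.mem_Iio]
      omega
    · rw [abs_zero] at hi'
      have : (0 : ℝ) ≤ 2 / √((m : ℝ) + 1) := by positivity
      linarith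
  refine (Set.encard_le_encard h1).trans ?_
  rw [Set.encard_coe_eq_coe_finsetCard, Finset.card_range]

theorem cf_rearr_zero {n m : ℕ} (hm : s (2 ^ (n + 2)) ≤ m) : rearr (cf n) m = 0 := by
  refine le_antisymm (rearr_le le_rfl ?_) (rearr_nonneg _ _)
  have h1 : {i | (0 : ℝ) < |cf n i|} ⊆ (Finset.range (s (2 ^ (n + 2))) : Set ℕ) := by
    intro i hi
    apply cf_supp n
    rw [Finsupp.mem_support_iff]
    exact abs_pos.1 hi
  refine (Set.encard_le_encard h1).trans ?_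
  rw [Set.encard_coe_eq_coe_finsetCard, Finset.card_range]
  exact_mod_cast hm

/-- The Lorentz norm of `ℓ_{2,q}`. -/
noncomputable def lorentz (q : ℝ) (a : ℕ → ℝ) : ℝ :=
  (∑' m : ℕ, rearr a m ^ q * ((m : ℝ) + 1) ^ (q / 2 - 1)) ^ (1 / q)

theorem cf_lorentz (n : ℕ) {q : ℝ} (hq : 1 < q) :
    lorentz q (cf n) ^ q ≤ 2 ^ q * 2 ^ (n + 4) := by
  have hq0 : 0 < q := by linarith
  have h1 : ∑' m : ℕ, rearr (cf n) m ^ q * ((m : ℝ) + 1) ^ (q / 2 - 1) =
      ∑ m ∈ Finset.range (s (2 ^ (n + 2))), rearr (cf n) m ^ q * ((m : ℝ) + 1) ^ (q / 2 - 1) := by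
    refine tsum_eq_sum fun m hm => ?_
    rw [Finset.mem_range, not_lt] at hm
    rw [cf_rearr_zero hm, Real.zero_rpow hq0.ne', zero_mul]
  have h0 : 0 ≤ ∑ m ∈ Finset.range (s (2 ^ (n + 2))),
      rearr (cf n) m ^ q * ((m : ℝ) + 1) ^ (q / 2 - 1) :=
    Finset.sum_nonneg fun m _ => mul_nonneg (Real.rpow_nonneg (rearr_nonneg _ _) _) (by positivity)
  unfold lorentz
  rw [h1, ← Real.rpow_mul h0, one_div, inv_mul_cancel₀ hq0.ne', Real.rpow_one]
  have h2 : ∀ m ∈ Finset.range (s (2 ^ (n + 2))),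
      rearr (cf n) m ^ q * ((m : ℝ) + 1) ^ (q / 2 - 1) ≤ 2 ^ q * ((m : ℝ) + 1)⁻¹ := by
    intro m _
    have hm : (0 : ℝ) < (m : ℝ) + 1 := by positivity
    have h3 : rearr (cf n) m ^ q ≤ (2 / √((m : ℝ) + 1)) ^ q :=
      Real.rpow_le_rpow (rearr_nonneg _ _) (cf_rearr n m) hq0.le
    have h4 : (2 / √((m : ℝ) + 1)) ^ q = 2 ^ q * ((m : ℝ) + 1) ^ (-(q / 2)) := by
      rw [Real.div_rpow (by norm_num) (Real.sqrt_nonneg _), Real.sqrt_eq_rpow,
        ← Real.rpow_mul hm.le, Real.rpow_neg hm.le, div_eq_mul_inv]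
      congr 2
      congr 1
      ring
    rw [h4] at h3
    calc rearr (cf n) m ^ q * ((m : ℝ) + 1) ^ (q / 2 - 1) ≤
        2 ^ q * ((m : ℝ) + 1) ^ (-(q / 2)) * ((m : ℝ) + 1) ^ (q / 2 - 1) :=
          mul_le_mul_of_nonneg_right h3 (by positivity)
      _ = 2 ^ q * ((m : ℝ) + 1)⁻¹ := by
          rw [mul_assoc, ← Real.rpow_add hm]
          have : -(q / 2) + (q / 2 - 1) = -1 := by ring
          rw [this, Real.rpow_neg_one]
  refine (Finset.sum_le_sum h2).trans ?_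
  rw [← Finset.mul_sum]
  refine mul_le_mul_of_nonneg_left ?_ (by positivity)
  have h3 := harmonic_le_one_add_log (s (2 ^ (n + 2)))
  unfold harmonic at h3
  push_cast at h3
  refine h3.trans ?_
  have hs1 : (1 : ℝ) ≤ s (2 ^ (n + 2)) := by
    have : 1 ≤ s (2 ^ (n + 2)) := by
      have h5 : 1 ≤ 2 ^ (n + 2) := Nat.one_le_two_pow
      exact h5.trans s_mono.le_apply
    exact_mod_cast this
  have h4 : Real.log (s (2 ^ (n + 2))) ≤ (2 ^ (n + 2) : ℕ) * Real.log 4 := by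
    rw [← Real.log_pow]
    refine Real.log_le_log (by linarith) ?_
    exact_mod_cast s_le (2 ^ (n + 2))
  have h5 : Real.log 4 ≤ 2 := by
    have : (4 : ℝ) = 2 ^ 2 := by norm_num
    rw [this, Real.log_pow]
    have := Real.log_two_lt_d9
    push_cast
    linarith
  have h6 : ((2 ^ (n + 2) : ℕ) : ℝ) = 4 * 2 ^ n := by push_cast; rw [pow_add]; ring
  have h7 : (2 : ℝ) ^ (n + 4) = 16 * 2 ^ n := by rw [pow_add]; ring
  have h8 : (1 : ℝ) ≤ 2 ^ n := one_le_pow₀ (by norm_num)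
  rw [h6] at h4
  rw [h7]
  nlinarith

include hu in
/-- The embedding of `ℓ_{2,q}` fails for `q > 1`. -/
theorem not_embed {q : ℝ} (hq : 1 < q) :
    ¬ ∃ C : ℝ, ∀ a : ℕ →₀ ℝ, ‖∑ i ∈ a.support, a i • b mx u i‖ ≤ C * lorentz q a := by
  rintro ⟨C, hC⟩
  have hq0 : 0 < q := by linarith
  have hL : ∀ a : ℕ → ℝ, 0 ≤ lorentz q a := fun a => by
    unfold lorentz
    refine Real.rpow_nonneg (tsum_nonneg fun m => ?_) _
    exact mul_nonneg (Real.rpow_nonneg (rearr_nonneg _ _) _) (by positivity)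
  have h1 : ∀ n : ℕ, (2 : ℝ) ^ n ≤ |C| * lorentz q (cf n) := by
    intro n
    have h2 := hC (cf n)
    rw [cf_sum] at h2
    exact (test_large hu n).trans (h2.trans (mul_le_mul_of_nonneg_right (le_abs_self C) (hL _)))
  have h2 : ∀ n : ℕ, ((2 : ℝ) ^ (q - 1)) ^ n ≤ |C| ^ q * 2 ^ q * 16 := by
    intro n
    have h3 : ((2 : ℝ) ^ n) ^ q ≤ (|C| * lorentz q (cf n)) ^ q :=
      Real.rpow_le_rpow (by positivity) (h1 n) hq0.le
    rw [Real.mul_rpow (abs_nonneg _) (hL _)] at h3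
    have h4 := h3.trans (mul_le_mul_of_nonneg_left (cf_lorentz n hq)
      (Real.rpow_nonneg (abs_nonneg C) q))
    have h5 : ((2 : ℝ) ^ n) ^ q = ((2 : ℝ) ^ (q - 1)) ^ n * 2 ^ n := by
      rw [← Real.rpow_natCast, ← Real.rpow_natCast, ← Real.rpow_mul (by norm_num),
        ← Real.rpow_mul (by norm_num), ← Real.rpow_add (by norm_num)]
      congr 1
      ring
    rw [h5] at h4
    have h6 : (0 : ℝ) < 2 ^ n := by positivity
    have h7 : |C| ^ q * (2 ^ q * 2 ^ (n + 4)) = |C| ^ q * 2 ^ q * 16 * 2 ^ n := by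
      rw [pow_add]; ring
    rw [h7] at h4
    exact le_of_mul_le_mul_right h4 h6
  have h3 : 1 < (2 : ℝ) ^ (q - 1) := Real.one_lt_rpow (by norm_num) (by linarith)
  obtain ⟨n, hn⟩ := pow_unbounded_of_one_lt (|C| ^ q * 2 ^ q * 16) h3
  exact absurd (h2 n) (not_le.2 hn)

end Pool.Agent.X202.Squeeze
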