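import Mathlib

set_option autoImplicit false

/-!
# de la Vallee-Poussin means of the greedy algorithm: the finite-dimensional argument
-/

set_option linter.unusedSectionVars false

namespace Pool.Agent.X202.VP

variable {ι : Type} [Fintype ι] [DecidableEq ι] {𝕜 : Type} [RCLike 𝕜]

/-- Restriction of a vector to a set of coordinates. -/
def res (A : Finset ι) (a : ι → 𝕜) : ι → 𝕜 := fun i => if i ∈ A then a i else 0

/-- Greedy sets. -/
def Gr (a : ι → 𝕜) (S : Finset ι) : Prop := ∀ i ∈ S, ∀ j, j ∉ S → ‖a j‖ ≤ ‖a i‖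

/-- The finite-dimensional hypotheses. -/
structure Hyp (ν : Seminorm 𝕜 (ι → 𝕜)) (K L c : ℝ) : Prop where
  K1 : 1 ≤ K
  L1 : 1 ≤ L
  c1 : 1 ≤ c
  vp : ∀ (a : ι → 𝕜) (S T : Finset ι) (m : ℕ), S ⊆ T → Gr a S → Gr a T → S.card ≤ m →
    2 * m ≤ T.card → ∃ ω : ι → ℝ, (∀ i, 0 ≤ ω i ∧ ω i ≤ 1) ∧ (∀ i ∈ S, ω i = 1) ∧
      (∀ i, i ∉ T → ω i = 0) ∧ ν (fun i => (ω i : 𝕜) * a i) ≤ K * ν a
  qglc : ∀ (a : ι → 𝕜) (A : Finset ι), (∀ i, ‖a i‖ ≤ 1) → (∀ i ∈ A, ‖a i‖ = 1) →
    ν (res A a) ≤ L * ν a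
  coef : ∀ (a : ι → 𝕜) (i : ι), ν (res {i} a) ≤ c * ν a

/-- Convexity over the cube. -/
theorem cube (ν : Seminorm 𝕜 (ι → 𝕜)) (u : ι → 𝕜) (M : ℝ) (A : Finset ι) (ω : ι → ℝ)
    (hω : ∀ n ∈ A, 0 ≤ ω n ∧ ω n ≤ 1) (v : ι → 𝕜)
    (h : ∀ B ⊆ A, ν (v + res B u) ≤ M) : ν (v + res A (fun i => (ω i : 𝕜) * u i)) ≤ M := by
  induction A using Finset.induction_on generalizing v with
  | empty =>
    have h1 := h ∅ (Finset.Subset.refl _)
    have h2 : res ∅ (fun i => (ω i : 𝕜) * u i) = res ∅ u := by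
      funext i; simp [res]
    rw [h2]; exact h1
  | insert a A ha ih =>
    have hca := hω a (Finset.mem_insert_self _ _)
    have h1 := ih (fun n hn => hω n (Finset.mem_insert_of_mem hn)) v (fun B hB =>
      h B (hB.trans (Finset.subset_insert _ _)))
    have h2 := ih (fun n hn => hω n (Finset.mem_insert_of_mem hn)) (v + res {a} u) (fun B hB => by
      have h3 := h (insert a B) (Finset.insert_subset_insert _ hB)
      have h4 : v + res (insert a B) u = v + res {a} u + res B u := by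
        funext i
        have haB : a ∉ B := fun h' => ha (hB h')
        by_cases hi : i = a
        · subst hi
          simp [res, haB]
        · simp [res, hi]
      rwa [h4] at h3)
    have h4 : v + res (insert a A) (fun i => (ω i : 𝕜) * u i) =
        ((1 - ω a : ℝ) : 𝕜) • (v + res A (fun i => (ω i : 𝕜) * u i)) +
          ((ω a : ℝ) : 𝕜) • (v + res {a} u + res A (fun i => (ω i : 𝕜) * u i)) := by
      funext i
      by_cases hi : i = a
      · subst hi
        simp only [res, Pi.add_apply, Pi.smul_apply, smul_eq_mul, Finset.mem_insert,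
          Finset.mem_singleton, ha, true_or, if_true, if_false, RCLike.ofReal_sub,
          RCLike.ofReal_one]
        ring
      · by_cases hiA : i ∈ A
        · simp only [res, Pi.add_apply, Pi.smul_apply, smul_eq_mul, Finset.mem_insert,
            Finset.mem_singleton, hi, hiA, false_or, if_true, if_false, RCLike.ofReal_sub,
            RCLike.ofReal_one]
          ring
        · simp only [res, Pi.add_apply, Pi.smul_apply, smul_eq_mul, Finset.mem_insert,
            Finset.mem_singleton, hi, hiA, false_or, if_false, RCLike.ofReal_sub,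
            RCLike.ofReal_one]
          ring
    rw [h4]
    refine (map_add_le_add ν _ _).trans ?_
    rw [map_smul_eq_mul, map_smul_eq_mul, RCLike.norm_ofReal, RCLike.norm_ofReal,
      abs_of_nonneg (by linarith : 0 ≤ 1 - ω a), abs_of_nonneg hca.1]
    nlinarith

theorem cube0 (ν : Seminorm 𝕜 (ι → 𝕜)) (u : ι → 𝕜) (M : ℝ) (A : Finset ι) (ω : ι → ℝ)
    (hω : ∀ n ∈ A, 0 ≤ ω n ∧ ω n ≤ 1)
    (h : ∀ B ⊆ A, ν (res B u) ≤ M) : ν (res A (fun i => (ω i : 𝕜) * u i)) ≤ M := by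
  have h1 := cube ν u M A ω hω 0 (fun B hB => by rw [zero_add]; exact h B hB)
  rwa [zero_add] at h1

omit [Fintype ι] in
theorem res_smul (A : Finset ι) (r : 𝕜) (a : ι → 𝕜) : res A (r • a) = r • res A a := by
  funext i
  by_cases hi : i ∈ A <;> simp [res, hi]

omit [Fintype ι] in
theorem res_add (A : Finset ι) (a b : ι → 𝕜) : res A (a + b) = res A a + res A b := by
  funext i
  by_cases hi : i ∈ A <;> simp [res, hi]

omit [Fintype ι] in
theorem res_res (A B : Finset ι) (a : ι → 𝕜) : res A (res B a) = res (A ∩ B) a := by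
  funext i
  by_cases hi : i ∈ A <;> by_cases hj : i ∈ B <;> simp [res, hi, hj]

section QGLC

variable {ν : Seminorm 𝕜 (ι → 𝕜)} {K L c : ℝ} (h : Hyp ν K L c)
include h

/-- The scaled form of quasi-greediness for largest coefficients. -/
theorem Hyp.qglc' (a : ι → 𝕜) (A : Finset ι) {s : ℝ} (hs : 0 < s) (ha : ∀ i, ‖a i‖ ≤ s)
    (hA : ∀ i ∈ A, ‖a i‖ = s) : ν (res A a) ≤ L * ν a := by
  have h1 := h.qglc (((s⁻¹ : ℝ) : 𝕜) • a) A (fun i => by
    rw [Pi.smul_apply, norm_smul, RCLike.norm_ofReal, abs_of_pos (inv_pos.2 hs),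
      inv_mul_le_iff₀ hs, mul_one]
    exact ha i) (fun i hi => by
    rw [Pi.smul_apply, norm_smul, RCLike.norm_ofReal, abs_of_pos (inv_pos.2 hs), hA i hi,
      inv_mul_cancel₀ hs.ne'])
  rw [res_smul, map_smul_eq_mul, map_smul_eq_mul, RCLike.norm_ofReal,
    abs_of_pos (inv_pos.2 hs)] at h1
  have h2 : s⁻¹ * ν (res A a) ≤ s⁻¹ * (L * ν a) := by linarith
  exact le_of_mul_le_mul_left h2 (inv_pos.2 hs)

theorem Hyp.hull (A : Finset ι) (ε : ι → 𝕜) (hε : ∀ n ∈ A, ‖ε n‖ = 1)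
    (ω : ι → ℝ) (hω : ∀ n ∈ A, 0 ≤ ω n ∧ ω n ≤ 1) :
    ν (res A (fun i => (ω i : 𝕜) * ε i)) ≤ L * ν (res A ε) := by
  refine cube0 ν ε _ A ω hω fun B hB => ?_
  have h2 := h.qglc (res A ε) B (fun i => by
    unfold res
    split_ifs with hi
    · exact (hε i hi).le
    · rw [norm_zero]; exact zero_le_one) (fun i hi => by
    unfold res
    rw [if_pos (hB hi)]
    exact hε i (hB hi))
  rwa [res_res, Finset.inter_eq_left.2 hB] at h2

theorem Hyp.step1 (f : ι → 𝕜) (hf : ∀ n, ‖f n‖ ≤ 1)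
    (A : Finset ι) (hA : ∀ n ∈ A, 1 - 1 / (2 * L ^ 2) ≤ ‖f n‖) :
    ν (res A f) ≤ 2 * L ^ 2 * ν f := by
  have hL := h.L1
  have hL0 : 0 < L := by linarith
  have hL2 : 1 ≤ L ^ 2 := one_le_pow₀ hL
  have hδ : 1 / (2 * L ^ 2) ≤ 1 / 2 := by
    rw [div_le_div_iff₀ (by positivity) (by norm_num)]
    linarith
  have hpos : ∀ n ∈ A, 0 < ‖f n‖ := fun n hn => by
    have := hA n hn
    linarith
  set ε : ι → 𝕜 := fun n => ((‖f n‖⁻¹ : ℝ) : 𝕜) * f n with hε
  have hε1 : ∀ n ∈ A, ‖ε n‖ = 1 := fun n hn => by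
    simp only [hε]
    rw [norm_mul, RCLike.norm_ofReal, abs_of_pos (inv_pos.2 (hpos n hn)),
      inv_mul_cancel₀ (hpos n hn).ne']
  have hmul : ∀ n ∈ A, ((‖f n‖ : ℝ) : 𝕜) * ε n = f n := fun n hn => by
    simp only [hε]
    rw [← mul_assoc, ← RCLike.ofReal_mul, mul_inv_cancel₀ (hpos n hn).ne', RCLike.ofReal_one,
      one_mul]
  set S := res A f with hS
  set E := res A ε with hE
  have h1 : ν S ≤ L * ν E := by
    have := h.hull A ε hε1 (fun n => ‖f n‖) (fun n _ => ⟨norm_nonneg _, hf n⟩)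
    have e1 : res A (fun i => ((‖f i‖ : ℝ) : 𝕜) * ε i) = S := by
      funext i
      by_cases hi : i ∈ A
      · simp only [hS, res, hi, if_true]; exact hmul i hi
      · simp [hS, res, hi]
    rwa [e1] at this
  have h2 : ν (res A (fun n => (((1 - ‖f n‖) * (2 * L ^ 2) : ℝ) : 𝕜) * ε n)) ≤ L * ν E :=
    h.hull A ε hε1 _ (fun n hn => by
      refine ⟨mul_nonneg (by linarith [hf n]) (by positivity), ?_⟩
      have h3 := hA n hn
      have h4 : 1 - ‖f n‖ ≤ 1 / (2 * L ^ 2) := by linarith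
      rwa [le_div_iff₀ (by positivity)] at h4)
  have h3 : res A (fun n => (((1 - ‖f n‖) * (2 * L ^ 2) : ℝ) : 𝕜) * ε n) =
      ((2 * L ^ 2 : ℝ) : 𝕜) • (E - S) := by
    funext i
    by_cases hi : i ∈ A
    · have := hmul i hi
      simp only [hE, hS, res, hi, if_true, Pi.smul_apply, Pi.sub_apply, smul_eq_mul,
        RCLike.ofReal_mul, RCLike.ofReal_sub, RCLike.ofReal_one]
      linear_combination (-(((2 : ℝ) : 𝕜) * ((L ^ 2 : ℝ) : 𝕜))) * this
    · simp [hE, hS, res, hi]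
  rw [h3, map_smul_eq_mul, RCLike.norm_ofReal, abs_of_pos (by positivity : (0 : ℝ) < 2 * L ^ 2)]
    at h2
  have h4 := h.qglc (E + (f - S)) A (fun n => by
    simp only [Pi.add_apply, Pi.sub_apply, hE, hS, res]
    split_ifs with hn
    · rw [sub_self, add_zero, hε1 n hn]
    · rw [sub_zero, zero_add]; exact hf n) (fun n hn => by
    simp only [Pi.add_apply, Pi.sub_apply, hE, hS, res, hn, if_true]
    rw [sub_self, add_zero, hε1 n hn])
  have h4' : res A (E + (f - S)) = E := by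
    funext i
    by_cases hi : i ∈ A <;> simp [hE, hS, res, hi]
  rw [h4'] at h4
  have h5 : ν (E + (f - S)) ≤ ν f + ν (E - S) := by
    have : E + (f - S) = f + (E - S) := by abel
    rw [this]
    exact map_add_le_add ν _ _
  have hNf := apply_nonneg ν f
  have hNE := apply_nonneg ν E
  have hNES := apply_nonneg ν (E - S)
  have h6 : L * ν (E - S) ≤ ν E / 2 := by
    have h7 : 2 * L * (L * ν (E - S)) ≤ L * ν E := by
      calc 2 * L * (L * ν (E - S)) = 2 * L ^ 2 * ν (E - S) := by ring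
        _ ≤ L * ν E := h2
    have h8 : L * (2 * (L * ν (E - S))) ≤ L * ν E := by linarith
    have h9 := le_of_mul_le_mul_left h8 hL0
    linarith
  have h7 : ν E ≤ 2 * L * ν f := by
    have h8 := mul_le_mul_of_nonneg_left h5 hL0.le
    nlinarith
  calc ν S ≤ L * ν E := h1
    _ ≤ L * (2 * L * ν f) := mul_le_mul_of_nonneg_left h7 hL0.le
    _ = 2 * L ^ 2 * ν f := by ring

theorem Hyp.step1' (f : ι → 𝕜) {s : ℝ} (hs : 0 < s) (hf : ∀ n, ‖f n‖ ≤ s)
    (A : Finset ι) (hA : ∀ n ∈ A, s * (1 - 1 / (2 * L ^ 2)) ≤ ‖f n‖) :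
    ν (res A f) ≤ 2 * L ^ 2 * ν f := by
  have h1 := h.step1 (((s⁻¹ : ℝ) : 𝕜) • f) (fun i => by
    rw [Pi.smul_apply, norm_smul, RCLike.norm_ofReal, abs_of_pos (inv_pos.2 hs),
      inv_mul_le_iff₀ hs, mul_one]
    exact hf i) A (fun i hi => by
    rw [Pi.smul_apply, norm_smul, RCLike.norm_ofReal, abs_of_pos (inv_pos.2 hs),
      le_inv_mul_iff₀ hs]
    exact hA i hi)
  rw [res_smul, map_smul_eq_mul, map_smul_eq_mul, RCLike.norm_ofReal,
    abs_of_pos (inv_pos.2 hs)] at h1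
  have h2 : s⁻¹ * ν (res A f) ≤ s⁻¹ * (2 * L ^ 2 * ν f) := by linarith
  exact le_of_mul_le_mul_left h2 (inv_pos.2 hs)

/-- Near unconditionality, with a power bound. -/
theorem Hyp.power (k : ℕ) : ∀ (f : ι → 𝕜) (s : ℝ), 0 < s → (∀ n, ‖f n‖ ≤ s) → ∀ A : Finset ι,
      (∀ n ∈ A, s * (1 - 1 / (2 * L ^ 2)) ^ (k + 1) ≤ ‖f n‖) →
      ν (res A f) ≤ 2 * L ^ 2 * (1 + 4 * L ^ 2) ^ k * ν f := by
  have hL := h.L1
  have hL0 : 0 < L := by linarith
  have hL2 : 1 ≤ L ^ 2 := one_le_pow₀ hL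
  have hδ : 1 / (2 * L ^ 2) ≤ 1 / 2 := by
    rw [div_le_div_iff₀ (by positivity) (by norm_num)]
    linarith
  have hδ0 : 0 < 1 / (2 * L ^ 2) := by positivity
  set θ : ℝ := 1 - 1 / (2 * L ^ 2) with hθ
  have hθ0 : 0 < θ := by linarith
  have hθ1 : θ ≤ 1 := by linarith
  induction k with
  | zero =>
    intro f s hs hf A hA
    rw [pow_zero, mul_one]
    refine h.step1' f hs hf A fun n hn => ?_
    have := hA n hn
    rwa [zero_add, pow_one] at this
  | succ k ih =>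
    intro f s hs hf A hA
    have hst : 0 < s * θ := by positivity
    set A₁ : Finset ι := Finset.univ.filter (fun n => s * θ < ‖f n‖) with hA1
    have hmem : ∀ n, n ∈ A₁ ↔ s * θ < ‖f n‖ := fun n => by simp [hA1]
    have h1 := h.step1' f hs hf A₁ fun n hn => ((hmem n).1 hn).le
    set g := f - res A₁ f with hg
    have hgc : ∀ n, g n = if n ∈ A₁ then 0 else f n := by
      intro n
      simp only [hg, Pi.sub_apply, res]
      split_ifs <;> simp
    have h2 := ih g (s * θ) hst (fun n => by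
      rw [hgc]
      split_ifs with h3
      · rw [norm_zero]; exact hst.le
      · rw [hmem] at h3
        exact not_lt.1 h3) (A \ A₁) (fun n hn => by
      have h3 := Finset.mem_sdiff.1 hn
      rw [hgc, if_neg h3.2]
      have h4 := hA n h3.1
      calc s * θ * θ ^ (k + 1) = s * θ ^ (k + 1 + 1) := by ring
        _ ≤ ‖f n‖ := h4)
    have h4 : res (A \ A₁) g = res (A \ A₁) f := by
      funext i
      by_cases hi : i ∈ A₁ <;> by_cases hj : i ∈ A <;> simp [hg, res, hi, hj]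
    rw [h4] at h2
    have h6 : ν g ≤ ν f + ν (res A₁ f) := map_sub_le_add ν _ _
    have h7 := h.step1' f hs hf (A ∩ A₁) fun n hn => ((hmem n).1 (Finset.mem_inter.1 hn).2).le
    have h8 : res A f = res (A \ A₁) f + res (A ∩ A₁) f := by
      funext i
      by_cases hi : i ∈ A₁ <;> by_cases hj : i ∈ A <;> simp [res, hi, hj]
    rw [h8]
    refine (map_add_le_add ν _ _).trans ?_
    set B : ℝ := 2 * L ^ 2 * (1 + 4 * L ^ 2) ^ k with hB
    have hp : (1 : ℝ) ≤ (1 + 4 * L ^ 2) ^ k := one_le_pow₀ (by nlinarith)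
    have hB1 : 2 * L ^ 2 ≤ B := by
      rw [hB]
      nlinarith
    have hB0 : 0 ≤ B := by linarith [hL2]
    have hNf := apply_nonneg ν f
    have h9 : 2 * L ^ 2 * (1 + 4 * L ^ 2) ^ (k + 1) = B * (1 + 4 * L ^ 2) := by
      rw [hB, pow_succ]; ring
    rw [h9]
    have h10 : ν g ≤ (1 + 2 * L ^ 2) * ν f := by linarith
    have h11 : B * ν g ≤ B * ((1 + 2 * L ^ 2) * ν f) :=
      mul_le_mul_of_nonneg_left h10 hB0
    have h12 : 2 * L ^ 2 * ν f ≤ B * (2 * L ^ 2) * ν f := by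
      refine mul_le_mul_of_nonneg_right ?_ hNf
      nlinarith
    nlinarith

end QGLC

end Pool.Agent.X202.VP
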