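import Mathlib
import Pool.Agent.X202.VP1

set_option autoImplicit false
set_option linter.unusedSectionVars false

/-!
# de la Vallee-Poussin means of the greedy algorithm: the bootstrap
-/

namespace Pool.Agent.X202.VP

variable {ι : Type} [Fintype ι] [DecidableEq ι] {𝕜 : Type} [RCLike 𝕜]

/-- Monotone multipliers on greedy sets. -/
theorem mult (ν : Seminorm 𝕜 (ι → 𝕜)) {M : ℝ} (a : ι → 𝕜)
    (hM : ∀ B : Finset ι, Gr a B → ν (res B a) ≤ M * ν a) (k : ℕ) :
    ∀ (A : Finset ι) (t : ι → ℝ) (S : ℝ), A.card = k → Gr a A →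
      (∀ n ∈ A, 0 ≤ t n ∧ t n ≤ S) → (∀ n ∈ A, ∀ m ∈ A, ‖a m‖ ≤ ‖a n‖ → t m ≤ t n) → 0 ≤ S →
      ν (res A (fun n => (t n : 𝕜) * a n)) ≤ M * S * ν a := by
  have hK : 0 ≤ M * ν a := (apply_nonneg ν _).trans (hM ∅ (fun i hi => absurd hi (by simp)))
  induction k with
  | zero =>
    intro A t S hA _ _ _ hS
    have h1 : res A (fun n => (t n : 𝕜) * a n) = 0 := by
      rw [Finset.card_eq_zero.1 hA]
      funext i; simp [res]
    rw [h1, map_zero]
    have := mul_nonneg hK hS
    nlinarith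
  | succ k ih =>
    intro A t S hA hgr ht hmono hS
    have hne : A.Nonempty := Finset.card_pos.1 (by omega)
    obtain ⟨n0, hn0, hmin⟩ := A.exists_min_image (fun n => ‖a n‖) hne
    have ht0 := ht n0 hn0
    have hsplit : res A (fun n => (t n : 𝕜) * a n) = ((t n0 : ℝ) : 𝕜) • res A a +
        res (A.erase n0) (fun n => ((t n - t n0 : ℝ) : 𝕜) * a n) := by
      funext i
      by_cases hi : i = n0
      · subst hi
        simp only [res, Pi.add_apply, Pi.smul_apply, smul_eq_mul, hn0, if_true,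
          Finset.mem_erase, ne_eq, not_true_eq_false, false_and, if_false, add_zero]
      · by_cases hiA : i ∈ A
        · simp only [res, Pi.add_apply, Pi.smul_apply, smul_eq_mul, hiA, if_true,
            Finset.mem_erase, ne_eq, hi, not_false_eq_true, true_and, RCLike.ofReal_sub]
          ring
        · simp only [res, Pi.add_apply, Pi.smul_apply, smul_eq_mul, hiA, if_false,
            Finset.mem_erase, and_false, mul_zero, add_zero]
    have h1 := hM A hgr
    have h2 := ih (A.erase n0) (fun n => t n - t n0) (S - t n0)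
      (by rw [Finset.card_erase_of_mem hn0, hA]; rfl)
      (by
        intro n hn k hk
        by_cases hkn : k = n0
        · rw [hkn]; exact hmin n (Finset.mem_of_mem_erase hn)
        · exact hgr n (Finset.mem_of_mem_erase hn) k
            (fun h => hk (Finset.mem_erase.2 ⟨hkn, h⟩)))
      (by
        intro n hn
        have hnA := Finset.mem_of_mem_erase hn
        have := hmono n hnA n0 hn0 (hmin n hnA)
        have := (ht n hnA).2
        constructor <;> linarith)
      (by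
        intro n hn m hm h
        have := hmono n (Finset.mem_of_mem_erase hn) m (Finset.mem_of_mem_erase hm) h
        linarith) (by linarith)
    rw [hsplit]
    refine (map_add_le_add ν _ _).trans ?_
    rw [map_smul_eq_mul, RCLike.norm_ofReal, abs_of_nonneg ht0.1]
    have h3 := mul_le_mul_of_nonneg_left h1 ht0.1
    calc t n0 * ν (res A a) + ν (res (A.erase n0) (fun n => ((t n - t n0 : ℝ) : 𝕜) * a n))
        ≤ t n0 * (M * ν a) + M * (S - t n0) * ν a := add_le_add h3 h2
      _ = _ := by ring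

/-- Greedy sets between two given greedy sets. -/
theorem exists_between (a : ι → 𝕜) (S B : Finset ι) (hS : Gr a S) (hB : Gr a B) (hSB : S ⊆ B)
    (k : ℕ) : S.card + k ≤ B.card → ∃ F : Finset ι, S ⊆ F ∧ F ⊆ B ∧ F.card = S.card + k ∧ Gr a F := by
  induction k with
  | zero => intro _; exact ⟨S, Finset.Subset.refl _, hSB, rfl, hS⟩
  | succ k ih =>
    intro hk
    obtain ⟨F, hSF, hFB, hFc, hF⟩ := ih (by omega)
    have hne : (B \ F).Nonempty := by
      rw [← Finset.card_pos, Finset.card_sdiff_of_subset hFB]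
      omega
    obtain ⟨n, hn, hmax⟩ := (B \ F).exists_max_image (fun n => ‖a n‖) hne
    obtain ⟨hnB, hnF⟩ := Finset.mem_sdiff.1 hn
    refine ⟨insert n F, hSF.trans (Finset.subset_insert _ _), ?_, ?_, ?_⟩
    · intro i hi
      rcases Finset.mem_insert.1 hi with h1 | h1
      · rw [h1]; exact hnB
      · exact hFB h1
    · rw [Finset.card_insert_of_notMem hnF, hFc]; rfl
    · intro i hi j hj
      have hj' : j ≠ n ∧ j ∉ F := by
        rw [Finset.mem_insert, not_or] at hj
        exact hj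
      rcases Finset.mem_insert.1 hi with h1 | h1
      · rw [h1]
        by_cases hjB : j ∈ B
        · exact hmax j (Finset.mem_sdiff.2 ⟨hjB, hj'.2⟩)
        · exact hB n hnB j hjB
      · exact hF i h1 j hj'.2

/-- `B` is a greedy set at threshold `t`. -/
def Thr (a : ι → 𝕜) (t : ℝ) (B : Finset ι) : Prop :=
  (∀ i ∈ B, t ≤ ‖a i‖) ∧ ∀ i, i ∉ B → ‖a i‖ ≤ t

theorem Thr.gr {a : ι → 𝕜} {t : ℝ} {B : Finset ι} (h : Thr a t B) : Gr a B :=
  fun i hi j hj => (h.2 j hj).trans (h.1 i hi)

/-- Large coordinates. -/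
noncomputable def big (a : ι → 𝕜) (s : ℝ) : Finset ι := Finset.univ.filter (fun i => s ≤ ‖a i‖)

theorem mem_big {a : ι → 𝕜} {s : ℝ} {i : ι} : i ∈ big a s ↔ s ≤ ‖a i‖ := by simp [big]

theorem gr_big (a : ι → 𝕜) (s : ℝ) : Gr a (big a s) := fun i hi j hj => by
  rw [mem_big] at hi hj
  exact (not_le.1 hj).le.trans hi

section Boot

variable {ν : Seminorm 𝕜 (ι → 𝕜)} {K L c : ℝ} (h : Hyp ν K L c) {M γ Φ t : ℝ}
  (hM : ∀ (a : ι → 𝕜) (B : Finset ι), Gr a B → ν (res B a) ≤ M * ν a) (hM0 : 0 ≤ M)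
  (hγ : 1 < γ) (hΦ0 : 0 ≤ Φ)
  (hΦ : ∀ (a : ι → 𝕜) (s : ℝ), 0 < s → (∀ i, ‖a i‖ ≤ γ * s) → ∀ A : Finset ι,
    (∀ i ∈ A, s ≤ ‖a i‖) → ν (res A a) ≤ Φ * ν a)

include h in
/-- Small multiples of large coordinates. -/
theorem small (hM : ∀ (a : ι → 𝕜) (B : Finset ι), Gr a B → ν (res B a) ≤ M * ν a)
    (hγ : 1 < γ) (ht : 0 < t) (a : ι → 𝕜) (A : Finset ι) (hA : A ⊆ big a (γ * t)) (η : ι → ℝ)
    (hη : ∀ i ∈ A, 0 ≤ η i ∧ η i * ‖a i‖ ≤ t) :
    ν (res A (fun i => (η i : 𝕜) * a i)) ≤ 2 * L * M / γ * ν a := by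
  have hγ0 : 0 < γ := by linarith
  have hs : 0 < γ * t := by positivity
  set E := big a (γ * t) with hE
  have hEpos : ∀ i ∈ E, 0 < ‖a i‖ := fun i hi => lt_of_lt_of_le hs (mem_big.1 hi)
  set u : ι → 𝕜 := fun i => ((γ * t / ‖a i‖ : ℝ) : 𝕜) * a i with hu
  have hun : ∀ i ∈ E, ‖u i‖ = γ * t := fun i hi => by
    simp only [hu]
    rw [norm_mul, RCLike.norm_ofReal, abs_of_pos (div_pos hs (hEpos i hi)),
      div_mul_cancel₀ _ (hEpos i hi).ne']
  -- the flattened vector
  have h1 : ν (res E u) ≤ 2 * M * ν a := by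
    have h2 := mult ν a (hM a) E.card E (fun i => 1 - γ * t / ‖a i‖) 1 rfl (gr_big a _)
      (fun n hn => by
        have h3 : γ * t / ‖a n‖ ≤ 1 := by
          rw [div_le_one (hEpos n hn)]; exact mem_big.1 hn
        have h4 : 0 < γ * t / ‖a n‖ := div_pos hs (hEpos n hn)
        constructor <;> linarith)
      (fun n hn m hm hmn => by
        have : γ * t / ‖a n‖ ≤ γ * t / ‖a m‖ :=
          div_le_div_of_nonneg_left hs.le (hEpos m hm) hmn
        linarith) zero_le_one
    have h3 : res E u = res E a - res E (fun i => ((1 - γ * t / ‖a i‖ : ℝ) : 𝕜) * a i) := by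
      funext i
      by_cases hi : i ∈ E
      · simp only [res, hi, if_true, Pi.sub_apply, hu, RCLike.ofReal_sub, RCLike.ofReal_one]
        ring
      · simp only [res, hi, if_false, Pi.sub_apply, sub_zero]
    rw [h3]
    have h4 := map_sub_le_add ν (res E a) (res E (fun i => ((1 - γ * t / ‖a i‖ : ℝ) : 𝕜) * a i))
    have h5 := hM a E (gr_big a _)
    linarith
  -- subsets
  have h2 : ∀ B ⊆ A, ν (res B u) ≤ 2 * L * M * ν a := by
    intro B hB
    have h3 := h.qglc' (res E u) B hs (fun i => by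
      by_cases hi : i ∈ E
      · simp only [res, hi, if_true]; exact (hun i hi).le
      · simp only [res, hi, if_false, norm_zero]; exact hs.le) (fun i hi => by
      have hiE := hA (hB hi)
      simp only [res, hiE, if_true]; exact hun i hiE)
    rw [res_res, Finset.inter_eq_left.2 (hB.trans hA)] at h3
    have h4 : L * ν (res E u) ≤ L * (2 * M * ν a) :=
      mul_le_mul_of_nonneg_left h1 (by linarith [h.L1])
    linarith
  -- cube
  have h3 := cube0 ν u (2 * L * M * ν a) A (fun i => η i * ‖a i‖ / t) (fun i hi => by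
    refine ⟨div_nonneg (mul_nonneg (hη i hi).1 (norm_nonneg _)) ht.le, ?_⟩
    rw [div_le_one ht]; exact (hη i hi).2) h2
  have h4 : res A (fun i => (η i : 𝕜) * a i) =
      ((γ⁻¹ : ℝ) : 𝕜) • res A (fun i => ((η i * ‖a i‖ / t : ℝ) : 𝕜) * u i) := by
    funext i
    by_cases hi : i ∈ A
    · have hne := (hEpos i (hA hi)).ne'
      simp only [res, hi, if_true, Pi.smul_apply, smul_eq_mul, hu]
      rw [← mul_assoc, ← mul_assoc, ← RCLike.ofReal_mul, ← RCLike.ofReal_mul]
      congr 2
      field_simp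
    · simp only [res, hi, if_false, Pi.smul_apply, smul_zero]
  rw [h4, map_smul_eq_mul, RCLike.norm_ofReal, abs_of_pos (inv_pos.2 hγ0)]
  calc γ⁻¹ * ν (res A (fun i => ((η i * ‖a i‖ / t : ℝ) : 𝕜) * u i))
      ≤ γ⁻¹ * (2 * L * M * ν a) := mul_le_mul_of_nonneg_left h3 (inv_pos.2 hγ0).le
    _ = _ := by ring

/-- The vector `(1 - ω) a`. -/
noncomputable def comp (ω : ι → ℝ) (a : ι → 𝕜) : ι → 𝕜 := fun i => ((1 - ω i : ℝ) : 𝕜) * a i

theorem comp_eq (ω : ι → ℝ) (a : ι → 𝕜) : comp ω a = a - fun i => (ω i : 𝕜) * a i := by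
  funext i
  simp only [comp, Pi.sub_apply, RCLike.ofReal_sub, RCLike.ofReal_one]
  ring

theorem norm_comp_le {ω : ι → ℝ} (hω : ∀ i, 0 ≤ ω i ∧ ω i ≤ 1) (a : ι → 𝕜) (i : ι) :
    ‖comp ω a i‖ ≤ ‖a i‖ := by
  unfold comp
  rw [norm_mul, RCLike.norm_ofReal, abs_of_nonneg (by linarith [(hω i).2])]
  have := norm_nonneg (a i)
  nlinarith [(hω i).1]

theorem nu_comp {ω : ι → ℝ} {a : ι → 𝕜} (hK : ν (fun i => (ω i : 𝕜) * a i) ≤ K * ν a) :
    ν (comp ω a) ≤ (1 + K) * ν a := by
  rw [comp_eq]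
  have := map_sub_le_add ν a (fun i => (ω i : 𝕜) * a i)
  linarith

include h hγ hΦ hΦ0 in
/-- The flat case. -/
theorem flat (ht : 0 < t) (a : ι → 𝕜) (B : Finset ι) (hB : Thr a t B)
    (hc : 4 * (big a (γ * t)).card ≤ B.card) :
    ν (res B a) ≤ (K + Φ * (1 + K)) * ν a := by
  set E := big a (γ * t) with hE
  have hts : t < γ * t := by nlinarith
  have hEB : E ⊆ B := fun i hi => by
    by_contra h1
    have h2 := hB.2 i h1
    have h3 := mem_big.1 hi
    linarith
  obtain ⟨F, hEF, hFB, hFc, hF⟩ := exists_between a E B (gr_big a _) hB.gr hEB E.card (by omega)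
  obtain ⟨F', hFF, hFB', hFc', hF'⟩ := exists_between a F B hF hB.gr hFB F.card (by omega)
  obtain ⟨ω, hω, hω1, hω0, hωK⟩ := h.vp a E F E.card hEF (gr_big a _) hF le_rfl (by omega)
  obtain ⟨ω', hω', hω1', hω0', hωK'⟩ := h.vp a F F' F.card hFF hF hF' le_rfl (by omega)
  set x := comp ω a with hx
  have hxn : ν x ≤ (1 + K) * ν a := nu_comp hωK
  have hxb : ∀ i, ‖x i‖ ≤ γ * t := fun i => by
    by_cases hi : i ∈ E
    · have : x i = 0 := by
        simp only [hx, comp, hω1 i hi, sub_self, RCLike.ofReal_zero, zero_mul]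
      rw [this, norm_zero]
      linarith
    · exact (norm_comp_le hω a i).trans (not_le.1 (fun h' => hi (mem_big.2 h'))).le
  have hxe : ∀ i, i ∉ F → x i = a i := fun i hi => by
    simp only [hx, comp, hω0 i hi, sub_zero, RCLike.ofReal_one, one_mul]
  have h1 : res B a = (fun i => (ω' i : 𝕜) * a i) +
      res (B \ F) (fun i => ((1 - ω' i : ℝ) : 𝕜) * x i) := by
    funext i
    by_cases hiB : i ∈ B
    · by_cases hiF : i ∈ F
      · simp only [res, hiB, hiF, if_true, Pi.add_apply, Finset.mem_sdiff, not_true_eq_false,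
          and_false, if_false, add_zero, hω1' i hiF, RCLike.ofReal_one, one_mul]
      · simp only [res, hiB, hiF, if_true, Pi.add_apply, Finset.mem_sdiff, not_false_eq_true,
          and_true, hxe i hiF, RCLike.ofReal_sub, RCLike.ofReal_one]
        ring
    · have : i ∉ F' := fun h' => hiB (hFB' h')
      simp only [res, hiB, if_false, Pi.add_apply, Finset.mem_sdiff, false_and,
        hω0' i this, RCLike.ofReal_zero, zero_mul, add_zero]
  have h2 := cube0 ν x (Φ * ν x) (B \ F) (fun i => 1 - ω' i)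
    (fun i _ => ⟨by linarith [(hω' i).2], by linarith [(hω' i).1]⟩) (fun A hA =>
      hΦ x t ht hxb A fun i hi => by
        have h3 := Finset.mem_sdiff.1 (hA hi)
        rw [hxe i h3.2]
        exact hB.1 i h3.1)
  rw [h1]
  refine (map_add_le_add ν _ _).trans ?_
  have h3 : Φ * ν x ≤ Φ * ((1 + K) * ν a) := mul_le_mul_of_nonneg_left hxn hΦ0
  calc _ ≤ K * ν a + Φ * ν x := add_le_add hωK' h2
    _ ≤ _ := by linarith

include h in
/-- The filler case. -/
theorem filler (ht : 0 < t) (y z : ι → 𝕜) (B D : Finset ι) (hB : Thr y t B)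
    (hyD : ∀ i ∈ D, y i = 0) (hcard : B.card ≤ D.card) (hz0 : ∀ i, i ∉ D → z i = 0)
    (hzt : ∀ i ∈ D, ‖z i‖ = t) {Λ : ℝ} (hΛ : ∀ A ⊆ D, ν (res A z) ≤ Λ) :
    ν (res B y) ≤ K * ν y + (K + 1) * Λ := by
  have hdisj : Disjoint B D := by
    rw [Finset.disjoint_left]
    intro i hiB hiD
    have := hB.1 i hiB
    rw [hyD i hiD, norm_zero] at this
    linarith
  have hyzB : ∀ i ∈ B, y i + z i = y i := fun i hi => by
    rw [hz0 i (Finset.disjoint_left.1 hdisj hi), add_zero]
  have hyzD : ∀ i ∈ D, y i + z i = z i := fun i hi => by rw [hyD i hi, zero_add]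
  have hle : ∀ i, i ∉ B → ‖y i + z i‖ ≤ t := fun i hi => by
    by_cases hiD : i ∈ D
    · rw [hyzD i hiD, hzt i hiD]
    · rw [hz0 i hiD, add_zero]; exact hB.2 i hi
  have hge : ∀ i ∈ B ∪ D, t ≤ ‖y i + z i‖ := fun i hi => by
    rcases Finset.mem_union.1 hi with h1 | h1
    · rw [hyzB i h1]; exact hB.1 i h1
    · rw [hyzD i h1, hzt i h1]
  obtain ⟨ω, hω, hω1, hω0, hωK⟩ := h.vp (y + z) B (B ∪ D) B.card Finset.subset_union_left
    (fun i hi j hj => (hle j hj).trans (hge i (Finset.mem_union_left _ hi)))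
    (fun i hi j hj => (hle j (fun h' => hj (Finset.mem_union_left _ h'))).trans (hge i hi))
    le_rfl (by rw [Finset.card_union_of_disjoint hdisj]; omega)
  have h1 : res B y = (fun i => (ω i : 𝕜) * (y + z) i) - res D (fun i => (ω i : 𝕜) * z i) := by
    funext i
    by_cases hiB : i ∈ B
    · have hiD := Finset.disjoint_left.1 hdisj hiB
      simp only [res, hiB, hiD, if_true, if_false, Pi.sub_apply, Pi.add_apply, hyzB i hiB,
        hω1 i hiB, RCLike.ofReal_one, one_mul, sub_zero]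
    · by_cases hiD : i ∈ D
      · simp only [res, hiB, hiD, if_true, if_false, Pi.sub_apply, Pi.add_apply, hyzD i hiD,
          sub_self]
      · have : i ∉ B ∪ D := by
          rw [Finset.mem_union, not_or]; exact ⟨hiB, hiD⟩
        simp only [res, hiB, hiD, if_false, Pi.sub_apply, hω0 i this, RCLike.ofReal_zero,
          zero_mul, sub_zero]
  have h2 := cube0 ν z Λ D ω (fun i _ => hω i) hΛ
  have h3 : ν z ≤ Λ := by
    have h4 := hΛ D (Finset.Subset.refl _)
    have h5 : res D z = z := by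
      funext i
      by_cases hiD : i ∈ D
      · simp [res, hiD]
      · simp [res, hiD, hz0 i hiD]
    rwa [h5] at h4
  rw [h1]
  refine (map_sub_le_add ν _ _).trans ?_
  have h4 := map_add_le_add ν y z
  have hK0 : 0 ≤ K := by linarith [h.K1]
  have h5 : K * ν (y + z) ≤ K * (ν y + Λ) := mul_le_mul_of_nonneg_left (by linarith) hK0
  calc _ ≤ K * ν (y + z) + Λ := add_le_add hωK h2
    _ ≤ _ := by linarith

include h in
/-- One reduction step. -/
theorem onestep (hM : ∀ (a : ι → 𝕜) (B : Finset ι), Gr a B → ν (res B a) ≤ M * ν a)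
    (hγ : 1 < γ) (ht : 0 < t) (y : ι → 𝕜) (B S : Finset ι) (hB : Thr y t B)
    (hS : S ⊆ big y (γ * t)) (hSg : Gr y S) (hSc : S.card = (big y (γ * t)).card / 2) :
    ∃ (y' : ι → 𝕜) (B' : Finset ι), Thr y' t B' ∧ (∀ i, y i = 0 → y' i = 0) ∧
      (∀ i ∈ S, y' i = 0) ∧ (big y' (γ * t)).card ≤ (big y (γ * t)).card - S.card ∧
      ν y' ≤ (1 + K) * ν y ∧
      ν (res B y) ≤ (K + 2 * L * M / γ) * ν y + ν (res B' y') := by
  set E := big y (γ * t) with hE
  have hts : t < γ * t := by nlinarith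
  have hEB : E ⊆ B := fun i hi => by
    by_contra h1
    have h2 := hB.2 i h1
    have h3 := mem_big.1 hi
    linarith
  obtain ⟨ω, hω, hω1, hω0, hωK⟩ := h.vp y S E (E.card / 2) hS hSg (gr_big y _) hSc.le (by omega)
  set y' := comp ω y with hy'
  set B' := B.filter (fun i => t ≤ ‖y' i‖) with hB'
  have hyS : ∀ i ∈ S, y' i = 0 := fun i hi => by
    simp only [hy', comp, hω1 i hi, sub_self, RCLike.ofReal_zero, zero_mul]
  refine ⟨y', B', ⟨fun i hi => (Finset.mem_filter.1 hi).2, fun i hi => ?_⟩, fun i hi => ?_, hyS,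
    ?_, nu_comp hωK, ?_⟩
  · by_cases hiB : i ∈ B
    · rw [hB', Finset.mem_filter, not_and] at hi
      exact (not_le.1 (hi hiB)).le
    · exact (norm_comp_le hω y i).trans (hB.2 i hiB)
  · simp only [hy', comp, hi, mul_zero]
  · have h1 : big y' (γ * t) ⊆ E \ S := fun i hi => by
      rw [Finset.mem_sdiff]
      have h2 := mem_big.1 hi
      refine ⟨mem_big.2 (h2.trans (norm_comp_le hω y i)), fun h3 => ?_⟩
      rw [hyS i h3, norm_zero] at h2
      linarith
    have h2 := Finset.card_le_card h1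
    rwa [Finset.card_sdiff_of_subset hS] at h2
  · have h1 : res B y = (fun i => (ω i : 𝕜) * y i) + (res B' y' +
        res (B \ B') (fun i => ((1 - ω i : ℝ) : 𝕜) * y i)) := by
      funext i
      by_cases hiB : i ∈ B
      · by_cases hiB' : i ∈ B'
        · simp only [res, hiB, hiB', if_true, Pi.add_apply, Finset.mem_sdiff, not_true_eq_false,
            and_false, if_false, add_zero, hy', comp, RCLike.ofReal_sub, RCLike.ofReal_one]
          ring
        · simp only [res, hiB, hiB', if_true, if_false, Pi.add_apply, Finset.mem_sdiff,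
            not_false_eq_true, and_true, zero_add, RCLike.ofReal_sub, RCLike.ofReal_one]
          ring
      · have h2 : i ∉ E := fun h' => hiB (hEB h')
        have h3 : i ∉ B' := fun h' => hiB (Finset.mem_filter.1 h').1
        simp only [res, hiB, h3, if_false, Pi.add_apply, Finset.mem_sdiff, false_and,
          hω0 i h2, RCLike.ofReal_zero, zero_mul, add_zero]
    have hBE : B \ B' ⊆ E := fun i hi => by
      by_contra h2
      obtain ⟨hiB, hiB'⟩ := Finset.mem_sdiff.1 hi
      have h3 : y' i = y i := by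
        simp only [hy', comp, hω0 i h2, sub_zero, RCLike.ofReal_one, one_mul]
      refine hiB' (Finset.mem_filter.2 ⟨hiB, ?_⟩)
      rw [h3]
      exact hB.1 i hiB
    have h2 := small h hM hγ ht y (B \ B') hBE (fun i => 1 - ω i) (fun i hi => by
      refine ⟨by linarith [(hω i).2], ?_⟩
      obtain ⟨hiB, hiB'⟩ := Finset.mem_sdiff.1 hi
      have h3 : ‖y' i‖ = (1 - ω i) * ‖y i‖ := by
        simp only [hy', comp]
        rw [norm_mul, RCLike.norm_ofReal, abs_of_nonneg (by linarith [(hω i).2])]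
      have h4 : ¬ t ≤ ‖y' i‖ := fun h' => hiB' (Finset.mem_filter.2 ⟨hiB, h'⟩)
      rw [h3] at h4
      exact (not_le.1 h4).le)
    rw [h1]
    have h3 := map_add_le_add ν (fun i => (ω i : 𝕜) * y i) (res B' y' +
        res (B \ B') (fun i => ((1 - ω i : ℝ) : 𝕜) * y i))
    have h4 := map_add_le_add ν (res B' y') (res (B \ B') (fun i => ((1 - ω i : ℝ) : 𝕜) * y i))
    linarith

include h hM hM0 hγ hΦ hΦ0 in
/-- Iterated reduction. -/
theorem iter (ht : 0 < t) (z : ι → 𝕜) (D : Finset ι) (hz0 : ∀ i, i ∉ D → z i = 0)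
    (hzt : ∀ i ∈ D, ‖z i‖ = t) {Λ : ℝ} (hΛ : ∀ A ⊆ D, ν (res A z) ≤ Λ) (n : ℕ)
    (hn : 4 * n ≤ D.card) (k : ℕ) : ∀ (y : ι → 𝕜) (B : Finset ι), Thr y t B →
      (∀ i ∈ D, y i = 0) → (big y (γ * t)).card ≤ 2 ^ k * n →
      ν (res B y) ≤ (2 + K) ^ k * ((K + Φ * (1 + K) + 2 * L * M / γ) * ν y + (K + 1) * Λ) := by
  have hK := h.K1
  have hL := h.L1
  have hm0 : 0 ≤ 2 * L * M / γ := by positivity
  have hΛ0 : 0 ≤ Λ := (apply_nonneg ν _).trans (hΛ ∅ (Finset.empty_subset _))
  induction k with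
  | zero =>
    intro y B hB hyD hc
    rw [pow_zero, one_mul] at hc ⊢
    have hy := apply_nonneg ν y
    have hKL : 0 ≤ (K + 1) * Λ := by positivity
    have hmy : 0 ≤ 2 * L * M / γ * ν y := by positivity
    by_cases h1 : 4 * (big y (γ * t)).card ≤ B.card
    · have h2 := flat h hγ hΦ0 hΦ ht y B hB h1
      linarith
    · have h2 := filler h ht y z B D hB hyD (by omega) hz0 hzt hΛ
      have h3 : 0 ≤ Φ * (1 + K) * ν y := by positivity
      linarith
  | succ k ih =>
    intro y B hB hyD hc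
    have hts : t < γ * t := by nlinarith
    obtain ⟨S, _, hSE, hSc, hSg⟩ := exists_between y ∅ (big y (γ * t)) (fun i hi => absurd hi (by simp))
      (gr_big y _) (Finset.empty_subset _) ((big y (γ * t)).card / 2) (by
        rw [Finset.card_empty]; omega)
    rw [Finset.card_empty, zero_add] at hSc
    obtain ⟨y', B', hB', hy0, hyS, hc', hny, hle⟩ := onestep h hM hγ ht y B S hB hSE hSg hSc
    have h1 := ih y' B' hB' (fun i hi => hy0 i (hyD i hi)) (by
      have e : 2 ^ (k + 1) * n = 2 * (2 ^ k * n) := by ring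
      rw [e] at hc
      generalize 2 ^ k * n = q at hc ⊢
      omega)
    have hy := apply_nonneg ν y
    have hKL : 0 ≤ (K + 1) * Λ := by positivity
    have hp : (1 : ℝ) ≤ (2 + K) ^ k := one_le_pow₀ (by linarith)
    set A := K + Φ * (1 + K) + 2 * L * M / γ with hA
    have hA0 : 0 ≤ A := by positivity
    have hKA : K + 2 * L * M / γ ≤ A := by
      have : 0 ≤ Φ * (1 + K) := by positivity
      linarith
    have h2 : A * ν y' ≤ A * ((1 + K) * ν y) := mul_le_mul_of_nonneg_left hny hA0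
    have h3 : (2 + K) ^ k * (A * ν y' + (K + 1) * Λ) ≤
        (2 + K) ^ k * (A * ((1 + K) * ν y) + (K + 1) * Λ) :=
      mul_le_mul_of_nonneg_left (by linarith) (by linarith)
    have h4 : (K + 2 * L * M / γ) * ν y ≤ (2 + K) ^ k * (A * ν y) := by
      have h5 : (K + 2 * L * M / γ) * ν y ≤ A * ν y := mul_le_mul_of_nonneg_right hKA hy
      have h6 : 0 ≤ A * ν y := by positivity
      nlinarith
    have h5 : (2 + K) ^ k * ((K + 1) * Λ) ≤ (2 + K) ^ (k + 1) * ((K + 1) * Λ) := by
      rw [pow_succ]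
      have : 0 ≤ (2 + K) ^ k * ((K + 1) * Λ) := by positivity
      nlinarith
    calc ν (res B y) ≤ (K + 2 * L * M / γ) * ν y + ν (res B' y') := hle
      _ ≤ (2 + K) ^ k * (A * ν y) + (2 + K) ^ k * (A * ((1 + K) * ν y) + (K + 1) * Λ) := by
          linarith
      _ = (2 + K) ^ (k + 1) * (A * ν y) + (2 + K) ^ k * ((K + 1) * Λ) := by rw [pow_succ]; ring
      _ ≤ _ := by linarith

theorem nu_res_card (hcf : ∀ (a : ι → 𝕜) (i : ι), ν (res {i} a) ≤ c * ν a) (a : ι → 𝕜)
    (B : Finset ι) : ν (res B a) ≤ B.card * (c * ν a) := by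
  induction B using Finset.induction_on with
  | empty =>
    have : res ∅ a = 0 := by funext i; simp [res]
    rw [this, map_zero, Finset.card_empty, Nat.cast_zero, zero_mul]
  | insert b B hb ih =>
    have h1 : res (insert b B) a = res {b} a + res B a := by
      funext i
      by_cases hi : i = b
      · subst hi
        simp [res, hb]
      · simp [res, hi]
    rw [h1, Finset.card_insert_of_notMem hb]
    have h2 := map_add_le_add ν (res {b} a) (res B a)
    have h3 := hcf a b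
    push_cast
    linarith

include h hM hM0 hγ hΦ hΦ0 in
/-- The bootstrap estimate. -/
theorem boot (a : ι → 𝕜) (B : Finset ι) (hB : Gr a B) :
    ν (res B a) ≤ (32 * c + 1 + (2 + K) ^ 4 * (K + Φ * (1 + K)) +
      2 * (2 + K) ^ 4 * (2 * L * M / γ)) * ν a := by
  have hK := h.K1
  have hL := h.L1
  have hc := h.c1
  have ha := apply_nonneg ν a
  set m₀ := 2 * L * M / γ with hm
  have hm0 : 0 ≤ m₀ := by positivity
  have hp3 : (1 : ℝ) ≤ (2 + K) ^ 3 := one_le_pow₀ (by linarith)
  have hp4 : (2 + K) ^ 4 = (2 + K) ^ 3 * (2 + K) := by ring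
  set P := (2 + K) ^ 3 with hP
  have hA0 : 0 ≤ K + Φ * (1 + K) := by positivity
  rw [hp4]
  have hs1 : 0 ≤ P * (2 + K) * (K + Φ * (1 + K)) := by positivity
  have hs2 : 0 ≤ 2 * (P * (2 + K)) * m₀ := by positivity
  rcases B.eq_empty_or_nonempty with hBe | hBne
  · have : res B a = 0 := by
      rw [hBe]; funext i; simp [res]
    rw [this, map_zero]
    positivity
  obtain ⟨n0, hn0, hmin⟩ := B.exists_min_image (fun n => ‖a n‖) hBne
  set t := ‖a n0‖ with ht
  have hThr : Thr a t B := ⟨hmin, fun i hi => hB n0 hn0 i hi⟩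
  rcases (norm_nonneg (a n0)).eq_or_lt with h0 | htpos'
  · have h1 : res B a = a := by
      funext i
      by_cases hi : i ∈ B
      · simp [res, hi]
      · have h2 := hThr.2 i hi
        rw [ht, ← h0] at h2
        have h3 : a i = 0 := norm_le_zero_iff.1 h2
        simp [res, hi, h3]
    rw [h1]
    nlinarith
  have htpos : 0 < t := htpos'
  have hpK : 1 ≤ P * (2 + K) := by nlinarith
  by_cases h1 : 4 * (big a (γ * t)).card ≤ B.card
  · have h2 := flat h hγ hΦ0 hΦ htpos a B hThr h1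
    refine h2.trans (mul_le_mul_of_nonneg_right ?_ ha)
    nlinarith
  by_cases h2 : (big a (γ * t)).card < 8
  · have h3 := nu_res_card h.coef a B
    have h4 : (B.card : ℝ) ≤ 32 := by
      have : B.card ≤ 32 := by omega
      exact_mod_cast this
    have h5 : (B.card : ℝ) * (c * ν a) ≤ 32 * (c * ν a) :=
      mul_le_mul_of_nonneg_right h4 (by positivity)
    nlinarith
  obtain ⟨S, _, hSE, hSc, hSg⟩ := exists_between a ∅ (big a (γ * t)) (fun i hi => absurd hi (by simp))
    (gr_big a _) (Finset.empty_subset _) ((big a (γ * t)).card / 2) (by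
      rw [Finset.card_empty]; omega)
  rw [Finset.card_empty, zero_add] at hSc
  obtain ⟨y', B', hB', hy0, hyS, hc', hny, hle⟩ := onestep h hM hγ htpos a B S hThr hSE hSg hSc
  have hst : 0 < γ * t := by positivity
  have hSpos : ∀ i ∈ S, 0 < ‖a i‖ := fun i hi => lt_of_lt_of_le hst (mem_big.1 (hSE hi))
  set z : ι → 𝕜 := res S (fun i => ((t / ‖a i‖ : ℝ) : 𝕜) * a i) with hz
  have h3 := iter h hM hM0 hγ hΦ0 hΦ htpos z S (fun i hi => by simp [hz, res, hi]) (fun i hi => by
      simp only [hz, res, hi, if_true]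
      rw [norm_mul, RCLike.norm_ofReal, abs_of_pos (div_pos htpos (hSpos i hi)),
        div_mul_cancel₀ _ (hSpos i hi).ne'])
    (Λ := m₀ * ν a) (fun A hA => by
      have h4 := small h hM hγ htpos a A (hA.trans hSE) (fun i => t / ‖a i‖) (fun i hi => by
        have h5 := hSpos i (hA hi)
        refine ⟨(div_pos htpos h5).le, ?_⟩
        rw [div_mul_cancel₀ _ h5.ne'])
      have h5 : res A z = res A (fun i => ((t / ‖a i‖ : ℝ) : 𝕜) * a i) := by
        rw [hz, res_res, Finset.inter_eq_left.2 hA]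
      rw [h5]
      exact h4) ((big a (γ * t)).card / 8) (by omega) 3 y' B' hB' hyS (by omega)
  rw [← hP, ← hm] at h3
  have h4 : (K + Φ * (1 + K) + m₀) * ν y' ≤ (K + Φ * (1 + K) + m₀) * ((1 + K) * ν a) :=
    mul_le_mul_of_nonneg_left hny (by positivity)
  have h5 : P * ((K + Φ * (1 + K) + m₀) * ν y' + (K + 1) * (m₀ * ν a)) ≤
      P * ((K + Φ * (1 + K) + m₀) * ((1 + K) * ν a) + (K + 1) * (m₀ * ν a)) :=
    mul_le_mul_of_nonneg_left (by linarith) (by linarith)
  have h6 : ν (res B a) ≤ ((K + m₀) + P * ((K + Φ * (1 + K) + m₀) * (1 + K) + (K + 1) * m₀)) *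
      ν a := by
    calc ν (res B a) ≤ _ := hle
      _ ≤ (K + m₀) * ν a +
        P * ((K + Φ * (1 + K) + m₀) * ((1 + K) * ν a) + (K + 1) * (m₀ * ν a)) := by linarith
      _ = _ := by ring
  refine h6.trans (mul_le_mul_of_nonneg_right ?_ ha)
  have h7 : K ≤ P * (K + Φ * (1 + K)) := by
    have : 0 ≤ Φ * (1 + K) := by positivity
    nlinarith
  have h8 : m₀ ≤ P * m₀ := by nlinarith
  have h9 : 0 ≤ P * m₀ := by positivity
  nlinarith

end Boot

end Pool.Agent.X202.VP
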