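import Mathlib
import Pool.Agent.X202.VP2

set_option autoImplicit false
set_option linter.unusedSectionVars false

/-!
# de la Vallee-Poussin means: the uniform finite-dimensional bound
-/

namespace Pool.Agent.X202.VP

theorem finite_bound {𝕜 : Type} [RCLike 𝕜] {K L c : ℝ} (hK : 1 ≤ K) (hL : 1 ≤ L) (hc : 1 ≤ c) :
    ∃ C : ℝ, 0 ≤ C ∧ ∀ (ι : Type) [Fintype ι] [DecidableEq ι] (ν : Seminorm 𝕜 (ι → 𝕜)),
      Hyp ν K L c → ∀ (a : ι → 𝕜) (B : Finset ι), Gr a B → ν (res B a) ≤ C * ν a := by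
  set γ : ℝ := 8 * L * (2 + K) ^ 4 with hγ
  have hp4 : (1 : ℝ) ≤ (2 + K) ^ 4 := one_le_pow₀ (by linarith)
  have hγ1 : 1 < γ := by
    rw [hγ]
    nlinarith
  have hL2 : 1 ≤ L ^ 2 := one_le_pow₀ hL
  have hδ : 1 / (2 * L ^ 2) ≤ 1 / 2 := by
    rw [div_le_div_iff₀ (by positivity) (by norm_num)]
    linarith
  have hδ0 : 0 < 1 / (2 * L ^ 2) := by positivity
  obtain ⟨k, hk⟩ := exists_pow_lt_of_lt_one (inv_pos.2 (by linarith : 0 < γ))
    (by linarith : 1 - 1 / (2 * L ^ 2) < 1)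
  set θ : ℝ := 1 - 1 / (2 * L ^ 2) with hθ
  have hθ0 : 0 < θ := by linarith
  have hθ1 : θ ≤ 1 := by linarith
  set Φ : ℝ := 2 * L ^ 2 * (1 + 4 * L ^ 2) ^ k with hΦ
  have hΦ0 : 0 ≤ Φ := by positivity
  set C₁ : ℝ := 32 * c + 1 + (2 + K) ^ 4 * (K + Φ * (1 + K)) with hC
  have hC0 : 0 ≤ C₁ := by positivity
  refine ⟨2 * C₁, by positivity, ?_⟩
  intro ι _ _ ν h a B hB
  have hΦ' : ∀ (a : ι → 𝕜) (s : ℝ), 0 < s → (∀ i, ‖a i‖ ≤ γ * s) → ∀ A : Finset ι,
      (∀ i ∈ A, s ≤ ‖a i‖) → ν (res A a) ≤ Φ * ν a := by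
    intro a s hs ha A hA
    refine h.power k a (γ * s) (by positivity) ha A fun n hn => ?_
    refine le_trans ?_ (hA n hn)
    have h1 : θ ^ (k + 1) ≤ θ ^ k := pow_le_pow_of_le_one hθ0.le hθ1 (Nat.le_succ k)
    have h2 : γ * θ ^ (k + 1) ≤ 1 := by
      calc γ * θ ^ (k + 1) ≤ γ * γ⁻¹ :=
            mul_le_mul_of_nonneg_left (h1.trans hk.le) (by linarith)
        _ = 1 := mul_inv_cancel₀ (by linarith)
    calc γ * s * θ ^ (k + 1) = s * (γ * θ ^ (k + 1)) := by ring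
      _ ≤ s * 1 := mul_le_mul_of_nonneg_left h2 hs.le
      _ = s := mul_one s
  set M₀ : ℝ := Fintype.card ι * c with hM₀
  have hM0 : 0 ≤ M₀ := by positivity
  have key : ∀ n : ℕ, ∀ (a : ι → 𝕜) (B : Finset ι), Gr a B →
      ν (res B a) ≤ (2 * C₁ + M₀ / 2 ^ n) * ν a := by
    intro n
    induction n with
    | zero =>
      intro a B _
      have h1 := nu_res_card h.coef a B
      have h2 : (B.card : ℝ) ≤ Fintype.card ι := by exact_mod_cast Finset.card_le_univ B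
      have h3 := apply_nonneg ν a
      have h4 : (B.card : ℝ) * (c * ν a) ≤ Fintype.card ι * (c * ν a) :=
        mul_le_mul_of_nonneg_right h2 (by positivity)
      rw [pow_zero, div_one]
      have : 0 ≤ 2 * C₁ * ν a := by positivity
      calc ν (res B a) ≤ Fintype.card ι * (c * ν a) := h1.trans h4
        _ ≤ (2 * C₁ + M₀) * ν a := by rw [hM₀]; nlinarith
    | succ n ih =>
      intro a B hB
      have h1 := boot h ih (by positivity) hγ1 hΦ0 hΦ' a B hB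
      have h2 : 2 * (2 + K) ^ 4 * (2 * L * (2 * C₁ + M₀ / 2 ^ n) / γ) = C₁ + M₀ / 2 ^ (n + 1) := by
        have h3 : (2 + K) ^ 4 ≠ 0 := by positivity
        have h4 : L ≠ 0 := by positivity
        rw [hγ, pow_succ]
        field_simp
        ring
      rw [h2, ← hC] at h1
      calc ν (res B a) ≤ _ := h1
        _ = _ := by ring
  have hlim : Filter.Tendsto (fun n : ℕ => (2 * C₁ + M₀ / 2 ^ n) * ν a) Filter.atTop
      (nhds ((2 * C₁ + 0) * ν a)) := by
    refine Filter.Tendsto.mul_const _ (Filter.Tendsto.const_add _ ?_)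
    have h1 : Filter.Tendsto (fun n : ℕ => ((1 : ℝ) / 2) ^ n) Filter.atTop (nhds 0) :=
      tendsto_pow_atTop_nhds_zero_of_lt_one (by norm_num) (by norm_num)
    have h2 := h1.const_mul M₀
    rw [mul_zero] at h2
    refine h2.congr fun n => ?_
    rw [one_div, inv_pow, div_eq_mul_inv]
  rw [add_zero] at hlim
  exact ge_of_tendsto' hlim fun n => key n a B hB

end Pool.Agent.X202.VP
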