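import Mathlib

set_option autoImplicit false
set_option linter.unusedSectionVars false

/-!
# de la Vallee-Poussin means: weighted sums along lists
-/

namespace Pool.Agent.X202.VP

universe u

/-- The weights of the de la Vallee-Poussin means. -/
noncomputable def wt (m j : ℕ) : ℝ :=
  if j < m then 1 else if j < 2 * m then (2 * m - j : ℝ) / m else 0

theorem wt_one {m j : ℕ} (h : j < m) : wt m j = 1 := by simp [wt, h]

theorem wt_zero {m j : ℕ} (h : 2 * m ≤ j) : wt m j = 0 := by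
  unfold wt
  rw [if_neg (by omega), if_neg (by omega)]

theorem wt_nonneg (m j : ℕ) : 0 ≤ wt m j := by
  unfold wt
  split_ifs with h1 h2
  · exact zero_le_one
  · have : (j : ℝ) ≤ 2 * m := by exact_mod_cast h2.le
    exact div_nonneg (by linarith) (Nat.cast_nonneg _)
  · exact le_rfl

theorem wt_anti (m j : ℕ) : wt m (j + 1) ≤ wt m j := by
  rcases Nat.eq_zero_or_pos m with h0 | hm
  · subst h0; simp [wt]
  have hm' : (0 : ℝ) < m := by exact_mod_cast hm
  unfold wt
  by_cases h1 : j < m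
  · rw [if_pos h1]
    split_ifs with h2 h3
    · exact le_rfl
    · rw [div_le_one hm']
      have : (m : ℝ) ≤ (j + 1 : ℕ) := by exact_mod_cast (not_lt.1 h2)
      linarith
    · exact zero_le_one
  · rw [if_neg h1, if_neg (by omega : ¬ j + 1 < m)]
    split_ifs with h2 h3 h3
    · rw [div_le_div_iff_of_pos_right hm']
      push_cast
      linarith
    · omega
    · have : (j : ℝ) ≤ 2 * m := by exact_mod_cast h3.le
      exact div_nonneg (by linarith) hm'.le
    · exact le_rfl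

theorem wt_le_one (m j : ℕ) : wt m j ≤ 1 := by
  induction j with
  | zero =>
    unfold wt
    split_ifs with h1 h2
    · exact le_rfl
    · omega
    · exact zero_le_one
  | succ j ih => exact (wt_anti m j).trans ih

section Lists

variable {𝕜 : Type} [RCLike 𝕜] {X : Type u} [NormedAddCommGroup X] [NormedSpace 𝕜 X] (e : ℕ → X)

/-- Weighted sum along a list of (index, coefficient) pairs. -/
noncomputable def W (w : ℕ → ℝ) : ℕ → List (ℕ × 𝕜) → X
  | _, [] => 0
  | s, p :: l => ((w s : 𝕜) * p.2) • e p.1 + W w (s + 1) l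

/-- The vector given by a list. -/
noncomputable def Sm (l : List (ℕ × 𝕜)) : X := W e (fun _ => 1) 0 l

theorem W_append (w : ℕ → ℝ) (s : ℕ) (l₁ l₂ : List (ℕ × 𝕜)) :
    W e w s (l₁ ++ l₂) = W e w s l₁ + W e w (s + l₁.length) l₂ := by
  induction l₁ generalizing s with
  | nil => simp [W]
  | cons p l ih =>
    have e1 : s + 1 + l.length = s + (l.length + 1) := by omega
    rw [List.cons_append, W, W, ih, e1, List.length_cons, add_assoc]

theorem W_one (s : ℕ) (l : List (ℕ × 𝕜)) : W e (fun _ => 1) s l = Sm e l := by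
  have : ∀ s t, W e (fun _ => 1) s l = W e (fun _ => 1) t l := by
    induction l with
    | nil => intro s t; rfl
    | cons p l ih => intro s t; rw [W, W, ih (s + 1) (t + 1)]
  exact this s 0

theorem Sm_nil : Sm e ([] : List (ℕ × 𝕜)) = 0 := rfl

theorem Sm_cons (p : ℕ × 𝕜) (l : List (ℕ × 𝕜)) : Sm e (p :: l) = p.2 • e p.1 + Sm e l := by
  rw [Sm, W, W_one]
  simp

theorem Sm_append (l₁ l₂ : List (ℕ × 𝕜)) : Sm e (l₁ ++ l₂) = Sm e l₁ + Sm e l₂ := by
  rw [Sm, W_append, W_one, W_one]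

/-- Shifting the weights by one place. -/
theorem W_shift {w : ℕ → ℝ} (hw : ∀ j, w (j + 1) ≤ w j) {D : ℝ} (l : List (ℕ × 𝕜)) :
    ∀ s, (∀ p ∈ l, ‖p.2‖ * ‖e p.1‖ ≤ D) → 
    ‖W e w (s + 1) l - W e w s l‖ ≤ D * (w s - w (s + l.length)) := by
  induction l with
  | nil => intro s _; simp [W]
  | cons p l ih =>
    intro s hD
    have h1 := ih (s + 1) (fun q hq => hD q (List.mem_cons_of_mem _ hq))
    have h2 := hD p List.mem_cons_self
    have e1 : W e w (s + 1) (p :: l) - W e w s (p :: l) =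
        ((w (s + 1) - w s : ℝ) : 𝕜) • (p.2 • e p.1) + (W e w (s + 1 + 1) l - W e w (s + 1) l) := by
      rw [W, W, RCLike.ofReal_sub, mul_smul, mul_smul, sub_smul]
      abel
    rw [e1]
    refine (norm_add_le _ _).trans ?_
    rw [norm_smul, norm_smul, RCLike.norm_ofReal, abs_of_nonpos (by linarith [hw s]),
      List.length_cons]
    have h3 : -(w (s + 1) - w s) * (‖p.2‖ * ‖e p.1‖) ≤ -(w (s + 1) - w s) * D :=
      mul_le_mul_of_nonneg_left h2 (by linarith [hw s])
    have h4 : s + (l.length + 1) = s + 1 + l.length := by omega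
    rw [h4]
    linarith

theorem W_shift_le (m : ℕ) {D : ℝ} (hD0 : 0 ≤ D) (l : List (ℕ × 𝕜)) (s : ℕ)
    (hD : ∀ p ∈ l, ‖p.2‖ * ‖e p.1‖ ≤ D) :
    ‖W e (wt m) (s + 1) l - W e (wt m) s l‖ ≤ D := by
  refine (W_shift e (wt_anti m) l s hD).trans ?_
  have h1 := wt_le_one m s
  have h2 := wt_nonneg m (s + l.length)
  nlinarith

theorem W_shift_n (m : ℕ) {D : ℝ} (hD0 : 0 ≤ D) (l : List (ℕ × 𝕜))
    (hD : ∀ p ∈ l, ‖p.2‖ * ‖e p.1‖ ≤ D) (k : ℕ) :
    ‖W e (wt m) k l - W e (wt m) 0 l‖ ≤ D * k := by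
  induction k with
  | zero => simp
  | succ k ih =>
    have h1 := W_shift_le e m hD0 l k hD
    have h2 : W e (wt m) (k + 1) l - W e (wt m) 0 l =
        (W e (wt m) (k + 1) l - W e (wt m) k l) + (W e (wt m) k l - W e (wt m) 0 l) := by abel
    rw [h2]
    refine (norm_add_le _ _).trans ?_
    push_cast
    linarith

theorem W_bound (m : ℕ) {D : ℝ} (hD0 : 0 ≤ D) (l : List (ℕ × 𝕜)) :
    ∀ s, (∀ p ∈ l, ‖p.2‖ * ‖e p.1‖ ≤ D) → ‖W e (wt m) s l‖ ≤ ((2 * m - s : ℕ) : ℝ) * D := by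
  induction l with
  | nil => intro s _; rw [W, norm_zero]; positivity
  | cons p l ih =>
    intro s hD
    have h1 := ih (s + 1) (fun q hq => hD q (List.mem_cons_of_mem _ hq))
    have h2 := hD p List.mem_cons_self
    rw [W]
    refine (norm_add_le _ _).trans ?_
    rw [norm_smul, norm_mul, RCLike.norm_ofReal, abs_of_nonneg (wt_nonneg m s), mul_assoc]
    by_cases h3 : s < 2 * m
    · have h4 : wt m s * (‖p.2‖ * ‖e p.1‖) ≤ D := by
        have h5 : 0 ≤ ‖p.2‖ * ‖e p.1‖ := by positivity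
        nlinarith [wt_le_one m s, wt_nonneg m s]
      have h5 : ((2 * m - s : ℕ) : ℝ) = ((2 * m - (s + 1) : ℕ) : ℝ) + 1 := by
        have : 2 * m - s = (2 * m - (s + 1)) + 1 := by omega
        exact_mod_cast this
      rw [h5]
      linarith
    · have h4 : wt m s = 0 := wt_zero (by omega)
      have h5 : 2 * m - s = 0 := by omega
      have h6 : 2 * m - (s + 1) = 0 := by omega
      rw [h6] at h1
      rw [h4, h5]
      simp only [Nat.cast_zero, zero_mul] at h1 ⊢
      linarith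

/-- Scaling. -/
theorem W_smul (w : ℕ → ℝ) (r : 𝕜) (l : List (ℕ × 𝕜)) : ∀ s,
    W e w s (l.map fun p => (p.1, r * p.2)) = r • W e w s l := by
  induction l with
  | nil => intro s; simp [W]
  | cons p l ih =>
    intro s
    rw [List.map_cons, W, W, ih, smul_add, smul_smul]
    congr 2
    ring

/-- The sum as a finite sum over positions. -/
theorem W_eq_sum (w : ℕ → ℝ) (l : List (ℕ × 𝕜)) : ∀ s,
    W e w s l = ∑ j ∈ Finset.range l.length,
      ((w (s + j) : 𝕜) * (l.getD j (0, 0)).2) • e (l.getD j (0, 0)).1 := by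
  induction l with
  | nil => intro s; simp [W]
  | cons p l ih =>
    intro s
    rw [W, ih, List.length_cons, Finset.sum_range_succ', add_comm]
    congr 1
    refine Finset.sum_congr rfl fun j _ => ?_
    rw [List.getD_cons_succ]
    congr 3
    congr 1
    omega

variable (f : ℕ → (X →L[𝕜] 𝕜)) (hbi : ∀ m n : ℕ, f m (e n) = if m = n then 1 else 0)

/-- Good lists. -/
def Good (l : List (ℕ × 𝕜)) : Prop :=
  (l.map Prod.fst).Nodup ∧ l.Pairwise (fun p q => ‖q.2‖ ≤ ‖p.2‖)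

theorem Good.sublist {l l' : List (ℕ × 𝕜)} (h : Good l) (hs : List.Sublist l' l) : Good l' :=
  ⟨h.1.sublist (hs.map _), h.2.sublist hs⟩

include hbi

theorem f_Sm_of_notMem (n : ℕ) (l : List (ℕ × 𝕜)) (h : n ∉ l.map Prod.fst) :
    f n (Sm e l) = 0 := by
  induction l with
  | nil => rw [Sm_nil, map_zero]
  | cons p l ih =>
    rw [List.map_cons, List.mem_cons, not_or] at h
    rw [Sm_cons, map_add, map_smul, hbi, if_neg h.1, smul_zero, zero_add, ih h.2]

theorem f_Sm_of_mem (l : List (ℕ × 𝕜)) (hl : (l.map Prod.fst).Nodup) (p : ℕ × 𝕜) (hp : p ∈ l) :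
    f p.1 (Sm e l) = p.2 := by
  induction l with
  | nil => simp at hp
  | cons q l ih =>
    rw [List.map_cons, List.nodup_cons] at hl
    rw [Sm_cons, map_add, map_smul, hbi]
    rcases List.mem_cons.1 hp with h1 | h1
    · subst h1
      rw [if_pos rfl, f_Sm_of_notMem e f hbi _ _ hl.1, add_zero, smul_eq_mul, mul_one]
    · have h2 : p.1 ≠ q.1 := fun h' => hl.1 (by rw [← h']; exact List.mem_map_of_mem h1)
      rw [if_neg h2, smul_zero, zero_add, ih hl.2 h1]

variable {c : ℝ} (hc0 : 0 ≤ c) (he : ∀ n, ‖e n‖ ≤ c) (hf : ∀ n, ‖f n‖ ≤ c)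
include hc0 he hf

theorem coef_le {l : List (ℕ × 𝕜)} (hl : (l.map Prod.fst).Nodup) {p : ℕ × 𝕜} (hp : p ∈ l) :
    ‖p.2‖ ≤ c * ‖Sm e l‖ := by
  rw [← f_Sm_of_mem e f hbi l hl p hp]
  exact (ContinuousLinearMap.le_opNorm _ _).trans
    (mul_le_mul_of_nonneg_right (hf _) (norm_nonneg _))

theorem coef_mul_le {l : List (ℕ × 𝕜)} (hl : (l.map Prod.fst).Nodup) {p : ℕ × 𝕜} (hp : p ∈ l) :
    ‖p.2‖ * ‖e p.1‖ ≤ c * c * ‖Sm e l‖ := by
  have h1 := coef_le e f hbi hc0 he hf hl hp
  have h2 := he p.1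
  calc ‖p.2‖ * ‖e p.1‖ ≤ (c * ‖Sm e l‖) * c :=
        mul_le_mul h1 h2 (norm_nonneg _) (by positivity)
    _ = _ := by ring

/-- Uniform boundedness off a finite set. -/
def Bdd (A : Finset ℕ) : Prop := ∃ K : ℝ, ∀ l : List (ℕ × 𝕜), Good l → (∀ p ∈ l, p.1 ∉ A) →
  ∀ m, ‖W e (wt m) 0 l‖ ≤ K * ‖Sm e l‖

theorem Bdd.erase {A : Finset ℕ} {q : ℕ} (h : Bdd (𝕜 := 𝕜) e (insert q A)) :
    Bdd (𝕜 := 𝕜) e A := by
  obtain ⟨K, hK⟩ := h
  refine ⟨|K| * (1 + c * c) + 2 * (c * c), fun l hl hA m => ?_⟩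
  have hS := norm_nonneg (Sm e l)
  by_cases hq : q ∈ l.map Prod.fst
  · obtain ⟨p, hp, hpq⟩ := List.mem_map.1 hq
    obtain ⟨s, t, rfl⟩ := List.append_of_mem hp
    have hsub : List.Sublist (s ++ t) (s ++ p :: t) := (List.sublist_cons_self p t).append_left s
    have h1 := hK (s ++ t) (hl.sublist hsub) (fun r hr => by
      rw [Finset.mem_insert, not_or]
      refine ⟨fun h' => ?_, hA r (hsub.subset hr)⟩
      have h2 := hl.1
      rw [List.map_append, List.map_cons, List.nodup_middle, List.nodup_cons] at h2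
      refine h2.1 ?_
      rw [← List.map_append, hpq, ← h']
      exact List.mem_map_of_mem hr) m
    have hD : ‖p.2‖ * ‖e p.1‖ ≤ c * c * ‖Sm e (s ++ p :: t)‖ :=
      coef_mul_le e f hbi hc0 he hf hl.1 hp
    have hDt : ∀ r ∈ t, ‖r.2‖ * ‖e r.1‖ ≤ c * c * ‖Sm e (s ++ p :: t)‖ := fun r hr =>
      coef_mul_le e f hbi hc0 he hf hl.1
        (List.mem_append_right _ (List.mem_cons_of_mem _ hr))
    have h2 := W_shift_le e m (by positivity) t s.length hDt
    have h3 : W e (wt m) 0 (s ++ p :: t) = W e (wt m) 0 (s ++ t) +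
        ((wt m s.length : 𝕜) • (p.2 • e p.1)) +
        (W e (wt m) (s.length + 1) t - W e (wt m) s.length t) := by
      rw [W_append, W_append, W, zero_add, mul_smul]
      abel
    have h4 : ‖((wt m s.length : 𝕜) • (p.2 • e p.1))‖ ≤ c * c * ‖Sm e (s ++ p :: t)‖ := by
      rw [norm_smul, norm_smul, RCLike.norm_ofReal, abs_of_nonneg (wt_nonneg _ _)]
      have h5 : 0 ≤ ‖p.2‖ * ‖e p.1‖ := by positivity
      nlinarith [wt_le_one m s.length, wt_nonneg m s.length]
    have h5 : ‖Sm e (s ++ t)‖ ≤ (1 + c * c) * ‖Sm e (s ++ p :: t)‖ := by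
      have h6 : Sm e (s ++ t) = Sm e (s ++ p :: t) - p.2 • e p.1 := by
        rw [Sm_append, Sm_append, Sm_cons]
        abel
      have h7 : ‖Sm e (s ++ t)‖ ≤ ‖Sm e (s ++ p :: t)‖ + ‖p.2 • e p.1‖ := by
        rw [h6]; exact norm_sub_le _ _
      rw [norm_smul] at h7
      linarith
    rw [h3]
    have h6 : K * ‖Sm e (s ++ t)‖ ≤ |K| * ((1 + c * c) * ‖Sm e (s ++ p :: t)‖) :=
      (mul_le_mul_of_nonneg_right (le_abs_self K) (norm_nonneg _)).trans
        (mul_le_mul_of_nonneg_left h5 (abs_nonneg _))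
    refine (norm_add₃_le).trans ?_
    linarith
  · have h1 := hK l hl (fun r hr => by
      rw [Finset.mem_insert, not_or]
      refine ⟨fun h' => hq ?_, hA r hr⟩
      rw [← h']
      exact List.mem_map_of_mem hr) m
    have h2 : K * ‖Sm e l‖ ≤ |K| * ‖Sm e l‖ :=
      mul_le_mul_of_nonneg_right (le_abs_self K) hS
    have h3 : 0 ≤ |K| * (c * c) * ‖Sm e l‖ := by positivity
    have h4 : 0 ≤ 2 * (c * c) * ‖Sm e l‖ := by positivity
    linarith

theorem Bdd.all {A : Finset ℕ} (h : Bdd (𝕜 := 𝕜) e A) : Bdd (𝕜 := 𝕜) e ∅ := by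
  induction A using Finset.induction_on with
  | empty => exact h
  | insert q A _ ih => exact ih (Bdd.erase e f hbi hc0 he hf h)

end Lists

end Pool.Agent.X202.VP
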