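import Mathlib
import Pool.Agent.X202.VP4

set_option autoImplicit false
set_option linter.unusedSectionVars false

/-!
# de la Vallee-Poussin means: gliding hump
-/

namespace Pool.Agent.X202.VP

universe u

open Filter Topology

variable {𝕜 : Type} [RCLike 𝕜] {X : Type u} [NormedAddCommGroup X] [NormedSpace 𝕜 X] (e : ℕ → X)

/-- Dropping zero coefficients. -/
theorem W_filter (w : ℕ → ℝ) (l : List (ℕ × 𝕜)) : ∀ s, l.Pairwise (fun p q => ‖q.2‖ ≤ ‖p.2‖) →
    W e w s (l.filter fun p => p.2 ≠ 0) = W e w s l := by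
  classical
  induction l with
  | nil => intro s _; rfl
  | cons p l ih =>
    intro s h
    rw [List.pairwise_cons] at h
    by_cases hp : p.2 = 0
    · have h0 : ∀ q ∈ l, q.2 = 0 := fun q hq => by
        have := h.1 q hq
        rw [hp, norm_zero] at this
        exact norm_le_zero_iff.1 this
      have h1 : (p :: l).filter (fun p => p.2 ≠ 0) = [] := by
        rw [List.filter_eq_nil_iff]
        intro q hq
        rcases List.mem_cons.1 hq with h2 | h2
        · rw [h2]; simp [hp]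
        · simp [h0 q h2]
      have h2 : ∀ (l : List (ℕ × 𝕜)) (s : ℕ), (∀ q ∈ l, q.2 = 0) → W e w s l = 0 := by
        intro l
        induction l with
        | nil => intro s _; rfl
        | cons q l ih =>
          intro s hq
          rw [W, hq q List.mem_cons_self, ih _ fun r hr => hq r (List.mem_cons_of_mem _ hr)]
          simp
      rw [h1, h2 (p :: l) s]
      · rfl
      · intro q hq
        rcases List.mem_cons.1 hq with h3 | h3
        · rw [h3]; exact hp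
        · exact h0 q h3
    · have h1 : (p :: l).filter (fun p => p.2 ≠ 0) = p :: l.filter (fun p => p.2 ≠ 0) := by
        rw [List.filter_cons_of_pos]
        simp [hp]
      rw [h1, W, W, ih _ h.2]

variable (f : ℕ → (X →L[𝕜] 𝕜)) (hbi : ∀ m n : ℕ, f m (e n) = if m = n then 1 else 0)
  {c : ℝ} (hc0 : 1 ≤ c) (he : ∀ n, ‖e n‖ ≤ c) (hf : ∀ n, ‖f n‖ ≤ c)
include hbi hc0 he hf

/-- The extension step. -/
theorem extend (hunb : ¬ Bdd (𝕜 := 𝕜) e ∅) (P : List (ℕ × 𝕜)) (hP : Good P)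
    (hP0 : ∀ p ∈ P, p.2 ≠ 0) {β : ℝ} (hβ : 0 < β) (R : ℝ) :
    ∃ (l : List (ℕ × 𝕜)) (m : ℕ), l ≠ [] ∧ Good (P ++ l) ∧ (∀ p ∈ l, p.2 ≠ 0) ∧
      (∀ p ∈ l, ‖p.2‖ ≤ c * β) ∧ ‖Sm e l‖ ≤ β ∧ R ≤ ‖W e (wt m) 0 (P ++ l)‖ := by
  classical
  have hc : 0 < c := by linarith
  -- lower bound for the coefficients of `P`
  obtain ⟨δ, hδ, hPδ⟩ : ∃ δ : ℝ, 0 < δ ∧ ∀ p ∈ P, δ ≤ ‖p.2‖ := by
    clear hP
    induction P with
    | nil => exact ⟨1, one_pos, by simp⟩
    | cons p P ih =>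
      obtain ⟨δ, hδ, h⟩ := ih fun q hq => hP0 q (List.mem_cons_of_mem _ hq)
      refine ⟨min δ ‖p.2‖, lt_min hδ (norm_pos_iff.2 (hP0 p List.mem_cons_self)), fun q hq => ?_⟩
      rcases List.mem_cons.1 hq with h1 | h1
      · rw [h1]; exact min_le_right _ _
      · exact (min_le_left _ _).trans (h q h1)
  set ρ : ℝ := min β (δ / c) with hρ
  have hρ0 : 0 < ρ := lt_min hβ (div_pos hδ hc)
  -- a bound for `W (wt m) 0 P`
  obtain ⟨CP, hCP⟩ : ∃ CP : ℝ, ∀ m, ‖W e (wt m) 0 P‖ ≤ CP := by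
    have : ∀ (P : List (ℕ × 𝕜)), ∃ CP : ℝ, ∀ m s, ‖W e (wt m) s P‖ ≤ CP := by
      intro P
      induction P with
      | nil => exact ⟨0, fun m s => by simp [W]⟩
      | cons p P ih =>
        obtain ⟨C, hC⟩ := ih
        refine ⟨‖p.2 • e p.1‖ + C, fun m s => ?_⟩
        rw [W, mul_smul]
        refine (norm_add_le _ _).trans (add_le_add ?_ (hC m (s + 1)))
        rw [norm_smul, RCLike.norm_ofReal, abs_of_nonneg (wt_nonneg m s)]
        exact mul_le_of_le_one_left (norm_nonneg _) (wt_le_one m s)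
    obtain ⟨C, hC⟩ := this P
    exact ⟨C, fun m => hC m 0⟩
  set K : ℝ := (R + CP) / ρ + c * c * P.length with hK
  -- the bad vector
  have hunb' : ¬ Bdd (𝕜 := 𝕜) e (P.map Prod.fst).toFinset := fun h =>
    hunb (Bdd.all e f hbi hc.le he hf h)
  unfold Bdd at hunb'
  push Not at hunb'
  obtain ⟨l₁, hl₁, hl₁P, m, hm⟩ := hunb' K
  set l₀ := l₁.filter (fun p => p.2 ≠ 0) with hl₀
  have hsub : List.Sublist l₀ l₁ := List.filter_sublist
  have hg₀ := hl₁.sublist hsub
  have hne₀ : ∀ p ∈ l₀, p.2 ≠ 0 := fun p hp => by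
    have := (List.mem_filter.1 hp).2
    simpa using this
  have hS₀ : Sm e l₀ = Sm e l₁ := W_filter e _ l₁ 0 hl₁.2
  have hW₀ : W e (wt m) 0 l₀ = W e (wt m) 0 l₁ := W_filter e _ l₁ 0 hl₁.2
  rw [← hS₀, ← hW₀] at hm
  have hl₀ne : l₀ ≠ [] := by
    intro h0
    rw [h0, Sm_nil, W, norm_zero, mul_zero] at hm
    exact lt_irrefl _ hm
  obtain ⟨p₀, hp₀⟩ := List.exists_mem_of_ne_nil _ hl₀ne
  have hSpos : 0 < ‖Sm e l₀‖ := by
    have h1 := coef_le e f hbi hc.le he hf hg₀.1 hp₀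
    have h2 := norm_pos_iff.2 (hne₀ p₀ hp₀)
    by_contra h3
    have h4 : ‖Sm e l₀‖ = 0 := le_antisymm (not_lt.1 h3) (norm_nonneg _)
    rw [h4, mul_zero] at h1
    linarith
  set r : 𝕜 := ((ρ / ‖Sm e l₀‖ : ℝ) : 𝕜) with hr
  have hr0 : r ≠ 0 := by
    rw [hr, Ne, RCLike.ofReal_eq_zero]
    exact (div_pos hρ0 hSpos).ne'
  have hrn : ‖r‖ = ρ / ‖Sm e l₀‖ := by
    rw [hr, RCLike.norm_ofReal, abs_of_pos (div_pos hρ0 hSpos)]
  set l := l₀.map (fun p => (p.1, r * p.2)) with hl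
  have hfst : l.map Prod.fst = l₀.map Prod.fst := by
    rw [hl, List.map_map]
    rfl
  have hSl : Sm e l = r • Sm e l₀ := W_smul e _ r l₀ 0
  have hWl : W e (wt m) 0 l = r • W e (wt m) 0 l₀ := W_smul e _ r l₀ 0
  have hSn : ‖Sm e l‖ = ρ := by
    rw [hSl, norm_smul, hrn, div_mul_cancel₀ _ hSpos.ne']
  have hnd : (l.map Prod.fst).Nodup := by rw [hfst]; exact hg₀.1
  have hcl : ∀ p ∈ l, ‖p.2‖ ≤ c * ρ := fun p hp => by
    have := coef_le e f hbi hc.le he hf hnd hp
    rwa [hSn] at this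
  have hgl : l.Pairwise (fun p q => ‖q.2‖ ≤ ‖p.2‖) := by
    rw [hl, List.pairwise_map]
    refine hg₀.2.imp fun {p q} hpq => ?_
    rw [norm_mul, norm_mul]
    exact mul_le_mul_of_nonneg_left hpq (norm_nonneg _)
  refine ⟨l, m, ?_, ⟨?_, ?_⟩, ?_, ?_, ?_, ?_⟩
  · intro h0
    apply hl₀ne
    rw [hl, List.map_eq_nil_iff] at h0
    exact h0
  · rw [List.map_append, List.nodup_append]
    refine ⟨hP.1, hnd, ?_⟩
    intro a ha b hb hab
    rw [hfst] at hb
    obtain ⟨q, hq, hqb⟩ := List.mem_map.1 hb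
    have h1 := hl₁P q (hsub.subset hq)
    rw [List.mem_toFinset] at h1
    rw [hqb, ← hab] at h1
    exact h1 ha
  · rw [List.pairwise_append]
    refine ⟨hP.2, hgl, fun p hp q hq => ?_⟩
    calc ‖q.2‖ ≤ c * ρ := hcl q hq
      _ ≤ c * (δ / c) := mul_le_mul_of_nonneg_left (min_le_right _ _) hc.le
      _ = δ := by field_simp
      _ ≤ ‖p.2‖ := hPδ p hp
  · intro p hp
    obtain ⟨q, hq, rfl⟩ := List.mem_map.1 hp
    exact mul_ne_zero hr0 (hne₀ q hq)
  · intro p hp
    exact (hcl p hp).trans (mul_le_mul_of_nonneg_left (min_le_left _ _) hc.le)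
  · rw [hSn]; exact min_le_left _ _
  · have h1 := W_shift_n e m (D := c * c * ρ) (by positivity) l (fun p hp => by
      have := coef_mul_le e f hbi hc.le he hf hnd hp
      rwa [hSn] at this) P.length
    have h2 : W e (wt m) 0 (P ++ l) = W e (wt m) 0 l + (W e (wt m) 0 P +
        (W e (wt m) P.length l - W e (wt m) 0 l)) := by
      rw [W_append, zero_add]
      abel
    have h3 : ‖W e (wt m) 0 l‖ ≤ ‖W e (wt m) 0 (P ++ l)‖ + (CP + c * c * ρ * P.length) := by
      have h4 : W e (wt m) 0 l = W e (wt m) 0 (P ++ l) - (W e (wt m) 0 P +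
        (W e (wt m) P.length l - W e (wt m) 0 l)) := by
        rw [h2]; abel
      rw [h4]
      refine (norm_sub_le _ _).trans (add_le_add le_rfl ?_)
      exact (norm_add_le _ _).trans (add_le_add (hCP m) h1)
    have h4 : K * ρ ≤ ‖W e (wt m) 0 l‖ := by
      rw [hWl, norm_smul, hrn, div_mul_eq_mul_div, le_div_iff₀ hSpos]
      nlinarith
    have h5 : K * ρ = R + CP + c * c * ρ * P.length := by
      rw [hK]
      field_simp
    linarith

/-- States of the gliding hump construction. -/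
def Stt (𝕜 : Type) [RCLike 𝕜] : Type :=
  {q : List (ℕ × 𝕜) × ℝ // Good q.1 ∧ (∀ p ∈ q.1, p.2 ≠ 0) ∧ 0 < q.2}

/-- One step. -/
def Stp (e : ℕ → X) (c : ℝ) (k : ℕ) (σ σ' : Stt 𝕜) : Prop :=
  ∃ (l : List (ℕ × 𝕜)) (m : ℕ), σ'.1.1 = σ.1.1 ++ l ∧ l ≠ [] ∧ (∀ p ∈ l, ‖p.2‖ ≤ c * σ.1.2) ∧
    ‖Sm e l‖ ≤ σ.1.2 ∧ (k : ℝ) + 1 ≤ ‖W e (wt m) 0 σ'.1.1‖ ∧ σ'.1.2 ≤ σ.1.2 / 2 ∧
    2 * m * (c * c * σ'.1.2) ≤ 1

theorem exists_step (hunb : ¬ Bdd (𝕜 := 𝕜) e ∅) (k : ℕ) (σ : Stt 𝕜) : ∃ σ', Stp e c k σ σ' := by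
  obtain ⟨⟨P, β⟩, hP, hP0, hβ⟩ := σ
  obtain ⟨l, m, hl, hg, hl0, hlc, hlS, hR⟩ := extend e f hbi hc0 he hf hunb P hP hP0 hβ ((k : ℝ) + 1)
  have hc : 0 < c := by linarith
  have hd : 0 < 1 / (2 * (m : ℝ) * (c * c) + 1) := by positivity
  refine ⟨⟨⟨P ++ l, min (β / 2) (1 / (2 * (m : ℝ) * (c * c) + 1))⟩, hg, ?_, ?_⟩, l, m, rfl, hl,
    hlc, hlS, hR, min_le_left _ _, ?_⟩
  · intro p hp
    rcases List.mem_append.1 hp with h1 | h1
    · exact hP0 p h1
    · exact hl0 p h1
  · exact lt_min (half_pos hβ) hd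
  · have h1 : min (β / 2) (1 / (2 * (m : ℝ) * (c * c) + 1)) ≤ 1 / (2 * (m : ℝ) * (c * c) + 1) :=
      min_le_right _ _
    calc 2 * (m : ℝ) * (c * c * min (β / 2) (1 / (2 * (m : ℝ) * (c * c) + 1)))
        = (2 * (m : ℝ) * (c * c)) * min (β / 2) (1 / (2 * (m : ℝ) * (c * c) + 1)) := by ring
      _ ≤ (2 * (m : ℝ) * (c * c)) * (1 / (2 * (m : ℝ) * (c * c) + 1)) :=
          mul_le_mul_of_nonneg_left h1 (by positivity)
      _ ≤ 1 := by
          rw [mul_one_div, div_le_one (by positivity)]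
          linarith

/-- Greedy orderings. -/
structure GrOrd (f : ℕ → (X →L[𝕜] 𝕜)) (x : X) (O : ℕ → ℕ) : Prop where
  inj : Function.Injective O
  supp : ∀ n, f n x ≠ 0 → n ∈ Set.range O
  anti : ∀ i j, i < j → ‖f (O j) x‖ ≤ ‖f (O i) x‖

/-- The gliding hump: if the means are not uniformly bounded on finite lists, then there is a
vector with unbounded means. -/
theorem hump [CompleteSpace X] (hunb : ¬ Bdd (𝕜 := 𝕜) e ∅) :
    ∃ (x : X) (O : ℕ → ℕ), GrOrd f x O ∧ ∀ R : ℝ, ∃ m : ℕ,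
      R ≤ ‖∑ j ∈ Finset.range (2 * m), ((wt m j : 𝕜) * f (O j) x) • e (O j)‖ := by
  classical
  have hc : 0 < c := by linarith
  choose nxt hnxt using exists_step e f hbi hc0 he hf hunb
  set σ : ℕ → Stt 𝕜 := fun k => Nat.rec ⟨([], 1), ⟨List.nodup_nil, List.Pairwise.nil⟩, by simp,
    one_pos⟩ (fun k s => nxt k s) k with hσ
  have hst : ∀ k, Stp e c k (σ k) (σ (k + 1)) := fun k => hnxt k (σ k)
  set P : ℕ → List (ℕ × 𝕜) := fun k => (σ k).1.1 with hP
  set β : ℕ → ℝ := fun k => (σ k).1.2 with hβ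
  have hgood : ∀ k, Good (P k) := fun k => (σ k).2.1
  have hnz : ∀ k, ∀ p ∈ P k, p.2 ≠ 0 := fun k => (σ k).2.2.1
  have hβ0 : ∀ k, 0 < β k := fun k => (σ k).2.2.2
  have hβhalf : ∀ k, β (k + 1) ≤ β k / 2 := fun k => by
    obtain ⟨l, m, _, _, _, _, _, h, _⟩ := hst k
    exact h
  have hβanti : ∀ k d, β (k + d) ≤ β k := by
    intro k d
    induction d with
    | zero => exact le_rfl
    | succ d ih =>
      have := hβhalf (k + d)
      have := hβ0 (k + d)
      rw [← add_assoc]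
      linarith
  have hβpow : ∀ k, β k ≤ (1 / 2) ^ k := by
    intro k
    induction k with
    | zero => simp [hβ, hσ]
    | succ k ih =>
      have := hβhalf k
      rw [pow_succ]
      linarith
  have hlen : ∀ k, k ≤ (P k).length := by
    intro k
    induction k with
    | zero => exact Nat.zero_le _
    | succ k ih =>
      obtain ⟨l, m, h1, h2, _⟩ := hst k
      have h3 : P (k + 1) = P k ++ l := h1
      rw [h3, List.length_append]
      have := List.length_pos_iff.2 h2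
      omega
  have hpre : ∀ k d, ∃ r : List (ℕ × 𝕜), P (k + d) = P k ++ r ∧ (∀ p ∈ r, ‖p.2‖ ≤ c * β k) ∧
      ‖Sm e r‖ ≤ 2 * β k - 2 * β (k + d) := by
    intro k d
    induction d with
    | zero => exact ⟨[], by simp, by simp, by simp [Sm_nil]⟩
    | succ d ih =>
      obtain ⟨r, hr1, hr2, hr3⟩ := ih
      obtain ⟨l, m, h1, h2, h3, h4, h5, h6, h7⟩ := hst (k + d)
      have h1' : P (k + d + 1) = P (k + d) ++ l := h1
      refine ⟨r ++ l, ?_, ?_, ?_⟩
      · rw [← add_assoc, h1', hr1, List.append_assoc]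
      · intro p hp
        rcases List.mem_append.1 hp with h8 | h8
        · exact hr2 p h8
        · exact (h3 p h8).trans (mul_le_mul_of_nonneg_left (hβanti k d) hc.le)
      · rw [Sm_append]
        have h8 := norm_add_le (Sm e r) (Sm e l)
        have h9 : ‖Sm e l‖ ≤ β (k + d) := h4
        have h10 := hβhalf (k + d)
        rw [← add_assoc]
        linarith
  -- the limit
  set y : ℕ → X := fun k => Sm e (P k) with hy
  have hyd : ∀ k d, ‖y (k + d) - y k‖ ≤ 2 * (1 / 2) ^ k := by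
    intro k d
    obtain ⟨r, hr1, hr2, hr3⟩ := hpre k d
    have h1 : y (k + d) - y k = Sm e r := by
      simp only [hy, hr1, Sm_append]
      abel
    rw [h1]
    have := hβ0 (k + d)
    have := hβpow k
    linarith
  have hcau : CauchySeq y := by
    rw [Metric.cauchySeq_iff']
    intro ε hε
    obtain ⟨N, hN⟩ := exists_pow_lt_of_lt_one (half_pos hε) (by norm_num : (1 / 2 : ℝ) < 1)
    refine ⟨N, fun n hn => ?_⟩
    obtain ⟨d, rfl⟩ := Nat.exists_eq_add_of_le hn
    rw [dist_eq_norm]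
    have := hyd N d
    linarith
  obtain ⟨x, hx⟩ := cauchySeq_tendsto_of_complete hcau
  -- the entries
  set q : ℕ → ℕ × 𝕜 := fun j => (P (j + 1)).getD j (0, 0) with hq
  have hPq : ∀ k j, j < (P k).length → (P k).getD j (0, 0) = q j := by
    intro k j hj
    have hj' : j < (P (j + 1)).length := hlen (j + 1)
    rcases le_total k (j + 1) with h1 | h1
    · obtain ⟨d, hd⟩ := Nat.exists_eq_add_of_le h1
      obtain ⟨r, hr1, _⟩ := hpre k d
      simp only [hq, hd, hr1]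
      rw [List.getD_append _ _ _ _ hj]
    · obtain ⟨d, hd⟩ := Nat.exists_eq_add_of_le h1
      obtain ⟨r, hr1, _⟩ := hpre (j + 1) d
      simp only [hq]
      rw [hd, hr1, List.getD_append _ _ _ _ hj']
  have hqmem : ∀ k j, j < (P k).length → q j ∈ P k := by
    intro k j hj
    rw [← hPq k j hj, List.getD_eq_getElem _ _ hj]
    exact List.getElem_mem hj
  have hfy : ∀ n, Tendsto (fun k => f n (y k)) atTop (𝓝 (f n x)) := fun n =>
    ((f n).continuous.tendsto x).comp hx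
  have hfq : ∀ j, f (q j).1 x = (q j).2 := by
    intro j
    refine tendsto_nhds_unique (hfy (q j).1) ?_
    refine tendsto_const_nhds.congr' ?_
    filter_upwards [eventually_ge_atTop (j + 1)] with k hk
    rw [f_Sm_of_mem e f hbi (P k) (hgood k).1 (q j) (hqmem k j (by have := hlen k; omega))]
  have hfn : ∀ n, n ∉ Set.range (fun j => (q j).1) → f n x = 0 := by
    intro n hn
    refine tendsto_nhds_unique (hfy n) ?_
    refine tendsto_const_nhds.congr fun k => ?_
    rw [f_Sm_of_notMem e f hbi n (P k)]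
    intro h1
    obtain ⟨p, hp, hpn⟩ := List.mem_map.1 h1
    obtain ⟨j, hj, hjp⟩ := List.mem_iff_getElem.1 hp
    refine hn ⟨j, ?_⟩
    have h2 := hPq k j hj
    rw [List.getD_eq_getElem _ _ hj, hjp] at h2
    change (q j).1 = n
    rw [← h2, hpn]
  have hord : ∀ i j, i < j → (q i).1 ≠ (q j).1 ∧ ‖(q j).2‖ ≤ ‖(q i).2‖ := by
    intro i j hij
    have hj : j < (P (j + 1)).length := hlen (j + 1)
    have hi : i < (P (j + 1)).length := hij.trans hj
    have h1 := hPq (j + 1) i hi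
    have h2 := hPq (j + 1) j hj
    rw [List.getD_eq_getElem _ _ hi] at h1
    rw [List.getD_eq_getElem _ _ hj] at h2
    rw [← h1, ← h2]
    refine ⟨?_, ?_⟩
    · have h3 := List.pairwise_iff_getElem.1 (hgood (j + 1)).1 i j (by simpa using hi)
        (by simpa using hj) hij
      simpa using h3
    · exact List.pairwise_iff_getElem.1 (hgood (j + 1)).2 i j hi hj hij
  refine ⟨x, fun j => (q j).1, ⟨?_, ?_, ?_⟩, ?_⟩
  · intro i j hij
    rcases lt_trichotomy i j with h1 | h1 | h1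
    · exact absurd hij (hord i j h1).1
    · exact h1
    · exact absurd hij.symm (hord j i h1).1
  · intro n hn
    by_contra h1
    exact hn (hfn n h1)
  · intro i j hij
    rw [hfq, hfq]
    exact (hord i j hij).2
  · intro R
    obtain ⟨k, hk⟩ := exists_nat_ge R
    obtain ⟨l, m, h1, h2, h3, h4, h5, h6, h7⟩ := hst k
    refine ⟨m, ?_⟩
    -- compare with a long prefix
    obtain ⟨r, hr1, hr2, _⟩ := hpre (k + 1) (2 * m)
    have h8 : W e (wt m) 0 (P (k + 1 + 2 * m)) =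
        ∑ j ∈ Finset.range (2 * m), ((wt m j : 𝕜) * f (q j).1 x) • e (q j).1 := by
      rw [W_eq_sum]
      have h9 := hlen (k + 1 + 2 * m)
      symm
      refine Finset.sum_subset_zero_on_sdiff (Finset.range_subset_range.2 (by omega)) ?_ ?_
      · intro j hj
        have h10 : 2 * m ≤ j := by
          have := (Finset.mem_sdiff.1 hj).2
          rw [Finset.mem_range, not_lt] at this
          exact this
        rw [zero_add, wt_zero h10]
        simp
      · intro j hj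
        rw [Finset.mem_range] at hj
        rw [hPq _ j (by omega), zero_add, hfq]
    change R ≤ ‖∑ j ∈ Finset.range (2 * m), ((wt m j : 𝕜) * f (q j).1 x) • e (q j).1‖
    rw [← h8, hr1, W_append, zero_add]
    have h9 := W_bound e m (D := c * c * β (k + 1)) (by have := (hβ0 (k + 1)).le; positivity) r
      (P (k + 1)).length (fun p hp => by
        calc ‖p.2‖ * ‖e p.1‖ ≤ (c * β (k + 1)) * c :=
              mul_le_mul (hr2 p hp) (he _) (norm_nonneg _) (by
                have := (hβ0 (k + 1)).le; positivity)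
          _ = _ := by ring)
    have h10 : ((2 * m - (P (k + 1)).length : ℕ) : ℝ) ≤ 2 * m := by
      have : 2 * m - (P (k + 1)).length ≤ 2 * m := Nat.sub_le _ _
      exact_mod_cast this
    have h11 : ‖W e (wt m) (P (k + 1)).length r‖ ≤ 1 := by
      refine h9.trans (le_trans (mul_le_mul_of_nonneg_right h10 ?_) h7)
      have := (hβ0 (k + 1)).le
      positivity
    have h12 : (k : ℝ) + 1 ≤ ‖W e (wt m) 0 (P (k + 1))‖ := h5
    have h13 := norm_sub_le (W e (wt m) 0 (P (k + 1)) + W e (wt m) (P (k + 1)).length r)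
      (W e (wt m) (P (k + 1)).length r)
    rw [add_sub_cancel_right] at h13
    linarith

end Pool.Agent.X202.VP
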