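import Mathlib
import Pool.Agent.X202.VP3
import Pool.Agent.X202.VP5

set_option autoImplicit false
set_option linter.unusedSectionVars false

/-!
# de la Vallee-Poussin means: from lists to coordinates
-/

namespace Pool.Agent.X202.VP

universe u

open Filter Topology

variable {𝕜 : Type} [RCLike 𝕜] {X : Type u} [NormedAddCommGroup X] [NormedSpace 𝕜 X] (e : ℕ → X)

/-- The seminorm on coordinates. -/
noncomputable def nu (𝕜 : Type) [RCLike 𝕜] [NormedSpace 𝕜 X] (e : ℕ → X) (N : ℕ) :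
    Seminorm 𝕜 (Fin N → 𝕜) :=
  (normSeminorm 𝕜 X).comp (Fintype.linearCombination 𝕜 (fun i : Fin N => e i))

theorem nu_apply (N : ℕ) (a : Fin N → 𝕜) : nu 𝕜 e N a = ‖∑ i, a i • e i‖ := rfl

/-- Sorted enumeration of a finite set. -/
theorem exists_sorted {ι : Type} [DecidableEq ι] (a : ι → 𝕜) (S : Finset ι) :
    ∃ l : List ι, l.Nodup ∧ l.toFinset = S ∧ l.Pairwise (fun i j => ‖a j‖ ≤ ‖a i‖) := by
  induction hk : S.card generalizing S with
  | zero => exact ⟨[], List.nodup_nil, by rw [Finset.card_eq_zero.1 hk]; rfl, List.Pairwise.nil⟩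
  | succ k ih =>
    have hne : S.Nonempty := Finset.card_pos.1 (by omega)
    obtain ⟨n0, hn0, hmax⟩ := S.exists_max_image (fun n => ‖a n‖) hne
    obtain ⟨l, h1, h2, h3⟩ := ih (S.erase n0) (by rw [Finset.card_erase_of_mem hn0, hk]; rfl)
    refine ⟨n0 :: l, ?_, ?_, ?_⟩
    · rw [List.nodup_cons]
      refine ⟨fun h => ?_, h1⟩
      have h4 : n0 ∈ l.toFinset := List.mem_toFinset.2 h
      rw [h2] at h4
      exact Finset.notMem_erase _ _ h4
    · rw [List.toFinset_cons, h2, Finset.insert_erase hn0]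
    · rw [List.pairwise_cons]
      refine ⟨fun j hj => ?_, h3⟩
      have h4 : j ∈ l.toFinset := List.mem_toFinset.2 hj
      rw [h2] at h4
      exact hmax j (Finset.mem_of_mem_erase h4)

theorem W_map {N : ℕ} (w : ℕ → ℝ) (a : Fin N → 𝕜) (l : List (Fin N)) (hl : l.Nodup) : ∀ s,
    W e w s (l.map fun i : Fin N => ((i : ℕ), a i)) =
      ∑ i ∈ l.toFinset, ((w (s + l.idxOf i) : 𝕜) * a i) • e i := by
  induction l with
  | nil => intro s; simp [W]
  | cons i l ih =>
    intro s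
    rw [List.nodup_cons] at hl
    have hi : i ∉ l.toFinset := fun h => hl.1 (List.mem_toFinset.1 h)
    rw [List.map_cons, W, List.toFinset_cons, Finset.sum_insert hi, ih hl.2, List.idxOf_cons_self,
      add_zero]
    congr 1
    refine Finset.sum_congr rfl fun j hj => ?_
    have hne : i ≠ j := fun h => hi (by rw [h]; exact hj)
    rw [List.idxOf_cons_ne _ hne]
    congr 3
    congr 1
    omega

theorem means_bound {K : ℝ} (hK : ∀ l : List (ℕ × 𝕜), Good l → (∀ p ∈ l, p.1 ∉ (∅ : Finset ℕ)) →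
    ∀ m, ‖W e (wt m) 0 l‖ ≤ K * ‖Sm e l‖) {N : ℕ} (a : Fin N → 𝕜) (l : List (Fin N))
    (hl : l.Nodup) (hlu : l.toFinset = Finset.univ) (hla : l.Pairwise (fun i j => ‖a j‖ ≤ ‖a i‖))
    (m : ℕ) : nu 𝕜 e N (fun i => (wt m (l.idxOf i) : 𝕜) * a i) ≤ K * nu 𝕜 e N a := by
  have hg : Good (l.map fun i : Fin N => ((i : ℕ), a i)) := by
    refine ⟨?_, ?_⟩
    · rw [List.map_map]
      exact hl.map Fin.val_injective
    · rw [List.pairwise_map]
      exact hla
  have h1 := hK _ hg (fun p _ => Finset.notMem_empty _) m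
  have h2 : Sm e (l.map fun i : Fin N => ((i : ℕ), a i)) = ∑ i, a i • e i := by
    rw [Sm, W_map e _ a l hl, hlu]
    refine Finset.sum_congr rfl fun i _ => ?_
    rw [RCLike.ofReal_one, one_mul]
  rw [W_map e _ a l hl, hlu, h2] at h1
  rw [nu_apply, nu_apply]
  simpa only [zero_add] using h1

section

variable {N : ℕ} {K : ℝ}
  (hK : ∀ (a : Fin N → 𝕜) (l : List (Fin N)), l.Nodup → l.toFinset = Finset.univ →
    l.Pairwise (fun i j => ‖a j‖ ≤ ‖a i‖) → ∀ m : ℕ,
    nu 𝕜 e N (fun i => (wt m (l.idxOf i) : 𝕜) * a i) ≤ K * nu 𝕜 e N a)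
include hK

theorem vp_of (a : Fin N → 𝕜) (S T : Finset (Fin N)) (m : ℕ) (hST : S ⊆ T) (hS : Gr a S)
    (hT : Gr a T) (hSm : S.card ≤ m) (hTm : 2 * m ≤ T.card) :
    ∃ ω : Fin N → ℝ, (∀ i, 0 ≤ ω i ∧ ω i ≤ 1) ∧ (∀ i ∈ S, ω i = 1) ∧
      (∀ i, i ∉ T → ω i = 0) ∧ nu 𝕜 e N (fun i => (ω i : 𝕜) * a i) ≤ K * nu 𝕜 e N a := by
  obtain ⟨l₁, h1n, h1s, h1p⟩ := exists_sorted a S
  obtain ⟨l₂, h2n, h2s, h2p⟩ := exists_sorted a (T \ S)
  obtain ⟨l₃, h3n, h3s, h3p⟩ := exists_sorted a (Finset.univ \ T)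
  have m1 : ∀ i, i ∈ l₁ ↔ i ∈ S := fun i => by rw [← List.mem_toFinset, h1s]
  have m2 : ∀ i, i ∈ l₂ ↔ i ∈ T ∧ i ∉ S := fun i => by
    rw [← List.mem_toFinset, h2s, Finset.mem_sdiff]
  have m3 : ∀ i, i ∈ l₃ ↔ i ∉ T := fun i => by
    rw [← List.mem_toFinset, h3s, Finset.mem_sdiff]
    simp
  have c1 : l₁.length = S.card := by rw [← List.toFinset_card_of_nodup h1n, h1s]
  have c2 : l₂.length = T.card - S.card := by
    rw [← List.toFinset_card_of_nodup h2n, h2s, Finset.card_sdiff_of_subset hST]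
  have hcST := Finset.card_le_card hST
  refine ⟨fun i => wt m ((l₁ ++ l₂ ++ l₃).idxOf i), fun i => ⟨wt_nonneg _ _, wt_le_one _ _⟩,
    fun i hi => wt_one ?_, fun i hi => wt_zero ?_, hK a (l₁ ++ l₂ ++ l₃) ?_ ?_ ?_ m⟩
  · rw [List.append_assoc, List.idxOf_append_of_mem ((m1 i).2 hi)]
    have := List.idxOf_lt_length_iff.2 ((m1 i).2 hi)
    omega
  · have h4 : i ∉ l₁ ++ l₂ := by
      rw [List.mem_append, m1, m2, not_or]
      exact ⟨fun h => hi (hST h), fun h => hi h.1⟩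
    rw [List.idxOf_append_of_notMem h4, List.length_append]
    omega
  · rw [List.nodup_append, List.nodup_append]
    refine ⟨⟨h1n, h2n, fun i hi j hj hij => ?_⟩, h3n, fun i hi j hj hij => ?_⟩
    · rw [m1] at hi
      rw [m2, ← hij] at hj
      exact hj.2 hi
    · rw [List.mem_append, m1, m2] at hi
      rw [m3, ← hij] at hj
      rcases hi with hi | hi
      · exact hj (hST hi)
      · exact hj hi.1
  · ext i
    simp only [List.mem_toFinset, List.mem_append, m1, m2, m3, Finset.mem_univ, iff_true]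
    by_cases hiT : i ∈ T
    · by_cases hiS : i ∈ S
      · exact Or.inl (Or.inl hiS)
      · exact Or.inl (Or.inr ⟨hiT, hiS⟩)
    · exact Or.inr hiT
  · rw [List.pairwise_append, List.pairwise_append]
    refine ⟨⟨h1p, h2p, fun i hi j hj => ?_⟩, h3p, fun i hi j hj => ?_⟩
    · rw [m1] at hi
      rw [m2] at hj
      exact hS i hi j hj.2
    · rw [List.mem_append, m1, m2] at hi
      rw [m3] at hj
      refine hT i ?_ j hj
      rcases hi with hi | hi
      · exact hST hi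
      · exact hi.1

theorem qglc_of {c : ℝ} (hcf : ∀ (a : Fin N → 𝕜) (i : Fin N), nu 𝕜 e N (res {i} a) ≤ c * nu 𝕜 e N a)
    (hc : 0 ≤ c) (hK0 : 0 ≤ K) (a : Fin N → 𝕜) (A : Finset (Fin N)) (ha : ∀ i, ‖a i‖ ≤ 1)
    (hA : ∀ i ∈ A, ‖a i‖ = 1) : nu 𝕜 e N (res A a) ≤ (3 * K + c) * nu 𝕜 e N a := by
  classical
  have hν := apply_nonneg (nu 𝕜 e N) a
  have hKν : 0 ≤ K * nu 𝕜 e N a := mul_nonneg hK0 hν
  have hcν : 0 ≤ c * nu 𝕜 e N a := mul_nonneg hc hν
  rcases Nat.lt_or_ge A.card 2 with hlt | hge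
  · have h1 := nu_res_card hcf a A
    have h2 : (A.card : ℝ) ≤ 1 := by
      have : A.card ≤ 1 := by omega
      exact_mod_cast this
    have h3 : (A.card : ℝ) * (c * nu 𝕜 e N a) ≤ 1 * (c * nu 𝕜 e N a) :=
      mul_le_mul_of_nonneg_right h2 hcν
    linarith
  set n := A.card with hn
  have : NeZero n := ⟨by omega⟩
  set g : Fin n ≃ A := (Fintype.equivFinOfCardEq (by simp [hn])).symm with hg
  obtain ⟨l₃, h3n, h3s, h3p⟩ := exists_sorted a (Finset.univ \ A)
  have m3 : ∀ i, i ∈ l₃ ↔ i ∉ A := fun i => by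
    rw [← List.mem_toFinset, h3s, Finset.mem_sdiff]
    simp
  set m := n / 2 with hm
  set l : Fin n → List (Fin N) := fun s => List.ofFn (fun j : Fin n => (g (j + s) : Fin N)) with hl
  have hlm : ∀ s i, i ∈ l s ↔ i ∈ A := by
    intro s i
    simp only [hl, List.mem_ofFn]
    constructor
    · rintro ⟨j, rfl⟩; exact (g (j + s)).2
    · intro hi
      refine ⟨g.symm ⟨i, hi⟩ - s, ?_⟩
      rw [sub_add_cancel, Equiv.apply_symm_apply]
  have hlnd : ∀ s, (l s).Nodup := by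
    intro s
    simp only [hl]
    rw [List.nodup_ofFn]
    intro i j hij
    have h1 := g.injective (Subtype.ext hij)
    exact add_right_cancel h1
  have hll : ∀ s, (l s).length = n := fun s => by simp [hl]
  have hidx : ∀ (s k : Fin n), (l s).idxOf ((g k : A) : Fin N) = ((k - s : Fin n) : ℕ) := by
    intro s k
    have hlt : ((k - s : Fin n) : ℕ) < (l s).length := by rw [hll]; exact (k - s).2
    have h1 : (l s)[((k - s : Fin n) : ℕ)] = ((g k : A) : Fin N) := by
      simp [hl]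
    rw [← h1]
    exact (hlnd s).idxOf_getElem _ hlt
  have hb : ∀ s : Fin n, nu 𝕜 e N (fun i => (wt m ((l s ++ l₃).idxOf i) : 𝕜) * a i) ≤
      K * nu 𝕜 e N a := by
    intro s
    refine hK a (l s ++ l₃) ?_ ?_ ?_ m
    · rw [List.nodup_append]
      refine ⟨hlnd s, h3n, fun i hi j hj hij => ?_⟩
      rw [hlm] at hi
      rw [m3, ← hij] at hj
      exact hj hi
    · ext i
      simp only [List.mem_toFinset, List.mem_append, hlm, m3, Finset.mem_univ, iff_true]
      exact em _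
    · rw [List.pairwise_append]
      refine ⟨?_, h3p, fun i hi j hj => ?_⟩
      · refine List.Pairwise.imp_of_mem (R := fun _ _ => True) ?_ (List.pairwise_of_forall (fun _ _ => trivial))
        intro i j hi hj _
        rw [hA i ((hlm s i).1 hi)]
        exact ha j
      · rw [hlm] at hi
        rw [hA i hi]
        exact ha j
  set Sg : ℝ := ∑ j : Fin n, wt m j with hSg
  have hsum : ∑ s : Fin n, (fun i => (wt m ((l s ++ l₃).idxOf i) : 𝕜) * a i) =
      (Sg : 𝕜) • res A a := by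
    funext i
    rw [Finset.sum_apply, Pi.smul_apply, smul_eq_mul]
    by_cases hi : i ∈ A
    · have h1 : ∀ s : Fin n, (l s ++ l₃).idxOf i = ((g.symm ⟨i, hi⟩ - s : Fin n) : ℕ) := by
        intro s
        rw [List.idxOf_append_of_mem ((hlm s i).2 hi), ← hidx, Equiv.apply_symm_apply]
      simp only [res, hi, if_true]
      rw [hSg, RCLike.ofReal_sum, Finset.sum_mul]
      rw [← Equiv.sum_comp (Equiv.subLeft (g.symm ⟨i, hi⟩)) (fun j : Fin n => (wt m j : 𝕜) * a i)]
      refine Finset.sum_congr rfl fun s _ => ?_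
      rw [h1 s]
      rfl
    · simp only [res, hi, if_false, mul_zero]
      refine Finset.sum_eq_zero fun s _ => ?_
      have h1 : i ∉ l s := fun h => hi ((hlm s i).1 h)
      rw [List.idxOf_append_of_notMem h1, hll, wt_zero (by omega), RCLike.ofReal_zero, zero_mul]
  have hSgm : (m : ℝ) ≤ Sg := by
    have h1 : ∑ j ∈ Finset.range m, wt m j ≤ ∑ j ∈ Finset.range n, wt m j :=
      Finset.sum_le_sum_of_subset_of_nonneg (Finset.range_subset_range.2 (by omega))
        (fun j _ _ => wt_nonneg m j)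
    rw [hSg, Fin.sum_univ_eq_sum_range]
    refine le_trans ?_ h1
    rw [Finset.sum_congr rfl (fun j hj => wt_one (Finset.mem_range.1 hj))]
    simp
  have h1 : nu 𝕜 e N ((Sg : 𝕜) • res A a) ≤ n * (K * nu 𝕜 e N a) := by
    rw [← hsum]
    refine (Finset.le_sum_of_subadditive (nu 𝕜 e N) (map_zero _).le (map_add_le_add _) _ _).trans ?_
    refine (Finset.sum_le_sum fun s _ => hb s).trans ?_
    rw [Finset.sum_const, Finset.card_univ, Fintype.card_fin, nsmul_eq_mul]
  have hm1 : (1 : ℝ) ≤ m := by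
    have : 1 ≤ m := by omega
    exact_mod_cast this
  have hn3 : (n : ℝ) ≤ 3 * m := by
    have : n ≤ 3 * m := by omega
    exact_mod_cast this
  have hSg0 : 0 ≤ Sg := by linarith
  rw [map_smul_eq_mul, RCLike.norm_ofReal, abs_of_nonneg hSg0] at h1
  have h2 : (m : ℝ) * nu 𝕜 e N (res A a) ≤ m * (3 * K * nu 𝕜 e N a) := by
    calc (m : ℝ) * nu 𝕜 e N (res A a) ≤ Sg * nu 𝕜 e N (res A a) :=
          mul_le_mul_of_nonneg_right hSgm (apply_nonneg _ _)
      _ ≤ n * (K * nu 𝕜 e N a) := h1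
      _ ≤ (3 * m) * (K * nu 𝕜 e N a) := mul_le_mul_of_nonneg_right hn3 hKν
      _ = _ := by ring
  have h3 := le_of_mul_le_mul_left h2 (by linarith)
  linarith

end

section Space

variable (f : ℕ → (X →L[𝕜] 𝕜)) (hbi : ∀ m n : ℕ, f m (e n) = if m = n then 1 else 0)
  {c : ℝ} (hc1 : 1 ≤ c) (he : ∀ n, ‖e n‖ ≤ c) (hf : ∀ n, ‖f n‖ ≤ c)
include hbi hc1 he hf

/-- The uniform bound for greedy sets in finite blocks. -/
theorem greedy_fin (hb : Bdd (𝕜 := 𝕜) e ∅) : ∃ C : ℝ, 0 ≤ C ∧ ∀ (N : ℕ) (a : Fin N → 𝕜)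
    (B : Finset (Fin N)), Gr a B → nu 𝕜 e N (res B a) ≤ C * nu 𝕜 e N a := by
  obtain ⟨K, hK⟩ := hb
  have hK' : ∀ l : List (ℕ × 𝕜), Good l → (∀ p ∈ l, p.1 ∉ (∅ : Finset ℕ)) →
      ∀ m, ‖W e (wt m) 0 l‖ ≤ max K 1 * ‖Sm e l‖ := fun l hl h0 m =>
    (hK l hl h0 m).trans (mul_le_mul_of_nonneg_right (le_max_left _ _) (norm_nonneg _))
  have hK1 : 1 ≤ max K 1 := le_max_right _ _
  have hcc : 1 ≤ c * c := by nlinarith
  obtain ⟨C, hC0, hC⟩ := finite_bound (𝕜 := 𝕜) (K := max K 1) (L := 3 * max K 1 + c * c)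
    (c := c * c) hK1 (by nlinarith) hcc
  refine ⟨C, hC0, fun N a B hB => hC (Fin N) (nu 𝕜 e N) ?_ a B hB⟩
  have hmb : ∀ (a : Fin N → 𝕜) (l : List (Fin N)), l.Nodup → l.toFinset = Finset.univ →
      l.Pairwise (fun i j => ‖a j‖ ≤ ‖a i‖) → ∀ m : ℕ,
      nu 𝕜 e N (fun i => (wt m (l.idxOf i) : 𝕜) * a i) ≤ max K 1 * nu 𝕜 e N a :=
    fun a l h1 h2 h3 m => means_bound e hK' a l h1 h2 h3 m
  have hcoef : ∀ (a : Fin N → 𝕜) (i : Fin N), nu 𝕜 e N (res {i} a) ≤ c * c * nu 𝕜 e N a := by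
    intro a i
    rw [nu_apply, nu_apply]
    have h1 : ∑ j, res {i} a j • e j = a i • e i := by
      rw [Finset.sum_eq_single i]
      · simp [res]
      · intro j _ hj
        simp [res, hj]
      · intro h; exact absurd (Finset.mem_univ i) h
    have h2 : f i (∑ j, a j • e j) = a i := by
      rw [map_sum, Finset.sum_eq_single i]
      · rw [map_smul, hbi, if_pos rfl, smul_eq_mul, mul_one]
      · intro j _ hj
        rw [map_smul, hbi, if_neg (fun h => hj (Fin.ext h.symm)), smul_zero]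
      · intro h; exact absurd (Finset.mem_univ i) h
    rw [h1, norm_smul]
    have h3 : ‖a i‖ ≤ c * ‖∑ j, a j • e j‖ := by
      rw [← h2]
      exact (ContinuousLinearMap.le_opNorm _ _).trans
        (mul_le_mul_of_nonneg_right (hf _) (norm_nonneg _))
    calc ‖a i‖ * ‖e i‖ ≤ (c * ‖∑ j, a j • e j‖) * c :=
          mul_le_mul h3 (he _) (norm_nonneg _) (by positivity)
      _ = _ := by ring
  exact ⟨hK1, by nlinarith, hcc, fun a S T m h1 h2 h3 h4 h5 => vp_of e hmb a S T m h1 h2 h3 h4 h5,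
    fun a A ha hA => qglc_of e hmb hcoef (by positivity) (by linarith) a A ha hA, hcoef⟩

/-- Expansion of vectors in the span. -/
theorem span_exp (y : X) (hy : y ∈ Submodule.span 𝕜 (Set.range e)) :
    ∃ N₀ : ℕ, ∀ N ≥ N₀, y = ∑ n ∈ Finset.range N, f n y • e n := by
  induction hy using Submodule.span_induction with
  | mem x hx =>
    obtain ⟨k, rfl⟩ := hx
    refine ⟨k + 1, fun N hN => ?_⟩
    rw [Finset.sum_eq_single k]
    · rw [hbi, if_pos rfl, one_smul]
    · intro n _ hn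
      rw [hbi, if_neg hn, zero_smul]
    · intro h
      exact absurd (Finset.mem_range.2 (by omega)) h
  | zero => exact ⟨0, fun N _ => by simp⟩
  | add x y _ _ hx hy =>
    obtain ⟨N₁, h1⟩ := hx
    obtain ⟨N₂, h2⟩ := hy
    refine ⟨max N₁ N₂, fun N hN => ?_⟩
    have h3 := h1 N (le_trans (le_max_left _ _) hN)
    have h4 := h2 N (le_trans (le_max_right _ _) hN)
    simp only [map_add, add_smul, Finset.sum_add_distrib]
    rw [← h3, ← h4]
  | smul r x _ hx =>
    obtain ⟨N₁, h1⟩ := hx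
    refine ⟨N₁, fun N hN => ?_⟩
    have h3 := h1 N hN
    simp only [map_smul, smul_assoc]
    rw [← Finset.smul_sum, ← h3]

/-- Greedy sets of vectors in the span. -/
theorem greedy_span {C : ℝ} (hC : ∀ (N : ℕ) (a : Fin N → 𝕜)
    (B : Finset (Fin N)), Gr a B → nu 𝕜 e N (res B a) ≤ C * nu 𝕜 e N a)
    (y : X) (hy : y ∈ Submodule.span 𝕜 (Set.range e)) (A : Finset ℕ)
    (hA : ∀ i ∈ A, ∀ j, j ∉ A → ‖f j y‖ ≤ ‖f i y‖) :
    ‖∑ n ∈ A, f n y • e n‖ ≤ C * ‖y‖ := by
  classical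
  obtain ⟨N₀, hN₀⟩ := span_exp e f hbi hc1 he hf y hy
  obtain ⟨N₁, hN₁⟩ := A.exists_nat_subset_range
  set N := max N₀ N₁ with hN
  have hAN : A ⊆ Finset.range N := hN₁.trans (Finset.range_subset_range.2 (le_max_right _ _))
  have h1 := hC N (fun i => f i y) (Finset.univ.filter fun i : Fin N => (i : ℕ) ∈ A)
    (fun i hi j hj => by
      rw [Finset.mem_filter] at hi hj
      exact hA i hi.2 j (fun h => hj ⟨Finset.mem_univ _, h⟩))
  rw [nu_apply, nu_apply] at h1
  have h2 : ∑ i : Fin N, f i y • e i = y := by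
    rw [Finset.sum_fin_eq_sum_range]
    conv_rhs => rw [hN₀ N (le_max_left _ _)]
    refine Finset.sum_congr rfl fun n hn => ?_
    rw [dif_pos (Finset.mem_range.1 hn)]
  have h3 : ∑ i : Fin N, res (Finset.univ.filter fun i : Fin N => (i : ℕ) ∈ A)
      (fun i : Fin N => f i y) i • e i = ∑ n ∈ A, f n y • e n := by
    rw [Finset.sum_fin_eq_sum_range]
    symm
    refine Finset.sum_subset_zero_on_sdiff hAN ?_ ?_
    · intro n hn
      obtain ⟨h4, h5⟩ := Finset.mem_sdiff.1 hn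
      rw [dif_pos (Finset.mem_range.1 h4)]
      simp [res, h5]
    · intro n hn
      rw [dif_pos (Finset.mem_range.1 (hAN hn))]
      simp [res, hn]
  rwa [h2, h3] at h1

/-- Greedy sets of arbitrary vectors. -/
theorem greedy_all {C : ℝ} (hC : ∀ (N : ℕ) (a : Fin N → 𝕜)
    (B : Finset (Fin N)), Gr a B → nu 𝕜 e N (res B a) ≤ C * nu 𝕜 e N a)
    (hd : Dense ((Submodule.span 𝕜 (Set.range e) : Submodule 𝕜 X) : Set X)) (x : X) (A : Finset ℕ)
    (hA : ∀ i ∈ A, ∀ j, j ∉ A → ‖f j x‖ ≤ ‖f i x‖) :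
    ‖∑ n ∈ A, f n x • e n‖ ≤ C * ‖x‖ := by
  classical
  have hc : 0 < c := by linarith
  set T : Set X := {z | ‖∑ n ∈ A, f n z • e n‖ ≤ C * ‖z‖} with hT
  have hcl : IsClosed T := by
    refine isClosed_le ?_ ?_
    · exact (continuous_finsetSum _ fun n _ => ((f n).continuous.smul continuous_const)).norm
    · exact continuous_const.mul continuous_norm
  suffices h : x ∈ closure T by
    rw [hcl.closure_eq] at h
    exact h
  rw [Metric.mem_closure_iff]
  intro ε hε
  set δ : ℝ := ε / (2 * (A.card * c + 1)) with hδ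
  have hδ0 : 0 < δ := by positivity
  set u : ℕ → 𝕜 := fun i => if f i x = 0 then 1 else ((‖f i x‖⁻¹ : ℝ) : 𝕜) * f i x with hu
  have hun : ∀ i, ‖u i‖ = 1 := fun i => by
    simp only [hu]
    split_ifs with h
    · exact norm_one
    · rw [norm_mul, RCLike.norm_ofReal, abs_of_nonneg (inv_nonneg.2 (norm_nonneg _)),
        inv_mul_cancel₀ (norm_ne_zero_iff.2 h)]
  have huadd : ∀ i, ‖f i x + (δ : 𝕜) * u i‖ = ‖f i x‖ + δ := fun i => by
    simp only [hu]
    split_ifs with h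
    · rw [h, norm_zero, zero_add, zero_add, mul_one, RCLike.norm_ofReal, abs_of_pos hδ0]
    · have hp : 0 < ‖f i x‖ := norm_pos_iff.2 h
      have h1 : f i x + (δ : 𝕜) * (((‖f i x‖⁻¹ : ℝ) : 𝕜) * f i x) =
          ((1 + δ * ‖f i x‖⁻¹ : ℝ) : 𝕜) * f i x := by
        rw [RCLike.ofReal_add, RCLike.ofReal_mul, RCLike.ofReal_one]
        ring
      rw [h1, norm_mul, RCLike.norm_ofReal, abs_of_pos (by positivity)]
      field_simp
  set xd : X := x + ∑ n ∈ A, ((δ : 𝕜) * u n) • e n with hxd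
  have hfxd : ∀ j, f j xd = f j x + if j ∈ A then (δ : 𝕜) * u j else 0 := fun j => by
    rw [hxd, map_add, map_sum]
    congr 1
    have h1 : ∀ n ∈ A, f j (((δ : 𝕜) * u n) • e n) = if j = n then (δ : 𝕜) * u n else 0 := by
      intro n _
      rw [map_smul, hbi, smul_eq_mul]
      split_ifs <;> simp
    rw [Finset.sum_congr rfl h1, Finset.sum_ite_eq]
  set η : ℝ := min (ε / 2) (δ / (2 * c)) with hη
  have hη0 : 0 < η := lt_min (half_pos hε) (by positivity)
  obtain ⟨y, hy, hyd⟩ := hd.exists_dist_lt xd hη0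
  refine ⟨y, ?_, ?_⟩
  · refine greedy_span e f hbi hc1 he hf hC y hy A fun i hi j hj => ?_
    have hdiff : ∀ n, ‖f n xd - f n y‖ ≤ δ / 2 := fun n => by
      rw [← map_sub]
      refine (ContinuousLinearMap.le_opNorm _ _).trans ?_
      rw [dist_eq_norm] at hyd
      calc ‖f n‖ * ‖xd - y‖ ≤ c * (δ / (2 * c)) :=
            mul_le_mul (hf n) (hyd.le.trans (min_le_right _ _)) (norm_nonneg _) hc.le
        _ = δ / 2 := by field_simp
    have h1 := hdiff i
    have h2 := hdiff j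
    have h3 : ‖f j y‖ ≤ ‖f j xd‖ + ‖f j xd - f j y‖ := by
      have := norm_sub_le (f j xd) (f j xd - f j y)
      rwa [sub_sub_cancel] at this
    have h4 : ‖f i xd‖ ≤ ‖f i y‖ + ‖f i xd - f i y‖ := by
      have := norm_add_le (f i y) (f i xd - f i y)
      rwa [add_sub_cancel] at this
    rw [hfxd j, if_neg hj, add_zero] at h3
    rw [hfxd i, if_pos hi, huadd] at h4
    have h5 := hA i hi j hj
    rw [hfxd j, if_neg hj, add_zero] at h2
    rw [hfxd i, if_pos hi] at h1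
    linarith
  · have h1 : dist x xd ≤ A.card * c * δ := by
      rw [dist_eq_norm, hxd, sub_add_cancel_left, norm_neg]
      refine (norm_sum_le _ _).trans ?_
      calc ∑ n ∈ A, ‖((δ : 𝕜) * u n) • e n‖ ≤ ∑ n ∈ A, c * δ := by
            refine Finset.sum_le_sum fun n _ => ?_
            rw [norm_smul, norm_mul, hun, mul_one, RCLike.norm_ofReal, abs_of_pos hδ0, mul_comm]
            exact mul_le_mul_of_nonneg_right (he n) hδ0.le
        _ = A.card * c * δ := by rw [Finset.sum_const, nsmul_eq_mul]; ring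
    have h2 : A.card * c * δ < ε / 2 := by
      have h3 : (A.card * c + 1) * δ = ε / 2 := by
        rw [hδ]
        have : (A.card * c + 1 : ℝ) ≠ 0 := by positivity
        field_simp
      linarith
    have h3 := dist_triangle x xd y
    have h4 : dist xd y < ε / 2 := hyd.trans_le (min_le_left _ _)
    linarith

end Space

end Pool.Agent.X202.VP
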