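import Pool.Agent.X202.Sobczyk

set_option autoImplicit false

/-!
# Extension of strictly bounded minimal sequences with control of the old functionals
-/

open Filter Topology

namespace Pool.Agent.X202

variable {𝕜 E : Type*} [RCLike 𝕜] [NormedAddCommGroup E] [NormedSpace 𝕜 E]

/-- The functionals of a strictly bounded minimal sequence tend to zero on its closed span. -/
theorem tendsto_zero_on_span (x : ℕ → E) (f : ℕ → StrongDual 𝕜 E) {D : ℝ}
    (hb : ∀ i j, f i (x j) = if i = j then 1 else 0) (hD : ∀ n, ‖f n‖ ≤ D) {g : E}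
    (hg : g ∈ (Submodule.span 𝕜 (Set.range x)).topologicalClosure) :
    Tendsto (fun n => f n g) atTop (𝓝 0) := by
  have hspan : ∀ v ∈ Submodule.span 𝕜 (Set.range x), ∀ᶠ n in atTop, f n v = 0 := by
    intro v hv
    induction hv using Submodule.span_induction with
    | mem v hv =>
      obtain ⟨k, rfl⟩ := hv
      filter_upwards [eventually_gt_atTop k] with n hn
      rw [hb, if_neg (by omega)]
    | zero => exact Eventually.of_forall fun n => map_zero _
    | add a b _ _ ha hb =>
      filter_upwards [ha, hb] with n h1 h2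
      rw [map_add, h1, h2, add_zero]
    | smul c a _ ha =>
      filter_upwards [ha] with n h1
      rw [map_smul, h1, smul_zero]
  rw [Metric.tendsto_atTop]
  intro ε hε
  have hD0 : 0 ≤ D := (norm_nonneg _).trans (hD 0)
  have hg' : g ∈ closure (Submodule.span 𝕜 (Set.range x) : Set E) := hg
  obtain ⟨v, hv, hgv⟩ := Metric.mem_closure_iff.1 hg' (ε / (D + 1)) (by positivity)
  obtain ⟨N, hN⟩ := eventually_atTop.1 (hspan v hv)
  refine ⟨N, fun n hn => ?_⟩
  rw [dist_zero_right]
  have h1 : f n g = f n (g - v) := by rw [map_sub, hN n hn, sub_zero]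
  rw [h1]
  rw [dist_eq_norm] at hgv
  calc ‖f n (g - v)‖ ≤ ‖f n‖ * ‖g - v‖ := (f n).le_opNorm _
    _ ≤ (D + 1) * ‖g - v‖ := by
      have := hD n
      gcongr
      linarith
    _ < (D + 1) * (ε / (D + 1)) := by gcongr
    _ = ε := by field_simp

/-- **Theorem A.** Every strictly bounded minimal sequence `x` in a separable normed space extends
to a complete minimal sequence, the new terms being indexed by those `i` for which `h i (z i) = 1`
(for the other `i`, `z i = 0` and `h i = 0`), such that the functionals `F n` of the old terms in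
the new system are uniformly bounded. -/
theorem thmA [TopologicalSpace.SeparableSpace E] (x : ℕ → E) (f : ℕ → StrongDual 𝕜 E) {D : ℝ}
    (hb : ∀ i j, f i (x j) = if i = j then 1 else 0) (hD : ∀ n, ‖f n‖ ≤ D) :
    ∃ (F : ℕ → StrongDual 𝕜 E) (D' : ℝ) (z : ℕ → E) (h : ℕ → StrongDual 𝕜 E),
      (∀ n, ‖F n‖ ≤ D') ∧ (∀ i j, F i (x j) = if i = j then 1 else 0) ∧
      (∀ i j, F i (z j) = 0) ∧ (∀ i j, h i (x j) = 0) ∧ (∀ i j, i ≠ j → h i (z j) = 0) ∧
      (∀ i, h i (z i) = 1 ∨ (z i = 0 ∧ h i = 0)) ∧
      (Submodule.span 𝕜 (Set.range x ∪ Set.range z)).topologicalClosure = ⊤ := by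
  set G : Submodule 𝕜 E := (Submodule.span 𝕜 (Set.range x)).topologicalClosure with hGdef
  have hGcl : IsClosed (G : Set E) := Submodule.isClosed_topologicalClosure _
  have hxG : ∀ n, x n ∈ G := fun n =>
    Submodule.le_topologicalClosure _ (Submodule.subset_span ⟨n, rfl⟩)
  have hD0 : 0 ≤ D := (norm_nonneg _).trans (hD 0)
  obtain ⟨q, hq1, hq2, hq3⟩ := sobczyk_seq G f (C := D + 1) (by linarith)
    (fun n => (hD n).trans (by linarith)) (fun g hg => tendsto_zero_on_span x f hb hD hg)
  obtain ⟨z, h, hh1, hh2, hh3, hh4⟩ := exists_complete_biorth G hGcl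
  -- the threshold for `z j`
  have hN : ∀ j, ∃ N, ∀ m, N ≤ m → ‖q m (z j)‖ ≤ (1 / 2) ^ j / (1 + ‖h j‖) := by
    intro j
    have hpos : 0 < (1 / 2 : ℝ) ^ j / (1 + ‖h j‖) := by positivity
    obtain ⟨N, hN⟩ := Metric.tendsto_atTop.1 (hq3 (z j)) _ hpos
    refine ⟨N, fun m hm => ?_⟩
    have := hN m hm
    rw [dist_zero_right] at this
    exact this.le
  choose N hN using hN
  set z' : ℕ → E := fun j => z j - ∑ n ∈ Finset.range (N j), q n (z j) • x n with hz'
  have hqx : ∀ i j, q i (x j) = if i = j then 1 else 0 := fun i j => by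
    rw [hq2 i (x j) (hxG j), hb]
  have hqz' : ∀ m j, ‖q m (z' j)‖ ≤ (1 / 2) ^ j / (1 + ‖h j‖) := by
    intro m j
    have h1 : q m (z' j) = q m (z j) - if m < N j then q m (z j) else 0 := by
      simp only [hz', map_sub, map_sum, map_smul, hqx, smul_eq_mul, mul_ite, mul_one, mul_zero]
      rw [Finset.sum_ite_eq]
      simp only [Finset.mem_range]
    rw [h1]
    split_ifs with hm
    · rw [sub_self, norm_zero]; positivity
    · rw [sub_zero]; exact hN j m (not_lt.1 hm)
  have hhx : ∀ i j, h i (x j) = 0 := fun i j => hh1 i _ (hxG j)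
  have hhz' : ∀ i j, h i (z' j) = h i (z j) := by
    intro i j
    simp only [hz', map_sub, map_sum, map_smul, hhx, smul_zero, Finset.sum_const_zero, sub_zero]
  -- the corrected functionals
  have hterm : ∀ n j, ‖q n (z' j) • h j‖ ≤ (1 / 2) ^ j := by
    intro n j
    rw [norm_smul]
    calc ‖q n (z' j)‖ * ‖h j‖ ≤ ((1 / 2) ^ j / (1 + ‖h j‖)) * (1 + ‖h j‖) := by
          refine mul_le_mul (hqz' n j) (by linarith) (norm_nonneg _) (by positivity)
      _ = (1 / 2) ^ j := by
          have : 1 + ‖h j‖ ≠ 0 := by positivity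
          field_simp
  have hsum : ∀ n, Summable fun j => q n (z' j) • h j := fun n =>
    Summable.of_norm_bounded summable_geometric_two (hterm n)
  set F : ℕ → StrongDual 𝕜 E := fun n => q n - ∑' j, q n (z' j) • h j with hF
  have hFapp : ∀ n v, F n v = q n v - ∑' j, q n (z' j) * h j v := by
    intro n v
    have h1 := ((ContinuousLinearMap.apply 𝕜 𝕜 v).hasSum (hsum n).hasSum).tsum_eq
    simp only [ContinuousLinearMap.apply_apply] at h1
    change q n v - (∑' j, q n (z' j) • h j) v = _
    rw [← h1]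
    rfl
  have hz'inact : ∀ j, z j = 0 → z' j = 0 := by
    intro j hj
    simp [hz', hj]
  refine ⟨F, (D + 1) + (D + 1) + 2, z', h, fun n => ?_, fun i j => ?_, fun i j => ?_, hhx, ?_, ?_, ?_⟩
  · refine (norm_sub_le _ _).trans (add_le_add (hq1 n) ?_)
    exact tsum_of_norm_bounded hasSum_geometric_two (hterm n)
  · rw [hFapp, hqx]
    simp only [hhx, mul_zero, tsum_zero, sub_zero]
  · rw [hFapp]
    rcases hh3 j with hj | ⟨hj, -⟩
    · rw [tsum_eq_single j]
      · rw [hhz', hj, mul_one, sub_self]
      · intro i' hi'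
        rw [hhz', hh2 i' j hi', mul_zero]
    · rw [hz'inact j hj]
      simp
  · intro i j hij
    rw [hhz', hh2 i j hij]
  · intro i
    rcases hh3 i with hi | ⟨hi1, hi2⟩
    · left; rw [hhz', hi]
    · right; exact ⟨hz'inact i hi1, hi2⟩
  · rw [eq_top_iff]
    have hcl : IsClosed ((Submodule.span 𝕜 (Set.range x ∪ Set.range z')).topologicalClosure : Set E) :=
      Submodule.isClosed_topologicalClosure _
    have hx' : ∀ n, x n ∈ Submodule.span 𝕜 (Set.range x ∪ Set.range z') := fun n =>
      Submodule.subset_span (Or.inl ⟨n, rfl⟩)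
    have hG' : G ≤ (Submodule.span 𝕜 (Set.range x ∪ Set.range z')).topologicalClosure :=
      Submodule.topologicalClosure_mono (Submodule.span_mono Set.subset_union_left)
    have hz : ∀ n, z n ∈ Submodule.span 𝕜 (Set.range x ∪ Set.range z') := by
      intro n
      have : z n = z' n + ∑ k ∈ Finset.range (N n), q k (z n) • x k := by simp [hz']
      rw [this]
      exact Submodule.add_mem _ (Submodule.subset_span (Or.inr ⟨n, rfl⟩))
        (Submodule.sum_mem _ fun k _ => Submodule.smul_mem _ _ (hx' k))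
    intro v _
    refine Submodule.topologicalClosure_minimal _ (sup_le hG' ?_) hcl (hh4 v)
    rw [Submodule.span_le]
    rintro _ ⟨n, rfl⟩
    exact Submodule.le_topologicalClosure _ (hz n)

end Pool.Agent.X202
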