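import Pool.Agent.X202.MazurQ
import Pool.Agent.X202.ThmA

set_option autoImplicit false

/-!
# Adding infinitely many good vectors to a strictly bounded minimal sequence
-/

open Filter Topology

namespace Pool.Agent.X202

variable {𝕜 E : Type*} [RCLike 𝕜] [NormedAddCommGroup E] [NormedSpace 𝕜 E]

/-- A state of the gliding hump: the index bound in the subsequence and the coordinate bound. -/
theorem hump (q : ℕ → StrongDual 𝕜 E) (hq0 : ∀ v, Tendsto (fun n => q n v) atTop (𝓝 0))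
    {D : ℝ} (hqD : ∀ n, ‖q n‖ ≤ D) (y : ℕ → E) {B : ℝ} (hy : ∀ n, ‖y n‖ ≤ B) :
    ∃ (a b : ℕ → ℕ), Function.Injective a ∧ (∀ i j, a i ≠ b j) ∧
      ∀ n K, ∑ i ∈ Finset.range K, ‖q n (y (a i) - y (b i))‖ ≤ 2 + D * (B + B) := by
  have hD0 : 0 ≤ D := (norm_nonneg _).trans (hqD 0)
  have hB0 : 0 ≤ B := (norm_nonneg _).trans (hy 0)
  -- a subsequence along which all coordinates converge
  have hcomp : IsCompact (Set.pi Set.univ fun _ : ℕ => Metric.closedBall (0 : 𝕜) (D * B)) :=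
    isCompact_univ_pi fun _ => isCompact_closedBall _ _
  obtain ⟨L, -, φ, hφ, hL⟩ := hcomp.tendsto_subseq (x := fun m => fun n => q n (y m)) (by
    intro m n _
    rw [mem_closedBall_zero_iff]
    calc ‖q n (y m)‖ ≤ ‖q n‖ * ‖y m‖ := (q n).le_opNorm _
      _ ≤ D * B := mul_le_mul (hqD n) (hy m) (norm_nonneg _) hD0)
  rw [tendsto_pi_nhds] at hL
  have hstep : ∀ (i : ℕ) (p : ℕ × ℕ), ∃ p' : ℕ × ℕ, p.1 + 1 ≤ p'.1 ∧ p.2 ≤ p'.2 ∧
      (∀ n < p.2, ‖q n (y (φ p'.1) - y (φ (p'.1 + 1)))‖ ≤ (1 / 2) ^ i) ∧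
      (∀ n, p'.2 ≤ n → ‖q n (y (φ p'.1) - y (φ (p'.1 + 1)))‖ ≤ (1 / 2) ^ i) := by
    intro i p
    have h1 : ∀ᶠ m in atTop, ∀ n ∈ Finset.range p.2,
        ‖q n (y (φ m) - y (φ (m + 1)))‖ ≤ (1 / 2) ^ i := by
      rw [eventually_all_finset]
      intro n _
      have h2 := (hL n).sub ((tendsto_add_atTop_iff_nat 1).2 (hL n))
      rw [sub_self] at h2
      have h3 := (tendsto_order.1 (tendsto_zero_iff_norm_tendsto_zero.1 h2)).2 ((1 / 2) ^ i)
        (by positivity)
      filter_upwards [h3] with m hm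
      rw [map_sub]
      exact hm.le
    obtain ⟨M, hM1, hM2⟩ := (h1.and (eventually_ge_atTop (p.1 + 1))).exists
    obtain ⟨N, hN⟩ := Metric.tendsto_atTop.1 (hq0 (y (φ M) - y (φ (M + 1)))) ((1 / 2) ^ i)
      (by positivity)
    refine ⟨(M, max N p.2), hM2, le_max_right _ _, fun n hn => hM1 n (Finset.mem_range.2 hn),
      fun n hn => ?_⟩
    have := hN n ((le_max_left _ _).trans hn)
    rw [dist_zero_right] at this
    exact this.le
  choose nx hnx1 hnx2 hnx3 hnx4 using hstep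
  let nx' : ℕ → ℕ × ℕ → ℕ × ℕ := fun i p => ((nx i p).1 + 1, (nx i p).2)
  let st : ℕ → ℕ × ℕ := fun i => Nat.rec (0, 0) nx' i
  have hst : ∀ i, st (i + 1) = nx' i (st i) := fun i => rfl
  have hst1 : ∀ i, (nx i (st i)).1 + 1 = (st (i + 1)).1 := fun i => rfl
  have hst2 : ∀ i, (nx i (st i)).2 = (st (i + 1)).2 := fun i => rfl
  set s : ℕ → ℕ := fun i => (nx i (st i)).1 with hs
  have hsmono : ∀ i j, i < j → s i + 2 ≤ s j := by
    intro i j hij
    induction j, hij using Nat.le_induction with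
    | base =>
      have h1 := hnx1 (i + 1) (st (i + 1))
      have h2 := hst1 i
      simp only [hs] at *
      omega
    | succ j hj ih =>
      have h1 := hnx1 (j + 1) (st (j + 1))
      have h2 := hst1 j
      simp only [hs] at *
      omega
  have hne : ∀ i j, s i ≠ s j + 1 := by
    intro i j h
    rcases lt_trichotomy i j with h1 | h1 | h1
    · have := hsmono i j h1; omega
    · subst h1; omega
    · have := hsmono j i h1; omega
  have hinj : Function.Injective s := by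
    intro i j h
    rcases lt_trichotomy i j with h1 | h1 | h1
    · have := hsmono i j h1; omega
    · exact h1
    · have := hsmono j i h1; omega
  have hN : Monotone fun i => (st i).2 := monotone_nat_of_le_succ fun i => by
    rw [← hst2]; exact hnx2 i (st i)
  refine ⟨fun i => φ (s i), fun i => φ (s i + 1), fun i j h => hinj (hφ.injective h),
    fun i j h => hne i j (hφ.injective h), fun n K => ?_⟩
  have hterm : ∀ i, ‖q n (y (φ (s i)) - y (φ (s i + 1)))‖ ≤ (1 / 2) ^ i +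
      (D * (B + B)) * ((if (st i).2 ≤ n then (1 : ℝ) else 0) -
        (if (st (i + 1)).2 ≤ n then (1 : ℝ) else 0)) := by
    intro i
    have hbig : ‖q n (y (φ (s i)) - y (φ (s i + 1)))‖ ≤ D * (B + B) := by
      calc ‖q n (y (φ (s i)) - y (φ (s i + 1)))‖ ≤ ‖q n‖ * ‖y (φ (s i)) - y (φ (s i + 1))‖ :=
            (q n).le_opNorm _
        _ ≤ D * (B + B) := by
            refine mul_le_mul (hqD n) ((norm_sub_le _ _).trans (add_le_add (hy _) (hy _)))
              (norm_nonneg _) hD0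
    have hpos : (0 : ℝ) ≤ (1 / 2) ^ i := by positivity
    have hDB : 0 ≤ D * (B + B) := by positivity
    by_cases h1 : (st i).2 ≤ n
    · by_cases h2 : (st (i + 1)).2 ≤ n
      · rw [if_pos h1, if_pos h2, sub_self, mul_zero, add_zero]
        exact hnx4 i (st i) n h2
      · rw [if_pos h1, if_neg h2]
        linarith
    · have h2 : ¬ (st (i + 1)).2 ≤ n := fun h => h1 ((hN (Nat.le_succ i)).trans h)
      rw [if_neg h1, if_neg h2, sub_self, mul_zero, add_zero]
      exact hnx3 i (st i) n (not_le.1 h1)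
  refine (Finset.sum_le_sum fun i _ => hterm i).trans ?_
  rw [Finset.sum_add_distrib, ← Finset.mul_sum, Finset.sum_range_sub']
  have h1 : ∑ i ∈ Finset.range K, ((1 : ℝ) / 2) ^ i ≤ 2 :=
    (summable_geometric_two.sum_le_tsum _ fun _ _ => by positivity).trans
      tsum_geometric_two.le
  have h2 : (if (st 0).2 ≤ n then (1 : ℝ) else 0) - (if (st K).2 ≤ n then (1 : ℝ) else 0) ≤ 1 := by
    split_ifs <;> norm_num
  have hDB : 0 ≤ D * (B + B) := by positivity
  nlinarith

/-- Adding infinitely many good vectors. -/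
theorem exists_good [TopologicalSpace.SeparableSpace E] (x : ℕ → E) (f : ℕ → StrongDual 𝕜 E) {D : ℝ}
    (hb : ∀ i j, f i (x j) = if i = j then 1 else 0) (hD : ∀ n, ‖f n‖ ≤ D)
    (hQ : ¬ FiniteDimensional 𝕜 (E ⧸ (Submodule.span 𝕜 (Set.range x)).topologicalClosure)) :
    ∃ (F : ℕ → StrongDual 𝕜 E) (u : ℕ → E) (g : ℕ → StrongDual 𝕜 E) (D' : ℝ),
      (∀ n, ‖F n‖ ≤ D') ∧ (∀ n, ‖u n‖ ≤ D') ∧ (∀ n, ‖g n‖ ≤ D') ∧
      (∀ i j, F i (x j) = if i = j then 1 else 0) ∧ (∀ i j, F i (u j) = 0) ∧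
      (∀ i j, g i (x j) = 0) ∧ (∀ i j, g i (u j) = if i = j then 1 else 0) := by
  set G : Submodule 𝕜 E := (Submodule.span 𝕜 (Set.range x)).topologicalClosure with hGdef
  have hGcl : IsClosed (G : Set E) := Submodule.isClosed_topologicalClosure _
  have hxG : ∀ n, x n ∈ G := fun n =>
    Submodule.le_topologicalClosure _ (Submodule.subset_span ⟨n, rfl⟩)
  have hD0 : 0 ≤ D := (norm_nonneg _).trans (hD 0)
  obtain ⟨q, hq1, hq2, hq3⟩ := sobczyk_seq G f (C := D + 1) (by linarith)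
    (fun n => (hD n).trans (by linarith)) (fun g hg => tendsto_zero_on_span x f hb hD hg)
  obtain ⟨y, g, hy, hg1, hg2, hg3⟩ := exists_bounded_biorth_mod G hGcl hQ
  obtain ⟨a, b, ha, hab, hsum⟩ := hump q hq3 hq1 y hy
  set u : ℕ → E := fun i => y (a i) - y (b i) with hu
  set R : ℝ := 2 + (D + 1 + (D + 1)) * (2 + 2) with hR
  have hR0 : 0 ≤ R := by positivity
  have hqx : ∀ i j, q i (x j) = if i = j then 1 else 0 := fun i j => by
    rw [hq2 i (x j) (hxG j), hb]
  have hgu : ∀ i j, g (a i) (u j) = if i = j then 1 else 0 := by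
    intro i j
    simp only [hu, map_sub, hg3]
    rw [if_neg (hab i j), sub_zero]
    by_cases h : i = j
    · rw [if_pos h, if_pos (by rw [h])]
    · rw [if_neg h, if_neg (fun h' => h (ha h'))]
  have hgx : ∀ i j, g (a i) (x j) = 0 := fun i j => hg2 _ _ (hxG j)
  have hs1 : ∀ n, Summable fun i => ‖q n (u i)‖ := fun n =>
    summable_of_sum_range_le (fun i => norm_nonneg _) (hsum n)
  have hs1' : ∀ n, ∑' i, ‖q n (u i)‖ ≤ R := fun n =>
    Real.tsum_le_of_sum_range_le (fun i => norm_nonneg _) (hsum n)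
  have hs2 : ∀ n, Summable fun i => q n (u i) • g (a i) := fun n =>
    Summable.of_norm_bounded ((hs1 n).mul_right 4) fun i => by
      rw [norm_smul]
      exact mul_le_mul_of_nonneg_left (hg1 _) (norm_nonneg _)
  set F : ℕ → StrongDual 𝕜 E := fun n => q n - ∑' i, q n (u i) • g (a i) with hF
  have hFapp : ∀ n v, F n v = q n v - ∑' i, q n (u i) * g (a i) v := by
    intro n v
    have h1 := ((ContinuousLinearMap.apply 𝕜 𝕜 v).hasSum (hs2 n).hasSum).tsum_eq
    simp only [ContinuousLinearMap.apply_apply] at h1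
    change q n v - (∑' i, q n (u i) • g (a i)) v = _
    rw [← h1]
    rfl
  refine ⟨F, u, fun i => g (a i), (D + 1) + (D + 1) + R * 4 + 4, fun n => ?_, fun n => ?_,
    fun n => ?_, fun i j => ?_, fun i j => ?_, hgx, hgu⟩
  · have h1 : ‖∑' i, q n (u i) • g (a i)‖ ≤ R * 4 := by
      refine (tsum_of_norm_bounded ((hs1 n).hasSum.mul_right 4) fun i => ?_).trans ?_
      · rw [norm_smul]
        exact mul_le_mul_of_nonneg_left (hg1 _) (norm_nonneg _)
      · exact mul_le_mul_of_nonneg_right (hs1' n) (by norm_num)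
    have h2 := (norm_sub_le (q n) (∑' i, q n (u i) • g (a i))).trans (add_le_add (hq1 n) h1)
    change ‖q n - ∑' i, q n (u i) • g (a i)‖ ≤ _
    linarith
  · have h1 : ‖u n‖ ≤ 2 + 2 := (norm_sub_le _ _).trans (add_le_add (hy _) (hy _))
    nlinarith
  · have := hg1 (a n)
    nlinarith
  · rw [hFapp, hqx]
    simp only [hgx, mul_zero, tsum_zero, sub_zero]
  · rw [hFapp, tsum_eq_single j]
    · rw [hgu, if_pos rfl, mul_one, sub_self]
    · intro i hi
      rw [hgu, if_neg hi, mul_zero]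

/-- A complete minimal system containing `x`, infinitely many good vectors `u`, and further vectors
`z`, with uniformly bounded functionals for `x` and `u`. -/
theorem exists_system [TopologicalSpace.SeparableSpace E] (x : ℕ → E) (f : ℕ → StrongDual 𝕜 E)
    {D : ℝ} (hb : ∀ i j, f i (x j) = if i = j then 1 else 0) (hD : ∀ n, ‖f n‖ ≤ D)
    (hQ : ¬ FiniteDimensional 𝕜 (E ⧸ (Submodule.span 𝕜 (Set.range x)).topologicalClosure)) :
    ∃ (F : ℕ → StrongDual 𝕜 E) (u : ℕ → E) (g : ℕ → StrongDual 𝕜 E) (z : ℕ → E)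
      (h : ℕ → StrongDual 𝕜 E) (D' : ℝ),
      (∀ n, ‖F n‖ ≤ D') ∧ (∀ n, ‖u n‖ ≤ D') ∧ (∀ n, ‖g n‖ ≤ D') ∧
      (∀ i j, F i (x j) = if i = j then 1 else 0) ∧ (∀ i j, F i (u j) = 0) ∧
      (∀ i j, F i (z j) = 0) ∧
      (∀ i j, g i (x j) = 0) ∧ (∀ i j, g i (u j) = if i = j then 1 else 0) ∧
      (∀ i j, g i (z j) = 0) ∧
      (∀ i j, h i (x j) = 0) ∧ (∀ i j, h i (u j) = 0) ∧ (∀ i j, i ≠ j → h i (z j) = 0) ∧
      (∀ i, h i (z i) = 1 ∨ (z i = 0 ∧ h i = 0)) ∧
      (Submodule.span 𝕜 (Set.range x ∪ Set.range u ∪ Set.range z)).topologicalClosure = ⊤ := by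
  obtain ⟨F, u, g, D', hF1, hu1, hg1, hFx, hFu, hgx, hgu⟩ := exists_good x f hb hD hQ
  set w : ℕ → E := fun n => if n % 2 = 0 then x (n / 2) else u (n / 2) with hw
  set W : ℕ → StrongDual 𝕜 E := fun n => if n % 2 = 0 then F (n / 2) else g (n / 2) with hW
  have hwe : ∀ n, w (2 * n) = x n := fun n => by
    simp only [hw]; rw [if_pos (by omega), show 2 * n / 2 = n by omega]
  have hwo : ∀ n, w (2 * n + 1) = u n := fun n => by
    simp only [hw]; rw [if_neg (by omega), show (2 * n + 1) / 2 = n by omega]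
  have hWb : ∀ i j, W i (w j) = if i = j then 1 else 0 := by
    intro i j
    simp only [hW, hw]
    by_cases hi : i % 2 = 0 <;> by_cases hj : j % 2 = 0
    · rw [if_pos hi, if_pos hj, hFx]
      by_cases h : i = j
      · rw [if_pos h, if_pos (by rw [h])]
      · rw [if_neg h, if_neg (by omega)]
    · rw [if_pos hi, if_neg hj, hFu, if_neg (by rintro rfl; exact hj hi)]
    · rw [if_neg hi, if_pos hj, hgx, if_neg (by rintro rfl; exact hi hj)]
    · rw [if_neg hi, if_neg hj, hgu]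
      by_cases h : i = j
      · rw [if_pos h, if_pos (by rw [h])]
      · rw [if_neg h, if_neg (by omega)]
  have hWD : ∀ n, ‖W n‖ ≤ D' := fun n => by
    simp only [hW]; split_ifs
    · exact hF1 _
    · exact hg1 _
  obtain ⟨F', D'', z, h, h1, h2, h3, h4, h5, h6, h7⟩ := thmA w W hWb hWD
  refine ⟨fun n => F' (2 * n), u, fun n => F' (2 * n + 1), z, h, max D' D'', fun n => ?_, fun n => ?_,
    fun n => ?_, fun i j => ?_, fun i j => ?_, fun i j => h3 _ _, fun i j => ?_, fun i j => ?_,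
    fun i j => h3 _ _, fun i j => ?_, fun i j => ?_, h5, h6, ?_⟩
  · exact (h1 _).trans (le_max_right _ _)
  · exact (hu1 _).trans (le_max_left _ _)
  · exact (h1 _).trans (le_max_right _ _)
  · rw [← hwe, h2]
    by_cases h : i = j
    · rw [if_pos h, if_pos (by rw [h])]
    · rw [if_neg h, if_neg (by omega)]
  · rw [← hwo, h2, if_neg (by omega)]
  · rw [← hwe, h2, if_neg (by omega)]
  · rw [← hwo, h2]
    by_cases h : i = j
    · rw [if_pos h, if_pos (by rw [h])]
    · rw [if_neg h, if_neg (by omega)]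
  · rw [← hwe, h4]
  · rw [← hwo, h4]
  · rw [← h7]
    congr 2
    congr 1
    ext v
    constructor
    · rintro (⟨n, rfl⟩ | ⟨n, rfl⟩)
      · exact ⟨2 * n, hwe n⟩
      · exact ⟨2 * n + 1, hwo n⟩
    · rintro ⟨n, rfl⟩
      rcases Nat.even_or_odd' n with ⟨k, rfl | rfl⟩
      · left; exact ⟨k, (hwe k).symm⟩
      · right; exact ⟨k, (hwo k).symm⟩

end Pool.Agent.X202
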