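import Pool.Agent.X202.Olevskii

set_option autoImplicit false

/-!
# The Ovsepian-Pelczynski mixing procedure
-/

open Finset

namespace Pool.Agent.X202

variable {𝕜 E : Type*} [RCLike 𝕜] [NormedAddCommGroup E] [NormedSpace 𝕜 E]

theorem mix_norm {V : Type*} [NormedAddCommGroup V] [NormedSpace 𝕜 V] (n : ℕ) (hn : 0 < n)
    (a : ℕ → ℝ) (v : ℕ → V) {U : ℝ} (h0 : |a 0| * ‖v 0‖ ≤ 1)
    (h1 : ∑ l ∈ (range n).erase 0, |a l| ≤ 3) (hv : ∀ l, l ≠ 0 → ‖v l‖ ≤ U) (hU : 0 ≤ U) :
    ‖∑ l ∈ range n, ((a l : ℝ) : 𝕜) • v l‖ ≤ 1 + 3 * U := by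
  rw [← Finset.add_sum_erase (range n) _ (Finset.mem_range.2 hn)]
  refine (norm_add_le _ _).trans (add_le_add ?_ ?_)
  · rw [norm_smul, RCLike.norm_ofReal]; exact h0
  · calc ‖∑ l ∈ (range n).erase 0, ((a l : ℝ) : 𝕜) • v l‖
        ≤ ∑ l ∈ (range n).erase 0, |a l| * U := by
          refine (norm_sum_le _ _).trans (Finset.sum_le_sum fun l hl => ?_)
          rw [norm_smul, RCLike.norm_ofReal]
          exact mul_le_mul_of_nonneg_left (hv l (Finset.ne_of_mem_erase hl)) (abs_nonneg _)
      _ = (∑ l ∈ (range n).erase 0, |a l|) * U := by rw [Finset.sum_mul]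
      _ ≤ 3 * U := mul_le_mul_of_nonneg_right h1 hU

/-- Mixing: in every row `j` there is at most one bad vector `e j 0` (present if `act j`), and
infinitely many good vectors `e j (k+1)`. After orthogonal mixing inside the rows all vectors are
good. -/
theorem mixing (act : ℕ → Prop) (e : ℕ → ℕ → E) (es : ℕ → ℕ → StrongDual 𝕜 E)
    (hb : ∀ j k j' k', (k ≠ 0 ∨ act j) → (k' ≠ 0 ∨ act j') →
      es j k (e j' k') = if j = j' ∧ k = k' then 1 else 0)
    (h0 : ∀ j, ¬ act j → e j 0 = 0 ∧ es j 0 = 0) {U : ℝ} (hU0 : 0 ≤ U)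
    (hU : ∀ j k, k ≠ 0 → ‖e j k‖ ≤ U) (hUs : ∀ j k, k ≠ 0 → ‖es j k‖ ≤ U) :
    ∃ (y : ℕ → ℕ → E) (ys : ℕ → ℕ → StrongDual 𝕜 E),
      (∀ j k j' k', (k ≠ 0 ∨ act j) → (k' ≠ 0 ∨ act j') →
        ys j k (y j' k') = if j = j' ∧ k = k' then 1 else 0) ∧
      (∀ j k, ‖y j k‖ ≤ 1 + 3 * U) ∧ (∀ j k, ‖ys j k‖ ≤ 1 + 3 * U) ∧
      (∀ (v : E), (∀ j k, es j k v = 0) → ∀ j k, ys j k v = 0) ∧
      (∀ (F : StrongDual 𝕜 E), (∀ j k, F (e j k) = 0) → ∀ j k, F (y j k) = 0) ∧
      (∀ (S : Submodule 𝕜 E), (∀ j k, (k ≠ 0 ∨ act j) → y j k ∈ S) → ∀ j k, e j k ∈ S) := by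
  have hmat : ∀ j, ∃ (n : ℕ) (A : ℕ → ℕ → ℝ), 0 < n ∧
      (∀ k < n, ∀ k' < n, ∑ l ∈ range n, A k l * A k' l = if k = k' then 1 else 0) ∧
      (∀ l < n, ∀ l' < n, ∑ k ∈ range n, A k l * A k l' = if l = l' then 1 else 0) ∧
      (∀ k < n, |A k 0| * ‖e j 0‖ ≤ 1) ∧ (∀ k < n, |A k 0| * ‖es j 0‖ ≤ 1) ∧
      (∀ k < n, ∑ l ∈ (range n).erase 0, |A k l| ≤ 3) ∧ (¬ act j → n = 1) := by
    intro j
    by_cases hj : act j
    · obtain ⟨n, A, h1, h2, h3, h4, h5⟩ := exists_olevskii (1 / (1 + ‖e j 0‖ + ‖es j 0‖))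
        (by positivity)
      refine ⟨n, A, h1, h2, h3, fun k hk => ?_, fun k hk => ?_, h5, fun h => absurd hj h⟩
      · have h6 : 0 < 1 + ‖e j 0‖ + ‖es j 0‖ := by positivity
        calc |A k 0| * ‖e j 0‖ ≤ 1 / (1 + ‖e j 0‖ + ‖es j 0‖) * (1 + ‖e j 0‖ + ‖es j 0‖) := by
              refine mul_le_mul (h4 k hk) ?_ (norm_nonneg _) (by positivity)
              have := norm_nonneg (es j 0)
              linarith
          _ = 1 := by field_simp
      · have h6 : 0 < 1 + ‖e j 0‖ + ‖es j 0‖ := by positivity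
        calc |A k 0| * ‖es j 0‖ ≤ 1 / (1 + ‖e j 0‖ + ‖es j 0‖) * (1 + ‖e j 0‖ + ‖es j 0‖) := by
              refine mul_le_mul (h4 k hk) ?_ (norm_nonneg _) (by positivity)
              have := norm_nonneg (e j 0)
              linarith
          _ = 1 := by field_simp
    · refine ⟨1, fun _ _ => 1, one_pos, fun k hk k' hk' => ?_, fun k hk k' hk' => ?_,
        fun k _ => ?_, fun k _ => ?_, fun k _ => ?_, fun _ => rfl⟩
      · have : k = k' := by omega
        simp [this]
      · have : k = k' := by omega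
        simp [this]
      · rw [(h0 j hj).1]; simp
      · rw [(h0 j hj).2]; simp
      · simp
  choose n A hn hrow hcol hA0 hA0s hsum hn1 using hmat
  set y : ℕ → ℕ → E := fun j k => if k < n j then ∑ l ∈ range (n j), ((A j k l : ℝ) : 𝕜) • e j l
    else e j k with hy
  set ys : ℕ → ℕ → StrongDual 𝕜 E := fun j k => if k < n j then
    ∑ l ∈ range (n j), ((A j k l : ℝ) : 𝕜) • es j l else es j k with hys
  refine ⟨y, ys, ?_, ?_, ?_, ?_, ?_, ?_⟩
  · -- values of `es` on `y`
    intro j k j' k' hk hk'
    have hact : ∀ j k, (k ≠ 0 ∨ act j) → k < n j → act j := by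
      intro j k h1 h2
      by_contra h3
      have := hn1 j h3
      rcases h1 with h1 | h1
      · omega
      · exact h3 h1
    have hesy : ∀ l, (l ≠ 0 ∨ act j) → es j l (y j' k') =
        if k' < n j' then (if j = j' ∧ l < n j' then ((A j' k' l : ℝ) : 𝕜) else 0)
          else (if j = j' ∧ l = k' then 1 else 0) := by
      intro l hl
      simp only [hy]
      by_cases h1 : k' < n j'
      · rw [if_pos h1, if_pos h1]
        have hj' := hact j' k' hk' h1
        simp only [map_sum, map_smul, smul_eq_mul]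
        rw [Finset.sum_congr rfl fun i _ => by rw [hb j l j' i hl (Or.inr hj')]]
        by_cases h2 : j = j'
        · subst h2
          simp only [true_and, mul_ite, mul_one, mul_zero]
          rw [Finset.sum_ite_eq]
          simp only [Finset.mem_range]
        · simp [h2]
      · rw [if_neg h1, if_neg h1]
        exact hb j l j' k' hl hk'
    by_cases h1 : k < n j
    · have hj := hact j k hk h1
      simp only [hys]
      rw [if_pos h1]
      rw [_root_.sum_apply, Finset.sum_congr rfl fun i _ => by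
        rw [_root_.smul_apply, hesy i (Or.inr hj), smul_eq_mul]]
      by_cases h2 : j = j'
      · subst h2
        by_cases h3 : k' < n j
        · simp only [if_pos h3, true_and]
          have h4 := hrow j k h1 k' h3
          rw [Finset.sum_congr rfl fun i hi => by rw [if_pos (Finset.mem_range.1 hi)]]
          have h5 : ∑ x ∈ range (n j), ((A j k x : ℝ) : 𝕜) * ((A j k' x : ℝ) : 𝕜) =
              ((∑ x ∈ range (n j), A j k x * A j k' x : ℝ) : 𝕜) := by
            push_cast; rfl
          rw [h5, h4]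
          split_ifs <;> simp
        · simp only [if_neg h3, true_and]
          rw [Finset.sum_eq_zero]
          · rw [if_neg (by omega)]
          · intro i hi
            rw [Finset.mem_range] at hi
            rw [if_neg (by omega), mul_zero]
      · simp [h2]
    · simp only [hys]
      rw [if_neg h1, hesy k hk]
      by_cases h3 : k' < n j'
      · rw [if_pos h3]
        by_cases h2 : j = j'
        · subst h2
          rw [if_neg (by omega), if_neg (by omega)]
        · rw [if_neg (by tauto), if_neg (by tauto)]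
      · rw [if_neg h3]
  · intro j k
    simp only [hy]
    split_ifs with h1
    · exact mix_norm (n j) (hn j) (A j k) (e j) (hA0 j k h1) (hsum j k h1) (hU j) hU0
    · have hk : k ≠ 0 := by have := hn j; omega
      have := hU j k hk
      linarith
  · intro j k
    simp only [hys]
    split_ifs with h1
    · exact mix_norm (n j) (hn j) (A j k) (es j) (hA0s j k h1) (hsum j k h1) (hUs j) hU0
    · have hk : k ≠ 0 := by have := hn j; omega
      have := hUs j k hk
      linarith
  · intro v hv j k
    simp only [hys]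
    split_ifs with h1
    · rw [_root_.sum_apply]
      refine Finset.sum_eq_zero fun i _ => ?_
      rw [_root_.smul_apply, hv, smul_zero]
    · exact hv j k
  · intro F hF j k
    simp only [hy]
    split_ifs with h1
    · rw [map_sum]
      refine Finset.sum_eq_zero fun i _ => ?_
      rw [map_smul, hF, smul_zero]
    · exact hF j k
  · intro S hS j l
    by_cases hl : l < n j
    · by_cases hj : act j
      · have h1 : ∑ k ∈ range (n j), ((A j k l : ℝ) : 𝕜) • y j k = e j l := by
          have h2 : ∀ k ∈ range (n j), ((A j k l : ℝ) : 𝕜) • y j k =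
              ∑ i ∈ range (n j), ((A j k l * A j k i : ℝ) : 𝕜) • e j i := by
            intro k hk
            rw [Finset.mem_range] at hk
            simp only [hy]
            rw [if_pos hk, Finset.smul_sum]
            refine Finset.sum_congr rfl fun i _ => ?_
            rw [smul_smul, RCLike.ofReal_mul]
          rw [Finset.sum_congr rfl h2, Finset.sum_comm]
          have h3 : ∀ i ∈ range (n j), ∑ k ∈ range (n j), ((A j k l * A j k i : ℝ) : 𝕜) • e j i =
              if l = i then e j i else 0 := by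
            intro i hi
            rw [Finset.mem_range] at hi
            rw [← Finset.sum_smul, ← RCLike.ofReal_sum, hcol j l hl i hi]
            split_ifs <;> simp
          rw [Finset.sum_congr rfl h3, Finset.sum_ite_eq, if_pos (Finset.mem_range.2 hl)]
        rw [← h1]
        exact Submodule.sum_mem _ fun k _ => Submodule.smul_mem _ _ (hS j k (Or.inr hj))
      · have := hn1 j hj
        have hl0 : l = 0 := by omega
        rw [hl0, (h0 j hj).1]
        exact S.zero_mem
    · have hl0 : l ≠ 0 := by have := hn j; omega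
      have := hS j l (Or.inl hl0)
      simp only [hy] at this
      rwa [if_neg hl] at this

end Pool.Agent.X202
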