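import Mathlib

set_option autoImplicit false

/-!
# A nearly unconditional basis that is not truncation quasi-greedy: the blocks
-/

open scoped ENNReal

namespace Pool.Agent.X202.NearUncond

/-- block index -/
abbrev Idx (m : ℕ) : Type := Option (Fin m) × Fin (4 ^ m)

/-- the weighted mean of the upper levels -/
noncomputable def sig (m : ℕ) : (Idx m → ℝ) →ₗ[ℝ] ℝ where
  toFun g := (1 / (m : ℝ)) * ∑ k : Fin m, (1 / 2 : ℝ) ^ ((k : ℕ) + 1) *
    ((∑ i, g (some k, i)) / 4 ^ m)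
  map_add' g h := by
    have h1 : ∀ k : Fin m, ∑ i, (g + h) (some k, i) = ∑ i, g (some k, i) + ∑ i, h (some k, i) :=
      fun k => Finset.sum_add_distrib
    have h2 : ∑ k : Fin m, (1 / 2 : ℝ) ^ ((k : ℕ) + 1) * ((∑ i, (g + h) (some k, i)) / 4 ^ m) =
        ∑ k : Fin m, (1 / 2 : ℝ) ^ ((k : ℕ) + 1) * ((∑ i, g (some k, i)) / 4 ^ m) +
        ∑ k : Fin m, (1 / 2 : ℝ) ^ ((k : ℕ) + 1) * ((∑ i, h (some k, i)) / 4 ^ m) := by
      rw [← Finset.sum_add_distrib]
      refine Finset.sum_congr rfl fun k _ => ?_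
      rw [h1, add_div, mul_add]
    rw [h2, mul_add]
  map_smul' c g := by
    have h1 : ∀ k : Fin m, ∑ i, (c • g) (some k, i) = c * ∑ i, g (some k, i) := fun k => by
      rw [Finset.mul_sum]; rfl
    have h2 : ∑ k : Fin m, (1 / 2 : ℝ) ^ ((k : ℕ) + 1) * ((∑ i, (c • g) (some k, i)) / 4 ^ m) =
        c * ∑ k : Fin m, (1 / 2 : ℝ) ^ ((k : ℕ) + 1) * ((∑ i, g (some k, i)) / 4 ^ m) := by
      rw [Finset.mul_sum]
      refine Finset.sum_congr rfl fun k _ => ?_
      rw [h1]; ring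
    rw [h2, RingHom.id_apply, smul_eq_mul, mul_left_comm]

theorem sig_apply (m : ℕ) (g : Idx m → ℝ) : sig m g = (1 / (m : ℝ)) * ∑ k : Fin m,
    (1 / 2 : ℝ) ^ ((k : ℕ) + 1) * ((∑ i, g (some k, i)) / 4 ^ m) := rfl

/-- the target of the embedding of a block -/
abbrev Tgt (m : ℕ) : Type := (Idx m → ℝ) × (Fin m → EuclideanSpace ℝ (Fin (4 ^ m))) ×
  PiLp 1 (fun _ : Fin (4 ^ m) => ℝ)

/-- the embedding of a block -/
noncomputable def Phi (m : ℕ) : (Idx m → ℝ) →ₗ[ℝ] Tgt m where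
  toFun g := (g, fun k => WithLp.toLp 2 (fun i => (1 / 2 : ℝ) ^ ((k : ℕ) + 1) * g (some k, i)),
    WithLp.toLp 1 (fun i => (m / 2 ^ m : ℝ) * (g (none, i) - sig m g)))
  map_add' g h := by
    refine Prod.ext rfl (Prod.ext ?_ ?_)
    · funext k
      ext i
      simp [mul_add]
    · ext i
      simp only [map_add, Pi.add_apply, Prod.snd_add, PiLp.add_apply]
      ring
  map_smul' c g := by
    refine Prod.ext rfl (Prod.ext ?_ ?_)
    · funext k
      ext i
      simp only [Pi.smul_apply, smul_eq_mul, RingHom.id_apply, Prod.smul_snd, Prod.smul_fst,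
        PiLp.smul_apply]
      ring
    · ext i
      simp only [map_smul, Pi.smul_apply, smul_eq_mul, RingHom.id_apply, Prod.smul_snd,
        PiLp.smul_apply]
      ring

theorem Phi_injective (m : ℕ) : Function.Injective (Phi m) := fun _ _ h => congrArg Prod.fst h

/-- The blocks. -/
def Blk (m : ℕ) : Type := Idx m → ℝ

noncomputable instance (m : ℕ) : AddCommGroup (Blk m) := inferInstanceAs (AddCommGroup (Idx m → ℝ))

noncomputable instance (m : ℕ) : Module ℝ (Blk m) := inferInstanceAs (Module ℝ (Idx m → ℝ))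

instance (m : ℕ) : FiniteDimensional ℝ (Blk m) :=
  inferInstanceAs (FiniteDimensional ℝ (Idx m → ℝ))

/-- `Phi` on the block -/
noncomputable def Ph (m : ℕ) : Blk m →ₗ[ℝ] Tgt m := Phi m

noncomputable instance (m : ℕ) : NormedAddCommGroup (Blk m) :=
  NormedAddCommGroup.induced (Blk m) (Tgt m) (Ph m) (Phi_injective m)

noncomputable instance (m : ℕ) : NormedSpace ℝ (Blk m) := NormedSpace.induced ℝ (Blk m) (Tgt m) (Ph m)

instance (m : ℕ) : CompleteSpace (Blk m) := FiniteDimensional.complete ℝ (Blk m)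

theorem norm_def (m : ℕ) (g : Blk m) : ‖g‖ = ‖Ph m g‖ := rfl

theorem abs_le_norm {m : ℕ} (g : Blk m) (n : Idx m) : |g n| ≤ ‖g‖ := by
  rw [norm_def]
  refine le_trans ?_ (norm_fst_le (Ph m g))
  rw [← Real.norm_eq_abs]
  exact norm_le_pi_norm (Ph m g).1 n

theorem U_le_norm {m : ℕ} (g : Blk m) (k : Fin m) :
    (1 / 2 : ℝ) ^ ((k : ℕ) + 1) * √(∑ i, g (some k, i) ^ 2) ≤ ‖g‖ := by
  rw [norm_def]
  refine le_trans ?_ ((norm_fst_le (Ph m g).2).trans (norm_snd_le (Ph m g)))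
  refine le_trans (le_of_eq ?_) (norm_le_pi_norm (Ph m g).2.1 k)
  change _ = ‖(WithLp.toLp 2 (fun i => (1 / 2 : ℝ) ^ ((k : ℕ) + 1) * g (some k, i)) :
    EuclideanSpace ℝ (Fin (4 ^ m)))‖
  rw [EuclideanSpace.norm_eq]
  have h1 : ∀ i : Fin (4 ^ m), ‖(WithLp.toLp 2 (fun i => (1 / 2 : ℝ) ^ ((k : ℕ) + 1) *
      g (some k, i)) : EuclideanSpace ℝ (Fin (4 ^ m))) i‖ ^ 2 =
      ((1 / 2 : ℝ) ^ ((k : ℕ) + 1)) ^ 2 * g (some k, i) ^ 2 := by
    intro i
    change ‖(1 / 2 : ℝ) ^ ((k : ℕ) + 1) * g (some k, i)‖ ^ 2 = _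
    rw [Real.norm_eq_abs, sq_abs]; ring
  rw [Finset.sum_congr rfl fun i _ => h1 i, ← Finset.mul_sum,
    Real.sqrt_mul (by positivity), Real.sqrt_sq (by positivity)]

theorem third_le_norm {m : ℕ} (g : Blk m) :
    (m / 2 ^ m : ℝ) * ∑ i, |g (none, i) - sig m g| ≤ ‖g‖ := by
  rw [norm_def]
  refine le_trans ?_ ((norm_snd_le (Ph m g).2).trans (norm_snd_le (Ph m g)))
  change _ ≤ ‖(WithLp.toLp 1 (fun i => (m / 2 ^ m : ℝ) * (g (none, i) - sig m g)) :
    PiLp 1 (fun _ : Fin (4 ^ m) => ℝ))‖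
  rw [PiLp.norm_eq_of_L1, Finset.mul_sum]
  refine le_of_eq (Finset.sum_congr rfl fun i _ => ?_)
  change _ = ‖(m / 2 ^ m : ℝ) * (g (none, i) - sig m g)‖
  rw [Real.norm_eq_abs, abs_mul, abs_of_nonneg (by positivity : (0 : ℝ) ≤ m / 2 ^ m)]

theorem norm_le {m : ℕ} (g : Blk m) {C : ℝ} (hC : 0 ≤ C) (h1 : ∀ n, |g n| ≤ C)
    (h2 : ∀ k : Fin m, (1 / 2 : ℝ) ^ ((k : ℕ) + 1) * √(∑ i, g (some k, i) ^ 2) ≤ C)
    (h3 : (m / 2 ^ m : ℝ) * ∑ i, |g (none, i) - sig m g| ≤ C) : ‖g‖ ≤ C := by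
  rw [norm_def, norm_prod_le_iff, norm_prod_le_iff]
  refine ⟨?_, ?_, ?_⟩
  · rw [pi_norm_le_iff_of_nonneg hC]
    intro n
    rw [Real.norm_eq_abs]
    exact h1 n
  · rw [pi_norm_le_iff_of_nonneg hC]
    intro k
    refine le_trans (le_of_eq ?_) (h2 k)
    change ‖(WithLp.toLp 2 (fun i => (1 / 2 : ℝ) ^ ((k : ℕ) + 1) * g (some k, i)) :
      EuclideanSpace ℝ (Fin (4 ^ m)))‖ = _
    rw [EuclideanSpace.norm_eq]
    have h1 : ∀ i : Fin (4 ^ m), ‖(WithLp.toLp 2 (fun i => (1 / 2 : ℝ) ^ ((k : ℕ) + 1) *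
        g (some k, i)) : EuclideanSpace ℝ (Fin (4 ^ m))) i‖ ^ 2 =
        ((1 / 2 : ℝ) ^ ((k : ℕ) + 1)) ^ 2 * g (some k, i) ^ 2 := by
      intro i
      change ‖(1 / 2 : ℝ) ^ ((k : ℕ) + 1) * g (some k, i)‖ ^ 2 = _
      rw [Real.norm_eq_abs, sq_abs]; ring
    rw [Finset.sum_congr rfl fun i _ => h1 i, ← Finset.mul_sum,
      Real.sqrt_mul (by positivity), Real.sqrt_sq (by positivity)]
  · refine le_trans (le_of_eq ?_) h3
    change ‖(WithLp.toLp 1 (fun i => (m / 2 ^ m : ℝ) * (g (none, i) - sig m g)) :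
      PiLp 1 (fun _ : Fin (4 ^ m) => ℝ))‖ = _
    rw [PiLp.norm_eq_of_L1, Finset.mul_sum]
    refine Finset.sum_congr rfl fun i _ => ?_
    change ‖(m / 2 ^ m : ℝ) * (g (none, i) - sig m g)‖ = _
    rw [Real.norm_eq_abs, abs_mul, abs_of_nonneg (by positivity : (0 : ℝ) ≤ m / 2 ^ m)]

/-! ### Estimates -/

theorem sum_min_le (Q : ℝ) (hQ : 0 ≤ Q) (m : ℕ) :
    ∑ k ∈ Finset.range m, min ((1 / 2 : ℝ) ^ (k + 1)) (2 ^ (k + 1) * Q ^ 2) ≤ 4 * Q := by
  have key : ∑ k ∈ Finset.range m, min ((1 / 2 : ℝ) ^ (k + 1)) (2 ^ (k + 1) * Q ^ 2) ≤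
      2 * min (2 ^ m * Q ^ 2) Q + 2 * (Q - min ((1 / 2 : ℝ) ^ (m + 1)) Q) := by
    induction m with
    | zero =>
      rw [Finset.sum_range_zero]
      exact add_nonneg (mul_nonneg zero_le_two (le_min (by positivity) hQ))
        (mul_nonneg zero_le_two (sub_nonneg.2 (min_le_right _ _)))
    | succ m ih =>
      rw [Finset.sum_range_succ]
      have h3 : min ((1 / 2 : ℝ) ^ (m + 1)) (2 ^ (m + 1) * Q ^ 2) ≤
          2 * (min (2 ^ (m + 1) * Q ^ 2) Q - min (2 ^ m * Q ^ 2) Q) +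
          2 * (min ((1 / 2 : ℝ) ^ (m + 1)) Q - min ((1 / 2 : ℝ) ^ (m + 2)) Q) := by
        have hp : (0 : ℝ) < 2 ^ m := by positivity
        have hp' : (0 : ℝ) < (1 / 2) ^ m := by positivity
        have e1 : (2 : ℝ) ^ (m + 1) = 2 * 2 ^ m := by ring
        have e2 : (1 / 2 : ℝ) ^ (m + 1) = (1 / 2) ^ m / 2 := by ring
        have e3 : (1 / 2 : ℝ) ^ (m + 2) = (1 / 2) ^ m / 4 := by ring
        have e4 : (2 : ℝ) ^ m * (1 / 2) ^ m = 1 := by rw [← mul_pow]; norm_num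
        rw [e1, e2, e3]
        have hq2 : 0 ≤ 2 ^ m * Q ^ 2 := by positivity
        by_cases h : 2 * 2 ^ m * Q ≤ 1
        · have h4 : 2 * 2 ^ m * Q ^ 2 ≤ Q := by nlinarith
          rw [min_eq_left h4]
          have h5 : min (2 ^ m * Q ^ 2) Q ≤ 2 ^ m * Q ^ 2 := min_le_left _ _
          have h6 : min ((1 / 2 : ℝ) ^ m / 4) Q ≤ min ((1 / 2 : ℝ) ^ m / 2) Q :=
            min_le_min_right _ (by linarith)
          have h7 : min ((1 / 2 : ℝ) ^ m / 2) (2 * 2 ^ m * Q ^ 2) ≤ 2 * 2 ^ m * Q ^ 2 :=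
            min_le_right _ _
          linarith
        · push Not at h
          have h4 : (1 / 2 : ℝ) ^ m / 2 ≤ Q := by nlinarith
          rw [min_eq_left h4]
          have h5 : min ((1 / 2 : ℝ) ^ m / 4) Q ≤ (1 / 2 : ℝ) ^ m / 4 := min_le_left _ _
          have h6 : min (2 ^ m * Q ^ 2) Q ≤ min (2 * 2 ^ m * Q ^ 2) Q :=
            min_le_min_right _ (by linarith)
          have h7 : min ((1 / 2 : ℝ) ^ m / 2) (2 * 2 ^ m * Q ^ 2) ≤ (1 / 2 : ℝ) ^ m / 2 :=
            min_le_left _ _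
          linarith
      linarith
  have h1 : min (2 ^ m * Q ^ 2) Q ≤ Q := min_le_right _ _
  have h2 : 0 ≤ min ((1 / 2 : ℝ) ^ (m + 1)) Q := le_min (by positivity) hQ
  linarith

theorem sum_half_le (m : ℕ) : ∑ k : Fin m, (1 / 2 : ℝ) ^ ((k : ℕ) + 1) ≤ 1 := by
  rw [Fin.sum_univ_eq_sum_range fun k => (1 / 2 : ℝ) ^ (k + 1)]
  have : ∀ m : ℕ, ∑ k ∈ Finset.range m, (1 / 2 : ℝ) ^ (k + 1) = 1 - (1 / 2) ^ m := by
    intro m
    induction m with
    | zero => simp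
    | succ m ih => rw [Finset.sum_range_succ, ih]; ring
  rw [this]
  have : (0 : ℝ) ≤ (1 / 2) ^ m := by positivity
  linarith

theorem abs_sig_le' {m : ℕ} (g : Blk m) : |sig m g| ≤ (1 / (m : ℝ)) * ∑ k : Fin m,
    (1 / 2 : ℝ) ^ ((k : ℕ) + 1) * ((∑ i, |g (some k, i)|) / 4 ^ m) := by
  rw [sig_apply, abs_mul, abs_of_nonneg (by positivity : (0 : ℝ) ≤ 1 / m)]
  refine mul_le_mul_of_nonneg_left ?_ (by positivity)
  refine (Finset.abs_sum_le_sum_abs _ _).trans (Finset.sum_le_sum fun k _ => ?_)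
  rw [abs_mul, abs_of_nonneg (by positivity : (0 : ℝ) ≤ (1 / 2) ^ ((k : ℕ) + 1)), abs_div,
    abs_of_nonneg (by positivity : (0 : ℝ) ≤ 4 ^ m)]
  refine mul_le_mul_of_nonneg_left ?_ (by positivity)
  exact div_le_div_of_nonneg_right (Finset.abs_sum_le_sum_abs _ _) (by positivity)

theorem abs_sig_le {m : ℕ} (g : Blk m) {c : ℝ} (hc : 0 ≤ c) (h : ∀ n, |g n| ≤ c) :
    |sig m g| ≤ c * (1 / (m : ℝ)) := by
  refine (abs_sig_le' g).trans ?_
  rw [mul_comm c]
  refine mul_le_mul_of_nonneg_left ?_ (by positivity)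
  have h1 : ∀ k : Fin m, (∑ i, |g (some k, i)|) / 4 ^ m ≤ c := by
    intro k
    rw [div_le_iff₀ (by positivity)]
    refine (Finset.sum_le_sum fun i _ => h (some k, i)).trans (le_of_eq ?_)
    rw [Finset.sum_const, Finset.card_univ, Fintype.card_fin, nsmul_eq_mul]
    push_cast; ring
  calc ∑ k : Fin m, (1 / 2 : ℝ) ^ ((k : ℕ) + 1) * ((∑ i, |g (some k, i)|) / 4 ^ m)
      ≤ ∑ k : Fin m, (1 / 2 : ℝ) ^ ((k : ℕ) + 1) * c :=
        Finset.sum_le_sum fun k _ => mul_le_mul_of_nonneg_left (h1 k) (by positivity)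
    _ = (∑ k : Fin m, (1 / 2 : ℝ) ^ ((k : ℕ) + 1)) * c := by rw [Finset.sum_mul]
    _ ≤ 1 * c := mul_le_mul_of_nonneg_right (sum_half_le m) hc
    _ = c := one_mul c

theorem third_le {m : ℕ} (h : Blk m) : (m / 2 ^ m : ℝ) * ∑ i, |h (none, i) - sig m h| ≤
    (m / 2 ^ m : ℝ) * ∑ i, |h (none, i)| + m * 2 ^ m * |sig m h| := by
  have h1 : ∑ i, |h (none, i) - sig m h| ≤ ∑ i, |h (none, i)| + 4 ^ m * |sig m h| := by
    calc ∑ i, |h (none, i) - sig m h| ≤ ∑ i : Fin (4 ^ m), (|h (none, i)| + |sig m h|) :=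
          Finset.sum_le_sum fun i _ => abs_sub _ _
      _ = _ := by
          rw [Finset.sum_add_distrib, Finset.sum_const, Finset.card_univ, Fintype.card_fin,
            nsmul_eq_mul]
          push_cast; rfl
  calc (m / 2 ^ m : ℝ) * ∑ i, |h (none, i) - sig m h| ≤
      (m / 2 ^ m : ℝ) * (∑ i, |h (none, i)| + 4 ^ m * |sig m h|) :=
        mul_le_mul_of_nonneg_left h1 (by positivity)
    _ = _ := by
        rw [mul_add]
        congr 1
        have : (4 : ℝ) ^ m = 2 ^ m * 2 ^ m := by rw [← mul_pow]; norm_num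
        rw [this]
        field_simp

theorem sig_small {m : ℕ} (h : Blk m) {a U : ℝ} (ha : 0 < a) (ha1 : a ≤ 1) (hU : 0 ≤ U)
    (h1 : ∀ n, |h n| ≤ 1) (h2 : ∀ n, h n = 0 ∨ a ≤ |h n|)
    (h3 : ∀ k : Fin m, (1 / 2 : ℝ) ^ ((k : ℕ) + 1) * √(∑ i, h (some k, i) ^ 2) ≤ U) :
    m * 2 ^ m * |sig m h| ≤ 4 * U / a := by
  rcases Nat.eq_zero_or_pos m with rfl | hm
  · simp only [Nat.cast_zero, zero_mul]; positivity
  have hm' : (0 : ℝ) < m := by exact_mod_cast hm
  have e4 : (4 : ℝ) ^ m = 2 ^ m * 2 ^ m := by rw [← mul_pow]; norm_num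
  set Q : ℝ := U / (a * 2 ^ m) with hQ
  have hQ0 : 0 ≤ Q := by positivity
  have hterm : ∀ k : Fin m, (1 / 2 : ℝ) ^ ((k : ℕ) + 1) * ((∑ i, |h (some k, i)|) / 4 ^ m) ≤
      min ((1 / 2 : ℝ) ^ ((k : ℕ) + 1)) (2 ^ ((k : ℕ) + 1) * Q ^ 2) := by
    intro k
    have hp : (0 : ℝ) < (1 / 2) ^ ((k : ℕ) + 1) := by positivity
    have hp2 : (0 : ℝ) < 2 ^ ((k : ℕ) + 1) := by positivity
    have hpp : (1 / 2 : ℝ) ^ ((k : ℕ) + 1) * 2 ^ ((k : ℕ) + 1) = 1 := by
      rw [← mul_pow]; norm_num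
    refine le_min ?_ ?_
    · refine mul_le_of_le_one_right hp.le ?_
      rw [div_le_one (by positivity)]
      refine (Finset.sum_le_sum fun i _ => h1 (some k, i)).trans (le_of_eq ?_)
      rw [Finset.sum_const, Finset.card_univ, Fintype.card_fin, nsmul_eq_mul]
      push_cast; ring
    · have h4 : ∑ i, |h (some k, i)| ≤ (∑ i, h (some k, i) ^ 2) / a ^ 2 := by
        rw [le_div_iff₀ (by positivity), Finset.sum_mul]
        refine Finset.sum_le_sum fun i _ => ?_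
        rcases h2 (some k, i) with h5 | h5
        · rw [h5]; simp
        · have h6 := abs_nonneg (h (some k, i))
          rw [← sq_abs (h (some k, i))]
          have h7 : a ^ 2 ≤ |h (some k, i)| := by nlinarith
          nlinarith
      have h5 : ∑ i, h (some k, i) ^ 2 ≤ (2 ^ ((k : ℕ) + 1) * U) ^ 2 := by
        have h6 : √(∑ i, h (some k, i) ^ 2) ≤ 2 ^ ((k : ℕ) + 1) * U := by
          have h7 := mul_le_mul_of_nonneg_left (h3 k) hp2.le
          rw [← mul_assoc, mul_comm (2 ^ ((k : ℕ) + 1) : ℝ), hpp, one_mul] at h7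
          exact h7
        have h8 : (0 : ℝ) ≤ ∑ i, h (some k, i) ^ 2 := Finset.sum_nonneg fun _ _ => sq_nonneg _
        calc ∑ i, h (some k, i) ^ 2 = √(∑ i, h (some k, i) ^ 2) ^ 2 := (Real.sq_sqrt h8).symm
          _ ≤ _ := pow_le_pow_left₀ (Real.sqrt_nonneg _) h6 2
      calc (1 / 2 : ℝ) ^ ((k : ℕ) + 1) * ((∑ i, |h (some k, i)|) / 4 ^ m) ≤
          (1 / 2 : ℝ) ^ ((k : ℕ) + 1) * (((2 ^ ((k : ℕ) + 1) * U) ^ 2 / a ^ 2) / 4 ^ m) := by
            refine mul_le_mul_of_nonneg_left (div_le_div_of_nonneg_right (h4.trans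
              (div_le_div_of_nonneg_right h5 (by positivity))) (by positivity)) hp.le
        _ = ((1 / 2 : ℝ) ^ ((k : ℕ) + 1) * 2 ^ ((k : ℕ) + 1)) * (2 ^ ((k : ℕ) + 1) * Q ^ 2) := by
            rw [hQ, e4]
            field_simp
        _ = _ := by rw [hpp, one_mul]
  have hsum : ∑ k : Fin m, (1 / 2 : ℝ) ^ ((k : ℕ) + 1) * ((∑ i, |h (some k, i)|) / 4 ^ m) ≤
      4 * Q := by
    refine (Finset.sum_le_sum fun k _ => hterm k).trans ?_
    rw [Fin.sum_univ_eq_sum_range fun k => min ((1 / 2 : ℝ) ^ (k + 1)) (2 ^ (k + 1) * Q ^ 2)]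
    exact sum_min_le Q hQ0 m
  have h6 : |sig m h| ≤ (1 / (m : ℝ)) * (4 * Q) :=
    (abs_sig_le' h).trans (mul_le_mul_of_nonneg_left hsum (by positivity))
  calc m * 2 ^ m * |sig m h| ≤ m * 2 ^ m * ((1 / (m : ℝ)) * (4 * Q)) :=
        mul_le_mul_of_nonneg_left h6 (by positivity)
    _ = 4 * U / a := by rw [hQ]; field_simp

/-- the crude bound -/
theorem norm_le_crude {m : ℕ} (h : Blk m) {c : ℝ} (hc : 0 ≤ c) (h1 : ∀ n, |h n| ≤ c) :
    ‖h‖ ≤ (1 + 2 ^ m + 2 * (m * 2 ^ m)) * c := by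
  have hp : (1 : ℝ) ≤ 2 ^ m := one_le_pow₀ (by norm_num)
  have hmc : (0 : ℝ) ≤ m * 2 ^ m * c := by positivity
  have hpc : (0 : ℝ) ≤ 2 ^ m * c := by positivity
  refine norm_le h (by positivity) (fun n => (h1 n).trans (by nlinarith)) (fun k => ?_) ?_
  · have h2 : ∑ i, h (some k, i) ^ 2 ≤ (2 ^ m * c) ^ 2 := by
      calc ∑ i, h (some k, i) ^ 2 ≤ ∑ _i : Fin (4 ^ m), c ^ 2 := by
            refine Finset.sum_le_sum fun i _ => ?_
            rw [← sq_abs]
            exact pow_le_pow_left₀ (abs_nonneg _) (h1 _) 2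
        _ = _ := by
            rw [Finset.sum_const, Finset.card_univ, Fintype.card_fin, nsmul_eq_mul]
            push_cast
            have : (4 : ℝ) ^ m = 2 ^ m * 2 ^ m := by rw [← mul_pow]; norm_num
            rw [this]; ring
    have h3 : √(∑ i, h (some k, i) ^ 2) ≤ 2 ^ m * c := by
      rw [← Real.sqrt_sq hpc]
      exact Real.sqrt_le_sqrt h2
    have h4 : (1 / 2 : ℝ) ^ ((k : ℕ) + 1) ≤ 1 := pow_le_one₀ (by norm_num) (by norm_num)
    have h5 := mul_le_mul h4 h3 (Real.sqrt_nonneg _) zero_le_one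
    linarith
  · refine (third_le h).trans ?_
    have h2 : |sig m h| ≤ c := by
      refine (abs_sig_le h hc h1).trans ?_
      refine mul_le_of_le_one_right hc ?_
      rcases Nat.eq_zero_or_pos m with rfl | hm
      · simp
      · rw [div_le_one (by exact_mod_cast hm)]
        exact_mod_cast hm
    have h3 : (m / 2 ^ m : ℝ) * ∑ i, |h (none, i)| ≤ m * 2 ^ m * c := by
      calc (m / 2 ^ m : ℝ) * ∑ i, |h (none, i)| ≤ (m / 2 ^ m : ℝ) * (4 ^ m * c) := by
            refine mul_le_mul_of_nonneg_left ?_ (by positivity)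
            refine (Finset.sum_le_sum fun i _ => h1 (none, i)).trans (le_of_eq ?_)
            rw [Finset.sum_const, Finset.card_univ, Fintype.card_fin, nsmul_eq_mul]
            push_cast; rfl
        _ = m * 2 ^ m * c := by
            have : (4 : ℝ) ^ m = 2 ^ m * 2 ^ m := by rw [← mul_pow]; norm_num
            rw [this]; field_simp
    have h4 : (m : ℝ) * 2 ^ m * |sig m h| ≤ m * 2 ^ m * c :=
      mul_le_mul_of_nonneg_left h2 (by positivity)
    nlinarith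

/-- the constant of near unconditionality -/
noncomputable def CC (a : ℝ) : ℝ :=
  2 + 4 / a + ∑ m ∈ Finset.range ⌈2 / a⌉₊, (1 + 2 ^ m + 2 * (m * 2 ^ m) : ℝ)

theorem CC_nonneg {a : ℝ} (ha : 0 < a) : 0 ≤ CC a := by unfold CC; positivity

theorem near_uncond {a : ℝ} (ha : 0 < a) (ha1 : a ≤ 1) {m : ℕ} (g h : Blk m)
    (hg : ∀ n, |g n| ≤ 1) (hh : ∀ n, h n = 0 ∨ (h n = g n ∧ a ≤ |g n|)) :
    ‖h‖ ≤ CC a * ‖g‖ := by
  have hng := norm_nonneg g
  have habs : ∀ n, |h n| ≤ |g n| := by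
    intro n
    rcases hh n with h1 | h1
    · rw [h1, abs_zero]; exact abs_nonneg _
    · rw [h1.1]
  have hS : (0 : ℝ) ≤ ∑ m ∈ Finset.range ⌈2 / a⌉₊, (1 + 2 ^ m + 2 * (m * 2 ^ m) : ℝ) := by
    positivity
  by_cases hm : m < ⌈2 / a⌉₊
  · refine (norm_le_crude h hng fun n => (habs n).trans (abs_le_norm g n)).trans ?_
    refine mul_le_mul_of_nonneg_right ?_ hng
    have h1 := Finset.single_le_sum (f := fun m : ℕ => (1 + 2 ^ m + 2 * (m * 2 ^ m) : ℝ))
      (fun _ _ => by positivity) (Finset.mem_range.2 hm)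
    unfold CC
    have : (0 : ℝ) ≤ 4 / a := by positivity
    linarith
  · push Not at hm
    have hm2 : 2 / a ≤ m := Nat.ceil_le.1 hm
    have hm0 : (0 : ℝ) < m := lt_of_lt_of_le (by positivity) hm2
    have h1m : (1 : ℝ) / m ≤ a / 2 := by
      rw [div_le_div_iff₀ hm0 two_pos]
      rw [div_le_iff₀ ha] at hm2
      linarith
    have hU : ∀ k : Fin m, (1 / 2 : ℝ) ^ ((k : ℕ) + 1) * √(∑ i, h (some k, i) ^ 2) ≤ ‖g‖ := by
      intro k
      refine le_trans ?_ (U_le_norm g k)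
      refine mul_le_mul_of_nonneg_left (Real.sqrt_le_sqrt ?_) (by positivity)
      refine Finset.sum_le_sum fun i _ => ?_
      rw [← sq_abs (h _), ← sq_abs (g _)]
      exact pow_le_pow_left₀ (abs_nonneg _) (habs _) 2
    have hthird : (m / 2 ^ m : ℝ) * ∑ i, |h (none, i) - sig m h| ≤ (2 + 4 / a) * ‖g‖ := by
      refine (third_le h).trans ?_
      have h2 := sig_small h ha ha1 hng (fun n => (habs n).trans (hg n)) (fun n => by
        rcases hh n with h3 | h3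
        · exact Or.inl h3
        · right; rw [h3.1]; exact h3.2) hU
      have h3 : ∑ i, |h (none, i)| ≤ 2 * ∑ i, |g (none, i) - sig m g| := by
        rw [Finset.mul_sum]
        refine Finset.sum_le_sum fun i _ => ?_
        rcases hh (none, i) with h4 | h4
        · rw [h4, abs_zero]; positivity
        · rw [h4.1]
          have h5 : |sig m g| ≤ a / 2 := by
            have := abs_sig_le g zero_le_one hg
            rw [one_mul] at this
            exact this.trans h1m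
          have h6 := abs_sub_abs_le_abs_sub (g (none, i)) (sig m g)
          have h7 := h4.2
          linarith
      have h4 : (m / 2 ^ m : ℝ) * ∑ i, |h (none, i)| ≤ 2 * ‖g‖ := by
        calc (m / 2 ^ m : ℝ) * ∑ i, |h (none, i)| ≤
            (m / 2 ^ m : ℝ) * (2 * ∑ i, |g (none, i) - sig m g|) :=
              mul_le_mul_of_nonneg_left h3 (by positivity)
          _ = 2 * ((m / 2 ^ m : ℝ) * ∑ i, |g (none, i) - sig m g|) := by ring
          _ ≤ 2 * ‖g‖ := by linarith [third_le_norm g]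
      have h5 : (2 + 4 / a) * ‖g‖ = 2 * ‖g‖ + 4 * ‖g‖ / a := by ring
      rw [h5]
      linarith
    have hC1 : (2 + 4 / a) * ‖g‖ ≤ CC a * ‖g‖ := by
      refine mul_le_mul_of_nonneg_right ?_ hng
      unfold CC
      linarith
    have hC0 : ‖g‖ ≤ (2 + 4 / a) * ‖g‖ := by
      have : (0 : ℝ) ≤ 4 / a := by positivity
      nlinarith
    refine norm_le h (mul_nonneg (CC_nonneg ha) hng) (fun n => ?_) (fun k => ?_) ?_
    · exact ((habs n).trans (abs_le_norm g n)).trans (hC0.trans hC1)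
    · exact (hU k).trans (hC0.trans hC1)
    · exact hthird.trans hC1

/-! ### Test vectors -/

/-- the vector with value `2 ^ k` on the level `k` -/
noncomputable def tv (m : ℕ) : Blk m := fun n => n.1.elim 1 fun k => 2 ^ ((k : ℕ) + 1)

/-- the constant one -/
noncomputable def ov (m : ℕ) : Blk m := fun _ => 1

theorem tv_pos {m : ℕ} (n : Idx m) : 1 ≤ tv m n := by
  unfold tv
  rcases n with ⟨_ | k, i⟩
  · exact le_rfl
  · exact one_le_pow₀ (by norm_num)

theorem sig_tv {m : ℕ} (hm : 0 < m) : sig m (tv m) = 1 := by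
  have hm' : (m : ℝ) ≠ 0 := by exact_mod_cast hm.ne'
  rw [sig_apply]
  have h1 : ∀ k : Fin m, (1 / 2 : ℝ) ^ ((k : ℕ) + 1) * ((∑ i, tv m (some k, i)) / 4 ^ m) = 1 := by
    intro k
    have h2 : ∑ i, tv m (some k, i) = 4 ^ m * 2 ^ ((k : ℕ) + 1) := by
      unfold tv
      simp only [Option.elim_some]
      rw [Finset.sum_const, Finset.card_univ, Fintype.card_fin, nsmul_eq_mul]
      push_cast; rfl
    rw [h2, mul_div_cancel_left₀ _ (by positivity), ← mul_pow]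
    norm_num
  rw [Finset.sum_congr rfl fun k _ => h1 k, Finset.sum_const, Finset.card_univ, Fintype.card_fin,
    nsmul_eq_mul, mul_one, one_div, inv_mul_cancel₀ hm']

theorem norm_tv_le {m : ℕ} (hm : 0 < m) : ‖tv m‖ ≤ 2 ^ m := by
  refine norm_le _ (by positivity) (fun n => ?_) (fun k => ?_) ?_
  · rw [abs_of_pos (zero_lt_one.trans_le (tv_pos n))]
    unfold tv
    rcases n with ⟨_ | k, i⟩
    · exact one_le_pow₀ (by norm_num)
    · exact pow_le_pow_right₀ (by norm_num) k.2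
  · have h2 : ∑ i, tv m (some k, i) ^ 2 = (2 ^ m * 2 ^ ((k : ℕ) + 1)) ^ 2 := by
      unfold tv
      simp only [Option.elim_some]
      rw [Finset.sum_const, Finset.card_univ, Fintype.card_fin, nsmul_eq_mul]
      push_cast
      have : (4 : ℝ) ^ m = 2 ^ m * 2 ^ m := by rw [← mul_pow]; norm_num
      rw [this]; ring
    rw [h2, Real.sqrt_sq (by positivity)]
    have h3 : (1 / 2 : ℝ) ^ ((k : ℕ) + 1) * 2 ^ ((k : ℕ) + 1) = 1 := by
      rw [← mul_pow]; norm_num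
    refine le_of_eq ?_
    calc (1 / 2 : ℝ) ^ ((k : ℕ) + 1) * (2 ^ m * 2 ^ ((k : ℕ) + 1)) =
        ((1 / 2 : ℝ) ^ ((k : ℕ) + 1) * 2 ^ ((k : ℕ) + 1)) * 2 ^ m := by ring
      _ = 2 ^ m := by rw [h3, one_mul]
  · rw [sig_tv hm]
    unfold tv
    simp

theorem le_norm_ov {m : ℕ} (hm : 0 < m) : ((m : ℝ) - 1) * 2 ^ m ≤ ‖ov m‖ := by
  have hm' : (0 : ℝ) < m := by exact_mod_cast hm
  refine le_trans ?_ (third_le_norm (ov m))
  have h1 : |sig m (ov m)| ≤ 1 / m := by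
    have := abs_sig_le (ov m) zero_le_one fun n => by unfold ov; simp
    rwa [one_mul] at this
  have h2 : ∀ i : Fin (4 ^ m), 1 - 1 / (m : ℝ) ≤ |ov m (none, i) - sig m (ov m)| := by
    intro i
    have h3 : ov m (none, i) = 1 := rfl
    rw [h3]
    have h4 := le_abs_self (1 - sig m (ov m))
    have h5 := (abs_le.1 h1).2
    linarith
  have h3 : (4 : ℝ) ^ m * (1 - 1 / m) ≤ ∑ i : Fin (4 ^ m), |ov m (none, i) - sig m (ov m)| := by
    refine le_trans (le_of_eq ?_) (Finset.sum_le_sum fun i _ => h2 i)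
    rw [Finset.sum_const, Finset.card_univ, Fintype.card_fin, nsmul_eq_mul]
    push_cast; rfl
  refine le_trans (le_of_eq ?_) (mul_le_mul_of_nonneg_left h3 (by positivity))
  have h4 : (4 : ℝ) ^ m = 2 ^ m * 2 ^ m := by rw [← mul_pow]; norm_num
  rw [h4]
  field_simp

/-- unit vectors of a block -/
noncomputable def uv {m : ℕ} (n : Idx m) : Blk m := fun j => if j = n then 1 else 0

theorem uv_self {m : ℕ} (n : Idx m) : uv n n = 1 := by unfold uv; rw [if_pos rfl]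

theorem uv_ne {m : ℕ} {n j : Idx m} (h : j ≠ n) : uv n j = 0 := by unfold uv; rw [if_neg h]

theorem abs_uv_le {m : ℕ} (n j : Idx m) : |uv n j| ≤ 1 := by
  unfold uv
  split_ifs <;> simp

theorem sum_uv_le {m : ℕ} (n : Idx m) (o : Option (Fin m)) : ∑ i, |uv n (o, i)| ≤ 1 := by
  obtain ⟨o', i'⟩ := n
  have h1 : ∀ i, |uv (o', i') (o, i)| ≤ if i = i' then 1 else 0 := by
    intro i
    by_cases h : i = i'
    · rw [if_pos h]; exact abs_uv_le _ _
    · rw [if_neg h, uv_ne (fun h' => h (Prod.ext_iff.1 h').2), abs_zero]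
  refine (Finset.sum_le_sum fun i _ => h1 i).trans ?_
  rw [Finset.sum_ite_eq']
  simp

theorem norm_uv_le {m : ℕ} (n : Idx m) : ‖uv n‖ ≤ 2 := by
  have hp : (1 : ℝ) ≤ 2 ^ m := one_le_pow₀ (by norm_num)
  refine norm_le _ (by norm_num) (fun j => (abs_uv_le n j).trans (by norm_num)) (fun k => ?_) ?_
  · have h1 : ∑ i, uv n (some k, i) ^ 2 ≤ 1 := by
      refine le_trans (Finset.sum_le_sum fun i _ => ?_) (sum_uv_le n (some k))
      rw [← sq_abs]
      have h2 := abs_uv_le n (some k, i)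
      have h3 := abs_nonneg (uv n (some k, i))
      nlinarith
    have h2 : √(∑ i, uv n (some k, i) ^ 2) ≤ 1 := by
      rw [← Real.sqrt_one]
      exact Real.sqrt_le_sqrt h1
    have h4 : (1 / 2 : ℝ) ^ ((k : ℕ) + 1) ≤ 1 := pow_le_one₀ (by norm_num) (by norm_num)
    have h5 := mul_le_mul h4 h2 (Real.sqrt_nonneg _) zero_le_one
    linarith
  · refine (third_le (uv n)).trans ?_
    have h1 : (m / 2 ^ m : ℝ) * ∑ i, |uv n (none, i)| ≤ 1 := by
      have h2 : (m / 2 ^ m : ℝ) ≤ 1 := by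
        rw [div_le_one (by positivity)]
        exact_mod_cast (Nat.lt_two_pow_self (n := m)).le
      calc (m / 2 ^ m : ℝ) * ∑ i, |uv n (none, i)| ≤ 1 * 1 :=
            mul_le_mul h2 (sum_uv_le n none) (Finset.sum_nonneg fun _ _ => abs_nonneg _) zero_le_one
        _ = 1 := one_mul 1
    have h2 : (m : ℝ) * 2 ^ m * |sig m (uv n)| ≤ 1 := by
      rcases Nat.eq_zero_or_pos m with rfl | hm
      · simp
      have hm' : (0 : ℝ) < m := by exact_mod_cast hm
      have h3 : |sig m (uv n)| ≤ (1 / (m : ℝ)) * (1 / 4 ^ m) := by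
        refine (abs_sig_le' (uv n)).trans (mul_le_mul_of_nonneg_left ?_ (by positivity))
        calc ∑ k : Fin m, (1 / 2 : ℝ) ^ ((k : ℕ) + 1) * ((∑ i, |uv n (some k, i)|) / 4 ^ m)
            ≤ ∑ k : Fin m, (1 / 2 : ℝ) ^ ((k : ℕ) + 1) * (1 / 4 ^ m) :=
              Finset.sum_le_sum fun k _ => mul_le_mul_of_nonneg_left
                (div_le_div_of_nonneg_right (sum_uv_le n (some k)) (by positivity)) (by positivity)
          _ = (∑ k : Fin m, (1 / 2 : ℝ) ^ ((k : ℕ) + 1)) * (1 / 4 ^ m) := by rw [Finset.sum_mul]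
          _ ≤ 1 * (1 / 4 ^ m) := mul_le_mul_of_nonneg_right (sum_half_le m) (by positivity)
          _ = 1 / 4 ^ m := one_mul _
      calc (m : ℝ) * 2 ^ m * |sig m (uv n)| ≤ (m : ℝ) * 2 ^ m * ((1 / (m : ℝ)) * (1 / 4 ^ m)) :=
            mul_le_mul_of_nonneg_left h3 (by positivity)
        _ = 1 / 2 ^ m := by
            have h4 : (4 : ℝ) ^ m = 2 ^ m * 2 ^ m := by rw [← mul_pow]; norm_num
            rw [h4]; field_simp
        _ ≤ 1 := by rw [div_le_one (by positivity)]; exact hp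
    linarith

/-! ### Gluing -/

/-- the index set -/
abbrev Ix : Type := Σ m : ℕ, Idx m

/-- the ambient space -/
abbrev L : Type := lp Blk ∞

/-- the basis vectors -/
noncomputable def x0 (j : Ix) : L := lp.single ∞ j.1 (uv j.2)

/-- the coordinate functionals -/
noncomputable def ev (j : Ix) : L →ₗ[ℝ] ℝ where
  toFun f := (f j.1 : Blk j.1) j.2
  map_add' _ _ := rfl
  map_smul' _ _ := rfl

theorem ev_apply (f : L) (m : ℕ) (n : Idx m) : ev ⟨m, n⟩ f = (f m : Blk m) n := rfl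

theorem ev_x0 (j j' : Ix) : ev j (x0 j') = if j = j' then 1 else 0 := by
  obtain ⟨m, n⟩ := j
  obtain ⟨m', n'⟩ := j'
  by_cases h : m = m'
  · subst h
    rw [ev_apply]
    unfold x0
    rw [lp.single_apply_self]
    by_cases h2 : n = n'
    · subst h2
      rw [if_pos rfl, uv_self]
    · rw [if_neg (fun h3 => h2 (by simpa using h3)), uv_ne h2]
  · rw [if_neg (fun h3 => h (Sigma.mk.inj_iff.1 h3).1), ev_apply]
    unfold x0
    rw [lp.single_apply_ne _ _ _ h]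
    rfl

theorem norm_x0_le (j : Ix) : ‖x0 j‖ ≤ 2 := by
  unfold x0
  rw [lp.norm_single (by simp)]
  exact norm_uv_le j.2

theorem abs_ev_le (j : Ix) (f : L) : |ev j f| ≤ ‖f‖ :=
  (abs_le_norm (f j.1 : Blk j.1) j.2).trans (lp.norm_apply_le_norm (by simp) f j.1)

theorem ev_sum (A : Finset Ix) (c : Ix → ℝ) (j : Ix) :
    ev j (∑ i ∈ A, c i • x0 i) = if j ∈ A then c j else 0 := by
  rw [map_sum]
  have h1 : ∀ i ∈ A, ev j (c i • x0 i) = if j = i then c i else 0 := by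
    intro i _
    rw [map_smul, smul_eq_mul, ev_x0]
    split_ifs <;> simp
  rw [Finset.sum_congr rfl h1, Finset.sum_ite_eq]

theorem near_uncond_L {a : ℝ} (ha : 0 < a) (ha1 : a ≤ 1) (f : L) (hf : ∀ j, |ev j f| ≤ 1)
    (A : Finset Ix) (hA : ∀ j ∈ A, a ≤ |ev j f|) :
    ‖∑ i ∈ A, ev i f • x0 i‖ ≤ CC a * ‖f‖ := by
  refine lp.norm_le_of_forall_le (mul_nonneg (CC_nonneg ha) (norm_nonneg f)) fun m => ?_
  refine (near_uncond ha ha1 (f m) _ (fun n => hf ⟨m, n⟩) fun n => ?_).trans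
    (mul_le_mul_of_nonneg_left (lp.norm_apply_le_norm (by simp) f m) (CC_nonneg ha))
  have h1 : ((∑ i ∈ A, ev i f • x0 i : L) m : Blk m) n = ev ⟨m, n⟩ (∑ i ∈ A, ev i f • x0 i) := rfl
  rw [h1, ev_sum]
  by_cases h : (⟨m, n⟩ : Ix) ∈ A
  · right
    rw [if_pos h]
    exact ⟨rfl, hA _ h⟩
  · left
    rw [if_neg h]

/-- a block as a finite set of indices -/
noncomputable def blockSet (m : ℕ) : Finset Ix :=
  (Finset.univ : Finset (Idx m)).map ⟨fun n => ⟨m, n⟩, fun _ _ h => by simpa using h⟩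

theorem mem_blockSet {m : ℕ} {j : Ix} : j ∈ blockSet m ↔ j.1 = m := by
  unfold blockSet
  rw [Finset.mem_map]
  constructor
  · rintro ⟨n, _, rfl⟩
    rfl
  · intro h
    obtain ⟨m', n⟩ := j
    subst h
    exact ⟨n, Finset.mem_univ _, rfl⟩

theorem L_ext {f g : L} (h : ∀ j, ev j f = ev j g) : f = g := by
  ext m
  funext n
  exact h ⟨m, n⟩

theorem single_eq {m : ℕ} (g : Blk m) (c : Ix → ℝ) (hc : ∀ n : Idx m, c ⟨m, n⟩ = g n) :
    lp.single ∞ m g = ∑ i ∈ blockSet m, c i • x0 i := by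
  refine L_ext fun j => ?_
  rw [ev_sum]
  obtain ⟨m', n⟩ := j
  by_cases h : m' = m
  · subst h
    have h1 : (⟨m', n⟩ : Ix) ∈ blockSet m' := mem_blockSet.2 rfl
    rw [if_pos h1, ev_apply, lp.single_apply_self, hc]
  · rw [if_neg (fun h' => h (mem_blockSet.1 h')), ev_apply, lp.single_apply_ne _ _ _ h]
    rfl

theorem ev_single_of_notMem {m : ℕ} (g : Blk m) {j : Ix} (h : j ∉ blockSet m) :
    ev j (lp.single ∞ m g) = 0 := by
  rw [mem_blockSet] at h
  obtain ⟨m', n⟩ := j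
  rw [ev_apply, lp.single_apply_ne _ _ _ h]
  rfl

theorem ev_single {m : ℕ} (g : Blk m) (n : Idx m) :
    ev ⟨m, n⟩ (lp.single ∞ m g) = g n := by
  rw [ev_apply, lp.single_apply_self]

end Pool.Agent.X202.NearUncond
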