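import Mathlib

namespace Pool.Agent.X202

/-- A trivial helper so that this folder is not empty. -/
theorem basic_trivial : True := trivial

end Pool.Agent.X202
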