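import Mathlib

set_option autoImplicit false
set_option linter.unusedVariables false

namespace Pool.Agent.X202.Hid

open Filter Topology

variable {V : Type*} [AddCommGroup V] [Module ℝ V]

/-- A nonnegative sublinear function. -/
structure Sub (p : V → ℝ) : Prop where
  nn : ∀ v, 0 ≤ p v
  add : ∀ v w, p (v + w) ≤ p v + p w
  hom : ∀ (t : ℝ) (v : V), 0 ≤ t → p (t • v) = t * p v

/-- Index triples. -/
structure Idx (p : V → ℝ) (D : Set V) where
  s : Finset V
  x : V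
  g : V →ₗ[ℝ] ℝ
  xD : x ∈ D
  x1 : 1 < p x
  gp : ∀ v, g v ≤ p v
  gx : g x = p x
  sm : ∀ v ∈ s, ∀ η : ℝ, 0 < η → ∃ l : ℝ, 0 < l ∧ p (l • x + v) ≤ l * p x + g v + η

/-- Adjacency. -/
def Adj (p : V → ℝ) (a b : V) : Prop :=
  ∃ μ : ℝ, 0 ≤ μ ∧ μ ≤ 1 ∧ p ((1 - μ) • a + μ • b) ≤ 1

/-- No infinite clique. -/
def NoClique (p : V → ℝ) (D : Set V) : Prop :=
  ¬ ∃ a : ℕ → V, (∀ n, a n ∈ D ∧ 1 < p (a n)) ∧ ∀ m n, m < n → Adj p (a m) (a n)

lemma adj_of {p : V → ℝ} (hp : Sub p) {a x : V} {l η ε : ℝ} (hl : 0 < l) (hε : 0 < ε)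
    (hP : 0 < p x) (h : p (l • x + a) ≤ l * p x + 1 - η) (hle : l * ε ≤ η / p x) :
    Adj p a (((1 + ε) / p x) • x) := by
  set P := p x with hPdef
  set t : ℝ := (1 + ε) / P with ht
  have ht0 : 0 < t := by positivity
  have htl : 0 < t + l := by positivity
  refine ⟨l / (t + l), by positivity, by rw [div_le_one htl]; linarith, ?_⟩
  have e1 : (1 - l / (t + l)) • a + (l / (t + l)) • (t • x) = (t / (t + l)) • (l • x + a) := by
    have : (1 - l / (t + l)) = t / (t + l) := by field_simp; ring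
    rw [this, smul_add, smul_smul, smul_smul]
    rw [show l / (t + l) * t = t / (t + l) * l by ring]
    abel
  rw [e1, hp.hom _ _ (by positivity)]
  have h2 : t / (t + l) * p (l • x + a) ≤ t / (t + l) * (l * P + 1 - η) :=
    mul_le_mul_of_nonneg_left h (by positivity)
  refine h2.trans ?_
  rw [div_mul_eq_mul_div, div_le_one htl]
  have h3 : t * P = 1 + ε := by rw [ht]; field_simp
  have h4 : l * ε ≤ t * η := by
    by_cases hη : 0 ≤ η
    · calc l * ε ≤ η / P := hle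
        _ = (1 / P) * η := by ring
        _ ≤ t * η := by
          apply mul_le_mul_of_nonneg_right _ hη
          rw [ht]; gcongr; linarith
    · exfalso
      have : η / P < 0 := div_neg_of_neg_of_pos (not_le.1 hη) hP
      have : 0 < l * ε := by positivity
      linarith
  nlinarith

lemma p_smul_le {p : V → ℝ} {D : Set V} (hp : Sub p) (hD : Convex ℝ D) (h0 : (0 : V) ∈ D) {x : V}
    (hx : x ∈ D) {t : ℝ} (ht : 0 ≤ t) (ht1 : t ≤ 1) : t • x ∈ D := by
  have := hD hx h0 ht (by linarith : 0 ≤ 1 - t) (by ring)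
  simpa using this

lemma claim1 {p : V → ℝ} {D : Set V} (hp : Sub p) (hD : Convex ℝ D) (h0 : (0 : V) ∈ D)
    (hno : NoClique p D) (U : Ultrafilter (Idx p D)) (hU : ∀ v : V, ∀ᶠ i in (U : Filter (Idx p D)), v ∈ i.s)
    (γ : V →ₗ[ℝ] ℝ) (hγp : ∀ v, γ v ≤ p v)
    (hγ : ∀ v, Tendsto (fun i : Idx p D => i.g v) U (𝓝 (γ v))) :
    ∀ᶠ i in (U : Filter (Idx p D)), γ i.x = p i.x := by
  by_contra hcon
  rw [← Ultrafilter.eventually_not] at hcon
  have hlt : ∀ᶠ i in (U : Filter (Idx p D)), γ i.x < p i.x :=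
    hcon.mono fun i hi => lt_of_le_of_ne (hγp _) hi
  apply hno
  obtain ⟨f, hf1, hf2⟩ := exists_seq_of_forall_finset_exists
    (fun a : V => (a ∈ D ∧ 1 < p a) ∧ γ a < 1) (Adj p) (by
      intro A hA
      have e1 : ∀ᶠ i in (U : Filter (Idx p D)), ∀ a ∈ A, a ∈ i.s ∧ i.g a < 1 := by
        rw [Filter.eventually_all_finset]
        intro a ha
        exact (hU a).and ((hγ a).eventually_lt_const (hA a ha).2)
      obtain ⟨i, hi1, hi2⟩ := (e1.and hlt).exists
      have hP : 0 < p i.x := lt_trans one_pos i.x1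
      -- small ε
      have e2 : ∀ᶠ ε in 𝓝[>] (0 : ℝ), ∀ a ∈ A, Adj p a (((1 + ε) / p i.x) • i.x) := by
        rw [Filter.eventually_all_finset]
        intro a ha
        obtain ⟨h1, h2⟩ := hi1 a ha
        obtain ⟨l, hl, hle⟩ := i.sm a h1 ((1 - i.g a) / 2) (by linarith)
        have hη : 0 < (1 - i.g a) / 2 := by linarith
        have : ∀ᶠ ε in 𝓝[>] (0 : ℝ), l * ε < ((1 - i.g a) / 2) / p i.x := by
          have ht : Tendsto (fun ε : ℝ => l * ε) (𝓝[>] 0) (𝓝 0) := by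
            have : Tendsto (fun ε : ℝ => l * ε) (𝓝 0) (𝓝 (l * 0)) :=
              (continuous_const.mul continuous_id).tendsto 0
            rw [mul_zero] at this
            exact this.mono_left nhdsWithin_le_nhds
          exact ht.eventually_lt_const (by positivity)
        filter_upwards [this, self_mem_nhdsWithin] with ε hε hε0
        exact adj_of hp hl hε0 hP (by linarith) hε.le
      have e3 : ∀ᶠ ε in 𝓝[>] (0 : ℝ), (1 + ε) < p i.x := by
        have ht : Tendsto (fun ε : ℝ => 1 + ε) (𝓝[>] 0) (𝓝 1) := by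
          have : Tendsto (fun ε : ℝ => 1 + ε) (𝓝 0) (𝓝 (1 + 0)) :=
            (continuous_const.add continuous_id).tendsto 0
          rw [add_zero] at this
          exact this.mono_left nhdsWithin_le_nhds
        exact ht.eventually_lt_const i.x1
      have e4 : ∀ᶠ ε in 𝓝[>] (0 : ℝ), (1 + ε) * γ i.x < p i.x := by
        have ht : Tendsto (fun ε : ℝ => (1 + ε) * γ i.x) (𝓝[>] 0) (𝓝 (γ i.x)) := by
          have : Tendsto (fun ε : ℝ => (1 + ε) * γ i.x) (𝓝 0) (𝓝 ((1 + 0) * γ i.x)) :=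
            ((continuous_const.add continuous_id).mul continuous_const).tendsto 0
          rw [add_zero, one_mul] at this
          exact this.mono_left nhdsWithin_le_nhds
        exact ht.eventually_lt_const hi2
      obtain ⟨ε, ⟨⟨h2, h3⟩, h4⟩, h5⟩ :=
        (((e2.and e3).and e4).and self_mem_nhdsWithin).exists
      have hε : 0 < ε := h5
      have ht0 : 0 < (1 + ε) / p i.x := by positivity
      refine ⟨((1 + ε) / p i.x) • i.x, ⟨⟨?_, ?_⟩, ?_⟩, h2⟩
      · exact p_smul_le hp hD h0 i.xD ht0.le (by rw [div_le_one hP]; exact h3.le)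
      · rw [hp.hom _ _ ht0.le, div_mul_cancel₀ _ hP.ne']; linarith
      · rw [map_smul, smul_eq_mul, div_mul_eq_mul_div, div_lt_one hP]; exact h4)
  exact ⟨f, fun n => (hf1 n).1, hf2⟩

lemma exists_lim {p : V → ℝ} {D : Set V} (hp : Sub p) (U : Ultrafilter (Idx p D)) :
    ∃ γ : V →ₗ[ℝ] ℝ, (∀ v, γ v ≤ p v) ∧
      ∀ v, Tendsto (fun i : Idx p D => i.g v) U (𝓝 (γ v)) := by
  have key : ∀ v : V, ∃ c : ℝ, c ≤ p v ∧ Tendsto (fun i : Idx p D => i.g v) U (𝓝 c) := by
    intro v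
    have hK : IsCompact (Set.Icc (-p (-v)) (p v)) := isCompact_Icc
    rw [isCompact_iff_ultrafilter_le_nhds] at hK
    obtain ⟨c, hc, hle⟩ := hK (U.map fun i : Idx p D => i.g v) (by
      rw [Filter.le_principal_iff]
      apply Filter.mem_map.2
      apply Filter.univ_mem'
      intro i
      refine ⟨?_, i.gp v⟩
      have := i.gp (-v)
      rw [map_neg] at this
      linarith)
    exact ⟨c, hc.2, hle⟩
  choose c hc hlim using key
  refine ⟨{ toFun := c, map_add' := ?_, map_smul' := ?_ }, hc, hlim⟩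
  · intro v w
    have h1 := hlim (v + w)
    have h2 := (hlim v).add (hlim w)
    refine tendsto_nhds_unique h1 ?_
    refine h2.congr fun i => ?_
    simp
  · intro t v
    have h1 := hlim (t • v)
    have h2 := (hlim v).const_mul t
    refine tendsto_nhds_unique h1 ?_
    refine h2.congr fun i => ?_
    simp

lemma claim2 {p : V → ℝ} {D : Set V} (hp : Sub p) (hD : Convex ℝ D) (h0 : (0 : V) ∈ D)
    (hno : NoClique p D) :
    ∃ (Φ : Finset (V →ₗ[ℝ] ℝ)) (s₀ : Finset V), (∀ γ ∈ Φ, ∀ v, γ v ≤ p v) ∧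
      ∀ i : Idx p D, s₀ ⊆ i.s → ∃ γ ∈ Φ, γ i.x = p i.x := by
  classical
  by_contra hcon
  push Not at hcon
  have hc : ∀ q : Finset V × Finset {γ : V →ₗ[ℝ] ℝ // ∀ v, γ v ≤ p v},
      ∃ i : Idx p D, q.1 ⊆ i.s ∧ ∀ γ ∈ q.2, γ.1 i.x ≠ p i.x := by
    intro q
    obtain ⟨i, hi, hi2⟩ := hcon (q.2.image Subtype.val) q.1 (by
      intro γ hγ
      obtain ⟨a, -, rfl⟩ := Finset.mem_image.1 hγ
      exact a.2)
    exact ⟨i, hi, fun γ hγ => hi2 _ (Finset.mem_image_of_mem _ hγ)⟩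
  choose f hf1 hf2 using hc
  set W : Ultrafilter (Finset V × Finset {γ : V →ₗ[ℝ] ℝ // ∀ v, γ v ≤ p v}) :=
    Ultrafilter.of atTop with hW
  have hWle : (W : Filter (Finset V × Finset {γ : V →ₗ[ℝ] ℝ // ∀ v, γ v ≤ p v})) ≤ atTop :=
    Ultrafilter.of_le atTop
  set U : Ultrafilter (Idx p D) := W.map f with hUdef
  have hU : ∀ v : V, ∀ᶠ i in (U : Filter (Idx p D)), v ∈ i.s := by
    intro v
    rw [hUdef, Ultrafilter.coe_map, Filter.eventually_map]
    apply hWle
    filter_upwards [eventually_ge_atTop (({v} : Finset V),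
      (∅ : Finset {γ : V →ₗ[ℝ] ℝ // ∀ v, γ v ≤ p v}))] with q hq
    exact hf1 q (hq.1 (Finset.mem_singleton_self v))
  obtain ⟨γ, hγp, hγ⟩ := exists_lim hp U
  have h1 := claim1 hp hD h0 hno U hU γ hγp hγ
  have h2 : ∀ᶠ i in (U : Filter (Idx p D)), γ i.x ≠ p i.x := by
    rw [hUdef, Ultrafilter.coe_map, Filter.eventually_map]
    apply hWle
    filter_upwards [eventually_ge_atTop ((∅ : Finset V),
      ({⟨γ, hγp⟩} : Finset {γ : V →ₗ[ℝ] ℝ // ∀ v, γ v ≤ p v}))] with q hq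
    exact hf2 q ⟨γ, hγp⟩ (hq.2 (Finset.mem_singleton_self _))
  obtain ⟨i, hi1, hi2⟩ := (h1.and h2).exists
  exact hi2 hi1

end Pool.Agent.X202.Hid
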