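import Pool.Agent.X202.Hid1

set_option autoImplicit false
set_option linter.unusedVariables false

namespace Pool.Agent.X202.Hid

open Filter Topology

variable {V : Type*} [AddCommGroup V] [Module ℝ V]

lemma Sub.zero {p : V → ℝ} (hp : Sub p) : p 0 = 0 := by
  have := hp.hom 0 0 le_rfl
  simpa using this

lemma exists_subgrad {p : V → ℝ} (hp : Sub p) {x : V} :
    ∃ g : V →ₗ[ℝ] ℝ, (∀ v, g v ≤ p v) ∧ g x = p x ∧
      ∀ v, (∀ η : ℝ, 0 < η → ∃ l : ℝ, 0 < l ∧
          (p (l • x + v) - l * p x) + (p (l • x - v) - l * p x) ≤ η) →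
        ∀ η : ℝ, 0 < η → ∃ l : ℝ, 0 < l ∧ p (l • x + v) ≤ l * p x + g v + η := by
  set P := p x with hP
  have : Nonempty {l : ℝ // 0 < l} := ⟨⟨1, one_pos⟩⟩
  set N : V → ℝ := fun v => ⨅ l : {l : ℝ // 0 < l}, (p (l.1 • x + v) - l.1 * P) with hN
  have hbd : ∀ v, BddBelow (Set.range fun l : {l : ℝ // 0 < l} => p (l.1 • x + v) - l.1 * P) := by
    intro v
    refine ⟨-p (-v), ?_⟩
    rintro _ ⟨l, rfl⟩
    have h1 : p (l.1 • x) ≤ p (l.1 • x + v) + p (-v) := by
      have := hp.add (l.1 • x + v) (-v)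
      rwa [add_neg_cancel_right] at this
    rw [hp.hom _ _ l.2.le] at h1
    show -p (-v) ≤ p (l.1 • x + v) - l.1 * P
    linarith
  have hNle : ∀ (v : V) (l : ℝ), 0 < l → N v ≤ p (l • x + v) - l * P := fun v l hl =>
    ciInf_le (hbd v) ⟨l, hl⟩
  have hNp : ∀ v, N v ≤ p v := by
    intro v
    refine (hNle v 1 one_pos).trans ?_
    have := hp.add ((1 : ℝ) • x) v
    rw [one_smul] at this ⊢
    linarith
  have hadd : ∀ v w, N (v + w) ≤ N v + N w := by
    intro v w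
    refine le_ciInf_add_ciInf fun l m => ?_
    refine (hNle (v + w) (l.1 + m.1) (add_pos l.2 m.2)).trans ?_
    have := hp.add (l.1 • x + v) (m.1 • x + w)
    rw [show l.1 • x + v + (m.1 • x + w) = (l.1 + m.1) • x + (v + w) by rw [add_smul]; abel] at this
    show _ ≤ (p (l.1 • x + v) - l.1 * P) + (p (m.1 • x + w) - m.1 * P)
    linarith
  have hhom' : ∀ c : ℝ, 0 < c → ∀ v, N (c • v) ≤ c * N v := by
    intro c hc v
    have : c⁻¹ * N (c • v) ≤ N v := by
      refine le_ciInf fun l => ?_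
      have h1 := hNle (c • v) (c * l.1) (mul_pos hc l.2)
      rw [mul_smul, ← smul_add, hp.hom _ _ hc.le] at h1
      rw [inv_mul_le_iff₀ hc]
      linarith
    rwa [inv_mul_le_iff₀ hc] at this
  have hhom : ∀ c : ℝ, 0 < c → ∀ v, N (c • v) = c * N v := by
    intro c hc v
    refine le_antisymm (hhom' c hc v) ?_
    have h1 := hhom' c⁻¹ (inv_pos.2 hc) (c • v)
    rw [inv_smul_smul₀ hc.ne'] at h1
    rwa [le_inv_mul_iff₀ hc] at h1
  obtain ⟨g, -, hg⟩ := exists_extension_of_le_sublinear (⊥ : V →ₗ.[ℝ] ℝ) N hhom hadd (by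
    rintro ⟨y, hy⟩
    have hy0 : y = 0 := (Submodule.mem_bot ℝ).1 hy
    subst hy0
    have e1 : N 0 = 0 := by
      have h2 := hhom 2 two_pos 0
      rw [smul_zero] at h2
      linarith
    have e2 : (⊥ : V →ₗ.[ℝ] ℝ) ⟨0, hy⟩ = 0 := LinearPMap.map_zero _
    rw [e2]
    exact e1.ge)
  refine ⟨g, fun v => (hg v).trans (hNp v), ?_, ?_⟩
  · refine le_antisymm ((hg x).trans (hNp x)) ?_
    have h1 := (hg (-x)).trans (hNle (-x) 1 one_pos)
    rw [one_smul, add_neg_cancel, hp.zero, map_neg] at h1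
    linarith
  · intro v hv η hη
    have h1 : N v + N (-v) ≤ 0 := by
      refine le_of_forall_pos_le_add fun ε hε => ?_
      obtain ⟨l, hl, hle⟩ := hv ε hε
      have a1 := hNle v l hl
      have a2 := hNle (-v) l hl
      rw [← sub_eq_add_neg] at a2
      linarith
    have h2 : N v ≤ g v := by
      have := hg (-v)
      rw [map_neg] at this
      linarith
    have h3 : N v < g v + η := by linarith
    obtain ⟨l, hl⟩ := exists_lt_of_ciInf_lt h3
    exact ⟨l.1, l.2, by linarith⟩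

lemma claim3 {p : V → ℝ} {D : Set V} (hp : Sub p) (hD : Convex ℝ D) (hCD : ∀ v, p v ≤ 1 → v ∈ D)
    (Φ : Finset (V →ₗ[ℝ] ℝ)) (s₀ : Finset V) (hΦ : ∀ γ ∈ Φ, ∀ v, γ v ≤ p v)
    (h : ∀ i : Idx p D, s₀ ⊆ i.s → ∃ γ ∈ Φ, γ i.x = p i.x) (x : V) (hx : x ∈ D) (hx1 : 1 < p x) :
    ∃ γ ∈ Φ, γ x = p x := by
  classical
  by_contra hcon
  push Not at hcon
  have hlt : ∀ γ ∈ Φ, γ x < p x := fun γ hγ => lt_of_le_of_ne (hΦ γ hγ x) (hcon γ hγ)
  set s : Finset V := insert x s₀ with hs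
  set A : (s → ℝ) →ₗ[ℝ] V := Fintype.linearCombination ℝ (fun v : s => (v : V)) with hA
  set f : (s → ℝ) → ℝ := fun u => p (A u) with hf
  set K : ℝ := ∑ v : s, (p v + p (-(v : V))) with hK
  have hK0 : 0 ≤ K := Finset.sum_nonneg fun v _ => add_nonneg (hp.nn _) (hp.nn _)
  have hone : ∀ (t : ℝ) (v : V), p (t • v) ≤ |t| * (p v + p (-v)) := by
    intro t v
    rcases le_total 0 t with ht | ht
    · rw [hp.hom _ _ ht, abs_of_nonneg ht]
      nlinarith [hp.nn (-v), hp.nn v]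
    · rw [show t • v = (-t) • (-v) by simp, hp.hom _ _ (by linarith), abs_of_nonpos ht]
      nlinarith [hp.nn (-v), hp.nn v]
  have hbound : ∀ u : s → ℝ, p (A u) ≤ K * ‖u‖ := by
    intro u
    rw [hA, Fintype.linearCombination_apply]
    refine (Finset.le_sum_of_subadditive p hp.zero.le hp.add Finset.univ _).trans ?_
    rw [hK, Finset.sum_mul]
    refine Finset.sum_le_sum fun v _ => ?_
    refine (hone _ _).trans ?_
    rw [mul_comm]
    refine mul_le_mul_of_nonneg_left ?_ (add_nonneg (hp.nn _) (hp.nn _))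
    exact norm_le_pi_norm u v
  have hLip : LipschitzWith (Real.toNNReal K) f := by
    refine LipschitzWith.of_le_add_mul' K fun u w => ?_
    have h1 : p (A u) ≤ p (A w) + p (A (u - w)) := by
      have := hp.add (A w) (A (u - w))
      rwa [← map_add, add_sub_cancel] at this
    have h2 := hbound (u - w)
    rw [dist_eq_norm]
    show p (A u) ≤ p (A w) + K * ‖u - w‖
    linarith
  have hfc : Continuous f := hLip.continuous
  -- the point `(1 - σ) x`
  obtain ⟨σ, hσ0, hσ1, hσ⟩ : ∃ σ : ℝ, 0 < σ ∧ σ < 1 ∧ 1 < (1 - σ) * p x := by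
    have hpx : 0 < p x := lt_trans one_pos hx1
    refine ⟨(p x - 1) / (2 * p x), div_pos (by linarith) (by positivity), ?_, ?_⟩
    · rw [div_lt_one (by positivity)]; linarith
    · have : (1 - (p x - 1) / (2 * p x)) * p x = p x - (p x - 1) / 2 := by
        field_simp
      rw [this]; linarith
  set x₁ : s → ℝ := Pi.single ⟨x, Finset.mem_insert_self x s₀⟩ (1 - σ) with hx₁
  have hAx : A x₁ = (1 - σ) • x := by
    rw [hA, hx₁, Fintype.linearCombination_apply_single]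
  have ev1 : ∀ᶠ u in 𝓝 x₁, A u ∈ D := by
    have ht : Tendsto (fun u : s → ℝ => K * ‖u - x₁‖) (𝓝 x₁) (𝓝 0) := by
      have : Continuous (fun u : s → ℝ => K * ‖u - x₁‖) := by fun_prop
      have h2 := this.tendsto x₁
      simpa using h2
    filter_upwards [ht.eventually_lt_const hσ0] with u hu
    have h1 : p (σ⁻¹ • A (u - x₁)) ≤ 1 := by
      rw [hp.hom _ _ (inv_nonneg.2 hσ0.le), inv_mul_le_iff₀ hσ0, mul_one]
      exact (hbound _).trans hu.le
    have h2 := hD hx (hCD _ h1) (by linarith : 0 ≤ 1 - σ) hσ0.le (by ring)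
    rw [smul_inv_smul₀ hσ0.ne', map_sub, hAx] at h2
    simpa using h2
  have ev2 : ∀ᶠ u in 𝓝 x₁, 1 < f u := by
    have h1 : 1 < f x₁ := by
      rw [hf]
      show 1 < p (A x₁)
      rw [hAx, hp.hom _ _ (by linarith)]
      exact hσ
    exact (hfc.tendsto x₁).eventually_const_lt h1
  have ev3 : ∀ᶠ u in 𝓝 x₁, ∀ γ ∈ Φ, γ (A u) < f u := by
    rw [Filter.eventually_all_finset]
    intro γ hγ
    have hc : Continuous (fun u : s → ℝ => γ (A u)) :=
      (γ.comp A).continuous_of_finiteDimensional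
    refine (hc.tendsto x₁).eventually_lt (hfc.tendsto x₁) ?_
    show γ (A x₁) < p (A x₁)
    rw [hAx, hp.hom _ _ (by linarith), map_smul, smul_eq_mul]
    exact mul_lt_mul_of_pos_left (hlt γ hγ) (by linarith)
  have hdense : Dense {u : s → ℝ | DifferentiableAt ℝ f u} :=
    MeasureTheory.Measure.dense_of_ae (hLip.ae_differentiableAt (μ := MeasureTheory.volume))
  obtain ⟨u, hu1, ⟨hu2, hu3⟩, hu4⟩ := hdense.inter_nhds_nonempty ((ev1.and ev2).and ev3)
  -- the differentiability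
  have hdiff : DifferentiableAt ℝ f u := hu1
  obtain ⟨g, hg1, hg2, hg3⟩ := exists_subgrad hp (x := A u)
  have hsm : ∀ v ∈ s, ∀ η : ℝ, 0 < η → ∃ l : ℝ, 0 < l ∧
      p (l • A u + v) ≤ l * p (A u) + g v + η := by
    intro v hv
    apply hg3
    intro η hη
    set w : s → ℝ := Pi.single ⟨v, hv⟩ 1 with hw
    have hAw : A w = v := by
      rw [hA, hw, Fintype.linearCombination_apply_single, one_smul]
    have l1 : HasDerivAt (fun t : ℝ => f (u + t • w)) (fderiv ℝ f u w) 0 :=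
      hdiff.hasFDerivAt.hasLineDerivAt w
    have l2 : HasDerivAt (fun t : ℝ => f (u + t • (-w))) (fderiv ℝ f u (-w)) 0 :=
      hdiff.hasFDerivAt.hasLineDerivAt (-w)
    rw [hasDerivAt_iff_tendsto_slope_zero] at l1 l2
    have l3 := l1.add l2
    have l4 : (fderiv ℝ f u) w + (fderiv ℝ f u) (-w) = 0 := by rw [map_neg]; ring
    rw [l4] at l3
    have hsub : Set.Ioi (0 : ℝ) ⊆ {0}ᶜ := fun t ht => (Set.mem_Ioi.1 ht).ne'
    have l5 := l3.mono_left (nhdsWithin_mono (0 : ℝ) hsub)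
    obtain ⟨t, ht1, ht0⟩ := ((l5.eventually_lt_const hη).and self_mem_nhdsWithin).exists
    have ht : 0 < t := ht0
    refine ⟨t⁻¹, inv_pos.2 ht, ?_⟩
    have e1 : p (t⁻¹ • A u + v) = t⁻¹ * f (u + t • w) := by
      show _ = t⁻¹ * p (A (u + t • w))
      rw [← hp.hom _ _ (inv_nonneg.2 ht.le), map_add, map_smul, hAw, smul_add, inv_smul_smul₀ ht.ne']
    have e2 : p (t⁻¹ • A u - v) = t⁻¹ * f (u + t • (-w)) := by
      show _ = t⁻¹ * p (A (u + t • (-w)))
      rw [← hp.hom _ _ (inv_nonneg.2 ht.le), map_add, map_smul, map_neg, hAw, smul_add,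
        inv_smul_smul₀ ht.ne', sub_eq_add_neg]
    rw [e1, e2]
    simp only [zero_add, smul_eq_mul, zero_smul, add_zero] at ht1
    have e3 : f u = p (A u) := rfl
    rw [e3] at ht1
    linarith
  obtain ⟨γ, hγ, hγe⟩ := h ⟨s, A u, g, hu2, hu3, hg1, hg2, hsm⟩ (Finset.subset_insert x s₀)
  exact absurd hγe (hu4 γ hγ).ne

theorem theoremA {p : V → ℝ} {D : Set V} (hp : Sub p) (hD : Convex ℝ D)
    (hCD : ∀ v, p v ≤ 1 → v ∈ D) (hno : NoClique p D) :
    ∃ Φ : Finset (V →ₗ[ℝ] ℝ), (∀ γ ∈ Φ, ∀ v, γ v ≤ p v) ∧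
      ∀ x ∈ D, 1 < p x → ∃ γ ∈ Φ, γ x = p x := by
  have h0 : (0 : V) ∈ D := hCD 0 (by rw [hp.zero]; exact zero_le_one)
  obtain ⟨Φ, s₀, h1, h2⟩ := claim2 hp hD h0 hno
  exact ⟨Φ, h1, fun x hx hx1 => claim3 hp hD hCD Φ s₀ h1 h2 x hx hx1⟩

end Pool.Agent.X202.Hid
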