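import Pool.Agent.X202.Hid2

set_option autoImplicit false
set_option linter.unusedVariables false

namespace Pool.Agent.X202.Hid

open Filter Topology

/-- `C` hides `A`: every segment joining two distinct points of `A` meets `C`. -/
def Hides {X : Type*} [AddCommGroup X] [Module ℝ X] (C A : Set X) : Prop :=
  ∀ a ∈ A, ∀ b ∈ A, a ≠ b → (convexHull ℝ {a, b} ∩ C).Nonempty

/-- Colourings with classes whose convex hulls miss `C`. -/
def Col {X : Type*} [AddCommGroup X] [Module ℝ X] (C T : Set X) (n : ℕ) : Prop :=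
  ∃ c : X → Fin (n + 1), ∀ k, Disjoint (convexHull ℝ {x | x ∈ T ∧ c x = k}) C

section alg

variable {X : Type*} [AddCommGroup X] [Module ℝ X]

lemma col_of_cover {ι : Type*} [Fintype ι] (T C : Set X) (K : ι → Set X)
    (hK : ∀ i, Convex ℝ (K i)) (hd : ∀ i, Disjoint (K i) C) (hT : ∀ x ∈ T, ∃ i, x ∈ K i) :
    ∃ n, Col C T n := by
  classical
  set e := Fintype.equivFin ι with he
  refine ⟨Fintype.card ι, fun x => if h : ∃ i, x ∈ K i then (e h.choose).castSucc else Fin.last _,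
    fun k => ?_⟩
  by_cases hk : ∃ i, (e i).castSucc = k
  · obtain ⟨i, rfl⟩ := hk
    refine (hd i).mono_left (convexHull_min ?_ (hK i))
    rintro x ⟨hxT, hx⟩
    have h : ∃ i, x ∈ K i := hT x hxT
    simp only [] at hx
    rw [dif_pos h] at hx
    have h2 : h.choose = i := e.injective (Fin.castSucc_injective _ hx)
    have h3 := h.choose_spec
    rwa [h2] at h3
  · have : {x | x ∈ T ∧ (if h : ∃ i, x ∈ K i then (e h.choose).castSucc else Fin.last _) = k} = ∅ := by
      ext x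
      refine ⟨?_, fun hx => absurd hx (Set.notMem_empty x)⟩
      rintro ⟨hxT, hx⟩
      have h : ∃ i, x ∈ K i := hT x hxT
      rw [dif_pos h] at hx
      exact absurd ⟨_, hx⟩ hk
    rw [this, convexHull_empty]
    exact Set.empty_disjoint C

lemma Col.mono {C T T' : Set X} {n : ℕ} (h : Col C T n) (hT : T' ⊆ T) : Col C T' n := by
  obtain ⟨c, hc⟩ := h
  refine ⟨c, fun k => (hc k).mono_left (convexHull_mono ?_)⟩
  rintro x ⟨hx, hk⟩
  exact ⟨hT hx, hk⟩

/-- Rado selection. -/
lemma rado {C S : Set X} {n : ℕ} (h : ∀ F : Finset X, (F : Set X) ⊆ S → Col C (F : Set X) n) :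
    Col C S n := by
  classical
  have h' : ∀ F : Finset X, ∃ c : X → Fin (n + 1), ∀ k,
      Disjoint (convexHull ℝ {x | (x ∈ F ∧ x ∈ S) ∧ c x = k}) C := by
    intro F
    obtain ⟨c, hc⟩ := h (F.filter (· ∈ S)) (by
      intro x hx
      exact (Finset.mem_filter.1 (Finset.mem_coe.1 hx)).2)
    refine ⟨c, fun k => ?_⟩
    have := hc k
    simpa [Finset.mem_filter] using this
  choose c hc using h'
  set W : Ultrafilter (Finset X) := Ultrafilter.of atTop with hW
  have hWle : (W : Filter (Finset X)) ≤ atTop := Ultrafilter.of_le atTop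
  have key : ∀ x : X, ∃ k : Fin (n + 1), ∀ᶠ F in (W : Filter (Finset X)), c F x = k := by
    intro x
    rw [← Ultrafilter.eventually_exists_iff]
    exact Filter.Eventually.of_forall fun F => ⟨_, rfl⟩
  choose d hd using key
  refine ⟨d, fun k => ?_⟩
  rw [Set.disjoint_left]
  intro z hz hzC
  rw [convexHull_eq_union_convexHull_finite_subsets] at hz
  simp only [Set.mem_iUnion] at hz
  obtain ⟨G, hG, hzG⟩ := hz
  have e1 : ∀ᶠ F in (W : Filter (Finset X)), ∀ x ∈ G, x ∈ F ∧ c F x = k := by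
    rw [Filter.eventually_all_finset]
    intro x hx
    have h1 := (hG (Finset.mem_coe.2 hx)).2
    have h2 := hd x
    rw [h1] at h2
    refine Filter.Eventually.and ?_ h2
    apply hWle
    filter_upwards [eventually_ge_atTop ({x} : Finset X)] with F hF
    exact hF (Finset.mem_singleton_self x)
  obtain ⟨F, hF⟩ := e1.exists
  have h3 : (G : Set X) ⊆ {x | (x ∈ F ∧ x ∈ S) ∧ c F x = k} := by
    intro x hx
    have hx' := Finset.mem_coe.1 hx
    exact ⟨⟨(hF x hx').1, (hG hx).1⟩, (hF x hx').2⟩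
  exact Set.disjoint_left.1 (hc F k) (convexHull_mono h3 hzG) hzC

/-- finite witnesses for the affine span -/
lemma fin_affine {C : Set X} {x : X} (hx : x ∈ affineSpan ℝ C) :
    ∃ t : Finset X, (t : Set X) ⊆ C ∧ x ∈ affineSpan ℝ (t : Set X) := by
  classical
  refine affineSpan_induction (p := fun x : X => ∃ t : Finset X, (t : Set X) ⊆ C ∧
    x ∈ affineSpan ℝ (t : Set X)) hx (fun y hy => ⟨{y}, by simpa using hy, by simp⟩) ?_
  · intro a u v w hu hv hw
    obtain ⟨t1, h1, h1'⟩ := hu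
    obtain ⟨t2, h2, h2'⟩ := hv
    obtain ⟨t3, h3, h3'⟩ := hw
    refine ⟨t1 ∪ t2 ∪ t3, ?_, ?_⟩
    · intro z hz
      simp only [Finset.coe_union, Set.mem_union] at hz
      rcases hz with (hz | hz) | hz
      exacts [h1 hz, h2 hz, h3 hz]
    · apply AffineSubspace.smul_vsub_vadd_mem
      · exact affineSpan_mono ℝ (by intro z hz; simp at hz ⊢; tauto) h1'
      · exact affineSpan_mono ℝ (by intro z hz; simp at hz ⊢; tauto) h2'
      · exact affineSpan_mono ℝ (by intro z hz; simp at hz ⊢; tauto) h3'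

lemma mix {C : Set X} (hC : Convex ℝ C) {x y z w : X} {ν lam : ℝ} (hz : z ∈ C) (hw : w ∈ C)
    (hν0 : 0 ≤ ν) (hν1 : ν ≤ 1) (hl0 : 0 < lam) (hl1 : lam ≤ 1)
    (hx : x = ν • y + (1 - ν) • z) :
    ∃ z' ∈ C, (1 - lam) • x + lam • w = ((1 - lam) * ν) • y + (1 - (1 - lam) * ν) • z' := by
  set r : ℝ := 1 - (1 - lam) * ν with hr
  have hr0 : 0 < r := by nlinarith
  refine ⟨((1 - lam) * (1 - ν) / r) • z + (lam / r) • w, hC hz hw ?_ ?_ ?_, ?_⟩
  · apply div_nonneg (mul_nonneg (by linarith) (by linarith)) hr0.le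
  · positivity
  · rw [← add_div, div_eq_one_iff_eq hr0.ne']; ring
  · rw [hx]
    simp only [smul_add, smul_smul]
    rw [mul_div_cancel₀ _ hr0.ne', mul_div_cancel₀ _ hr0.ne']
    abel

lemma shrink {C : Set X} (hC : Convex ℝ C) {x y z : X} {ν μ : ℝ} (hy : y ∈ C) (hz : z ∈ C)
    (hμν : μ ≤ ν) (hν1 : ν ≤ 1) (hμ1 : μ < 1)
    (hx : x = ν • y + (1 - ν) • z) : (1 - μ)⁻¹ • (x - μ • y) ∈ C := by
  have h1 : 0 < 1 - μ := by linarith
  have e : (1 - μ)⁻¹ • (x - μ • y) = ((ν - μ) / (1 - μ)) • y + ((1 - ν) / (1 - μ)) • z := by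
    rw [hx, show ν • y + (1 - ν) • z - μ • y = (ν - μ) • y + (1 - ν) • z by module,
      smul_add, smul_smul, smul_smul]
    congr 2 <;> ring
  rw [e]
  refine hC hy hz (div_nonneg (by linarith) h1.le) (div_nonneg (by linarith) h1.le) ?_
  rw [← add_div, div_eq_one_iff_eq h1.ne']; ring

end alg

end Pool.Agent.X202.Hid
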