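import Pool.Agent.X202.Hid3

set_option autoImplicit false
set_option linter.unusedVariables false

namespace Pool.Agent.X202.Hid

open Filter Topology

section top

variable {X : Type*} [AddCommGroup X] [Module ℝ X] [TopologicalSpace X] [IsTopologicalAddGroup X]
  [ContinuousSMul ℝ X]

/-- colouring the section by a subspace in which `x₀` is a core point of `C` -/
lemma color_sub {C D : Set X} (hCc : IsClosed C) (hC : Convex ℝ C) (hD : Convex ℝ D)
    (hCD : C ⊆ D) (hno : ¬ ∃ A : Set X, A.Infinite ∧ A ⊆ D \ C ∧ Hides C A) (x₀ : X)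
    (hx₀ : x₀ ∈ C) (V : Submodule ℝ X)
    (hcore : ∀ v ∈ V, ∃ t : ℝ, 0 < t ∧ x₀ + t • v ∈ C) :
    ∃ n, Col C {x | x ∈ D \ C ∧ x - x₀ ∈ V} n := by
  set s : Set V := {v | x₀ + (v : X) ∈ C} with hs
  have hs0 : (0 : V) ∈ s := by
    show x₀ + ((0 : V) : X) ∈ C
    rw [ZeroMemClass.coe_zero, add_zero]; exact hx₀
  have hsc : Convex ℝ s := by
    intro v hv w hw a b ha hb hab
    have h1 := hC hv hw ha hb hab
    show x₀ + ((a • v + b • w : V) : X) ∈ C
    have e : a • (x₀ + (v : X)) + b • (x₀ + (w : X)) = x₀ + ((a • v + b • w : V) : X) := by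
      rw [Submodule.coe_add, Submodule.coe_smul, Submodule.coe_smul, smul_add, smul_add]
      have : a • x₀ + b • x₀ = x₀ := by rw [← add_smul, hab, one_smul]
      calc a • x₀ + a • (v : X) + (b • x₀ + b • (w : X))
          = (a • x₀ + b • x₀) + (a • (v : X) + b • (w : X)) := by abel
        _ = _ := by rw [this]
    rwa [e] at h1
  have hsmall : ∀ {v : V} {t u : ℝ}, t • v ∈ s → 0 < t → 0 ≤ u → u ≤ t → u • v ∈ s := by
    intro v t u h ht hu hut
    have h1 := hsc h hs0 (div_nonneg hu ht.le) (sub_nonneg.2 ((div_le_one ht).2 hut))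
      (by ring)
    rw [smul_zero, add_zero, smul_smul, div_mul_cancel₀ _ ht.ne'] at h1
    exact h1
  have habs : Absorbent ℝ s := by
    intro v
    obtain ⟨t, ht, h1⟩ := hcore v v.2
    obtain ⟨t', ht', h2⟩ := hcore (-v) (V.neg_mem v.2)
    have h1' : t • v ∈ s := h1
    have h2' : t' • (-v) ∈ s := h2
    rw [absorbs_iff_norm]
    refine ⟨max t⁻¹ t'⁻¹, fun c hc => ?_⟩
    rw [Set.singleton_subset_iff]
    have hc0 : 0 < ‖c‖ := lt_of_lt_of_le (lt_of_lt_of_le (inv_pos.2 ht) (le_max_left _ _)) hc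
    have hcne : c ≠ 0 := norm_pos_iff.1 hc0
    rw [Set.mem_smul_set_iff_inv_smul_mem₀ hcne]
    rw [Real.norm_eq_abs] at hc hc0
    rcases le_total 0 c with h | h
    · rw [abs_of_nonneg h] at hc hc0
      refine hsmall h1' ht (inv_nonneg.2 h) ?_
      rw [inv_le_comm₀ hc0 ht]
      exact (le_max_left _ _).trans hc
    · rw [abs_of_nonpos h] at hc hc0
      have e : c⁻¹ • v = (-c)⁻¹ • (-v) := by rw [inv_neg, neg_smul_neg]
      rw [e]
      refine hsmall h2' ht' (inv_nonneg.2 hc0.le) ?_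
      rw [inv_le_comm₀ hc0 ht']
      exact (le_max_right _ _).trans hc
  set p : V → ℝ := gauge s with hpdef
  have hp : Sub p :=
    { nn := fun v => gauge_nonneg v
      add := fun v w => gauge_add_le hsc habs v w
      hom := fun t v ht => by rw [hpdef, gauge_smul_of_nonneg ht, smul_eq_mul] }
  have hple : ∀ v : V, v ∈ s → p v ≤ 1 := fun v hv => gauge_le_one_of_mem hv
  have hpmem : ∀ v : V, p v ≤ 1 → v ∈ s := by
    intro v hv
    have h1 : ∀ r : ℝ, 1 < r → r⁻¹ • v ∈ s := by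
      intro r hr
      have hr0 : 0 < r := lt_trans one_pos hr
      obtain ⟨b, hb0, hbr, hb⟩ := exists_lt_of_gauge_lt habs (lt_of_le_of_lt hv hr)
      rw [Set.mem_smul_set_iff_inv_smul_mem₀ hb0.ne'] at hb
      exact hsmall hb (inv_pos.2 hb0) (inv_nonneg.2 hr0.le) ((inv_le_inv₀ hr0 hb0).2 hbr.le)
    have ht : Tendsto (fun r : ℝ => x₀ + r⁻¹ • (v : X)) (𝓝[>] (1 : ℝ)) (𝓝 (x₀ + (1 : ℝ)⁻¹ • (v : X))) := by
      apply Tendsto.mono_left _ nhdsWithin_le_nhds
      apply Tendsto.const_add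
      apply Tendsto.smul_const
      exact tendsto_inv₀ one_ne_zero
    have h2 : x₀ + (1 : ℝ)⁻¹ • (v : X) ∈ C := by
      refine hCc.mem_of_tendsto ht ?_
      filter_upwards [self_mem_nhdsWithin] with r hr
      exact h1 r hr
    rw [inv_one, one_smul] at h2
    exact h2
  set DV : Set V := {v | x₀ + (v : X) ∈ D} with hDV
  have hDVc : Convex ℝ DV := by
    intro v hv w hw a b ha hb hab
    have h1 := hD hv hw ha hb hab
    show x₀ + ((a • v + b • w : V) : X) ∈ D
    have e : a • (x₀ + (v : X)) + b • (x₀ + (w : X)) = x₀ + ((a • v + b • w : V) : X) := by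
      rw [Submodule.coe_add, Submodule.coe_smul, Submodule.coe_smul, smul_add, smul_add]
      have : a • x₀ + b • x₀ = x₀ := by rw [← add_smul, hab, one_smul]
      calc a • x₀ + a • (v : X) + (b • x₀ + b • (w : X))
          = (a • x₀ + b • x₀) + (a • (v : X) + b • (w : X)) := by abel
        _ = _ := by rw [this]
    rwa [e] at h1
  have hnc : NoClique p DV := by
    rintro ⟨a, ha, hadj⟩
    apply hno
    set b : ℕ → X := fun n => x₀ + (a n : X) with hb
    have hinj : ∀ m n, m < n → b m ≠ b n := by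
      intro m n hmn hbe
      have h1 : (a m : X) = a n := add_left_cancel hbe
      have h2 : a m = a n := Subtype.ext h1
      obtain ⟨μ, -, -, h3⟩ := hadj m n hmn
      rw [← h2, ← add_smul, sub_add_cancel, one_smul] at h3
      exact absurd (ha m).2 (not_lt.2 h3)
    have hseg : ∀ m n, m < n → (convexHull ℝ {b m, b n} ∩ C).Nonempty := by
      intro m n hmn
      obtain ⟨μ, h0, h1, h3⟩ := hadj m n hmn
      refine ⟨x₀ + (((1 - μ) • a m + μ • a n : V) : X), ?_, hpmem _ h3⟩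
      rw [convexHull_pair]
      refine ⟨1 - μ, μ, by linarith, h0, by ring, ?_⟩
      rw [hb]
      simp only [Submodule.coe_add, Submodule.coe_smul, smul_add]
      have : (1 - μ) • x₀ + μ • x₀ = x₀ := by rw [← add_smul, sub_add_cancel, one_smul]
      calc (1 - μ) • x₀ + (1 - μ) • (a m : X) + (μ • x₀ + μ • (a n : X))
          = ((1 - μ) • x₀ + μ • x₀) + ((1 - μ) • (a m : X) + μ • (a n : X)) := by abel
        _ = _ := by rw [this]
    refine ⟨Set.range b, ?_, ?_, ?_⟩
    · apply Set.infinite_range_of_injective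
      intro m n hmn
      by_contra hne
      rcases lt_or_gt_of_ne hne with h | h
      · exact hinj m n h hmn
      · exact hinj n m h hmn.symm
    · rintro _ ⟨n, rfl⟩
      refine ⟨(ha n).1, fun hc => ?_⟩
      exact absurd (ha n).2 (not_lt.2 (hple _ hc))
    · rintro _ ⟨m, rfl⟩ _ ⟨n, rfl⟩ hne
      rcases lt_trichotomy m n with h | h | h
      · exact hseg m n h
      · exact absurd (by rw [h]) hne
      · rw [Set.pair_comm]; exact hseg n m h
  obtain ⟨Φ, hΦp, hΦ⟩ := theoremA hp hDVc (fun v hv => hCD (hpmem v hv)) hnc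
  have hext : ∀ γ : V →ₗ[ℝ] ℝ, ∃ Γ : X →ₗ[ℝ] ℝ, ∀ v : V, Γ v = γ v := by
    intro γ
    obtain ⟨Γ, hΓ⟩ := LinearMap.exists_extend γ
    exact ⟨Γ, fun v => by rw [← hΓ]; rfl⟩
  choose E hE using hext
  refine col_of_cover (ι := Φ) _ C (fun γ => {x | x - x₀ ∈ V ∧ 1 < E γ.1 (x - x₀)}) ?_ ?_ ?_
  · intro γ x hx y hy a b ha hb hab
    have e : a • x + b • y - x₀ = a • (x - x₀) + b • (y - x₀) := by
      have : a • x₀ + b • x₀ = x₀ := by rw [← add_smul, hab, one_smul]
      calc a • x + b • y - x₀ = a • x + b • y - (a • x₀ + b • x₀) := by rw [this]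
        _ = _ := by rw [smul_sub, smul_sub]; abel
    refine ⟨?_, ?_⟩
    · rw [e]; exact V.add_mem (V.smul_mem a hx.1) (V.smul_mem b hy.1)
    · rw [e, map_add, map_smul, map_smul, smul_eq_mul, smul_eq_mul]
      have h1 := hx.2
      have h2 := hy.2
      rcases eq_or_lt_of_le ha with h | h
      · have : b = 1 := by linarith
        rw [← h, this]; linarith
      · nlinarith
  · intro γ
    rw [Set.disjoint_left]
    rintro x ⟨hxV, hx⟩ hxC
    have h1 := hE γ.1 ⟨x - x₀, hxV⟩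
    have h2 : p ⟨x - x₀, hxV⟩ ≤ 1 := hple _ (by show x₀ + (x - x₀) ∈ C; simpa using hxC)
    have h3 := hΦp γ.1 γ.2 ⟨x - x₀, hxV⟩
    rw [← h1] at h3
    have h4 : E γ.1 (x - x₀) ≤ 1 := h3.trans h2
    exact absurd hx (not_lt.2 h4)
  · rintro x ⟨⟨hxD, hxC⟩, hxV⟩
    have hxp : 1 < p ⟨x - x₀, hxV⟩ := by
      by_contra hle
      have := hpmem _ (not_lt.1 hle)
      apply hxC
      have h2 : x₀ + (x - x₀) ∈ C := this
      simpa using h2
    obtain ⟨γ, hγ, hγe⟩ := hΦ ⟨x - x₀, hxV⟩ (by show x₀ + (x - x₀) ∈ D; simpa using hxD) hxp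
    refine ⟨⟨γ, hγ⟩, hxV, ?_⟩
    have h1 := hE γ ⟨x - x₀, hxV⟩
    show 1 < E γ (x - x₀)
    have h2 : E γ (x - x₀) = γ ⟨x - x₀, hxV⟩ := h1
    rw [h2, hγe]
    exact hxp

end top

section met

variable {X : Type*} [AddCommGroup X] [Module ℝ X] [MetricSpace X] [CompleteSpace X]
  [IsTopologicalAddGroup X] [ContinuousSMul ℝ X]

lemma exists_core {C : Set X} (hCc : IsClosed C) (hC : Convex ℝ C) (c₀ : X) (hc₀ : c₀ ∈ C)
    (y : ℕ → X) (hy : ∀ n, y n ∈ C) :
    ∃ x₀ ∈ C, ∀ k, ∃ μ : ℝ, 0 < μ ∧ μ < 1 ∧ (1 - μ)⁻¹ • (x₀ - μ • y k) ∈ C := by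
  have step : ∀ (n : ℕ) (q : ℝ × X), 1 ≤ q.1 → ∃ β : ℝ, 0 < β ∧ β ≤ (1 / 2) ^ (n + 1) ∧
      dist q.2 ((q.1 / (q.1 + β)) • q.2 + (β / (q.1 + β)) • y n) ≤ 1 * (1 / 2) ^ n := by
    intro n q hq
    have hq0 : q.1 ≠ 0 := by linarith
    have ht : Tendsto (fun β : ℝ => (q.1 / (q.1 + β)) • q.2 + (β / (q.1 + β)) • y n) (𝓝[>] 0)
        (𝓝 ((q.1 / (q.1 + 0)) • q.2 + (0 / (q.1 + 0)) • y n)) := by
      apply Tendsto.mono_left _ nhdsWithin_le_nhds
      have h1 : Tendsto (fun β : ℝ => q.1 / (q.1 + β)) (𝓝 0) (𝓝 (q.1 / (q.1 + 0))) :=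
        tendsto_const_nhds.div (tendsto_const_nhds.add tendsto_id) (by simpa using hq0)
      have h2 : Tendsto (fun β : ℝ => β / (q.1 + β)) (𝓝 0) (𝓝 (0 / (q.1 + 0))) :=
        tendsto_id.div (tendsto_const_nhds.add tendsto_id) (by simpa using hq0)
      exact (h1.smul tendsto_const_nhds).add (h2.smul tendsto_const_nhds)
    rw [add_zero, div_self hq0, one_smul, zero_div, zero_smul, add_zero] at ht
    have h1 : ∀ᶠ β in 𝓝[>] (0 : ℝ),
        dist ((q.1 / (q.1 + β)) • q.2 + (β / (q.1 + β)) • y n) q.2 < 1 * (1 / 2) ^ n :=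
      (Metric.tendsto_nhds.1 ht) _ (by positivity)
    have h2 : ∀ᶠ β in 𝓝[>] (0 : ℝ), β < (1 / 2) ^ (n + 1) :=
      (tendsto_id.mono_left nhdsWithin_le_nhds : Tendsto (fun β : ℝ => β) (𝓝[>] 0) (𝓝 0)).eventually_lt_const
        (by positivity)
    obtain ⟨β, ⟨h3, h4⟩, h5⟩ := ((h1.and h2).and self_mem_nhdsWithin).exists
    exact ⟨β, h5, h4.le, by rw [dist_comm]; exact h3.le⟩
  choose! B hB1 hB2 hB3 using step
  set q : ℕ → ℝ × X := fun n => Nat.rec ((1 : ℝ), c₀)
    (fun n q => (q.1 + B n q, (q.1 / (q.1 + B n q)) • q.2 + (B n q / (q.1 + B n q)) • y n)) n with hq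
  have hq0 : q 0 = ((1 : ℝ), c₀) := rfl
  have hqs : ∀ n, q (n + 1) = ((q n).1 + B n (q n), ((q n).1 / ((q n).1 + B n (q n))) • (q n).2 +
      (B n (q n) / ((q n).1 + B n (q n))) • y n) := fun n => rfl
  have hσ1 : ∀ n, 1 ≤ (q n).1 := by
    intro n
    induction n with
    | zero => rw [hq0]
    | succ n ih =>
      rw [hqs n]
      have := hB1 n (q n) ih
      show 1 ≤ (q n).1 + B n (q n)
      linarith
  have hσ2 : ∀ n, (q n).1 ≤ 2 - (1 / 2) ^ n := by
    intro n
    induction n with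
    | zero => rw [hq0]; norm_num
    | succ n ih =>
      rw [hqs n]
      have := hB2 n (q n) (hσ1 n)
      show (q n).1 + B n (q n) ≤ 2 - (1 / 2) ^ (n + 1)
      rw [pow_succ] at this ⊢
      linarith
  have hσ2' : ∀ n, (q n).1 ≤ 2 := fun n => (hσ2 n).trans (by
    have : (0 : ℝ) < (1 / 2) ^ n := by positivity
    linarith)
  have hsC : ∀ n, (q n).2 ∈ C := by
    intro n
    induction n with
    | zero => rw [hq0]; exact hc₀
    | succ n ih =>
      rw [hqs n]
      have h1 := hσ1 n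
      have h2 := hB1 n (q n) (hσ1 n)
      have h3 : 0 < (q n).1 + B n (q n) := by linarith
      exact hC ih (hy n) (div_nonneg (by linarith) h3.le) (div_nonneg h2.le h3.le)
        (by rw [← add_div, div_self h3.ne'])
  have hcau : CauchySeq (fun n => (q n).2) := by
    refine cauchySeq_of_le_geometric (1 / 2) 1 (by norm_num) fun n => ?_
    rw [hqs n]
    exact hB3 n (q n) (hσ1 n)
  obtain ⟨x₀, hx₀⟩ := cauchySeq_tendsto_of_complete hcau
  refine ⟨x₀, hCc.mem_of_tendsto hx₀ (Filter.Eventually.of_forall hsC), fun k => ?_⟩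
  set b := B k (q k) with hb
  have hb0 : 0 < b := hB1 k (q k) (hσ1 k)
  have hb1 : b ≤ 1 / 2 := by
    refine (hB2 k (q k) (hσ1 k)).trans ?_
    rw [pow_succ]
    have : ((1 : ℝ) / 2) ^ k ≤ 1 := pow_le_one₀ (by norm_num) (by norm_num)
    linarith
  have hclaim : ∀ n, k + 1 ≤ n → ∃ z ∈ C, (q n).2 = (b / (q n).1) • y k + (1 - b / (q n).1) • z := by
    intro n hn
    induction n, hn using Nat.le_induction with
    | base =>
      refine ⟨(q k).2, hsC k, ?_⟩
      have h3 : 0 < (q k).1 + b := by have := hσ1 k; linarith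
      rw [hqs k]
      show ((q k).1 / ((q k).1 + b)) • (q k).2 + (b / ((q k).1 + b)) • y k =
        (b / ((q k).1 + b)) • y k + (1 - b / ((q k).1 + b)) • (q k).2
      rw [show (1 : ℝ) - b / ((q k).1 + b) = (q k).1 / ((q k).1 + b) by field_simp; ring]
      abel
    | succ n hn ih =>
      obtain ⟨z, hz, he⟩ := ih
      have h1 := hσ1 n
      have hbn : 0 < B n (q n) := hB1 n (q n) (hσ1 n)
      have h3 : 0 < (q n).1 + B n (q n) := by linarith
      have hν1 : b / (q n).1 ≤ 1 := by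
        rw [div_le_one (by linarith)]; linarith
      obtain ⟨z', hz', he'⟩ := mix hC (lam := B n (q n) / ((q n).1 + B n (q n))) hz (hy n)
        (div_nonneg hb0.le (by linarith)) hν1 (div_pos hbn h3)
        ((div_le_one h3).2 (by linarith)) he
      refine ⟨z', hz', ?_⟩
      rw [hqs n]
      show ((q n).1 / ((q n).1 + B n (q n))) • (q n).2 + (B n (q n) / ((q n).1 + B n (q n))) • y n =
        (b / ((q n).1 + B n (q n))) • y k + (1 - b / ((q n).1 + B n (q n))) • z'
      have e1 : 1 - B n (q n) / ((q n).1 + B n (q n)) = (q n).1 / ((q n).1 + B n (q n)) := by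
        field_simp; ring
      have e2 : (q n).1 / ((q n).1 + B n (q n)) * (b / (q n).1) = b / ((q n).1 + B n (q n)) := by
        have : (q n).1 ≠ 0 := by linarith
        field_simp
      rw [e1, e2] at he'
      exact he'
  refine ⟨b / 2, by linarith, by linarith, ?_⟩
  have ht : Tendsto (fun n => (1 - b / 2)⁻¹ • ((q n).2 - (b / 2) • y k)) atTop
      (𝓝 ((1 - b / 2)⁻¹ • (x₀ - (b / 2) • y k))) := (hx₀.sub_const _).const_smul _
  refine hCc.mem_of_tendsto ht ?_
  filter_upwards [eventually_ge_atTop (k + 1)] with n hn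
  obtain ⟨z, hz, he⟩ := hclaim n hn
  have h1 := hσ1 n
  have h2 := hσ2' n
  refine shrink hC (hy k) hz ?_ ?_ (by linarith) he
  · exact div_le_div_of_nonneg_left hb0.le (by linarith) h2
  · rw [div_le_one (by linarith)]; linarith

end met

end Pool.Agent.X202.Hid
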