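import Pool.Agent.X202.Hid4

set_option autoImplicit false
set_option linter.unusedVariables false

namespace Pool.Agent.X202.Hid

open Filter Topology

/-- `C` is polyhedric in `D'`. -/
def PolyhedricIn {X : Type*} [AddCommGroup X] [Module ℝ X] (C D' : Set X) : Prop :=
  ∃ (n : ℕ) (H : Fin (n + 1) → Set X),
    (∀ i, H i ⊆ D' ∧ Convex ℝ (H i) ∧ Convex ℝ (D' \ H i)) ∧ C = ⋂ i, H i

section alg

variable {X : Type*} [AddCommGroup X] [Module ℝ X]

lemma poly_of_col {C D' : Set X} {n : ℕ} (hC : Convex ℝ C) (hD' : Convex ℝ D') (hCD : C ⊆ D')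
    (h : Col C (D' \ C) n) : PolyhedricIn C D' := by
  obtain ⟨c, hc⟩ := h
  have hst : ∀ k : Fin (n + 1), ∃ H : Set X, Convex ℝ H ∧ Convex ℝ Hᶜ ∧ C ⊆ H ∧
      convexHull ℝ {x | x ∈ D' \ C ∧ c x = k} ⊆ Hᶜ := fun k =>
    exists_convex_convex_compl_subset hC (convex_convexHull ℝ _) (hc k).symm
  choose H h1 h2 h3 h4 using hst
  refine ⟨n, fun k => H k ∩ D', fun k => ⟨Set.inter_subset_right, (h1 k).inter hD', ?_⟩, ?_⟩
  · have : D' \ (H k ∩ D') = D' ∩ (H k)ᶜ := by
      ext x; simp only [Set.mem_sdiff, Set.mem_inter_iff, Set.mem_compl_iff]; tauto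
    rw [this]
    exact hD'.inter (h2 k)
  · apply Set.Subset.antisymm
    · intro x hx
      exact Set.mem_iInter.2 fun k => ⟨h3 k hx, hCD hx⟩
    · intro x hx
      rw [Set.mem_iInter] at hx
      by_contra hxC
      have h5 : x ∈ convexHull ℝ {y | y ∈ D' \ C ∧ c y = c x} :=
        subset_convexHull ℝ _ ⟨⟨(hx 0).2, hxC⟩, rfl⟩
      exact h4 _ h5 (hx (c x)).1

/-- three points outside an affine subspace cannot be pairwise separated by it -/
lemma three_points {S : AffineSubspace ℝ X} {a b c : X} (ha : a ∉ S) (hb : b ∉ S) (hc : c ∉ S)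
    (hab : (convexHull ℝ {a, b} ∩ (S : Set X)).Nonempty)
    (hbc : (convexHull ℝ {b, c} ∩ (S : Set X)).Nonempty)
    (hca : (convexHull ℝ {c, a} ∩ (S : Set X)).Nonempty) : False := by
  obtain ⟨z1, hz1, hz1S⟩ := hab
  obtain ⟨z2, hz2, hz2S⟩ := hbc
  obtain ⟨z3, hz3, hz3S⟩ := hca
  rw [convexHull_pair] at hz1 hz2 hz3
  obtain ⟨s1, t1, hs1, ht1, hst1, e1⟩ := hz1
  obtain ⟨s2, t2, hs2, ht2, hst2, e2⟩ := hz2
  obtain ⟨s3, t3, hs3, ht3, hst3, e3⟩ := hz3
  -- all the coefficients are positive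
  have pos : ∀ {x y z : X} {s t : ℝ}, x ∉ S → y ∉ S → z ∈ (S : Set X) → 0 ≤ s → 0 ≤ t → s + t = 1 →
      s • x + t • y = z → 0 < s ∧ 0 < t := by
    intro x y z s t hx hy hz hs ht hst he
    refine ⟨lt_of_le_of_ne hs fun h => ?_, lt_of_le_of_ne ht fun h => ?_⟩
    · apply hy
      have : t = 1 := by linarith
      rw [← h, this, zero_smul, one_smul, zero_add] at he
      rw [he]; exact hz
    · apply hx
      have : s = 1 := by linarith
      rw [← h, this, zero_smul, one_smul, add_zero] at he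
      rw [he]; exact hz
  obtain ⟨p1, q1⟩ := pos ha hb hz1S hs1 ht1 hst1 e1
  obtain ⟨p2, q2⟩ := pos hb hc hz2S hs2 ht2 hst2 e2
  obtain ⟨p3, q3⟩ := pos hc ha hz3S hs3 ht3 hst3 e3
  -- `a` is an affine combination of `z1, z2, z3`
  set Δ : ℝ := s1 * s2 * s3 + t1 * t2 * t3 with hΔ
  have hΔ0 : 0 < Δ := by positivity
  apply ha
  -- s2 s3 z1 - t1 s3 z2 + t1 t2 z3 = Δ a
  have key : (s2 * s3) • z1 - (t1 * s3) • z2 + (t1 * t2) • z3 = Δ • a := by
    rw [← e1, ← e2, ← e3, hΔ]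
    module
  have hsum : s2 * s3 - t1 * s3 + t1 * t2 = Δ := by
    rw [hΔ]
    have a1 : s1 = 1 - t1 := by linarith
    have a2 : s2 = 1 - t2 := by linarith
    have a3 : s3 = 1 - t3 := by linarith
    rw [a1, a2, a3]; ring
  have hcomb : a = (s2 * s3 / Δ) • (z1 -ᵥ z3) +ᵥ (-(t1 * s3 / Δ) • (z2 -ᵥ z3) +ᵥ z3) := by
    have h1 : a = Δ⁻¹ • (Δ • a) := by rw [inv_smul_smul₀ hΔ0.ne']
    rw [h1, ← key]
    simp only [vsub_eq_sub, vadd_eq_add]
    have h3 : z3 = Δ⁻¹ • ((s2 * s3 - t1 * s3 + t1 * t2) • z3) := by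
      rw [hsum, inv_smul_smul₀ hΔ0.ne']
    have h4 : (s2 * s3 / Δ) • (z1 - z3) + (-(t1 * s3 / Δ) • (z2 - z3) + z3) =
        (s2 * s3 / Δ) • (z1 - z3) + (-(t1 * s3 / Δ) • (z2 - z3) +
          Δ⁻¹ • ((s2 * s3 - t1 * s3 + t1 * t2) • z3)) := by rw [← h3]
    rw [h4]
    simp only [div_eq_mul_inv]
    module
  rw [hcomb]
  have hz3' : z3 ∈ S := hz3S
  exact AffineSubspace.smul_vsub_vadd_mem _ _ hz1S hz3'
    (AffineSubspace.smul_vsub_vadd_mem _ _ hz2S hz3' hz3')

lemma no_hidden_of_poly {C D : Set X} (h : PolyhedricIn C (D ∩ (affineSpan ℝ C : Set X))) :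
    ¬ ∃ A : Set X, A.Infinite ∧ A ⊆ D \ C ∧ Hides C A := by
  classical
  rintro ⟨A, hinf, hAD, hA⟩
  obtain ⟨n, H, hH, hCe⟩ := h
  apply hinf
  set S := affineSpan ℝ C with hS
  have hCS : C ⊆ (S : Set X) := subset_affineSpan ℝ C
  -- the part in the affine span
  have hfin1 : (A ∩ (S : Set X)).Finite := by
    have hex : ∀ x : X, ∃ i : Fin (n + 1), x ∈ A ∩ (S : Set X) → x ∉ H i := by
      intro x
      by_cases hx : x ∈ A ∩ (S : Set X)
      · have : x ∉ ⋂ i, H i := by rw [← hCe]; exact (hAD hx.1).2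
        rw [Set.mem_iInter] at this
        push Not at this
        obtain ⟨i, hi⟩ := this
        exact ⟨i, fun _ => hi⟩
      · exact ⟨0, fun h => absurd h hx⟩
    choose i hi using hex
    refine Set.Finite.of_finite_image (f := i) (Set.toFinite _) ?_
    intro x hx y hy hxy
    by_contra hne
    obtain ⟨z, hz, hzC⟩ := hA x hx.1 y hy.1 hne
    have h1 : x ∈ (D ∩ (S : Set X)) \ H (i x) := ⟨⟨(hAD hx.1).1, hx.2⟩, hi x hx⟩
    have h2 : y ∈ (D ∩ (S : Set X)) \ H (i x) := ⟨⟨(hAD hy.1).1, hy.2⟩, by rw [hxy]; exact hi y hy⟩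
    have h3 : convexHull ℝ {x, y} ⊆ (D ∩ (S : Set X)) \ H (i x) :=
      convexHull_min (by
        rintro w (rfl | hw)
        · exact h1
        · rw [Set.mem_singleton_iff] at hw; subst hw; exact h2) (hH (i x)).2.2
    rw [hCe] at hzC
    exact (h3 hz).2 (Set.mem_iInter.1 hzC _)
  have hfin2 : (A \ (S : Set X)).Finite := by
    by_contra hinf2
    have hinf2' : (A \ (S : Set X)).Infinite := hinf2
    obtain ⟨t, htA, htc⟩ := hinf2'.exists_subset_card_eq 3
    obtain ⟨a, b, c, hab, hac, hbc, rfl⟩ := Finset.card_eq_three.1 htc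
    have ha := htA (show a ∈ (({a, b, c} : Finset X) : Set X) by simp)
    have hb := htA (show b ∈ (({a, b, c} : Finset X) : Set X) by simp)
    have hc := htA (show c ∈ (({a, b, c} : Finset X) : Set X) by simp)
    have mono : ∀ {x y : X}, (convexHull ℝ {x, y} ∩ C).Nonempty →
        (convexHull ℝ {x, y} ∩ (S : Set X)).Nonempty := fun h =>
      h.mono (Set.inter_subset_inter_right _ hCS)
    exact three_points ha.2 hb.2 hc.2 (mono (hA a ha.1 b hb.1 hab)) (mono (hA b hb.1 c hc.1 hbc))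
      (mono (hA c hc.1 a ha.1 hac.symm))
  have := hfin1.union hfin2
  rwa [Set.inter_union_sdiff] at this

end alg

section met

variable {X : Type*} [AddCommGroup X] [Module ℝ X] [MetricSpace X] [CompleteSpace X]
  [IsTopologicalAddGroup X] [ContinuousSMul ℝ X]

lemma uniform_col {C D : Set X} (hCc : IsClosed C) (hC : Convex ℝ C) (hD : Convex ℝ D)
    (hCD : C ⊆ D) (hno : ¬ ∃ A : Set X, A.Infinite ∧ A ⊆ D \ C ∧ Hides C A) (c₀ : X)
    (hc₀ : c₀ ∈ C) :
    ∃ n, ∀ F : Finset X, (F : Set X) ⊆ (D ∩ (affineSpan ℝ C : Set X)) \ C → Col C (F : Set X) n := by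
  classical
  by_contra hcon
  push Not at hcon
  choose F hF1 hF2 using hcon
  have hfa : ∀ x : X, ∃ t : Finset X, (t : Set X) ⊆ C ∧
      (x ∈ affineSpan ℝ C → x ∈ affineSpan ℝ (t : Set X)) := by
    intro x
    by_cases hx : x ∈ affineSpan ℝ C
    · obtain ⟨t, h1, h2⟩ := fin_affine hx
      exact ⟨t, h1, fun _ => h2⟩
    · exact ⟨∅, by simp, fun h => absurd h hx⟩
  choose t ht1 ht2 using hfa
  set Y : Set X := insert c₀ (⋃ n, ⋃ x ∈ F n, (t x : Set X)) with hY
  have hYc : Y.Countable := by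
    apply Set.Countable.insert
    apply Set.countable_iUnion
    intro n
    exact Set.Countable.biUnion (Finset.countable_toSet (F n)) fun x _ => Finset.countable_toSet _
  have hYC : Y ⊆ C := by
    rintro y (rfl | hy)
    · exact hc₀
    · simp only [Set.mem_iUnion] at hy
      obtain ⟨n, x, hx, hy⟩ := hy
      exact ht1 x hy
  obtain ⟨y, hy⟩ := hYc.exists_eq_range ⟨c₀, Set.mem_insert _ _⟩
  have hyC : ∀ n, y n ∈ C := fun n => hYC (by rw [hy]; exact ⟨n, rfl⟩)
  obtain ⟨x₀, hx₀, hcore⟩ := exists_core hCc hC c₀ hc₀ y hyC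
  set V : Submodule ℝ X := Submodule.span ℝ (Set.range fun k => y k - x₀) with hV
  have hPV : ∀ v ∈ V, ∃ τ : ℝ, 0 < τ ∧ x₀ + τ • v ∈ C ∧ x₀ - τ • v ∈ C := by
    intro v hv
    induction hv using Submodule.span_induction with
    | mem v hv =>
      obtain ⟨k, rfl⟩ := hv
      obtain ⟨μ, hμ0, hμ1, hμ⟩ := hcore k
      have hd : 0 < 1 - μ := by linarith
      -- use `τ = μ`
      refine ⟨μ, hμ0, ?_, ?_⟩
      · have := hC hx₀ (hyC k) (by linarith : 0 ≤ 1 - μ) hμ0.le (by ring)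
        have e : (1 - μ) • x₀ + μ • y k = x₀ + μ • (y k - x₀) := by module
        rwa [e] at this
      · have := hC hx₀ hμ hμ0.le (by linarith : 0 ≤ 1 - μ) (by ring)
        rw [smul_inv_smul₀ hd.ne'] at this
        have e : μ • x₀ + (x₀ - μ • y k) = x₀ - μ • (y k - x₀) := by module
        rwa [e] at this
    | zero => exact ⟨1, one_pos, by simpa using hx₀, by simpa using hx₀⟩
    | add v w _ _ hv hw =>
      obtain ⟨τ, hτ, h1, h2⟩ := hv
      obtain ⟨ρ, hρ, h3, h4⟩ := hw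
      have hs : 0 < τ + ρ := by linarith
      have hsum : ρ / (τ + ρ) + τ / (τ + ρ) = 1 := by
        rw [← add_div, add_comm, div_self hs.ne']
      have hone : (ρ / (τ + ρ)) • x₀ + (τ / (τ + ρ)) • x₀ = x₀ := by
        rw [← add_smul, hsum, one_smul]
      refine ⟨τ * ρ / (τ + ρ), by positivity, ?_, ?_⟩
      · have := hC h1 h3 (div_nonneg hρ.le hs.le) (div_nonneg hτ.le hs.le) hsum
        have e : (ρ / (τ + ρ)) • (x₀ + τ • v) + (τ / (τ + ρ)) • (x₀ + ρ • w) =
            ((ρ / (τ + ρ)) • x₀ + (τ / (τ + ρ)) • x₀) + (τ * ρ / (τ + ρ)) • (v + w) := by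
          simp only [div_eq_mul_inv]; module
        rw [e, hone] at this
        exact this
      · have := hC h2 h4 (div_nonneg hρ.le hs.le) (div_nonneg hτ.le hs.le) hsum
        have e : (ρ / (τ + ρ)) • (x₀ - τ • v) + (τ / (τ + ρ)) • (x₀ - ρ • w) =
            ((ρ / (τ + ρ)) • x₀ + (τ / (τ + ρ)) • x₀) - (τ * ρ / (τ + ρ)) • (v + w) := by
          simp only [div_eq_mul_inv]; module
        rw [e, hone] at this
        exact this
    | smul a v _ hv =>
      obtain ⟨τ, hτ, h1, h2⟩ := hv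
      rcases lt_trichotomy a 0 with h | h | h
      · refine ⟨τ / (-a), div_pos hτ (by linarith), ?_, ?_⟩
        · have e : (τ / (-a)) • a • v = -(τ • v) := by
            rw [smul_smul, show τ / (-a) * a = -τ by
              rw [div_mul_eq_mul_div, div_neg, mul_div_cancel_right₀ _ h.ne], neg_smul]
          rw [e, ← sub_eq_add_neg]; exact h2
        · have e : (τ / (-a)) • a • v = -(τ • v) := by
            rw [smul_smul, show τ / (-a) * a = -τ by
              rw [div_mul_eq_mul_div, div_neg, mul_div_cancel_right₀ _ h.ne], neg_smul]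
          rw [e, sub_neg_eq_add]; exact h1
      · subst h
        exact ⟨1, one_pos, by simpa using hx₀, by simpa using hx₀⟩
      · have e : (τ / a) • a • v = τ • v := by
          rw [smul_smul, div_mul_cancel₀ _ h.ne']
        exact ⟨τ / a, div_pos hτ h, by rw [e]; exact h1, by rw [e]; exact h2⟩
  obtain ⟨n, hn⟩ := color_sub hCc hC hD hCD hno x₀ hx₀ V (fun v hv => by
    obtain ⟨τ, h1, h2, -⟩ := hPV v hv
    exact ⟨τ, h1, h2⟩)
  apply hF2 n
  refine hn.mono ?_
  intro x hx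
  have hx' := hF1 n hx
  refine ⟨⟨hx'.1.1, hx'.2⟩, ?_⟩
  have hxt : x ∈ affineSpan ℝ (t x : Set X) := ht2 x hx'.1.2
  have hsub : (t x : Set X) ⊆ insert x₀ (Set.range y) := by
    intro z hz
    right
    rw [← hy]
    right
    simp only [Set.mem_iUnion]
    exact ⟨n, x, Finset.mem_coe.1 hx, hz⟩
  have h1 : x ∈ affineSpan ℝ (insert x₀ (Set.range y)) := affineSpan_mono ℝ hsub hxt
  have h2 : x₀ ∈ affineSpan ℝ (insert x₀ (Set.range y)) :=
    mem_affineSpan ℝ (Set.mem_insert _ _)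
  have h3 := AffineSubspace.vsub_mem_direction h1 h2
  rw [direction_affineSpan,
    vectorSpan_eq_span_vsub_set_right ℝ (Set.mem_insert x₀ (Set.range y)), vsub_eq_sub] at h3
  refine (Submodule.span_le.2 ?_) h3
  rintro _ ⟨z, hz, rfl⟩
  rcases hz with rfl | ⟨k, rfl⟩
  · show z - z ∈ V
    rw [sub_self]; exact V.zero_mem
  · exact Submodule.subset_span ⟨k, rfl⟩

theorem main {C D : Set X} (hCc : IsClosed C) (hC : Convex ℝ C) (hD : Convex ℝ D) (hCD : C ⊆ D) :
    (¬ ∃ A : Set X, A.Infinite ∧ A ⊆ D \ C ∧ Hides C A) ↔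
      PolyhedricIn C (D ∩ (affineSpan ℝ C : Set X)) := by
  refine ⟨fun hno => ?_, no_hidden_of_poly⟩
  have hCS : C ⊆ D ∩ (affineSpan ℝ C : Set X) := fun x hx => ⟨hCD hx, subset_affineSpan ℝ C hx⟩
  have hconv : Convex ℝ (D ∩ (affineSpan ℝ C : Set X)) := hD.inter (AffineSubspace.convex _)
  rcases Set.eq_empty_or_nonempty C with h | ⟨c₀, hc₀⟩
  · subst h
    refine ⟨0, fun _ => ∅, fun _ => ⟨Set.empty_subset _, convex_empty, ?_⟩,
      (Set.iInter_const _).symm⟩
    simpa using convex_empty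
  · obtain ⟨n, hn⟩ := uniform_col hCc hC hD hCD hno c₀ hc₀
    exact poly_of_col hC hconv hCS (rado hn)

end met

end Pool.Agent.X202.Hid
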