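import Pool.Agent.X202.Sobczyk
import Pool.Agent.X202.Tools

set_option autoImplicit false

/-!
# A bounded biorthogonal sequence in every infinite-dimensional normed space
-/

open Filter Topology

namespace Pool.Agent.X202

variable {𝕜 Q : Type*} [RCLike 𝕜] [NormedAddCommGroup Q] [NormedSpace 𝕜 Q]

/-- A finite-dimensional subspace is normed, up to `θ < 1`, by finitely many functionals. -/
theorem exists_finite_norming_dual (F : Submodule 𝕜 Q) [FiniteDimensional 𝕜 F]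
    {θ : ℝ} (hθ1 : θ < 1) :
    ∃ X : Finset (StrongDual 𝕜 Q), (∀ ψ ∈ X, ‖ψ‖ ≤ 1) ∧ ∀ y ∈ F, ‖y‖ = 1 → ∃ ψ ∈ X, θ < ‖ψ y‖ := by
  have : ProperSpace F := FiniteDimensional.proper_rclike 𝕜 F
  have hcomp : IsCompact (Metric.sphere (0 : F) 1) := isCompact_sphere 0 1
  let U : {ψ : StrongDual 𝕜 Q // ‖ψ‖ ≤ 1} → Set F := fun ψ => {y | θ < ‖ψ.1 (y : Q)‖}
  have hU : ∀ ψ, IsOpen (U ψ) := fun ψ =>
    isOpen_lt continuous_const (ψ.1.continuous.comp continuous_subtype_val).norm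
  have hcov : Metric.sphere (0 : F) 1 ⊆ ⋃ ψ, U ψ := by
    intro y hy
    have hy1 : ‖(y : Q)‖ = 1 := mem_sphere_zero_iff_norm.1 hy
    obtain ⟨g, hg1, hg2⟩ := exists_dual_vector 𝕜 (y : Q) (by rw [hy1]; exact one_ne_zero)
    rw [Set.mem_iUnion]
    refine ⟨⟨g, hg1.le⟩, ?_⟩
    change θ < ‖g (y : Q)‖
    rw [hg2, RCLike.norm_ofReal, abs_norm, hy1]
    exact hθ1
  obtain ⟨t, ht⟩ := hcomp.elim_finite_subcover U hU hcov
  classical
  refine ⟨t.image Subtype.val, ?_, ?_⟩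
  · intro ψ hψ
    obtain ⟨ψ', _, rfl⟩ := Finset.mem_image.1 hψ
    exact ψ'.2
  · intro y hy hy1
    have hmem : (⟨y, hy⟩ : F) ∈ Metric.sphere (0 : F) 1 := mem_sphere_zero_iff_norm.2 hy1
    have := ht hmem
    rw [Set.mem_iUnion₂] at this
    obtain ⟨ψ, hψ, hψ2⟩ := this
    exact ⟨ψ, Finset.mem_image_of_mem _ hψ, hψ2⟩

/-- Finitely many functionals have a common zero of norm one in an infinite-dimensional space. -/
theorem exists_common_zero (hQ : ¬ FiniteDimensional 𝕜 Q) (X : Finset (StrongDual 𝕜 Q)) :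
    ∃ w : Q, ‖w‖ = 1 ∧ ∀ ψ ∈ X, ψ w = 0 := by
  obtain ⟨w, hw0, hw⟩ : ∃ w : Q, w ≠ 0 ∧ ∀ ψ ∈ X, ψ w = 0 := by
    by_contra hcon
    push Not at hcon
    apply hQ
    let T : Q →ₗ[𝕜] (X → 𝕜) := LinearMap.pi fun ψ => (ψ.1 : Q →ₗ[𝕜] 𝕜)
    refine Module.Finite.of_injective T ?_
    rw [← LinearMap.ker_eq_bot, LinearMap.ker_eq_bot']
    intro w hw
    by_contra hw0
    obtain ⟨ψ, hψ, hne⟩ := hcon w hw0
    exact hne (congrFun hw ⟨ψ, hψ⟩)
  have hpos : ‖w‖ ≠ 0 := norm_ne_zero_iff.2 hw0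
  refine ⟨((‖w‖⁻¹ : ℝ) : 𝕜) • w, ?_, fun ψ hψ => ?_⟩
  · rw [norm_smul, RCLike.norm_ofReal, abs_of_nonneg (by positivity), inv_mul_cancel₀ hpos]
  · rw [map_smul, hw ψ hψ, smul_zero]

theorem mazurQ_step (hQ : ¬ FiniteDimensional 𝕜 Q) (F : Submodule 𝕜 Q) [FiniteDimensional 𝕜 F]
    {θ : ℝ} (hθ1 : θ < 1) :
    ∃ w : Q, ‖w‖ = 1 ∧ ∀ y ∈ F, ∀ c : 𝕜, θ * ‖y‖ ≤ ‖y + c • w‖ := by
  obtain ⟨X, hX1, hX2⟩ := exists_finite_norming_dual F hθ1
  obtain ⟨w, hw1, hw2⟩ := exists_common_zero hQ X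
  refine ⟨w, hw1, fun y hy c => ?_⟩
  by_cases hy0 : y = 0
  · rw [hy0, norm_zero, mul_zero]; exact norm_nonneg _
  have hny : 0 < ‖y‖ := norm_pos_iff.2 hy0
  obtain ⟨ψ, hψ, hψ2⟩ := hX2 (((‖y‖⁻¹ : ℝ) : 𝕜) • y) (F.smul_mem _ hy)
    (by rw [norm_smul, RCLike.norm_ofReal, abs_of_pos (inv_pos.2 hny), inv_mul_cancel₀ hny.ne'])
  rw [map_smul, norm_smul, RCLike.norm_ofReal, abs_of_pos (inv_pos.2 hny), inv_mul_eq_div,
    lt_div_iff₀ hny] at hψ2
  have h1 : ψ (y + c • w) = ψ y := by rw [map_add, map_smul, hw2 ψ hψ, smul_zero, add_zero]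
  have h2 := ψ.le_opNorm (y + c • w)
  rw [h1] at h2
  have h3 : ‖ψ‖ * ‖y + c • w‖ ≤ 1 * ‖y + c • w‖ :=
    mul_le_mul_of_nonneg_right (hX1 ψ hψ) (norm_nonneg _)
  linarith

/-- A bounded biorthogonal sequence. -/
theorem exists_bounded_biorth (hQ : ¬ FiniteDimensional 𝕜 Q) :
    ∃ (v : ℕ → Q) (G : ℕ → StrongDual 𝕜 Q), (∀ n, ‖v n‖ = 1) ∧ (∀ n, ‖G n‖ ≤ 4) ∧
      ∀ i j, G i (v j) = if i = j then 1 else 0 := by
  let κ : ℕ → ℝ := fun n => 1 + 1 / (n + 1)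
  have hκpos : ∀ n, 0 < κ n := fun n => by positivity
  have hκ1 : ∀ n, 1 ≤ κ n := fun n => by
    simp only [κ]; have : (0 : ℝ) ≤ 1 / ((n : ℝ) + 1) := by positivity
    linarith
  have hκ2 : ∀ n, κ n ≤ 2 := fun n => by
    simp only [κ]
    have : 1 / ((n : ℝ) + 1) ≤ 1 := by
      rw [div_le_one (by positivity)]
      have : (0 : ℝ) ≤ n := Nat.cast_nonneg n
      linarith
    linarith
  have hκanti : ∀ n, κ (n + 1) < κ n := by
    intro n
    simp only [κ]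
    have : (1 : ℝ) / ((n + 1 : ℕ) + 1) < 1 / (n + 1) := by
      apply one_div_lt_one_div_of_lt
      · positivity
      · push_cast; linarith
    linarith
  have hstep : ∀ (n : ℕ) (F : {F : Submodule 𝕜 Q // FiniteDimensional 𝕜 F}),
      ∃ w : Q, ‖w‖ = 1 ∧ ∀ y ∈ F.1, ∀ c : 𝕜, κ (n + 1) / κ n * ‖y‖ ≤ ‖y + c • w‖ := by
    intro n F
    have := F.2
    exact mazurQ_step hQ F.1 ((div_lt_one (hκpos _)).2 (hκanti n))
  choose next hn1 hn2 using hstep
  let nx : ℕ → {F : Submodule 𝕜 Q // FiniteDimensional 𝕜 F} → {F : Submodule 𝕜 Q // FiniteDimensional 𝕜 F} :=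
    fun n F => ⟨F.1 ⊔ Submodule.span 𝕜 {next n F}, by
      have := F.2
      infer_instance⟩
  let st : ℕ → {F : Submodule 𝕜 Q // FiniteDimensional 𝕜 F} := fun n =>
    Nat.rec ⟨⊥, inferInstance⟩ nx n
  have hst : ∀ n, (st (n + 1)).1 = (st n).1 ⊔ Submodule.span 𝕜 {next n (st n)} := fun n => rfl
  set v : ℕ → Q := fun n => next n (st n) with hv
  have hvst : ∀ n, v n ∈ (st (n + 1)).1 := fun n => by
    rw [hst]; exact Submodule.mem_sup_right (Submodule.mem_span_singleton_self _)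
  have hmono : Monotone fun n => (st n).1 := monotone_nat_of_le_succ fun n => by
    rw [hst]; exact le_sup_left
  have hsum : ∀ (a : ℕ → 𝕜) n, ∑ i ∈ Finset.range n, a i • v i ∈ (st n).1 := by
    intro a n
    refine Submodule.sum_mem _ fun i hi => Submodule.smul_mem _ _ ?_
    exact hmono (Nat.succ_le_of_lt (Finset.mem_range.1 hi)) (hvst i)
  have hone : ∀ (a : ℕ → 𝕜) n, ‖∑ i ∈ Finset.range n, a i • v i‖ / κ n ≤
      ‖∑ i ∈ Finset.range (n + 1), a i • v i‖ / κ (n + 1) := by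
    intro a n
    have h1 := hn2 n (st n) _ (hsum a n) (a n)
    rw [Finset.sum_range_succ]
    rw [div_mul_eq_mul_div, div_le_iff₀ (hκpos n)] at h1
    rw [div_le_div_iff₀ (hκpos n) (hκpos (n + 1))]
    calc ‖∑ i ∈ Finset.range n, a i • v i‖ * κ (n + 1)
        = κ (n + 1) * ‖∑ i ∈ Finset.range n, a i • v i‖ := by ring
      _ ≤ _ := h1
  have hmul : ∀ (a : ℕ → 𝕜) m n, m ≤ n → ‖∑ i ∈ Finset.range m, a i • v i‖ ≤
      2 * ‖∑ i ∈ Finset.range n, a i • v i‖ := by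
    intro a m n hmn
    have h1 : ‖∑ i ∈ Finset.range m, a i • v i‖ / κ m ≤
        ‖∑ i ∈ Finset.range n, a i • v i‖ / κ n :=
      monotone_nat_of_le_succ (f := fun n => ‖∑ i ∈ Finset.range n, a i • v i‖ / κ n)
        (fun n => hone a n) hmn
    rw [div_le_iff₀ (hκpos m)] at h1
    refine h1.trans ?_
    have h2 : ‖∑ i ∈ Finset.range n, a i • v i‖ / κ n ≤ ‖∑ i ∈ Finset.range n, a i • v i‖ :=
      div_le_self (norm_nonneg _) (hκ1 n)
    have h3 := hκ2 m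
    calc ‖∑ i ∈ Finset.range n, a i • v i‖ / κ n * κ m
        ≤ ‖∑ i ∈ Finset.range n, a i • v i‖ * 2 :=
          mul_le_mul h2 h3 (hκpos m).le (norm_nonneg _)
      _ = _ := by ring
  have hcoef : ∀ (c : ℕ →₀ 𝕜) (k : ℕ), ‖c k‖ ≤ 4 * ‖Finsupp.linearCombination 𝕜 v c‖ := by
    intro c k
    set n := max (k + 1) (c.support.sup id + 1) with hn
    have hsupp : c.support ⊆ Finset.range n := by
      intro i hi
      rw [Finset.mem_range]
      have : i ≤ c.support.sup id := Finset.le_sup (f := id) hi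
      omega
    have h1 : Finsupp.linearCombination 𝕜 v c = ∑ i ∈ Finset.range n, c i • v i := by
      rw [Finsupp.linearCombination_apply, Finsupp.sum_of_support_subset c hsupp _ (by simp)]
    have h2 : c k • v k = ∑ i ∈ Finset.range (k + 1), c i • v i - ∑ i ∈ Finset.range k, c i • v i := by
      rw [Finset.sum_range_succ]; abel
    have h3 : ‖c k‖ = ‖c k • v k‖ := by rw [norm_smul, hn1 k (st k), mul_one]
    rw [h3, h2, h1]
    refine (norm_sub_le _ _).trans ?_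
    have h4 := hmul c (k + 1) n (le_max_left _ _)
    have h5 := hmul c k n (by omega)
    linarith
  choose G hG1 hG2 using fun k => extend_along (Finsupp.linearCombination 𝕜 v)
    (Finsupp.lapply (R := 𝕜) k : (ℕ →₀ 𝕜) →ₗ[𝕜] 𝕜) 4 (by norm_num) (fun c => hcoef c k)
  refine ⟨v, G, fun n => hn1 n (st n), hG1, fun i j => ?_⟩
  have := hG2 i (Finsupp.single j 1)
  rw [Finsupp.linearCombination_single, one_smul] at this
  rw [this, Finsupp.lapply_apply, Finsupp.single_apply]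
  simp only [eq_comm]

/-- In `E`, modulo a closed subspace `G` of infinite codimension: a bounded sequence and a bounded
sequence of functionals vanishing on `G`, biorthogonal to each other. -/
theorem exists_bounded_biorth_mod {E : Type*} [NormedAddCommGroup E] [NormedSpace 𝕜 E]
    (G : Submodule 𝕜 E) (hG : IsClosed (G : Set E)) (hQ : ¬ FiniteDimensional 𝕜 (E ⧸ G)) :
    ∃ (y : ℕ → E) (g : ℕ → StrongDual 𝕜 E), (∀ n, ‖y n‖ ≤ 2) ∧ (∀ n, ‖g n‖ ≤ 4) ∧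
      (∀ n, ∀ v ∈ G, g n v = 0) ∧ ∀ i j, g i (y j) = if i = j then 1 else 0 := by
  have : IsClosed (G : Set E) := hG
  obtain ⟨v, g, hv, hg1, hg2⟩ := exists_bounded_biorth (𝕜 := 𝕜) (Q := E ⧸ G) hQ
  have hlift : ∀ n, ∃ y : E, (Submodule.Quotient.mk y : E ⧸ G) = v n ∧ ‖y‖ ≤ 2 := by
    intro n
    obtain ⟨y, hy1, hy2⟩ := Submodule.Quotient.norm_mk_lt (v n) (ε := 1) one_pos
    exact ⟨y, hy1, by rw [hv] at hy2; linarith⟩
  choose y hy1 hy2 using hlift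
  refine ⟨y, fun n => (g n).comp G.mkQL, hy2, fun n => ?_, fun n w hw => ?_, fun i j => ?_⟩
  · refine ContinuousLinearMap.opNorm_le_bound _ (by norm_num) fun w => ?_
    calc ‖g n (Submodule.Quotient.mk w : E ⧸ G)‖ ≤ ‖g n‖ * ‖(Submodule.Quotient.mk w : E ⧸ G)‖ :=
          (g n).le_opNorm _
      _ ≤ 4 * ‖w‖ := by
          refine mul_le_mul (hg1 n) (Submodule.Quotient.norm_mk_le G w) (norm_nonneg _) (by norm_num)
  · change g n (Submodule.Quotient.mk w : E ⧸ G) = 0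
    rw [(Submodule.Quotient.mk_eq_zero G).2 hw, map_zero]
  · change g i (Submodule.Quotient.mk (y j) : E ⧸ G) = _
    rw [hy1, hg2]

end Pool.Agent.X202
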