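import Mathlib

set_option autoImplicit false

/-!
# `x² sin (1/x)` is operator Lipschitz
-/

namespace Pool.Agent.X202.OL

open Complex NormedSpace

variable {𝒜 : Type} [CStarAlgebra 𝒜]

theorem im_zero {a : 𝒜} (ha : IsSelfAdjoint a) {z : ℂ} (hz : z ∈ spectrum ℂ a) : z = (z.re : ℂ) :=
  ha.mem_spectrum_eq_re hz

theorem den_ne {δ : ℝ} (hδ : 0 < δ) (x : ℝ) : (x : ℂ) + δ * I ≠ 0 := by
  intro h
  have := congrArg Complex.im h
  simp at this
  exact hδ.ne' this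

theorem den_cont {a : 𝒜} (ha : IsSelfAdjoint a) {δ : ℝ} (hδ : 0 < δ) :
    ContinuousOn (fun z : ℂ => (z + δ * I)⁻¹) (spectrum ℂ a) := by
  refine ContinuousOn.inv₀ (by fun_prop) fun z hz => ?_
  rw [im_zero ha hz]
  exact den_ne hδ _

/-- The resolvent `(a + iδ)⁻¹`. -/
noncomputable def V (δ : ℝ) (a : 𝒜) : 𝒜 := cfc (fun z : ℂ => (z + δ * I)⁻¹) a

/-- `a + iδ`. -/
noncomputable def Z (δ : ℝ) (a : 𝒜) : 𝒜 := cfc (fun z : ℂ => z + δ * I) a

theorem Z_eq (δ : ℝ) {a : 𝒜} (ha : IsSelfAdjoint a) :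
    Z δ a = a + algebraMap ℂ 𝒜 (δ * I) := by
  have := ha.isStarNormal
  rw [Z, cfc_add_const (δ * I) (fun z : ℂ => z) a, cfc_id' ℂ a]

theorem Z_mul_V {δ : ℝ} (hδ : 0 < δ) {a : 𝒜} (ha : IsSelfAdjoint a) : Z δ a * V δ a = 1 := by
  have := ha.isStarNormal
  rw [Z, V, ← cfc_mul _ _ a (by fun_prop) (den_cont ha hδ), ← cfc_const_one ℂ a]
  refine cfc_congr fun z hz => ?_
  rw [im_zero ha hz]
  exact mul_inv_cancel₀ (den_ne hδ _)

theorem V_mul_Z {δ : ℝ} (hδ : 0 < δ) {a : 𝒜} (ha : IsSelfAdjoint a) : V δ a * Z δ a = 1 := by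
  have := ha.isStarNormal
  rw [Z, V, ← cfc_mul _ _ a (den_cont ha hδ) (by fun_prop), ← cfc_const_one ℂ a]
  refine cfc_congr fun z hz => ?_
  rw [im_zero ha hz]
  exact inv_mul_cancel₀ (den_ne hδ _)

/-- `X = -i (a + iδ)⁻¹`. -/
noncomputable def Xx (δ : ℝ) (a : 𝒜) : 𝒜 := (-I) • V δ a

theorem norm_exp_scalar {δ : ℝ} (hδ : 0 < δ) {u : ℝ} (hu : 0 ≤ u) (x : ℝ) :
    ‖Complex.exp ((u : ℂ) * ((-I) * ((x : ℂ) + δ * I)⁻¹))‖ ≤ 1 := by
  rw [Complex.norm_exp]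
  refine Real.exp_le_one_iff.2 ?_
  have h1 : ((u : ℂ) * ((-I) * ((x : ℂ) + δ * I)⁻¹)).re = -(u * (δ / (x ^ 2 + δ ^ 2))) := by
    have h2 : Complex.normSq ((x : ℂ) + δ * I) = x ^ 2 + δ ^ 2 := by
      rw [Complex.normSq_add_mul_I]
    have h3 : ∀ w : ℂ, ((u : ℂ) * ((-I) * w)).re = u * w.im := fun w => by
      rw [Complex.re_ofReal_mul, neg_mul, Complex.neg_re, Complex.I_mul_re, neg_neg]
    rw [h3, Complex.inv_im, h2]
    simp only [Complex.add_im, Complex.ofReal_im, Complex.mul_im, Complex.ofReal_re, Complex.I_im,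
      Complex.I_re, mul_one, mul_zero, add_zero, zero_add]
    ring
  rw [h1]
  have : 0 ≤ u * (δ / (x ^ 2 + δ ^ 2)) := by positivity
  linarith

theorem exp_eq_cfc {δ : ℝ} (hδ : 0 < δ) {a : 𝒜} (ha : IsSelfAdjoint a) (u : ℝ) :
    exp (u • Xx δ a) = cfc (fun z : ℂ => Complex.exp ((u : ℂ) * ((-I) * (z + δ * I)⁻¹))) a := by
  have := ha.isStarNormal
  have h1 : u • Xx δ a = cfc (fun z : ℂ => (u : ℂ) * ((-I) * (z + δ * I)⁻¹)) a := by
    rw [cfc_const_mul _ _ a (by exact ContinuousOn.mul continuousOn_const (den_cont ha hδ)),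
      cfc_const_mul _ _ a (den_cont ha hδ)]
    rfl
  have h2 : ContinuousOn (fun z : ℂ => (u : ℂ) * ((-I) * (z + δ * I)⁻¹)) (spectrum ℂ a) :=
    continuousOn_const.mul (continuousOn_const.mul (den_cont ha hδ))
  have h3 : IsStarNormal (u • Xx δ a) := by
    rw [h1]; exact cfc_predicate _ a
  rw [← CFC.exp_eq_normedSpace_exp (𝕜 := ℂ) h3, h1]
  rw [← cfc_comp' (NormedSpace.exp : ℂ → ℂ) (fun z : ℂ => (u : ℂ) * ((-I) * (z + δ * I)⁻¹)) a
    (NormedSpace.exp_continuous.continuousOn) h2]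
  refine cfc_congr fun z _ => ?_
  rw [Complex.exp_eq_exp_ℂ]

theorem norm_exp_le {δ : ℝ} (hδ : 0 < δ) {a : 𝒜} (ha : IsSelfAdjoint a) {u : ℝ} (hu : 0 ≤ u) :
    ‖exp (u • Xx δ a)‖ ≤ 1 := by
  have := ha.isStarNormal
  rw [exp_eq_cfc hδ ha]
  refine norm_cfc_le zero_le_one fun z hz => ?_
  rw [im_zero ha hz]
  exact norm_exp_scalar hδ hu _

/-- The key estimate. -/
theorem key {δ : ℝ} (hδ : 0 < δ) {a b : 𝒜} (ha : IsSelfAdjoint a) (hb : IsSelfAdjoint b) :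
    ‖Z δ a * (exp (Xx δ a) - exp (Xx δ b)) * Z δ b‖ ≤ ‖a - b‖ := by
  set X := Xx δ a with hX
  set Y := Xx δ b with hY
  set G : ℝ → 𝒜 := fun s => Z δ a * (exp (s • X) * exp ((1 - s) • Y)) * Z δ b with hG
  have hd : ∀ s : ℝ, HasDerivAt G
      (Z δ a * ((exp (s • X) * X) * exp ((1 - s) • Y) +
        exp (s • X) * (-(Y * exp ((1 - s) • Y)))) * Z δ b) s := by
    intro s
    have h1 : HasDerivAt (fun s : ℝ => exp (s • X)) (exp (s • X) * X) s :=
      hasDerivAt_exp_smul_const X s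
    have h2 : HasDerivAt (fun s : ℝ => exp ((1 - s) • Y)) (-(Y * exp ((1 - s) • Y))) s := by
      have h3 : HasDerivAt (fun s : ℝ => 1 - s) (-1) s := by
        simpa using (hasDerivAt_id s).const_sub 1
      have h4 := (hasDerivAt_exp_smul_const' Y (1 - s)).scomp s h3
      rw [neg_one_smul] at h4
      exact h4
    exact ((h1.mul h2).const_mul (Z δ a)).mul_const (Z δ b)
  have hcomA : Commute (Z δ a) X := by
    rw [hX, Xx]
    refine Commute.smul_right ?_ _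
    change Z δ a * V δ a = V δ a * Z δ a
    rw [Z_mul_V hδ ha, V_mul_Z hδ ha]
  have hcomB : Commute (Z δ b) Y := by
    rw [hY, Xx]
    refine Commute.smul_right ?_ _
    change Z δ b * V δ b = V δ b * Z δ b
    rw [Z_mul_V hδ hb, V_mul_Z hδ hb]
  have hZ : Z δ b - Z δ a = b - a := by
    rw [Z_eq δ ha, Z_eq δ hb]
    abel
  have hXY : X - Y = (-I) • (V δ a * (b - a) * V δ b) := by
    rw [hX, hY, Xx, Xx, ← smul_sub, ← hZ]
    congr 1
    rw [mul_sub, sub_mul, V_mul_Z hδ ha, one_mul, mul_assoc, Z_mul_V hδ hb, mul_one]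
  have hval : ∀ s : ℝ, Z δ a * ((exp (s • X) * X) * exp ((1 - s) • Y) +
        exp (s • X) * (-(Y * exp ((1 - s) • Y)))) * Z δ b =
      (-I) • (exp (s • X) * (b - a) * exp ((1 - s) • Y)) := by
    intro s
    have c1 : Z δ a * exp (s • X) = exp (s • X) * Z δ a :=
      ((hcomA.smul_right s).exp_right).eq
    have c2 : exp ((1 - s) • Y) * Z δ b = Z δ b * exp ((1 - s) • Y) :=
      ((hcomB.smul_right (1 - s)).exp_right).eq.symm
    calc Z δ a * ((exp (s • X) * X) * exp ((1 - s) • Y) +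
        exp (s • X) * (-(Y * exp ((1 - s) • Y)))) * Z δ b
        = (Z δ a * exp (s • X)) * (X - Y) * (exp ((1 - s) • Y) * Z δ b) := by noncomm_ring
      _ = (exp (s • X) * Z δ a) * ((-I) • (V δ a * (b - a) * V δ b)) *
          (Z δ b * exp ((1 - s) • Y)) := by rw [c1, c2, hXY]
      _ = (-I) • (exp (s • X) * (Z δ a * V δ a) * (b - a) * (V δ b * Z δ b) *
          exp ((1 - s) • Y)) := by
          simp only [mul_smul_comm, smul_mul_assoc, mul_assoc]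
      _ = _ := by
          rw [Z_mul_V hδ ha, V_mul_Z hδ hb, mul_one, mul_one]
  have hbd : ∀ s ∈ Set.Ico (0 : ℝ) 1, ‖(-I) • (exp (s • X) * (b - a) * exp ((1 - s) • Y))‖ ≤
      ‖a - b‖ := by
    intro s hs
    rw [norm_smul, norm_neg, Complex.norm_I, one_mul]
    have h1 := norm_exp_le hδ ha hs.1
    have h2 := norm_exp_le hδ hb (by linarith [hs.2] : 0 ≤ 1 - s)
    calc ‖exp (s • X) * (b - a) * exp ((1 - s) • Y)‖
        ≤ ‖exp (s • X)‖ * ‖b - a‖ * ‖exp ((1 - s) • Y)‖ :=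
          (norm_mul_le _ _).trans (mul_le_mul_of_nonneg_right (norm_mul_le _ _) (norm_nonneg _))
      _ ≤ 1 * ‖b - a‖ * 1 := by
          refine mul_le_mul (mul_le_mul_of_nonneg_right h1 (norm_nonneg _)) h2 (norm_nonneg _)
            (by positivity)
      _ = ‖a - b‖ := by rw [one_mul, mul_one, norm_sub_rev]
  have := norm_image_sub_le_of_norm_deriv_le_segment_01' (f := G)
    (fun s _ => (hd s).hasDerivWithinAt) (fun s hs => by rw [hval s]; exact hbd s hs)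
  have e : G 1 - G 0 = Z δ a * (exp X - exp Y) * Z δ b := by
    simp only [hG]
    rw [one_smul, zero_smul, sub_self, zero_smul, sub_zero, one_smul, NormedSpace.exp_zero, mul_one, one_mul]
    noncomm_ring
  rwa [e] at this

/-- `F = Z e^X Z`. -/
theorem F_lip {δ : ℝ} (hδ : 0 < δ) (hδ1 : δ ≤ 1) {a b : 𝒜} (ha : IsSelfAdjoint a)
    (hb : IsSelfAdjoint b) (han : ‖a‖ ≤ 1) (hbn : ‖b‖ ≤ 1) :
    ‖Z δ a * exp (Xx δ a) * Z δ a - Z δ b * exp (Xx δ b) * Z δ b‖ ≤ 5 * ‖a - b‖ := by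
  have hZn : ∀ {a : 𝒜}, IsSelfAdjoint a → ‖a‖ ≤ 1 → ‖Z δ a‖ ≤ 2 := by
    intro a ha han
    have := ha.isStarNormal
    rw [Z_eq δ ha]
    refine (norm_add_le _ _).trans ?_
    have h1 : ‖algebraMap ℂ 𝒜 (δ * I)‖ ≤ 1 := by
      rw [Algebra.algebraMap_eq_smul_one, norm_smul]
      have h2 : ‖(δ * I : ℂ)‖ = δ := by
        rw [norm_mul, Complex.norm_I, mul_one, Complex.norm_real, Real.norm_eq_abs,
          abs_of_pos hδ]
      rw [h2]
      rcases subsingleton_or_nontrivial 𝒜 with h | h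
      · rw [Subsingleton.elim (1 : 𝒜) 0, norm_zero, mul_zero]; exact zero_le_one
      · rw [CStarRing.norm_one, mul_one]; exact hδ1
    linarith
  have hexp : ∀ {a : 𝒜}, IsSelfAdjoint a → ‖exp (Xx δ a)‖ ≤ 1 := fun {a} ha => by
    have := norm_exp_le hδ ha zero_le_one
    rwa [one_smul] at this
  have hZ : Z δ a - Z δ b = a - b := by
    rw [Z_eq δ ha, Z_eq δ hb]
    abel
  have e : Z δ a * exp (Xx δ a) * Z δ a - Z δ b * exp (Xx δ b) * Z δ b =
      Z δ a * exp (Xx δ a) * (a - b) + (a - b) * exp (Xx δ b) * Z δ b +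
        Z δ a * (exp (Xx δ a) - exp (Xx δ b)) * Z δ b := by
    rw [← hZ]
    noncomm_ring
  rw [e]
  refine (norm_add₃_le).trans ?_
  have h1 : ‖Z δ a * exp (Xx δ a) * (a - b)‖ ≤ 2 * ‖a - b‖ := by
    refine (norm_mul_le _ _).trans (mul_le_mul_of_nonneg_right ?_ (norm_nonneg _))
    refine (norm_mul_le _ _).trans ?_
    calc ‖Z δ a‖ * ‖exp (Xx δ a)‖ ≤ 2 * 1 :=
          mul_le_mul (hZn ha han) (hexp ha) (norm_nonneg _) (by norm_num)
      _ = 2 := mul_one 2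
  have h2 : ‖(a - b) * exp (Xx δ b) * Z δ b‖ ≤ 2 * ‖a - b‖ := by
    rw [mul_assoc]
    refine (norm_mul_le _ _).trans ?_
    rw [mul_comm 2]
    refine mul_le_mul_of_nonneg_left ?_ (norm_nonneg _)
    refine (norm_mul_le _ _).trans ?_
    calc ‖exp (Xx δ b)‖ * ‖Z δ b‖ ≤ 1 * 2 :=
          mul_le_mul (hexp hb) (hZn hb hbn) (norm_nonneg _) (by norm_num)
      _ = 2 := one_mul 2
  have h3 := key hδ ha hb
  linarith

end Pool.Agent.X202.OL
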