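import Mathlib
import Pool.Agent.X202.OLip

set_option autoImplicit false

/-!
# `x² sin (1/x)` is operator Lipschitz: the limit
-/

namespace Pool.Agent.X202.OL

open Complex NormedSpace Filter Topology

/-- The scalar function `x² exp(-i/x)`. -/
noncomputable def F0 (x : ℝ) : ℂ := (x : ℂ) * Complex.exp ((-I) * (x : ℂ)⁻¹) * x

/-- `F` at `x + iδ`. -/
noncomputable def Fd (δ : ℝ) (z : ℂ) : ℂ :=
  (z + δ * I) * Complex.exp ((-I) * (z + δ * I)⁻¹) * (z + δ * I)

theorem norm_exp0 (x : ℝ) : ‖Complex.exp ((-I) * (x : ℂ)⁻¹)‖ = 1 := by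
  have : (-I) * (x : ℂ)⁻¹ = ((-x⁻¹ : ℝ) : ℂ) * I := by
    push_cast
    ring
  rw [this, Complex.norm_exp_ofReal_mul_I]

theorem F0_cont : Continuous F0 := by
  rw [continuous_iff_continuousAt]
  intro x
  by_cases hx : x = 0
  · subst hx
    have h0 : F0 0 = 0 := by simp [F0]
    rw [ContinuousAt, h0]
    refine squeeze_zero_norm (a := fun x : ℝ => |x| * |x|) (fun x => ?_) ?_
    · rw [F0, norm_mul, norm_mul, norm_exp0, mul_one, Complex.norm_real, Real.norm_eq_abs]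
    · have : Continuous fun x : ℝ => |x| * |x| := by fun_prop
      have h := this.tendsto 0
      simpa using h
  · have hx' : (x : ℂ) ≠ 0 := by exact_mod_cast hx
    unfold F0
    have h1 : ContinuousAt (fun x : ℝ => (x : ℂ)) x := Complex.continuous_ofReal.continuousAt
    exact (h1.mul ((continuousAt_const.mul (h1.inv₀ hx')).cexp)).mul h1

theorem scalar_close {δ : ℝ} (hδ : 0 < δ) (hδ1 : δ ≤ 1) {x : ℝ} (hx : |x| ≤ 1) :
    ‖Fd δ x - F0 x‖ ≤ 5 * δ := by
  by_cases h0 : x = 0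
  · subst h0
    have h1 := norm_exp_scalar hδ zero_le_one 0
    rw [Complex.ofReal_one, one_mul] at h1
    have h2 : F0 0 = 0 := by simp [F0]
    rw [h2, sub_zero, Fd, norm_mul, norm_mul]
    have h3 : ‖((0 : ℝ) : ℂ) + δ * I‖ = δ := by
      rw [Complex.ofReal_zero, zero_add, norm_mul, Complex.norm_I, mul_one, Complex.norm_real,
        Real.norm_eq_abs, abs_of_pos hδ]
    rw [h3]
    have h4 : δ * ‖Complex.exp ((-I) * (((0 : ℝ) : ℂ) + δ * I)⁻¹)‖ * δ ≤ δ * 1 * δ :=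
      mul_le_mul_of_nonneg_right (mul_le_mul_of_nonneg_left h1 hδ.le) hδ.le
    nlinarith
  · -- mean value inequality along the vertical segment
    set g : ℝ → ℂ := fun s => Fd s x with hg
    have hne : ∀ s : ℝ, (x : ℂ) + s * I ≠ 0 := by
      intro s h
      have := congrArg Complex.re h
      simp at this
      exact h0 this
    have hd : ∀ s : ℝ, HasDerivAt g
        ((2 * I * ((x : ℂ) + s * I) - 1) * Complex.exp ((-I) * ((x : ℂ) + s * I)⁻¹)) s := by
      intro s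
      have h1 : HasDerivAt (fun s : ℝ => (x : ℂ) + s * I) I s := by
        have := ((Complex.ofRealCLM.hasDerivAt (x := s)).mul_const I).const_add (x : ℂ)
        simpa using this
      have h2 : HasDerivAt (fun s : ℝ => Complex.exp ((-I) * ((x : ℂ) + s * I)⁻¹))
          (Complex.exp ((-I) * ((x : ℂ) + s * I)⁻¹) * ((-I) * (-I / ((x : ℂ) + s * I) ^ 2))) s :=
        ((h1.inv (hne s)).const_mul (-I)).cexp
      have h3 := (h1.mul h2).mul h1
      have e : ∀ z E : ℂ, z ≠ 0 → (I * E + z * (E * ((-I) * (-I / z ^ 2)))) * z + (z * E) * I =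
          (2 * I * z - 1) * E := by
        intro z E hz
        have h4 : (-I) * (-I / z ^ 2) = -1 / z ^ 2 := by
          have : (-I) * (-I / z ^ 2) = (I * I) / z ^ 2 := by ring
          rw [this, Complex.I_mul_I]
        rw [h4]
        field_simp
        ring
      exact h3.congr_deriv (e _ _ (hne s))
    have hb : ∀ s ∈ Set.Ico (0 : ℝ) δ,
        ‖(2 * I * ((x : ℂ) + s * I) - 1) * Complex.exp ((-I) * ((x : ℂ) + s * I)⁻¹)‖ ≤ 5 := by
      intro s hs
      have h1 : ‖Complex.exp ((-I) * ((x : ℂ) + s * I)⁻¹)‖ ≤ 1 := by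
        rcases hs.1.eq_or_lt with h2 | h2
        · rw [← h2, Complex.ofReal_zero, zero_mul, add_zero, norm_exp0]
        · have h3 := norm_exp_scalar h2 zero_le_one x
          rwa [Complex.ofReal_one, one_mul] at h3
      have h2 : ‖(2 * I * ((x : ℂ) + s * I) - 1)‖ ≤ 5 := by
        refine (norm_sub_le _ _).trans ?_
        rw [norm_one, norm_mul, norm_mul, Complex.norm_I, mul_one, Complex.norm_ofNat]
        have h3 : ‖(x : ℂ) + s * I‖ ≤ |x| + s := by
          refine (norm_add_le _ _).trans ?_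
          rw [norm_mul, Complex.norm_I, mul_one, Complex.norm_real, Complex.norm_real,
            Real.norm_eq_abs, Real.norm_eq_abs, abs_of_nonneg hs.1]
        linarith [hs.2]
      rw [norm_mul]
      calc _ ≤ 5 * 1 := mul_le_mul h2 h1 (norm_nonneg _) (by norm_num)
        _ = 5 := mul_one 5
    have h4 := norm_image_sub_le_of_norm_deriv_le_segment' (f := g) (a := 0) (b := δ)
      (fun s _ => (hd s).hasDerivWithinAt) hb δ (Set.right_mem_Icc.2 hδ.le)
    have h5 : g 0 = F0 x := by simp [hg, Fd, F0]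
    rw [h5, sub_zero] at h4
    exact h4

variable {𝒜 : Type} [CStarAlgebra 𝒜]

theorem Fd_cont {a : 𝒜} (ha : IsSelfAdjoint a) {δ : ℝ} (hδ : 0 < δ) :
    ContinuousOn (Fd δ) (spectrum ℂ a) := by
  unfold Fd
  have h1 : ContinuousOn (fun z : ℂ => z + δ * I) (spectrum ℂ a) := by fun_prop
  exact (h1.mul ((continuousOn_const.mul (den_cont ha hδ)).cexp)).mul h1

theorem F_eq_cfc {δ : ℝ} (hδ : 0 < δ) {a : 𝒜} (ha : IsSelfAdjoint a) :
    Z δ a * exp (Xx δ a) * Z δ a = cfc (Fd δ) a := by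
  have := ha.isStarNormal
  have h1 : exp (Xx δ a) = cfc (fun z : ℂ => Complex.exp ((-I) * (z + δ * I)⁻¹)) a := by
    have := exp_eq_cfc hδ ha 1
    rw [one_smul] at this
    rw [this]
    refine cfc_congr fun z _ => ?_
    simp
  have h2 : ContinuousOn (fun z : ℂ => z + δ * I) (spectrum ℂ a) := by fun_prop
  have h3 : ContinuousOn (fun z : ℂ => Complex.exp ((-I) * (z + δ * I)⁻¹)) (spectrum ℂ a) :=
    (continuousOn_const.mul (den_cont ha hδ)).cexp
  have e1 := cfc_mul (fun z : ℂ => z + δ * I)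
    (fun z : ℂ => Complex.exp ((-I) * (z + δ * I)⁻¹)) a h2 h3
  have e2 := cfc_mul (fun z : ℂ => (z + δ * I) * Complex.exp ((-I) * (z + δ * I)⁻¹))
    (fun z : ℂ => z + δ * I) a (h2.mul h3) h2
  rw [h1, Z, ← e1, ← e2]
  rfl

/-- The limit operator. -/
noncomputable def P0 (a : 𝒜) : 𝒜 := cfc (fun z : ℂ => F0 z.re) a

theorem F0re_cont (s : Set ℂ) : ContinuousOn (fun z : ℂ => F0 z.re) s :=
  (F0_cont.comp Complex.continuous_re).continuousOn

theorem P0_close {δ : ℝ} (hδ : 0 < δ) (hδ1 : δ ≤ 1) {a : 𝒜} (ha : IsSelfAdjoint a)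
    (han : ‖a‖ ≤ 1) : ‖Z δ a * exp (Xx δ a) * Z δ a - P0 a‖ ≤ 5 * δ := by
  have := ha.isStarNormal
  rw [F_eq_cfc hδ ha, P0, ← cfc_sub _ _ a (Fd_cont ha hδ) (F0re_cont _)]
  refine norm_cfc_le (by positivity) fun z hz => ?_
  have h1 := im_zero ha hz
  have h2 : ‖z‖ ≤ 1 := by
    rcases subsingleton_or_nontrivial 𝒜 with h | h
    · rw [spectrum.of_subsingleton] at hz
      exact absurd hz (Set.notMem_empty _)
    · exact (spectrum.norm_le_norm_of_mem hz).trans han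
  have h3 : |z.re| ≤ 1 := (Complex.abs_re_le_norm z).trans h2
  change ‖Fd δ z - F0 z.re‖ ≤ 5 * δ
  rw [h1]
  exact scalar_close hδ hδ1 h3

theorem P0_lip {a b : 𝒜} (ha : IsSelfAdjoint a) (hb : IsSelfAdjoint b) (han : ‖a‖ ≤ 1)
    (hbn : ‖b‖ ≤ 1) : ‖P0 a - P0 b‖ ≤ 5 * ‖a - b‖ := by
  refine le_of_forall_pos_le_add fun ε hε => ?_
  set δ := min 1 (ε / 10) with hδ
  have hδ0 : 0 < δ := lt_min one_pos (by positivity)
  have hδ1 : δ ≤ 1 := min_le_left _ _
  have h1 := P0_close hδ0 hδ1 ha han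
  have h2 := P0_close hδ0 hδ1 hb hbn
  have h3 := F_lip hδ0 hδ1 ha hb han hbn
  set A := Z δ a * exp (Xx δ a) * Z δ a
  set B := Z δ b * exp (Xx δ b) * Z δ b
  have h4 : P0 a - P0 b = -(A - P0 a) + (A - B) + (B - P0 b) := by abel
  rw [h4]
  refine norm_add₃_le.trans ?_
  rw [norm_neg]
  have h5 : δ ≤ ε / 10 := min_le_right _ _
  linarith

/-- The real function. -/
noncomputable def hh (x : ℝ) : ℝ := x ^ 2 * Real.sin x⁻¹

theorem hh_cont : Continuous hh := by
  have h1 : hh = fun x => -(F0 x).im := by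
    funext x
    have h2 : (-I) * (x : ℂ)⁻¹ = ((-x⁻¹ : ℝ) : ℂ) * I := by
      push_cast
      ring
    have h3 : F0 x = ((x * x : ℝ) : ℂ) * Complex.exp (((-x⁻¹ : ℝ) : ℂ) * I) := by
      rw [F0, h2]
      push_cast
      ring
    rw [h3, Complex.im_ofReal_mul, Complex.exp_ofReal_mul_I_im, Real.sin_neg, hh]
    ring
  rw [h1]
  exact (Complex.continuous_im.comp F0_cont).neg

theorem hh_eq (x : ℝ) : ((hh x : ℝ) : ℂ) = (I / 2) * (F0 x - star (F0 x)) := by
  have h2 : (-I) * (x : ℂ)⁻¹ = ((-x⁻¹ : ℝ) : ℂ) * I := by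
    push_cast
    ring
  have h3 : F0 x = ((x * x : ℝ) : ℂ) * Complex.exp (((-x⁻¹ : ℝ) : ℂ) * I) := by
    rw [F0, h2]
    push_cast
    ring
  have h4 : hh x = -(F0 x).im := by
    rw [h3, Complex.im_ofReal_mul, Complex.exp_ofReal_mul_I_im, Real.sin_neg, hh]
    ring
  rw [h4]
  have h5 := Complex.sub_conj (F0 x)
  rw [Complex.star_def, h5]
  push_cast
  ring_nf
  rw [Complex.I_sq]
  ring

theorem cfc_hh {a : 𝒜} (ha : IsSelfAdjoint a) : cfc hh a = (I / 2) • (P0 a - star (P0 a)) := by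
  have := ha.isStarNormal
  have e1 := cfc_sub (fun z : ℂ => F0 z.re) (fun z : ℂ => star (F0 z.re)) a (F0re_cont _)
    (F0re_cont _).star
  have e2 := cfc_const_mul (I / 2) (fun z : ℂ => F0 z.re - star (F0 z.re)) a
    ((F0re_cont _).sub (F0re_cont _).star)
  rw [cfc_real_eq_complex hh ha, P0, ← cfc_star, ← e1, ← e2]
  refine cfc_congr fun z _ => ?_
  exact hh_eq z.re

theorem hh_lip {a b : 𝒜} (ha : IsSelfAdjoint a) (hb : IsSelfAdjoint b) (han : ‖a‖ ≤ 1)
    (hbn : ‖b‖ ≤ 1) : ‖cfc hh a - cfc hh b‖ ≤ 5 * ‖a - b‖ := by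
  rw [cfc_hh ha, cfc_hh hb, ← smul_sub]
  have h1 : P0 a - star (P0 a) - (P0 b - star (P0 b)) =
      (P0 a - P0 b) - star (P0 a - P0 b) := by
    rw [star_sub]
    abel
  rw [h1, norm_smul]
  have h2 : ‖(I / 2 : ℂ)‖ = 1 / 2 := by
    rw [norm_div, Complex.norm_I, Complex.norm_ofNat]
  rw [h2]
  have h3 := norm_sub_le (P0 a - P0 b) (star (P0 a - P0 b))
  rw [norm_star] at h3
  have h4 := P0_lip ha hb han hbn
  linarith

theorem norm_le_one {a : 𝒜} (ha : IsSelfAdjoint a) (h : spectrum ℝ a ⊆ Set.Icc 0 1) : ‖a‖ ≤ 1 := by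
  rw [← cfc_id ℝ a ha]
  refine norm_cfc_le zero_le_one fun x hx => ?_
  have := h hx
  rw [id, Real.norm_eq_abs, abs_of_nonneg this.1]
  exact this.2

/-- The counterexample function. -/
noncomputable def ff (x : ℝ) : ℝ := x + hh x + x ^ 3

theorem ff_cont : Continuous ff := by
  unfold ff
  exact (continuous_id.add hh_cont).add (continuous_pow 3)

theorem ff_lip {a b : 𝒜} (ha : IsSelfAdjoint a) (hb : IsSelfAdjoint b)
    (h1 : spectrum ℝ a ⊆ Set.Icc 0 1) (h2 : spectrum ℝ b ⊆ Set.Icc 0 1) :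
    ‖cfc ff a - cfc ff b‖ ≤ 9 * ‖a - b‖ := by
  have han := norm_le_one ha h1
  have hbn := norm_le_one hb h2
  have e : ∀ {a : 𝒜}, IsSelfAdjoint a → cfc ff a = a + cfc hh a + a ^ 3 := by
    intro a ha
    have c1 : ContinuousOn hh (spectrum ℝ a) := hh_cont.continuousOn
    have : cfc ff a = cfc (fun x => (x + hh x) + x ^ 3) a := rfl
    rw [this, cfc_add (R := ℝ) a (fun x => x + hh x) (fun x => x ^ 3)
      (continuousOn_id.add c1) (continuousOn_pow 3),
      cfc_add (R := ℝ) a (fun x => x) hh continuousOn_id c1, cfc_id' ℝ a ha,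
      cfc_pow_id a 3 ha]
  rw [e ha, e hb]
  have h3 := hh_lip ha hb han hbn
  have h4 : a + cfc hh a + a ^ 3 - (b + cfc hh b + b ^ 3) =
      (a - b) + (cfc hh a - cfc hh b) + (a ^ 3 - b ^ 3) := by abel
  rw [h4]
  refine norm_add₃_le.trans ?_
  have h5 : ‖a ^ 3 - b ^ 3‖ ≤ 3 * ‖a - b‖ := by
    have h6 : a ^ 3 - b ^ 3 = a * a * (a - b) + a * (a - b) * b + (a - b) * b * b := by
      noncomm_ring
    rw [h6]
    refine norm_add₃_le.trans ?_
    have hn : ∀ x y z : 𝒜, ‖x * y * z‖ ≤ ‖x‖ * ‖y‖ * ‖z‖ := fun x y z =>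
      (norm_mul_le _ _).trans (mul_le_mul_of_nonneg_right (norm_mul_le _ _) (norm_nonneg _))
    have h7 := hn a a (a - b)
    have h8 := hn a (a - b) b
    have h9 := hn (a - b) b b
    have hab := norm_nonneg (a - b)
    have ha0 := norm_nonneg a
    have hb0 := norm_nonneg b
    have i1 : ‖a‖ * ‖a‖ * ‖a - b‖ ≤ 1 * ‖a - b‖ :=
      mul_le_mul_of_nonneg_right (by nlinarith) hab
    have i2 : ‖a‖ * ‖a - b‖ * ‖b‖ ≤ 1 * ‖a - b‖ := by
      calc ‖a‖ * ‖a - b‖ * ‖b‖ = (‖a‖ * ‖b‖) * ‖a - b‖ := by ring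
        _ ≤ 1 * ‖a - b‖ := mul_le_mul_of_nonneg_right (by nlinarith) hab
    have i3 : ‖a - b‖ * ‖b‖ * ‖b‖ ≤ 1 * ‖a - b‖ := by
      calc ‖a - b‖ * ‖b‖ * ‖b‖ = (‖b‖ * ‖b‖) * ‖a - b‖ := by ring
        _ ≤ 1 * ‖a - b‖ := mul_le_mul_of_nonneg_right (by nlinarith) hab
    linarith
  linarith

end Pool.Agent.X202.OL
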