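import Mathlib

set_option autoImplicit false

/-!
# Haar (Olevskii) matrices
-/

open Finset Matrix

namespace Pool.Agent.X202

/-- The block step of the construction of the Haar matrices. -/
def haarStep {I : Type} [DecidableEq I] (i0 : I) (c : ℝ) (A : I → I → ℝ) :
    I ⊕ I → I ⊕ I → ℝ :=
  fun r s => match r, s with
    | Sum.inl k, Sum.inl l => if l = i0 then c * A k i0 else A k l
    | Sum.inl k, Sum.inr l => if l = i0 then c * A k i0 else 0
    | Sum.inr k, Sum.inl l => if l = i0 then c * A k i0 else 0
    | Sum.inr k, Sum.inr l => if l = i0 then -(c * A k i0) else A k l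

/-- Haar matrices on abstract index types. -/
theorem exists_haar (c : ℝ) (hc : 2 * c ^ 2 = 1) (hc0 : 0 < c) (N : ℕ) :
    ∃ (I : Type) (_ : Fintype I) (_ : DecidableEq I) (i0 : I) (A : I → I → ℝ),
      (∀ k k', ∑ l, A k l * A k' l = if k = k' then 1 else 0) ∧
      (∀ k, A k i0 = c ^ N) ∧
      ∀ k, ∑ l ∈ univ.erase i0, |A k l| ≤ ∑ t ∈ range N, c ^ (t + 1) := by
  induction N with
  | zero =>
    refine ⟨Unit, inferInstance, inferInstance, (), fun _ _ => 1, fun k k' => by simp,
      fun k => by simp, fun k => ?_⟩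
    have : (univ.erase () : Finset Unit) = ∅ := by ext ⟨⟩; simp
    rw [this]; simp
  | succ N ih =>
    obtain ⟨I, _, _, i0, A, h1, h2, h3⟩ := ih
    refine ⟨I ⊕ I, inferInstance, inferInstance, Sum.inl i0, haarStep i0 c A, ?_, ?_, ?_⟩
    · have hsplit : ∀ g : I → ℝ, ∑ l, g l = g i0 + ∑ l ∈ univ.erase i0, g l := fun g =>
        (Finset.add_sum_erase univ g (mem_univ i0)).symm
      have hne : ∀ {g g' : I → ℝ}, (∀ l, l ≠ i0 → g l = g' l) →
          ∑ l ∈ univ.erase i0, g l = ∑ l ∈ univ.erase i0, g' l := fun {g g'} H =>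
        Finset.sum_congr rfl fun l hl => H l (Finset.ne_of_mem_erase hl)
      have hA := h1
      intro r r'
      rw [Fintype.sum_sum_type, hsplit, hsplit]
      rcases r with k | k <;> rcases r' with k' | k'
      · simp only [haarStep, if_true]
        rw [hne (g := fun l => (if l = i0 then c * A k i0 else A k l) *
          (if l = i0 then c * A k' i0 else A k' l)) (g' := fun l => A k l * A k' l)
          (fun l hl => by rw [if_neg hl, if_neg hl]),
          hne (g := fun l => (if l = i0 then c * A k i0 else 0) *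
          (if l = i0 then c * A k' i0 else 0)) (g' := fun l => 0)
          (fun l hl => by rw [if_neg hl, zero_mul])]
        have h4 := hA k k'
        rw [hsplit] at h4
        rw [Finset.sum_const_zero]
        simp only [Sum.inl.injEq]
        rw [← h4]
        linear_combination (A k i0 * A k' i0) * hc
      · simp only [haarStep, if_true]
        rw [hne (g := fun l => (if l = i0 then c * A k i0 else A k l) *
          (if l = i0 then c * A k' i0 else 0)) (g' := fun l => 0)
          (fun l hl => by rw [if_neg hl, if_neg hl, mul_zero]),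
          hne (g := fun l => (if l = i0 then c * A k i0 else 0) *
          (if l = i0 then -(c * A k' i0) else A k' l)) (g' := fun l => 0)
          (fun l hl => by rw [if_neg hl, zero_mul])]
        rw [Finset.sum_const_zero, if_neg (by simp)]
        ring
      · simp only [haarStep, if_true]
        rw [hne (g := fun l => (if l = i0 then c * A k i0 else 0) *
          (if l = i0 then c * A k' i0 else A k' l)) (g' := fun l => 0)
          (fun l hl => by rw [if_neg hl, zero_mul]),
          hne (g := fun l => (if l = i0 then -(c * A k i0) else A k l) *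
          (if l = i0 then c * A k' i0 else 0)) (g' := fun l => 0)
          (fun l hl => by rw [if_neg hl, if_neg hl, mul_zero])]
        rw [Finset.sum_const_zero, if_neg (by simp)]
        ring
      · simp only [haarStep, if_true]
        rw [hne (g := fun l => (if l = i0 then c * A k i0 else 0) *
          (if l = i0 then c * A k' i0 else 0)) (g' := fun l => 0)
          (fun l hl => by rw [if_neg hl, zero_mul]),
          hne (g := fun l => (if l = i0 then -(c * A k i0) else A k l) *
          (if l = i0 then -(c * A k' i0) else A k' l)) (g' := fun l => A k l * A k' l)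
          (fun l hl => by rw [if_neg hl, if_neg hl])]
        have h4 := hA k k'
        rw [hsplit] at h4
        rw [Finset.sum_const_zero]
        simp only [Sum.inr.injEq]
        rw [← h4]
        linear_combination (A k i0 * A k' i0) * hc
    · rintro (k | k)
      · simp only [haarStep, if_true]
        rw [h2, pow_succ]; ring
      · simp only [haarStep, if_true]
        rw [h2, pow_succ]; ring
    · have hsum : ∀ g : I ⊕ I → ℝ, ∑ l ∈ univ.erase (Sum.inl i0 : I ⊕ I), g l =
          ∑ l ∈ univ.erase i0, g (Sum.inl l) + (g (Sum.inr i0) + ∑ l ∈ univ.erase i0, g (Sum.inr l)) := by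
        intro g
        have e1 := Finset.add_sum_erase univ g (mem_univ (Sum.inl i0 : I ⊕ I))
        rw [Fintype.sum_sum_type] at e1
        have e2 := Finset.add_sum_erase univ (fun l => g (Sum.inl l)) (mem_univ i0)
        have e3 := Finset.add_sum_erase univ (fun l => g (Sum.inr l)) (mem_univ i0)
        linarith
      have hne : ∀ {g g' : I → ℝ}, (∀ l, l ≠ i0 → g l = g' l) →
          ∑ l ∈ univ.erase i0, g l = ∑ l ∈ univ.erase i0, g' l := fun {g g'} H =>
        Finset.sum_congr rfl fun l hl => H l (Finset.ne_of_mem_erase hl)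
      rintro (k | k)
      · rw [hsum]
        simp only [haarStep, if_true]
        rw [hne (g := fun l => |if l = i0 then c * A k i0 else A k l|) (g' := fun l => |A k l|)
          (fun l hl => by rw [if_neg hl]),
          hne (g := fun l => |if l = i0 then c * A k i0 else 0|) (g' := fun l => 0)
          (fun l hl => by rw [if_neg hl, abs_zero])]
        rw [Finset.sum_const_zero, h2, Finset.sum_range_succ, abs_of_nonneg (by positivity)]
        have := h3 k
        rw [pow_succ]
        linarith
      · rw [hsum]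
        simp only [haarStep, if_true]
        rw [hne (g := fun l => |if l = i0 then c * A k i0 else 0|) (g' := fun l => 0)
          (fun l hl => by rw [if_neg hl, abs_zero]),
          hne (g := fun l => |if l = i0 then -(c * A k i0) else A k l|) (g' := fun l => |A k l|)
          (fun l hl => by rw [if_neg hl])]
        rw [Finset.sum_const_zero, h2, Finset.sum_range_succ, abs_neg, abs_of_nonneg (by positivity)]
        have := h3 k
        rw [pow_succ]
        linarith

/-- Olevskii matrices: for every `δ > 0` there is a real orthogonal matrix of some size `n ≥ 1` whose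
first column has entries at most `δ`, the other entries of each row having absolute sum at
most `3`. -/
theorem exists_olevskii (δ : ℝ) (hδ : 0 < δ) :
    ∃ (n : ℕ) (A : ℕ → ℕ → ℝ), 0 < n ∧
      (∀ k < n, ∀ k' < n, ∑ l ∈ range n, A k l * A k' l = if k = k' then 1 else 0) ∧
      (∀ l < n, ∀ l' < n, ∑ k ∈ range n, A k l * A k l' = if l = l' then 1 else 0) ∧
      (∀ k < n, |A k 0| ≤ δ) ∧
      (∀ k < n, ∑ l ∈ (range n).erase 0, |A k l| ≤ 3) := by
  set c : ℝ := 1 / Real.sqrt 2 with hc
  have hc0 : 0 < c := by positivity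
  have hcc : 2 * c ^ 2 = 1 := by
    rw [hc, div_pow, Real.sq_sqrt (by norm_num)]
    norm_num
  have hc1 : c < 3 / 4 := by
    by_contra h
    push Not at h
    nlinarith
  obtain ⟨N, hN⟩ := exists_pow_lt_of_lt_one hδ (by linarith : c < 1)
  obtain ⟨I, _, _, i0, A, h1, h2, h3⟩ := exists_haar c hcc hc0 N
  have hcard : 0 < Fintype.card I := Fintype.card_pos_iff.2 ⟨i0⟩
  set n := Fintype.card I with hn
  let e0 : I ≃ Fin n := Fintype.equivFin I
  let e : I ≃ Fin n := e0.trans (Equiv.swap (e0 i0) ⟨0, hcard⟩)
  have he0 : e.symm ⟨0, hcard⟩ = i0 := by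
    rw [Equiv.symm_apply_eq]
    simp [e]
  let B : ℕ → ℕ → ℝ := fun k l => if h : k < n ∧ l < n then A (e.symm ⟨k, h.1⟩) (e.symm ⟨l, h.2⟩) else 0
  have hB : ∀ k l (hk : k < n) (hl : l < n), B k l = A (e.symm ⟨k, hk⟩) (e.symm ⟨l, hl⟩) := by
    intro k l hk hl
    simp only [B]
    rw [dif_pos ⟨hk, hl⟩]
  have hsumI : ∀ g : ℕ → ℝ, ∀ g' : I → ℝ, (∀ l (hl : l < n), g l = g' (e.symm ⟨l, hl⟩)) →
      ∑ l ∈ range n, g l = ∑ i, g' i := by
    intro g g' H
    rw [← Equiv.sum_comp e.symm g', Finset.sum_range]
    exact Finset.sum_congr rfl fun l _ => H l l.2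
  have hcol : ∀ l l', ∑ k, A k l * A k l' = if l = l' then 1 else 0 := by
    have h4 : Matrix.of A * (Matrix.of A)ᵀ = 1 := by
      ext k k'
      rw [Matrix.mul_apply, Matrix.one_apply]
      simpa [Matrix.transpose_apply] using h1 k k'
    have h5 : (Matrix.of A)ᵀ * Matrix.of A = 1 := mul_eq_one_comm.1 h4
    intro l l'
    have h6 := congrFun (congrFun h5 l) l'
    rw [Matrix.mul_apply, Matrix.one_apply] at h6
    simpa [Matrix.transpose_apply] using h6
  refine ⟨n, B, hcard, fun k hk k' hk' => ?_, fun l hl l' hl' => ?_, fun k hk => ?_, fun k hk => ?_⟩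
  · rw [hsumI _ (fun i => A (e.symm ⟨k, hk⟩) i * A (e.symm ⟨k', hk'⟩) i)
      (fun l hl => by rw [hB k l hk hl, hB k' l hk' hl]), h1]
    simp only [EmbeddingLike.apply_eq_iff_eq, Fin.mk.injEq]
  · rw [hsumI _ (fun i => A i (e.symm ⟨l, hl⟩) * A i (e.symm ⟨l', hl'⟩))
      (fun k hk => by rw [hB k l hk hl, hB k l' hk hl']), hcol]
    simp only [EmbeddingLike.apply_eq_iff_eq, Fin.mk.injEq]
  · rw [hB k 0 hk hcard, he0, h2, abs_of_nonneg (by positivity)]
    exact hN.le
  · have h4 := Finset.add_sum_erase (range n) (fun l => |B k l|) (Finset.mem_range.2 hcard)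
    have h5 := Finset.add_sum_erase univ (fun i => |A (e.symm ⟨k, hk⟩) i|) (mem_univ i0)
    have h6 : ∑ l ∈ range n, |B k l| = ∑ i, |A (e.symm ⟨k, hk⟩) i| :=
      hsumI _ _ fun l hl => by rw [hB k l hk hl]
    have h7 : |B k 0| = |A (e.symm ⟨k, hk⟩) i0| := by rw [hB k 0 hk hcard, he0]
    have h8 : ∑ l ∈ (range n).erase 0, |B k l| = ∑ l ∈ univ.erase i0, |A (e.symm ⟨k, hk⟩) l| := by
      linarith
    rw [h8]
    refine (h3 _).trans ?_
    have h9 : ∀ M : ℕ, ∑ t ∈ range M, c ^ (t + 1) ≤ 3 - 3 * (3 / 4) ^ M := by
      intro M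
      induction M with
      | zero => simp
      | succ M ih =>
        rw [Finset.sum_range_succ]
        have h10 : c ^ (M + 1) ≤ (3 / 4) ^ (M + 1) := pow_le_pow_left₀ hc0.le hc1.le _
        have h11 : (3 / 4 : ℝ) ^ (M + 1) = 3 / 4 * (3 / 4) ^ M := by rw [pow_succ]; ring
        rw [h11] at h10
        rw [h11]
        linarith
    have h12 : (0 : ℝ) ≤ (3 / 4) ^ N := by positivity
    have := h9 N
    linarith

end Pool.Agent.X202
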