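import Mathlib

/-!
# The space `ℓ¹(κ)`: coordinate projections, rank one projections, approximants
-/

open Filter Topology Set

namespace PG

/-- `ℓ¹(κ)`. -/
abbrev L1 (κ : Type) : Type := lp (fun _ : κ => ℝ) 1

variable {κ : Type}

/-- the unit vector `e_i`. -/
noncomputable def e [DecidableEq κ] (i : κ) : L1 κ := lp.single 1 i (1 : ℝ)

lemma e_apply [DecidableEq κ] (i j : κ) : (e i : L1 κ) j = if j = i then 1 else 0 := by
  unfold e
  by_cases h : j = i
  · subst h; simp
  · rw [lp.single_apply_ne _ _ _ h]; simp [h]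

lemma norm_e [DecidableEq κ] (i : κ) : ‖(e i : L1 κ)‖ = 1 := by
  unfold e
  rw [lp.norm_single (by norm_num)]; simp

lemma hasSum_e [DecidableEq κ] (x : L1 κ) : HasSum (fun i => x i • e i) x := by
  have h := lp.hasSum_single (p := 1) (by norm_num) x
  have he : (fun i => x i • e i) = fun i => lp.single 1 i (x i) := by
    funext i
    unfold e
    rw [← lp.single_smul]; simp
  rw [he]; exact h

lemma summable_coe (x : L1 κ) : Summable (fun i => x i) := (lp.memℓp x).summable_of_one

lemma summable_abs (x : L1 κ) : Summable (fun i => |x i|) := (summable_coe x).abs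

lemma norm_eq (x : L1 κ) : ‖x‖ = ∑' i, |x i| := by
  rw [lp.norm_eq_tsum_rpow (by norm_num)]
  simp

/-- a functional bounded by `M` on the unit vectors has norm at most `M`. -/
lemma abs_le_of_basis [DecidableEq κ] (f : StrongDual ℝ (L1 κ)) (M : ℝ)
    (h : ∀ i, |f (e i)| ≤ M) (x : L1 κ) : |f x| ≤ M * ‖x‖ := by
  have h1 : HasSum (fun i => x i * f (e i)) (f x) := by
    have := (hasSum_e x).mapL f
    simpa using this
  have h2 : Summable (fun i => |x i| * M) := (summable_abs x).mul_right M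
  have h3 : ∀ i, ‖x i * f (e i)‖ ≤ |x i| * M := by
    intro i
    rw [Real.norm_eq_abs, abs_mul]
    exact mul_le_mul_of_nonneg_left (h i) (abs_nonneg _)
  have h4 := tsum_of_norm_bounded h2.hasSum h3
  rw [h1.tsum_eq] at h4
  rw [tsum_mul_right] at h4
  rw [norm_eq, mul_comm M]
  exact h4

lemma eq_zero_of_basis [DecidableEq κ] (f : StrongDual ℝ (L1 κ)) (h : ∀ i, f (e i) = 0) :
    f = 0 := by
  ext x
  have := abs_le_of_basis f 0 (fun i => by simp [h i]) x
  simp at this
  simpa using this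

/-- two functionals agreeing on the unit vectors are equal -/
lemma ext_basis [DecidableEq κ] (f g : StrongDual ℝ (L1 κ)) (h : ∀ i, f (e i) = g (e i)) :
    f = g := by
  have := eq_zero_of_basis (f - g) (fun i => by simp [h i])
  exact sub_eq_zero.1 this

open Classical in
/-- coordinate projection onto the coordinates in `C`. -/
noncomputable def proj (C : Set κ) : L1 κ →L[ℝ] L1 κ :=
  LinearMap.mkContinuous
    { toFun := fun x => ⟨fun i => if i ∈ C then x i else 0,
        (lp.memℓp x).mono' (fun i => by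
          by_cases h : i ∈ C <;> simp [h])⟩
      map_add' := by
        intro x y
        ext i
        by_cases h : i ∈ C <;> simp [h]
      map_smul' := by
        intro c x
        ext i
        by_cases h : i ∈ C <;> simp [h] } 1 (by
      intro x
      rw [one_mul]
      apply lp.norm_mono (by norm_num)
      intro i
      by_cases h : i ∈ C <;> simp [h])

open Classical in
lemma proj_apply (C : Set κ) (x : L1 κ) (i : κ) : proj C x i = if i ∈ C then x i else 0 := rfl

lemma norm_proj_le (C : Set κ) : ‖proj C‖ ≤ 1 := by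
  unfold proj
  exact LinearMap.mkContinuous_norm_le _ (by norm_num) _

lemma proj_proj (C D : Set κ) (x : L1 κ) (h : C ⊆ D) : proj C (proj D x) = proj C x := by
  ext i
  simp only [proj_apply]
  by_cases hC : i ∈ C
  · simp [hC, h hC]
  · simp [hC]

lemma proj_proj' (C D : Set κ) (x : L1 κ) (h : C ⊆ D) : proj D (proj C x) = proj C x := by
  ext i
  simp only [proj_apply]
  by_cases hC : i ∈ C
  · simp [hC, h hC]
  · simp [hC]

lemma proj_e [DecidableEq κ] (C : Set κ) (i : κ) (h : i ∈ C) : proj C (e i) = e i := by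
  ext j
  rw [proj_apply, e_apply]
  by_cases hj : j = i
  · subst hj; simp [h]
  · simp [hj]

lemma proj_e' [DecidableEq κ] (C : Set κ) (i : κ) (h : i ∉ C) : proj C (e i) = 0 := by
  ext j
  rw [proj_apply, e_apply]
  by_cases hj : j = i
  · subst hj; simp [h]
  · simp [hj]

/-- if `x` is supported in the increasing union of the sets `C n`, it is a limit of vectors
supported in some `C n`. -/
lemma mem_closure_of_union (C : ℕ → Set κ) (hC : Monotone C) (x : L1 κ)
    (hx : proj (⋃ n, C n) x = x) (N : ℕ) :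
    x ∈ closure (⋃ n, ⋃ (_ : N ≤ n), Set.range (proj (C n))) := by
  classical
  have h := hasSum_e x
  apply mem_closure_of_tendsto h
  refine Eventually.of_forall fun F => ?_
  -- the finitely many coordinates of `F` in the union lie in a single `C n`
  have key : ∃ n, N ≤ n ∧ ∀ i ∈ F, i ∈ (⋃ n, C n) → i ∈ C n := by
    induction F using Finset.induction_on with
    | empty => exact ⟨N, le_rfl, by simp⟩
    | insert a F ha ih =>
      obtain ⟨n, hn, hF⟩ := ih
      by_cases hau : a ∈ ⋃ n, C n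
      · obtain ⟨m, hm⟩ := Set.mem_iUnion.1 hau
        refine ⟨max n m, hn.trans (le_max_left _ _), ?_⟩
        intro i hi hiu
        rcases Finset.mem_insert.1 hi with rfl | hi
        · exact hC (le_max_right _ _) hm
        · exact hC (le_max_left _ _) (hF i hi hiu)
      · refine ⟨n, hn, ?_⟩
        intro i hi hiu
        rcases Finset.mem_insert.1 hi with rfl | hi
        · exact absurd hiu hau
        · exact hF i hi hiu
  obtain ⟨n, hn, hF⟩ := key
  refine Set.mem_iUnion₂.2 ⟨n, hn, ?_⟩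
  refine ⟨∑ i ∈ F, x i • e i, ?_⟩
  rw [map_sum]
  apply Finset.sum_congr rfl
  intro i hi
  by_cases hiu : i ∈ ⋃ n, C n
  · rw [map_smul, proj_e _ _ (hF i hi hiu)]
  · have : x i = 0 := by
      rw [← hx, proj_apply]; simp only [hiu, if_false]
    simp [this]

lemma isSeparable_range_proj (C : Set κ) (hC : C.Countable) :
    TopologicalSpace.IsSeparable (Set.range (proj C)) := by
  classical
  have h1 : TopologicalSpace.IsSeparable
      (closure (Submodule.span ℝ ((fun i => (e i : L1 κ)) '' C) : Set (L1 κ))) :=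
    ((hC.image _).isSeparable.span (R := ℝ)).closure
  refine h1.mono ?_
  rintro _ ⟨x, rfl⟩
  apply mem_closure_of_tendsto (hasSum_e (proj C x))
  refine Eventually.of_forall fun F => ?_
  apply Submodule.sum_mem
  intro i _
  by_cases hi : i ∈ C
  · exact Submodule.smul_mem _ _ (Submodule.subset_span ⟨i, hi, rfl⟩)
  · rw [proj_apply]; simp [hi]

lemma support_countable (x : L1 κ) : ∃ C : Set κ, C.Countable ∧ proj C x = x := by
  classical
  refine ⟨Function.support (fun i => x i), (summable_coe x).countable_support, ?_⟩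
  ext i
  rw [proj_apply]
  by_cases hi : x i = 0
  · simp [hi]
  · simp [hi]

/-! ### the functionals `x ↦ ∑_{i ∈ T} x_i` -/

/-- sum over the coordinates in `T`. -/
noncomputable def sumOn (T : Set κ) : StrongDual ℝ (L1 κ) := (lp.tsumCLM ℝ κ ℝ).comp (proj T)

lemma sumOn_e_mem [DecidableEq κ] (T : Set κ) (i : κ) (h : i ∈ T) : sumOn T (e i) = 1 := by
  unfold sumOn
  rw [ContinuousLinearMap.comp_apply, proj_e _ _ h]
  rw [lp.tsumCLM_apply, tsum_eq_single i]
  · simp [e_apply]
  · intro j hj; simp [e_apply, hj]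

lemma sumOn_e_notMem [DecidableEq κ] (T : Set κ) (i : κ) (h : i ∉ T) : sumOn T (e i) = 0 := by
  unfold sumOn
  rw [ContinuousLinearMap.comp_apply, proj_e' _ _ h]
  simp


open Classical in
lemma sumOn_apply (T : Set κ) (x : L1 κ) : sumOn T x = ∑' i, if i ∈ T then x i else 0 := by
  unfold sumOn
  rw [ContinuousLinearMap.comp_apply, lp.tsumCLM_apply]
  rfl

/-- the set `{ℓ 0} ∪ {ℓ n : n ≥ N}`. -/
def tailSet (l : ℕ → κ) (N : ℕ) : Set κ := {i | i = l 0 ∨ ∃ n, N ≤ n ∧ i = l n}

lemma tendsto_sumOn (l : ℕ → κ) (hl : Function.Injective l) (x : L1 κ) :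
    Tendsto (fun N => sumOn (tailSet l N) x) atTop (𝓝 (x (l 0))) := by
  classical
  have h0 : x (l 0) = ∑' i, if i = l 0 then x i else 0 := by
    rw [tsum_eq_single (l 0)]
    · simp
    · intro j hj; simp [hj]
  rw [h0]
  have h1 : (fun N => sumOn (tailSet l N) x) =
      fun N => ∑' i, if i ∈ tailSet l N then x i else 0 := by
    funext N; rw [sumOn_apply]
  rw [h1]
  apply tendsto_tsum_of_dominated_convergence (bound := fun i => |x i|) (summable_abs x)
  · intro i
    apply tendsto_const_nhds.congr'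
    by_cases hi : ∃ m, i = l m
    · obtain ⟨m, rfl⟩ := hi
      filter_upwards [eventually_gt_atTop m] with N hN
      by_cases hm : m = 0
      · subst hm; simp [tailSet]
      · have h2 : l m ≠ l 0 := fun h => hm (hl h)
        have h3 : l m ∉ tailSet l N := by
          rintro (h | ⟨n, hn, h⟩)
          · exact h2 h
          · have := hl h; omega
        simp [h2, h3]
    · refine Eventually.of_forall fun N => ?_
      have h2 : i ≠ l 0 := fun h => hi ⟨0, h⟩
      have h3 : i ∉ tailSet l N := by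
        rintro (h | ⟨n, hn, h⟩)
        · exact h2 h
        · exact hi ⟨n, h⟩
      simp [h2, h3]
  · refine Eventually.of_forall fun N i => ?_
    by_cases h : i ∈ tailSet l N <;> simp [h]

/-- the functionals supported on the range of `l` which are eventually constant along `l`, with
eventual value the value at `l 0`. -/
def A (κ : Type) [DecidableEq κ] (l : ℕ → κ) : Submodule ℝ (StrongDual ℝ (L1 κ)) where
  carrier := {f | (∀ i, i ∉ Set.range l → f (e i) = 0) ∧
    ∃ N, ∀ n, N ≤ n → f (e (l n)) = f (e (l 0))}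
  add_mem' := by
    rintro f g ⟨hf, Nf, hf'⟩ ⟨hg, Ng, hg'⟩
    refine ⟨fun i hi => by simp [hf i hi, hg i hi], max Nf Ng, fun n hn => ?_⟩
    simp [hf' n ((le_max_left _ _).trans hn), hg' n ((le_max_right _ _).trans hn)]
  zero_mem' := ⟨fun i _ => by simp, 0, fun n _ => by simp⟩
  smul_mem' := by
    rintro c f ⟨hf, Nf, hf'⟩
    refine ⟨fun i hi => by simp [hf i hi], Nf, fun n hn => ?_⟩
    simp [hf' n hn]

lemma mem_A [DecidableEq κ] (l : ℕ → κ) (f : StrongDual ℝ (L1 κ)) : f ∈ A κ l ↔
    (∀ i, i ∉ Set.range l → f (e i) = 0) ∧ ∃ N, ∀ n, N ≤ n → f (e (l n)) = f (e (l 0)) :=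
  Iff.rfl

lemma sumOn_mem_A [DecidableEq κ] (l : ℕ → κ) (N : ℕ) : sumOn (tailSet l N) ∈ A κ l := by
  refine ⟨fun i hi => ?_, N, fun n hn => ?_⟩
  · apply sumOn_e_notMem
    rintro (h | ⟨n, hn, h⟩)
    · exact hi ⟨0, h.symm⟩
    · exact hi ⟨n, h.symm⟩
  · rw [sumOn_e_mem (tailSet l N) (l n) (Or.inr ⟨n, hn, rfl⟩),
      sumOn_e_mem (tailSet l N) (l 0) (Or.inl rfl)]

/-- every nonzero member of `A` attains the maximum of its coordinates at some `l n`, `n ≥ 1`. -/
lemma exists_max [DecidableEq κ] (l : ℕ → κ) (f : StrongDual ℝ (L1 κ)) (hf : f ∈ A κ l)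
    (h0 : f ≠ 0) : ∃ n, 1 ≤ n ∧ f (e (l n)) ≠ 0 ∧ ∀ i, |f (e i)| ≤ |f (e (l n))| := by
  obtain ⟨hf1, N, hf2⟩ := hf
  obtain ⟨n, hn, hmax⟩ := Finset.exists_max_image (Finset.Icc 1 (N + 1))
    (fun m => |f (e (l m))|) ⟨1, by simp⟩
  rw [Finset.mem_Icc] at hn
  have hN1 : |f (e (l (N + 1)))| ≤ |f (e (l n))| := hmax (N + 1) (by simp)
  have hall : ∀ m, |f (e (l m))| ≤ |f (e (l n))| := by
    intro m
    by_cases hm0 : m = 0
    · subst hm0
      rw [← hf2 (N + 1) (by omega)]
      exact hN1
    · by_cases hm : m ≤ N + 1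
      · exact hmax m (by simp; omega)
      · rw [hf2 m (by omega), ← hf2 (N + 1) (by omega)]
        exact hN1
  have hall' : ∀ i, |f (e i)| ≤ |f (e (l n))| := by
    intro i
    by_cases hi : i ∈ Set.range l
    · obtain ⟨m, rfl⟩ := hi; exact hall m
    · rw [hf1 i hi]; simp
  refine ⟨n, hn.1, ?_, hall'⟩
  intro h
  apply h0
  apply eq_zero_of_basis
  intro i
  have := hall' i
  rw [h] at this
  simpa using this

/-- the rank one operator `x ↦ (f x / f (e_i)) e_i`. -/
noncomputable def rk [DecidableEq κ] (f : StrongDual ℝ (L1 κ)) (i : κ) : L1 κ →L[ℝ] L1 κ :=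
  (f (e i))⁻¹ • f.smulRight (e i)

lemma rk_apply [DecidableEq κ] (f : StrongDual ℝ (L1 κ)) (i : κ) (x : L1 κ) :
    rk f i x = ((f (e i))⁻¹ * f x) • e i := by
  simp [rk, smul_smul]

lemma f_rk [DecidableEq κ] (f : StrongDual ℝ (L1 κ)) (i : κ) (h : f (e i) ≠ 0) (x : L1 κ) :
    f (rk f i x) = f x := by
  rw [rk_apply]; simp; field_simp

lemma rk_rk [DecidableEq κ] (f : StrongDual ℝ (L1 κ)) (i : κ) (h : f (e i) ≠ 0) (x : L1 κ) :
    rk f i (rk f i x) = rk f i x := by
  rw [rk_apply f i (rk f i x), f_rk f i h, rk_apply]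

lemma norm_rk_le [DecidableEq κ] (f : StrongDual ℝ (L1 κ)) (i : κ) (h : f (e i) ≠ 0)
    (hmax : ∀ j, |f (e j)| ≤ |f (e i)|) : ‖rk f i‖ ≤ 1 := by
  apply ContinuousLinearMap.opNorm_le_bound _ zero_le_one
  intro x
  rw [rk_apply, norm_smul, norm_e, mul_one, one_mul, norm_mul, norm_inv, Real.norm_eq_abs,
    Real.norm_eq_abs, inv_mul_le_iff₀ (abs_pos.2 h)]
  exact abs_le_of_basis f _ hmax x

lemma range_rk_coord [DecidableEq κ] (f : StrongDual ℝ (L1 κ)) (i j : κ) (hij : j ≠ i)
    (x : L1 κ) : (rk f i x : L1 κ) j = 0 := by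
  rw [rk_apply, lp.coeFn_smul, Pi.smul_apply, e_apply]
  simp [hij]

end PG
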