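import Mathlib

set_option autoImplicit false

/-!
# Sobczyk's theorem for sequences of functionals
-/

open Filter Topology

namespace Pool.Agent.X202

variable {𝕜 E : Type*} [RCLike 𝕜] [NormedAddCommGroup E] [NormedSpace 𝕜 E]

/-- Sobczyk: a bounded sequence of functionals which tends to zero pointwise on a subspace `G` can
be changed off `G` so that it tends to zero pointwise everywhere. -/
theorem sobczyk_seq [TopologicalSpace.SeparableSpace E] (G : Submodule 𝕜 E)
    (f : ℕ → StrongDual 𝕜 E) {C : ℝ} (hC0 : 0 < C) (hf1 : ∀ n, ‖f n‖ ≤ C)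
    (hf2 : ∀ g ∈ G, Tendsto (fun n => f n g) atTop (𝓝 0)) :
    ∃ q : ℕ → StrongDual 𝕜 E, (∀ n, ‖q n‖ ≤ C + C) ∧ (∀ n, ∀ g ∈ G, q n g = f n g) ∧
      ∀ v, Tendsto (fun n => q n v) atTop (𝓝 0) := by
  set x : ℕ → E := TopologicalSpace.denseSeq E with hx
  have hxd : DenseRange x := TopologicalSpace.denseRange_denseSeq E
  set a : ℕ → ℝ := fun j => (1 / 2) ^ j / (1 + ‖x j‖) with ha
  have hapos : ∀ j, 0 < a j := fun j => by simp only [ha]; positivity
  have hterm : ∀ (h : StrongDual 𝕜 E) (M : ℝ), ‖h‖ ≤ M → ∀ j, a j * ‖h (x j)‖ ≤ (1 / 2) ^ j * M := by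
    intro h M hM j
    have h1 : ‖h (x j)‖ ≤ M * (1 + ‖x j‖) := by
      refine (h.le_opNorm _).trans ?_
      have := norm_nonneg (x j)
      have hM0 := (norm_nonneg h).trans hM
      gcongr
      linarith
    calc a j * ‖h (x j)‖ ≤ a j * (M * (1 + ‖x j‖)) := by
          have := (hapos j).le
          gcongr
      _ = (1 / 2) ^ j * M := by
          simp only [ha]
          have : 1 + ‖x j‖ ≠ 0 := by positivity
          field_simp
  have hgeo : Summable (fun j : ℕ => ((1 : ℝ) / 2) ^ j) := summable_geometric_two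
  have hsummable : ∀ h : StrongDual 𝕜 E, Summable fun j => a j * ‖h (x j)‖ := fun h =>
    Summable.of_nonneg_of_le (fun j => mul_nonneg (hapos j).le (norm_nonneg _))
      (hterm h ‖h‖ le_rfl) (hgeo.mul_right _)
  set ρ : StrongDual 𝕜 E → ℝ := fun h => ∑' j, a j * ‖h (x j)‖ with hρ
  have hρ0 : ∀ h, 0 ≤ ρ h := fun h => tsum_nonneg fun j => mul_nonneg (hapos j).le (norm_nonneg _)
  -- functionals which vanish on the subspace
  set K : Set (StrongDual 𝕜 E) := {g | ‖g‖ ≤ C ∧ ∀ y ∈ G, g y = 0} with hK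
  have hK0 : (0 : StrongDual 𝕜 E) ∈ K := ⟨by rw [norm_zero]; exact hC0.le, fun y _ => rfl⟩
  have hne : Nonempty K := ⟨⟨0, hK0⟩⟩
  have hclaim : ∀ ε > 0, ∀ᶠ n in atTop, ∃ g ∈ K, ρ (f n - g) < ε := by
    intro ε hε
    by_contra hc
    rw [not_eventually] at hc
    obtain ⟨τ, hτ, hτ2⟩ := extraction_of_frequently_atTop hc
    have hmem : ∀ n, StrongDual.toWeakDual (f (τ n)) ∈
        WeakDual.toStrongDual ⁻¹' Metric.closedBall (0 : StrongDual 𝕜 E) C := by
      intro n
      show f (τ n) ∈ Metric.closedBall (0 : StrongDual 𝕜 E) C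
      rw [mem_closedBall_zero_iff]
      exact hf1 _
    obtain ⟨g, hg, σ, hσ, hlim⟩ := (WeakDual.isSeqCompact_closedBall 𝕜 E 0 C) hmem
    set g' : StrongDual 𝕜 E := WeakDual.toStrongDual g with hg'
    have hpt : ∀ v : E, Tendsto (fun n => f (τ (σ n)) v) atTop (𝓝 (g' v)) := by
      intro v
      exact ((WeakDual.eval_continuous v).tendsto g).comp hlim
    have hgK : g' ∈ K := by
      constructor
      · have : g' ∈ Metric.closedBall (0 : StrongDual 𝕜 E) C := hg
        rwa [mem_closedBall_zero_iff] at this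
      · intro y hy
        exact tendsto_nhds_unique (hpt y) ((hf2 y hy).comp (hτ.comp hσ).tendsto_atTop)
    have hρlim : Tendsto (fun n => ρ (f (τ (σ n)) - g')) atTop (𝓝 (∑' _ : ℕ, (0 : ℝ))) := by
      refine tendsto_tsum_of_dominated_convergence (bound := fun j => (1 / 2) ^ j * (C + C))
        (hgeo.mul_right _) (fun j => ?_) (Eventually.of_forall fun n j => ?_)
      · have h1 := ((hpt (x j)).sub_const (g' (x j))).norm.const_mul (a j)
        rw [sub_self, norm_zero, mul_zero] at h1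
        exact h1
      · rw [Real.norm_of_nonneg (mul_nonneg (hapos j).le (norm_nonneg _))]
        exact hterm _ _ ((norm_sub_le _ _).trans (add_le_add (hf1 _) hgK.1)) j
    rw [tsum_zero] at hρlim
    obtain ⟨n, hn⟩ := (hρlim.eventually_lt_const hε).exists
    exact hτ2 (σ n) ⟨g', hgK, hn⟩
  -- nearly optimal choices
  have hbdd : ∀ n, BddBelow (Set.range fun g : K => ρ (f n - g.1)) := fun n =>
    ⟨0, by rintro _ ⟨g, rfl⟩; exact hρ0 _⟩
  have hchoose : ∀ n : ℕ, ∃ g : K, ρ (f n - g.1) < (⨅ g : K, ρ (f n - g.1)) + 1 / ((n : ℝ) + 1) := by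
    intro n
    exact exists_lt_of_ciInf_lt (by
      have : (0 : ℝ) < 1 / ((n : ℝ) + 1) := by positivity
      linarith)
  choose g hg using hchoose
  have hρ_lim : Tendsto (fun n => ρ (f n - (g n).1)) atTop (𝓝 0) := by
    rw [Metric.tendsto_atTop]
    intro ε hε
    obtain ⟨N, hN⟩ := eventually_atTop.1 ((hclaim (ε / 2) (half_pos hε)).and
      ((tendsto_one_div_add_atTop_nhds_zero_nat (𝕜 := ℝ)).eventually_lt_const (half_pos hε)))
    refine ⟨N, fun n hn => ?_⟩
    obtain ⟨⟨h, hh1, hh2⟩, h3⟩ := hN n hn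
    rw [dist_zero_right, Real.norm_of_nonneg (hρ0 _)]
    have h4 : (⨅ g : K, ρ (f n - g.1)) ≤ ρ (f n - h) := ciInf_le (hbdd n) ⟨h, hh1⟩
    have h5 := hg n
    linarith
  refine ⟨fun n => f n - (g n).1, fun n => (norm_sub_le _ _).trans (add_le_add (hf1 _) (g n).2.1),
    fun n y hy => ?_, ?_⟩
  · have := (g n).2.2 y hy
    change f n y - (g n).1 y = f n y
    rw [this, sub_zero]
  set q : ℕ → StrongDual 𝕜 E := fun n => f n - (g n).1 with hq
  have hqn : ∀ n v, ‖q n v‖ ≤ (C + C) * ‖v‖ := by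
    intro n v
    refine ((q n).le_opNorm v).trans ?_
    have : ‖q n‖ ≤ C + C := (norm_sub_le _ _).trans (add_le_add (hf1 _) (g n).2.1)
    gcongr
  have hqx : ∀ j, Tendsto (fun n => q n (x j)) atTop (𝓝 0) := by
    intro j
    have h1 : Tendsto (fun n => (a j)⁻¹ * ρ (q n)) atTop (𝓝 ((a j)⁻¹ * 0)) :=
      hρ_lim.const_mul _
    rw [mul_zero] at h1
    refine squeeze_zero_norm (fun n => ?_) h1
    have h2 : a j * ‖q n (x j)‖ ≤ ρ (q n) :=
      (hsummable (q n)).le_tsum j (fun k _ => mul_nonneg (hapos k).le (norm_nonneg _))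
    rw [inv_mul_eq_div, le_div_iff₀ (hapos j), mul_comm]
    exact h2
  intro v
  rw [Metric.tendsto_atTop]
  intro ε hε
  obtain ⟨j, hj⟩ := hxd.exists_dist_lt v (show 0 < ε / (2 * (C + C)) by positivity)
  obtain ⟨N, hN⟩ := Metric.tendsto_atTop.1 (hqx j) (ε / 2) (half_pos hε)
  refine ⟨N, fun n hn => ?_⟩
  have h1 := hN n hn
  rw [dist_zero_right] at h1 ⊢
  rw [dist_eq_norm] at hj
  have e1 : q n v = q n (v - x j) + q n (x j) := by rw [map_sub]; ring
  rw [e1]
  refine lt_of_le_of_lt (norm_add_le _ _) ?_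
  have h2 := hqn n (v - x j)
  have h3 : (C + C) * ‖v - x j‖ < (C + C) * (ε / (2 * (C + C))) := by gcongr
  have h4 : (C + C) * (ε / (2 * (C + C))) = ε / 2 := by field_simp
  linarith

/-- A point outside a closed subspace is separated from it by a functional which is one there. -/
theorem exists_functional (S : Submodule 𝕜 E) (hS : IsClosed (S : Set E)) {v : E} (hv : v ∉ S) :
    ∃ h : StrongDual 𝕜 E, (∀ s ∈ S, h s = 0) ∧ h v = 1 := by
  have : IsClosed (S : Set E) := hS
  have hne : (Submodule.Quotient.mk v : E ⧸ S) ≠ 0 := by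
    rw [Ne, Submodule.Quotient.mk_eq_zero]
    exact hv
  have hpos : ‖(Submodule.Quotient.mk v : E ⧸ S)‖ ≠ 0 := norm_ne_zero_iff.2 hne
  obtain ⟨g, hg1, hg2⟩ := exists_dual_vector 𝕜 _ hpos
  refine ⟨((‖(Submodule.Quotient.mk v : E ⧸ S)‖ : 𝕜)⁻¹) • g.comp S.mkQL, fun s hs => ?_, ?_⟩
  · change _ * g (Submodule.Quotient.mk s) = 0
    rw [(Submodule.Quotient.mk_eq_zero S).2 hs, map_zero, mul_zero]
  · change _ * g (Submodule.Quotient.mk v) = 1
    rw [hg2, inv_mul_cancel₀]
    exact_mod_cast hpos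

/-- The state of the Markushevich process. -/
structure MState (𝕜 E : Type*) [RCLike 𝕜] [NormedAddCommGroup E] [NormedSpace 𝕜 E] where
  /-- the closed subspace spanned so far -/
  S : Submodule 𝕜 E
  /-- the common kernel of the functionals chosen so far -/
  T : Submodule 𝕜 E
  closed : IsClosed (S : Set E)
  dec : ∀ v : E, ∃ s ∈ S, v - s ∈ T

/-- One step of the process. -/
theorem mstep (d : E) (σ : MState 𝕜 E) : ∃ (z : E) (h : StrongDual 𝕜 E) (σ' : MState 𝕜 E),
    z ∈ σ.T ∧ (∀ s ∈ σ.S, h s = 0) ∧ (h z = 1 ∨ (z = 0 ∧ h = 0)) ∧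
    σ'.S = (σ.S ⊔ Submodule.span 𝕜 {z}).topologicalClosure ∧ σ'.T ≤ σ.T ∧
    (∀ t ∈ σ'.T, h t = 0) ∧ d ∈ σ'.S := by
  by_cases hd : d ∈ σ.S
  · refine ⟨0, 0, σ, σ.T.zero_mem, fun _ _ => rfl, Or.inr ⟨rfl, rfl⟩, ?_, le_rfl, fun _ _ => rfl, hd⟩
    rw [Submodule.span_zero_singleton, sup_bot_eq]
    exact (IsClosed.submodule_topologicalClosure_eq σ.closed).symm
  · obtain ⟨s, hs, hst⟩ := σ.dec d
    have hz : d - s ∉ σ.S := fun h => hd (by
      have := σ.S.add_mem h hs
      rwa [sub_add_cancel] at this)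
    obtain ⟨h, hh1, hh2⟩ := exists_functional σ.S σ.closed hz
    refine ⟨d - s, h, ⟨(σ.S ⊔ Submodule.span 𝕜 {d - s}).topologicalClosure,
      σ.T ⊓ LinearMap.ker h.toLinearMap, Submodule.isClosed_topologicalClosure _, fun v => ?_⟩,
      hst, hh1, Or.inl hh2, rfl, inf_le_left, fun t ht => ht.2, ?_⟩
    · obtain ⟨s', hs', ht'⟩ := σ.dec v
      refine ⟨s' + h (v - s') • (d - s), ?_, ?_, ?_⟩
      · refine Submodule.le_topologicalClosure _ (Submodule.add_mem _ ?_ ?_)
        · exact Submodule.mem_sup_left hs'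
        · exact Submodule.mem_sup_right (Submodule.smul_mem _ _ (Submodule.mem_span_singleton_self _))
      · have : v - (s' + h (v - s') • (d - s)) = (v - s') - h (v - s') • (d - s) := by abel
        rw [this]
        exact σ.T.sub_mem ht' (σ.T.smul_mem _ hst)
      · change h (v - (s' + h (v - s') • (d - s))) = 0
        have : v - (s' + h (v - s') • (d - s)) = (v - s') - h (v - s') • (d - s) := by abel
        rw [this, map_sub h, map_smul, hh2, smul_eq_mul, mul_one, sub_self]
    · refine Submodule.le_topologicalClosure _ ?_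
      have : d = s + (d - s) := by abel
      rw [this]
      exact Submodule.add_mem _ (Submodule.mem_sup_left hs)
        (Submodule.mem_sup_right (by rw [← this]; exact Submodule.mem_span_singleton_self _))

/-- Markushevich: in a separable space, every closed subspace has a complete biorthogonal system
modulo that subspace. -/
theorem exists_complete_biorth [TopologicalSpace.SeparableSpace E] (G : Submodule 𝕜 E)
    (hG : IsClosed (G : Set E)) :
    ∃ (z : ℕ → E) (h : ℕ → StrongDual 𝕜 E), (∀ i, ∀ g ∈ G, h i g = 0) ∧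
      (∀ i j, i ≠ j → h i (z j) = 0) ∧ (∀ i, h i (z i) = 1 ∨ (z i = 0 ∧ h i = 0)) ∧
      ∀ v : E, v ∈ (G ⊔ Submodule.span 𝕜 (Set.range z)).topologicalClosure := by
  choose zz hh ss h1 h2 h3 h4 h5 h6 h7 using
    fun (p : E × MState 𝕜 E) => mstep p.1 p.2
  set d : ℕ → E := TopologicalSpace.denseSeq E with hd
  let st : ℕ → MState 𝕜 E := fun n => Nat.rec ⟨G, ⊤, hG, fun v => ⟨0, G.zero_mem, trivial⟩⟩
    (fun n σ => ss (d n, σ)) n
  have hst0 : (st 0).S = G := rfl
  have hst : ∀ n, st (n + 1) = ss (d n, st n) := fun n => rfl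
  set z : ℕ → E := fun n => zz (d n, st n) with hz
  set h : ℕ → StrongDual 𝕜 E := fun n => hh (d n, st n) with hh'
  have hSmono : ∀ n, (st n).S ≤ (st (n + 1)).S := by
    intro n
    rw [hst, h4]
    exact le_sup_left.trans (Submodule.le_topologicalClosure _)
  have hTanti : ∀ n, (st (n + 1)).T ≤ (st n).T := by
    intro n
    rw [hst]
    exact h5 _
  have hS : Monotone fun n => (st n).S := monotone_nat_of_le_succ hSmono
  have hT : Antitone fun n => (st n).T := antitone_nat_of_succ_le hTanti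
  have hzS : ∀ n, z n ∈ (st (n + 1)).S := by
    intro n
    rw [hst, h4]
    exact Submodule.le_topologicalClosure _
      (Submodule.mem_sup_right (Submodule.mem_span_singleton_self _))
  have hzT : ∀ n, z n ∈ (st n).T := fun n => h1 (d n, st n)
  have hhS : ∀ n, ∀ s ∈ (st n).S, h n s = 0 := fun n => h2 (d n, st n)
  have hhT : ∀ n, ∀ t ∈ (st (n + 1)).T, h n t = 0 := by
    intro n t ht
    rw [hst] at ht
    exact h6 (d n, st n) t ht
  refine ⟨z, h, fun i g hg => hhS i g (hS (Nat.zero_le i) (by exact hg)), fun i j hij => ?_,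
    fun i => h3 (d i, st i), ?_⟩
  · rcases lt_or_gt_of_ne hij with hlt | hlt
    · exact hhT i _ (hT (Nat.succ_le_of_lt hlt) (hzT j))
    · exact hhS i _ (hS (Nat.succ_le_of_lt hlt) (hzS j))
  · have hle : ∀ n, (st n).S ≤ (G ⊔ Submodule.span 𝕜 (Set.range z)).topologicalClosure := by
      intro n
      induction n with
      | zero => exact le_sup_left.trans (Submodule.le_topologicalClosure _)
      | succ n ih =>
        rw [hst, h4]
        refine Submodule.topologicalClosure_minimal _ (sup_le ih ?_)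
          (Submodule.isClosed_topologicalClosure _)
        rw [Submodule.span_singleton_le_iff_mem]
        exact Submodule.le_topologicalClosure _
          (Submodule.mem_sup_right (Submodule.subset_span ⟨n, rfl⟩))
    have hdm : ∀ n, d n ∈ (G ⊔ Submodule.span 𝕜 (Set.range z)).topologicalClosure := by
      intro n
      refine hle (n + 1) ?_
      rw [hst]
      exact h7 (d n, st n)
    intro v
    have hcl : IsClosed ((G ⊔ Submodule.span 𝕜 (Set.range z)).topologicalClosure : Set E) :=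
      Submodule.isClosed_topologicalClosure _
    have hsub : closure (Set.range d) ⊆
        ((G ⊔ Submodule.span 𝕜 (Set.range z)).topologicalClosure : Set E) :=
      closure_minimal (by rintro _ ⟨n, rfl⟩; exact hdm n) hcl
    exact hsub (TopologicalSpace.denseRange_denseSeq E v)

end Pool.Agent.X202
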